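import Pool.Agent.TH223.AP.A5

/-! The mean square of `M((1+δ)x) - M(x)`. -/

set_option autoImplicit false

open MeasureTheory Filter Topology Set

namespace Pool.Agent.X113.GG

open Pool.Agent.H295R2 (Mx JJ JW GR ww ee ee_mul cont_iOn)
open Pool.Agent.W120.WM (ZC msq msq_eq NT)
open Pool.Agent.TH223.AP

/-- the mean square of a partial Fourier sum -/
theorem mean_trig_sq (Z : Finset ℂ) (hZ : ∀ ρ ∈ Z, ρ.re = 1 / 2) (w : ℂ → ℂ) :
    Tendsto (mn fun v => ‖∑ ρ ∈ Z, w ρ * ee ρ v‖ ^ 2) atTop (𝓝 (∑ ρ ∈ Z, ‖w ρ‖ ^ 2)) := by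
  classical
  have h2 : Tendsto (fun V : ℝ => ∑ ρ ∈ Z, ∑ ρ' ∈ Z, w ρ * (starRingEnd ℂ) (w ρ') * (GR (ρ - ρ') V / V))
      atTop (𝓝 (∑ ρ ∈ Z, ∑ ρ' ∈ Z, w ρ * (starRingEnd ℂ) (w ρ') * (if ρ - ρ' = 0 then 1 else 0))) := by
    refine tendsto_finsetSum _ fun ρ hρ => tendsto_finsetSum _ fun ρ' hρ' => ?_
    refine (GR_lim ?_).const_mul _
    rw [Complex.sub_re, hZ ρ hρ, hZ ρ' hρ', sub_self]
  have h3 := (Complex.continuous_re.tendsto _).comp h2
  have e2 : (∑ ρ ∈ Z, ∑ ρ' ∈ Z, w ρ * (starRingEnd ℂ) (w ρ') * (if ρ - ρ' = 0 then (1:ℂ) else 0)).re =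
      ∑ ρ ∈ Z, ‖w ρ‖ ^ 2 := by
    rw [Complex.re_sum]
    refine Finset.sum_congr rfl fun ρ hρ => ?_
    have e3 : ∑ ρ' ∈ Z, w ρ * (starRingEnd ℂ) (w ρ') * (if ρ - ρ' = 0 then (1:ℂ) else 0) =
        w ρ * (starRingEnd ℂ) (w ρ) := by
      rw [Finset.sum_eq_single ρ]
      · simp
      · intro ρ' _ hne
        rw [if_neg (sub_ne_zero.2 (Ne.symm hne)), mul_zero]
      · exact fun h => absurd hρ h
    rw [e3, mul_comm, ← Complex.normSq_eq_conj_mul_self, Complex.normSq_eq_norm_sq, Complex.ofReal_re]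
  rw [e2] at h3
  refine h3.congr' ?_
  filter_upwards [eventually_gt_atTop (0:ℝ)] with V hV
  simp only [Function.comp]
  unfold mn
  rw [intervalIntegral.integral_of_le hV.le]
  have hpt : ∀ s : ℝ, ‖∑ ρ ∈ Z, w ρ * ee ρ s‖ ^ 2 =
      (∑ ρ ∈ Z, ∑ ρ' ∈ Z, w ρ * (starRingEnd ℂ) (w ρ') * Complex.exp ((ρ - ρ') * s)).re := by
    intro s
    have h1 : ((Complex.normSq (∑ ρ ∈ Z, w ρ * ee ρ s) : ℝ) : ℂ) =
        ∑ ρ ∈ Z, ∑ ρ' ∈ Z, w ρ * (starRingEnd ℂ) (w ρ') * Complex.exp ((ρ - ρ') * s) := by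
      rw [Complex.normSq_eq_conj_mul_self, mul_comm]
      rw [map_sum, Finset.sum_mul_sum]
      refine Finset.sum_congr rfl fun ρ _ => Finset.sum_congr rfl fun ρ' hρ' => ?_
      rw [map_mul, ← ee_mul (ρ := ρ) (hZ ρ' hρ') s]; ring
    rw [← Complex.normSq_eq_norm_sq, ← h1, Complex.ofReal_re]
  have i2 : IntegrableOn (fun s : ℝ => ∑ ρ ∈ Z, ∑ ρ' ∈ Z, w ρ * (starRingEnd ℂ) (w ρ') * Complex.exp ((ρ - ρ') * s)) (Ioc 0 V) :=
    cont_iOn (by fun_prop) V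
  have e7 : ∫ s in Ioc 0 V, (∑ ρ ∈ Z, ∑ ρ' ∈ Z, w ρ * (starRingEnd ℂ) (w ρ') * Complex.exp ((ρ - ρ') * s)).re =
      (∑ ρ ∈ Z, ∑ ρ' ∈ Z, w ρ * (starRingEnd ℂ) (w ρ') * GR (ρ - ρ') V).re := by
    have := integral_re i2
    simp only [RCLike.re_eq_complex_re] at this
    rw [this, integral_finsetSum]
    · congr 1
      refine Finset.sum_congr rfl fun ρ _ => ?_
      rw [integral_finsetSum]
      · refine Finset.sum_congr rfl fun ρ' _ => ?_
        rw [integral_const_mul]; rfl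
      · exact fun ρ' _ => cont_iOn (by fun_prop) V
    · exact fun ρ _ => cont_iOn (by fun_prop) V
  simp only [hpt]
  rw [e7]
  have h7 : (∑ ρ ∈ Z, ∑ ρ' ∈ Z, w ρ * (starRingEnd ℂ) (w ρ') * (GR (ρ - ρ') V / V)) =
      (∑ ρ ∈ Z, ∑ ρ' ∈ Z, w ρ * (starRingEnd ℂ) (w ρ') * GR (ρ - ρ') V) / ((V : ℝ) : ℂ) := by
    rw [Finset.sum_div]
    refine Finset.sum_congr rfl fun ρ _ => ?_
    rw [Finset.sum_div]
    exact Finset.sum_congr rfl fun ρ' _ => by ring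
  rw [h7, Complex.div_ofReal_re]

/-- the normalised increment -/
noncomputable def qf (h v : ℝ) : ℝ := Real.exp (h / 2) * ft (v + h) - ft v

theorem ft_shift_LB {h : ℝ} (hh : 0 ≤ h) : LB (fun v => ft (v + h)) := by
  refine ⟨ft_LB.meas.comp (measurable_id.add_const h), fun V => ?_⟩
  obtain ⟨B, hB⟩ := ft_LB.bdd (V + h)
  exact ⟨B, fun v hv => hB _ ⟨by linarith [hv.1], by linarith [hv.2]⟩⟩

theorem qf_LB {h : ℝ} (hh : 0 ≤ h) : LB (qf h) :=
  ((ft_shift_LB hh).const_mul _).sub ft_LB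

/-- the mean over a shifted window -/
theorem mn_shift_le {g : ℝ → ℝ} (hg : ∀ v, 0 ≤ g v) (hL : LB g) {h V : ℝ} (hh : 0 ≤ h) (hV : 0 < V) :
    mn (fun v => g (v + h)) V ≤ (V + h) / V * mn g (V + h) := by
  unfold mn
  have e : (V + h) / V * ((∫ v in (0:ℝ)..(V + h), g v) / (V + h)) = (∫ v in (0:ℝ)..(V + h), g v) / V := by
    have : V + h ≠ 0 := by linarith
    field_simp
  rw [e]
  apply div_le_div_of_nonneg_right _ hV.le
  rw [intervalIntegral.integral_comp_add_right (f := g) h, zero_add]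
  rw [intervalIntegral.integral_of_le (by linarith), intervalIntegral.integral_of_le (by linarith)]
  apply setIntegral_mono_set
  · exact (intervalIntegrable_iff_integrableOn_Ioc_of_le (by linarith)).1 (hL.ii (by linarith))
  · exact Eventually.of_forall hg
  · exact (Ioc_subset_Ioc_left hh).eventuallyLE

/-- from below -/
theorem mn_shift_ge {g : ℝ → ℝ} (hg : ∀ v, 0 ≤ g v) (hL : LB g) {h V : ℝ} (hh : 0 ≤ h) (hV : 0 < V) :
    mn g V - (∫ v in (0:ℝ)..h, g v) / V ≤ mn (fun v => g (v + h)) V := by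
  unfold mn
  rw [← sub_div]
  apply div_le_div_of_nonneg_right _ hV.le
  rw [intervalIntegral.integral_comp_add_right (f := g) h, zero_add]
  have h1 := intervalIntegral.integral_add_adjacent_intervals (μ := volume) (f := g) (a := 0) (b := h)
    (c := V + h) (hL.ii hh) ?_
  · have h2 : ∫ v in (0:ℝ)..V, g v ≤ ∫ v in (0:ℝ)..(V + h), g v := by
      rw [intervalIntegral.integral_of_le (by linarith), intervalIntegral.integral_of_le (by linarith)]
      apply setIntegral_mono_set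
      · exact (intervalIntegrable_iff_integrableOn_Ioc_of_le (by linarith)).1 (hL.ii (by linarith))
      · exact Eventually.of_forall hg
      · exact (Ioc_subset_Ioc_right (by linarith)).eventuallyLE
    linarith
  · rw [intervalIntegrable_iff_integrableOn_Ioc_of_le (by linarith)]
    exact ((intervalIntegrable_iff_integrableOn_Ioc_of_le (by linarith)).1
      (hL.ii (V := V + h) (by linarith))).mono_set (Ioc_subset_Ioc_left hh)

/-- without the conditions on the zeros the mean square is infinite -/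
theorem qf_infinite (hZ : ¬ ZC) {h : ℝ} (hh : 0 < h) :
    Tendsto (mn fun v => qf h v ^ 2) atTop atTop := by
  rw [tendsto_atTop]
  intro C
  by_contra hcon
  rw [Filter.not_eventually] at hcon
  apply hZ
  obtain ⟨η, hη⟩ : ∃ η : ℝ, η = (Real.exp h - 1) / 2 := ⟨_, rfl⟩
  have hη0 : 0 < η := by
    rw [hη]
    have := Real.add_one_lt_exp hh.ne'
    linarith
  obtain ⟨K, hK⟩ : ∃ K : ℝ, K = ∫ v in (0:ℝ)..h, ft v ^ 2 := ⟨_, rfl⟩
  have hK0 : 0 ≤ K := by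
    rw [hK]
    exact intervalIntegral.integral_nonneg hh.le fun v _ => sq_nonneg _
  refine ZC_of_freq (C := ((1 + 1 / η) * C + Real.exp h * K) / η) ?_
  refine (hcon.and_eventually (eventually_ge_atTop (1 : ℝ))).mono fun V hV => ?_
  obtain ⟨h1, hV1⟩ := hV
  have hV0 : 0 < V := by linarith
  rw [not_le] at h1
  have hs := ft_shift_LB hh.le
  have hq := qf_LB hh.le
  have h2 : mn (fun v => Real.exp h * ft (v + h) ^ 2) V ≤
      mn (fun v => (1 + η) * ft v ^ 2 + (1 + 1 / η) * qf h v ^ 2) V := by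
    refine mn_mono hV0 ((hs.sq.const_mul _).ii hV0.le)
      (((ft_LB.sq.const_mul _).add (hq.sq.const_mul _)).ii hV0.le) fun v _ => ?_
    have e1 : Real.exp h * ft (v + h) ^ 2 = (ft v + qf h v) ^ 2 := by
      unfold qf
      have : Real.exp h = Real.exp (h / 2) ^ 2 := by
        rw [← Real.exp_nat_mul]
        congr 1
        push_cast
        ring
      rw [this]
      ring
    rw [e1]
    have e2 : (1 + η) * ft v ^ 2 + (1 + 1 / η) * qf h v ^ 2 - (ft v + qf h v) ^ 2 =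
        (η * ft v - qf h v) ^ 2 / η := by
      field_simp
      ring
    have e3 : 0 ≤ (η * ft v - qf h v) ^ 2 / η := by positivity
    linarith
  rw [mn_const_mul, mn_add ((ft_LB.sq.const_mul _).ii hV0.le) ((hq.sq.const_mul _).ii hV0.le),
    mn_const_mul, mn_const_mul] at h2
  have h3 := mn_shift_ge (g := fun v => ft v ^ 2) (fun v => sq_nonneg _) ft_LB.sq hh.le hV0
  rw [← hK] at h3
  have h4 : K / V ≤ K := div_le_self hK0 hV1
  have he : 0 < Real.exp h := Real.exp_pos h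
  obtain ⟨m, hm⟩ : ∃ m : ℝ, m = mn (fun v => ft v ^ 2) V := ⟨_, rfl⟩
  rw [← hm] at h2 h3 ⊢
  have h5 : Real.exp h * (m - K) ≤ (1 + η) * m + (1 + 1 / η) * C := by
    refine (mul_le_mul_of_nonneg_left (by linarith : m - K ≤ mn (fun v => ft (v + h) ^ 2) V) he.le).trans
      (h2.trans ?_)
    have : 0 < 1 + 1 / η := by positivity
    have := mul_le_mul_of_nonneg_left h1.le this.le
    linarith
  rw [le_div_iff₀ hη0]
  have h6 : Real.exp h = 1 + 2 * η := by rw [hη]; ring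
  rw [h6] at h5 ⊢
  nlinarith

/-- the coefficient of the increment -/
noncomputable def dw (h : ℝ) (ρ : ℂ) : ℂ := ww ρ * (Complex.exp (ρ * h) - 1)

theorem dw_sum (h : ℝ) (Z : Finset ℂ) (v : ℝ) :
    ∑ ρ ∈ Z, dw h ρ * ee ρ v = Complex.exp (h / 2) * ∑ ρ ∈ Z, ww ρ * ee ρ (v + h) -
      ∑ ρ ∈ Z, ww ρ * ee ρ v := by
  rw [Finset.mul_sum, ← Finset.sum_sub_distrib]
  refine Finset.sum_congr rfl fun ρ _ => ?_
  unfold dw ee
  have e1 : Complex.exp (h / 2) * (ww ρ * Complex.exp ((ρ - 1 / 2) * ((v + h : ℝ) : ℂ))) =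
      ww ρ * (Complex.exp (ρ * h) * Complex.exp ((ρ - 1 / 2) * v)) := by
    rw [← Complex.exp_add, mul_left_comm, ← Complex.exp_add]
    congr 2
    push_cast
    ring
  rw [e1]
  ring

theorem exp_sub_bd {h : ℝ} {ρ : ℂ} (hρ : ρ.re = 1 / 2) :
    ‖Complex.exp (ρ * h) - 1‖ ^ 2 ≤ (Real.exp (h / 2) + 1) ^ 2 := by
  have h1 : ‖Complex.exp (ρ * h) - 1‖ ≤ Real.exp (h / 2) + 1 := by
    refine (norm_sub_le _ _).trans ?_
    rw [Complex.norm_exp, norm_one]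
    have : (ρ * h).re = h / 2 := by
      rw [Complex.mul_re, Complex.ofReal_re, Complex.ofReal_im, hρ]
      ring
    rw [this]
  exact pow_le_pow_left₀ (norm_nonneg _) h1 2

theorem dw_bd {h : ℝ} {ρ : ℂ} (hρ : ρ.re = 1 / 2) :
    ‖dw h ρ‖ ^ 2 ≤ (Real.exp (h / 2) + 1) ^ 2 * (1 / ‖ρ * deriv riemannZeta ρ‖ ^ 2) := by
  unfold dw
  rw [norm_mul, mul_pow, ww_sq, mul_comm]
  exact mul_le_mul_of_nonneg_right (exp_sub_bd hρ) (by positivity)

theorem dw_summable (hZ : ZC) (h : ℝ) : Summable fun ρ : NT => ‖dw h ρ‖ ^ 2 := by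
  refine Summable.of_nonneg_of_le (fun ρ => by positivity) (fun ρ => dw_bd (hZ.1 ρ ρ.2).1)
    (hZ.2.mul_left _)

/-- the mean square of the increment under the conditions on the zeros -/
theorem qf_limit (hZ : ZC) {h : ℝ} (hh : 0 ≤ h) :
    Tendsto (mn fun v => qf h v ^ 2) atTop (𝓝 (∑' ρ : NT, ‖dw h ρ‖ ^ 2)) := by
  classical
  have hsum := dw_summable hZ h
  obtain ⟨D, hD⟩ : ∃ D : ℝ, D = ∑' ρ : NT, ‖dw h ρ‖ ^ 2 := ⟨_, rfl⟩
  have hD0 : 0 ≤ D := by rw [hD]; exact tsum_nonneg fun ρ => by positivity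
  rw [← hD]
  rw [Metric.tendsto_nhds]
  intro ε hε
  obtain ⟨B, hB⟩ : ∃ B : ℝ, B = Real.exp h := ⟨_, rfl⟩
  have hB1 : 1 ≤ B := by rw [hB]; exact Real.one_le_exp hh
  obtain ⟨η, hη⟩ : ∃ η : ℝ, η = ε / (8 * (D + 2)) := ⟨_, rfl⟩
  have hη0 : 0 < η := by rw [hη]; positivity
  obtain ⟨κ, hκ⟩ : ∃ κ : ℝ, κ = ε / (8 * ((1 + 1 / η) * (4 * B + 2))) := ⟨_, rfl⟩
  have hκ0 : 0 < κ := by rw [hκ]; positivity
  -- choose a finite set
  obtain ⟨u, hu1, hu2⟩ : ∃ u : Finset NT, SS - ∑ ρ ∈ u, 1 / ‖(ρ : ℂ) * deriv riemannZeta ρ‖ ^ 2 < κ ∧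
      |D - ∑ ρ ∈ u, ‖dw h ρ‖ ^ 2| < ε / 8 := by
    have h2 := Metric.tendsto_nhds.1 hZ.2.hasSum κ hκ0
    have h3 := Metric.tendsto_nhds.1 hsum.hasSum (ε / 8) (by positivity)
    obtain ⟨u, hu, hu'⟩ := (h2.and h3).exists
    refine ⟨u, ?_, ?_⟩
    · rw [Real.dist_eq, abs_lt] at hu
      have h4 := hu.1
      unfold SS
      linarith
    · rw [Real.dist_eq, abs_sub_comm, ← hD] at hu'
      exact hu'
  obtain ⟨Z, hZdef⟩ : ∃ Z : Finset ℂ, Z = u.map (Function.Embedding.subtype _) := ⟨_, rfl⟩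
  have hZN : ∀ ρ ∈ Z, ρ ∈ NT := by
    intro ρ hρ
    rw [hZdef, Finset.mem_map] at hρ
    obtain ⟨ρ', -, rfl⟩ := hρ
    exact ρ'.2
  have hre : ∀ ρ ∈ Z, ρ.re = 1 / 2 := fun ρ hρ => (hZ.1 ρ (hZN ρ hρ)).1
  have hs1 : ∑ ρ ∈ Z, 1 / ‖ρ * deriv riemannZeta ρ‖ ^ 2 =
      ∑ ρ ∈ u, 1 / ‖(ρ : ℂ) * deriv riemannZeta ρ‖ ^ 2 := by
    rw [hZdef, Finset.sum_map]
    rfl
  have hs2 : ∑ ρ ∈ Z, ‖dw h ρ‖ ^ 2 = ∑ ρ ∈ u, ‖dw h ρ‖ ^ 2 := by
    rw [hZdef, Finset.sum_map]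
    rfl
  have h1 := dist_lim' hZ Z hZN
  rw [hs1] at h1
  have h2 := mean_trig_sq Z hre (dw h)
  rw [hs2] at h2
  obtain ⟨rr, hrr⟩ : ∃ rr : ℝ → ℝ, rr = fun v => ‖((ft v : ℝ) : ℂ) - ∑ ρ ∈ Z, ww ρ * ee ρ v‖ ^ 2 :=
    ⟨_, rfl⟩
  rw [← hrr] at h1
  have hcP : Continuous fun v : ℝ => ∑ ρ ∈ Z, ww ρ * ee ρ v := by
    unfold ee
    fun_prop
  have hcQ : Continuous fun v : ℝ => ∑ ρ ∈ Z, dw h ρ * ee ρ v := by
    unfold ee
    fun_prop
  have hrL : LB rr := by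
    rw [hrr]
    exact ft_LB.normsq hcP
  have hr0 : ∀ v, 0 ≤ rr v := by
    intro v
    rw [hrr]
    positivity
  have hrs : LB (fun v => rr (v + h)) := by
    refine ⟨hrL.meas.comp (measurable_id.add_const h), fun V => ?_⟩
    obtain ⟨B, hB⟩ := hrL.bdd (V + h)
    exact ⟨B, fun v hv => hB _ ⟨by linarith [hv.1], by linarith [hv.2]⟩⟩
  -- the mean of the shifted remainder
  have h3 : ∀ᶠ V : ℝ in atTop, mn rr V < κ := h1.eventually (gt_mem_nhds hu1)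
  have h4 : ∀ᶠ V : ℝ in atTop, mn (fun v => rr (v + h)) V ≤ 2 * κ := by
    have h5 : Tendsto (fun V : ℝ => V + h) atTop atTop := tendsto_atTop_add_const_right _ _ tendsto_id
    filter_upwards [h5.eventually h3, eventually_gt_atTop 0, eventually_ge_atTop h] with V h6 h7 h8
    refine (mn_shift_le hr0 hrL hh h7).trans ?_
    have h9 : (V + h) / V ≤ 2 := by
      rw [div_le_iff₀ h7]
      linarith
    have h10 : 0 ≤ mn rr (V + h) := by
      unfold mn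
      exact div_nonneg (intervalIntegral.integral_nonneg (by linarith) fun v _ => hr0 v) (by linarith)
    exact mul_le_mul h9 h6.le h10 (by norm_num)
  have hq := qf_LB hh
  have hQL : LB (fun v => ‖∑ ρ ∈ Z, dw h ρ * ee ρ v‖ ^ 2) := LB.of_cont (by fun_prop)
  have h5 := Metric.tendsto_nhds.1 h2 (min 1 (ε / 8)) (by positivity)
  filter_upwards [h3, h4, h5, eventually_gt_atTop 0] with V h6 h7 h8 hV
  rw [Real.dist_eq] at h8 ⊢
  obtain ⟨S, hS⟩ : ∃ S : ℝ, S = ∑ ρ ∈ u, ‖dw h ρ‖ ^ 2 := ⟨_, rfl⟩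
  rw [← hS] at h8 hu2
  obtain ⟨m, hm⟩ : ∃ m : ℝ, m = mn (fun v => ‖∑ ρ ∈ Z, dw h ρ * ee ρ v‖ ^ 2) V := ⟨_, rfl⟩
  rw [← hm] at h8
  have h9 : |mn (fun v => qf h v ^ 2) V - m| ≤
      mn (fun v => η * ‖∑ ρ ∈ Z, dw h ρ * ee ρ v‖ ^ 2 + (1 + 1 / η) * (2 * B * rr (v + h) + 2 * rr v)) V := by
    rw [hm]
    refine abs_mn_sub_le hV (hq.sq.ii hV.le) (hQL.ii hV.le)
      (((hQL.const_mul _).add (((hrs.const_mul _).add (hrL.const_mul _)).const_mul _)).ii hV.le) fun v _ => ?_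
    obtain ⟨x, hx⟩ : ∃ x : ℂ, x = ((qf h v : ℝ) : ℂ) := ⟨_, rfl⟩
    obtain ⟨y, hy⟩ : ∃ y : ℂ, y = ∑ ρ ∈ Z, dw h ρ * ee ρ v := ⟨_, rfl⟩
    have e1 : qf h v ^ 2 = ‖x‖ ^ 2 := by
      rw [hx, Complex.norm_real, Real.norm_eq_abs, sq_abs]
    have e2 : ‖x - y‖ ^ 2 ≤ 2 * B * rr (v + h) + 2 * rr v := by
      have e3 : x - y = Complex.exp (h / 2) * (((ft (v + h) : ℝ) : ℂ) - ∑ ρ ∈ Z, ww ρ * ee ρ (v + h)) -
          (((ft v : ℝ) : ℂ) - ∑ ρ ∈ Z, ww ρ * ee ρ v) := by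
        rw [hx, hy, dw_sum]
        unfold qf
        push_cast
        ring
      rw [e3]
      have e4 := norm_sub_le (Complex.exp (h / 2) * (((ft (v + h) : ℝ) : ℂ) - ∑ ρ ∈ Z, ww ρ * ee ρ (v + h)))
        (((ft v : ℝ) : ℂ) - ∑ ρ ∈ Z, ww ρ * ee ρ v)
      rw [norm_mul] at e4
      have e5 : ‖Complex.exp ((h : ℂ) / 2)‖ = Real.exp (h / 2) := by
        rw [Complex.norm_exp]
        simp
      rw [e5] at e4
      have e6 : B = Real.exp (h / 2) ^ 2 := by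
        rw [hB, ← Real.exp_nat_mul]
        congr 1
        push_cast
        ring
      rw [hrr]
      simp only
      obtain ⟨a, ha⟩ : ∃ a : ℝ, a = ‖((ft (v + h) : ℝ) : ℂ) - ∑ ρ ∈ Z, ww ρ * ee ρ (v + h)‖ := ⟨_, rfl⟩
      obtain ⟨b, hb⟩ : ∃ b : ℝ, b = ‖((ft v : ℝ) : ℂ) - ∑ ρ ∈ Z, ww ρ * ee ρ v‖ := ⟨_, rfl⟩
      rw [← ha, ← hb] at e4 ⊢
      rw [e6]
      have e7 := pow_le_pow_left₀ (norm_nonneg _) e4 2
      refine e7.trans ?_
      nlinarith [sq_nonneg (Real.exp (h / 2) * a - b)]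
    rw [e1, ← hy]
    have e3 : ‖x‖ ≤ ‖y‖ + ‖x - y‖ := by
      have := norm_add_le y (x - y)
      rwa [add_sub_cancel] at this
    have e4 : ‖y‖ ≤ ‖x‖ + ‖x - y‖ := by
      have := norm_sub_le x (x - y)
      rwa [sub_sub_cancel] at this
    obtain ⟨a, ha⟩ : ∃ a : ℝ, a = ‖x‖ := ⟨_, rfl⟩
    obtain ⟨b, hb⟩ : ∃ b : ℝ, b = ‖y‖ := ⟨_, rfl⟩
    obtain ⟨c, hc⟩ : ∃ c : ℝ, c = ‖x - y‖ := ⟨_, rfl⟩
    have ha0 : 0 ≤ a := by rw [ha]; exact norm_nonneg _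
    have hb0 : 0 ≤ b := by rw [hb]; exact norm_nonneg _
    have hc0 : 0 ≤ c := by rw [hc]; exact norm_nonneg _
    rw [← ha, ← hb, ← hc] at e3 e4
    rw [← hc] at e2
    rw [← ha, ← hb]
    have e5 : |a ^ 2 - b ^ 2| ≤ η * b ^ 2 + (1 + 1 / η) * c ^ 2 := by
      have e6 : |a ^ 2 - b ^ 2| ≤ 2 * b * c + c ^ 2 := by
        rw [abs_le]
        constructor <;> nlinarith
      have e7 : η * b ^ 2 + (1 + 1 / η) * c ^ 2 - (2 * b * c + c ^ 2) = (η * b - c) ^ 2 / η := by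
        field_simp
        ring
      have e8 : 0 ≤ (η * b - c) ^ 2 / η := by positivity
      linarith
    have e6 : (1 + 1 / η) * c ^ 2 ≤ (1 + 1 / η) * (2 * B * rr (v + h) + 2 * rr v) :=
      mul_le_mul_of_nonneg_left e2 (by positivity)
    linarith
  rw [mn_add ((hQL.const_mul _).ii hV.le)
      ((((hrs.const_mul _).add (hrL.const_mul _)).const_mul _).ii hV.le), mn_const_mul, mn_const_mul,
    mn_add ((hrs.const_mul _).ii hV.le) ((hrL.const_mul _).ii hV.le), mn_const_mul, mn_const_mul,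
    ← hm] at h9
  have hSD : S ≤ D + ε / 8 := by
    have := (abs_lt.1 hu2).1
    linarith
  have hSD' : S ≤ D := by
    rw [hS, hD]
    exact hsum.sum_le_tsum u fun ρ _ => by positivity
  have h8a : |m - S| < 1 := lt_of_lt_of_le h8 (min_le_left _ _)
  have h8b : |m - S| < ε / 8 := lt_of_lt_of_le h8 (min_le_right _ _)
  have hmD : m ≤ D + 2 := by
    have := (abs_lt.1 h8a).2
    linarith
  have k1 : η * m ≤ ε / 8 := by
    have : η * m ≤ η * (D + 2) := mul_le_mul_of_nonneg_left hmD hη0.le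
    refine this.trans (le_of_eq ?_)
    rw [hη]
    field_simp
  have k2 : (1 + 1 / η) * (2 * B * mn (fun v => rr (v + h)) V + 2 * mn rr V) ≤ ε / 8 := by
    have k3 : 2 * B * mn (fun v => rr (v + h)) V + 2 * mn rr V ≤ (4 * B + 2) * κ := by
      have : 2 * B * mn (fun v => rr (v + h)) V ≤ 2 * B * (2 * κ) :=
        mul_le_mul_of_nonneg_left h7 (by positivity)
      linarith
    refine (mul_le_mul_of_nonneg_left k3 (by positivity)).trans (le_of_eq ?_)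
    rw [hκ]
    field_simp
  have k4 : |mn (fun v => qf h v ^ 2) V - m| ≤ ε / 4 := by linarith
  rw [abs_lt] at h8b hu2 ⊢
  rw [abs_le] at k4
  constructor <;> linarith [k4.1, k4.2, h8b.1, h8b.2, hu2.1, hu2.2]

/-- the normalised increment in terms of the summatory function -/
theorem qf_eq {δ : ℝ} (hδ : 0 ≤ δ) (v : ℝ) : qf (Real.log (1 + δ)) v =
    (Mx ((1 + δ) * Real.exp v) - Mx (Real.exp v)) * Real.exp (-(v / 2)) := by
  have h1 : 0 < 1 + δ := by linarith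
  unfold qf
  have e1 : ft (v + Real.log (1 + δ)) = Mx (Real.exp (v + Real.log (1 + δ))) *
      Real.exp (-((v + Real.log (1 + δ)) / 2)) := rfl
  have e2 : ft v = Mx (Real.exp v) * Real.exp (-(v / 2)) := rfl
  rw [e1, e2, Real.exp_add, Real.exp_log h1]
  have e3 : Real.exp (-((v + Real.log (1 + δ)) / 2)) =
      Real.exp (-(v / 2)) * Real.exp (-(Real.log (1 + δ) / 2)) := by
    rw [← Real.exp_add]
    congr 1
    ring
  have e4 : Real.exp (Real.log (1 + δ) / 2) * Real.exp (-(Real.log (1 + δ) / 2)) = 1 := by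
    rw [← Real.exp_add, add_neg_cancel, Real.exp_zero]
  rw [e3, mul_comm (Real.exp v) (1 + δ)]
  calc Real.exp (Real.log (1 + δ) / 2) * (Mx ((1 + δ) * Real.exp v) *
        (Real.exp (-(v / 2)) * Real.exp (-(Real.log (1 + δ) / 2)))) - Mx (Real.exp v) * Real.exp (-(v / 2))
      = (Real.exp (Real.log (1 + δ) / 2) * Real.exp (-(Real.log (1 + δ) / 2))) *
        (Mx ((1 + δ) * Real.exp v) * Real.exp (-(v / 2))) - Mx (Real.exp v) * Real.exp (-(v / 2)) := by ring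
    _ = _ := by rw [e4]; ring

/-- the substitution `x = e ^ v` -/
theorem exp_subst (F : ℝ → ℝ) {L : ℝ} (hL : 0 ≤ L) :
    ∫ x in (1:ℝ)..(Real.exp L), F x = ∫ v in (0:ℝ)..L, Real.exp v * F (Real.exp v) := by
  have hL1 : (1:ℝ) ≤ Real.exp L := Real.one_le_exp hL
  rw [intervalIntegral.integral_of_le hL1, intervalIntegral.integral_of_le hL]
  have h := integral_image_eq_integral_abs_deriv_smul (s := Ioc 0 L) (f := Real.exp) (f' := Real.exp)
    measurableSet_Ioc (fun x _ => (Real.hasDerivAt_exp x).hasDerivWithinAt) (Real.exp_injective.injOn) F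
  have himg : Real.exp '' Ioc 0 L = Ioc 1 (Real.exp L) := by
    ext y
    simp only [mem_image, mem_Ioc]
    constructor
    · rintro ⟨x, hx, rfl⟩
      exact ⟨Real.one_lt_exp_iff.2 hx.1, Real.exp_le_exp.2 hx.2⟩
    · intro hy
      have hy0 : 0 < y := one_pos.trans hy.1
      exact ⟨Real.log y, ⟨Real.log_pos hy.1, (Real.log_le_iff_le_exp hy0).2 hy.2⟩, Real.exp_log hy0⟩
  rw [himg] at h
  rw [h]
  refine integral_congr_ae (Eventually.of_forall fun s => ?_)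
  simp only
  rw [abs_of_pos (Real.exp_pos s), smul_eq_mul]

/-- the mean square of `M((1+δ)x) - M(x)` -/
noncomputable def LL (δ X : ℝ) : ℝ :=
  (∫ x in (1:ℝ)..X, (Mx ((1 + δ) * x) - Mx x) ^ 2 / x ^ 2) / Real.log X

theorem LL_eq {δ X : ℝ} (hδ : 0 ≤ δ) (hX : 1 ≤ X) :
    LL δ X = mn (fun v => qf (Real.log (1 + δ)) v ^ 2) (Real.log X) := by
  unfold LL mn
  congr 1
  have h1 := exp_subst (fun x => (Mx ((1 + δ) * x) - Mx x) ^ 2 / x ^ 2) (Real.log_nonneg hX)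
  rw [Real.exp_log (by linarith)] at h1
  rw [h1]
  apply intervalIntegral.integral_congr
  intro v _
  simp only
  rw [qf_eq hδ, mul_pow]
  have e : Real.exp (-(v / 2)) ^ 2 = (Real.exp v)⁻¹ := by
    rw [← Real.exp_nat_mul, ← Real.exp_neg]
    congr 1
    push_cast
    ring
  rw [e]
  have := (Real.exp_pos v).ne'
  field_simp

theorem LL_infinite (hZ : ¬ ZC) {δ : ℝ} (hδ : 0 < δ) : Tendsto (LL δ) atTop atTop := by
  refine ((qf_infinite hZ (Real.log_pos (by linarith : 1 < 1 + δ))).comp Real.tendsto_log_atTop).congr' ?_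
  filter_upwards [eventually_ge_atTop 1] with X hX
  rw [LL_eq hδ.le hX]
  rfl

theorem LL_limit (hZ : ZC) {δ : ℝ} (hδ : 0 ≤ δ) :
    Tendsto (LL δ) atTop (𝓝 (∑' ρ : NT, ‖dw (Real.log (1 + δ)) ρ‖ ^ 2)) := by
  refine ((qf_limit hZ (Real.log_nonneg (by linarith : 1 ≤ 1 + δ))).comp Real.tendsto_log_atTop).congr' ?_
  filter_upwards [eventually_ge_atTop 1] with X hX
  rw [LL_eq hδ hX]
  rfl

end Pool.Agent.X113.GG
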