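import Pool.Agent.X113.GG4
import Pool.Agent.X113.GG5
import Pool.Agent.W563.WM.Cnt

/-! The moments of `1 / ζ'` and the mean squares: glue. -/

set_option autoImplicit false

open MeasureTheory Filter Topology Set

namespace Pool.Agent.X113.GG

open Pool.Agent.W120.WM (ZC NT)
open Pool.Agent.TH223.AP (SS ww_sq zeta_half_ne)

theorem NT_fin (T : ℝ) : {ρ : ℂ | ρ ∈ NT ∧ |ρ.im| ≤ T}.Finite := by
  have hfin := Pool.Agent.W563.WM.zeros_finite (Icc (0 : ℝ) 1 ×ℂ Icc (-T : ℝ) T)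
    (isCompact_Icc.reProdIm isCompact_Icc)
  refine hfin.subset ?_
  rintro ρ ⟨⟨hz, h3, h4⟩, h2⟩
  have hne : ρ ≠ 1 := by
    rintro rfl
    simp at h4
  have h5 : riemannZeta ρ = (ρ - 1)⁻¹ * riemannZeta₁ ρ := riemannZeta_eq_inv_sub_mul hne
  have h6 : riemannZeta₁ ρ = 0 := by
    rw [h5] at hz
    rcases mul_eq_zero.1 hz with h | h
    · exact absurd (inv_eq_zero.1 h) (sub_ne_zero.2 hne)
    · exact h
  exact ⟨h6, ⟨h3.le, h4.le⟩, abs_le.1 h2⟩

theorem NT_fin' (T : ℝ) : {ρ : NT | |(ρ : ℂ).im| ≤ T}.Finite := by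
  refine Set.Finite.of_finite_image (f := fun ρ : NT => (ρ : ℂ)) ?_ Subtype.val_injective.injOn
  refine (NT_fin T).subset ?_
  rintro _ ⟨ρ, hρ, rfl⟩
  exact ⟨ρ.2, hρ⟩

instance NT_countable : Countable NT := by
  rw [Set.countable_coe_iff]
  have h : NT = ⋃ n : ℕ, {ρ : ℂ | ρ ∈ NT ∧ |ρ.im| ≤ n} := by
    ext ρ
    rw [mem_iUnion]
    constructor
    · intro h
      obtain ⟨n, hn⟩ := exists_nat_ge |ρ.im|
      exact ⟨n, h, hn⟩
    · rintro ⟨n, h, -⟩
      exact h
  rw [h]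
  exact countable_iUnion fun n => (NT_fin n).countable

/-- the ordinates -/
noncomputable def gz (ρ : NT) : ℝ := (ρ : ℂ).im

/-- the weights -/
noncomputable def az (ρ : NT) : ℝ := 1 / ‖(ρ : ℂ) * deriv riemannZeta ρ‖ ^ 2

theorem az_nonneg (ρ : NT) : 0 ≤ az ρ := by
  unfold az
  positivity

theorem dw_norm (h : ℝ) {ρ : ℂ} (hρ : ρ.re = 1 / 2) : ‖dw h ρ‖ ^ 2 =
    1 / ‖ρ * deriv riemannZeta ρ‖ ^ 2 * ((Real.exp (h / 2) - 1) ^ 2 +
      2 * Real.exp (h / 2) * (1 - Real.cos (ρ.im * h))) := by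
  unfold dw
  rw [norm_mul, mul_pow, ww_sq]
  congr 1
  rw [← Complex.normSq_eq_norm_sq, Complex.normSq_apply]
  have hre : (ρ * (h : ℂ)).re = h / 2 := by
    rw [Complex.mul_re, Complex.ofReal_re, Complex.ofReal_im, hρ]; ring
  have him : (ρ * (h : ℂ)).im = ρ.im * h := by
    rw [Complex.mul_im, Complex.ofReal_re, Complex.ofReal_im, hρ]; ring
  rw [Complex.sub_re, Complex.sub_im, Complex.exp_re, Complex.exp_im, hre, him, Complex.one_re,
    Complex.one_im]
  have h1 := Real.sin_sq_add_cos_sq (ρ.im * h)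
  linear_combination (Real.exp (h / 2)) ^ 2 * h1

theorem dw_tsum (hZ : ZC) (h : ℝ) : ∑' ρ : NT, ‖dw h ρ‖ ^ 2 =
    (Real.exp (h / 2) - 1) ^ 2 * SS + 2 * Real.exp (h / 2) * Gf gz az h := by
  have h1 : ∀ ρ : NT, ‖dw h ρ‖ ^ 2 = (Real.exp (h / 2) - 1) ^ 2 * az ρ +
      2 * Real.exp (h / 2) * (az ρ * (1 - Real.cos (gz ρ * h))) := by
    intro ρ
    rw [dw_norm h (hZ.1 ρ ρ.2).1]
    unfold az gz
    ring
  simp only [h1]
  have hs : Summable az := hZ.2
  rw [Summable.tsum_add (hs.mul_left _) ((sum_bdd az_nonneg hs fun i => cos_bd _).mul_left _),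
    tsum_mul_left, tsum_mul_left]
  rfl

/-- comparison of the two normalisations -/
theorem Gf_iff (S κ : ℝ) (G : ℝ → ℝ) :
    Tendsto (fun h => ((Real.exp (h / 2) - 1) ^ 2 * S + 2 * Real.exp (h / 2) * G h) / (Real.exp h - 1))
      (𝓝[>] 0) (𝓝 κ) ↔ Tendsto (fun h => G h / h) (𝓝[>] 0) (𝓝 (κ / 2)) := by
  -- the basic limits
  have hE : Tendsto (fun h : ℝ => (Real.exp h - 1) / h) (𝓝[>] 0) (𝓝 1) := by
    have h1 := (Real.hasDerivAt_exp 0).tendsto_slope
    rw [Real.exp_zero] at h1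
    have h2 : (𝓝[>] (0 : ℝ)) ≤ 𝓝[≠] 0 := nhdsWithin_mono _ fun x hx => ne_of_gt hx
    refine (h1.mono_left h2).congr fun h => ?_
    rw [slope_def_field, Real.exp_zero, sub_zero]
  have hB : Tendsto (fun h : ℝ => 2 * Real.exp (h / 2) * (h / (Real.exp h - 1))) (𝓝[>] 0) (𝓝 2) := by
    have h1 : Tendsto (fun h : ℝ => 2 * Real.exp (h / 2)) (𝓝[>] 0) (𝓝 (2 * Real.exp (0 / 2))) :=
      (Continuous.tendsto (by fun_prop : Continuous fun h : ℝ => 2 * Real.exp (h / 2)) 0).mono_left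
        nhdsWithin_le_nhds
    have h2 := hE.inv₀ one_ne_zero
    have h3 := h1.mul h2
    rw [zero_div, Real.exp_zero, inv_one, mul_one, mul_one] at h3
    refine h3.congr fun h => ?_
    rw [inv_div]
  have hA : Tendsto (fun h : ℝ => (Real.exp (h / 2) - 1) ^ 2 * S / (Real.exp h - 1)) (𝓝[>] 0) (𝓝 0) := by
    have h1 : Tendsto (fun h : ℝ => (Real.exp (h / 2) - 1) * S / (Real.exp (h / 2) + 1)) (𝓝[>] 0)
        (𝓝 ((Real.exp (0 / 2) - 1) * S / (Real.exp (0 / 2) + 1))) := by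
      refine Tendsto.mono_left (ContinuousAt.tendsto ?_) nhdsWithin_le_nhds
      refine ContinuousAt.div (by fun_prop) (by fun_prop) ?_
      positivity
    rw [zero_div, Real.exp_zero, sub_self, zero_mul, zero_div] at h1
    refine h1.congr' ?_
    filter_upwards [self_mem_nhdsWithin] with h hh
    have hh0 : 0 < h := hh
    have e1 : Real.exp h = Real.exp (h / 2) ^ 2 := by
      rw [← Real.exp_nat_mul]
      congr 1
      push_cast
      ring
    have e2 : 1 < Real.exp (h / 2) := Real.one_lt_exp_iff.2 (by positivity)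
    have e3 : Real.exp (h / 2) - 1 ≠ 0 := by linarith
    have e4 : Real.exp (h / 2) + 1 ≠ 0 := by linarith
    have e5 : Real.exp (h / 2) ^ 2 - 1 = (Real.exp (h / 2) - 1) * (Real.exp (h / 2) + 1) := by ring
    rw [e1, e5]
    field_simp
  constructor
  · intro h
    have h1 := (h.sub hA).div hB two_ne_zero
    rw [sub_zero] at h1
    refine h1.congr' ?_
    filter_upwards [self_mem_nhdsWithin] with h hh
    have hh0 : 0 < h := hh
    have e1 : 0 < Real.exp h - 1 := by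
      have := Real.one_lt_exp_iff.2 hh0
      linarith
    have e2 := (Real.exp_pos (h / 2)).ne'
    simp only [Pi.sub_apply, Pi.div_apply]
    have e3 : (((Real.exp (h / 2) - 1) ^ 2 * S + 2 * Real.exp (h / 2) * G h) / (Real.exp h - 1) -
        (Real.exp (h / 2) - 1) ^ 2 * S / (Real.exp h - 1)) =
        2 * Real.exp (h / 2) * (h / (Real.exp h - 1)) * (G h / h) := by
      field_simp
      ring
    rw [e3, mul_div_cancel_left₀]
    positivity
  · intro h
    have h1 := hA.add (hB.mul h)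
    have e0 : 0 + 2 * (κ / 2) = κ := by ring
    rw [e0] at h1
    refine h1.congr' ?_
    filter_upwards [self_mem_nhdsWithin] with h hh
    have hh0 : 0 < h := hh
    have e1 : Real.exp h - 1 ≠ 0 := by
      have := Real.one_lt_exp_iff.2 hh0
      linarith
    field_simp

/-- the change of variables `δ = e ^ h - 1` -/
theorem delta_iff (v : ℝ → ℝ) (κ : ℝ) : Tendsto v (𝓝[>] 0) (𝓝 κ) ↔
    Tendsto (fun h => v (Real.exp h - 1)) (𝓝[>] 0) (𝓝 κ) := by
  have h1 : Tendsto (fun h : ℝ => Real.exp h - 1) (𝓝[>] 0) (𝓝[>] 0) := by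
    rw [tendsto_nhdsWithin_iff]
    refine ⟨?_, ?_⟩
    · have : Tendsto (fun h : ℝ => Real.exp h - 1) (𝓝 0) (𝓝 (Real.exp 0 - 1)) :=
        Continuous.tendsto (by fun_prop) 0
      rw [Real.exp_zero, sub_self] at this
      exact this.mono_left nhdsWithin_le_nhds
    · filter_upwards [self_mem_nhdsWithin] with h hh
      have := Real.one_lt_exp_iff.2 (show (0:ℝ) < h from hh)
      show 0 < Real.exp h - 1
      linarith
  have h2 : Tendsto (fun δ : ℝ => Real.log (1 + δ)) (𝓝[>] 0) (𝓝[>] 0) := by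
    rw [tendsto_nhdsWithin_iff]
    refine ⟨?_, ?_⟩
    · have h3 : ContinuousAt (fun δ : ℝ => Real.log (1 + δ)) 0 := by
        refine ContinuousAt.log (by fun_prop) ?_
        norm_num
      have h4 := h3.tendsto
      rw [add_zero, Real.log_one] at h4
      exact h4.mono_left nhdsWithin_le_nhds
    · filter_upwards [self_mem_nhdsWithin] with h hh
      exact Real.log_pos (by linarith [show (0:ℝ) < h from hh])
  constructor
  · intro h
    exact h.comp h1
  · intro h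
    refine (h.comp h2).congr' ?_
    filter_upwards [self_mem_nhdsWithin] with δ hδ
    simp only [Function.comp]
    rw [Real.exp_log (by linarith [show (0:ℝ) < δ from hδ])]
    congr 1
    ring

/-- the moments of `1 / ζ'` -/
noncomputable def Jm (T : ℝ) : ℝ :=
  ∑' ρ : NT, if 0 < (ρ : ℂ).im ∧ (ρ : ℂ).im ≤ T then 1 / ‖deriv riemannZeta ρ‖ ^ 2 else 0

/-- conjugation -/
theorem conj_mem {ρ : ℂ} (hρ : ρ ∈ NT) : (starRingEnd ℂ) ρ ∈ NT := by
  obtain ⟨hz, h4, h5⟩ := hρ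
  refine ⟨?_, ?_, ?_⟩
  · rw [riemannZeta_conj, hz, map_zero]
  · rw [Complex.conj_re]; exact h4
  · rw [Complex.conj_re]; exact h5

theorem deriv_conj {ρ : ℂ} (hρ : ρ ≠ 1) :
    deriv riemannZeta ((starRingEnd ℂ) ρ) = (starRingEnd ℂ) (deriv riemannZeta ρ) := by
  have h1 := (differentiableAt_riemannZeta hρ).hasDerivAt
  have h2 := h1.conj_conj
  have h3 : (starRingEnd ℂ) ∘ riemannZeta ∘ (starRingEnd ℂ) = riemannZeta := by
    funext s
    simp only [Function.comp]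
    rw [riemannZeta_conj, Complex.conj_conj]
  rw [h3] at h2
  exact h2.deriv

/-- conjugation as an equivalence -/
noncomputable def cjE : NT ≃ NT where
  toFun ρ := ⟨(starRingEnd ℂ) (ρ : ℂ), conj_mem ρ.2⟩
  invFun ρ := ⟨(starRingEnd ℂ) (ρ : ℂ), conj_mem ρ.2⟩
  left_inv ρ := by
    apply Subtype.ext
    simp
  right_inv ρ := by
    apply Subtype.ext
    simp

theorem im_ne {ρ : ℂ} (hρ : ρ ∈ NT) (hre : ρ.re = 1 / 2) : ρ.im ≠ 0 := by
  intro h
  have h3 : ρ = 1 / 2 := by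
    apply Complex.ext
    · simp [hre]
    · simp [h]
  have h4 := hρ.1
  rw [h3] at h4
  exact zeta_half_ne h4

theorem fin_summ (T : ℝ) (f : NT → ℝ) (hf : ∀ ρ : NT, T < |(ρ : ℂ).im| → f ρ = 0) : Summable f := by
  refine summable_of_hasFiniteSupport ((NT_fin' T).subset fun ρ hρ => ?_)
  by_contra h
  rw [mem_setOf_eq, not_le] at h
  exact hρ (hf ρ h)

theorem two_Jm (hz : ∀ ρ ∈ NT, ρ.re = 1 / 2) (T : ℝ) :
    2 * Jm T = ∑' ρ : NT, if |(ρ : ℂ).im| ≤ T then 1 / ‖deriv riemannZeta ρ‖ ^ 2 else 0 := by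
  have h1 : ∀ ρ : NT, (if |(ρ : ℂ).im| ≤ T then 1 / ‖deriv riemannZeta ρ‖ ^ 2 else 0) =
      (if 0 < (ρ : ℂ).im ∧ (ρ : ℂ).im ≤ T then 1 / ‖deriv riemannZeta ρ‖ ^ 2 else 0) +
      (if 0 < -(ρ : ℂ).im ∧ -(ρ : ℂ).im ≤ T then 1 / ‖deriv riemannZeta ρ‖ ^ 2 else 0) := by
    intro ρ
    have hne := im_ne ρ.2 (hz ρ ρ.2)
    rcases lt_or_gt_of_ne hne with h | h
    · have h0 : ¬ (0 < (ρ : ℂ).im ∧ (ρ : ℂ).im ≤ T) := fun h2 => absurd h2.1 (by linarith)
      rw [abs_of_neg h, if_neg h0, zero_add]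
      by_cases h2 : -(ρ : ℂ).im ≤ T
      · rw [if_pos h2, if_pos ⟨by linarith, h2⟩]
      · rw [if_neg h2, if_neg fun h3 => h2 h3.2]
    · have h0 : ¬ (0 < -(ρ : ℂ).im ∧ -(ρ : ℂ).im ≤ T) := fun h2 => absurd h2.1 (by linarith)
      rw [abs_of_pos h, if_neg h0, add_zero]
      by_cases h2 : (ρ : ℂ).im ≤ T
      · rw [if_pos h2, if_pos ⟨by linarith, h2⟩]
      · rw [if_neg h2, if_neg fun h3 => h2 h3.2]
  simp only [h1]
  rw [Summable.tsum_add]
  · have h2 : (∑' ρ : NT, if 0 < -(ρ : ℂ).im ∧ -(ρ : ℂ).im ≤ T then 1 / ‖deriv riemannZeta ρ‖ ^ 2 else 0) =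
        Jm T := by
      unfold Jm
      rw [← cjE.tsum_eq (fun ρ : NT => if 0 < (ρ : ℂ).im ∧ (ρ : ℂ).im ≤ T then
        1 / ‖deriv riemannZeta ρ‖ ^ 2 else 0)]
      apply tsum_congr
      intro ρ
      have hne : (ρ : ℂ) ≠ 1 := by
        intro h
        have := ρ.2.2.2
        rw [h] at this
        simp at this
      have e1 : ((cjE ρ : NT) : ℂ) = (starRingEnd ℂ) (ρ : ℂ) := rfl
      rw [e1, deriv_conj hne, Complex.conj_im, Complex.norm_conj]
    rw [h2]
    unfold Jm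
    ring
  · refine fin_summ T _ fun ρ h => ?_
    rw [if_neg]
    rintro ⟨h2, h3⟩
    rw [abs_of_pos h2] at h
    linarith
  · refine fin_summ T _ fun ρ h => ?_
    rw [if_neg]
    rintro ⟨h2, h3⟩
    rw [← abs_neg, abs_of_pos h2] at h
    linarith

theorem norm_sq_half {ρ : ℂ} (hre : ρ.re = 1 / 2) : ‖ρ‖ ^ 2 = 1 / 4 + ρ.im ^ 2 := by
  rw [← Complex.normSq_eq_norm_sq, Complex.normSq_apply, hre]
  ring

theorem inv_deriv {ρ : ℂ} (hre : ρ.re = 1 / 2) : 1 / ‖deriv riemannZeta ρ‖ ^ 2 =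
    (1 / 4 + ρ.im ^ 2) * (1 / ‖ρ * deriv riemannZeta ρ‖ ^ 2) := by
  rw [← norm_sq_half hre, norm_mul, mul_pow]
  have h1 : ‖ρ‖ ≠ 0 := by
    rw [norm_ne_zero_iff]
    rintro rfl
    norm_num at hre
  rcases eq_or_ne ‖deriv riemannZeta ρ‖ 0 with h2 | h2
  · rw [h2]; simp
  · field_simp

theorem Jm_NN (hZ : ZC) (T : ℝ) : 2 * Jm T = NN gz az T +
    1 / 4 * ∑' ρ : NT, if |(ρ : ℂ).im| ≤ T then az ρ else 0 := by
  rw [two_Jm (fun ρ h => (hZ.1 ρ h).1)]
  unfold NN
  rw [← tsum_mul_left, ← Summable.tsum_add]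
  · apply tsum_congr
    intro ρ
    unfold gz
    split_ifs with h
    · rw [inv_deriv (hZ.1 ρ ρ.2).1]
      unfold az
      ring
    · ring
  · exact fin_summ T _ fun ρ h => if_neg (not_le.2 h)
  · refine (fin_summ T _ fun ρ h => ?_).mul_left _
    exact if_neg (not_le.2 h)

theorem Jm_bd (hZ : ZC) (T : ℝ) : NN gz az T ≤ 2 * Jm T ∧ 2 * Jm T ≤ NN gz az T + SS / 4 := by
  rw [Jm_NN hZ T]
  have h0 : 0 ≤ ∑' ρ : NT, if |(ρ : ℂ).im| ≤ T then az ρ else 0 :=
    tsum_nonneg fun ρ => by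
      split_ifs
      · exact az_nonneg ρ
      · exact le_rfl
  have h1 : (∑' ρ : NT, if |(ρ : ℂ).im| ≤ T then az ρ else 0) ≤ SS := by
    refine Summable.tsum_le_tsum (fun ρ => ?_) (fin_summ T _ fun ρ h => if_neg (not_le.2 h)) hZ.2
    split_ifs
    · exact le_rfl
    · exact az_nonneg ρ
  constructor <;> linarith

theorem J_iff (hZ : ZC) (κ : ℝ) : Tendsto (fun T => Jm T / T) atTop (𝓝 (κ / (2 * Real.pi))) ↔
    Tendsto (fun T => NN gz az T / T) atTop (𝓝 (κ / Real.pi)) := by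
  have hpi := Real.pi_pos
  have h0 : Tendsto (fun T : ℝ => (2 * Jm T - NN gz az T) / T) atTop (𝓝 0) := by
    have h1 : Tendsto (fun T : ℝ => (SS / 4) / T) atTop (𝓝 0) := tendsto_const_nhds.div_atTop tendsto_id
    refine squeeze_zero' ?_ ?_ h1
    · filter_upwards [eventually_gt_atTop (0 : ℝ)] with T hT
      exact div_nonneg (by linarith [(Jm_bd hZ T).1]) hT.le
    · filter_upwards [eventually_gt_atTop (0 : ℝ)] with T hT
      exact div_le_div_of_nonneg_right (by linarith [(Jm_bd hZ T).2]) hT.le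
  constructor
  · intro h
    have h1 := (h.const_mul 2).sub h0
    have e : 2 * (κ / (2 * Real.pi)) - 0 = κ / Real.pi := by
      field_simp
      ring
    rw [e] at h1
    refine h1.congr fun T => ?_
    ring
  · intro h
    have h1 := (h.add h0).const_mul (1 / 2)
    have e : 1 / 2 * (κ / Real.pi + 0) = κ / (2 * Real.pi) := by
      field_simp
      ring
    rw [e] at h1
    refine h1.congr fun T => ?_
    ring

/-- the tail from the counting function, with a power -/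
theorem tail_pow {ι : Type*} {g a : ι → ℝ} (ha : ∀ i, 0 ≤ a i) {C η : ℝ} (hC : 0 ≤ C) (hη : 0 < η)
    (hN : ∀ s : Finset ι, ∀ T : ℝ, 0 < T → ∑ i ∈ s with |g i| ≤ T, g i ^ 2 * a i ≤ C * T ^ (2 - η))
    {U : ℝ} (hU : 0 < U) (s : Finset ι) :
    ∑ i ∈ s with U < |g i|, a i ≤ 4 * C / (1 - 2 ^ (-η)) * U ^ (-η) := by
  classical
  have hr0 : (0 : ℝ) < 2 ^ (-η) := by positivity
  have hr1 : (2 : ℝ) ^ (-η) < 1 := Real.rpow_lt_one_of_one_lt_of_neg (by norm_num) (by linarith)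
  have hUη : 0 < U ^ (-η) := by positivity
  have h1 : ∀ J : ℕ, ∑ i ∈ s with U < |g i| ∧ |g i| ≤ 2 ^ J * U, a i ≤
      ∑ j ∈ Finset.range J, 4 * C * U ^ (-η) * (2 ^ (-η)) ^ j := by
    intro J
    induction J with
    | zero =>
      simp only [pow_zero, one_mul, Finset.range_zero, Finset.sum_empty]
      apply le_of_eq
      apply Finset.sum_eq_zero
      intro i hi
      rw [Finset.mem_filter] at hi
      linarith [hi.2.1, hi.2.2]
    | succ J ih =>
      rw [Finset.sum_range_succ]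
      have hp : (0 : ℝ) < 2 ^ J * U := by positivity
      have h2 : ∑ i ∈ s with U < |g i| ∧ |g i| ≤ 2 ^ (J + 1) * U, a i ≤
          (∑ i ∈ s with U < |g i| ∧ |g i| ≤ 2 ^ J * U, a i) +
          ∑ i ∈ s with 2 ^ J * U < |g i| ∧ |g i| ≤ 2 ^ (J + 1) * U, a i := by
        have h0 := Finset.sum_union_inter (s₁ := s.filter fun i => U < |g i| ∧ |g i| ≤ 2 ^ J * U)
          (s₂ := s.filter fun i => 2 ^ J * U < |g i| ∧ |g i| ≤ 2 ^ (J + 1) * U) (f := a)
        have h0' : 0 ≤ ∑ i ∈ (s.filter fun i => U < |g i| ∧ |g i| ≤ 2 ^ J * U) ∩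
          (s.filter fun i => 2 ^ J * U < |g i| ∧ |g i| ≤ 2 ^ (J + 1) * U), a i :=
          Finset.sum_nonneg fun i _ => ha i
        rw [← h0]
        refine le_trans (Finset.sum_le_sum_of_subset_of_nonneg (t := (s.filter fun i => U < |g i| ∧
          |g i| ≤ 2 ^ J * U) ∪ (s.filter fun i => 2 ^ J * U < |g i| ∧ |g i| ≤ 2 ^ (J + 1) * U)) ?_
          fun i _ _ => ha i) (le_add_of_nonneg_right h0')
        intro i hi
        rw [Finset.mem_filter] at hi
        rw [Finset.mem_union, Finset.mem_filter, Finset.mem_filter]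
        by_cases h : |g i| ≤ 2 ^ J * U
        · left; exact ⟨hi.1, hi.2.1, h⟩
        · right; exact ⟨hi.1, not_le.1 h, hi.2.2⟩
      have h3 : ∑ i ∈ s with 2 ^ J * U < |g i| ∧ |g i| ≤ 2 ^ (J + 1) * U, a i ≤
          4 * C * U ^ (-η) * (2 ^ (-η)) ^ J := by
        have h4 : (2 ^ J * U) ^ 2 * ∑ i ∈ s with 2 ^ J * U < |g i| ∧ |g i| ≤ 2 ^ (J + 1) * U, a i ≤
            C * (2 ^ (J + 1) * U) ^ (2 - η) := by
          rw [Finset.mul_sum]
          calc ∑ i ∈ s with 2 ^ J * U < |g i| ∧ |g i| ≤ 2 ^ (J + 1) * U, (2 ^ J * U) ^ 2 * a i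
              ≤ ∑ i ∈ s with 2 ^ J * U < |g i| ∧ |g i| ≤ 2 ^ (J + 1) * U, g i ^ 2 * a i := by
                apply Finset.sum_le_sum
                intro i hi
                rw [Finset.mem_filter] at hi
                apply mul_le_mul_of_nonneg_right _ (ha i)
                rw [← sq_abs (g i)]
                exact pow_le_pow_left₀ hp.le hi.2.1.le 2
            _ ≤ ∑ i ∈ s with |g i| ≤ 2 ^ (J + 1) * U, g i ^ 2 * a i := by
                apply Finset.sum_le_sum_of_subset_of_nonneg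
                · intro i hi
                  rw [Finset.mem_filter] at hi ⊢
                  exact ⟨hi.1, hi.2.2⟩
                · intro i _ _
                  exact mul_nonneg (sq_nonneg _) (ha i)
            _ ≤ C * (2 ^ (J + 1) * U) ^ (2 - η) := hN s _ (by positivity)
        have e1 : (2 ^ (J + 1) * U) ^ (2 - η) = 4 * (2 ^ J * U) ^ 2 * (2 ^ (J + 1) * U) ^ (-η) := by
          have e2 : (2 : ℝ) - η = 2 + (-η) := by ring
          rw [e2, Real.rpow_add (by positivity), Real.rpow_two]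
          ring
        have e3 : (2 ^ (J + 1) * U) ^ (-η) ≤ (2 ^ J * U) ^ (-η) := by
          apply Real.rpow_le_rpow_of_nonpos hp _ (by linarith)
          have : (2:ℝ) ^ (J + 1) * U = 2 * (2 ^ J * U) := by ring
          linarith
        have e4 : (2 ^ J * U) ^ (-η) = U ^ (-η) * (2 ^ (-η)) ^ J := by
          rw [Real.mul_rpow (by positivity) hU.le, mul_comm, ← Real.rpow_natCast, ← Real.rpow_natCast,
            ← Real.rpow_mul (by norm_num), ← Real.rpow_mul (by norm_num), mul_comm (J : ℝ)]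
        have h5 : (2 ^ J * U) ^ 2 * ∑ i ∈ s with 2 ^ J * U < |g i| ∧ |g i| ≤ 2 ^ (J + 1) * U, a i ≤
            (2 ^ J * U) ^ 2 * (4 * C * U ^ (-η) * (2 ^ (-η)) ^ J) := by
          refine h4.trans ?_
          rw [e1]
          have : C * (4 * (2 ^ J * U) ^ 2 * (2 ^ (J + 1) * U) ^ (-η)) ≤
              C * (4 * (2 ^ J * U) ^ 2 * (2 ^ J * U) ^ (-η)) := by gcongr
          refine this.trans (le_of_eq ?_)
          rw [e4]
          ring
        exact le_of_mul_le_mul_left h5 (by positivity)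
      linarith
  obtain ⟨J, hJ⟩ : ∃ J : ℕ, ∀ i ∈ s, |g i| ≤ 2 ^ J * U := by
    have h2 : ∀ i ∈ s, |g i| ≤ ∑ j ∈ s, |g j| := fun i hi =>
      Finset.single_le_sum (f := fun i => |g i|) (fun _ _ => abs_nonneg _) hi
    obtain ⟨J, hJ⟩ := pow_unbounded_of_one_lt ((∑ j ∈ s, |g j|) / U) (by norm_num : (1 : ℝ) < 2)
    refine ⟨J, fun i hi => (h2 i hi).trans ?_⟩
    rw [div_lt_iff₀ hU] at hJ
    exact hJ.le
  have h2 : ∑ i ∈ s with U < |g i|, a i ≤ ∑ i ∈ s with U < |g i| ∧ |g i| ≤ 2 ^ J * U, a i := by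
    apply Finset.sum_le_sum_of_subset_of_nonneg
    · intro i hi
      rw [Finset.mem_filter] at hi ⊢
      exact ⟨hi.1, hi.2, hJ i hi.1⟩
    · intro i _ _
      exact ha i
  have h3 : ∑ j ∈ Finset.range J, 4 * C * U ^ (-η) * (2 ^ (-η) : ℝ) ^ j ≤
      4 * C * U ^ (-η) * (1 - 2 ^ (-η))⁻¹ := by
    rw [← Finset.mul_sum]
    apply mul_le_mul_of_nonneg_left _ (by positivity)
    have h4 := tsum_geometric_of_lt_one hr0.le hr1
    rw [← h4]
    exact (summable_geometric_of_lt_one hr0.le hr1).sum_le_tsum _ fun j _ => by positivity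
  have h4 : 4 * C * U ^ (-η) * (1 - 2 ^ (-η))⁻¹ = 4 * C / (1 - 2 ^ (-η)) * U ^ (-η) := by ring
  linarith [h1 J]

/-- the condition on the zeros from a bound for the moments -/
theorem ZC_of_Jm (hz : ∀ ρ ∈ NT, ρ.re = 1 / 2 ∧ deriv riemannZeta ρ ≠ 0) {C η T₀ : ℝ} (hη : 0 < η)
    (hJ : ∀ T : ℝ, T₀ ≤ T → Jm T ≤ C * T ^ (2 - η)) : ZC := by
  classical
  refine ⟨hz, ?_⟩
  obtain ⟨T₁, hT₁⟩ : ∃ T₁ : ℝ, T₁ = max T₀ 1 := ⟨_, rfl⟩
  have hT0 : T₀ ≤ T₁ := hT₁ ▸ le_max_left _ _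
  have hT1 : 1 ≤ T₁ := hT₁ ▸ le_max_right _ _
  obtain ⟨b, hb⟩ : ∃ b : NT → ℝ, ∀ ρ, b ρ = if T₁ < |gz ρ| then az ρ else 0 := ⟨_, fun _ => rfl⟩
  have hb0 : ∀ ρ, 0 ≤ b ρ := by
    intro ρ
    rw [hb]
    split_ifs
    · exact az_nonneg ρ
    · exact le_rfl
  have hN : ∀ s : Finset NT, ∀ T : ℝ, 0 < T → ∑ i ∈ s with |gz i| ≤ T, gz i ^ 2 * b i ≤
      (2 * |C|) * T ^ (2 - η) := by
    intro s T hT
    rcases le_or_gt T T₁ with h | h
    · have h1 : ∑ i ∈ s with |gz i| ≤ T, gz i ^ 2 * b i = 0 := by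
        apply Finset.sum_eq_zero
        intro i hi
        rw [Finset.mem_filter] at hi
        rw [hb, if_neg (by linarith [hi.2]), mul_zero]
      rw [h1]
      positivity
    · have h1 : ∑ i ∈ s with |gz i| ≤ T, gz i ^ 2 * b i ≤ 2 * Jm T := by
        rw [two_Jm (fun ρ h => (hz ρ h).1), Finset.sum_filter]
        have h2 : ∀ i : NT, (if |gz i| ≤ T then gz i ^ 2 * b i else 0) ≤
            (if |(i : ℂ).im| ≤ T then 1 / ‖deriv riemannZeta i‖ ^ 2 else 0) := by
          intro i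
          unfold gz
          split_ifs with h3
          · rw [inv_deriv (hz i i.2).1]
            have h4 : b i ≤ az i := by
              rw [hb]
              split_ifs
              · exact le_rfl
              · exact az_nonneg i
            have h5 : (i : ℂ).im ^ 2 * b i ≤ (i : ℂ).im ^ 2 * az i :=
              mul_le_mul_of_nonneg_left h4 (sq_nonneg _)
            have h6 := az_nonneg i
            have e : az i = 1 / ‖(i : ℂ) * deriv riemannZeta i‖ ^ 2 := rfl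
            rw [← e]
            nlinarith
          · exact le_rfl
        refine (Finset.sum_le_sum fun i _ => h2 i).trans ?_
        refine (fin_summ T _ fun ρ h => if_neg (not_le.2 h)).sum_le_tsum s fun i _ => ?_
        split_ifs
        · positivity
        · exact le_rfl
      have h2 := hJ T (by linarith)
      have h3 : C * T ^ (2 - η) ≤ |C| * T ^ (2 - η) :=
        mul_le_mul_of_nonneg_right (le_abs_self C) (by positivity)
      linarith
  have h1 : Summable b := by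
    refine summable_of_sum_le hb0 (c := 4 * (2 * |C|) / (1 - 2 ^ (-η)) * T₁ ^ (-η)) fun s => ?_
    refine le_trans (le_of_eq ?_) (tail_pow hb0 (by positivity) hη hN (by linarith : 0 < T₁) s)
    rw [Finset.sum_filter]
    apply Finset.sum_congr rfl
    intro i _
    rw [hb]
    split_ifs <;> rfl
  have h2 : Summable fun ρ : NT => az ρ - b ρ := by
    refine fin_summ T₁ _ fun ρ h => ?_
    have : b ρ = az ρ := by rw [hb]; exact if_pos h
    rw [this, sub_self]
  have h3 := h1.add h2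
  refine h3.congr fun ρ => ?_
  show b ρ + (az ρ - b ρ) = az ρ
  ring

theorem SS_pos' (hZ : ZC) : 0 < SS := Pool.Agent.TH223.AP.SS_pos hZ

/-- the value of the limit is positive -/
theorem val_pos (hZ : ZC) {h : ℝ} (hh : 0 < h) : 0 < ∑' ρ : NT, ‖dw h ρ‖ ^ 2 := by
  rw [dw_tsum hZ]
  have h1 : 1 < Real.exp (h / 2) := Real.one_lt_exp_iff.2 (by positivity)
  have h2 : 0 < (Real.exp (h / 2) - 1) ^ 2 * SS := mul_pos (by nlinarith) (SS_pos' hZ)
  have h3 : 0 ≤ 2 * Real.exp (h / 2) * Gf gz az h :=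
    mul_nonneg (by positivity) (Gf_nonneg az_nonneg h)
  linarith

/-- the main equivalence -/
theorem gonek_iff (κ : ℝ) :
    (∃ v : ℝ → ℝ, (∀ δ : ℝ, 0 < δ → Tendsto (fun X => LL δ X / δ) atTop (𝓝 (v δ))) ∧
      Tendsto v (𝓝[>] 0) (𝓝 κ)) ↔
    (∀ ρ ∈ NT, ρ.re = 1 / 2 ∧ deriv riemannZeta ρ ≠ 0) ∧
      Tendsto (fun T => Jm T / T) atTop (𝓝 (κ / (2 * Real.pi))) := by
  have hpi := Real.pi_pos
  have key : ∀ hZ : ZC, (Tendsto (fun δ => (∑' ρ : NT, ‖dw (Real.log (1 + δ)) ρ‖ ^ 2) / δ) (𝓝[>] 0) (𝓝 κ) ↔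
      Tendsto (fun T => Jm T / T) atTop (𝓝 (κ / (2 * Real.pi)))) := by
    intro hZ
    rw [delta_iff]
    have e1 : (fun h : ℝ => (∑' ρ : NT, ‖dw (Real.log (1 + (Real.exp h - 1))) ρ‖ ^ 2) / (Real.exp h - 1)) =
        fun h : ℝ => ((Real.exp (h / 2) - 1) ^ 2 * SS + 2 * Real.exp (h / 2) * Gf gz az h) /
          (Real.exp h - 1) := by
      funext h
      rw [add_sub_cancel, Real.log_exp, dw_tsum hZ]
    rw [e1, Gf_iff, J_iff hZ]
    have hs : Summable az := hZ.2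
    constructor
    · intro h
      have h1 := tauber az_nonneg hs h
      have e : 2 * (κ / 2) / Real.pi = κ / Real.pi := by ring
      rwa [e] at h1
    · intro h
      have h1 := abel az_nonneg hs h
      have e : κ / Real.pi * Real.pi / 2 = κ / 2 := by
        field_simp
      rwa [e] at h1
  constructor
  · rintro ⟨v, h1, h2⟩
    have hZ : ZC := by
      by_contra hZ
      have h3 := LL_infinite hZ one_pos
      have h4 := h1 1 one_pos
      simp only [div_one] at h4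
      exact not_tendsto_nhds_of_tendsto_atTop h3 _ h4
    refine ⟨hZ.1, (key hZ).1 ?_⟩
    refine h2.congr' ?_
    filter_upwards [self_mem_nhdsWithin] with δ hδ
    have hδ0 : 0 < δ := hδ
    exact tendsto_nhds_unique (h1 δ hδ0) ((LL_limit hZ hδ0.le).div_const δ)
  · rintro ⟨hz, hJ⟩
    have hZ : ZC := by
      have h1 := hJ.eventually (gt_mem_nhds (lt_add_one _))
      obtain ⟨T₀, hT₀⟩ := eventually_atTop.1 (h1.and (eventually_gt_atTop 0))
      refine ZC_of_Jm hz (η := 1) one_pos (C := κ / (2 * Real.pi) + 1) (T₀ := T₀) fun T hT => ?_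
      obtain ⟨h2, h3⟩ := hT₀ T hT
      rw [div_lt_iff₀ h3] at h2
      have e : (2 : ℝ) - 1 = 1 := by norm_num
      rw [e, Real.rpow_one]
      exact h2.le
    exact ⟨fun δ => (∑' ρ : NT, ‖dw (Real.log (1 + δ)) ρ‖ ^ 2) / δ,
      fun δ hδ => (LL_limit hZ hδ.le).div_const δ, (key hZ).2 hJ⟩

end Pool.Agent.X113.GG
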