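import Pool.Agent.X113.LA2
import Pool.Agent.Y749.Rig.Fin

set_option autoImplicit false

/-! # Sums over pairs of zeros, one of them in a small set -/

open MeasureTheory Set Filter Topology
open scoped NNReal ENNReal

namespace Pool.Agent.X113.LA

open Pool.Agent.Y749.Rig

lemma cls_le' {A B : Finset ℂ} {a b : ℂ → ℝ} {L Γ : ℝ} (ha : ∀ s, 0 ≤ a s) (hb : ∀ s, 0 ≤ b s)
    (hL : 0 < L) (hΓ0 : 0 ≤ Γ) {τ : ℝ}
    (hΓ : ∫⁻ t, ENNReal.ofReal (fw A a L t) * ENNReal.ofReal (fw B b L (t - τ)) ≤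
      ENNReal.ofReal Γ) {P : Finset (ℂ × ℂ)}
    (hP : P ⊆ A ×ˢ B) (hτ : ∀ p ∈ P, |p.1.im - p.2.im - τ| ≤ 1 / (2 * L)) :
    ∑ p ∈ P, a p.1 * b p.2 ≤ L * Γ := by
  have h3 := (cls ha hb hL hP hτ).trans hΓ
  rw [ENNReal.ofReal_le_ofReal_iff hΓ0, mul_one_div, div_le_iff₀ hL] at h3
  linarith

theorem kl' {A B : Finset ℂ} {a b : ℂ → ℝ} {L Γ : ℝ} (ha : ∀ s, 0 ≤ a s) (hb : ∀ s, 0 ≤ b s)
    (hL : 0 < L) (hΓ0 : 0 ≤ Γ)
    (hΓ : ∀ τ : ℝ, ∫⁻ t, ENNReal.ofReal (fw A a L t) * ENNReal.ofReal (fw B b L (t - τ)) ≤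
      ENNReal.ofReal Γ) {K : ℂ → ℂ → ℝ} {w : ℤ → ℝ}
    (hw0 : ∀ k, 0 ≤ w k) (hws : Summable w)
    (hK : ∀ s ∈ A, ∀ s' ∈ B, K s s' ≤ w ⌊(s.im - s'.im) * L⌋) :
    ∑ s ∈ A, ∑ s' ∈ B, a s * b s' * K s s' ≤ (∑' k, w k) * (L * Γ) := by
  classical
  obtain ⟨g, hg⟩ : ∃ g : ℂ × ℂ → ℤ, ∀ p, g p = ⌊(p.1.im - p.2.im) * L⌋ := ⟨_, fun p => rfl⟩
  have hLXY : 0 ≤ L * Γ := by positivity
  calc ∑ s ∈ A, ∑ s' ∈ B, a s * b s' * K s s' = ∑ p ∈ A ×ˢ B, a p.1 * b p.2 * K p.1 p.2 :=
        (Finset.sum_product' A B fun s s' => a s * b s' * K s s').symm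
    _ ≤ ∑ p ∈ A ×ˢ B, a p.1 * b p.2 * w (g p) := by
        refine Finset.sum_le_sum fun p hp => ?_
        rw [Finset.mem_product] at hp
        rw [hg]
        exact mul_le_mul_of_nonneg_left (hK _ hp.1 _ hp.2) (mul_nonneg (ha _) (hb _))
    _ = ∑ k ∈ (A ×ˢ B).image g, ∑ p ∈ (A ×ˢ B).filter (fun p => g p = k),
          a p.1 * b p.2 * w (g p) :=
        (Finset.sum_fiberwise_of_maps_to (fun p hp => Finset.mem_image_of_mem g hp) _).symm
    _ ≤ ∑ k ∈ (A ×ˢ B).image g, w k * (L * Γ) := by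
        refine Finset.sum_le_sum fun k _ => ?_
        have e1 : ∑ p ∈ (A ×ˢ B).filter (fun p => g p = k), a p.1 * b p.2 * w (g p) =
            w k * ∑ p ∈ (A ×ˢ B).filter (fun p => g p = k), a p.1 * b p.2 := by
          rw [Finset.mul_sum]
          refine Finset.sum_congr rfl fun p hp => ?_
          rw [(Finset.mem_filter.1 hp).2]; ring
        rw [e1]
        refine mul_le_mul_of_nonneg_left ?_ (hw0 k)
        refine cls_le' ha hb hL hΓ0 (hΓ ((k + 1 / 2) / L)) (Finset.filter_subset _ _) ?_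
        intro p hp
        have h3 := (Finset.mem_filter.1 hp).2
        rw [hg] at h3
        have h4 := Int.floor_le ((p.1.im - p.2.im) * L)
        have h5 := Int.lt_floor_add_one ((p.1.im - p.2.im) * L)
        rw [h3] at h4 h5
        have e2 : p.1.im - p.2.im - (k + 1 / 2) / L = ((p.1.im - p.2.im) * L - (k + 1 / 2)) / L := by
          field_simp
        rw [e2, abs_div, abs_of_pos hL, div_le_iff₀ hL]
        have e3 : 1 / (2 * L) * L = 1 / 2 := by field_simp
        rw [e3, abs_le]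
        constructor <;> linarith
    _ = (∑ k ∈ (A ×ˢ B).image g, w k) * (L * Γ) := by rw [Finset.sum_mul]
    _ ≤ (∑' k, w k) * (L * Γ) := by
        gcongr
        exact hws.sum_le_tsum _ fun k _ => hw0 k

lemma pt_bound {c K x y z : ℝ} (hc : 0 ≤ c) (hK : 0 ≤ K) (hx : 0 ≤ x) (hxz : x ≤ z) :
    x * y ≤ K * x + Real.exp (-(c * K / 2)) / 2 * (Ph c z + Ph c y) := by
  have hz : 0 ≤ z := hx.trans hxz
  have hE : 0 < Real.exp (-(c * K / 2)) := Real.exp_pos _
  rcases le_or_gt y K with h | h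
  · have : x * y ≤ K * x := by rw [mul_comm K]; exact mul_le_mul_of_nonneg_left h hx
    have h2 : 0 ≤ Real.exp (-(c * K / 2)) / 2 * (Ph c z + Ph c y) :=
      mul_nonneg (by positivity) (add_nonneg (Ph_nonneg _ _) (Ph_nonneg _ _))
    linarith
  · obtain ⟨E, hEd⟩ : ∃ E : ℝ, E = Real.exp (-(c * K / 2)) := ⟨_, rfl⟩
    have hE0 : 0 < E := by rw [hEd]; exact hE
    have h1 : x ^ 2 ≤ Ph c z := by
      unfold Ph
      have : (1 : ℝ) ≤ Real.exp (c * z) := Real.one_le_exp (by positivity)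
      have h3 : x ^ 2 ≤ z ^ 2 := pow_le_pow_left₀ hx hxz 2
      nlinarith [sq_nonneg z]
    have h2 : y ^ 2 ≤ E * E * Ph c y := by
      unfold Ph
      have e1 : E * E * (y ^ 2 * Real.exp (c * y)) = y ^ 2 * Real.exp (c * (y - K)) := by
        rw [hEd, ← Real.exp_add]
        rw [show Real.exp (-(c * K / 2) + -(c * K / 2)) * (y ^ 2 * Real.exp (c * y)) =
          y ^ 2 * (Real.exp (-(c * K / 2) + -(c * K / 2)) * Real.exp (c * y)) by ring,
          ← Real.exp_add]
        congr 2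
        ring
      rw [e1]
      have : (1 : ℝ) ≤ Real.exp (c * (y - K)) :=
        Real.one_le_exp (mul_nonneg hc (by linarith))
      nlinarith [sq_nonneg y]
    rw [← hEd]
    have h4 : x * y ≤ E / 2 * x ^ 2 + 1 / (2 * E) * y ^ 2 := by
      have h6 : E / 2 * x ^ 2 + 1 / (2 * E) * y ^ 2 - x * y = (E * x - y) ^ 2 / (2 * E) := by
        field_simp
        ring
      have h7 : 0 ≤ (E * x - y) ^ 2 / (2 * E) := by positivity
      linarith
    have h8 : 1 / (2 * E) * y ^ 2 ≤ E / 2 * Ph c y := by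
      calc 1 / (2 * E) * y ^ 2 ≤ 1 / (2 * E) * (E * E * Ph c y) :=
            mul_le_mul_of_nonneg_left h2 (by positivity)
        _ = E / 2 * Ph c y := by field_simp
    have h9 : E / 2 * x ^ 2 ≤ E / 2 * Ph c z := mul_le_mul_of_nonneg_left h1 (by positivity)
    have h10 : 0 ≤ K * x := by positivity
    linarith

/-- pairs of zeros, the first in a small set -/
theorem pairB : ∃ C T0 : ℝ, 0 < C ∧ 10 ≤ T0 ∧ ∀ T : ℝ, T0 ≤ T → ∀ B : Finset ℂ, B ⊆ ZZ T →
    ∀ η : ℝ, 0 < η → η ≤ 1 → ∑ s ∈ B, mm s ≤ 2 * η * nT T →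
    ∑ s ∈ B, ∑ s' ∈ ZZ T, mm s * mm s' *
      (1 / (1 + ((s.im - s'.im) * Real.log T / (2 * Real.pi)) ^ 2)) ≤
      C * (η * (1 - Real.log η)) * nT T := by
  obtain ⟨c, C, T0, hc, hC, hT0, hE⟩ := all_exp
  have hpi := Real.pi_pos
  have hW := W0_nonneg
  refine ⟨(W0 + 1) * (8 / c + 2 * Real.pi * C), T0, by positivity, hT0, ?_⟩
  intro T hT B hB η hη hη1 hsum
  have hT10 : 10 ≤ T := hT0.trans hT
  have hL := one_lt_log (show 3 ≤ T by linarith)
  have hLp : 0 < Real.log T := by linarith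
  have hTp : 0 < T := by linarith
  have hn := nT_pos hT10
  have hlη : Real.log η ≤ 0 := Real.log_nonpos hη.le hη1
  obtain ⟨K, hK⟩ : ∃ K : ℝ, K = 2 / c * (-Real.log η) := ⟨_, rfl⟩
  have hK0 : 0 ≤ K := by rw [hK]; exact mul_nonneg (by positivity) (by linarith)
  have hKe : Real.exp (-(c * K / 2)) = η := by
    rw [hK]
    have : -(c * (2 / c * -Real.log η) / 2) = Real.log η := by field_simp
    rw [this, Real.exp_log hη]
  obtain ⟨Γ, hΓd⟩ : ∃ Γ : ℝ, Γ = K * (2 * η * nT T * (2 / Real.log T)) + η * (C * T) := ⟨_, rfl⟩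
  have hΓ0 : 0 ≤ Γ := by rw [hΓd]; positivity
  have hPm : Measurable (Ph c) := by unfold Ph; fun_prop
  have hΓ : ∀ τ : ℝ, ∫⁻ t, ENNReal.ofReal (fw B mm (Real.log T) t) *
      ENNReal.ofReal (fw (ZZ T) mm (Real.log T) (t - τ)) ≤ ENNReal.ofReal Γ := by
    intro τ
    have hpt : ∀ t, ENNReal.ofReal (fw B mm (Real.log T) t) *
        ENNReal.ofReal (fw (ZZ T) mm (Real.log T) (t - τ)) ≤
        ENNReal.ofReal K * ENNReal.ofReal (fw B mm (Real.log T) t) +
        (ENNReal.ofReal (η / 2) * ENNReal.ofReal (Ph c (fw (ZZ T) mm (Real.log T) t)) +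
        ENNReal.ofReal (η / 2) * ENNReal.ofReal (Ph c (fw (ZZ T) mm (Real.log T) (t - τ)))) := by
      intro t
      have n1 := fw_nonneg (A := B) (L := Real.log T) mm_nonneg t
      have n2 := fw_nonneg (A := ZZ T) (L := Real.log T) mm_nonneg (t - τ)
      have n3 := fw_mono (a := mm) (b := mm) (L := Real.log T) hB (fun s _ => le_rfl) t mm_nonneg
      have h := pt_bound (y := fw (ZZ T) mm (Real.log T) (t - τ)) (c := c) (K := K) hc.le hK0 n1 n3
      rw [hKe] at h
      rw [← ENNReal.ofReal_mul n1, ← ENNReal.ofReal_mul hK0, ← ENNReal.ofReal_mul (by positivity),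
        ← ENNReal.ofReal_mul (by positivity), ← ENNReal.ofReal_add
          (mul_nonneg (by positivity) (Ph_nonneg _ _)) (mul_nonneg (by positivity) (Ph_nonneg _ _)),
        ← ENNReal.ofReal_add (mul_nonneg hK0 n1) (add_nonneg
          (mul_nonneg (by positivity) (Ph_nonneg _ _)) (mul_nonneg (by positivity) (Ph_nonneg _ _)))]
      apply ENNReal.ofReal_le_ofReal
      linarith
    have m1 : Measurable fun t => ENNReal.ofReal (fw B mm (Real.log T) t) :=
      fw_meas.ennreal_ofReal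
    have m2 : Measurable fun t => ENNReal.ofReal (Ph c (fw (ZZ T) mm (Real.log T) t)) :=
      (hPm.comp fw_meas).ennreal_ofReal
    have m3 : Measurable fun t => ENNReal.ofReal (Ph c (fw (ZZ T) mm (Real.log T) (t - τ))) :=
      m2.comp (measurable_id.sub_const τ)
    calc ∫⁻ t, ENNReal.ofReal (fw B mm (Real.log T) t) *
        ENNReal.ofReal (fw (ZZ T) mm (Real.log T) (t - τ)) ≤
        ∫⁻ t, (ENNReal.ofReal K * ENNReal.ofReal (fw B mm (Real.log T) t) +
        (ENNReal.ofReal (η / 2) * ENNReal.ofReal (Ph c (fw (ZZ T) mm (Real.log T) t)) +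
        ENNReal.ofReal (η / 2) * ENNReal.ofReal (Ph c (fw (ZZ T) mm (Real.log T) (t - τ))))) :=
          lintegral_mono hpt
      _ = ENNReal.ofReal K * (∫⁻ t, ENNReal.ofReal (fw B mm (Real.log T) t)) +
        (ENNReal.ofReal (η / 2) * (∫⁻ t, ENNReal.ofReal (Ph c (fw (ZZ T) mm (Real.log T) t))) +
        ENNReal.ofReal (η / 2) * ∫⁻ t, ENNReal.ofReal (Ph c (fw (ZZ T) mm (Real.log T) (t - τ)))) := by
          rw [lintegral_add_left (m1.const_mul _), lintegral_add_left (m2.const_mul _),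
            lintegral_const_mul _ m1, lintegral_const_mul _ m2, lintegral_const_mul _ m3]
      _ ≤ ENNReal.ofReal K * ENNReal.ofReal (2 * η * nT T * (2 / Real.log T)) +
        (ENNReal.ofReal (η / 2) * ENNReal.ofReal (C * T) +
        ENNReal.ofReal (η / 2) * ENNReal.ofReal (C * T)) := by
          have i1 : ∫⁻ t, ENNReal.ofReal (fw B mm (Real.log T) t) ≤
              ENNReal.ofReal (2 * η * nT T * (2 / Real.log T)) := by
            rw [int_fw mm_nonneg hLp]
            apply ENNReal.ofReal_le_ofReal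
            exact mul_le_mul_of_nonneg_right hsum (by positivity)
          have i3 : ∫⁻ t, ENNReal.ofReal (Ph c (fw (ZZ T) mm (Real.log T) (t - τ))) ≤
              ENNReal.ofReal (C * T) := by
            rw [lintegral_sub_right_eq_self
              (fun t => ENNReal.ofReal (Ph c (fw (ZZ T) mm (Real.log T) t))) τ]
            exact hE T hT
          have i2 := hE T hT
          gcongr
      _ = ENNReal.ofReal Γ := by
          rw [← ENNReal.ofReal_mul hK0, ← ENNReal.ofReal_mul (by positivity),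
            ← ENNReal.ofReal_add (by positivity) (by positivity),
            ← ENNReal.ofReal_add (by positivity) (by positivity), hΓd]
          congr 1
          ring
  have h := kl' (A := B) (B := ZZ T) (a := mm) (b := mm) mm_nonneg mm_nonneg hLp hΓ0 hΓ
    (K := fun s s' => 1 / (1 + ((s.im - s'.im) * Real.log T / (2 * Real.pi)) ^ 2))
    (w := fun k : ℤ => 80 / (1 + (k : ℝ) ^ 2)) (fun k => by positivity) sumZ80
    (fun s _ s' _ => ker_floor _)
  refine h.trans ?_
  have e1 : (∑' k : ℤ, 80 / (1 + (k : ℝ) ^ 2)) = W0 := rfl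
  rw [e1]
  have e2 : Real.log T * Γ = (8 / c * (-Real.log η) + 2 * Real.pi * C) * η * nT T := by
    rw [hΓd, hK]
    have e4 : Real.log T * (η * (C * T)) = 2 * Real.pi * C * η * nT T := by
      unfold nT
      field_simp
    rw [mul_add, e4]
    field_simp
    ring
  rw [e2]
  have h5 : 8 / c * (-Real.log η) + 2 * Real.pi * C ≤ (8 / c + 2 * Real.pi * C) * (1 - Real.log η) := by
    have : 0 ≤ 8 / c := by positivity
    have : 0 ≤ 2 * Real.pi * C * (-Real.log η) := mul_nonneg (by positivity) (by linarith)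
    nlinarith
  have h6 : 0 ≤ 8 / c * (-Real.log η) + 2 * Real.pi * C :=
    add_nonneg (mul_nonneg (by positivity) (by linarith)) (by positivity)
  calc W0 * ((8 / c * (-Real.log η) + 2 * Real.pi * C) * η * nT T) ≤
        (W0 + 1) * (((8 / c + 2 * Real.pi * C) * (1 - Real.log η)) * η * nT T) := by
        gcongr
        linarith
    _ = _ := by ring

end Pool.Agent.X113.LA
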