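import Pool.Agent.X113.ESF

/-! A bound for the mean square along a sequence is enough: the strip argument. -/

set_option autoImplicit false

open MeasureTheory Filter Topology Set

namespace Pool.Agent.X113.ES

open Pool.Agent.W263.BSD (LInt lapC lapC_differentiableAt)
open Pool.Agent.X83.VP (CC fv fv_meas fv_bd Kd Kd_nonneg fv_lint cont_id CC_diff CC_ne)
open Pool.Agent.X112.RO (zeta1_eq)

/-- the auxiliary function -/
noncomputable def hV (δ V : ℝ) (w : ℂ) : ℂ :=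
  (w - 1 / 2) * riemannZeta₁ (1 / 2 + w) * lapC (tr δ V) w + CC δ (1 / 2 + w) *
      ((w - 1 / 2) * deriv riemannZeta₁ (1 / 2 + w) - riemannZeta₁ (1 / 2 + w)) +
      ((Real.exp δ - 1 : ℝ) : ℂ) * riemannZeta₁ (1 / 2 + w)

theorem hV_diff (δ V : ℝ) {w : ℂ} (hw : 0 < w.re) : DifferentiableAt ℂ (hV δ V) w := by
  have hZ : Differentiable ℂ riemannZeta₁ := differentiable_riemannZeta₁
  have hZ' : Differentiable ℂ (deriv riemannZeta₁) := fun z =>
    ((hZ.analyticAt z).deriv).differentiableAt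
  have hs : Differentiable ℂ fun w : ℂ => 1 / 2 + w := by fun_prop
  have hne : (1 / 2 + w : ℂ) ≠ 0 := by
    intro h0
    have h1 := congrArg Complex.re h0
    simp at h1
    norm_num at h1
    linarith
  have d1 : DifferentiableAt ℂ (lapC (tr δ V)) w := tr_diff δ V w
  have d2 : DifferentiableAt ℂ (fun w => riemannZeta₁ (1 / 2 + w)) w :=
    (hZ (1 / 2 + w)).comp w (hs w)
  have d3 : DifferentiableAt ℂ (fun w => deriv riemannZeta₁ (1 / 2 + w)) w :=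
    (hZ' (1 / 2 + w)).comp w (hs w)
  have d4 : DifferentiableAt ℂ (fun w => CC δ (1 / 2 + w)) w :=
    DifferentiableAt.comp w (CC_diff δ hne) (hs w)
  have d5 : DifferentiableAt ℂ (fun w : ℂ => w - 1 / 2) w := by fun_prop
  unfold hV
  exact (((d5.mul d2).mul d1).add (d4.mul ((d5.mul d3).sub d2))).add (d2.const_mul _)

/-- the polynomial against the Gaussian -/
theorem poly_gauss {x : ℝ} (hx : 0 ≤ x) : (x + 2) ^ 3 ≤ 14 * Real.exp (x ^ 2) := by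
  have h1 := Real.quadratic_le_exp_of_nonneg (sq_nonneg x)
  nlinarith [sq_nonneg (x ^ 2 - x), sq_nonneg (x - 1), sq_nonneg x, mul_nonneg hx (sq_nonneg x),
    mul_nonneg hx (sq_nonneg (x - 1)), sq_nonneg (x ^ 2)]

theorem gauss_norm {w : ℂ} (h0 : 0 ≤ w.re) (h1 : w.re ≤ 1) :
    ‖Complex.exp (w ^ 2)‖ * (‖w‖ + 2) ^ 3 ≤ 14 * Real.exp 2 := by
  have h2 : ‖Complex.exp (w ^ 2)‖ ≤ Real.exp 2 * Real.exp (-‖w‖ ^ 2) := by
    rw [Complex.norm_exp, ← Real.exp_add]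
    apply Real.exp_le_exp.2
    have e1 : (w ^ 2).re = w.re ^ 2 - w.im ^ 2 := by
      rw [pow_two, Complex.mul_re]; ring
    have e2 : ‖w‖ ^ 2 = w.re ^ 2 + w.im ^ 2 := by
      rw [← Complex.normSq_eq_norm_sq, Complex.normSq_apply]; ring
    rw [e1, neg_eq_neg_one_mul, e2]
    nlinarith
  have h3 := poly_gauss (norm_nonneg w)
  calc ‖Complex.exp (w ^ 2)‖ * (‖w‖ + 2) ^ 3 ≤ (Real.exp 2 * Real.exp (-‖w‖ ^ 2)) * (14 * Real.exp (‖w‖ ^ 2)) :=
        mul_le_mul h2 h3 (by positivity) (by positivity)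
    _ = 14 * Real.exp 2 * (Real.exp (-‖w‖ ^ 2) * Real.exp (‖w‖ ^ 2)) := by ring
    _ = _ := by rw [← Real.exp_add, neg_add_cancel, Real.exp_zero, mul_one]

/-- growth of the functions involved -/
theorem Z_gr {w : ℂ} (h0 : 0 ≤ w.re) : ‖riemannZeta₁ (1 / 2 + w)‖ ≤ 11 * (‖w‖ + 2) ^ 2 ∧
    ‖deriv riemannZeta₁ (1 / 2 + w)‖ ≤ 44 * (‖w‖ + 2) ^ 2 := by
  have hs : (1 / 2 + w).re = 1 / 2 + w.re := by rw [Complex.add_re]; norm_num
  have hn : ‖(1 / 2 + w : ℂ)‖ ≤ 1 / 2 + ‖w‖ := by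
    refine (norm_add_le _ _).trans ?_
    norm_num
  constructor
  · refine (SG.z1_growth (z := 1 / 2 + w) (by rw [hs]; linarith)).trans ?_
    have : ‖(1 / 2 + w : ℂ)‖ + 1 ≤ ‖w‖ + 2 := by linarith
    have := pow_le_pow_left₀ (by positivity) this 2
    linarith
  · have h1 := Complex.norm_deriv_le_of_forall_mem_sphere_norm_le (c := 1 / 2 + w) (R := 1 / 4)
      (C := 11 * (‖w‖ + 2) ^ 2) (f := riemannZeta₁) (by norm_num)
      differentiable_riemannZeta₁.diffContOnCl fun z hz => ?_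
    · refine h1.trans (le_of_eq ?_)
      ring
    · rw [mem_sphere_iff_norm] at hz
      have h2 : |z.re - (1 / 2 + w).re| ≤ 1 / 4 := by
        have := Complex.abs_re_le_norm (z - (1 / 2 + w))
        rw [hz, Complex.sub_re] at this
        exact this
      rw [abs_le, hs] at h2
      refine (SG.z1_growth (z := z) (by linarith [h2.1])).trans ?_
      have h3 : ‖z‖ ≤ 1 / 4 + (1 / 2 + ‖w‖) := by
        calc ‖z‖ = ‖(z - (1 / 2 + w)) + (1 / 2 + w)‖ := by congr 1; ring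
          _ ≤ ‖z - (1 / 2 + w)‖ + ‖(1 / 2 + w : ℂ)‖ := norm_add_le _ _
          _ ≤ _ := by rw [hz]; linarith
      have : ‖z‖ + 1 ≤ ‖w‖ + 2 := by linarith
      have := pow_le_pow_left₀ (by positivity) this 2
      linarith

theorem CC_gr {δ : ℝ} (hδ : 0 ≤ δ) (hδ2 : δ ≤ Real.log 2) {w : ℂ} (h0 : 0 ≤ w.re) (h1 : w.re ≤ 1) :
    ‖CC δ (1 / 2 + w)‖ ≤ 10 := by
  have hs : (1 / 2 + w).re = 1 / 2 + w.re := by rw [Complex.add_re]; norm_num
  unfold Pool.Agent.X83.VP.CC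
  rw [norm_div]
  have h2 : ‖Complex.exp (δ * (1 / 2 + w)) - 1‖ ≤ 5 := by
    refine (norm_sub_le _ _).trans ?_
    rw [Complex.norm_exp, norm_one, Complex.re_ofReal_mul, hs]
    have h4 : δ * (1 / 2 + w.re) ≤ Real.log 2 * 2 := by nlinarith [Real.log_nonneg (one_le_two)]
    have h5 := Real.exp_le_exp.2 h4
    rw [mul_comm (Real.log 2), ← Real.log_rpow (by norm_num), Real.exp_log (by positivity)] at h5
    norm_num at h5
    linarith
  have h3 : 1 / 2 ≤ ‖(1 / 2 + w : ℂ)‖ := by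
    have := Complex.abs_re_le_norm (1 / 2 + w)
    rw [hs, abs_of_nonneg (by linarith)] at this
    linarith
  rw [div_le_iff₀ (by linarith)]
  linarith

theorem hV_bd {δ : ℝ} (hδ : 0 ≤ δ) (hδ2 : δ ≤ Real.log 2) (V : ℝ) {w : ℂ} (h0 : 0 ≤ w.re)
    (h1 : w.re ≤ 1) : ‖hV δ V w‖ ≤ (11 * ‖lapC (tr δ V) w‖ + 1000) * (‖w‖ + 2) ^ 3 := by
  obtain ⟨hz1, hz2⟩ := Z_gr h0
  have hC := CC_gr hδ hδ2 h0 h1
  have he : ‖((Real.exp δ - 1 : ℝ) : ℂ)‖ ≤ 1 := by
    rw [Complex.norm_real, Real.norm_eq_abs]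
    have h4 := Real.exp_le_exp.2 hδ2
    rw [Real.exp_log (by norm_num)] at h4
    have h5 := Real.one_le_exp hδ
    rw [abs_of_nonneg (by linarith)]
    linarith
  obtain ⟨y, hy⟩ : ∃ y : ℝ, y = ‖w‖ + 2 := ⟨_, rfl⟩
  have hy2 : 2 ≤ y := by rw [hy]; linarith [norm_nonneg w]
  rw [← hy] at hz1 hz2 ⊢
  have hw : ‖w - 1 / 2‖ ≤ y := by
    refine (norm_sub_le _ _).trans ?_
    rw [hy]
    norm_num
  obtain ⟨Z, hZ⟩ : ∃ Z : ℂ, Z = riemannZeta₁ (1 / 2 + w) := ⟨_, rfl⟩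
  obtain ⟨D, hD⟩ : ∃ D : ℂ, D = deriv riemannZeta₁ (1 / 2 + w) := ⟨_, rfl⟩
  obtain ⟨F, hF⟩ : ∃ F : ℂ, F = lapC (tr δ V) w := ⟨_, rfl⟩
  obtain ⟨c, hc⟩ : ∃ c : ℂ, c = CC δ (1 / 2 + w) := ⟨_, rfl⟩
  obtain ⟨u, hu⟩ : ∃ u : ℂ, u = w - 1 / 2 := ⟨_, rfl⟩
  obtain ⟨e, hee⟩ : ∃ e : ℂ, e = ((Real.exp δ - 1 : ℝ) : ℂ) := ⟨_, rfl⟩
  unfold hV
  rw [← hZ, ← hD, ← hF, ← hc, ← hu, ← hee]
  rw [← hZ] at hz1
  rw [← hD] at hz2
  rw [← hc] at hC
  rw [← hu] at hw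
  rw [← hee] at he
  have t1 : ‖u * Z * F‖ ≤ y * (11 * y ^ 2) * ‖F‖ := by
    rw [norm_mul, norm_mul]
    exact mul_le_mul_of_nonneg_right (mul_le_mul hw hz1 (norm_nonneg _) (by linarith)) (norm_nonneg _)
  have t2 : ‖c * (u * D - Z)‖ ≤ 10 * (y * (44 * y ^ 2) + 11 * y ^ 2) := by
    rw [norm_mul]
    refine mul_le_mul hC ?_ (norm_nonneg _) (by norm_num)
    refine (norm_sub_le _ _).trans (add_le_add ?_ hz1)
    rw [norm_mul]
    exact mul_le_mul hw hz2 (norm_nonneg _) (by linarith)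
  have t3 : ‖e * Z‖ ≤ 1 * (11 * y ^ 2) := by
    rw [norm_mul]
    exact mul_le_mul he hz1 (norm_nonneg _) (by norm_num)
  have t4 := norm_add_le (u * Z * F + c * (u * D - Z)) (e * Z)
  have t5 := norm_add_le (u * Z * F) (c * (u * D - Z))
  have hF0 := norm_nonneg F
  have hy3 : 2 * y ^ 2 ≤ y ^ 3 := by nlinarith [sq_nonneg y]
  nlinarith [mul_nonneg hF0 (by positivity : 0 ≤ y ^ 3)]

/-- on the line `Re w = 1` -/
theorem hV_one {δ : ℝ} (hδ : 0 ≤ δ) (hδ2 : δ ≤ Real.log 2) {V : ℝ} (hV0 : 0 ≤ V) {w : ℂ}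
    (hw : w.re = 1) : ‖hV δ V w‖ ≤ 22 * Kd δ * Real.exp (-V / 2) * (‖w‖ + 2) ^ 3 := by
  have hid := cont_id hδ hδ2 (a0 := 1 / 2) (by norm_num) (fun a ha => fv_lint ha) (w := w)
    (by rw [hw]; norm_num)
  have e1 : hV δ V w = (w - 1 / 2) * riemannZeta₁ (1 / 2 + w) * (lapC (tr δ V) w - lapC (fv δ) w) := by
    unfold hV
    linear_combination hid
  rw [e1, norm_mul, norm_mul]
  obtain ⟨hz1, -⟩ := Z_gr (w := w) (by rw [hw]; norm_num)
  have hd := diff_bd δ hV0 hw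
  have hu : ‖w - 1 / 2‖ ≤ ‖w‖ + 2 := by
    refine (norm_sub_le _ _).trans ?_
    norm_num
  have hK := Kd_nonneg δ
  calc ‖w - 1 / 2‖ * ‖riemannZeta₁ (1 / 2 + w)‖ * ‖lapC (tr δ V) w - lapC (fv δ) w‖
      ≤ (‖w‖ + 2) * (11 * (‖w‖ + 2) ^ 2) * (2 * Kd δ * Real.exp (-V / 2)) :=
        mul_le_mul (mul_le_mul hu hz1 (norm_nonneg _) (by positivity)) hd (norm_nonneg _) (by positivity)
    _ = _ := by ring

open Complex.HadamardThreeLines in
/-- the three lines theorem -/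
theorem hV_strip {δ : ℝ} (hδ : 0 ≤ δ) (hδ2 : δ ≤ Real.log 2) {V : ℝ} (hV0 : 0 ≤ V) {a : ℝ}
    (ha : 0 < a) (ha1 : a < 1) {w : ℂ} (h0 : a ≤ w.re) (h1 : w.re ≤ 1) :
    ‖Complex.exp (w ^ 2) * hV δ V w‖ ≤
      ((11 * (((∫ v in (0:ℝ)..V, fv δ v ^ 2) + 1 / (2 * a)) / 2) + 1000) * (14 * Real.exp 2)) ^
        (1 - (w.re - a) / (1 - a)) *
      (22 * Kd δ * Real.exp (-V / 2) * (14 * Real.exp 2)) ^ ((w.re - a) / (1 - a)) := by
  have hK := Kd_nonneg δ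
  have hI : 0 ≤ ∫ v in (0:ℝ)..V, fv δ v ^ 2 :=
    intervalIntegral.integral_nonneg hV0 fun v _ => sq_nonneg _
  have hgen : ∀ z : ℂ, a ≤ z.re → z.re ≤ 1 → ‖Complex.exp (z ^ 2) * hV δ V z‖ ≤
      (11 * (((∫ v in (0:ℝ)..V, fv δ v ^ 2) + 1 / (2 * a)) / 2) + 1000) * (14 * Real.exp 2) := by
    intro z hz0 hz1
    rw [norm_mul]
    have g1 := hV_bd hδ hδ2 V (w := z) (by linarith) hz1
    have g2 := trunc_bd δ hV0 ha hz0
    have g3 := gauss_norm (w := z) (by linarith) hz1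
    calc ‖Complex.exp (z ^ 2)‖ * ‖hV δ V z‖
        ≤ ‖Complex.exp (z ^ 2)‖ * ((11 * (((∫ v in (0:ℝ)..V, fv δ v ^ 2) + 1 / (2 * a)) / 2) + 1000) *
          (‖z‖ + 2) ^ 3) := by
          apply mul_le_mul_of_nonneg_left _ (norm_nonneg _)
          refine g1.trans (mul_le_mul_of_nonneg_right ?_ (by positivity))
          linarith
      _ = (11 * (((∫ v in (0:ℝ)..V, fv δ v ^ 2) + 1 / (2 * a)) / 2) + 1000) *
          (‖Complex.exp (z ^ 2)‖ * (‖z‖ + 2) ^ 3) := by ring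
      _ ≤ _ := mul_le_mul_of_nonneg_left g3 (by positivity)
  refine norm_le_interp_of_mem_verticalClosedStrip' (f := fun w => Complex.exp (w ^ 2) * hV δ V w)
    ha1 ⟨h0, h1⟩ ?_ ?_ ?_ ?_
  · apply DifferentiableOn.diffContOnCl
    intro z hz
    have hz' : z ∈ Complex.HadamardThreeLines.verticalClosedStrip a 1 := by
      have hc : IsClosed (Complex.HadamardThreeLines.verticalClosedStrip a 1) :=
        isClosed_Icc.preimage Complex.continuous_re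
      exact closure_minimal (preimage_mono Ioo_subset_Icc_self) hc hz
    have h2 : 0 < z.re := ha.trans_le hz'.1
    have d1 : DifferentiableAt ℂ (fun w : ℂ => Complex.exp (w ^ 2)) z := by fun_prop
    exact (d1.mul (hV_diff δ V h2)).differentiableWithinAt
  · refine ⟨(11 * (((∫ v in (0:ℝ)..V, fv δ v ^ 2) + 1 / (2 * a)) / 2) + 1000) * (14 * Real.exp 2), ?_⟩
    rintro _ ⟨z, hz, rfl⟩
    exact hgen z hz.1 hz.2
  · intro z hz
    have hz' : z.re = a := hz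
    exact hgen z hz'.ge (by rw [hz']; exact ha1.le)
  · intro z hz
    have hz' : z.re = 1 := hz
    rw [norm_mul]
    have g1 := hV_one hδ hδ2 hV0 hz'
    have g3 := gauss_norm (w := z) (by rw [hz']; norm_num) hz'.le
    calc ‖Complex.exp (z ^ 2)‖ * ‖hV δ V z‖
        ≤ ‖Complex.exp (z ^ 2)‖ * (22 * Kd δ * Real.exp (-V / 2) * (‖z‖ + 2) ^ 3) :=
          mul_le_mul_of_nonneg_left g1 (norm_nonneg _)
      _ = 22 * Kd δ * Real.exp (-V / 2) * (‖Complex.exp (z ^ 2)‖ * (‖z‖ + 2) ^ 3) := by ring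
      _ ≤ _ := mul_le_mul_of_nonneg_left g3 (by positivity)

/-- the decay -/
theorem decay (α β γ θ : ℝ) (hγ : 0 ≤ γ) (hθ : 0 < θ) :
    Tendsto (fun V : ℝ => (α * V + β) * (γ * Real.exp (-V / 2)) ^ θ) atTop (𝓝 0) := by
  have h1 : ∀ V : ℝ, (γ * Real.exp (-V / 2)) ^ θ = γ ^ θ * Real.exp (-(θ / 2 * V)) := by
    intro V
    rw [Real.mul_rpow hγ (Real.exp_pos _).le, ← Real.exp_mul]
    congr 2
    ring
  simp only [h1]
  have h2 : Tendsto (fun V : ℝ => θ / 2 * V) atTop atTop := tendsto_id.const_mul_atTop (by positivity)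
  have h3 := (Real.tendsto_pow_mul_exp_neg_atTop_nhds_zero 1).comp h2
  have h4 := (Real.tendsto_pow_mul_exp_neg_atTop_nhds_zero 0).comp h2
  have h5 := (h3.const_mul (α * γ ^ θ * (2 / θ))).add (h4.const_mul (β * γ ^ θ))
  rw [mul_zero, mul_zero, add_zero] at h5
  refine h5.congr fun V => ?_
  simp only [Function.comp, pow_one, pow_zero, one_mul]
  field_simp

theorem freq_free {δ : ℝ} (hδ : 0 < δ) (hδ2 : δ ≤ Real.log 2) {C : ℝ}
    (h : ∃ᶠ V : ℝ in atTop, ∫ v in (0:ℝ)..V, fv δ v ^ 2 ≤ C * V) {s0 : ℂ} (hs : 1 / 2 < s0.re) :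
    riemannZeta s0 ≠ 0 := by
  intro hz
  have hs1 : s0.re < 1 := by
    by_contra hcon
    rw [not_lt] at hcon
    exact riemannZeta_ne_zero_of_one_le_re hcon hz
  have hne1 : s0 ≠ 1 := by
    rintro rfl
    norm_num at hs1
  have hZ : Differentiable ℂ riemannZeta₁ := differentiable_riemannZeta₁
  have hz1 : riemannZeta₁ s0 = 0 := by rw [zeta1_eq hne1, hz, mul_zero]
  have hfin : analyticOrderAt riemannZeta₁ s0 ≠ ⊤ := by
    have hall : AnalyticOnNhd ℂ riemannZeta₁ univ := fun z _ => hZ.analyticAt z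
    refine hall.analyticOrderAt_ne_top_of_isPreconnected isPreconnected_univ (mem_univ 1)
      (mem_univ s0) ?_
    rw [(hall 1 (mem_univ _)).analyticOrderAt_eq_zero.mpr (by rw [riemannZeta₁_one]; exact one_ne_zero)]
    exact ENat.zero_ne_top
  obtain ⟨σ, hσ⟩ : ∃ σ : ℝ, σ = s0.re - 1 / 2 := ⟨_, rfl⟩
  have hσ0 : 0 < σ := by rw [hσ]; linarith
  have hσ1 : σ < 1 / 2 := by rw [hσ]; linarith
  have hre0 : 0 < s0.re := by linarith
  have hAan : AnalyticAt ℂ (fun z => CC δ z * (z - 1)) s0 := by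
    have ho : IsOpen {z : ℂ | 0 < z.re} := isOpen_lt continuous_const Complex.continuous_re
    have : DifferentiableOn ℂ (fun z => CC δ z * (z - 1)) {z : ℂ | 0 < z.re} := by
      intro z hz
      have hz' : 0 < z.re := hz
      exact ((CC_diff δ (by rintro rfl; simp at hz')).mul (by fun_prop)).differentiableWithinAt
    exact (this.analyticOnNhd ho) s0 hre0
  obtain ⟨c, r, hc, hr, hrr, hloc⟩ := local_lower (hZ.analyticAt s0) hfin hz1 hAan
    (mul_ne_zero (CC_ne hδ hre0) (sub_ne_zero.2 hne1)) (r0 := σ / 4) (by positivity)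
  -- the constants
  obtain ⟨θ, hθ⟩ : ∃ θ : ℝ, θ = σ / 4 := ⟨_, rfl⟩
  have hθ0 : 0 < θ := by rw [hθ]; positivity
  have ha : 0 < σ / 2 := by positivity
  obtain ⟨M, hM⟩ : ∃ M : ℝ, M = (‖s0‖ + 2) ^ 2 := ⟨_, rfl⟩
  obtain ⟨α, hα⟩ : ∃ α : ℝ, α = 11 * (C / 2) * (14 * Real.exp 2) := ⟨_, rfl⟩
  obtain ⟨β, hβ⟩ : ∃ β : ℝ, β = (11 * (1 / (2 * (σ / 2)) / 2) + 1000) * (14 * Real.exp 2) := ⟨_, rfl⟩
  obtain ⟨γ, hγ⟩ : ∃ γ : ℝ, γ = 22 * Kd δ * (14 * Real.exp 2) := ⟨_, rfl⟩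
  have hK := Kd_nonneg δ
  have hγ0 : 0 ≤ γ := by rw [hγ]; positivity
  have hdec := decay α β γ θ hγ0 hθ0
  have hsm : Tendsto (fun V : ℝ => γ * Real.exp (-V / 2)) atTop (𝓝 0) := by
    have h1 : Tendsto (fun V : ℝ => Real.exp (-V / 2)) atTop (𝓝 0) := by
      have : Tendsto (fun V : ℝ => V / 2) atTop atTop := tendsto_id.atTop_div_const (by norm_num)
      refine (Real.tendsto_exp_neg_atTop_nhds_zero.comp this).congr fun V => ?_
      simp only [Function.comp]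
      congr 1
      ring
    simpa using h1.const_mul γ
  have hex : 0 < c * Real.exp (-M) := by positivity
  have hev : ∀ᶠ V : ℝ in atTop, 0 ≤ V ∧ γ * Real.exp (-V / 2) < 1 ∧
      (α * V + β) * (γ * Real.exp (-V / 2)) ^ θ < c * Real.exp (-M) :=
    (eventually_ge_atTop 0).and ((hsm.eventually (gt_mem_nhds one_pos)).and
      (hdec.eventually (gt_mem_nhds hex)))
  obtain ⟨V, hV1, hV0, hV2, hV3⟩ := (h.and_eventually hev).exists
  obtain ⟨B, hB⟩ : ∃ B : ℂ → ℂ, B = fun z => CC δ z - (z - 1) * lapC (tr δ V) (z - 1 / 2) -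
      ((Real.exp δ - 1 : ℝ) : ℂ) := ⟨_, rfl⟩
  have hBd : DifferentiableOn ℂ B (Metric.closedBall s0 (σ / 4)) := by
    intro z hz
    have hz' : 0 < z.re := by
      rw [Metric.mem_closedBall, dist_eq_norm] at hz
      have h1 := Complex.abs_re_le_norm (z - s0)
      rw [Complex.sub_re, abs_le] at h1
      linarith [h1.1]
    rw [hB]
    have d1 : DifferentiableAt ℂ (fun z => lapC (tr δ V) (z - 1 / 2)) z :=
      DifferentiableAt.comp z (g := lapC (tr δ V)) (f := fun z : ℂ => z - 1 / 2) (tr_diff δ V _)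
        (by fun_prop)
    have d5 : DifferentiableAt ℂ (fun z : ℂ => z - 1) z := by fun_prop
    exact (((CC_diff δ (by rintro rfl; simp at hz')).sub (d5.mul d1)).sub_const _).differentiableWithinAt
  obtain ⟨s, hsr, hlow⟩ := hloc B hBd
  have e1 : CC δ s * (s - 1) * deriv riemannZeta₁ s - B s * riemannZeta₁ s = hV δ V (s - 1 / 2) := by
    unfold hV
    rw [hB, show (1 / 2 : ℂ) + (s - 1 / 2) = s by ring, show s - 1 / 2 - 1 / 2 = s - 1 by ring]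
    ring
  rw [e1] at hlow
  have hdist : ‖s - s0‖ = r := by rw [← dist_eq_norm]; exact hsr
  have hre : |s.re - s0.re| ≤ σ / 4 := by
    have := Complex.abs_re_le_norm (s - s0)
    rw [hdist, Complex.sub_re] at this
    linarith
  rw [abs_le] at hre
  have hwre : (s - 1 / 2).re = s.re - 1 / 2 := by rw [Complex.sub_re]; norm_num
  have g0 : σ / 2 ≤ (s - 1 / 2).re := by rw [hwre]; linarith [hre.1]
  have g1 : (s - 1 / 2).re ≤ 1 := by rw [hwre]; linarith [hre.2]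
  have hst := hV_strip hδ.le hδ2 hV0 ha (by linarith : σ / 2 < 1) g0 g1
  -- simplify the bound
  have hA1 : (11 * (((∫ v in (0:ℝ)..V, fv δ v ^ 2) + 1 / (2 * (σ / 2))) / 2) + 1000) * (14 * Real.exp 2) ≤
      α * V + β := by
    have h2 : (11 * (((∫ v in (0:ℝ)..V, fv δ v ^ 2) + 1 / (2 * (σ / 2))) / 2) + 1000) * (14 * Real.exp 2) ≤
        (11 * ((C * V + 1 / (2 * (σ / 2))) / 2) + 1000) * (14 * Real.exp 2) := by
      apply mul_le_mul_of_nonneg_right _ (by positivity)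
      linarith
    refine h2.trans (le_of_eq ?_)
    rw [hα, hβ]
    ring
  have hI : 0 ≤ ∫ v in (0:ℝ)..V, fv δ v ^ 2 :=
    intervalIntegral.integral_nonneg hV0 fun v _ => sq_nonneg _
  have hA0 : 1 ≤ (11 * (((∫ v in (0:ℝ)..V, fv δ v ^ 2) + 1 / (2 * (σ / 2))) / 2) + 1000) *
      (14 * Real.exp 2) := by
    have h3 : 1 ≤ Real.exp 2 := Real.one_le_exp (by norm_num)
    have h4 : 1 ≤ 11 * (((∫ v in (0:ℝ)..V, fv δ v ^ 2) + 1 / (2 * (σ / 2))) / 2) + 1000 := by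
      have : 0 ≤ 1 / (2 * (σ / 2)) := by positivity
      linarith
    nlinarith
  have hb : 22 * Kd δ * Real.exp (-V / 2) * (14 * Real.exp 2) = γ * Real.exp (-V / 2) := by
    rw [hγ]; ring
  rw [hb] at hst
  have hexp : θ ≤ ((s - 1 / 2).re - σ / 2) / (1 - σ / 2) := by
    rw [le_div_iff₀ (by linarith), hwre, hθ]
    nlinarith [hre.1]
  have hexp1 : ((s - 1 / 2).re - σ / 2) / (1 - σ / 2) ≤ 1 := by
    rw [div_le_one (by linarith)]
    linarith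
  obtain ⟨τ, hτ⟩ : ∃ τ : ℝ, τ = ((s - 1 / 2).re - σ / 2) / (1 - σ / 2) := ⟨_, rfl⟩
  rw [← hτ] at hst hexp hexp1
  obtain ⟨A, hA⟩ : ∃ A : ℝ, A = (11 * (((∫ v in (0:ℝ)..V, fv δ v ^ 2) + 1 / (2 * (σ / 2))) / 2) + 1000) *
      (14 * Real.exp 2) := ⟨_, rfl⟩
  rw [← hA] at hst hA1 hA0
  have hb0 : 0 ≤ γ * Real.exp (-V / 2) := by positivity
  have k1 : A ^ (1 - τ) ≤ A := by
    calc A ^ (1 - τ) ≤ A ^ (1 : ℝ) := Real.rpow_le_rpow_of_exponent_le hA0 (by linarith)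
      _ = A := Real.rpow_one A
  have k2 : (γ * Real.exp (-V / 2)) ^ τ ≤ (γ * Real.exp (-V / 2)) ^ θ := by
    rcases eq_or_lt_of_le hb0 with h5 | h5
    · rw [← h5, Real.zero_rpow (by linarith), Real.zero_rpow hθ0.ne']
    · exact Real.rpow_le_rpow_of_exponent_ge h5 hV2.le hexp
  have k3 : ‖Complex.exp ((s - 1 / 2) ^ 2) * hV δ V (s - 1 / 2)‖ < c * Real.exp (-M) := by
    refine lt_of_le_of_lt hst (lt_of_le_of_lt ?_ hV3)
    exact mul_le_mul (k1.trans hA1) k2 (by positivity) (by linarith)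
  rw [norm_mul] at k3
  have k4 : Real.exp (-M) ≤ ‖Complex.exp ((s - 1 / 2) ^ 2)‖ := by
    rw [Complex.norm_exp]
    apply Real.exp_le_exp.2
    have h6 : |((s - 1 / 2) ^ 2).re| ≤ ‖(s - 1 / 2) ^ 2‖ := Complex.abs_re_le_norm _
    rw [norm_pow] at h6
    have h7 : ‖s - 1 / 2‖ ≤ ‖s0‖ + 2 := by
      calc ‖s - 1 / 2‖ = ‖(s - s0) + s0 - 1 / 2‖ := by congr 1; ring
        _ ≤ ‖(s - s0) + s0‖ + ‖(1 / 2 : ℂ)‖ := norm_sub_le _ _
        _ ≤ (‖s - s0‖ + ‖s0‖) + 1 := add_le_add (norm_add_le _ _) (by norm_num)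
        _ ≤ _ := by rw [hdist]; linarith
    have h8 := pow_le_pow_left₀ (norm_nonneg _) h7 2
    rw [hM]
    have h9 := (abs_le.1 h6).1
    linarith
  have k5 : c * Real.exp (-M) < ‖Complex.exp ((s - 1 / 2) ^ 2)‖ * ‖hV δ V (s - 1 / 2)‖ := by
    calc c * Real.exp (-M) < ‖hV δ V (s - 1 / 2)‖ * Real.exp (-M) :=
          mul_lt_mul_of_pos_right hlow (Real.exp_pos _)
      _ ≤ ‖hV δ V (s - 1 / 2)‖ * ‖Complex.exp ((s - 1 / 2) ^ 2)‖ :=
          mul_le_mul_of_nonneg_left k4 (norm_nonneg _)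
      _ = _ := mul_comm _ _
  linarith

end Pool.Agent.X113.ES
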