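import Pool.Agent.X83.VP.L2
import Pool.Agent.H382R2.Zeta2

/-! A bound for the mean square along a sequence is enough for the Riemann hypothesis. -/

set_option autoImplicit false

open MeasureTheory Filter Topology Set

namespace Pool.Agent.X113.ES

open Pool.Agent.W263.BSD (LInt lapC lapC_differentiableAt)
open Pool.Agent.X83.VP (CC fv fv_meas fv_bd Kd Kd_nonneg fv_lint cont_id CC_diff CC_ne)
open Pool.Agent.X112.RO (zeta1_eq)

/-- the local lemma -/
theorem local_lower {Z A : ℂ → ℂ} {s0 : ℂ} (hZ : AnalyticAt ℂ Z s0) (hne : analyticOrderAt Z s0 ≠ ⊤)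
    (hz : Z s0 = 0) (hA : AnalyticAt ℂ A s0) (hA0 : A s0 ≠ 0) {r0 : ℝ} (hr0 : 0 < r0) :
    ∃ c r : ℝ, 0 < c ∧ 0 < r ∧ r ≤ r0 ∧ ∀ B : ℂ → ℂ, DifferentiableOn ℂ B (Metric.closedBall s0 r0) →
      ∃ s : ℂ, dist s s0 = r ∧ c < ‖A s * deriv Z s - B s * Z s‖ := by
  obtain ⟨g, hg, hg0, hev⟩ := hZ.analyticOrderAt_ne_top.1 hne
  obtain ⟨m, hm⟩ : ∃ m : ℕ, analyticOrderNatAt Z s0 = m + 1 := by
    rcases Nat.eq_zero_or_pos (analyticOrderNatAt Z s0) with h | h
    · exfalso
      have h1 := hev.self_of_nhds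
      simp only [h, hz, pow_zero, one_smul] at h1
      exact hg0 h1.symm
    · exact ⟨analyticOrderNatAt Z s0 - 1, by omega⟩
  rw [hm] at hev
  have hev2 := hev.eventually_nhds
  have hall : ∀ᶠ z in 𝓝 s0, (∀ᶠ y in 𝓝 z, Z y = (y - s0) ^ (m + 1) • g y) ∧ AnalyticAt ℂ g z ∧
      AnalyticAt ℂ A z := hev2.and (hg.eventually_analyticAt.and hA.eventually_analyticAt)
  obtain ⟨r1, hr1, hball⟩ := Metric.eventually_nhds_iff_ball.1 hall
  obtain ⟨r, hr⟩ : ∃ r : ℝ, r = min (r1 / 2) r0 := ⟨_, rfl⟩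
  have hrp : 0 < r := by rw [hr]; exact lt_min (half_pos hr1) hr0
  have hrr1 : r < r1 := by
    have : r ≤ r1 / 2 := by rw [hr]; exact min_le_left _ _
    linarith
  have hrr0 : r ≤ r0 := by rw [hr]; exact min_le_right _ _
  have hin : ∀ s ∈ Metric.closedBall s0 r, s ∈ Metric.ball s0 r1 := fun s hs =>
    lt_of_le_of_lt hs hrr1
  -- the derivative
  have hder : ∀ s ∈ Metric.closedBall s0 r, deriv Z s = (s - s0) ^ m * (((m + 1 : ℕ) : ℂ) * g s +
      (s - s0) * deriv g s) := by
    intro s hs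
    obtain ⟨h1, h2, h3⟩ := hball s (hin s hs)
    have h4 : deriv Z s = deriv (fun y => (y - s0) ^ (m + 1) * g y) s := by
      apply Filter.EventuallyEq.deriv_eq
      filter_upwards [h1] with y hy
      rw [hy, smul_eq_mul]
    rw [h4]
    have h5 : HasDerivAt (fun y : ℂ => (y - s0) ^ (m + 1)) (((m + 1 : ℕ) : ℂ) * (s - s0) ^ m) s := by
      have h6 := ((hasDerivAt_id s).sub_const s0).fun_pow (m + 1)
      simpa using h6
    rw [(h5.fun_mul h2.differentiableAt.hasDerivAt).deriv]
    ring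
  have hval : ∀ s ∈ Metric.closedBall s0 r, Z s = (s - s0) ^ (m + 1) * g s := by
    intro s hs
    have := (hball s (hin s hs)).1.self_of_nhds
    rwa [smul_eq_mul] at this
  obtain ⟨q0, hq0⟩ : ∃ q0 : ℝ, q0 = ‖A s0 * (((m + 1 : ℕ) : ℂ) * g s0)‖ := ⟨_, rfl⟩
  have hq0p : 0 < q0 := by
    rw [hq0, norm_pos_iff]
    refine mul_ne_zero hA0 (mul_ne_zero ?_ hg0)
    exact_mod_cast Nat.succ_ne_zero m
  refine ⟨q0 * r ^ m / 2, r, by positivity, hrp, hrr0, fun B hB => ?_⟩
  by_contra hcon
  push Not at hcon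
  obtain ⟨q, hq⟩ : ∃ q : ℂ → ℂ, ∀ s, q s = A s * (((m + 1 : ℕ) : ℂ) * g s + (s - s0) * deriv g s) -
      B s * ((s - s0) * g s) := ⟨_, fun _ => rfl⟩
  have hfac : ∀ s ∈ Metric.closedBall s0 r, A s * deriv Z s - B s * Z s = (s - s0) ^ m * q s := by
    intro s hs
    rw [hder s hs, hval s hs, hq]
    ring
  have hqd : DiffContOnCl ℂ q (Metric.ball s0 r) := by
    apply DifferentiableOn.diffContOnCl
    rw [closure_ball s0 hrp.ne']
    have e : q = fun s => A s * (((m + 1 : ℕ) : ℂ) * g s + (s - s0) * deriv g s) -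
      B s * ((s - s0) * g s) := funext hq
    rw [e]
    intro s hs
    obtain ⟨h1, h2, h3⟩ := hball s (hin s hs)
    have d1 : DifferentiableWithinAt ℂ A (Metric.closedBall s0 r) s :=
      h3.differentiableAt.differentiableWithinAt
    have d2 : DifferentiableWithinAt ℂ g (Metric.closedBall s0 r) s :=
      h2.differentiableAt.differentiableWithinAt
    have d3 : DifferentiableWithinAt ℂ (deriv g) (Metric.closedBall s0 r) s :=
      h2.deriv.differentiableAt.differentiableWithinAt
    have d4 : DifferentiableWithinAt ℂ B (Metric.closedBall s0 r) s :=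
      (hB s (Metric.closedBall_subset_closedBall hrr0 hs)).mono
        (Metric.closedBall_subset_closedBall hrr0)
    have d5 : DifferentiableWithinAt ℂ (fun s : ℂ => s - s0) (Metric.closedBall s0 r) s := by fun_prop
    exact (d1.mul ((d2.const_mul _).add (d5.mul d3))).sub (d4.mul (d5.mul d2))
  have hfr : ∀ z ∈ frontier (Metric.ball s0 r), ‖q z‖ ≤ q0 / 2 := by
    intro z hz'
    rw [frontier_ball s0 hrp.ne', mem_sphere_iff_norm, ← dist_eq_norm] at hz'
    have h1 := hcon z hz'
    rw [hfac z (by rw [Metric.mem_closedBall]; exact hz'.le), norm_mul, norm_pow, ← dist_eq_norm, hz'] at h1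
    have h2 : 0 < r ^ m := by positivity
    have h3 : r ^ m * ‖q z‖ ≤ r ^ m * (q0 / 2) := by
      refine h1.trans (le_of_eq ?_)
      ring
    exact le_of_mul_le_mul_left h3 h2
  have h4 := Complex.norm_le_of_forall_mem_frontier_norm_le Metric.isBounded_ball hqd hfr
    (z := s0) (subset_closure (Metric.mem_ball_self hrp))
  rw [hq, sub_self, zero_mul, zero_mul, mul_zero, add_zero, sub_zero, ← hq0] at h4
  linarith

/-- the truncated function -/
noncomputable def tr (δ V : ℝ) (v : ℝ) : ℝ := (Iic V).indicator (fv δ) v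

theorem tr_meas (δ V : ℝ) : Measurable (tr δ V) := (fv_meas δ).indicator measurableSet_Iic

theorem tr_LInt (δ V a : ℝ) : LInt (tr δ V) a := by
  unfold Pool.Agent.W263.BSD.LInt
  have e : (fun u => tr δ V u * Real.exp (-(a * u))) =
      (Iic V).indicator (fun u => fv δ u * Real.exp (-(a * u))) := by
    funext u
    unfold tr
    by_cases h : u ∈ Iic V
    · rw [indicator_of_mem h, indicator_of_mem h]
    · rw [indicator_of_notMem h, indicator_of_notMem h, zero_mul]
  rw [e, IntegrableOn, integrable_indicator_iff measurableSet_Iic, IntegrableOn,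
    Measure.restrict_restrict measurableSet_Iic, inter_comm, Ioi_inter_Iic]
  have h1 : IntegrableOn (fun _ : ℝ => Kd δ * Real.exp (|V| / 2) * Real.exp (|a| * |V|)) (Ioc 0 V) := by
    rw [integrableOn_const_iff]
    right
    exact measure_Ioc_lt_top
  refine Integrable.mono' h1 (((fv_meas δ).mul (by fun_prop)).aestronglyMeasurable) ?_
  rw [ae_restrict_iff' measurableSet_Ioc]
  filter_upwards with u hu
  rw [norm_mul, Real.norm_eq_abs, Real.norm_of_nonneg (Real.exp_pos _).le]
  have hu1 : u ≤ |V| := hu.2.trans (le_abs_self V)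
  refine mul_le_mul ((fv_bd δ u).trans ?_) ?_ (Real.exp_pos _).le ?_
  · exact mul_le_mul_of_nonneg_left (Real.exp_le_exp.2 (by linarith)) (Kd_nonneg δ)
  · apply Real.exp_le_exp.2
    have h2 : -(a * u) ≤ |a| * u := by
      have := mul_le_mul_of_nonneg_right (neg_abs_le a) hu.1.le
      linarith
    exact h2.trans (mul_le_mul_of_nonneg_left hu1 (abs_nonneg _))
  · exact mul_nonneg (Kd_nonneg δ) (Real.exp_pos _).le

theorem tr_diff (δ V : ℝ) : Differentiable ℂ (lapC (tr δ V)) := fun z =>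
  lapC_differentiableAt (w0 := z.re - 1) (tr_meas δ V) (fun w _ => tr_LInt δ V w) (by linarith)

/-- the norm of a transform -/
theorem lapC_norm {f : ℝ → ℝ} {w : ℂ} :
    ‖lapC f w‖ ≤ ∫ v in Ioi (0:ℝ), |f v| * Real.exp (-(w.re * v)) := by
  unfold Pool.Agent.W263.BSD.lapC
  refine (norm_integral_le_integral_norm _).trans (le_of_eq ?_)
  apply integral_congr_ae
  filter_upwards with v
  rw [norm_mul, Complex.norm_real, Real.norm_eq_abs, Complex.norm_exp]
  congr 2
  rw [Complex.neg_re, Complex.mul_re, Complex.ofReal_re, Complex.ofReal_im]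
  ring

theorem fv_ii (δ : ℝ) {V : ℝ} (hV : 0 ≤ V) : IntervalIntegrable (fun v => fv δ v ^ 2) volume 0 V := by
  rw [intervalIntegrable_iff_integrableOn_Ioc_of_le hV]
  have h1 : IntegrableOn (fun _ : ℝ => (Kd δ * Real.exp (V / 2)) ^ 2) (Ioc 0 V) := by
    rw [integrableOn_const_iff]
    right
    exact measure_Ioc_lt_top
  refine Integrable.mono' h1 (((fv_meas δ).pow_const 2).aestronglyMeasurable) ?_
  rw [ae_restrict_iff' measurableSet_Ioc]
  filter_upwards with u hu
  rw [Real.norm_of_nonneg (sq_nonneg _), ← sq_abs]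
  apply pow_le_pow_left₀ (abs_nonneg _)
  refine (fv_bd δ u).trans ?_
  exact mul_le_mul_of_nonneg_left (Real.exp_le_exp.2 (by linarith [hu.2])) (Kd_nonneg δ)

theorem trunc_bd (δ : ℝ) {V : ℝ} (hV : 0 ≤ V) {a : ℝ} (ha : 0 < a) {w : ℂ} (hw : a ≤ w.re) :
    ‖lapC (tr δ V) w‖ ≤ ((∫ v in (0:ℝ)..V, fv δ v ^ 2) + 1 / (2 * a)) / 2 := by
  refine lapC_norm.trans ?_
  have h1 : IntegrableOn (fun v => (tr δ V v) ^ 2) (Ioi 0) := by
    have e : (fun v => (tr δ V v) ^ 2) = (Iic V).indicator (fun v => fv δ v ^ 2) := by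
      funext u
      unfold tr
      by_cases h : u ∈ Iic V
      · rw [indicator_of_mem h, indicator_of_mem h]
      · rw [indicator_of_notMem h, indicator_of_notMem h]
        norm_num
    rw [e, IntegrableOn, integrable_indicator_iff measurableSet_Iic, IntegrableOn,
      Measure.restrict_restrict measurableSet_Iic, inter_comm, Ioi_inter_Iic]
    exact (intervalIntegrable_iff_integrableOn_Ioc_of_le hV).1 (fv_ii δ hV)
  have h1v : ∫ v in Ioi (0:ℝ), (tr δ V v) ^ 2 = ∫ v in (0:ℝ)..V, fv δ v ^ 2 := by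
    have e : (fun v => (tr δ V v) ^ 2) = (Iic V).indicator (fun v => fv δ v ^ 2) := by
      funext u
      unfold tr
      by_cases h : u ∈ Iic V
      · rw [indicator_of_mem h, indicator_of_mem h]
      · rw [indicator_of_notMem h, indicator_of_notMem h]
        norm_num
    rw [e, setIntegral_indicator measurableSet_Iic, Ioi_inter_Iic, intervalIntegral.integral_of_le hV]
  have h2 : IntegrableOn (fun v : ℝ => Real.exp (-(2 * a) * v)) (Ioi 0) :=
    integrableOn_exp_mul_Ioi (by linarith) 0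
  have h2v : ∫ v in Ioi (0:ℝ), Real.exp (-(2 * a) * v) = 1 / (2 * a) := by
    rw [integral_exp_mul_Ioi (by linarith) 0, mul_zero, Real.exp_zero]
    field_simp
  rw [← h1v, ← h2v, ← integral_add h1 h2, ← integral_div]
  refine integral_mono_of_nonneg ?_ ((h1.add h2).div_const 2) ?_
  · filter_upwards with v
    exact mul_nonneg (abs_nonneg _) (Real.exp_pos _).le
  · rw [EventuallyLE, ae_restrict_iff' measurableSet_Ioi]
    filter_upwards with v hv
    have hv0 : (0:ℝ) < v := hv
    obtain ⟨y, hy⟩ : ∃ y : ℝ, y = Real.exp (-(a * v)) := ⟨_, rfl⟩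
    have h3 : Real.exp (-(w.re * v)) ≤ y := by
      rw [hy]
      apply Real.exp_le_exp.2
      have := mul_le_mul_of_nonneg_right hw hv0.le
      linarith
    have h4 : Real.exp (-(2 * a) * v) = y ^ 2 := by
      rw [hy, ← Real.exp_nat_mul]; congr 1; push_cast; ring
    change |tr δ V v| * Real.exp (-(w.re * v)) ≤ (tr δ V v ^ 2 + Real.exp (-(2 * a) * v)) / 2
    rw [h4]
    have h5 : |tr δ V v| * Real.exp (-(w.re * v)) ≤ |tr δ V v| * y :=
      mul_le_mul_of_nonneg_left h3 (abs_nonneg _)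
    have h6 : (tr δ V v) ^ 2 = |tr δ V v| ^ 2 := (sq_abs _).symm
    rw [h6]
    nlinarith [sq_nonneg (|tr δ V v| - y)]

theorem diff_bd (δ : ℝ) {V : ℝ} (hV : 0 ≤ V) {w : ℂ} (hw : w.re = 1) :
    ‖lapC (tr δ V) w - lapC (fv δ) w‖ ≤ 2 * Kd δ * Real.exp (-V / 2) := by
  have h1 : LInt (fv δ) 1 := fv_lint (by norm_num)
  have h2 := tr_LInt δ V 1
  have h3 : lapC (tr δ V) w - lapC (fv δ) w = lapC (fun v => tr δ V v - fv δ v) w := by
    unfold Pool.Agent.W263.BSD.lapC
    rw [← integral_sub]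
    · apply integral_congr_ae
      filter_upwards with v
      push_cast
      ring
    · exact Pool.Agent.W263.BSD.LInt.complex (tr_meas δ V) (by rw [hw]; exact h2)
    · exact Pool.Agent.W263.BSD.LInt.complex (fv_meas δ) (by rw [hw]; exact h1)
  rw [h3]
  refine lapC_norm.trans ?_
  have h4 : IntegrableOn (fun v : ℝ => Kd δ * Real.exp (-(1 / 2) * v)) (Ioi V) :=
    (integrableOn_exp_mul_Ioi (by norm_num) V).const_mul _
  have h5 : ∫ v in Ioi V, Kd δ * Real.exp (-(1 / 2) * v) = 2 * Kd δ * Real.exp (-V / 2) := by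
    rw [integral_const_mul, integral_exp_mul_Ioi (by norm_num) V]
    have : -(1 / 2) * V = -V / 2 := by ring
    rw [this]
    ring
  rw [← h5]
  have h6 : ∫ v in Ioi V, Kd δ * Real.exp (-(1 / 2) * v) =
      ∫ v in Ioi (0:ℝ), (Ioi V).indicator (fun v => Kd δ * Real.exp (-(1 / 2) * v)) v := by
    rw [setIntegral_indicator measurableSet_Ioi, Ioi_inter_Ioi, max_eq_right hV]
  rw [h6]
  refine integral_mono_of_nonneg ?_ ?_ ?_
  · filter_upwards with v
    exact mul_nonneg (abs_nonneg _) (Real.exp_pos _).le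
  · rw [integrable_indicator_iff measurableSet_Ioi, IntegrableOn,
      Measure.restrict_restrict measurableSet_Ioi, Ioi_inter_Ioi, max_eq_left hV]
    exact h4
  · rw [EventuallyLE, ae_restrict_iff' measurableSet_Ioi]
    filter_upwards with v hv
    rw [hw, one_mul]
    change |tr δ V v - fv δ v| * Real.exp (-v) ≤ _
    unfold tr
    by_cases h : v ∈ Iic V
    · rw [indicator_of_mem h, sub_self, abs_zero, zero_mul,
        indicator_of_notMem (by rw [mem_Ioi, not_lt]; exact h)]
    · have h' : v ∈ Ioi V := by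
        rw [mem_Iic, not_le] at h
        exact h
      rw [indicator_of_notMem h, zero_sub, abs_neg, indicator_of_mem h']
      calc |fv δ v| * Real.exp (-v) ≤ Kd δ * Real.exp (v / 2) * Real.exp (-v) :=
            mul_le_mul_of_nonneg_right (fv_bd δ v) (Real.exp_pos _).le
        _ = _ := by
            rw [mul_assoc, ← Real.exp_add]
            congr 2
            ring

end Pool.Agent.X113.ES
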