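import Mathlib

import Pool.Agent.H457R2.RG.RsumAux


/-! A Tauberian theorem for the kernel `1 - cos`. -/

set_option autoImplicit false

open MeasureTheory Filter Topology Set
open scoped FourierTransform ContDiff

namespace Pool.Agent.X113.GG

variable {ι : Type*}

/-- the sum of `g ^ 2 a` over `|g| ≤ T` -/
noncomputable def NN (g a : ι → ℝ) (T : ℝ) : ℝ := ∑' i, if |g i| ≤ T then g i ^ 2 * a i else 0

/-- the structure function -/
noncomputable def Gf (g a : ι → ℝ) (h : ℝ) : ℝ := ∑' i, a i * (1 - Real.cos (g i * h))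

/-- test sums -/
noncomputable def SF (g a : ι → ℝ) (F : ℝ → ℝ) (T : ℝ) : ℝ := T * ∑' i, a i * F (g i / T)

theorem sum_bdd {a : ι → ℝ} (ha : ∀ i, 0 ≤ a i) (hs : Summable a) {f : ι → ℝ} {C : ℝ}
    (hf : ∀ i, |f i| ≤ C) : Summable fun i => a i * f i := by
  refine Summable.of_norm_bounded (g := fun i => C * a i) (hs.mul_left C) fun i => ?_
  rw [Real.norm_eq_abs, abs_mul, abs_of_nonneg (ha i), mul_comm]
  exact mul_le_mul_of_nonneg_right (hf i) (ha i)

theorem SF_mono {g a : ι → ℝ} (ha : ∀ i, 0 ≤ a i) (hs : Summable a) {F F' : ℝ → ℝ} {C C' : ℝ}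
    (hF : ∀ u, |F u| ≤ C) (hF' : ∀ u, |F' u| ≤ C') (h : ∀ u, F u ≤ F' u) {T : ℝ} (hT : 0 ≤ T) :
    SF g a F T ≤ SF g a F' T := by
  unfold SF
  apply mul_le_mul_of_nonneg_left _ hT
  exact Summable.tsum_le_tsum (fun i => mul_le_mul_of_nonneg_left (h _) (ha i))
    (sum_bdd ha hs fun i => hF _) (sum_bdd ha hs fun i => hF' _)

theorem cos_bd (u : ℝ) : |1 - Real.cos u| ≤ 2 := by
  rw [abs_le]
  constructor <;> linarith [Real.cos_le_one u, Real.neg_one_le_cos u]

theorem Gf_nonneg {g a : ι → ℝ} (ha : ∀ i, 0 ≤ a i) (h : ℝ) : 0 ≤ Gf g a h :=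
  tsum_nonneg fun i => mul_nonneg (ha i) (by linarith [Real.cos_le_one (g i * h)])

theorem Gf_neg (g a : ι → ℝ) (h : ℝ) : Gf g a (-h) = Gf g a h := by
  unfold Gf
  simp only [mul_neg, Real.cos_neg]

theorem Gf_le {g a : ι → ℝ} (ha : ∀ i, 0 ≤ a i) (hs : Summable a) (h : ℝ) :
    Gf g a h ≤ 2 * ∑' i, a i := by
  unfold Gf
  rw [← tsum_mul_left]
  refine Summable.tsum_le_tsum (fun i => ?_) (sum_bdd ha hs fun i => cos_bd _) (hs.mul_left 2)
  rw [mul_comm 2]
  exact mul_le_mul_of_nonneg_left (by linarith [Real.neg_one_le_cos (g i * h)]) (ha i)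

theorem Gf_meas {g a : ι → ℝ} (ha : ∀ i, 0 ≤ a i) (hs : Summable a) : Continuous (Gf g a) := by
  unfold Gf
  refine continuous_tsum (u := fun i => 2 * a i) (fun i => by fun_prop) (hs.mul_left 2) fun i h => ?_
  rw [Real.norm_eq_abs, abs_mul, abs_of_nonneg (ha i), mul_comm]
  exact mul_le_mul_of_nonneg_right (cos_bd _) (ha i)

theorem SF_cos (g a : ι → ℝ) (T : ℝ) : SF g a (fun u => 1 - Real.cos u) T = T * Gf g a (1 / T) := by
  unfold SF Gf
  congr 1
  apply tsum_congr
  intro i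
  rw [mul_one_div]

/-- representation of test functions -/
theorem rep {φ : ℝ → ℝ} (hφ : ContDiff ℝ ∞ φ) (hc : HasCompactSupport φ) (he : ∀ x, φ (-x) = φ x) :
    ∃ v : ℝ → ℝ, Continuous v ∧ Integrable v ∧ Integrable (fun κ => |κ| * |v κ|) ∧
      ∀ u, u ^ 2 * φ u = -∫ κ, (1 - Real.cos (u * (2 * Real.pi * κ))) * v κ := by
  obtain ⟨f, hf⟩ : ∃ f : ℝ → ℂ, ∀ u, f u = ((u ^ 2 * φ u : ℝ) : ℂ) := ⟨_, fun u => rfl⟩
  have hfs : ContDiff ℝ ∞ f := by
    have : f = fun u => Complex.ofRealCLM (u ^ 2 * φ u) := by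
      funext u
      rw [hf]
      rfl
    rw [this]
    exact Complex.ofRealCLM.contDiff.comp ((contDiff_id.pow 2).mul hφ)
  have hfc : HasCompactSupport f := by
    refine hc.mono' ?_
    intro u hu
    apply subset_tsupport
    rw [Function.mem_support] at hu ⊢
    intro h0
    apply hu
    rw [hf, h0]
    simp
  obtain ⟨s, hsd⟩ : ∃ s : SchwartzMap ℝ ℂ, s = hfc.toSchwartzMap hfs := ⟨_, rfl⟩
  have hsf : (s : ℝ → ℂ) = f := by
    rw [hsd]
    rfl
  have hF : 𝓕 f = ((𝓕 s : SchwartzMap ℝ ℂ) : ℝ → ℂ) := by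
    rw [SchwartzMap.fourier_coe, hsf]
  have hFi : Integrable (𝓕 f) := by
    rw [hF]
    exact (𝓕 s : SchwartzMap ℝ ℂ).integrable
  have hFc : Continuous (𝓕 f) := by
    rw [hF]
    exact (𝓕 s : SchwartzMap ℝ ℂ).continuous
  have hFm : Integrable (fun κ : ℝ => |κ| * ‖𝓕 f κ‖) := by
    have h := SchwartzMap.integrable_pow_mul volume (𝓕 s : SchwartzMap ℝ ℂ) 1
    rw [hF]
    simpa using h
  have hfi : Integrable f := hfs.continuous.integrable_of_hasCompactSupport hfc
  have hinv : 𝓕⁻ (𝓕 f) = f := hfs.continuous.fourierInv_fourier_eq hfi hFi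
  have hev : ∀ u, f (-u) = f u := by
    intro u
    rw [hf, hf, he]
    ring_nf
  have h1 : ∀ u : ℝ, f u = ∫ κ : ℝ, Complex.exp (((2 * Real.pi * (κ * u) : ℝ) : ℂ) * Complex.I) * 𝓕 f κ := by
    intro u
    rw [← congrFun hinv u, Real.fourierInv_eq']
    simp only [smul_eq_mul, RCLike.inner_apply, conj_trivial]
    apply integral_congr_ae
    refine Eventually.of_forall fun κ => ?_
    simp only
    rw [mul_comm u κ]
  have hint : ∀ u : ℝ, Integrable fun κ : ℝ =>
      Complex.exp (((2 * Real.pi * (κ * u) : ℝ) : ℂ) * Complex.I) * 𝓕 f κ := by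
    intro u
    refine hFi.bdd_mul (c := 1) (by fun_prop) ?_
    refine Eventually.of_forall fun κ => ?_
    rw [Complex.norm_exp_ofReal_mul_I]
  have h2 : ∀ u : ℝ, u ^ 2 * φ u = ∫ κ : ℝ, Real.cos (u * (2 * Real.pi * κ)) * (𝓕 f κ).re := by
    intro u
    have e1 : f u = ∫ κ : ℝ, ((Real.cos (u * (2 * Real.pi * κ)) : ℝ) : ℂ) * 𝓕 f κ := by
      have e2 : f u = (1 / 2 : ℂ) * (f u + f (-u)) := by
        rw [hev]; ring
      rw [e2, h1 u, h1 (-u), ← integral_add (hint u) (hint (-u)), ← integral_const_mul]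
      apply integral_congr_ae
      refine Eventually.of_forall fun κ => ?_
      simp only
      rw [← add_mul, ← mul_assoc]
      congr 1
      rw [Complex.exp_mul_I, Complex.exp_mul_I]
      have e3 : ((2 * Real.pi * (κ * -u) : ℝ) : ℂ) = -((2 * Real.pi * (κ * u) : ℝ) : ℂ) := by
        push_cast; ring
      rw [e3, Complex.cos_neg, Complex.sin_neg]
      have e4 : u * (2 * Real.pi * κ) = 2 * Real.pi * (κ * u) := by ring
      rw [e4]
      push_cast
      ring
    have e5 : (f u).re = u ^ 2 * φ u := by rw [hf, Complex.ofReal_re]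
    rw [← e5, e1]
    have hi : Integrable fun κ : ℝ => ((Real.cos (u * (2 * Real.pi * κ)) : ℝ) : ℂ) * 𝓕 f κ := by
      refine hFi.bdd_mul (c := 1) (by fun_prop) ?_
      refine Eventually.of_forall fun κ => ?_
      rw [Complex.norm_real, Real.norm_eq_abs]
      exact Real.abs_cos_le_one _
    have e6 := integral_re hi
    simp only [RCLike.re_to_complex] at e6
    rw [← e6]
    apply integral_congr_ae
    refine Eventually.of_forall fun κ => ?_
    simp only
    rw [Complex.re_ofReal_mul]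
  have h3 := h2 0
  simp only [ne_eq, OfNat.ofNat_ne_zero, not_false_eq_true, zero_pow, zero_mul, Real.cos_zero,
    one_mul] at h3
  have hvi : Integrable fun κ : ℝ => (𝓕 f κ).re := hFi.re
  refine ⟨fun κ => (𝓕 f κ).re, Complex.continuous_re.comp hFc, hvi, ?_, fun u => ?_⟩
  · refine hFm.mono' ?_ (Eventually.of_forall fun κ => ?_)
    · exact (continuous_abs.mul (Complex.continuous_re.comp hFc).abs).aestronglyMeasurable
    · rw [Real.norm_eq_abs, abs_mul, abs_abs, abs_abs]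
      exact mul_le_mul_of_nonneg_left (Complex.abs_re_le_norm _) (abs_nonneg _)
  · have hi : Integrable fun κ : ℝ => Real.cos (u * (2 * Real.pi * κ)) * (𝓕 f κ).re := by
      refine hvi.bdd_mul (c := 1) (by fun_prop) ?_
      refine Eventually.of_forall fun κ => ?_
      rw [Real.norm_eq_abs]
      exact Real.abs_cos_le_one _
    have e : ∀ κ : ℝ, (1 - Real.cos (u * (2 * Real.pi * κ))) * (𝓕 f κ).re =
        (𝓕 f κ).re - Real.cos (u * (2 * Real.pi * κ)) * (𝓕 f κ).re := fun κ => by ring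
    simp only [e]
    rw [integral_sub hvi hi, ← h3, ← h2 u]
    ring

end Pool.Agent.X113.GG
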