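import Pool.Agent.X113.GG1
import Pool.Agent.Helper764.KacK1

/-! A Tauberian theorem for the kernel `1 - cos`, continued. -/

set_option autoImplicit false

open MeasureTheory Filter Topology Set
open scoped FourierTransform ContDiff

namespace Pool.Agent.X113.GG

variable {ι : Type*}

/-- the test sum of a represented function in terms of the structure function -/
theorem SF_rep {g a : ι → ℝ} [Countable ι] (ha : ∀ i, 0 ≤ a i) (hs : Summable a) {φ v : ℝ → ℝ}
    (hv : Integrable v)
    (hr : ∀ u, u ^ 2 * φ u = -∫ κ, (1 - Real.cos (u * (2 * Real.pi * κ))) * v κ) (T : ℝ) :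
    SF g a (fun u => u ^ 2 * φ u) T = -∫ κ, (T * Gf g a (2 * Real.pi * κ / T)) * v κ := by
  unfold SF
  simp only [hr]
  have hi : ∀ i, Integrable fun κ : ℝ =>
      a i * ((1 - Real.cos (g i / T * (2 * Real.pi * κ))) * v κ) := by
    intro i
    apply Integrable.const_mul
    refine hv.bdd_mul (c := 2) (by fun_prop) (Eventually.of_forall fun κ => ?_)
    rw [Real.norm_eq_abs]
    exact cos_bd _
  have hsum : Summable fun i => ∫ κ : ℝ, ‖a i * ((1 - Real.cos (g i / T * (2 * Real.pi * κ))) * v κ)‖ := by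
    refine Summable.of_nonneg_of_le (fun i => integral_nonneg fun _ => norm_nonneg _) (fun i => ?_)
      (hs.mul_right (2 * ∫ κ, ‖v κ‖))
    calc ∫ κ : ℝ, ‖a i * ((1 - Real.cos (g i / T * (2 * Real.pi * κ))) * v κ)‖
        ≤ ∫ κ : ℝ, a i * (2 * ‖v κ‖) := by
          apply integral_mono (hi i).norm ((hv.norm.const_mul 2).const_mul (a i))
          intro κ
          simp only
          rw [norm_mul, norm_mul, Real.norm_eq_abs, Real.norm_eq_abs, abs_of_nonneg (ha i)]
          exact mul_le_mul_of_nonneg_left (mul_le_mul_of_nonneg_right (cos_bd _) (norm_nonneg _)) (ha i)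
      _ = a i * (2 * ∫ κ, ‖v κ‖) := by
          rw [integral_const_mul, integral_const_mul]
  have h1 := (hasSum_integral_of_summable_integral_norm hi hsum).tsum_eq
  have h2 : (∑' i, a i * -∫ κ : ℝ, (1 - Real.cos (g i / T * (2 * Real.pi * κ))) * v κ) =
      -∫ κ, ∑' i, a i * ((1 - Real.cos (g i / T * (2 * Real.pi * κ))) * v κ) := by
    rw [← h1, ← tsum_neg]
    apply tsum_congr
    intro i
    rw [integral_const_mul]
    ring
  rw [h2, mul_neg, ← integral_const_mul]
  congr 1
  apply integral_congr_ae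
  refine Eventually.of_forall fun κ => ?_
  simp only
  unfold Gf
  rw [← tsum_mul_left, ← tsum_mul_left, ← tsum_mul_right]
  apply tsum_congr
  intro i
  have : g i / T * (2 * Real.pi * κ) = g i * (2 * Real.pi * κ / T) := by ring
  rw [this]
  ring

/-- the limits of the test sums -/
theorem SF_lim {g a : ι → ℝ} [Countable ι] (ha : ∀ i, 0 ≤ a i) (hs : Summable a) {c : ℝ}
    (hG : Tendsto (fun h => Gf g a h / h) (𝓝[>] 0) (𝓝 c)) {φ v : ℝ → ℝ}
    (hvc : Continuous v) (hv : Integrable v) (hv2 : Integrable (fun κ => |κ| * |v κ|))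
    (hr : ∀ u, u ^ 2 * φ u = -∫ κ, (1 - Real.cos (u * (2 * Real.pi * κ))) * v κ) :
    Tendsto (fun T => SF g a (fun u => u ^ 2 * φ u) T) atTop
      (𝓝 (-∫ κ, (c * (2 * Real.pi * |κ|)) * v κ)) := by
  -- bound
  obtain ⟨K, hK0, hK⟩ : ∃ K : ℝ, 0 ≤ K ∧ ∀ h : ℝ, Gf g a h ≤ K * |h| := by
    have h1 := hG.eventually (gt_mem_nhds (lt_add_one c))
    rw [eventually_nhdsWithin_iff, Metric.eventually_nhds_iff] at h1
    obtain ⟨δ, hδ, h2⟩ := h1
    obtain ⟨S, hS⟩ : ∃ S : ℝ, S = ∑' i, a i := ⟨_, rfl⟩
    have hS0 : 0 ≤ S := by rw [hS]; exact tsum_nonneg ha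
    refine ⟨|c + 1| + 2 * S * (2 / δ), by positivity, fun h => ?_⟩
    have h3 : Gf g a h = Gf g a |h| := by
      rcases abs_choice h with h4 | h4
      · rw [h4]
      · rw [h4, Gf_neg]
    rw [h3]
    have hh0 := abs_nonneg h
    rcases lt_or_ge |h| δ with h4 | h4
    · rcases eq_or_lt_of_le hh0 with h5 | h5
      · rw [← h5]
        unfold Gf
        simp
      · have h6 := h2 (y := |h|) (by rw [Real.dist_eq, sub_zero, abs_abs]; exact h4) h5
        rw [div_lt_iff₀ h5] at h6
        have h7 : (c + 1) * |h| ≤ |c + 1| * |h| := mul_le_mul_of_nonneg_right (le_abs_self _) hh0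
        have h8 : 0 ≤ 2 * S * (2 / δ) * |h| := by positivity
        linarith
    · have h6 := Gf_le (g := g) ha hs |h|
      rw [← hS] at h6
      have h7 : 1 ≤ 2 / δ * |h| := by
        have : 1 ≤ 1 / δ * |h| := by
          rw [one_div, inv_mul_eq_div, le_div_iff₀ hδ, one_mul]
          exact h4
        have h9 : 0 ≤ 1 / δ * |h| := by positivity
        have h10 : 2 / δ * |h| = 2 * (1 / δ * |h|) := by ring
        linarith
      have h8 : 2 * S * 1 ≤ 2 * S * (2 / δ * |h|) := mul_le_mul_of_nonneg_left h7 (by positivity)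
      have h9 : 0 ≤ |c + 1| * |h| := by positivity
      calc Gf g a |h| ≤ 2 * S := h6
        _ ≤ |c + 1| * |h| + 2 * S * (2 / δ * |h|) := by linarith
        _ = _ := by ring
  have e : (fun T => SF g a (fun u => u ^ 2 * φ u) T) = fun T =>
      -∫ κ, (T * Gf g a (2 * Real.pi * κ / T)) * v κ := by
    funext T
    exact SF_rep ha hs hv hr T
  rw [e]
  apply Tendsto.neg
  have hGc := Gf_meas (g := g) ha hs
  refine tendsto_integral_filter_of_dominated_convergence
    (fun κ => K * (2 * Real.pi) * (|κ| * |v κ|)) ?_ ?_ (hv2.const_mul _) ?_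
  · refine Eventually.of_forall fun T => ?_
    exact ((continuous_const.mul (hGc.comp (by fun_prop))).mul hvc).aestronglyMeasurable
  · filter_upwards [eventually_gt_atTop (0 : ℝ)] with T hT
    refine Eventually.of_forall fun κ => ?_
    have h1 : 0 ≤ T * Gf g a (2 * Real.pi * κ / T) := mul_nonneg hT.le (Gf_nonneg ha _)
    rw [Real.norm_eq_abs, abs_mul, abs_of_nonneg h1]
    have h2 : T * Gf g a (2 * Real.pi * κ / T) ≤ K * (2 * Real.pi) * |κ| := by
      have h3 := mul_le_mul_of_nonneg_left (hK (2 * Real.pi * κ / T)) hT.le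
      refine h3.trans (le_of_eq ?_)
      rw [abs_div, abs_mul, abs_of_pos Real.two_pi_pos, abs_of_pos hT]
      field_simp
    calc T * Gf g a (2 * Real.pi * κ / T) * |v κ| ≤ K * (2 * Real.pi) * |κ| * |v κ| :=
          mul_le_mul_of_nonneg_right h2 (abs_nonneg _)
      _ = _ := by ring
  · refine Eventually.of_forall fun κ => ?_
    apply Tendsto.mul_const
    rcases eq_or_ne κ 0 with h0 | h0
    · subst h0
      unfold Gf
      simp
    · have hp : 0 < 2 * Real.pi * |κ| := mul_pos Real.two_pi_pos (abs_pos.2 h0)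
      have h1 : Tendsto (fun T : ℝ => 2 * Real.pi * |κ| / T) atTop (𝓝[>] 0) := by
        rw [tendsto_nhdsWithin_iff]
        refine ⟨tendsto_const_nhds.div_atTop tendsto_id, ?_⟩
        filter_upwards [eventually_gt_atTop (0 : ℝ)] with T hT
        exact div_pos hp hT
      have h2 := (hG.comp h1).mul_const (2 * Real.pi * |κ|)
      refine h2.congr' ?_
      filter_upwards [eventually_gt_atTop (0 : ℝ)] with T hT
      simp only [Function.comp]
      have h3 : Gf g a (2 * Real.pi * κ / T) = Gf g a (2 * Real.pi * |κ| / T) := by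
        rcases abs_choice κ with h4 | h4
        · rw [h4]
        · rw [h4, ← Gf_neg]
          congr 1
          ring
      rw [h3]
      field_simp

end Pool.Agent.X113.GG
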