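import Pool.Agent.X113.GG2
import Pool.Agent.H336R2.V.ExistsLam

/-! A Tauberian theorem for the kernel `1 - cos`: the conclusion. -/

set_option autoImplicit false

open MeasureTheory Filter Topology Set
open scoped FourierTransform ContDiff

namespace Pool.Agent.X113.GG

variable {ι : Type*}

theorem one_sub_cos (t : ℝ) : 1 - Real.cos t = t ^ 2 * (1 / 2 * Real.sinc (t / 2) ^ 2) := by
  rcases eq_or_ne t 0 with rfl | ht
  · simp
  · rw [Real.sinc_of_ne_zero (by positivity : t / 2 ≠ 0)]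
    have h : Real.cos t = 1 - 2 * Real.sin (t / 2) ^ 2 := by
      have h1 := Real.cos_two_mul (t / 2)
      have h2 := Real.sin_sq_add_cos_sq (t / 2)
      have e : 2 * (t / 2) = t := by ring
      rw [e] at h1
      linarith
    rw [h]
    field_simp
    ring

theorem sinc_half_integral : ∫ t : ℝ, 1 / 2 * Real.sinc (t / 2) ^ 2 = Real.pi := by
  have h1 := H336V.ExistsLam.integral_sinc_sq
  have h5 := integral_comp_abs (f := fun ξ : ℝ => Real.sinc (Real.pi * ξ) ^ 2)
  have h6 : ∀ ξ : ℝ, Real.sinc (Real.pi * |ξ|) ^ 2 = Real.sinc (Real.pi * ξ) ^ 2 := by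
    intro ξ
    rcases abs_choice ξ with h | h
    · rw [h]
    · rw [h, mul_neg, Real.sinc_neg]
  simp_rw [h6] at h5
  rw [h1] at h5
  have h7 := Measure.integral_comp_mul_left (fun t : ℝ => 1 / 2 * Real.sinc (t / 2) ^ 2) (2 * Real.pi)
  have h8 : (fun x : ℝ => 1 / 2 * Real.sinc (2 * Real.pi * x / 2) ^ 2) =
      fun x : ℝ => 1 / 2 * Real.sinc (Real.pi * x) ^ 2 := by
    funext x
    congr 3
    ring
  rw [h8, integral_const_mul, h5, smul_eq_mul, abs_inv, abs_of_pos Real.two_pi_pos] at h7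
  have hpi := Real.pi_pos
  set I : ℝ := ∫ t : ℝ, 1 / 2 * Real.sinc (t / 2) ^ 2 with hI
  have h9 : (2 * Real.pi)⁻¹ * I = 1 / 2 := by linarith
  have h10 : I = 2 * Real.pi * ((2 * Real.pi)⁻¹ * I) := by
    rw [← mul_assoc, mul_inv_cancel₀ (by positivity), one_mul]
  rw [h10, h9]
  ring

theorem cst_eq : ∫ t : ℝ, (1 - Real.cos t) / t ^ 2 = Real.pi := by
  rw [← sinc_half_integral]
  apply integral_congr_ae
  have h : ∀ᵐ t : ℝ, t ≠ 0 := by
    simp [ae_iff, measure_singleton]
  filter_upwards [h] with t ht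
  rw [one_sub_cos]
  field_simp

theorem phi_int {φ v : ℝ → ℝ} (hvc : Continuous v)
    (hv2 : Integrable (fun κ => |κ| * |v κ|))
    (hr : ∀ u, u ^ 2 * φ u = -∫ κ, (1 - Real.cos (u * (2 * Real.pi * κ))) * v κ) :
    ∫ u, φ u = -∫ κ, (Real.pi * (2 * Real.pi * |κ|)) * v κ := by
  have hcst : ∀ w : ℝ, ∫ t : ℝ, (1 - Real.cos (t * w)) / t ^ 2 = Real.pi * |w| := by
    intro w
    rw [Kac764.K1.integral_one_sub_cos]
    have e : Kac764.cst = Real.pi := cst_eq
    rw [e]
  have hm : Measurable (fun p : ℝ × ℝ => (1 - Real.cos (p.1 * (2 * Real.pi * p.2))) / p.1 ^ 2 * v p.2) := by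
    have := hvc.measurable
    fun_prop
  have hprod : Integrable (fun p : ℝ × ℝ => (1 - Real.cos (p.1 * (2 * Real.pi * p.2))) / p.1 ^ 2 * v p.2)
      (volume.prod volume) := by
    rw [integrable_prod_iff' hm.aestronglyMeasurable]
    constructor
    · refine Eventually.of_forall fun κ => ?_
      exact (Kac764.K1.integrable_one_sub_cos (2 * Real.pi * κ)).mul_const (v κ)
    · refine (hv2.const_mul (Real.pi * (2 * Real.pi))).congr (Eventually.of_forall fun κ => ?_)
      simp only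
      have e : ∀ u : ℝ, ‖(1 - Real.cos (u * (2 * Real.pi * κ))) / u ^ 2 * v κ‖ =
          (1 - Real.cos (u * (2 * Real.pi * κ))) / u ^ 2 * |v κ| := by
        intro u
        rw [norm_mul, Real.norm_eq_abs, Real.norm_eq_abs, abs_of_nonneg]
        exact div_nonneg (by linarith [Real.cos_le_one (u * (2 * Real.pi * κ))]) (sq_nonneg _)
      simp only [e]
      rw [integral_mul_const, hcst, abs_mul, abs_of_pos Real.two_pi_pos]
      ring
  have h1 : ∫ u, φ u = ∫ u : ℝ, -∫ κ : ℝ, (1 - Real.cos (u * (2 * Real.pi * κ))) / u ^ 2 * v κ := by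
    apply integral_congr_ae
    have h : ∀ᵐ t : ℝ, t ≠ 0 := by
      simp [ae_iff, measure_singleton]
    filter_upwards [h] with u hu
    have h2 := hr u
    have e : ∀ κ : ℝ, (1 - Real.cos (u * (2 * Real.pi * κ))) / u ^ 2 * v κ =
        (1 / u ^ 2) * ((1 - Real.cos (u * (2 * Real.pi * κ))) * v κ) := fun κ => by ring
    simp only [e]
    rw [integral_const_mul, ← mul_neg, ← h2]
    field_simp
  rw [h1, integral_neg, integral_integral_swap hprod]
  congr 1
  apply integral_congr_ae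
  refine Eventually.of_forall fun κ => ?_
  simp only
  rw [integral_mul_const, hcst, abs_mul, abs_of_pos Real.two_pi_pos]

theorem SF_lim' {g a : ι → ℝ} [Countable ι] (ha : ∀ i, 0 ≤ a i) (hs : Summable a) {c : ℝ}
    (hG : Tendsto (fun h => Gf g a h / h) (𝓝[>] 0) (𝓝 c)) {φ : ℝ → ℝ}
    (hφ : ContDiff ℝ ∞ φ) (hc : HasCompactSupport φ) (he : ∀ x, φ (-x) = φ x) :
    Tendsto (fun T => SF g a (fun u => u ^ 2 * φ u) T) atTop (𝓝 (c / Real.pi * ∫ u, φ u)) := by
  obtain ⟨v, hvc, hv, hv2, hr⟩ := rep hφ hc he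
  have h1 := SF_lim ha hs hG hvc hv hv2 hr
  have h2 := phi_int hvc hv2 hr
  have e : c / Real.pi * ∫ u, φ u = -∫ κ, (c * (2 * Real.pi * |κ|)) * v κ := by
    rw [h2, mul_neg, ← integral_const_mul]
    congr 1
    apply integral_congr_ae
    refine Eventually.of_forall fun κ => ?_
    simp only
    have := Real.pi_ne_zero
    field_simp
  rw [e]
  exact h1

theorem NN_SF (g a : ι → ℝ) {T : ℝ} (hT : 0 < T) :
    NN g a T / T = SF g a (fun u => u ^ 2 * (if |u| ≤ 1 then 1 else 0)) T := by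
  unfold NN SF
  rw [← tsum_mul_left, ← tsum_div_const]
  apply tsum_congr
  intro i
  have h1 : |g i / T| ≤ 1 ↔ |g i| ≤ T := by
    rw [abs_div, abs_of_pos hT, div_le_one hT]
  simp only
  by_cases h : |g i| ≤ T
  · rw [if_pos h, if_pos (h1.2 h)]
    field_simp
  · rw [if_neg h, if_neg (fun h2 => h (h1.1 h2))]
    simp

theorem bump_bd {φ : ℝ → ℝ} (h0 : ∀ u, 0 ≤ φ u) (h1 : ∀ u, φ u ≤ 1) {R : ℝ}
    (hs : ∀ u, R < |u| → φ u = 0) (u : ℝ) : |u ^ 2 * φ u| ≤ R ^ 2 := by
  rcases lt_or_ge R |u| with h | h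
  · rw [hs u h]
    simp only [mul_zero, abs_zero]
    positivity
  · rw [abs_of_nonneg (mul_nonneg (sq_nonneg _) (h0 u))]
    calc u ^ 2 * φ u ≤ u ^ 2 * 1 := mul_le_mul_of_nonneg_left (h1 u) (sq_nonneg _)
      _ = |u| ^ 2 := by rw [mul_one, sq_abs]
      _ ≤ R ^ 2 := pow_le_pow_left₀ (abs_nonneg _) h 2

/-- the Tauberian theorem -/
theorem tauber {g a : ι → ℝ} [Countable ι] (ha : ∀ i, 0 ≤ a i) (hs : Summable a) {c : ℝ}
    (hG : Tendsto (fun h => Gf g a h / h) (𝓝[>] 0) (𝓝 c)) :
    Tendsto (fun T => NN g a T / T) atTop (𝓝 (2 * c / Real.pi)) := by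
  have hc0 : 0 ≤ c := by
    refine ge_of_tendsto hG ?_
    filter_upwards [self_mem_nhdsWithin] with h hh
    exact div_nonneg (Gf_nonneg ha h) (le_of_lt hh)
  have hpi := Real.pi_pos
  have key : ∀ ε : ℝ, 0 < ε → ε < 1 → ∀ᶠ T in atTop,
      c / Real.pi * (2 * (1 - ε)) - ε ≤ NN g a T / T ∧ NN g a T / T ≤ c / Real.pi * (2 * (1 + ε)) + ε := by
    intro ε hε hε1
    let f1 : ContDiffBump (0 : ℝ) := ⟨1 - ε, 1, by linarith, by linarith⟩
    let f2 : ContDiffBump (0 : ℝ) := ⟨1, 1 + ε, by norm_num, by linarith⟩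
    have l1 := SF_lim' ha hs hG (φ := f1) f1.contDiff f1.hasCompactSupport (fun x => f1.neg x)
    have l2 := SF_lim' ha hs hG (φ := f2) f2.contDiff f2.hasCompactSupport (fun x => f2.neg x)
    have s1 : ∀ u : ℝ, 1 < |u| → f1 u = 0 := by
      intro u hu
      apply f1.zero_of_le_dist
      rw [Real.dist_eq, sub_zero]
      exact hu.le
    have s2 : ∀ u : ℝ, 1 + ε < |u| → f2 u = 0 := by
      intro u hu
      apply f2.zero_of_le_dist
      rw [Real.dist_eq, sub_zero]
      exact hu.le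
    have o1 : ∀ u : ℝ, |u| ≤ 1 - ε → f1 u = 1 := by
      intro u hu
      apply f1.one_of_mem_closedBall
      rw [Metric.mem_closedBall, Real.dist_eq, sub_zero]
      exact hu
    have o2 : ∀ u : ℝ, |u| ≤ 1 → f2 u = 1 := by
      intro u hu
      apply f2.one_of_mem_closedBall
      rw [Metric.mem_closedBall, Real.dist_eq, sub_zero]
      exact hu
    have i1 : 2 * (1 - ε) ≤ ∫ u, f1 u := by
      have e : ∫ u in Icc (-(1 - ε)) (1 - ε), (1 : ℝ) = 2 * (1 - ε) := by
        rw [setIntegral_const, smul_eq_mul, mul_one, Real.volume_real_Icc_of_le (by linarith)]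
        ring
      rw [← e]
      calc ∫ u in Icc (-(1 - ε)) (1 - ε), (1 : ℝ) = ∫ u in Icc (-(1 - ε)) (1 - ε), f1 u := by
            refine setIntegral_congr_fun measurableSet_Icc fun u hu => ?_
            exact (o1 u (abs_le.2 hu)).symm
        _ ≤ ∫ u, f1 u := setIntegral_le_integral f1.integrable (Eventually.of_forall fun u => f1.nonneg)
    have i2 : ∫ u, f2 u ≤ 2 * (1 + ε) := by
      have e : ∫ u in Icc (-(1 + ε)) (1 + ε), (1 : ℝ) = 2 * (1 + ε) := by
        rw [setIntegral_const, smul_eq_mul, mul_one, Real.volume_real_Icc_of_le (by linarith)]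
        ring
      rw [← e, ← integral_indicator measurableSet_Icc]
      apply integral_mono f2.integrable
      · exact (integrableOn_const (by simp)).integrable_indicator measurableSet_Icc
      · intro u
        by_cases hu : u ∈ Icc (-(1 + ε)) (1 + ε)
        · rw [indicator_of_mem hu]
          exact f2.le_one
        · rw [indicator_of_notMem hu]
          apply le_of_eq
          apply s2
          by_contra h
          push Not at h
          exact hu (abs_le.1 h)
    have m1 : c / Real.pi * (2 * (1 - ε)) ≤ c / Real.pi * ∫ u, f1 u :=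
      mul_le_mul_of_nonneg_left i1 (by positivity)
    have m2 : c / Real.pi * ∫ u, f2 u ≤ c / Real.pi * (2 * (1 + ε)) :=
      mul_le_mul_of_nonneg_left i2 (by positivity)
    have hbI : ∀ u : ℝ, |u ^ 2 * (if |u| ≤ 1 then (1 : ℝ) else 0)| ≤ 1 ^ 2 := by
      refine bump_bd (fun u => by split_ifs <;> norm_num) (fun u => by split_ifs <;> norm_num)
        (fun u hu => ?_)
      rw [if_neg (not_le.2 hu)]
    filter_upwards [l1.eventually (lt_mem_nhds (show c / Real.pi * (∫ u, f1 u) - ε <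
        c / Real.pi * ∫ u, f1 u by linarith)), l2.eventually (gt_mem_nhds (show c / Real.pi * ∫ u, f2 u <
        c / Real.pi * (∫ u, f2 u) + ε by linarith)), eventually_gt_atTop (0 : ℝ)] with T h1 h2 hT
    rw [NN_SF g a hT]
    constructor
    · have h3 : SF g a (fun u => u ^ 2 * f1 u) T ≤
          SF g a (fun u => u ^ 2 * (if |u| ≤ 1 then 1 else 0)) T := by
        refine SF_mono ha hs (bump_bd (fun u => f1.nonneg) (fun u => f1.le_one) s1) hbI (fun u => ?_) hT.le
        apply mul_le_mul_of_nonneg_left _ (sq_nonneg _)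
        split_ifs with h
        · exact f1.le_one
        · rw [s1 u (not_le.1 h)]
      linarith
    · have h3 : SF g a (fun u => u ^ 2 * (if |u| ≤ 1 then 1 else 0)) T ≤
          SF g a (fun u => u ^ 2 * f2 u) T := by
        refine SF_mono ha hs hbI (bump_bd (fun u => f2.nonneg) (fun u => f2.le_one) s2) (fun u => ?_) hT.le
        apply mul_le_mul_of_nonneg_left _ (sq_nonneg _)
        split_ifs with h
        · rw [o2 u h]
        · exact f2.nonneg
      linarith
  rw [Metric.tendsto_nhds]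
  intro η hη
  obtain ⟨ε, hε⟩ : ∃ ε : ℝ, ε = min (1 / 2) (η / (2 * (c / Real.pi * 2 + 1))) := ⟨_, rfl⟩
  have hD : 0 < c / Real.pi * 2 + 1 := by positivity
  have hε0 : 0 < ε := by rw [hε]; exact lt_min (by norm_num) (by positivity)
  have hε1 : ε < 1 := by
    have : ε ≤ 1 / 2 := by rw [hε]; exact min_le_left _ _
    linarith
  have hε2 : (c / Real.pi * 2 + 1) * ε ≤ η / 2 := by
    have h1 : ε ≤ η / (2 * (c / Real.pi * 2 + 1)) := by rw [hε]; exact min_le_right _ _
    rw [le_div_iff₀ (by positivity)] at h1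
    linarith
  filter_upwards [key ε hε0 hε1] with T hT
  rw [Real.dist_eq, abs_lt]
  have e : 2 * c / Real.pi = c / Real.pi * 2 := by ring
  rw [e]
  constructor <;> nlinarith [hT.1, hT.2]

end Pool.Agent.X113.GG
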