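import Pool.Agent.X113.GG3
import Pool.Agent.H457R2.RG.RsumAux

/-! The Abelian theorem for the kernel `1 - cos`. -/

set_option autoImplicit false

open MeasureTheory Filter Topology Set

namespace Pool.Agent.X113.GG

variable {ι : Type*}

/-- the tail from the counting function -/
theorem tail_bd {g a : ι → ℝ} (ha : ∀ i, 0 ≤ a i) {C : ℝ} (hC : 0 ≤ C)
    (hN : ∀ s : Finset ι, ∀ T : ℝ, 0 < T → ∑ i ∈ s with |g i| ≤ T, g i ^ 2 * a i ≤ C * T)
    {U : ℝ} (hU : 0 < U) (s : Finset ι) : ∑ i ∈ s with U < |g i|, a i ≤ 4 * C / U := by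
  classical
  have h1 : ∀ J : ℕ, ∑ i ∈ s with U < |g i| ∧ |g i| ≤ 2 ^ J * U, a i ≤
      ∑ j ∈ Finset.range J, 2 * C / U * (1 / 2) ^ j := by
    intro J
    induction J with
    | zero =>
      simp only [pow_zero, one_mul, Finset.range_zero, Finset.sum_empty]
      apply le_of_eq
      apply Finset.sum_eq_zero
      intro i hi
      rw [Finset.mem_filter] at hi
      linarith [hi.2.1, hi.2.2]
    | succ J ih =>
      rw [Finset.sum_range_succ]
      have hp : (0 : ℝ) < 2 ^ J * U := by positivity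
      have h2 : ∑ i ∈ s with U < |g i| ∧ |g i| ≤ 2 ^ (J + 1) * U, a i ≤
          (∑ i ∈ s with U < |g i| ∧ |g i| ≤ 2 ^ J * U, a i) +
          ∑ i ∈ s with 2 ^ J * U < |g i| ∧ |g i| ≤ 2 ^ (J + 1) * U, a i := by
        have h0 := Finset.sum_union_inter (s₁ := s.filter fun i => U < |g i| ∧ |g i| ≤ 2 ^ J * U)
          (s₂ := s.filter fun i => 2 ^ J * U < |g i| ∧ |g i| ≤ 2 ^ (J + 1) * U) (f := a)
        have h0' : 0 ≤ ∑ i ∈ (s.filter fun i => U < |g i| ∧ |g i| ≤ 2 ^ J * U) ∩
          (s.filter fun i => 2 ^ J * U < |g i| ∧ |g i| ≤ 2 ^ (J + 1) * U), a i :=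
          Finset.sum_nonneg fun i _ => ha i
        rw [← h0]
        refine le_trans (Finset.sum_le_sum_of_subset_of_nonneg (t := (s.filter fun i => U < |g i| ∧
          |g i| ≤ 2 ^ J * U) ∪ (s.filter fun i => 2 ^ J * U < |g i| ∧ |g i| ≤ 2 ^ (J + 1) * U)) ?_
          fun i _ _ => ha i) (le_add_of_nonneg_right h0')
        intro i hi
        rw [Finset.mem_filter] at hi
        rw [Finset.mem_union, Finset.mem_filter, Finset.mem_filter]
        by_cases h : |g i| ≤ 2 ^ J * U
        · left; exact ⟨hi.1, hi.2.1, h⟩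
        · right; exact ⟨hi.1, not_le.1 h, hi.2.2⟩
      have h3 : ∑ i ∈ s with 2 ^ J * U < |g i| ∧ |g i| ≤ 2 ^ (J + 1) * U, a i ≤
          2 * C / U * (1 / 2) ^ J := by
        have h4 : (2 ^ J * U) ^ 2 * ∑ i ∈ s with 2 ^ J * U < |g i| ∧ |g i| ≤ 2 ^ (J + 1) * U, a i ≤
            C * (2 ^ (J + 1) * U) := by
          rw [Finset.mul_sum]
          calc ∑ i ∈ s with 2 ^ J * U < |g i| ∧ |g i| ≤ 2 ^ (J + 1) * U, (2 ^ J * U) ^ 2 * a i
              ≤ ∑ i ∈ s with 2 ^ J * U < |g i| ∧ |g i| ≤ 2 ^ (J + 1) * U, g i ^ 2 * a i := by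
                apply Finset.sum_le_sum
                intro i hi
                rw [Finset.mem_filter] at hi
                apply mul_le_mul_of_nonneg_right _ (ha i)
                rw [← sq_abs (g i)]
                exact pow_le_pow_left₀ hp.le hi.2.1.le 2
            _ ≤ ∑ i ∈ s with |g i| ≤ 2 ^ (J + 1) * U, g i ^ 2 * a i := by
                apply Finset.sum_le_sum_of_subset_of_nonneg
                · intro i hi
                  rw [Finset.mem_filter] at hi ⊢
                  exact ⟨hi.1, hi.2.2⟩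
                · intro i _ _
                  exact mul_nonneg (sq_nonneg _) (ha i)
            _ ≤ C * (2 ^ (J + 1) * U) := hN s _ (by positivity)
        have h5 : 2 * C / U * (1 / 2) ^ J = C * (2 ^ (J + 1) * U) / (2 ^ J * U) ^ 2 := by
          rw [one_div, inv_pow]
          field_simp
          ring
        rw [h5, le_div_iff₀ (by positivity)]
        linarith
      linarith
  obtain ⟨J, hJ⟩ : ∃ J : ℕ, ∀ i ∈ s, |g i| ≤ 2 ^ J * U := by
    have h2 : ∀ i ∈ s, |g i| ≤ ∑ j ∈ s, |g j| := fun i hi =>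
      Finset.single_le_sum (f := fun i => |g i|) (fun _ _ => abs_nonneg _) hi
    obtain ⟨J, hJ⟩ := pow_unbounded_of_one_lt ((∑ j ∈ s, |g j|) / U) (by norm_num : (1 : ℝ) < 2)
    refine ⟨J, fun i hi => (h2 i hi).trans ?_⟩
    rw [div_lt_iff₀ hU] at hJ
    exact hJ.le
  have h2 : ∑ i ∈ s with U < |g i|, a i ≤ ∑ i ∈ s with U < |g i| ∧ |g i| ≤ 2 ^ J * U, a i := by
    apply Finset.sum_le_sum_of_subset_of_nonneg
    · intro i hi
      rw [Finset.mem_filter] at hi ⊢
      exact ⟨hi.1, hi.2, hJ i hi.1⟩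
    · intro i _ _
      exact ha i
  have h3 : ∑ j ∈ Finset.range J, 2 * C / U * (1 / 2 : ℝ) ^ j ≤ 2 * C / U * 2 := by
    rw [← Finset.mul_sum]
    apply mul_le_mul_of_nonneg_left _ (by positivity)
    exact sum_geometric_two_le J
  have h4 : 2 * C / U * 2 = 4 * C / U := by ring
  linarith [h1 J]

/-- the truncated squares -/
noncomputable def B (y u : ℝ) : ℝ := u ^ 2 * (if |u| ≤ y then 1 else 0)

theorem B_nonneg (y u : ℝ) : 0 ≤ B y u := mul_nonneg (sq_nonneg _) (by split_ifs <;> norm_num)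

theorem B_zero (u : ℝ) : B 0 u = 0 := by
  unfold B
  by_cases h : u = 0
  · rw [h]; simp
  · rw [if_neg (not_le.2 (abs_pos.2 h))]; simp

theorem B_mono {y z : ℝ} (h : y ≤ z) (u : ℝ) : B y u ≤ B z u := by
  unfold B
  apply mul_le_mul_of_nonneg_left _ (sq_nonneg _)
  by_cases h1 : |u| ≤ y
  · rw [if_pos h1, if_pos (h1.trans h)]
  · rw [if_neg h1]
    split_ifs <;> norm_num

theorem B_bd {y : ℝ} (_hy : 0 ≤ y) (u : ℝ) : |B y u| ≤ y ^ 2 := by
  rw [abs_of_nonneg (B_nonneg _ _)]
  unfold B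
  split_ifs with h
  · rw [mul_one, ← sq_abs]
    exact pow_le_pow_left₀ (abs_nonneg _) h 2
  · rw [mul_zero]; positivity

theorem SF_B (g a : ι → ℝ) {T : ℝ} (hT : 0 < T) (y : ℝ) : SF g a (B y) T = NN g a (y * T) / T := by
  unfold NN SF B
  rw [← tsum_mul_left, ← tsum_div_const]
  apply tsum_congr
  intro i
  have h1 : |g i / T| ≤ y ↔ |g i| ≤ y * T := by
    rw [abs_div, abs_of_pos hT, div_le_iff₀ hT]
  by_cases h : |g i| ≤ y * T
  · rw [if_pos h, if_pos (h1.2 h)]
    field_simp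
  · rw [if_neg h, if_neg (fun h2 => h (h1.1 h2))]
    simp

/-- the kernel -/
noncomputable def kk (u : ℝ) : ℝ := 1 / 2 * Real.sinc (u / 2) ^ 2

theorem kk_lip (u w : ℝ) : |kk u - kk w| ≤ |u - w| / 2 := by
  unfold kk
  have h := RGap.RsumAux.sinc_sq_lip (u / 2) (w / 2)
  have e : u / 2 - w / 2 = (u - w) / 2 := by ring
  rw [e, abs_div, abs_of_pos (by norm_num : (0 : ℝ) < 2)] at h
  rw [← mul_sub, abs_mul, abs_of_pos (by norm_num : (0 : ℝ) < 1 / 2)]
  linarith

theorem kk_abs (u : ℝ) : kk |u| = kk u := by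
  unfold kk
  rcases abs_choice u with h | h
  · rw [h]
  · rw [h, neg_div, Real.sinc_neg]

/-- the pointwise approximation -/
theorem approx_pt {R : ℝ} (hR : 0 < R) {n : ℕ} (hn : 0 < n) (u : ℝ) :
    |(1 - Real.cos u) - ∑ j ∈ Finset.range n, kk (j * R / n) * (B ((j + 1 : ℕ) * R / n) u - B (j * R / n) u)| ≤
      R / (2 * n) * B R u + 2 * (if R < |u| then 1 else 0) := by
  have hn0 : (0 : ℝ) < n := by exact_mod_cast hn
  have hx : ∀ j : ℕ, (j : ℝ) * R / n ≤ ((j + 1 : ℕ) : ℝ) * R / n := by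
    intro j
    apply div_le_div_of_nonneg_right _ hn0.le
    apply mul_le_mul_of_nonneg_right _ hR.le
    push_cast
    linarith
  by_cases h : R < |u|
  · rw [if_pos h]
    have h1 : ∑ j ∈ Finset.range n, kk (j * R / n) * (B ((j + 1 : ℕ) * R / n) u - B (j * R / n) u) = 0 := by
      apply Finset.sum_eq_zero
      intro j hj
      rw [Finset.mem_range] at hj
      have h2 : ((j + 1 : ℕ) : ℝ) * R / n ≤ R := by
        rw [div_le_iff₀ hn0, mul_comm]
        apply mul_le_mul_of_nonneg_left _ hR.le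
        exact_mod_cast hj
      have h3 : (j : ℝ) * R / n ≤ R := (hx j).trans h2
      unfold B
      rw [if_neg (by linarith), if_neg (by linarith)]
      ring
    rw [h1, sub_zero]
    have h2 := cos_bd u
    have h3 : 0 ≤ R / (2 * n) * B R u := mul_nonneg (by positivity) (B_nonneg _ _)
    linarith
  · rw [if_neg h, mul_zero, add_zero]
    have huR : |u| ≤ R := not_lt.1 h
    have hBR : B R u = u ^ 2 := by
      unfold B
      rw [if_pos huR, mul_one]
    have htel : ∑ j ∈ Finset.range n, (B ((j + 1 : ℕ) * R / n) u - B (j * R / n) u) = B R u := by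
      rw [Finset.sum_range_sub (fun j : ℕ => B ((j : ℝ) * R / n) u)]
      have e1 : (n : ℝ) * R / n = R := by field_simp
      have e2 : ((0 : ℕ) : ℝ) * R / n = 0 := by simp
      rw [e1, e2, B_zero, sub_zero]
    have h1 : 1 - Real.cos u = ∑ j ∈ Finset.range n, kk u * (B ((j + 1 : ℕ) * R / n) u - B (j * R / n) u) := by
      rw [← Finset.mul_sum, htel, hBR, one_sub_cos]
      unfold kk
      ring
    rw [h1, ← Finset.sum_sub_distrib, ← htel, Finset.mul_sum]
    refine (Finset.abs_sum_le_sum_abs _ _).trans (Finset.sum_le_sum fun j hj => ?_)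
    have hd : 0 ≤ B ((j + 1 : ℕ) * R / n) u - B (j * R / n) u := sub_nonneg.2 (B_mono (hx j) u)
    rw [← sub_mul, abs_mul, abs_of_nonneg hd]
    by_cases h2 : B ((j + 1 : ℕ) * R / n) u - B (j * R / n) u = 0
    · rw [h2]; simp
    · apply mul_le_mul_of_nonneg_right _ hd
      have h3 : (j : ℝ) * R / n < |u| ∧ |u| ≤ ((j + 1 : ℕ) : ℝ) * R / n := by
        by_contra hcon
        apply h2
        rw [not_and_or, not_lt, not_le] at hcon
        unfold B
        rcases hcon with h4 | h4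
        · rw [if_pos h4, if_pos (h4.trans (hx j))]; ring
        · have h5 : ¬ |u| ≤ (j : ℝ) * R / n := by
            have := hx j
            linarith
          rw [if_neg (not_le.2 h4), if_neg h5]; ring
      rw [← kk_abs u]
      refine (kk_lip _ _).trans ?_
      have h4 : ((j + 1 : ℕ) : ℝ) * R / n = (j : ℝ) * R / n + R / n := by
        push_cast
        ring
      rw [abs_of_pos (by linarith [h3.1])]
      have h5 : |u| - (j : ℝ) * R / n ≤ R / n := by linarith [h3.2]
      calc (|u| - (j : ℝ) * R / n) / 2 ≤ (R / n) / 2 := by linarith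
        _ = R / (2 * n) := by field_simp

theorem NN_summ {g a : ι → ℝ} (ha : ∀ i, 0 ≤ a i) (hs : Summable a) (T : ℝ) :
    Summable fun i => if |g i| ≤ T then g i ^ 2 * a i else 0 := by
  refine Summable.of_nonneg_of_le (fun i => ?_) (fun i => ?_) (hs.mul_left (T ^ 2))
  · split_ifs
    · exact mul_nonneg (sq_nonneg _) (ha i)
    · exact le_rfl
  · split_ifs with h
    · apply mul_le_mul_of_nonneg_right _ (ha i)
      rw [← sq_abs]
      exact pow_le_pow_left₀ (abs_nonneg _) h 2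
    · exact mul_nonneg (sq_nonneg _) (ha i)

theorem NN_le {g a : ι → ℝ} (ha : ∀ i, 0 ≤ a i) (hs : Summable a) (T : ℝ) :
    NN g a T ≤ T ^ 2 * ∑' i, a i := by
  unfold NN
  rw [← tsum_mul_left]
  refine Summable.tsum_le_tsum (fun i => ?_) (NN_summ ha hs T) (hs.mul_left _)
  split_ifs with h
  · apply mul_le_mul_of_nonneg_right _ (ha i)
    rw [← sq_abs]
    exact pow_le_pow_left₀ (abs_nonneg _) h 2
  · exact mul_nonneg (sq_nonneg _) (ha i)

theorem NN_nonneg {g a : ι → ℝ} (ha : ∀ i, 0 ≤ a i) (T : ℝ) : 0 ≤ NN g a T := by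
  refine tsum_nonneg fun i => ?_
  split_ifs
  · exact mul_nonneg (sq_nonneg _) (ha i)
  · exact le_rfl

theorem NN_fin {g a : ι → ℝ} (ha : ∀ i, 0 ≤ a i) (hs : Summable a) (s : Finset ι) (T : ℝ) :
    ∑ i ∈ s with |g i| ≤ T, g i ^ 2 * a i ≤ NN g a T := by
  rw [Finset.sum_filter]
  refine (NN_summ ha hs T).sum_le_tsum s fun i _ => ?_
  split_ifs
  · exact mul_nonneg (sq_nonneg _) (ha i)
  · exact le_rfl

theorem NN_lin {g a : ι → ℝ} (ha : ∀ i, 0 ≤ a i) (hs : Summable a) {A : ℝ}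
    (hN : Tendsto (fun T => NN g a T / T) atTop (𝓝 A)) :
    ∃ C : ℝ, 0 ≤ C ∧ ∀ T : ℝ, 0 < T → NN g a T ≤ C * T := by
  obtain ⟨T₀, hT₀⟩ := eventually_atTop.1 (hN.eventually (gt_mem_nhds (lt_add_one A)))
  obtain ⟨S, hS⟩ : ∃ S : ℝ, S = ∑' i, a i := ⟨_, rfl⟩
  have hS0 : 0 ≤ S := by rw [hS]; exact tsum_nonneg ha
  refine ⟨|A + 1| + |T₀| * S, by positivity, fun T hT => ?_⟩
  rcases le_total T₀ T with h | h
  · have h1 := hT₀ T h
    rw [div_lt_iff₀ hT] at h1
    have h2 : (A + 1) * T ≤ |A + 1| * T := mul_le_mul_of_nonneg_right (le_abs_self _) hT.le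
    have h3 : 0 ≤ |T₀| * S * T := by positivity
    nlinarith
  · have h1 := NN_le (g := g) ha hs T
    rw [← hS] at h1
    have h2 : T ^ 2 * S ≤ |T₀| * S * T := by
      have h3 : T ≤ |T₀| := h.trans (le_abs_self _)
      have h4 : T * (T * S) ≤ |T₀| * (T * S) := mul_le_mul_of_nonneg_right h3 (by positivity)
      nlinarith
    have h3 : 0 ≤ |A + 1| * T := by positivity
    nlinarith

theorem SF_tail {g a : ι → ℝ} (ha : ∀ i, 0 ≤ a i) {C : ℝ} (hC : 0 ≤ C)
    (hN : ∀ s : Finset ι, ∀ T : ℝ, 0 < T → ∑ i ∈ s with |g i| ≤ T, g i ^ 2 * a i ≤ C * T)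
    {R T : ℝ} (hR : 0 < R) (hT : 0 < T) :
    SF g a (fun u => if R < |u| then 1 else 0) T ≤ 4 * C / R := by
  unfold SF
  have h1 : (∑' i, a i * (if R < |g i / T| then (1 : ℝ) else 0)) ≤ 4 * C / (R * T) := by
    refine Real.tsum_le_of_sum_le (fun i => mul_nonneg (ha i) (by split_ifs <;> norm_num)) fun s => ?_
    have h2 := tail_bd ha hC hN (mul_pos hR hT) s
    rw [Finset.sum_filter] at h2
    refine le_trans (le_of_eq (Finset.sum_congr rfl fun i _ => ?_)) h2
    have h3 : R < |g i / T| ↔ R * T < |g i| := by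
      rw [abs_div, abs_of_pos hT, lt_div_iff₀ hT]
    by_cases h : R * T < |g i|
    · rw [if_pos h, if_pos (h3.2 h), mul_one]
    · rw [if_neg h, if_neg (fun h4 => h (h3.1 h4)), mul_zero]
  calc T * ∑' i, a i * (if R < |g i / T| then (1 : ℝ) else 0) ≤ T * (4 * C / (R * T)) :=
        mul_le_mul_of_nonneg_left h1 hT.le
    _ = 4 * C / R := by field_simp

theorem ind_bd (R u : ℝ) : |(if R < |u| then (1 : ℝ) else 0)| ≤ 1 := by
  split_ifs <;> norm_num

/-- the approximation of the structure function by the counting function -/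
theorem approx_SF {g a : ι → ℝ} (ha : ∀ i, 0 ≤ a i) (hs : Summable a) {C : ℝ} (hC : 0 ≤ C)
    (hN : ∀ s : Finset ι, ∀ T : ℝ, 0 < T → ∑ i ∈ s with |g i| ≤ T, g i ^ 2 * a i ≤ C * T)
    {R T : ℝ} (hR : 0 < R) (hT : 0 < T) {n : ℕ} (hn : 0 < n) :
    |SF g a (fun u => 1 - Real.cos u) T - ∑ j ∈ Finset.range n, kk (j * R / n) *
      (NN g a (((j + 1 : ℕ) * R / n) * T) / T - NN g a ((j * R / n) * T) / T)| ≤
      R / (2 * n) * (NN g a (R * T) / T) + 2 * (4 * C / R) := by
  have hn0 : (0 : ℝ) < n := by exact_mod_cast hn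
  have hx0 : ∀ j : ℕ, 0 ≤ (j : ℝ) * R / n := fun j => by positivity
  have sB : ∀ y : ℝ, 0 ≤ y → Summable fun i => a i * B y (g i / T) := fun y hy =>
    sum_bdd ha hs fun i => B_bd hy _
  have sI : Summable fun i => a i * (if R < |g i / T| then (1 : ℝ) else 0) :=
    sum_bdd ha hs fun i => ind_bd R _
  have sC : Summable fun i => a i * (1 - Real.cos (g i / T)) := sum_bdd ha hs fun i => cos_bd _
  have e1 : ∑ j ∈ Finset.range n, kk (j * R / n) *
      (NN g a (((j + 1 : ℕ) * R / n) * T) / T - NN g a ((j * R / n) * T) / T) =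
      T * ∑' i, a i * ∑ j ∈ Finset.range n, kk (j * R / n) *
        (B ((j + 1 : ℕ) * R / n) (g i / T) - B (j * R / n) (g i / T)) := by
    have e2 : ∀ i, a i * ∑ j ∈ Finset.range n, kk (j * R / n) *
        (B ((j + 1 : ℕ) * R / n) (g i / T) - B (j * R / n) (g i / T)) =
        ∑ j ∈ Finset.range n, kk (j * R / n) *
          (a i * B ((j + 1 : ℕ) * R / n) (g i / T) - a i * B (j * R / n) (g i / T)) := by
      intro i
      rw [Finset.mul_sum]
      exact Finset.sum_congr rfl fun j _ => by ring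
    simp only [e2]
    rw [Summable.tsum_finsetSum fun j _ => ((sB _ (hx0 (j + 1))).sub (sB _ (hx0 j))).mul_left _,
      Finset.mul_sum]
    refine Finset.sum_congr rfl fun j _ => ?_
    rw [tsum_mul_left, (sB _ (hx0 (j + 1))).tsum_sub (sB _ (hx0 j)), ← SF_B g a hT, ← SF_B g a hT]
    unfold SF
    ring
  have sS : Summable fun i => a i * ∑ j ∈ Finset.range n, kk (j * R / n) *
      (B ((j + 1 : ℕ) * R / n) (g i / T) - B (j * R / n) (g i / T)) := by
    have e2 : (fun i => a i * ∑ j ∈ Finset.range n, kk (j * R / n) *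
        (B ((j + 1 : ℕ) * R / n) (g i / T) - B (j * R / n) (g i / T))) = fun i =>
        ∑ j ∈ Finset.range n, kk (j * R / n) *
          (a i * B ((j + 1 : ℕ) * R / n) (g i / T) - a i * B (j * R / n) (g i / T)) := by
      funext i
      rw [Finset.mul_sum]
      exact Finset.sum_congr rfl fun j _ => by ring
    rw [e2]
    exact summable_sum fun j _ => ((sB _ (hx0 (j + 1))).sub (sB _ (hx0 j))).mul_left _
  rw [e1]
  unfold SF
  rw [← mul_sub, abs_mul, abs_of_pos hT, ← sC.tsum_sub sS]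
  have h1 : |∑' i, (a i * (1 - Real.cos (g i / T)) - a i * ∑ j ∈ Finset.range n, kk (j * R / n) *
      (B ((j + 1 : ℕ) * R / n) (g i / T) - B (j * R / n) (g i / T)))| ≤
      ∑' i, (R / (2 * n) * (a i * B R (g i / T)) + 2 * (a i * (if R < |g i / T| then 1 else 0))) := by
    rw [← Real.norm_eq_abs]
    have hd : ∀ i, ‖a i * (1 - Real.cos (g i / T)) - a i * ∑ j ∈ Finset.range n, kk (j * R / n) *
      (B ((j + 1 : ℕ) * R / n) (g i / T) - B (j * R / n) (g i / T))‖ ≤
      R / (2 * n) * (a i * B R (g i / T)) + 2 * (a i * (if R < |g i / T| then 1 else 0)) := by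
      intro i
      rw [← mul_sub, norm_mul, Real.norm_eq_abs, Real.norm_eq_abs, abs_of_nonneg (ha i)]
      refine (mul_le_mul_of_nonneg_left (approx_pt hR hn (g i / T)) (ha i)).trans (le_of_eq ?_)
      ring
    have hsd := ((sB R hR.le).mul_left (R / (2 * n))).add (sI.mul_left 2)
    exact tsum_of_norm_bounded hsd.hasSum hd
  refine (mul_le_mul_of_nonneg_left h1 hT.le).trans ?_
  rw [((sB R hR.le).mul_left _).tsum_add (sI.mul_left 2), tsum_mul_left, tsum_mul_left]
  have h2 := SF_tail ha hC hN hR hT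
  have h3 := SF_B g a hT R
  unfold SF at h2 h3
  rw [← h3]
  linarith

theorem kk_cont : Continuous kk := by
  unfold kk
  exact continuous_const.mul ((Real.continuous_sinc.comp (by fun_prop)).pow 2)

theorem riemann {R : ℝ} (hR : 0 < R) {n : ℕ} (hn : 0 < n) :
    |(∑ j ∈ Finset.range n, kk (j * R / n) * (R / n)) - ∫ u in (0 : ℝ)..R, kk u| ≤ R ^ 2 / (2 * n) := by
  have hn0 : (0 : ℝ) < n := by exact_mod_cast hn
  have h3 := intervalIntegral.sum_integral_adjacent_intervals (n := n)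
    (a := fun j : ℕ => (j : ℝ) * R / n) (μ := volume) (f := kk)
    (fun j _ => kk_cont.intervalIntegrable _ _)
  have e1 : (n : ℝ) * R / n = R := by field_simp
  simp only [Nat.cast_zero, zero_mul, zero_div] at h3
  rw [e1] at h3
  rw [← h3, ← Finset.sum_sub_distrib]
  refine (Finset.abs_sum_le_sum_abs _ _).trans ?_
  have h4 : ∀ j ∈ Finset.range n, |kk (j * R / n) * (R / n) - ∫ u in ((j : ℝ) * R / n)..(((j + 1 : ℕ) : ℝ) * R / n), kk u|
      ≤ (R / (2 * n)) * (R / n) := by
    intro j _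
    have e2 : ((j + 1 : ℕ) : ℝ) * R / n = (j : ℝ) * R / n + R / n := by
      push_cast
      ring
    have hRn : 0 < R / n := by positivity
    have e3 : kk (j * R / n) * (R / n) = ∫ _u in ((j : ℝ) * R / n)..(((j + 1 : ℕ) : ℝ) * R / n), kk (j * R / n) := by
      rw [intervalIntegral.integral_const, e2, smul_eq_mul]
      ring
    rw [e3, ← intervalIntegral.integral_sub (by simp) (kk_cont.intervalIntegrable _ _), ← Real.norm_eq_abs]
    have h5 := intervalIntegral.norm_integral_le_of_norm_le_const (a := (j : ℝ) * R / n)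
      (b := ((j + 1 : ℕ) : ℝ) * R / n) (C := R / (2 * n)) (f := fun u => kk (j * R / n) - kk u) (by
        intro u hu
        rw [uIoc_of_le (by rw [e2]; linarith), e2] at hu
        rw [Real.norm_eq_abs]
        refine (kk_lip _ _).trans ?_
        have h6 : |(j : ℝ) * R / n - u| ≤ R / n := by
          rw [abs_sub_comm, abs_of_pos (by linarith [hu.1])]
          linarith [hu.2]
        calc |(j : ℝ) * R / n - u| / 2 ≤ (R / n) / 2 := by linarith
          _ = R / (2 * n) := by field_simp)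
    refine h5.trans (le_of_eq ?_)
    rw [e2, add_sub_cancel_left, abs_of_pos hRn]
  refine (Finset.sum_le_sum h4).trans (le_of_eq ?_)
  rw [Finset.sum_const, Finset.card_range, nsmul_eq_mul]
  field_simp

theorem kk_half : Tendsto (fun R : ℝ => ∫ u in (0 : ℝ)..R, kk u) atTop (𝓝 (Real.pi / 2)) := by
  have h5 := integral_comp_abs (f := kk)
  have h6 : ∀ ξ : ℝ, kk |ξ| = kk ξ := kk_abs
  simp_rw [h6] at h5
  have h7 : ∫ x, kk x = Real.pi := sinc_half_integral
  rw [h7] at h5
  have h8 : ∫ x in Ioi (0 : ℝ), kk x = Real.pi / 2 := by linarith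
  have hi : Integrable kk := by
    by_contra hcon
    have := integral_undef hcon
    rw [h7] at this
    exact Real.pi_ne_zero this
  rw [← h8]
  exact intervalIntegral_tendsto_integral_Ioi 0 hi.integrableOn tendsto_id

/-- the Abelian theorem -/
theorem abel {g a : ι → ℝ} (ha : ∀ i, 0 ≤ a i) (hs : Summable a) {A : ℝ}
    (hN : Tendsto (fun T => NN g a T / T) atTop (𝓝 A)) :
    Tendsto (fun h => Gf g a h / h) (𝓝[>] 0) (𝓝 (A * Real.pi / 2)) := by
  obtain ⟨C, hC, hlin⟩ := NN_lin ha hs hN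
  have hfin : ∀ s : Finset ι, ∀ T : ℝ, 0 < T → ∑ i ∈ s with |g i| ≤ T, g i ^ 2 * a i ≤ C * T :=
    fun s T hT => (NN_fin ha hs s T).trans (hlin T hT)
  have hA0 : 0 ≤ A := by
    refine ge_of_tendsto hN ?_
    filter_upwards [eventually_gt_atTop (0 : ℝ)] with T hT
    exact div_nonneg (NN_nonneg ha T) hT.le
  have hy : ∀ y : ℝ, 0 ≤ y → Tendsto (fun T => NN g a (y * T) / T) atTop (𝓝 (y * A)) := by
    intro y hy
    rcases eq_or_lt_of_le hy with h | h
    · rw [← h, zero_mul]
      refine tendsto_const_nhds.congr' ?_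
      filter_upwards with T
      rw [zero_mul]
      have h1 := NN_le (g := g) ha hs 0
      have h2 := NN_nonneg (g := g) ha 0
      have h3 : NN g a 0 = 0 := by
        apply le_antisymm _ h2
        simpa using h1
      rw [h3, zero_div]
    · have h1 := (hN.comp (tendsto_id.const_mul_atTop h)).const_mul y
      refine h1.congr' ?_
      filter_upwards [eventually_gt_atTop (0 : ℝ)] with T hT
      simp only [Function.comp, id]
      field_simp
  have hmain : Tendsto (fun T => SF g a (fun u => 1 - Real.cos u) T) atTop (𝓝 (A * Real.pi / 2)) := by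
    rw [Metric.tendsto_nhds]
    intro ε hε
    -- choice of `R`
    obtain ⟨R, hR0, hR1, hR2⟩ : ∃ R : ℝ, 0 < R ∧ 2 * (4 * C / R) ≤ ε / 8 ∧
        A * |(∫ u in (0 : ℝ)..R, kk u) - Real.pi / 2| ≤ ε / 8 := by
      have t1 : Tendsto (fun R : ℝ => 2 * (4 * C / R)) atTop (𝓝 (2 * 0)) :=
        (tendsto_const_nhds.div_atTop tendsto_id).const_mul 2
      rw [mul_zero] at t1
      have t2 : Tendsto (fun R : ℝ => A * |(∫ u in (0 : ℝ)..R, kk u) - Real.pi / 2|) atTop
          (𝓝 (A * |Real.pi / 2 - Real.pi / 2|)) := ((kk_half.sub_const _).abs).const_mul A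
      rw [sub_self, abs_zero, mul_zero] at t2
      obtain ⟨R, hR⟩ := ((eventually_gt_atTop (0 : ℝ)).and ((t1.eventually (gt_mem_nhds
        (show 0 < ε / 8 by positivity))).and (t2.eventually (gt_mem_nhds
        (show 0 < ε / 8 by positivity))))).exists
      exact ⟨R, hR.1, hR.2.1.le, hR.2.2.le⟩
    -- choice of `n`
    obtain ⟨n, hn0, hn1, hn2⟩ : ∃ n : ℕ, 0 < n ∧ R / (2 * n) * (R * A + 1) ≤ ε / 8 ∧
        A * (R ^ 2 / (2 * n)) ≤ ε / 8 := by
      have t0 : Tendsto (fun n : ℕ => 1 / (n : ℝ)) atTop (𝓝 0) := tendsto_one_div_atTop_nhds_zero_nat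
      have t1 : Tendsto (fun n : ℕ => R / (2 * n) * (R * A + 1)) atTop (𝓝 (R / 2 * (R * A + 1) * 0)) := by
        refine (t0.const_mul (R / 2 * (R * A + 1))).congr fun n => ?_
        ring
      have t2 : Tendsto (fun n : ℕ => A * (R ^ 2 / (2 * n))) atTop (𝓝 (A * R ^ 2 / 2 * 0)) := by
        refine (t0.const_mul (A * R ^ 2 / 2)).congr fun n => ?_
        ring
      rw [mul_zero] at t1 t2
      obtain ⟨n, hn⟩ := ((eventually_gt_atTop (0 : ℕ)).and ((t1.eventually (gt_mem_nhds
        (show 0 < ε / 8 by positivity))).and (t2.eventually (gt_mem_nhds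
        (show 0 < ε / 8 by positivity))))).exists
      exact ⟨n, hn.1, hn.2.1.le, hn.2.2.le⟩
    have hn' : (0 : ℝ) < n := by exact_mod_cast hn0
    have l1 : Tendsto (fun T => ∑ j ∈ Finset.range n, kk (j * R / n) *
        (NN g a (((j + 1 : ℕ) * R / n) * T) / T - NN g a ((j * R / n) * T) / T)) atTop
        (𝓝 (∑ j ∈ Finset.range n, kk (j * R / n) *
          ((((j + 1 : ℕ) : ℝ) * R / n) * A - ((j : ℝ) * R / n) * A))) := by
      refine tendsto_finset_sum _ fun j _ => ?_
      exact ((hy _ (by positivity)).sub (hy _ (by positivity))).const_mul _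
    have e1 : ∑ j ∈ Finset.range n, kk (j * R / n) *
          ((((j + 1 : ℕ) : ℝ) * R / n) * A - ((j : ℝ) * R / n) * A) =
        A * ∑ j ∈ Finset.range n, kk (j * R / n) * (R / n) := by
      rw [Finset.mul_sum]
      refine Finset.sum_congr rfl fun j _ => ?_
      push_cast
      ring
    rw [e1] at l1
    have hri := riemann hR0 hn0
    filter_upwards [eventually_gt_atTop (0 : ℝ), (Metric.tendsto_nhds.1 l1) (ε / 8) (by positivity),
      (hy R hR0.le).eventually (gt_mem_nhds (lt_add_one (R * A)))] with T hT h1 h2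
    have h3 := approx_SF ha hs hC hfin hR0 hT hn0
    rw [Real.dist_eq] at h1 ⊢
    have h4 : R / (2 * n) * (NN g a (R * T) / T) ≤ R / (2 * n) * (R * A + 1) :=
      mul_le_mul_of_nonneg_left h2.le (by positivity)
    obtain ⟨x, hx⟩ : ∃ x : ℝ, x = SF g a (fun u => 1 - Real.cos u) T := ⟨_, rfl⟩
    obtain ⟨y, hy'⟩ : ∃ y : ℝ, y = ∑ j ∈ Finset.range n, kk (j * R / n) *
        (NN g a (((j + 1 : ℕ) * R / n) * T) / T - NN g a ((j * R / n) * T) / T) := ⟨_, rfl⟩
    obtain ⟨z, hz⟩ : ∃ z : ℝ, z = ∑ j ∈ Finset.range n, kk (j * R / n) * (R / n) := ⟨_, rfl⟩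
    obtain ⟨w, hw⟩ : ∃ w : ℝ, w = ∫ u in (0 : ℝ)..R, kk u := ⟨_, rfl⟩
    rw [← hx, ← hy'] at h3
    rw [← hy', ← hz] at h1
    rw [← hz, ← hw] at hri
    rw [← hw] at hR2
    rw [← hx]
    have h5 : A * |z - w| ≤ A * (R ^ 2 / (2 * n)) := mul_le_mul_of_nonneg_left hri hA0
    have e2 : x - A * Real.pi / 2 = (x - y) + (y - A * z) + A * (z - w) + A * (w - Real.pi / 2) := by
      ring
    have h6 : |A * (z - w)| ≤ ε / 8 := by
      rw [abs_mul, abs_of_nonneg hA0]; linarith
    have h7 : |A * (w - Real.pi / 2)| ≤ ε / 8 := by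
      rw [abs_mul, abs_of_nonneg hA0]; exact hR2
    rw [e2]
    have h8 := abs_add_le ((x - y) + (y - A * z) + A * (z - w)) (A * (w - Real.pi / 2))
    have h9 := abs_add_le ((x - y) + (y - A * z)) (A * (z - w))
    have h10 := abs_add_le (x - y) (y - A * z)
    linarith
  have h1 := hmain.comp tendsto_inv_nhdsGT_zero
  refine h1.congr' ?_
  filter_upwards [self_mem_nhdsWithin] with h hh
  have hh0 : 0 < h := hh
  simp only [Function.comp]
  rw [SF_cos, one_div, inv_inv]
  field_simp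

end Pool.Agent.X113.GG
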