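import Pool.Agent.X113.GG6

/-! The final form of the equivalence with the moments of `1 / ζ'`. -/

set_option autoImplicit false

open MeasureTheory Filter Topology Set

namespace Pool.Agent.X113.GG

open Pool.Agent.H295R2 (Mx mu)
open Pool.Agent.W120.WM (ZC NT)
open Pool.Agent.TH223.AP (SS ww_sq)

/-- the sum over the dilated window -/
theorem win_eq {δ x : ℝ} (hδ : 0 ≤ δ) (hx : 0 ≤ x) :
    (∑ n ∈ Finset.Ioc ⌊x⌋₊ ⌊(1 + δ) * x⌋₊, ((ArithmeticFunction.moebius n : ℤ) : ℝ)) =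
      Mx ((1 + δ) * x) - Mx x := by
  have h1 : ⌊x⌋₊ ≤ ⌊(1 + δ) * x⌋₊ := Nat.floor_le_floor (by nlinarith)
  have e1 : Mx ((1 + δ) * x) = ∑ n ∈ Finset.Icc 1 ⌊(1 + δ) * x⌋₊, ((ArithmeticFunction.moebius n : ℤ) : ℝ) :=
    rfl
  have e2 : Mx x = ∑ n ∈ Finset.Icc 1 ⌊x⌋₊, ((ArithmeticFunction.moebius n : ℤ) : ℝ) := rfl
  have e3 : ∀ N : ℕ, Finset.Icc 1 N = Finset.Ioc 0 N := fun N => by
    ext n
    simp [Finset.mem_Icc, Finset.mem_Ioc, Nat.one_le_iff_ne_zero, Nat.pos_iff_ne_zero]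
  rw [e1, e2, e3, e3, ← Finset.sum_Ioc_consecutive _ (Nat.zero_le _) h1]
  ring

/-- the normalised mean square -/
noncomputable def LW (δ X : ℝ) : ℝ :=
  (∫ x in (1:ℝ)..X, (∑ n ∈ Finset.Ioc ⌊x⌋₊ ⌊(1 + δ) * x⌋₊,
    ((ArithmeticFunction.moebius n : ℤ) : ℝ)) ^ 2 / (δ * x) / x) / Real.log X

theorem LW_eq {δ X : ℝ} (hδ : 0 < δ) (hX : 1 ≤ X) : LW δ X = LL δ X / δ := by
  unfold LW LL
  have h1 : (∫ x in (1:ℝ)..X, (∑ n ∈ Finset.Ioc ⌊x⌋₊ ⌊(1 + δ) * x⌋₊,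
      ((ArithmeticFunction.moebius n : ℤ) : ℝ)) ^ 2 / (δ * x) / x) =
      ∫ x in (1:ℝ)..X, (1 / δ) * ((Mx ((1 + δ) * x) - Mx x) ^ 2 / x ^ 2) := by
    apply intervalIntegral.integral_congr
    intro x hx
    rw [uIcc_of_le hX] at hx
    simp only
    rw [win_eq hδ.le (by linarith [hx.1])]
    have : 0 < x := by linarith [hx.1]
    field_simp
  rw [h1, intervalIntegral.integral_const_mul]
  ring

theorem LW_infinite (hZ : ¬ ZC) {δ : ℝ} (hδ : 0 < δ) : Tendsto (LW δ) atTop atTop := by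
  refine ((LL_infinite hZ hδ).atTop_div_const hδ).congr' ?_
  filter_upwards [eventually_ge_atTop 1] with X hX
  rw [LW_eq hδ hX]

theorem LW_limit (hZ : ZC) {δ : ℝ} (hδ : 0 < δ) :
    Tendsto (LW δ) atTop (𝓝 ((∑' ρ : NT, ‖dw (Real.log (1 + δ)) ρ‖ ^ 2) / δ)) := by
  refine ((LL_limit hZ hδ.le).div_const δ).congr' ?_
  filter_upwards [eventually_ge_atTop 1] with X hX
  rw [LW_eq hδ hX]

theorem dw_form {δ : ℝ} (hδ : 0 < δ) : (∑' ρ : NT, ‖dw (Real.log (1 + δ)) ρ‖ ^ 2) / δ =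
    (∑' ρ : NT, ‖((1 + δ : ℝ) : ℂ) ^ (ρ : ℂ) - 1‖ ^ 2 / ‖(ρ : ℂ) * deriv riemannZeta ρ‖ ^ 2) / δ := by
  congr 1
  apply tsum_congr
  intro ρ
  unfold dw
  rw [norm_mul, mul_pow, ww_sq]
  have h1 : ((1 + δ : ℝ) : ℂ) ≠ 0 := by
    have : (1 + δ : ℝ) ≠ 0 := by positivity
    exact_mod_cast this
  rw [Complex.cpow_def_of_ne_zero h1, ← Complex.ofReal_log (by positivity), mul_comm (ρ : ℂ)]
  ring_nf

/-- the moments as sums over finite sets -/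
theorem Jm_form (T : ℝ) : Jm T = ∑' ρ : {ρ : ℂ | ρ ∈ NT ∧ 0 < ρ.im ∧ ρ.im ≤ T},
    1 / ‖deriv riemannZeta ρ‖ ^ 2 := by
  unfold Jm
  rw [tsum_subtype {ρ : ℂ | ρ ∈ NT ∧ 0 < ρ.im ∧ ρ.im ≤ T} (fun ρ : ℂ => 1 / ‖deriv riemannZeta ρ‖ ^ 2)]
  rw [tsum_subtype NT (fun ρ : ℂ => if 0 < ρ.im ∧ ρ.im ≤ T then 1 / ‖deriv riemannZeta ρ‖ ^ 2 else 0)]
  apply tsum_congr
  intro ρ
  by_cases h1 : ρ ∈ NT
  · rw [Set.indicator_of_mem h1]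
    by_cases h2 : 0 < ρ.im ∧ ρ.im ≤ T
    · rw [if_pos h2, Set.indicator_of_mem (show ρ ∈ {ρ : ℂ | ρ ∈ NT ∧ 0 < ρ.im ∧ ρ.im ≤ T} from ⟨h1, h2⟩)]
    · rw [if_neg h2, Set.indicator_of_notMem (show ρ ∉ {ρ : ℂ | ρ ∈ NT ∧ 0 < ρ.im ∧ ρ.im ≤ T} from
        fun h => h2 h.2)]
  · rw [Set.indicator_of_notMem h1, Set.indicator_of_notMem
      (show ρ ∉ {ρ : ℂ | ρ ∈ NT ∧ 0 < ρ.im ∧ ρ.im ≤ T} from fun h => h1 h.1)]

theorem J_fin (T : ℝ) : {ρ : ℂ | ρ ∈ NT ∧ 0 < ρ.im ∧ ρ.im ≤ T}.Finite := by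
  refine (NT_fin T).subset ?_
  rintro ρ ⟨h1, h2, h3⟩
  exact ⟨h1, by rw [abs_of_pos h2]; exact h3⟩

theorem gonek_tfae (κ : ℝ) : [
    ∀ ε : ℝ, 0 < ε → ∀ᶠ δ : ℝ in 𝓝[>] 0, ∀ᶠ X : ℝ in atTop, |LW δ X - κ| ≤ ε,
    ∀ ε : ℝ, 0 < ε → ∀ᶠ δ : ℝ in 𝓝[>] 0, ∃ᶠ X : ℝ in atTop, |LW δ X - κ| ≤ ε,
    (∀ ρ ∈ NT, ρ.re = 1 / 2 ∧ deriv riemannZeta ρ ≠ 0) ∧
      Tendsto (fun T => Jm T / T) atTop (𝓝 (κ / (2 * Real.pi)))].TFAE := by
  tfae_have 1 → 2 := fun h ε hε => (h ε hε).mono fun δ hδ => hδ.frequently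
  tfae_have 2 → 3 := by
    intro h
    have hZ : ZC := by
      by_contra hZ
      obtain ⟨δ, h1, h2⟩ := ((h 1 one_pos).and (self_mem_nhdsWithin (a := (0:ℝ)) (s := Ioi 0))).exists
      have h3 := (LW_infinite hZ h2).eventually (eventually_gt_atTop (κ + 1))
      obtain ⟨X, h4, h5⟩ := (h1.and_eventually h3).exists
      have := (abs_le.1 h4).2
      linarith
    rw [← gonek_iff]
    refine ⟨fun δ => (∑' ρ : NT, ‖dw (Real.log (1 + δ)) ρ‖ ^ 2) / δ,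
      fun δ hδ => (LL_limit hZ hδ.le).div_const δ, ?_⟩
    rw [Metric.tendsto_nhds]
    intro ε hε
    filter_upwards [h (ε / 2) (by positivity), self_mem_nhdsWithin] with δ h1 h2
    have hδ : 0 < δ := h2
    have h3 := ((LW_limit hZ hδ).sub_const κ).abs
    rw [Real.dist_eq]
    refine lt_of_le_of_lt ?_ (half_lt_self hε)
    by_contra hcon
    rw [not_le] at hcon
    obtain ⟨X, h4, h5⟩ := (h1.and_eventually (h3.eventually (lt_mem_nhds hcon))).exists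
    linarith
  tfae_have 3 → 1 := by
    intro h ε hε
    have h1 := (gonek_iff κ).2 h
    obtain ⟨v, h2, h3⟩ := h1
    have h4 := Metric.tendsto_nhds.1 h3 ε hε
    filter_upwards [h4, self_mem_nhdsWithin] with δ h5 h6
    have hδ : 0 < δ := h6
    have h7 := ((h2 δ hδ).sub_const κ).abs
    rw [Real.dist_eq] at h5
    filter_upwards [h7.eventually (gt_mem_nhds h5), eventually_ge_atTop 1] with X h8 h9
    rw [LW_eq hδ h9]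
    exact h8.le
  tfae_finish

end Pool.Agent.X113.GG
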