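import Pool.Agent.X113.GG7

/-! Powers of `δ` and powers of `T`. -/

set_option autoImplicit false

open MeasureTheory Filter Topology Set

namespace Pool.Agent.X113.GG

open Pool.Agent.H295R2 (Mx mu)
open Pool.Agent.W120.WM (ZC NT)
open Pool.Agent.TH223.AP (SS ww_sq)

theorem SS_nonneg : 0 ≤ SS := by
  unfold Pool.Agent.TH223.AP.SS
  exact tsum_nonneg fun ρ => by positivity

theorem SS_eq : SS = ∑' ρ : NT, az ρ := rfl

/-- the counting bound on all scales -/
theorem count_all (hZ : ZC) {C η T₀ : ℝ} (hη : 0 < η) (hJ : ∀ T : ℝ, T₀ ≤ T → Jm T ≤ C * T ^ (2 - η)) :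
    ∃ C' : ℝ, 0 ≤ C' ∧ ∀ s : Finset NT, ∀ T : ℝ, 0 < T →
      ∑ i ∈ s with |gz i| ≤ T, gz i ^ 2 * az i ≤ C' * T ^ (2 - η) := by
  classical
  obtain ⟨T₁, hT₁⟩ : ∃ T₁ : ℝ, T₁ = max T₀ 1 := ⟨_, rfl⟩
  have hT0 : T₀ ≤ T₁ := hT₁ ▸ le_max_left _ _
  have hT1 : 1 ≤ T₁ := hT₁ ▸ le_max_right _ _
  have hS := SS_nonneg
  have hs : Summable az := hZ.2
  refine ⟨2 * |C| + SS * T₁ ^ η, by positivity, fun s T hT => ?_⟩
  refine (NN_fin az_nonneg hs s T).trans ?_
  have hp : 0 < T ^ (2 - η) := by positivity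
  rcases le_or_gt T₁ T with h | h
  · have h1 := (Jm_bd hZ T).1
    have h2 := hJ T (hT0.trans h)
    have h3 : C * T ^ (2 - η) ≤ |C| * T ^ (2 - η) := mul_le_mul_of_nonneg_right (le_abs_self C) hp.le
    have h4 : 0 ≤ SS * T₁ ^ η * T ^ (2 - η) := by positivity
    nlinarith
  · have h1 := NN_le (g := gz) az_nonneg hs T
    rw [← SS_eq] at h1
    have h2 : T ^ 2 ≤ T₁ ^ η * T ^ (2 - η) := by
      have e : T ^ 2 = T ^ η * T ^ (2 - η) := by
        rw [← Real.rpow_add hT, add_sub_cancel, Real.rpow_two]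
      rw [e]
      exact mul_le_mul_of_nonneg_right (Real.rpow_le_rpow hT.le h.le hη.le) hp.le
    have h3 := mul_le_mul_of_nonneg_right h2 hS
    have h4 : 0 ≤ 2 * |C| * T ^ (2 - η) := by positivity
    calc NN gz az T ≤ T ^ 2 * SS := h1
      _ ≤ T₁ ^ η * T ^ (2 - η) * SS := h3
      _ ≤ (2 * |C| + SS * T₁ ^ η) * T ^ (2 - η) := by nlinarith

/-- the structure function from the counting function -/
theorem Gf_pow (hZ : ZC) {C η T₀ : ℝ} (hη : 0 < η) (hJ : ∀ T : ℝ, T₀ ≤ T → Jm T ≤ C * T ^ (2 - η)) :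
    ∃ K : ℝ, 0 ≤ K ∧ ∀ h : ℝ, 0 < h → Gf gz az h ≤ K * h ^ η := by
  classical
  obtain ⟨C', hC', hN⟩ := count_all hZ hη hJ
  have hr1 : (2 : ℝ) ^ (-η) < 1 := Real.rpow_lt_one_of_one_lt_of_neg (by norm_num) (by linarith)
  have hK : 0 ≤ 4 * C' / (1 - 2 ^ (-η)) := div_nonneg (by positivity) (by linarith)
  refine ⟨C' / 2 + 2 * (4 * C' / (1 - 2 ^ (-η))), by positivity, fun h hh => ?_⟩
  unfold Gf
  refine Real.tsum_le_of_sum_le (fun i => mul_nonneg (az_nonneg i)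
    (by linarith [Real.cos_le_one (gz i * h)])) fun s => ?_
  have hU : 0 < 1 / h := by positivity
  have h1 := hN s (1 / h) hU
  have h2 := tail_pow az_nonneg hC' hη hN hU s
  have e1 : (1 / h) ^ (-η) = h ^ η := by
    rw [one_div, Real.inv_rpow hh.le, Real.rpow_neg hh.le, inv_inv]
  have e2 : h ^ 2 * (1 / h) ^ (2 - η) = h ^ η := by
    rw [one_div, Real.inv_rpow hh.le, ← Real.rpow_neg hh.le, ← Real.rpow_two, ← Real.rpow_add hh]
    congr 1
    ring
  rw [e1] at h2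
  rw [← Finset.sum_filter_add_sum_filter_not s (fun i => |gz i| ≤ 1 / h)]
  have h3 : ∑ i ∈ s with |gz i| ≤ 1 / h, az i * (1 - Real.cos (gz i * h)) ≤
      h ^ 2 / 2 * ∑ i ∈ s with |gz i| ≤ 1 / h, gz i ^ 2 * az i := by
    rw [Finset.mul_sum]
    apply Finset.sum_le_sum
    intro i _
    have h4 := Real.one_sub_sq_div_two_le_cos (x := gz i * h)
    have h5 := az_nonneg i
    have h6 : 1 - Real.cos (gz i * h) ≤ gz i ^ 2 * h ^ 2 / 2 := by nlinarith
    calc az i * (1 - Real.cos (gz i * h)) ≤ az i * (gz i ^ 2 * h ^ 2 / 2) :=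
          mul_le_mul_of_nonneg_left h6 h5
      _ = _ := by ring
  have h4 : ∑ i ∈ s with ¬ |gz i| ≤ 1 / h, az i * (1 - Real.cos (gz i * h)) ≤
      2 * ∑ i ∈ s with 1 / h < |gz i|, az i := by
    simp only [not_le]
    rw [Finset.mul_sum]
    apply Finset.sum_le_sum
    intro i _
    have h5 := az_nonneg i
    have h6 := (abs_le.1 (cos_bd (gz i * h))).2
    nlinarith
  have h5 : h ^ 2 / 2 * ∑ i ∈ s with |gz i| ≤ 1 / h, gz i ^ 2 * az i ≤ C' / 2 * h ^ η := by
    calc h ^ 2 / 2 * ∑ i ∈ s with |gz i| ≤ 1 / h, gz i ^ 2 * az i ≤ h ^ 2 / 2 * (C' * (1 / h) ^ (2 - η)) :=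
          mul_le_mul_of_nonneg_left h1 (by positivity)
      _ = C' / 2 * (h ^ 2 * (1 / h) ^ (2 - η)) := by ring
      _ = _ := by rw [e2]
  nlinarith

/-- the counting function from the structure function -/
theorem NN_Gf (hZ : ZC) {T : ℝ} (hT : 0 < T) :
    NN gz az T ≤ Real.pi ^ 2 / 2 * T ^ 2 * Gf gz az (1 / T) := by
  have hs : Summable az := hZ.2
  unfold NN Gf
  rw [← tsum_mul_left]
  refine Summable.tsum_le_tsum (fun i => ?_) (NN_summ az_nonneg hs T)
    ((sum_bdd az_nonneg hs fun i => cos_bd _).mul_left _)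
  have h5 := az_nonneg i
  split_ifs with h
  · have h1 : |gz i * (1 / T)| ≤ Real.pi := by
      rw [abs_mul, abs_of_pos (by positivity : (0:ℝ) < 1 / T), mul_one_div]
      have : |gz i| / T ≤ 1 := (div_le_one hT).2 h
      linarith [Real.pi_gt_three]
    have h2 := Real.cos_le_one_sub_mul_cos_sq h1
    have h3 : 2 / Real.pi ^ 2 * (gz i * (1 / T)) ^ 2 ≤ 1 - Real.cos (gz i * (1 / T)) := by linarith
    have hpi := Real.pi_pos
    calc gz i ^ 2 * az i = Real.pi ^ 2 / 2 * T ^ 2 * (az i * (2 / Real.pi ^ 2 * (gz i * (1 / T)) ^ 2)) := by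
          field_simp
      _ ≤ _ := mul_le_mul_of_nonneg_left (mul_le_mul_of_nonneg_left h3 h5) (by positivity)
  · exact mul_nonneg (by positivity) (mul_nonneg h5 (by linarith [Real.cos_le_one (gz i * (1 / T))]))

theorem pow_tfae {η : ℝ} (hη : 0 < η) (hη2 : η < 2) : [
    ∃ C : ℝ, ∀ δ : ℝ, 0 < δ → δ ≤ 1 → ∀ᶠ X : ℝ in atTop, LL δ X ≤ C * δ ^ η,
    ∃ C : ℝ, ∀ δ : ℝ, 0 < δ → δ ≤ 1 → ∃ᶠ X : ℝ in atTop, LL δ X ≤ C * δ ^ η,
    (∀ ρ ∈ NT, ρ.re = 1 / 2 ∧ deriv riemannZeta ρ ≠ 0) ∧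
      ∃ C : ℝ, ∀ᶠ T : ℝ in atTop, Jm T ≤ C * T ^ (2 - η)].TFAE := by
  tfae_have 1 → 2 := fun ⟨C, h⟩ => ⟨C, fun δ h1 h2 => (h δ h1 h2).frequently⟩
  tfae_have 2 → 3 := by
    rintro ⟨C, h⟩
    have hZ : ZC := by
      by_contra hZ
      have h3 := (LL_infinite hZ one_pos).eventually (eventually_gt_atTop (C * 1 ^ η))
      obtain ⟨X, h4, h5⟩ := ((h 1 one_pos le_rfl).and_eventually h3).exists
      linarith
    refine ⟨hZ.1, ?_⟩
    have hval : ∀ δ : ℝ, 0 < δ → δ ≤ 1 → ∑' ρ : NT, ‖dw (Real.log (1 + δ)) ρ‖ ^ 2 ≤ C * δ ^ η := by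
      intro δ hδ hδ1
      by_contra hcon
      rw [not_le] at hcon
      obtain ⟨X, h4, h5⟩ := ((h δ hδ hδ1).and_eventually
        ((LL_limit hZ hδ.le).eventually (lt_mem_nhds hcon))).exists
      linarith
    have hC0 : 0 ≤ C := by
      have h1 := hval 1 one_pos le_rfl
      rw [Real.one_rpow, mul_one] at h1
      exact (tsum_nonneg fun ρ => by positivity).trans h1
    have hS := SS_nonneg
    refine ⟨(Real.pi ^ 2 / 2 * (C / 2 * 2 ^ η) + SS / 4) / 2, ?_⟩
    filter_upwards [eventually_ge_atTop (2 : ℝ)] with T hT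
    have hT0 : 0 < T := by linarith
    have hh : 0 < 1 / T := by positivity
    have hh2 : 1 / T ≤ 1 / 2 := one_div_le_one_div_of_le (by norm_num) hT
    -- the bound for the structure function
    have h1 : Gf gz az (1 / T) ≤ C / 2 * 2 ^ η * T ^ (-η) := by
      have he1 : Real.exp (1 / T) - 1 ≤ 2 * (1 / T) := by
        have := Real.abs_exp_sub_one_le (x := 1 / T) (by rw [abs_of_pos hh]; linarith)
        rw [abs_of_pos hh] at this
        exact (le_abs_self _).trans this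
      have he2 : 0 < Real.exp (1 / T) - 1 := by
        have := Real.one_lt_exp_iff.2 hh
        linarith
      have h2 := hval (Real.exp (1 / T) - 1) he2 (by linarith)
      rw [add_sub_cancel, Real.log_exp, dw_tsum hZ] at h2
      have h3 : 0 ≤ (Real.exp (1 / T / 2) - 1) ^ 2 * SS := by positivity
      have h4 : 1 ≤ Real.exp (1 / T / 2) := Real.one_le_exp (by positivity)
      have h5 := Gf_nonneg (g := gz) az_nonneg (1 / T)
      have h6 : 2 * Gf gz az (1 / T) ≤ 2 * Real.exp (1 / T / 2) * Gf gz az (1 / T) := by nlinarith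
      have h7 : (Real.exp (1 / T) - 1) ^ η ≤ 2 ^ η * T ^ (-η) := by
        have h8 := Real.rpow_le_rpow he2.le he1 hη.le
        have e9 : (2 * (1 / T)) ^ η = 2 ^ η * T ^ (-η) := by
          rw [Real.mul_rpow (by norm_num) hh.le, one_div, Real.inv_rpow hT0.le, ← Real.rpow_neg hT0.le]
        rwa [e9] at h8
      have h8 := mul_le_mul_of_nonneg_left h7 hC0
      nlinarith
    have h2 := NN_Gf hZ hT0
    have h3 := (Jm_bd hZ T).2
    have h4 : NN gz az T ≤ Real.pi ^ 2 / 2 * (C / 2 * 2 ^ η) * T ^ (2 - η) := by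
      refine h2.trans ((mul_le_mul_of_nonneg_left h1 (by positivity)).trans (le_of_eq ?_))
      have e : T ^ (2 - η) = T ^ 2 * T ^ (-η) := by
        rw [sub_eq_add_neg, Real.rpow_add hT0, Real.rpow_two]
      rw [e]
      ring
    have h5 : 1 ≤ T ^ (2 - η) := Real.one_le_rpow (by linarith) (by linarith)
    have h6 : SS / 4 ≤ SS / 4 * T ^ (2 - η) := le_mul_of_one_le_right (by positivity) h5
    nlinarith
  tfae_have 3 → 1 := by
    rintro ⟨hz, C, hC⟩
    obtain ⟨T₀, hT₀⟩ := eventually_atTop.1 hC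
    have hZ := ZC_of_Jm hz hη hT₀
    obtain ⟨K, hK, hG⟩ := Gf_pow hZ hη hT₀
    have hS := SS_nonneg
    refine ⟨SS + 4 * K + 1, fun δ hδ hδ1 => ?_⟩
    have hval : ∑' ρ : NT, ‖dw (Real.log (1 + δ)) ρ‖ ^ 2 ≤ (SS + 4 * K) * δ ^ η := by
      have hl0 : 0 < Real.log (1 + δ) := Real.log_pos (by linarith)
      have hl1 : Real.log (1 + δ) ≤ δ := by
        have := Real.log_le_sub_one_of_pos (show 0 < 1 + δ by linarith)
        linarith
      rw [dw_tsum hZ]
      have h1 := hG _ hl0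
      have h2 : Real.log (1 + δ) ^ η ≤ δ ^ η := Real.rpow_le_rpow hl0.le hl1 hη.le
      have he1 : 1 ≤ Real.exp (Real.log (1 + δ) / 2) := Real.one_le_exp (by positivity)
      have he2 : Real.exp (Real.log (1 + δ) / 2) ^ 2 = 1 + δ := by
        rw [← Real.exp_nat_mul]
        have : ((2 : ℕ) : ℝ) * (Real.log (1 + δ) / 2) = Real.log (1 + δ) := by push_cast; ring
        rw [this, Real.exp_log (by linarith)]
      obtain ⟨e, he⟩ : ∃ e : ℝ, e = Real.exp (Real.log (1 + δ) / 2) := ⟨_, rfl⟩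
      rw [← he] at he1 he2 ⊢
      have he3 : e ≤ 2 := by nlinarith
      have he4 : (e - 1) ^ 2 ≤ δ ^ η := by
        have h3 : (e - 1) ^ 2 ≤ δ ^ 2 := by
          apply pow_le_pow_left₀ (by linarith)
          nlinarith
        have h4 : δ ^ 2 ≤ δ ^ η := by
          rw [← Real.rpow_two]
          exact Real.rpow_le_rpow_of_exponent_ge hδ hδ1 hη2.le
        linarith
      have h5 : (e - 1) ^ 2 * SS ≤ δ ^ η * SS := mul_le_mul_of_nonneg_right he4 hS
      have h6 : Gf gz az (Real.log (1 + δ)) ≤ K * δ ^ η := h1.trans (mul_le_mul_of_nonneg_left h2 hK)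
      have h7 : 2 * e * Gf gz az (Real.log (1 + δ)) ≤ 4 * (K * δ ^ η) := by
        have h8 := Gf_nonneg (g := gz) az_nonneg (Real.log (1 + δ))
        have : 2 * e * Gf gz az (Real.log (1 + δ)) ≤ 4 * Gf gz az (Real.log (1 + δ)) :=
          mul_le_mul_of_nonneg_right (by linarith) h8
        linarith
      nlinarith
    have hp : 0 < δ ^ η := by positivity
    have hlt : ∑' ρ : NT, ‖dw (Real.log (1 + δ)) ρ‖ ^ 2 < (SS + 4 * K + 1) * δ ^ η := by nlinarith
    exact ((LL_limit hZ hδ.le).eventually (gt_mem_nhds hlt)).mono fun X hX => hX.le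
  tfae_finish

/-- the weak Mertens hypothesis from the increments -/
theorem wm_tfae {δ : ℝ} (hδ : 0 < δ) : [
    ZC,
    ∃ C : ℝ, ∀ᶠ X : ℝ in atTop, LL δ X ≤ C,
    ∃ C : ℝ, ∃ᶠ X : ℝ in atTop, LL δ X ≤ C].TFAE := by
  tfae_have 1 → 2 := by
    intro hZ
    exact ⟨_, ((LL_limit hZ hδ.le).eventually (gt_mem_nhds (lt_add_one _))).mono fun X hX => hX.le⟩
  tfae_have 2 → 3 := fun ⟨C, h⟩ => ⟨C, h.frequently⟩
  tfae_have 3 → 1 := by
    rintro ⟨C, h⟩
    by_contra hZ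
    have h3 := (LL_infinite hZ hδ).eventually (eventually_gt_atTop C)
    obtain ⟨X, h4, h5⟩ := (h.and_eventually h3).exists
    linarith
  tfae_finish

end Pool.Agent.X113.GG
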