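import Pool.Agent.W263.BSD.Lap

set_option autoImplicit false
set_option maxHeartbeats 2000000

/-! A one-sided bound in the mean and the zeros: Landau's argument. -/

open MeasureTheory ProbabilityTheory Filter Topology Set
open Pool.Agent.W263.BSD

namespace Pool.Agent.X113.HL

/-- near a zero `(w - s) f'(w) / f(w)` tends to the multiplicity -/
lemma logDeriv_lim {f : ℂ → ℂ} {s : ℂ} (hf : AnalyticAt ℂ f s) (h0 : f s = 0) (ht : analyticOrderAt f s ≠ ⊤) :
    ∃ m : ℕ, 1 ≤ m ∧ Tendsto (fun w => (w - s) * (deriv f w / f w)) (𝓝[≠] s) (𝓝 (m : ℂ)) := by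
  obtain ⟨m, hm⟩ := ENat.ne_top_iff_exists.mp ht
  have hm0 : m ≠ 0 := by
    rintro rfl
    have : analyticOrderAt f s = 0 := hm.symm
    exact (hf.analyticOrderAt_ne_zero.2 h0) this
  obtain ⟨g, hg, hg0, hfg⟩ := (hf.analyticOrderAt_eq_natCast).mp hm.symm
  refine ⟨m, Nat.one_le_iff_ne_zero.2 hm0, ?_⟩
  have h1 : Tendsto (fun w => (m : ℂ) + (w - s) * (deriv g w / g w)) (𝓝 s) (𝓝 ((m : ℂ) + (s - s) * (deriv g s / g s))) := by
    refine Tendsto.add tendsto_const_nhds (Tendsto.mul ?_ ?_)
    · exact (continuous_id.sub continuous_const).tendsto s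
    · exact (hg.deriv.continuousAt.tendsto).div hg.continuousAt.tendsto hg0
  rw [sub_self, zero_mul, add_zero] at h1
  refine (h1.mono_left nhdsWithin_le_nhds).congr' ?_
  have e1 : ∀ᶠ w in 𝓝 s, g w ≠ 0 := hg.continuousAt.eventually_ne hg0
  have e2 : ∀ᶠ w in 𝓝 s, AnalyticAt ℂ g w := hg.eventually_analyticAt
  have e3 : ∀ᶠ w in 𝓝 s, ∀ᶠ z in 𝓝 w, f z = (z - s) ^ m • g z := hfg.eventually_nhds
  filter_upwards [e1.filter_mono nhdsWithin_le_nhds, e2.filter_mono nhdsWithin_le_nhds,
    e3.filter_mono nhdsWithin_le_nhds, self_mem_nhdsWithin] with w k1 k2 k3 k4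
  have k4' : w - s ≠ 0 := sub_ne_zero.2 k4
  have hd : deriv f w = m * (w - s) ^ (m - 1) * g w + (w - s) ^ m * deriv g w := by
    have h2 : f =ᶠ[𝓝 w] fun z => (z - s) ^ m * g z := by
      filter_upwards [k3] with z hz
      rw [hz, smul_eq_mul]
    rw [h2.deriv_eq]
    have h3 : HasDerivAt (fun z : ℂ => (z - s) ^ m) (m * (w - s) ^ (m - 1)) w := by
      have h4 := ((hasDerivAt_id w).sub_const s).pow m
      have h5 : HasDerivAt (fun z : ℂ => (z - s) ^ m) (m * (w - s) ^ (m - 1) * 1) w := h4
      rwa [mul_one] at h5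
    exact (h3.mul k2.differentiableAt.hasDerivAt).deriv
  have hfw : f w = (w - s) ^ m * g w := by
    have := k3.self_of_nhds
    rw [this, smul_eq_mul]
  have hp : (w - s) ^ m = (w - s) ^ (m - 1) * (w - s) := by
    rw [← pow_succ, Nat.sub_add_cancel (Nat.one_le_iff_ne_zero.2 hm0)]
  have hp0 : (w - s) ^ (m - 1) ≠ 0 := pow_ne_zero _ k4'
  rw [hd, hfw, hp]
  field_simp

variable {f : ℝ → ℝ} {Lf E : ℂ → ℂ} {c0 : ℝ}

/-- **Landau's argument** -/
theorem core (hf : Measurable f) (hL : Differentiable ℂ Lf) (hE : ∀ z : ℂ, 0 < z.re → DifferentiableAt ℂ E z)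
    (hc0 : 0 ≤ c0) (hint : ∀ w > c0, LInt f w)
    (hid : ∀ z : ℂ, c0 < z.re → Lf z * (lapC f z + E z) = Complex.exp (z ^ 2 / 2) * deriv Lf z)
    (hne : ∀ z : ℂ, c0 < z.re → Lf z ≠ 0) (hup : ∀ w : ℝ, 0 < w → LInt (fun u => max (f u) 0) w) :
    ∀ z : ℂ, 0 < z.re → Lf z ≠ 0 := by
  have hfm : Measurable fun u => max (-(f u)) 0 := hf.neg.max measurable_const
  have hfp : Measurable fun u => max (f u) 0 := hf.max measurable_const
  have hf0 : ∀ u : ℝ, 0 < u → 0 ≤ max (-(f u)) 0 := fun u _ => le_max_right _ _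
  have hdec : (fun u => max (f u) 0 - max (-(f u)) 0) = f := by
    funext u
    rcases le_total (f u) 0 with h | h
    · rw [max_eq_right h, max_eq_left (by linarith)]; ring
    · rw [max_eq_left h, max_eq_right (by linarith)]; ring
  obtain ⟨T, hT⟩ : ∃ T : Set ℝ, T = {w | 0 < w ∧ LInt (fun u => max (-(f u)) 0) w} := ⟨_, rfl⟩
  have hTne : T.Nonempty := ⟨c0 + 1, by
    rw [hT]
    exact ⟨by linarith, LInt.posPart hf.neg (hint (c0 + 1) (by linarith)).neg⟩⟩
  have hTb : BddBelow T := ⟨0, fun w hw => by rw [hT] at hw; exact hw.1.le⟩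
  obtain ⟨s, hs⟩ : ∃ s : ℝ, s = sInf T := ⟨_, rfl⟩
  have hs0 : 0 ≤ s := by rw [hs]; exact le_csInf hTne fun w hw => by rw [hT] at hw; exact hw.1.le
  have hconvm : ∀ w > s, LInt (fun u => max (-(f u)) 0) w := by
    intro w hw
    rw [hs] at hw
    obtain ⟨t, ht, htw⟩ := exists_lt_of_csInf_lt hTne hw
    rw [hT] at ht
    exact ht.2.mono hfm htw.le
  have hconv : ∀ w > s, LInt f w := by
    intro w hw
    have h := (hup w (by linarith)).sub (hconvm w hw)
    simp only [hdec] at h
    exact h
  -- the identity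
  have hdiff : ∀ z : ℂ, s < z.re → DifferentiableAt ℂ (lapC f) z := fun z hz => lapC_differentiableAt hf hconv hz
  have hd' : Differentiable ℂ (deriv Lf) := fun z => (hL.analyticAt z).deriv.differentiableAt
  have hopen : IsOpen {z : ℂ | s < z.re} := isOpen_lt continuous_const Complex.continuous_re
  have hext : ∀ z : ℂ, s < z.re → Lf z * (lapC f z + E z) = Complex.exp (z ^ 2 / 2) * deriv Lf z := by
    have a1 : AnalyticOnNhd ℂ (fun z => Lf z * (lapC f z + E z)) {z : ℂ | s < z.re} := by
      refine DifferentiableOn.analyticOnNhd (fun z hz => ?_) hopen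
      have hz' : s < z.re := hz
      exact ((hL z).mul ((hdiff z hz').add (hE z (by linarith)))).differentiableWithinAt
    have a2 : AnalyticOnNhd ℂ (fun z => Complex.exp (z ^ 2 / 2) * deriv Lf z) {z : ℂ | s < z.re} := by
      refine DifferentiableOn.analyticOnNhd (fun z hz => ?_) hopen
      exact (DifferentiableAt.mul (by fun_prop) (hd' z)).differentiableWithinAt
    have hz0 : s < (((max s c0 + 1 : ℝ) : ℂ)).re := by
      rw [Complex.ofReal_re]
      have := le_max_left s c0
      linarith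
    have h3 := a1.eqOn_of_preconnected_of_eventuallyEq a2 (convex_halfSpace_re_gt s).isPreconnected hz0 ?_
    · exact fun z hz => h3 hz
    · have hz1 : c0 < (((max s c0 + 1 : ℝ) : ℂ)).re := by
        rw [Complex.ofReal_re]
        have := le_max_right s c0
        linarith
      filter_upwards [(isOpen_lt continuous_const Complex.continuous_re).mem_nhds hz1] with z hz
      exact hid z hz
  -- the order is finite
  have hfin : ∀ z : ℂ, analyticOrderAt Lf z ≠ ⊤ := by
    intro z
    have h1 : AnalyticOnNhd ℂ Lf univ := fun z _ => hL.analyticAt z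
    refine h1.analyticOrderAt_ne_top_of_isPreconnected isPreconnected_univ (mem_univ ((c0 + 1 : ℝ) : ℂ)) (mem_univ z) ?_
    rw [(hL.analyticAt _).analyticOrderAt_eq_zero.mpr (hne _ (by rw [Complex.ofReal_re]; linarith))]
    exact ENat.zero_ne_top
  -- no zeros to the right of s
  have hnz : ∀ z : ℂ, s < z.re → Lf z ≠ 0 := by
    intro z hz h0
    have hz' : z ∈ {z : ℂ | s < z.re} := hz
    have b1 : AnalyticAt ℂ (fun z => lapC f z + E z) z :=
      (DifferentiableOn.analyticOnNhd (fun z (hz : s < z.re) =>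
        ((hdiff z hz).add (hE z (by linarith))).differentiableWithinAt) hopen) z hz'
    have b2 : AnalyticAt ℂ (fun z : ℂ => Complex.exp (z ^ 2 / 2)) z := by fun_prop
    have b3 : analyticOrderAt (Lf * fun z => lapC f z + E z) z = analyticOrderAt ((fun z : ℂ => Complex.exp (z ^ 2 / 2)) * deriv Lf) z := by
      refine analyticOrderAt_congr ?_
      filter_upwards [hopen.mem_nhds hz'] with w hw
      exact hext w hw
    rw [analyticOrderAt_mul (hL.analyticAt z) b1, analyticOrderAt_mul b2 (hL.analyticAt z).deriv,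
      b2.analyticOrderAt_eq_zero.2 (Complex.exp_ne_zero _), zero_add] at b3
    have b4 := (hL.analyticAt z).analyticOrderAt_deriv_add_one
    simp only [h0, sub_zero] at b4
    have b5 := hfin z
    rw [← b3] at b4
    obtain ⟨m, hm⟩ := ENat.ne_top_iff_exists.mp b5
    rw [← hm] at b4
    rcases eq_or_ne (analyticOrderAt (fun z => lapC f z + E z) z) ⊤ with h | h
    · rw [h] at b4
      simp at b4
    · obtain ⟨k, hk⟩ := ENat.ne_top_iff_exists.mp h
      rw [← hk] at b4
      have : m + k + 1 = m := by exact_mod_cast b4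
      omega
  rcases hs0.eq_or_lt with h0 | h0
  · rw [← h0] at hnz
    exact hnz
  exfalso
  have hEc : ContinuousAt (fun w : ℝ => (E (w : ℂ)).re) s := by
    have h1 := (hE (s : ℂ) (by rw [Complex.ofReal_re]; exact h0)).continuousAt
    exact Complex.continuous_re.continuousAt.comp (ContinuousAt.comp (f := fun w : ℝ => (w : ℂ)) h1
      Complex.continuous_ofReal.continuousAt)
  have hval : ∀ w : ℝ, s < w → lap f w = (Complex.exp ((w : ℂ) ^ 2 / 2) * (deriv Lf w / Lf w)).re - (E w).re := by
    intro w hw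
    have h1 := hext (w : ℂ) (by rw [Complex.ofReal_re]; exact hw)
    have h2 := hnz (w : ℂ) (by rw [Complex.ofReal_re]; exact hw)
    have h3 : lapC f w = Complex.exp ((w : ℂ) ^ 2 / 2) * (deriv Lf w / Lf w) - E w := by
      field_simp
      rw [← h1]
      ring
    rw [← Complex.sub_re, ← h3, lapC_ofReal, Complex.ofReal_re]
  have hle : ∀ w : ℝ, s < w → lap f w ≤ lap (fun u => max (f u) 0) s := by
    intro w hw
    have h1 : lap f w ≤ lap (fun u => max (f u) 0) w := by
      have h2 := lap_nonneg (f := fun u => max (-(f u)) 0) hf0 w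
      have h3 := lap_sub (hup w (by linarith)) (hconvm w hw)
      simp only [hdec] at h3
      linarith
    refine h1.trans ?_
    unfold lap
    refine setIntegral_mono_on (hup w (by linarith)) (hup s h0) measurableSet_Ioi fun u hu => ?_
    refine mul_le_mul_of_nonneg_left (Real.exp_le_exp.2 ?_) (le_max_right _ _)
    have hu' : 0 < u := hu
    nlinarith
  by_cases hz : Lf (s : ℂ) = 0
  · -- the sign of the residue
    obtain ⟨m, hm1, hm⟩ := logDeriv_lim (hL.analyticAt (s : ℂ)) hz (hfin _)
    have t1 : Tendsto (fun w : ℝ => (w : ℂ)) (𝓝[>] s) (𝓝[≠] (s : ℂ)) := by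
      refine tendsto_nhdsWithin_iff.2 ⟨(Complex.continuous_ofReal.tendsto s).mono_left nhdsWithin_le_nhds, ?_⟩
      filter_upwards [self_mem_nhdsWithin] with w hw
      have hw' : s < w := hw
      have : w ≠ s := hw'.ne'
      exact fun h => this (Complex.ofReal_injective h)
    have t2 := hm.comp t1
    have t3 : Tendsto (fun w : ℝ => Complex.exp ((w : ℂ) ^ 2 / 2)) (𝓝[>] s) (𝓝 (Complex.exp ((s : ℂ) ^ 2 / 2))) := by
      have hc : Continuous fun w : ℝ => Complex.exp ((w : ℂ) ^ 2 / 2) := by fun_prop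
      exact (hc.tendsto s).mono_left nhdsWithin_le_nhds
    have t4 := (Complex.continuous_re.tendsto _).comp (t3.mul t2)
    have e1 : (Complex.exp ((s : ℂ) ^ 2 / 2) * (m : ℂ)).re = Real.exp (s ^ 2 / 2) * m := by
      have : Complex.exp ((s : ℂ) ^ 2 / 2) * (m : ℂ) = ((Real.exp (s ^ 2 / 2) * m : ℝ) : ℂ) := by push_cast; ring
      rw [this, Complex.ofReal_re]
    rw [e1] at t4
    have hmr : (1:ℝ) ≤ m := by exact_mod_cast hm1
    have hpos : 0 < Real.exp (s ^ 2 / 2) * m := by positivity
    -- (w - s) * lap f w ≤ (w - s) * C → 0, but it tends to a positive limit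
    have t5 : Tendsto (fun w : ℝ => (w - s) * lap f w) (𝓝[>] s) (𝓝 (Real.exp (s ^ 2 / 2) * m)) := by
      have t6 : Tendsto (fun w : ℝ => (w - s) * (E (w : ℂ)).re) (𝓝[>] s) (𝓝 ((s - s) * (E (s : ℂ)).re)) := by
        refine Tendsto.mul ?_ (hEc.tendsto.mono_left nhdsWithin_le_nhds)
        exact ((continuous_id.sub continuous_const).tendsto s).mono_left nhdsWithin_le_nhds
      rw [sub_self, zero_mul] at t6
      have t7 := t4.sub t6
      rw [sub_zero] at t7
      refine t7.congr' ?_
      filter_upwards [self_mem_nhdsWithin] with w hw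
      have hw' : s < w := hw
      rw [hval w hw']
      simp only [Function.comp]
      have e2 : Complex.exp ((w : ℂ) ^ 2 / 2) * (((w : ℂ) - s) * (deriv Lf w / Lf w)) =
          ((w - s : ℝ) : ℂ) * (Complex.exp ((w : ℂ) ^ 2 / 2) * (deriv Lf w / Lf w)) := by push_cast; ring
      rw [e2, Complex.re_ofReal_mul]
      ring
    have t8 : Tendsto (fun w : ℝ => (w - s) * lap (fun u => max (f u) 0) s) (𝓝[>] s) (𝓝 ((s - s) * lap (fun u => max (f u) 0) s)) :=
      (((continuous_id.sub continuous_const).tendsto s).mono_left nhdsWithin_le_nhds).mul_const _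
    rw [sub_self, zero_mul] at t8
    have t9 := le_of_tendsto_of_tendsto t5 t8 (by
      filter_upwards [self_mem_nhdsWithin] with w hw
      have hw' : s < w := hw
      exact mul_le_mul_of_nonneg_left (hle w hw') (by linarith))
    linarith
  · -- Landau's lemma
    obtain ⟨H, hH⟩ : ∃ H : ℂ → ℂ, H = fun z => lapC (fun u => max (f u) 0) (-z) -
        (Complex.exp ((-z) ^ 2 / 2) * (deriv Lf (-z) / Lf (-z)) - E (-z)) := ⟨_, rfl⟩
    have hHa : AnalyticAt ℂ H ((-s : ℝ) : ℂ) := by
      refine Complex.analyticAt_iff_eventually_differentiableAt.mpr ?_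
      have e1 : ∀ᶠ z in 𝓝 ((-s : ℝ) : ℂ), 0 < (-z).re := by
        have : IsOpen {z : ℂ | 0 < (-z).re} :=
          isOpen_lt continuous_const (Complex.continuous_re.comp continuous_neg)
        exact this.mem_nhds (by simpa using h0)
      have e2 : ∀ᶠ z in 𝓝 ((-s : ℝ) : ℂ), Lf (-z) ≠ 0 := by
        have hc : ContinuousAt (fun z => Lf (-z)) ((-s : ℝ) : ℂ) :=
          (hL.continuous.comp continuous_neg).continuousAt
        refine hc.eventually_ne ?_
        have : Lf (-((-s : ℝ) : ℂ)) = Lf s := by congr 1; push_cast; ring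
        rw [this]
        exact hz
      filter_upwards [e1, e2] with z k1 k2
      rw [hH]
      have hneg : DifferentiableAt ℂ (fun z : ℂ => -z) z := differentiable_neg.differentiableAt
      refine DifferentiableAt.sub ?_ (DifferentiableAt.sub (DifferentiableAt.mul (by fun_prop) (DifferentiableAt.div ?_ ?_ k2)) ?_)
      · exact DifferentiableAt.comp (g := lapC (fun u => max (f u) 0)) z
          (lapC_differentiableAt hfp (w0 := 0) (fun w hw => hup w hw) k1) hneg
      · exact DifferentiableAt.comp (g := deriv Lf) z (hd' (-z)) hneg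
      · exact DifferentiableAt.comp (g := Lf) z (hL (-z)) hneg
      · exact DifferentiableAt.comp (g := E) z (hE (-z) k1) hneg
    have hgr : AnalyticAt ℝ (fun t : ℝ => (H t).re) (-s) := hHa.re_ofReal
    obtain ⟨t, hts, ht⟩ := landau (X := id) (μ := dens (fun u => max (-(f u)) 0)) (dens_pos _ hfm) hgr
      (fun t ht => (mem_integrableExpSet_dens hfm hf0 t).mpr (hconvm (-t) (by linarith))) (by
        filter_upwards [self_mem_nhdsWithin] with t ht
        have ht' : t < -s := ht
        have hw : s < -t := by linarith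
        rw [mgf_dens hfm hf0]
        have e : -(t : ℂ) = ((-t : ℝ) : ℂ) := by push_cast; ring
        rw [hH]
        simp only [e]
        rw [Complex.sub_re, Complex.sub_re, ← hval (-t) hw, lapC_ofReal, Complex.ofReal_re]
        have h3 := lap_sub (hup (-t) (by linarith)) (hconvm (-t) hw)
        simp only [hdec] at h3
        linarith)
    have ht1 := (mem_integrableExpSet_dens hfm hf0 t).mp ht
    obtain ⟨t', ht'⟩ : ∃ t' : ℝ, t' = max (-t) (s / 2) := ⟨_, rfl⟩
    have h5 : t' < s := by rw [ht']; exact max_lt (by linarith) (by linarith)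
    have h6 : t' ∈ T := by
      rw [hT]
      refine ⟨lt_of_lt_of_le (by linarith) (ht' ▸ le_max_right _ _ : s / 2 ≤ t'), ht1.mono hfm ?_⟩
      rw [ht']
      exact le_max_left _ _
    have := csInf_le hTb h6
    rw [← hs] at this
    linarith

end Pool.Agent.X113.HL
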