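import Pool.Agent.X113.HQ7
import Pool.Agent.X113.HL1

set_option autoImplicit false
set_option maxHeartbeats 2000000
set_option linter.unusedSectionVars false

/-! The Laplace transform of the prime side. -/

open MeasureTheory ProbabilityTheory Filter Topology Set
open Pool.Agent.W263.BSD

namespace Pool.Agent.X113.HL

open Pool.Agent.X113.HQ

/-- a Gaussian integral -/
lemma gint (w : ℂ) (l : ℝ) :
    Integrable (fun v : ℝ => Complex.exp (-(w * v)) * ((Real.exp (-((v - l) ^ 2) / 2) : ℝ) : ℂ)) ∧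
    ∫ v : ℝ, Complex.exp (-(w * v)) * ((Real.exp (-((v - l) ^ 2) / 2) : ℝ) : ℂ) =
      (Real.sqrt (2 * Real.pi) : ℂ) * Complex.exp (w ^ 2 / 2 - w * l) := by
  have e : (fun v : ℝ => Complex.exp (-(w * v)) * ((Real.exp (-((v - l) ^ 2) / 2) : ℝ) : ℂ)) =
      fun v : ℝ => Complex.exp ((-1 / 2 : ℂ) * (v : ℂ) ^ 2 + ((l : ℂ) - w) * v + (-((l : ℂ) ^ 2) / 2)) := by
    funext v
    rw [Complex.ofReal_exp, ← Complex.exp_add]
    congr 1
    push_cast
    ring
  have hb : ((-1 / 2 : ℂ)).re < 0 := by norm_num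
  rw [e]
  refine ⟨integrable_cexp_quadratic' hb _ _, ?_⟩
  rw [integral_cexp_quadratic hb]
  have e1 : ((Real.pi : ℂ) / -(-1 / 2)) ^ (1 / 2 : ℂ) = (Real.sqrt (2 * Real.pi) : ℂ) := by
    rw [Real.sqrt_eq_rpow, Complex.ofReal_cpow (by positivity)]
    congr 1
    · push_cast; ring
    · push_cast; norm_num
  rw [e1]
  congr 2
  ring

lemma gint_real (x l : ℝ) : Integrable (fun v : ℝ => Real.exp (-(x * v)) * Real.exp (-((v - l) ^ 2) / 2)) ∧
    ∫ v : ℝ, Real.exp (-(x * v)) * Real.exp (-((v - l) ^ 2) / 2) =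
      Real.sqrt (2 * Real.pi) * Real.exp (x ^ 2 / 2 - x * l) := by
  obtain ⟨h1, h2⟩ := gint (x : ℂ) l
  have e : (fun v : ℝ => Complex.exp (-((x : ℂ) * v)) * ((Real.exp (-((v - l) ^ 2) / 2) : ℝ) : ℂ)) =
      fun v : ℝ => ((Real.exp (-(x * v)) * Real.exp (-((v - l) ^ 2) / 2) : ℝ) : ℂ) := by
    funext v
    push_cast
    rfl
  constructor
  · rw [e] at h1
    exact h1.re.congr (Eventually.of_forall fun v => Complex.ofReal_re _)
  · rw [e, integral_complex_ofReal] at h2
    have h3 : (((∫ v : ℝ, Real.exp (-(x * v)) * Real.exp (-((v - l) ^ 2) / 2)) : ℝ) : ℂ) =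
        ((Real.sqrt (2 * Real.pi) * Real.exp (x ^ 2 / 2 - x * l) : ℝ) : ℂ) := by
      rw [h2]; push_cast; rfl
    exact Complex.ofReal_injective h3

/-- integrability of the sum of a series of nonnegative functions -/
lemma integrable_tsum {G : ℕ → ℝ → ℝ} (h0 : ∀ n v, 0 ≤ G n v) (hi : ∀ n, Integrable (G n))
    (hs : Summable fun n => ∫ v, G n v) (hsv : ∀ v, Summable fun n => G n v)
    (hm : AEStronglyMeasurable (fun v => ∑' n, G n v)) : Integrable (fun v => ∑' n, G n v) := by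
  refine ⟨hm, ?_⟩
  rw [hasFiniteIntegral_iff_ofReal (Eventually.of_forall fun v => tsum_nonneg fun n => h0 n v)]
  have e1 : ∀ v, ENNReal.ofReal (∑' n, G n v) = ∑' n, ENNReal.ofReal (G n v) := fun v =>
    ENNReal.ofReal_tsum_of_nonneg (fun n => h0 n v) (hsv v)
  simp only [e1]
  rw [lintegral_tsum fun n => (hi n).1.aemeasurable.ennreal_ofReal]
  have e2 : ∀ n, ∫⁻ v, ENNReal.ofReal (G n v) = ENNReal.ofReal (∫ v, G n v) := fun n =>
    (ofReal_integral_eq_lintegral_ofReal (hi n) (Eventually.of_forall fun v => h0 n v)).symm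
  simp only [e2]
  rw [← ENNReal.ofReal_tsum_of_nonneg (fun n => integral_nonneg fun v => h0 n v) hs]
  exact ENNReal.ofReal_lt_top

variable {q : ℕ} [NeZero q]

open Classical in
/-- the coefficients -/
noncomputable def cf (q : ℕ) (n : ℕ) : ℝ :=
  if (n : ZMod q) = 1 then ArithmeticFunction.vonMangoldt n * (n : ℝ) ^ (-(1 / 2) : ℝ) else 0

lemma cf_nonneg (n : ℕ) : 0 ≤ cf q n := by
  unfold cf
  split_ifs
  · exact mul_nonneg ArithmeticFunction.vonMangoldt_nonneg (Real.rpow_nonneg (Nat.cast_nonneg _) _)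
  · exact le_rfl

open Classical in
lemma cf_tn (v : ℝ) (n : ℕ) : (if (n : ZMod q) = 1 then tn v n else 0) =
    cf q n * Real.exp (-((v - Real.log n) ^ 2) / 2) := by
  unfold cf tn
  split_ifs
  · rfl
  · rw [zero_mul]

/-- the terms of the Dirichlet series -/
lemma cf_term (w : ℂ) (n : ℕ) : (cf q n : ℂ) * Complex.exp (-(w * (Real.log n : ℝ))) =
    LSeries.term (fun n => ((ArithmeticFunction.vonMangoldt.residueClass (1 : ZMod q) n : ℝ) : ℂ)) (1 / 2 + w) n := by
  classical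
  rcases Nat.eq_zero_or_pos n with h | h
  · subst h
    rw [LSeries.term_zero]
    unfold cf
    simp
  · rw [LSeries.term_of_ne_zero h.ne']
    have hn : (n : ℂ) ≠ 0 := by exact_mod_cast h.ne'
    have hnr : (0:ℝ) < n := by exact_mod_cast h
    have e1 : (n : ℂ) ^ (1 / 2 + w) = (((n : ℝ) ^ (1 / 2 : ℝ) : ℝ) : ℂ) * Complex.exp (w * (Real.log n : ℝ)) := by
      rw [Complex.cpow_add _ _ hn, Complex.ofReal_cpow hnr.le]
      congr 1
      · push_cast; rfl
      · rw [Complex.cpow_def_of_ne_zero hn, Complex.natCast_log]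
        congr 1
        ring
    rw [e1, Complex.exp_neg]
    unfold cf ArithmeticFunction.vonMangoldt.residueClass
    rw [Set.indicator_apply]
    have e2 : (n : ℝ) ^ (-(1 / 2) : ℝ) = ((n : ℝ) ^ (1 / 2 : ℝ))⁻¹ := Real.rpow_neg hnr.le _
    have e3 : (((n : ℝ) ^ (1 / 2 : ℝ) : ℝ) : ℂ) ≠ 0 := by
      have : (n : ℝ) ^ (1 / 2 : ℝ) ≠ 0 := (Real.rpow_pos_of_pos hnr _).ne'
      exact_mod_cast this
    have e4 := Complex.exp_ne_zero (w * (Real.log n : ℝ))
    by_cases h1 : (n : ZMod q) = 1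
    · rw [if_pos h1, if_pos (show n ∈ {n : ℕ | (n : ZMod q) = 1} from h1), e2]
      rw [Complex.ofReal_mul, Complex.ofReal_inv]
      generalize (((n : ℝ) ^ (1 / 2 : ℝ) : ℝ) : ℂ) = P
      generalize Complex.exp (w * (Real.log n : ℝ)) = R
      rw [div_eq_mul_inv, mul_inv, mul_assoc]
    · rw [if_neg h1, if_neg (show n ∉ {n : ℕ | (n : ZMod q) = 1} from h1)]
      simp

lemma cf_summ {x : ℝ} (hx : 1 / 2 < x) : Summable fun n : ℕ => cf q n * Real.exp (-(x * Real.log n)) := by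
  have h1 := ArithmeticFunction.LSeriesSummable_vonMangoldt (s := ((1 / 2 + x : ℝ) : ℂ))
    (by rw [Complex.ofReal_re]; linarith)
  have h2 := h1.norm
  refine Summable.of_nonneg_of_le (fun n => mul_nonneg (cf_nonneg n) (Real.exp_pos _).le) (fun n => ?_) h2
  have h3 := cf_term (q := q) (x : ℂ) n
  have e : ((cf q n * Real.exp (-(x * Real.log n)) : ℝ) : ℂ) = (cf q n : ℂ) * Complex.exp (-((x : ℂ) * (Real.log n : ℝ))) := by
    push_cast; rfl
  rw [← e] at h3
  have h4 : cf q n * Real.exp (-(x * Real.log n)) = ‖((cf q n * Real.exp (-(x * Real.log n)) : ℝ) : ℂ)‖ := by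
    rw [Complex.norm_real, Real.norm_of_nonneg (mul_nonneg (cf_nonneg n) (Real.exp_pos _).le)]
  rw [h4, h3]
  have e5 : ((1 / 2 + x : ℝ) : ℂ) = 1 / 2 + (x : ℂ) := by push_cast; ring
  rw [e5]
  rw [LSeries.norm_term_eq, LSeries.norm_term_eq]
  split_ifs with h
  · exact le_rfl
  · refine div_le_div_of_nonneg_right ?_ (Real.rpow_nonneg (Nat.cast_nonneg _) _)
    rw [Complex.norm_real, Complex.norm_real, Real.norm_of_nonneg (ArithmeticFunction.vonMangoldt.residueClass_nonneg _ n),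
      Real.norm_of_nonneg ArithmeticFunction.vonMangoldt_nonneg]
    exact ArithmeticFunction.vonMangoldt.residueClass_le _ n

/-- the prime side without the main term -/
noncomputable def Qf (q : ℕ) [NeZero q] (v : ℝ) : ℝ :=
  (Real.sqrt (2 * Real.pi))⁻¹ * (q.totient * ∑' n : ℕ, cf q n * Real.exp (-((v - Real.log n) ^ 2) / 2))

lemma Aq_eq (v : ℝ) : Aq q v = Qf q v - Real.exp (v / 2 + 1 / 8) := by
  unfold Aq Qf
  simp only [← cf_tn]

lemma cfv_summ (v : ℝ) : Summable fun n : ℕ => cf q n * Real.exp (-((v - Real.log n) ^ 2) / 2) := by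
  refine (one_summ (q := q) v).congr fun n => cf_tn v n

lemma Qf_nonneg (v : ℝ) : 0 ≤ Qf q v := by
  unfold Qf
  have h : 0 ≤ ∑' n : ℕ, cf q n * Real.exp (-((v - Real.log n) ^ 2) / 2) :=
    tsum_nonneg fun n => mul_nonneg (cf_nonneg n) (Real.exp_pos _).le
  positivity

lemma Qf_cont : Continuous (Qf q) := by
  have h : Qf q = fun v => Aq q v + Real.exp (v / 2 + 1 / 8) := by
    funext v
    rw [Aq_eq]
    ring
  rw [h]
  have := Aq_cont (q := q)
  fun_prop

lemma tn_int (n : ℕ) (x : ℝ) : Integrable (fun v : ℝ => cf q n * Real.exp (-((v - Real.log n) ^ 2) / 2) * Real.exp (-(x * v))) := by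
  have h := (gint_real x (Real.log n)).1.const_mul (cf q n)
  refine h.congr (Eventually.of_forall fun v => ?_)
  simp only []
  ring

lemma sum_int {x : ℝ} (hx : 1 / 2 < x) : Summable fun n : ℕ => ∫ v : ℝ, cf q n * Real.exp (-((v - Real.log n) ^ 2) / 2) * Real.exp (-(x * v)) := by
  have h := (cf_summ (q := q) hx).mul_left (Real.sqrt (2 * Real.pi) * Real.exp (x ^ 2 / 2))
  refine h.congr fun n => ?_
  have e : ∀ v : ℝ, cf q n * Real.exp (-((v - Real.log n) ^ 2) / 2) * Real.exp (-(x * v)) =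
      cf q n * (Real.exp (-(x * v)) * Real.exp (-((v - Real.log n) ^ 2) / 2)) := fun v => by ring
  simp only [e]
  rw [integral_const_mul, (gint_real x (Real.log n)).2, sub_eq_add_neg, Real.exp_add]
  ring

/-- integrability on the line -/
lemma Qf_int {x : ℝ} (hx : 1 / 2 < x) : Integrable (fun v : ℝ => Qf q v * Real.exp (-(x * v))) := by
  have h1 : Integrable (fun v : ℝ => ∑' n : ℕ, cf q n * Real.exp (-((v - Real.log n) ^ 2) / 2) * Real.exp (-(x * v))) := by
    refine integrable_tsum (fun n v => ?_) (fun n => tn_int n x) (sum_int hx) (fun v => (cfv_summ v).mul_right _) ?_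
    · exact mul_nonneg (mul_nonneg (cf_nonneg n) (Real.exp_pos _).le) (Real.exp_pos _).le
    · refine Measurable.aestronglyMeasurable ?_
      exact Measurable.tsum fun n => by fun_prop
  have h2 := h1.const_mul ((Real.sqrt (2 * Real.pi))⁻¹ * q.totient)
  refine h2.congr (Eventually.of_forall fun v => ?_)
  simp only []
  unfold Qf
  rw [tsum_mul_right]
  ring

end Pool.Agent.X113.HL
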