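import Pool.Agent.X113.HL2

set_option autoImplicit false
set_option maxHeartbeats 2000000
set_option linter.unusedSectionVars false

/-! The Laplace transform of the prime side in terms of the L-functions. -/

open MeasureTheory ProbabilityTheory Filter Topology Set
open Pool.Agent.W263.BSD

namespace Pool.Agent.X113.HL

open Pool.Agent.X113.HQ

variable {q : ℕ} [NeZero q]

/-- the Dirichlet series of the prime powers congruent to one -/
noncomputable def LS (q : ℕ) (s : ℂ) : ℂ :=
  LSeries (fun n => ((ArithmeticFunction.vonMangoldt.residueClass (1 : ZMod q) n : ℝ) : ℂ)) s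

lemma whole {w : ℂ} (hw : 1 / 2 < w.re) : ∫ v : ℝ, (Qf q v : ℂ) * Complex.exp (-(w * v)) =
    q.totient * Complex.exp (w ^ 2 / 2) * LS q (1 / 2 + w) := by
  obtain ⟨F, hF⟩ : ∃ F : ℕ → ℝ → ℂ, F = fun n v => ((cf q n * Real.exp (-((v - Real.log n) ^ 2) / 2) : ℝ) : ℂ) * Complex.exp (-(w * v)) :=
    ⟨_, rfl⟩
  have hF1 : ∀ n v, F n v = (cf q n : ℂ) * (Complex.exp (-(w * v)) * ((Real.exp (-((v - Real.log n) ^ 2) / 2) : ℝ) : ℂ)) := by
    intro n v
    rw [hF]
    simp only []
    rw [Complex.ofReal_mul]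
    ring
  have hint : ∀ n, Integrable (F n) := by
    intro n
    have h := (gint w (Real.log n)).1.const_mul (cf q n : ℂ)
    exact h.congr (Eventually.of_forall fun v => (hF1 n v).symm)
  have hval : ∀ n, ∫ v, F n v = (Real.sqrt (2 * Real.pi) : ℂ) * Complex.exp (w ^ 2 / 2) *
      ((cf q n : ℂ) * Complex.exp (-(w * (Real.log n : ℝ)))) := by
    intro n
    simp only [hF1]
    rw [integral_const_mul, (gint w (Real.log n)).2, sub_eq_add_neg, Complex.exp_add]
    ring
  have hsum : Summable fun n => ∫ v, ‖F n v‖ := by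
    refine (sum_int (q := q) hw).congr fun n => ?_
    refine integral_congr_ae (Eventually.of_forall fun v => ?_)
    simp only []
    rw [hF]
    simp only []
    rw [norm_mul, Complex.norm_real, Real.norm_of_nonneg (mul_nonneg (cf_nonneg n) (Real.exp_pos _).le),
      Complex.norm_exp]
    congr 2
    simp
  have h1 := integral_tsum_of_summable_integral_norm hint hsum
  have e1 : ∀ v : ℝ, (Qf q v : ℂ) * Complex.exp (-(w * v)) =
      ((((Real.sqrt (2 * Real.pi))⁻¹ * q.totient : ℝ)) : ℂ) * ∑' n, F n v := by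
    intro v
    rw [hF]
    simp only []
    rw [tsum_mul_right, ← Complex.ofReal_tsum, ← mul_assoc, ← Complex.ofReal_mul]
    congr 2
    unfold Qf
    ring
  simp only [e1]
  rw [integral_const_mul, ← h1]
  simp only [hval]
  rw [tsum_mul_left]
  have e2 : ∑' n : ℕ, (cf q n : ℂ) * Complex.exp (-(w * (Real.log n : ℝ))) = LS q (1 / 2 + w) := by
    unfold LS LSeries
    exact tsum_congr fun n => cf_term w n
  rw [e2]
  have h2 : (Real.sqrt (2 * Real.pi) : ℂ) ≠ 0 := by
    have : Real.sqrt (2 * Real.pi) ≠ 0 := (Real.sqrt_pos.2 (by positivity)).ne'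
    exact_mod_cast this
  push_cast
  field_simp

lemma Qf_meas : Measurable (Qf q) := Qf_cont.measurable

lemma Qf_LInt {x : ℝ} (hx : 1 / 2 < x) : LInt (Qf q) x := (Qf_int hx).integrableOn

lemma Qn_LInt (x : ℝ) : LInt (fun u => Qf q (-u)) x := by
  have h := (Qf_int (q := q) (x := max 1 (-x)) (lt_of_lt_of_le (by norm_num) (le_max_left _ _))).comp_neg
  have h1 : LInt (fun u => Qf q (-u)) (-(max 1 (-x))) := by
    unfold LInt
    refine h.integrableOn.congr_fun (fun u _ => ?_) measurableSet_Ioi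
    simp only []
    congr 2
    ring
  refine h1.mono (Qf_meas.comp measurable_neg) ?_
  have := le_max_right 1 (-x)
  linarith

lemma Qf_intC {w : ℂ} (hw : 1 / 2 < w.re) : Integrable (fun v : ℝ => (Qf q v : ℂ) * Complex.exp (-(w * v))) := by
  refine (Qf_int (q := q) hw).mono ?_ (Eventually.of_forall fun v => ?_)
  · refine Continuous.aestronglyMeasurable ?_
    have := Qf_cont (q := q)
    fun_prop
  · rw [norm_mul, norm_mul, Complex.norm_real, Complex.norm_exp, Real.norm_of_nonneg (Real.exp_pos _).le]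
    simp

lemma lapC_Qf {w : ℂ} (hw : 1 / 2 < w.re) : lapC (Qf q) w =
    q.totient * Complex.exp (w ^ 2 / 2) * LS q (1 / 2 + w) - lapC (fun u => Qf q (-u)) (-w) := by
  rw [← whole hw, eq_sub_iff_add_eq]
  have h1 := integral_add_compl (s := Ioi (0:ℝ)) measurableSet_Ioi (Qf_intC (q := q) hw)
  rw [← h1]
  congr 1
  rw [compl_Ioi]
  have h2 := integral_comp_neg_Ioi (0:ℝ) (fun v : ℝ => (Qf q v : ℂ) * Complex.exp (-(w * v)))
  rw [neg_zero] at h2
  rw [← h2]
  unfold lapC
  refine setIntegral_congr_fun measurableSet_Ioi fun u _ => ?_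
  simp only []
  congr 2
  push_cast
  ring

/-! ### the L-functions -/

open Classical in
/-- the L-functions without the pole -/
noncomputable def Lt (χ : DirichletCharacter ℂ q) : ℂ → ℂ :=
  if χ = 1 then DirichletCharacter.LFunctionTrivChar₁ q else DirichletCharacter.LFunction χ

lemma Lt_diff (χ : DirichletCharacter ℂ q) : Differentiable ℂ (Lt χ) := by
  classical
  unfold Lt
  split_ifs with h
  · exact DirichletCharacter.differentiable_LFunctionTrivChar₁ q
  · exact DirichletCharacter.differentiable_LFunction h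

open Classical in
lemma Lt_eq (χ : DirichletCharacter ℂ q) {s : ℂ} (hs : s ≠ 1) :
    Lt χ s = (if χ = 1 then s - 1 else 1) * DirichletCharacter.LFunction χ s := by
  unfold Lt
  split_ifs with h
  · subst h
    show Function.update _ _ _ _ = _
    rw [Function.update_of_ne hs]
  · rw [one_mul]

lemma Lt_ne {χ : DirichletCharacter ℂ q} {s : ℂ} (hs : s ≠ 1) : Lt χ s ≠ 0 ↔ DirichletCharacter.LFunction χ s ≠ 0 := by
  classical
  rw [Lt_eq χ hs]
  have : (if χ = 1 then s - 1 else 1) ≠ 0 := by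
    split_ifs
    · exact sub_ne_zero.2 hs
    · exact one_ne_zero
  constructor
  · exact fun h h1 => h (by rw [h1, mul_zero])
  · exact fun h => mul_ne_zero this h

open Classical in
lemma Lt_log (χ : DirichletCharacter ℂ q) {s : ℂ} (hs : 1 < s.re) :
    logDeriv (Lt χ) s = (if χ = 1 then 1 / (s - 1) else 0) + logDeriv (DirichletCharacter.LFunction χ) s := by
  have hs1 : s ≠ 1 := by rintro rfl; simp at hs
  have hL := DirichletCharacter.LFunction_ne_zero_of_one_le_re χ (Or.inr hs1) hs.le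
  unfold Lt
  split_ifs with h
  · subst h
    rw [logDeriv_apply, logDeriv_apply, DirichletCharacter.deriv_LFunctionTrivChar₁_apply_of_ne_one _ hs1]
    have e : DirichletCharacter.LFunctionTrivChar₁ q s = (s - 1) * DirichletCharacter.LFunction (1 : DirichletCharacter ℂ q) s := by
      show Function.update _ _ _ _ = _
      rw [Function.update_of_ne hs1]
    rw [e]
    have h1 : s - 1 ≠ 0 := sub_ne_zero.2 hs1
    show ((s - 1) * deriv (DirichletCharacter.LFunction (1 : DirichletCharacter ℂ q)) s + DirichletCharacter.LFunction (1 : DirichletCharacter ℂ q) s) / _ = _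
    field_simp
    ring
  · rw [zero_add]

/-- the product of all the L-functions -/
noncomputable def Lf (q : ℕ) [NeZero q] (z : ℂ) : ℂ := ∏ χ : DirichletCharacter ℂ q, Lt χ (1 / 2 + z)

lemma Lf_diff : Differentiable ℂ (Lf q) := by
  intro z
  unfold Lf
  refine DifferentiableAt.fun_finsetProd fun χ _ => ?_
  exact DifferentiableAt.comp (g := Lt χ) z (Lt_diff χ _) (by fun_prop)

lemma Lf_ne {z : ℂ} (hz : 1 / 2 + z ≠ 1) : Lf q z ≠ 0 ↔ ∀ χ : DirichletCharacter ℂ q, DirichletCharacter.LFunction χ (1 / 2 + z) ≠ 0 := by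
  unfold Lf
  rw [Finset.prod_ne_zero_iff]
  exact ⟨fun h χ => (Lt_ne hz).1 (h χ (Finset.mem_univ _)), fun h χ _ => (Lt_ne hz).2 (h χ)⟩

lemma half_re {z : ℂ} (hz : 1 / 2 < z.re) : 1 < (1 / 2 + z).re := by
  rw [Complex.add_re]
  have : (1 / 2 : ℂ).re = 1 / 2 := by norm_num
  rw [this]; linarith

lemma Lf_ne_right {z : ℂ} (hz : 1 / 2 < z.re) : Lf q z ≠ 0 := by
  have h1 := half_re hz
  have h2 : 1 / 2 + z ≠ 1 := by
    intro h
    rw [h] at h1
    simp at h1
  rw [Lf_ne h2]
  exact fun χ => DirichletCharacter.LFunction_ne_zero_of_one_le_re χ (Or.inr h2) h1.le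

lemma Lf_log {z : ℂ} (hz : 1 / 2 < z.re) : deriv (Lf q) z / Lf q z =
    1 / (z - 1 / 2) + ∑ χ : DirichletCharacter ℂ q, deriv (DirichletCharacter.LFunction χ) (1 / 2 + z) / DirichletCharacter.LFunction χ (1 / 2 + z) := by
  classical
  have h1 := half_re hz
  have h2 : 1 / 2 + z ≠ 1 := by
    intro h
    rw [h] at h1
    simp at h1
  have h3 : ∀ χ : DirichletCharacter ℂ q, Lt χ (1 / 2 + z) ≠ 0 := fun χ =>
    (Lt_ne h2).2 (DirichletCharacter.LFunction_ne_zero_of_one_le_re χ (Or.inr h2) h1.le)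
  have h4 := logDeriv_prod (s := (Finset.univ : Finset (DirichletCharacter ℂ q))) (f := fun χ z => Lt χ (1 / 2 + z))
    (x := z) (fun χ _ => h3 χ) (fun χ _ => DifferentiableAt.comp (g := Lt χ) z (Lt_diff χ _) (by fun_prop))
  have h5 : ∀ χ : DirichletCharacter ℂ q, logDeriv (fun z => Lt χ (1 / 2 + z)) z =
      (if χ = 1 then 1 / (z - 1 / 2) else 0) + logDeriv (DirichletCharacter.LFunction χ) (1 / 2 + z) := by
    intro χ
    have e : logDeriv (fun z => Lt χ (1 / 2 + z)) z = logDeriv (Lt χ) (1 / 2 + z) := by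
      rw [logDeriv_apply, logDeriv_apply]
      congr 1
      exact deriv_comp_const_add (Lt χ) (1 / 2) z
    rw [e, Lt_log χ h1]
    congr 2
    congr 1
    ring
  simp only [h5] at h4
  rw [Finset.sum_add_distrib, Finset.sum_ite_eq' Finset.univ (1 : DirichletCharacter ℂ q), if_pos (Finset.mem_univ _)] at h4
  exact h4

lemma LS_eq {z : ℂ} (hz : 1 / 2 < z.re) : q.totient * LS q (1 / 2 + z) = 1 / (z - 1 / 2) - deriv (Lf q) z / Lf q z := by
  have h1 := ArithmeticFunction.vonMangoldt.LSeries_residueClass_eq (q := q) (a := 1) isUnit_one (half_re hz)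
  have h2 : (q.totient : ℂ) ≠ 0 := by
    have := (Nat.totient_pos.2 (NeZero.pos q)).ne'
    exact_mod_cast this
  have h3 : ∀ χ : DirichletCharacter ℂ q, χ ((1 : ZMod q)⁻¹) = 1 := fun χ => by
    rw [ZMod.inv_one, map_one]
  simp only [h3, one_mul] at h1
  rw [Lf_log hz]
  unfold LS
  rw [h1]
  field_simp
  ring

/-! ### the main term -/

lemma main_LInt {x : ℝ} (hx : 1 / 2 < x) : LInt (fun v => Real.exp (v / 2 + 1 / 8)) x := by
  unfold LInt
  have h1 := (integrableOn_exp_mul_Ioi (a := 1 / 2 - x) (by linarith) 0).const_mul (Real.exp (1 / 8))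
  have h2 : IntegrableOn (fun u : ℝ => Real.exp (1 / 8) * Real.exp ((1 / 2 - x) * u)) (Ioi 0) := h1
  refine h2.congr_fun (fun u _ => ?_) measurableSet_Ioi
  simp only []
  rw [← Real.exp_add, ← Real.exp_add]; congr 1; ring

lemma main_lapC {w : ℂ} (hw : 1 / 2 < w.re) : lapC (fun v => Real.exp (v / 2 + 1 / 8)) w = Complex.exp (1 / 8) / (w - 1 / 2) := by
  unfold lapC
  have e : ∀ u : ℝ, ((Real.exp (u / 2 + 1 / 8) : ℝ) : ℂ) * Complex.exp (-(w * u)) =
      Complex.exp (1 / 8) * Complex.exp ((1 / 2 - w) * u) := by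
    intro u
    rw [Complex.ofReal_exp, ← Complex.exp_add, ← Complex.exp_add]
    congr 1
    push_cast
    ring
  simp only [e]
  have hre : ((1 / 2 : ℂ) - w).re < 0 := by
    rw [Complex.sub_re]
    have : (1 / 2 : ℂ).re = 1 / 2 := by norm_num
    rw [this]; linarith
  rw [integral_const_mul, integral_exp_mul_complex_Ioi hre]
  have h1 : w - 1 / 2 ≠ 0 := by
    intro h
    have h2 := congrArg Complex.re h
    rw [Complex.sub_re, Complex.zero_re] at h2
    rw [Complex.sub_re] at hre
    linarith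
  have h2 : (1 / 2 : ℂ) - w ≠ 0 := by
    intro h
    apply h1
    linear_combination -h
  rw [Complex.ofReal_zero, mul_zero, Complex.exp_zero]
  have e3 : (1 / 2 : ℂ) - w = -(w - 1 / 2) := by ring
  rw [e3]
  field_simp

/-- the correction -/
noncomputable def Ec (q : ℕ) [NeZero q] (z : ℂ) : ℂ :=
  dslope (fun z : ℂ => Complex.exp (z ^ 2 / 2)) (1 / 2) z - lapC (fun u => Qf q (-u)) (-z)

lemma Ec_diff (z : ℂ) : DifferentiableAt ℂ (Ec q) z := by
  unfold Ec
  refine DifferentiableAt.sub ?_ ?_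
  · have h1 : DifferentiableOn ℂ (dslope (fun z : ℂ => Complex.exp (z ^ 2 / 2)) (1 / 2)) univ := by
      rw [Complex.differentiableOn_dslope univ_mem]
      exact fun z _ => (by fun_prop : DifferentiableAt ℂ (fun z : ℂ => Complex.exp (z ^ 2 / 2)) z).differentiableWithinAt
    exact (h1 z (mem_univ z)).differentiableAt univ_mem
  · exact DifferentiableAt.comp (g := lapC (fun u => Qf q (-u))) z
      (lapC_differentiableAt (Qf_meas.comp measurable_neg) (w0 := (-z).re - 1) (fun w _ => Qn_LInt w) (by linarith))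
      differentiable_neg.differentiableAt

lemma nA_meas : Measurable fun v => -(Aq q v) := (Aq_cont (q := q)).measurable.neg

lemma nA_eq : (fun v => -(Aq q v)) = fun v => Real.exp (v / 2 + 1 / 8) - Qf q v := by
  funext v
  rw [Aq_eq]
  ring

lemma nA_LInt {x : ℝ} (hx : 1 / 2 < x) : LInt (fun v => -(Aq q v)) x := by
  rw [nA_eq]
  exact (main_LInt hx).sub (Qf_LInt hx)

/-- **the functional identity** -/
theorem nA_id {z : ℂ} (hz : 1 / 2 < z.re) :
    Lf q z * (lapC (fun v => -(Aq q v)) z + Ec q z) = Complex.exp (z ^ 2 / 2) * deriv (Lf q) z := by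
  have hm : Measurable fun v : ℝ => Real.exp (v / 2 + 1 / 8) := by fun_prop
  have h1 : lapC (fun v => -(Aq q v)) z = lapC (fun v => Real.exp (v / 2 + 1 / 8)) z - lapC (Qf q) z := by
    rw [nA_eq]
    unfold lapC
    rw [← integral_sub (LInt.complex hm (main_LInt hz)) (LInt.complex Qf_meas (Qf_LInt hz))]
    refine setIntegral_congr_fun measurableSet_Ioi fun u _ => ?_
    simp only []
    push_cast
    ring
  have hne : z ≠ 1 / 2 := by
    rintro rfl
    norm_num at hz
  have h2 : dslope (fun z : ℂ => Complex.exp (z ^ 2 / 2)) (1 / 2) z = (Complex.exp (z ^ 2 / 2) - Complex.exp (1 / 8)) / (z - 1 / 2) := by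
    rw [dslope_of_ne _ hne, slope_def_field]
    congr 3
    norm_num
  have h3 := LS_eq (q := q) hz
  have h4 := Lf_ne_right (q := q) hz
  have h5 : z - 1 / 2 ≠ 0 := sub_ne_zero.2 hne
  rw [h1, main_lapC hz, lapC_Qf hz]
  unfold Ec
  rw [h2]
  have e1 : (q.totient : ℂ) * Complex.exp (z ^ 2 / 2) * LS q (1 / 2 + z) = Complex.exp (z ^ 2 / 2) * (1 / (z - 1 / 2) - deriv (Lf q) z / Lf q z) := by
    rw [← h3]; ring
  rw [e1]
  generalize lapC (fun u => Qf q (-u)) (-z) = N
  field_simp
  ring

end Pool.Agent.X113.HL
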