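import Pool.Agent.X113.HL3

set_option autoImplicit false
set_option maxHeartbeats 2000000
set_option linter.unusedSectionVars false

/-! The exponential mean is bounded if and only if the Riemann hypothesis modulo `q` holds. -/

open MeasureTheory ProbabilityTheory Filter Topology Set
open scoped ComplexConjugate
open Pool.Agent.W263.BSD

namespace Pool.Agent.X113.HL

open Pool.Agent.X113.HQ

/-- a bound for the mean implies the convergence of the Laplace integral -/
lemma LInt_of_mean {g : ℝ → ℝ} (hg : Continuous g) (h0 : ∀ v, 0 ≤ g v) {C : ℝ}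
    (h : ∀ᶠ V : ℝ in atTop, (∫ v in (0:ℝ)..V, g v) ≤ C * V) {w : ℝ} (hw : 0 < w) : LInt g w := by
  obtain ⟨G, hG⟩ : ∃ G : ℝ → ℝ, G = fun V => ∫ v in (0:ℝ)..V, g v := ⟨_, rfl⟩
  have hGd : ∀ v, HasDerivAt G (g v) v := by
    intro v
    rw [hG]
    exact intervalIntegral.integral_hasDerivAt_right (hg.intervalIntegrable _ _)
      (hg.stronglyMeasurableAtFilter _ _) hg.continuousAt
  have hG0 : G 0 = 0 := by rw [hG]; simp
  have hGm : ∀ a b : ℝ, a ≤ b → G a ≤ G b := by
    intro a b hab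
    have h1 : G b - G a = ∫ v in a..b, g v := by
      rw [hG]
      exact intervalIntegral.integral_interval_sub_left (hg.intervalIntegrable _ _) (hg.intervalIntegrable _ _)
    have h2 : 0 ≤ ∫ v in a..b, g v := intervalIntegral.integral_nonneg hab fun v _ => h0 v
    linarith
  obtain ⟨V1, hV1⟩ := eventually_atTop.1 h
  obtain ⟨V0, hV0⟩ : ∃ V0 : ℝ, V0 = max V1 1 := ⟨_, rfl⟩
  have hV0p : 1 ≤ V0 := by rw [hV0]; exact le_max_right _ _
  have hV01 : V1 ≤ V0 := by rw [hV0]; exact le_max_left _ _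
  have hb : ∀ v, 0 ≤ v → G v ≤ |C| * (V0 + v) := by
    intro v hv
    have hC := le_abs_self C
    have hC0 := abs_nonneg C
    rcases le_total V0 v with h1 | h1
    · have h2 := hV1 v (hV01.trans h1)
      have h3 : G v ≤ C * v := by rw [hG]; exact h2
      nlinarith
    · have h2 := hV1 V0 hV01
      have h3 : G V0 ≤ C * V0 := by rw [hG]; exact h2
      have h4 := hGm v V0 h1
      nlinarith
  obtain ⟨K, hK⟩ : ∃ K : ℝ, K = |C| * (V0 + 2 / w) := ⟨_, rfl⟩
  have hK0 : 0 ≤ K := by rw [hK]; positivity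
  have hb2 : ∀ v, 0 ≤ v → G v ≤ K * Real.exp (w * v / 2) := by
    intro v hv
    refine (hb v hv).trans ?_
    rw [hK, mul_assoc]
    refine mul_le_mul_of_nonneg_left ?_ (abs_nonneg C)
    have h1 := Real.add_one_le_exp (w * v / 2)
    have h2 : 1 ≤ Real.exp (w * v / 2) := Real.one_le_exp (by positivity)
    have h3 : v ≤ 2 / w * Real.exp (w * v / 2) := by
      rw [div_mul_eq_mul_div, le_div_iff₀ hw]
      linarith
    nlinarith
  have key : ∀ V : ℝ, 0 ≤ V → (∫ v in (0:ℝ)..V, ‖g v * Real.exp (-(w * v))‖) ≤ 3 * K := by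
    intro V hV
    obtain ⟨J, hJ⟩ : ∃ J : ℝ → ℝ, J = fun v => G v * Real.exp (-(w * v)) - 2 * K * Real.exp (-(w * v / 2)) := ⟨_, rfl⟩
    have hJd : ∀ v, HasDerivAt J (g v * Real.exp (-(w * v)) + G v * (Real.exp (-(w * v)) * (-w)) -
        2 * K * (Real.exp (-(w * v / 2)) * (-(w / 2)))) v := by
      intro v
      rw [hJ]
      have e1 : HasDerivAt (fun v => Real.exp (-(w * v))) (Real.exp (-(w * v)) * (-w)) v := by
        have := ((hasDerivAt_id v).const_mul w).neg.exp
        simpa using this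
      have e2 : HasDerivAt (fun v => Real.exp (-(w * v / 2))) (Real.exp (-(w * v / 2)) * (-(w / 2))) v := by
        have := (((hasDerivAt_id v).const_mul w).div_const 2).neg.exp
        simpa using this
      exact ((hGd v).mul e1).sub (e2.const_mul (2 * K))
    have hGc : Continuous G := continuous_iff_continuousAt.2 fun v => (hGd v).continuousAt
    have hc : Continuous fun v => g v * Real.exp (-(w * v)) + G v * (Real.exp (-(w * v)) * (-w)) -
        2 * K * (Real.exp (-(w * v / 2)) * (-(w / 2))) := by fun_prop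
    have h1 := intervalIntegral.integral_eq_sub_of_hasDerivAt (a := 0) (b := V) (fun v _ => hJd v) (hc.intervalIntegrable _ _)
    have h2 : (∫ v in (0:ℝ)..V, ‖g v * Real.exp (-(w * v))‖) ≤ ∫ v in (0:ℝ)..V, (g v * Real.exp (-(w * v)) + G v * (Real.exp (-(w * v)) * (-w)) -
        2 * K * (Real.exp (-(w * v / 2)) * (-(w / 2)))) := by
      refine intervalIntegral.integral_mono_on hV ?_ (hc.intervalIntegrable _ _) fun v hv => ?_
      · have : Continuous fun v => ‖g v * Real.exp (-(w * v))‖ := by fun_prop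
        exact this.intervalIntegrable _ _
      · rw [Real.norm_of_nonneg (mul_nonneg (h0 v) (Real.exp_pos _).le)]
        have h3 := hb2 v hv.1
        have h4 : Real.exp (w * v / 2) * Real.exp (-(w * v)) = Real.exp (-(w * v / 2)) := by
          rw [← Real.exp_add]; congr 1; ring
        have h5 : G v * Real.exp (-(w * v)) ≤ K * Real.exp (-(w * v / 2)) := by
          rw [← h4, ← mul_assoc]
          exact mul_le_mul_of_nonneg_right h3 (Real.exp_pos _).le
        nlinarith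
    refine h2.trans ?_
    rw [h1, hJ]
    simp only []
    rw [hG0]
    have h3 := hb2 V hV
    have h4 : Real.exp (w * V / 2) * Real.exp (-(w * V)) = Real.exp (-(w * V / 2)) := by
      rw [← Real.exp_add]; congr 1; ring
    have h5 : G V * Real.exp (-(w * V)) ≤ K * Real.exp (-(w * V / 2)) := by
      rw [← h4, ← mul_assoc]
      exact mul_le_mul_of_nonneg_right h3 (Real.exp_pos _).le
    have h6 : Real.exp (-(w * V / 2)) ≤ 1 := by
      rw [Real.exp_le_one_iff]
      have : 0 ≤ w * V / 2 := by positivity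
      linarith
    have h7 : 0 < Real.exp (-(w * V / 2)) := Real.exp_pos _
    have e8 : Real.exp (-(w * 0 / 2)) = 1 := by simp
    rw [e8]
    nlinarith
  unfold LInt
  refine integrableOn_Ioi_of_intervalIntegral_norm_bounded (3 * K) 0 (l := atTop) (b := fun V : ℝ => V) (fun V => ?_) tendsto_id ?_
  · have : Continuous fun v => g v * Real.exp (-(w * v)) := by fun_prop
    exact this.integrableOn_Ioc
  · filter_upwards [eventually_ge_atTop (0:ℝ)] with V hV
    exact key V hV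

variable {q : ℕ} [NeZero q]

/-- **a bounded exponential mean implies the Riemann hypothesis modulo `q`** -/
theorem GRH_of_mean {lam C : ℝ} (hlam : 0 < lam)
    (h : ∀ᶠ V : ℝ in atTop, (∫ v in (0:ℝ)..V, Real.exp (-(lam * Aq q v))) / V ≤ C) : GRH q := by
  have hc : Continuous fun v => lam⁻¹ * Real.exp (-(lam * Aq q v)) := by
    have := Aq_cont (q := q)
    fun_prop
  have hm : ∀ᶠ V : ℝ in atTop, (∫ v in (0:ℝ)..V, lam⁻¹ * Real.exp (-(lam * Aq q v))) ≤ (lam⁻¹ * C) * V := by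
    filter_upwards [h, eventually_gt_atTop (0:ℝ)] with V h1 hV
    rw [intervalIntegral.integral_const_mul, mul_assoc]
    refine mul_le_mul_of_nonneg_left ?_ (inv_pos.2 hlam).le
    exact (div_le_iff₀ hV).1 h1
  have hup : ∀ w : ℝ, 0 < w → LInt (fun u => max (-(Aq q u)) 0) w := by
    intro w hw
    have h1 := LInt_of_mean hc (fun v => by positivity) hm hw
    unfold LInt at *
    refine Integrable.mono h1 ?_ (Eventually.of_forall fun u => ?_)
    · exact ((nA_meas.max measurable_const).mul (by fun_prop)).aestronglyMeasurable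
    · rw [norm_mul, norm_mul]
      refine mul_le_mul_of_nonneg_right ?_ (norm_nonneg _)
      rw [Real.norm_of_nonneg (le_max_right _ _), Real.norm_of_nonneg (by positivity)]
      refine max_le ?_ (by positivity)
      show -(Aq q u) ≤ lam⁻¹ * Real.exp (-(lam * Aq q u))
      rw [inv_mul_eq_div, le_div_iff₀ hlam]
      have := Real.add_one_le_exp (-(lam * Aq q u))
      linarith
  have hmain := core (f := fun v => -(Aq q v)) (Lf := Lf q) (E := Ec q) (c0 := 1 / 2) nA_meas Lf_diff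
    (fun z _ => Ec_diff z) (by norm_num) (fun w hw => nA_LInt hw) (fun z hz => nA_id hz)
    (fun z hz => Lf_ne_right hz) hup
  have hright : ∀ (χ : DirichletCharacter ℂ q) (s : ℂ), 0 < s.re → s.re < 1 →
      DirichletCharacter.LFunction χ s = 0 → s.re ≤ 1 / 2 := by
    intro χ s _ h1 hz
    by_contra hcon
    push Not at hcon
    have h2 := hmain (s - 1 / 2) (by
      rw [Complex.sub_re]
      have : (1 / 2 : ℂ).re = 1 / 2 := by norm_num
      rw [this]; linarith)
    have e : 1 / 2 + (s - 1 / 2) = s := by ring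
    rw [Lf_ne (by rw [e]; exact strip_ne h1), e] at h2
    exact h2 χ hz
  intro χ s h0 h1 hz
  have h2 := hright χ s h0 h1 hz
  have hr : (1 - conj s).re = 1 - s.re := by simp
  have h3 := hright χ (1 - conj s) (by rw [hr]; linarith) (by rw [hr]; linarith) (L_refl h0 h1 hz)
  rw [hr] at h3
  linarith

/-! ### the product is convergent unconditionally -/

open Pool.Agent.Y23.G in
lemma line_summ (L : LFun) : Summable fun γ : ℝ => (H370.mult L.X (⟨1 / 2, γ⟩ : ℂ) : ℝ) * Real.exp (-(γ ^ 2) / 2) := by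
  obtain ⟨ψ, hψ⟩ : ∃ ψ : {γ : ℝ | L.X (⟨1 / 2, γ⟩ : ℂ) = 0} → Zt (D := zd (L := L)), ∀ γ, (ψ γ : ℂ) = ⟨1 / 2, (γ : ℝ)⟩ :=
    ⟨fun γ => ⟨⟨1 / 2, (γ : ℝ)⟩, γ.2⟩, fun _ => rfl⟩
  have hinj : Function.Injective ψ := fun a b h => by
    have h1 : (ψ a : ℂ) = ψ b := by rw [h]
    rw [hψ, hψ] at h1
    exact Subtype.ext (congrArg Complex.im h1)
  have h1 := (dec_summable (D := zd (L := L)) (δ := 1 / 2) (by norm_num) (Real.exp_pos _).le (g_dec 0)).comp_injective hinj
  have hsup : ∀ γ : ℝ, γ ∉ Set.range (Subtype.val : {γ : ℝ | L.X (⟨1 / 2, γ⟩ : ℂ) = 0} → ℝ) →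
      (H370.mult L.X (⟨1 / 2, γ⟩ : ℂ) : ℝ) * Real.exp (-(γ ^ 2) / 2) = 0 := by
    intro γ hγ
    rw [Subtype.range_val] at hγ
    have h2 : H370.mult L.X (⟨1 / 2, γ⟩ : ℂ) = 0 := mult_zero (Xd.analyticAt _) hγ
    rw [h2, Nat.cast_zero, zero_mul]
  rw [← Subtype.val_injective.summable_iff hsup]
  refine h1.congr fun γ => ?_
  simp only [Function.comp]
  have hsub : (ψ γ : ℂ) - 1 / 2 = ⟨0, (γ : ℝ)⟩ := by
    rw [hψ, sub_half]
    norm_num
  rw [hsub, norm_mul, g_norm, hψ]
  have e : ((0:ℝ) * 0 + ((0:ℝ) ^ 2 - ((γ : ℝ)) ^ 2) / 2) = -((γ : ℝ) ^ 2) / 2 := by ring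
  show ‖((mu (⟨1 / 2, (γ : ℝ)⟩ : ℂ) : ℕ) : ℂ)‖ * Real.exp ((0:ℝ) * 0 + ((0:ℝ) ^ 2 - ((γ : ℝ)) ^ 2) / 2) = _
  rw [e, Complex.norm_natCast]
  rfl

lemma MM_summ : Summable fun γ : ℝ => (MM q γ : ℝ) * Real.exp (-(γ ^ 2) / 2) := by
  have h0 : ∀ χ : DirichletCharacter ℂ q, Summable fun γ : ℝ => (mch χ γ : ℝ) * Real.exp (-(γ ^ 2) / 2) := by
    intro χ
    obtain ⟨L, -, -, -, h4⟩ := exists_L χ
    refine (line_summ L).congr fun γ => ?_
    unfold mch
    rw [h4 _ (by norm_num) (by norm_num)]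
  have h := summable_sum (s := (Finset.univ : Finset (DirichletCharacter ℂ q)))
    (f := fun χ γ => (mch χ γ : ℝ) * Real.exp (-(γ ^ 2) / 2)) fun χ _ => h0 χ
  refine h.congr fun γ => ?_
  unfold MM
  rw [Nat.cast_sum, Finset.sum_mul]

lemma bm_summ : Summable (bm q) := by
  have h : Summable (am q) := (MM_summ.subtype (Gam q)).mul_left 2
  exact Summable.of_nonneg_of_le (fun γ => (bm_pos γ).le) bm_le h

/-- **all together** -/
theorem all_q {lam : ℝ} (hlam : 0 < lam) :
    Multipliable (fun γ : Gam q => LI.I0 (lam * bm q γ)) ∧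
    ((∃ C : ℝ, ∀ᶠ V : ℝ in atTop, (∫ v in (0:ℝ)..V, Real.exp (-(lam * Aq q v))) / V ≤ C) ↔ GRH q) ∧
    (GRH q → ∃ l : ℝ, Tendsto (fun V : ℝ => (∫ v in (0:ℝ)..V, Real.exp (-(lam * Aq q v))) / V) atTop (𝓝 l) ∧
      Real.exp (lam * MM q 0) * ∏' γ : Gam q, LI.I0 (lam * bm q γ) ≤ l ∧
      (l = Real.exp (lam * MM q 0) * ∏' γ : Gam q, LI.I0 (lam * bm q γ) ↔ Hooley q)) ∧
    ((Hooley q ∧ NoReal q) ↔ ∀ ε : ℝ, 0 < ε → ∀ᶠ V : ℝ in atTop,
      (∫ v in (0:ℝ)..V, Real.exp (-(lam * Aq q v))) / V ≤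
        Real.exp (lam * MM q 0) * ∏' γ : Gam q, LI.I0 (lam * bm q γ) + ε) := by
  have hmain : GRH q → ∃ l : ℝ, Tendsto (fun V : ℝ => (∫ v in (0:ℝ)..V, Real.exp (-(lam * Aq q v))) / V) atTop (𝓝 l) ∧
      Real.exp (lam * MM q 0) * ∏' γ : Gam q, LI.I0 (lam * bm q γ) ≤ l ∧
      (l = Real.exp (lam * MM q 0) * ∏' γ : Gam q, LI.I0 (lam * bm q γ) ↔ Hooley q) := by
    intro hG
    exact ((main_q hG).2 lam hlam).2
  refine ⟨LI.I0_mult (fun γ => (mul_pos hlam (bm_pos γ)).le) (bm_summ.mul_left lam), ?_, hmain, ?_⟩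
  · constructor
    · rintro ⟨C, hC⟩
      exact GRH_of_mean hlam hC
    · intro hG
      obtain ⟨l, h1, -, -⟩ := hmain hG
      exact ⟨l + 1, h1.eventually (ge_mem_nhds (by linarith))⟩
  · constructor
    · rintro ⟨h1, h2⟩ ε hε
      have hG := GRH_of h1 h2
      obtain ⟨l, h3, -, h4⟩ := hmain hG
      rw [h4.2 h1] at h3
      exact h3.eventually (ge_mem_nhds (by linarith))
    · intro h
      have hG : GRH q := GRH_of_mean hlam (h 1 one_pos)
      obtain ⟨l, h3, h4, h5⟩ := hmain hG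
      refine ⟨h5.1 (le_antisymm ?_ h4), NoReal_of hG⟩
      refine le_of_forall_pos_le_add fun ε hε => ?_
      exact le_of_tendsto h3 (h ε hε)

end Pool.Agent.X113.HL
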