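import Mathlib

set_option autoImplicit false

/-! Gaussian test functions and the lemma of Riemann and Lebesgue. -/

open Complex Filter Topology MeasureTheory
open scoped ComplexConjugate

namespace Pool.Agent.X113.HQ

/-- the Gaussian test function -/
noncomputable def g (v : ℝ) (w : ℂ) : ℂ := cexp (w * v + w ^ 2 / 2)

lemma g_norm (v : ℝ) (w : ℂ) : ‖g v w‖ = Real.exp (w.re * v + (w.re ^ 2 - w.im ^ 2) / 2) := by
  unfold g
  rw [Complex.norm_exp]
  congr 1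
  have h : w ^ 2 / 2 = ((((w.re ^ 2 - w.im ^ 2) / 2 : ℝ)) : ℂ) + ((w.re * w.im : ℝ) : ℂ) * I := by
    apply Complex.ext
    · simp [sq]; try ring
    · simp [sq]; try ring
  rw [h, Complex.add_re, Complex.add_re, Complex.re_mul_ofReal, Complex.ofReal_re,
    Complex.re_ofReal_mul, Complex.I_re, mul_zero, add_zero]

lemma g_im (v y : ℝ) : g v ⟨0, y⟩ = ((Real.exp (-(y ^ 2) / 2) : ℝ) : ℂ) * cexp (((y * v : ℝ) : ℂ) * I) := by
  unfold g
  have h : (⟨0, y⟩ : ℂ) = (y : ℂ) * I := by apply Complex.ext <;> simp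
  rw [h, Complex.ofReal_exp, ← Complex.exp_add]
  congr 1
  have hI : I ^ 2 = -1 := Complex.I_sq
  push_cast
  rw [mul_pow, hI]
  ring

lemma gau_int (v l : ℝ) : ∫ y : ℝ, cexp (-(((y : ℂ) * I) * l)) * g v ⟨0, y⟩ =
    ((Real.sqrt (2 * Real.pi) * Real.exp (-((v - l) ^ 2) / 2) : ℝ) : ℂ) := by
  have h := fourierIntegral_gaussian (b := (1 / 2 : ℂ)) (by norm_num) ((v - l : ℝ) : ℂ)
  have e1 : (fun y : ℝ => cexp (-(((y : ℂ) * I) * l)) * g v ⟨0, y⟩) =
      fun y : ℝ => cexp (I * ((v - l : ℝ) : ℂ) * y) * cexp (-(1 / 2 : ℂ) * (y : ℂ) ^ 2) := by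
    funext y
    unfold g
    have h : (⟨0, y⟩ : ℂ) = (y : ℂ) * I := by apply Complex.ext <;> simp
    rw [h, ← Complex.exp_add, ← Complex.exp_add]
    congr 1
    have hI : I ^ 2 = -1 := Complex.I_sq
    push_cast
    rw [mul_pow, hI]
    ring
  rw [e1, h]
  have e2 : ((Real.pi : ℂ) / (1 / 2)) ^ (1 / 2 : ℂ) = ((Real.sqrt (2 * Real.pi) : ℝ) : ℂ) := by
    have e3 : ((Real.pi : ℂ) / (1 / 2)) = ((2 * Real.pi : ℝ) : ℂ) := by push_cast; ring
    rw [e3, Real.sqrt_eq_rpow, Complex.ofReal_cpow (by positivity)]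
    norm_num
  rw [e2, Complex.ofReal_mul, Complex.ofReal_exp]
  congr 2
  push_cast
  ring

/-- Riemann–Lebesgue -/
lemma RL (φ : ℝ → ℂ) : Tendsto (fun v : ℝ => ∫ y : ℝ, φ y * cexp (((y * v : ℝ) : ℂ) * I)) (cocompact ℝ) (𝓝 0) := by
  have h := Real.tendsto_integral_exp_smul_cocompact φ
  have h1 : Tendsto (fun v : ℝ => v * (-(2 * Real.pi)⁻¹)) (cocompact ℝ) (cocompact ℝ) := by
    have h2 : (-(2 * Real.pi)⁻¹ : ℝ) ≠ 0 := by
      have := Real.pi_pos
      exact neg_ne_zero.2 (by positivity)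
    exact (Homeomorph.mulRight₀ _ h2).isClosedEmbedding.tendsto_cocompact
  refine (h.comp h1).congr fun v => ?_
  simp only [Function.comp]
  refine integral_congr_ae (Eventually.of_forall fun y => ?_)
  show Real.fourierChar (-(y * (v * (-(2 * Real.pi)⁻¹)))) • φ y = φ y * cexp (((y * v : ℝ) : ℂ) * I)
  rw [Circle.smul_def, Real.fourierChar_apply, smul_eq_mul, mul_comm]
  congr 2
  have hpi : (Real.pi : ℂ) ≠ 0 := by exact_mod_cast Real.pi_ne_zero
  push_cast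
  field_simp

lemma RL_top (φ : ℝ → ℂ) : Tendsto (fun v : ℝ => ∫ y : ℝ, φ y * cexp (((y * v : ℝ) : ℂ) * I)) atTop (𝓝 0) :=
  (RL φ).mono_left atTop_le_cocompact

lemma RL_bot (φ : ℝ → ℂ) : Tendsto (fun v : ℝ => ∫ y : ℝ, φ y * cexp (((y * (-v) : ℝ) : ℂ) * I)) atTop (𝓝 0) :=
  ((RL φ).mono_left atBot_le_cocompact).comp tendsto_neg_atTop_atBot

end Pool.Agent.X113.HQ
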