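import Pool.Agent.Y23.G.An5
import Pool.Agent.X113.HQ0

set_option autoImplicit false
set_option linter.unusedSectionVars false
set_option maxHeartbeats 2000000

/-! The explicit formula with the Gaussian test function. -/

open Complex Filter Topology Set MeasureTheory Metric
open scoped ComplexConjugate
open Pool.Agent.Y23.G

namespace Pool.Agent.X113.HQ

variable [L : LFun]

lemma g_dec (v : ℝ) : Dec (g v) (Real.exp (2 * |v| + 2)) (1 / 2) := by
  refine ⟨by unfold g; fun_prop, fun w hw => ?_⟩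
  rw [g_norm, ← Real.exp_add]
  refine Real.exp_le_exp.2 ?_
  have h1 : w.re * v ≤ 2 * |v| := by
    calc w.re * v ≤ |w.re * v| := le_abs_self _
      _ = |w.re| * |v| := abs_mul _ _
      _ ≤ 2 * |v| := mul_le_mul_of_nonneg_right hw (abs_nonneg _)
  have h2 : w.re ^ 2 ≤ 4 := by
    have h3 := abs_nonneg w.re
    rw [← sq_abs]
    nlinarith
  linarith

lemma g_hst (v : ℝ) : hst (g v) = g (-v) := by
  funext w
  unfold hst g
  rw [← Complex.exp_conj]
  congr 1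
  simp only [map_add, map_mul, map_neg, Complex.conj_conj, Complex.conj_ofReal, map_div₀, map_pow]
  have e : conj (2 : ℂ) = 2 := Complex.conj_ofNat 2
  rw [e]
  push_cast
  ring

lemma JJ_g (v l : ℝ) : JJ (g v) l = ((Real.sqrt (2 * Real.pi) * Real.exp (-((v - l) ^ 2) / 2) : ℝ) : ℂ) :=
  gau_int v l

/-- the sum over the prime powers -/
noncomputable def PS (v : ℝ) : ℂ := ∑' n : ℕ, aL n * ((Real.exp (-((v - Real.log n) ^ 2) / 2) : ℝ) : ℂ)

/-- the integral on the right -/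
noncomputable def Jr (v : ℝ) : ℂ := ∫ y : ℝ, XL ⟨5 / 2, y⟩ * g v ⟨2, y⟩

/-- the small part -/
noncomputable def er (v : ℝ) : ℂ := (∫ y : ℝ, ph1 ⟨0, y⟩ * g v ⟨0, y⟩) +
  L.r * (∫ y : ℝ, 1 / (⟨0, y⟩ - 1 / 2) * g v ⟨0, y⟩)

lemma g_half (v : ℝ) : g v (1 / 2) = ((Real.exp (v / 2 + 1 / 8) : ℝ) : ℂ) := by
  unfold g
  rw [Complex.ofReal_exp]
  congr 1
  push_cast
  ring

lemma Jr_eq (v : ℝ) : Jr v = er v + 2 * Real.pi * L.r * ((Real.exp (v / 2 + 1 / 8) : ℝ) : ℂ) -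
    ((Real.sqrt (2 * Real.pi) : ℝ) : ℂ) * PS v := by
  unfold Jr er
  rw [J_eq (by norm_num) (Real.exp_pos _).le (g_dec v), g_half]
  have e1 : ∑' n : ℕ, aL n * JJ (g v) (Real.log n) = ((Real.sqrt (2 * Real.pi) : ℝ) : ℂ) * PS v := by
    unfold PS
    rw [← tsum_mul_left]
    refine tsum_congr fun n => ?_
    rw [JJ_g]
    push_cast
    ring
  rw [e1]
  ring

lemma er_top : Tendsto (fun v : ℝ => er v) atTop (𝓝 0) := by
  have h1 := RL_top fun y => ph1 ⟨0, y⟩ * ((Real.exp (-(y ^ 2) / 2) : ℝ) : ℂ)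
  have h2 := RL_top fun y => 1 / (⟨0, y⟩ - 1 / 2) * ((Real.exp (-(y ^ 2) / 2) : ℝ) : ℂ)
  have h3 := h1.add (h2.const_mul (L.r : ℂ))
  rw [mul_zero, add_zero] at h3
  refine h3.congr fun v => ?_
  unfold er
  simp only [g_im, mul_assoc]

lemma er_bot : Tendsto (fun v : ℝ => er (-v)) atTop (𝓝 0) := by
  have h1 := RL_bot fun y => ph1 ⟨0, y⟩ * ((Real.exp (-(y ^ 2) / 2) : ℝ) : ℂ)
  have h2 := RL_bot fun y => 1 / (⟨0, y⟩ - 1 / 2) * ((Real.exp (-(y ^ 2) / 2) : ℝ) : ℂ)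
  have h3 := h1.add (h2.const_mul (L.r : ℂ))
  rw [mul_zero, add_zero] at h3
  refine h3.congr fun v => ?_
  unfold er
  simp only [g_im, mul_assoc]

/-- the Gaussian to the left of the real axis -/
lemma gauss_left {v : ℝ} (hv : 0 ≤ v) {n : ℕ} (hn : 0 < n) :
    Real.exp (-((-v - Real.log n) ^ 2) / 2) ≤ Real.exp (-(v ^ 2) / 2) * (Real.exp 2 * (n : ℝ) ^ (-(2 : ℝ))) := by
  rw [← exp_log_pow hn, ← Real.exp_add, ← Real.exp_add]
  refine Real.exp_le_exp.2 ?_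
  have h1 : 0 ≤ Real.log n := Real.log_natCast_nonneg n
  have h2 := mul_nonneg hv h1
  have h3 := sq_nonneg (Real.log n - 2)
  nlinarith

lemma PS_bot : Tendsto (fun v : ℝ => PS (-v)) atTop (𝓝 0) := by
  have h0 : Tendsto (fun v : ℝ => Real.exp (-(v ^ 2) / 2) * (Real.exp 2 * (L.m * DB))) atTop (𝓝 0) := by
    have h1 : Tendsto (fun v : ℝ => v ^ 2 / 2) atTop atTop :=
      (tendsto_pow_atTop (two_ne_zero)).atTop_div_const (by norm_num)
    have h2 := (Real.tendsto_exp_neg_atTop_nhds_zero.comp h1).mul_const (Real.exp 2 * (L.m * DB))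
    rw [zero_mul] at h2
    refine h2.congr fun v => ?_
    simp only [Function.comp]
    congr 2
    ring
  refine squeeze_zero_norm' ?_ h0
  filter_upwards [eventually_ge_atTop (0:ℝ)] with v hv
  unfold PS
  have hs : Summable fun n : ℕ => Real.exp (-(v ^ 2) / 2) * (Real.exp 2 * (L.m * (ArithmeticFunction.vonMangoldt n * (n : ℝ) ^ (-(2 : ℝ))))) :=
    ((lam_sum.mul_left (L.m : ℝ)).mul_left _).mul_left _
  have hb : ∀ n : ℕ, ‖aL n * ((Real.exp (-((-v - Real.log n) ^ 2) / 2) : ℝ) : ℂ)‖ ≤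
      Real.exp (-(v ^ 2) / 2) * (Real.exp 2 * (L.m * (ArithmeticFunction.vonMangoldt n * (n : ℝ) ^ (-(2 : ℝ))))) := by
    intro n
    rcases Nat.eq_zero_or_pos n with h | h
    · subst h
      rw [aL_zero, zero_mul, norm_zero]
      simp
    · rw [norm_mul, Complex.norm_real, Real.norm_of_nonneg (Real.exp_pos _).le]
      calc ‖aL n‖ * Real.exp (-((-v - Real.log n) ^ 2) / 2)
          ≤ (L.m * ArithmeticFunction.vonMangoldt n) * (Real.exp (-(v ^ 2) / 2) * (Real.exp 2 * (n : ℝ) ^ (-(2 : ℝ)))) :=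
            mul_le_mul (aL_norm n) (gauss_left hv h) (Real.exp_pos _).le
              (mul_nonneg (Nat.cast_nonneg _) ArithmeticFunction.vonMangoldt_nonneg)
        _ = _ := by ring
  refine (tsum_of_norm_bounded hs.hasSum hb).trans (le_of_eq ?_)
  unfold DB
  rw [tsum_mul_left, tsum_mul_left, tsum_mul_left]

/-- **the explicit formula** -/
theorem asym : Tendsto (fun v : ℝ => (∑' ρ : Zt, (mu ρ : ℂ) * g v ((ρ : ℂ) - 1 / 2)) -
    (L.r * ((Real.exp (v / 2 + 1 / 8) : ℝ) : ℂ) - (((Real.sqrt (2 * Real.pi))⁻¹ : ℝ) : ℂ) * PS v)) atTop (𝓝 0) := by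
  have hpi := Real.pi_pos
  have hex : Tendsto (fun v : ℝ => ((Real.exp (-v / 2 + 1 / 8) : ℝ) : ℂ)) atTop (𝓝 0) := by
    have h1 : Tendsto (fun v : ℝ => v / 2 + -(1 / 8)) atTop atTop :=
      tendsto_atTop_add_const_right _ _ (tendsto_id.atTop_div_const (by norm_num))
    have h2 := Real.tendsto_exp_neg_atTop_nhds_zero.comp h1
    have h3 : Tendsto (fun v : ℝ => Real.exp (-v / 2 + 1 / 8)) atTop (𝓝 0) := by
      refine h2.congr fun v => ?_
      simp only [Function.comp]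
      congr 1
      ring
    have h4 := (Complex.continuous_ofReal.tendsto 0).comp h3
    rw [Complex.ofReal_zero] at h4
    exact h4
  have hJ : Tendsto (fun v : ℝ => Jr (-v)) atTop (𝓝 0) := by
    have h1 := (er_bot (L := L)).add (hex.const_mul (2 * Real.pi * L.r : ℂ))
    have h2 := h1.sub ((PS_bot (L := L)).const_mul ((Real.sqrt (2 * Real.pi) : ℝ) : ℂ))
    rw [mul_zero, mul_zero, add_zero, sub_zero] at h2
    refine h2.congr fun v => ?_
    rw [Jr_eq]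
  have hJc : Tendsto (fun v : ℝ => conj (Jr (-v))) atTop (𝓝 0) := by
    have := (Complex.continuous_conj.tendsto 0).comp hJ
    rw [map_zero] at this
    exact this
  have h5 := ((er_top (L := L)).add hJc).const_mul ((2 * Real.pi : ℂ)⁻¹)
  rw [add_zero, mul_zero] at h5
  refine h5.congr fun v => ?_
  have hz := zeros_line (L := L) (by norm_num) (Real.exp_pos _).le (g_dec v)
  rw [g_hst] at hz
  have hz2 : 2 * Real.pi * ∑' ρ : Zt, (mu ρ : ℂ) * g v ((ρ : ℂ) - 1 / 2) = Jr v + conj (Jr (-v)) := hz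
  rw [Jr_eq v] at hz2
  have hpi' : (2 * Real.pi : ℂ) ≠ 0 := by exact_mod_cast (by positivity : (2 * Real.pi : ℝ) ≠ 0)
  have e1 : ∑' ρ : Zt, (mu ρ : ℂ) * g v ((ρ : ℂ) - 1 / 2) = (2 * Real.pi : ℂ)⁻¹ *
      (er v + 2 * Real.pi * L.r * ((Real.exp (v / 2 + 1 / 8) : ℝ) : ℂ) -
        ((Real.sqrt (2 * Real.pi) : ℝ) : ℂ) * PS v + conj (Jr (-v))) := by
    rw [← hz2, ← mul_assoc, inv_mul_cancel₀ hpi', one_mul]
  have hs : ((Real.sqrt (2 * Real.pi) : ℝ) : ℂ) * ((Real.sqrt (2 * Real.pi) : ℝ) : ℂ) = 2 * Real.pi := by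
    rw [← Complex.ofReal_mul, Real.mul_self_sqrt (by positivity)]
    push_cast; ring
  have hs0 : ((Real.sqrt (2 * Real.pi) : ℝ) : ℂ) ≠ 0 := by
    exact_mod_cast (Real.sqrt_pos.2 (by positivity : (0:ℝ) < 2 * Real.pi)).ne'
  have e2 : (((Real.sqrt (2 * Real.pi))⁻¹ : ℝ) : ℂ) = (2 * Real.pi : ℂ)⁻¹ * ((Real.sqrt (2 * Real.pi) : ℝ) : ℂ) := by
    rw [← hs, Complex.ofReal_inv, mul_inv, mul_assoc, inv_mul_cancel₀ hs0, mul_one]
  rw [e1, e2]
  have e3 : (2 * Real.pi : ℂ)⁻¹ * (2 * Real.pi) = 1 := inv_mul_cancel₀ hpi'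
  linear_combination (-(L.r * ((Real.exp (v / 2 + 1 / 8) : ℝ) : ℂ))) * e3

end Pool.Agent.X113.HQ
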