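import Pool.Agent.X113.HQ1
import Pool.Agent.W355.UN.Inst

set_option autoImplicit false
set_option maxHeartbeats 2000000

/-! The L-functions of all the characters modulo `q` as L-functions with an Euler product. -/

open Complex Filter Topology Set MeasureTheory Metric
open scoped ComplexConjugate
open Pool.Agent.Y23.G Pool.Agent.W355.UN Pool.Agent.TH839.NA Pool.Agent.W355.LJ Pool.Agent.W169.HF H353.E

namespace Pool.Agent.X113.HQ

lemma rawT_half {m r : ℕ} {N : ℝ} {a : Fin m → ℂ} {b c : ℕ → ℂ} {X : ℂ → ℂ}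
    (h : Raw m r N a b c X) : RawT (1 / 2) m r N a b (fun n => if n = 0 then 0 else c n) X := by
  refine ⟨h.hm, h.hr, h.hN, by norm_num, by norm_num, h.re_ge, h.entire, h.order, h.fe, h.one,
    fun n => ?_, ?_, h.eq⟩
  · split_ifs with hn
    · rw [norm_zero]; positivity
    · have h1 : (1 : ℝ) ≤ (n : ℝ) ^ (1 / 2 : ℝ) :=
        Real.one_le_rpow (by exact_mod_cast Nat.one_le_iff_ne_zero.2 hn) (by norm_num)
      have h2 : (0:ℝ) ≤ m := Nat.cast_nonneg _
      refine (h.cb n).trans ?_
      nlinarith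
  · intro n hn
    rw [h.conv n hn]
    refine Finset.sum_congr rfl fun d hd => ?_
    simp only [if_neg (Nat.pos_of_mem_divisors hd).ne']

lemma ord_mul {X G F : ℂ → ℂ} {s : ℂ} (hG : AnalyticAt ℂ G s) (hG0 : G s ≠ 0) (hF : AnalyticAt ℂ F s)
    (h : X =ᶠ[𝓝 s] fun z => G z * F z) : analyticOrderNatAt X s = analyticOrderNatAt F s := by
  unfold analyticOrderNatAt
  rw [analyticOrderAt_congr h]
  have e : analyticOrderAt (fun z => G z * F z) s = analyticOrderAt G s + analyticOrderAt F s :=
    analyticOrderAt_mul hG hF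
  rw [e, hG.analyticOrderAt_eq_zero.2 hG0, zero_add]

lemma gr_diff {s : ℂ} (hs : 0 < s.re) : DifferentiableAt ℂ Gammaℝ s := by
  have e : Gammaℝ = fun s => (Real.pi : ℂ) ^ (-s / 2) * Gamma (s / 2) := by
    funext z; exact Gammaℝ_def z
  rw [e]
  refine DifferentiableAt.mul ?_ ?_
  · exact DifferentiableAt.const_cpow (by fun_prop) (Or.inl (by exact_mod_cast Real.pi_ne_zero))
  · refine DifferentiableAt.comp (g := Gamma) (f := fun z : ℂ => z / 2) s ?_ (by fun_prop)
    refine differentiableAt_Gamma _ fun m h => ?_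
    have h1 := congrArg Complex.re h
    have h2 : (s / 2).re = s.re / 2 := by simp
    rw [h2] at h1
    simp at h1
    have : (0:ℝ) ≤ m := Nat.cast_nonneg m
    linarith

lemma re_open : IsOpen {z : ℂ | 0 < z.re} := isOpen_lt continuous_const Complex.continuous_re

lemma an_of_diff {f : ℂ → ℂ} (hf : ∀ z : ℂ, 0 < z.re → DifferentiableAt ℂ f z) :
    AnalyticOnNhd ℂ f {z : ℂ | 0 < z.re} :=
  DifferentiableOn.analyticOnNhd (fun z hz => (hf z hz).differentiableWithinAt) re_open

variable {q : ℕ} [NeZero q]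

/-- nonprincipal characters -/
theorem exists_L_ne (χ : DirichletCharacter ℂ q) (hχ : χ ≠ 1) :
    ∃ L : LFun, L.r = 0 ∧ (∀ n : ℕ, n ≠ 0 → L.c n = χ.primitiveCharacter (n : ZMod χ.conductor)) ∧
      (∀ s : ℂ, L.X s = 0 → 0 < s.re ∧ s.re < 1) ∧
      ∀ s : ℂ, 0 < s.re → s.re < 1 → H370.mult L.X s = H370.mult (DirichletCharacter.LFunction χ) s := by
  classical
  have hc0 : χ.conductor ≠ 0 := χ.conductor_ne_zero
  have : NeZero χ.conductor := ⟨hc0⟩
  have hc1 : χ.conductor ≠ 1 := fun h => hχ (DirichletCharacter.eq_one_iff_conductor_eq_one.2 h)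
  have hN : 1 < χ.conductor := by omega
  obtain ⟨ψ, hψ⟩ : ∃ ψ : DirichletCharacter ℂ χ.conductor, ψ = χ.primitiveCharacter := ⟨_, rfl⟩
  have hprim : ψ.IsPrimitive := by rw [hψ]; exact χ.primitiveCharacter_isPrimitive
  have hψ1 : ψ ≠ 1 := by
    intro h
    apply hχ
    rw [← χ.changeLevel_primitiveCharacter, ← hψ, h, DirichletCharacter.changeLevel_one]
  obtain ⟨X, h⟩ := dir_raw χ.conductor ψ hN hprim
  have hpar : parD ψ = 0 ∨ parD ψ = 1 := by
    unfold parD
    split_ifs
    · exact Or.inl rfl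
    · exact Or.inr rfl
  have hpar0 : 0 ≤ parD ψ := by rcases hpar with h | h <;> rw [h]; norm_num
  have hNC : ((χ.conductor : ℝ) : ℂ) ≠ 0 := by exact_mod_cast hc0
  -- the completed function
  obtain ⟨G, hG⟩ : ∃ G : ℂ → ℂ, G = fun s => (((χ.conductor : ℝ) : ℂ) ^ (s / 2) * Gammaℝ (s + (parD ψ : ℂ))) := ⟨_, rfl⟩
  have hre : ∀ s : ℂ, (s + (parD ψ : ℂ)).re = s.re + parD ψ := fun s => by simp
  have hGd : ∀ s : ℂ, 0 < s.re → DifferentiableAt ℂ G s := by
    intro s hs
    rw [hG]
    refine DifferentiableAt.mul ?_ ?_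
    · exact DifferentiableAt.const_cpow (by fun_prop) (Or.inl hNC)
    · exact DifferentiableAt.comp (g := Gammaℝ) (f := fun z : ℂ => z + (parD ψ : ℂ)) s
        (gr_diff (by rw [hre]; linarith)) (by fun_prop)
  have hG0 : ∀ s : ℂ, 0 < s.re → G s ≠ 0 := by
    intro s hs
    rw [hG]
    refine mul_ne_zero ?_ (Gammaℝ_ne_zero_of_re_pos (by rw [hre]; linarith))
    rw [Complex.cpow_def_of_ne_zero hNC]
    exact Complex.exp_ne_zero _
  have hLd : Differentiable ℂ (DirichletCharacter.LFunction ψ) := DirichletCharacter.differentiable_LFunction hψ1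
  have hXG : ∀ s : ℂ, 0 < s.re → X s = G s * DirichletCharacter.LFunction ψ s := by
    obtain ⟨σ, hσ⟩ := h.eq
    have h1 : AnalyticOnNhd ℂ X {z : ℂ | 0 < z.re} := an_of_diff fun z _ => h.entire z
    have h2 : AnalyticOnNhd ℂ (fun s => G s * DirichletCharacter.LFunction ψ s) {z : ℂ | 0 < z.re} :=
      an_of_diff fun z hz => (hGd z hz).mul (hLd z)
    have h3 : X =ᶠ[𝓝 ((|σ| + 2 : ℝ) : ℂ)] fun s => G s * DirichletCharacter.LFunction ψ s := by
      have h4 : {z : ℂ | |σ| + 1 < z.re} ∈ 𝓝 ((|σ| + 2 : ℝ) : ℂ) :=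
        (isOpen_lt continuous_const Complex.continuous_re).mem_nhds (by
          show |σ| + 1 < ((|σ| + 2 : ℝ) : ℂ).re
          rw [Complex.ofReal_re]; linarith)
      filter_upwards [h4] with z hz
      have hz' : |σ| + 1 < z.re := hz
      have ha := le_abs_self σ
      have ha0 := abs_nonneg σ
      rw [hσ z (by linarith), DirichletCharacter.LFunction_eq_LSeries ψ (by linarith), hG, pow_zero, one_mul]
      congr 2
      rw [prod_get [(parD ψ : ℂ)] (fun a : ℂ => Gammaℝ (z + a))]
      simp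
    have h5 := h1.eqOn_of_preconnected_of_eventuallyEq h2 (convex_halfSpace_re_gt 0).isPreconnected
      (show ((|σ| + 2 : ℝ) : ℂ) ∈ {z : ℂ | 0 < z.re} by
        show 0 < ((|σ| + 2 : ℝ) : ℂ).re
        rw [Complex.ofReal_re]
        have := abs_nonneg σ
        linarith) h3
    exact fun s hs => h5 hs
  obtain ⟨Lf, hLf⟩ : ∃ Lf : LFun, Lf = {
        m := 1
        r := 0
        N := (χ.conductor : ℝ)
        a := fun j => [(parD ψ : ℂ)].get j
        b := fun n => ψ (n : ZMod χ.conductor)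
        c := fun n => if n = 0 then 0 else ψ (n : ZMod χ.conductor)
        X := X
        raw := rawT_half h
        str := fun j => by
          have h1 := List.get_mem [(parD ψ : ℂ)] j
          rw [List.mem_singleton] at h1
          rw [h1, Complex.ofReal_re]
          linarith } := ⟨_, rfl⟩
  have eX : Lf.X = X := by subst hLf; rfl
  refine ⟨Lf, by subst hLf; rfl, fun n hn => ?_, fun s hs => ?_, fun s h0 h1 => ?_⟩
  · rw [hLf]
    show (if n = 0 then (0:ℂ) else ψ (n : ZMod χ.conductor)) = _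
    rw [if_neg hn, hψ]
  · have key : ∀ s : ℂ, Lf.X s = 0 → s.re < 1 := by
      intro s hs
      by_contra hcon
      push Not at hcon
      rw [eX, hXG s (by linarith)] at hs
      rcases mul_eq_zero.1 hs with h2 | h2
      · exact hG0 s (by linarith) h2
      · exact DirichletCharacter.LFunction_ne_zero_of_one_le_re ψ (Or.inl hψ1) hcon h2
    refine ⟨?_, key s hs⟩
    have h2 := key (1 - conj s) (X_zero (L := Lf) hs)
    simp at h2
    exact h2
  · rw [eX]
    unfold H370.mult
    have hnh : {z : ℂ | 0 < z.re} ∈ 𝓝 s := re_open.mem_nhds h0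
    have e1 : analyticOrderNatAt X s = analyticOrderNatAt (DirichletCharacter.LFunction ψ) s := by
      refine ord_mul (an_of_diff hGd s h0) (hG0 s h0) (hLd.analyticAt s) ?_
      filter_upwards [hnh] with z hz
      exact hXG z hz
    rw [e1]
    obtain ⟨E, hE⟩ : ∃ E : ℂ → ℂ, E = fun s => ∏ p ∈ q.primeFactors, (1 - ψ p * (p : ℂ) ^ (-s)) := ⟨_, rfl⟩
    have hEd : Differentiable ℂ E := by
      rw [hE]
      refine Differentiable.fun_finsetProd fun p hp => ?_
      refine Differentiable.const_sub (Differentiable.const_mul ?_ _) _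
      intro z
      exact DifferentiableAt.const_cpow (by fun_prop) (Or.inl (by
        exact_mod_cast (Nat.prime_of_mem_primeFactors hp).ne_zero))
    have hE0 : E s ≠ 0 := by
      rw [hE]
      refine Finset.prod_ne_zero_iff.2 fun p hp => ?_
      have hpp := Nat.prime_of_mem_primeFactors hp
      intro h2
      have h3 : ‖ψ p * (p : ℂ) ^ (-s)‖ = 1 := by
        rw [← sub_eq_zero.1 h2, norm_one]
      have h4 : ‖(p : ℂ) ^ (-s)‖ < 1 := by
        rw [Complex.norm_natCast_cpow_of_pos hpp.pos, Complex.neg_re]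
        exact Real.rpow_lt_one_of_one_lt_of_neg (by exact_mod_cast hpp.one_lt) (by linarith)
      have h5 : ‖ψ p * (p : ℂ) ^ (-s)‖ ≤ 1 * ‖(p : ℂ) ^ (-s)‖ := by
        rw [norm_mul]
        exact mul_le_mul_of_nonneg_right (ψ.norm_le_one _) (norm_nonneg _)
      linarith
    symm
    refine ord_mul (hEd.analyticAt s) hE0 (hLd.analyticAt s) (Eventually.of_forall fun z => ?_)
    have h6 := DirichletCharacter.LFunction_changeLevel χ.conductor_dvd_level ψ (s := z) (Or.inl hψ1)
    have h7 : DirichletCharacter.changeLevel χ.conductor_dvd_level ψ = χ := by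
      rw [hψ]; exact χ.changeLevel_primitiveCharacter
    rw [h7] at h6
    rw [h6, hE]
    ring

/-- the principal character -/
theorem exists_L_one :
    ∃ L : LFun, L.r = 1 ∧ (∀ n : ℕ, n ≠ 0 → L.c n = 1) ∧
      (∀ s : ℂ, L.X s = 0 → 0 < s.re ∧ s.re < 1) ∧
      ∀ s : ℂ, 0 < s.re → s.re < 1 →
        H370.mult L.X s = H370.mult (DirichletCharacter.LFunction (1 : DirichletCharacter ℂ q)) s := by
  classical
  have h := zeta_raw
  obtain ⟨X, hX⟩ : ∃ X : ℂ → ℂ, X = fun s => s * (s - 1) * completedRiemannZeta₀ s + 1 := ⟨_, rfl⟩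
  rw [← hX] at h
  have hXz : ∀ s : ℂ, 0 < s.re → s ≠ 1 → X s = (s * (s - 1) * Gammaℝ s) * riemannZeta s := by
    intro s hs hs1
    have hs0 : s ≠ 0 := by rintro rfl; simp at hs
    have hg := Gammaℝ_ne_zero_of_re_pos hs
    have hs1' : 1 - s ≠ 0 := sub_ne_zero.2 (Ne.symm hs1)
    rw [riemannZeta_def_of_ne_zero hs0, completedRiemannZeta_eq, hX]
    field_simp
    ring
  obtain ⟨Lf, hLf⟩ : ∃ Lf : LFun, Lf = {
        m := 1
        r := 1
        N := 1
        a := fun j => [(0 : ℂ)].get j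
        b := fun _ => 1
        c := fun n => if n = 0 then 0 else 1
        X := X
        raw := rawT_half h
        str := fun j => by
          have h1 := List.get_mem [(0 : ℂ)] j
          rw [List.mem_singleton] at h1
          rw [h1, Complex.zero_re]
          norm_num } := ⟨_, rfl⟩
  have eX : Lf.X = X := by subst hLf; rfl
  refine ⟨Lf, by subst hLf; rfl, fun n hn => ?_, fun s hs => ?_, fun s h0 h1 => ?_⟩
  · rw [hLf]
    show (if n = 0 then (0:ℂ) else 1) = _
    rw [if_neg hn]
  · have key : ∀ s : ℂ, Lf.X s = 0 → s.re < 1 := by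
      intro s hs
      by_contra hcon
      push Not at hcon
      rcases eq_or_ne s 1 with h1 | h1
      · rw [eX, hX, h1] at hs
        simp at hs
      · rw [eX, hXz s (by linarith) h1] at hs
        have hs0 : s ≠ 0 := by rintro rfl; simp at hcon; linarith
        rcases mul_eq_zero.1 hs with h2 | h2
        · exact mul_ne_zero (mul_ne_zero hs0 (sub_ne_zero.2 h1)) (Gammaℝ_ne_zero_of_re_pos (by linarith)) h2
        · exact riemannZeta_ne_zero_of_one_le_re hcon h2
    refine ⟨?_, key s hs⟩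
    have h2 := key (1 - conj s) (X_zero (L := Lf) hs)
    simp at h2
    exact h2
  · rw [eX]
    unfold H370.mult
    have hs1 : s ≠ 1 := by rintro rfl; simp at h1
    have hs0 : s ≠ 0 := by rintro rfl; simp at h0
    have hnh : {z : ℂ | 0 < z.re} ∈ 𝓝 s := re_open.mem_nhds h0
    have hnh1 : {z : ℂ | z ≠ 1} ∈ 𝓝 s := isOpen_ne.mem_nhds hs1
    have hza : AnalyticAt ℂ riemannZeta s := by
      refine DifferentiableOn.analyticAt (s := {z : ℂ | z ≠ 1}) (fun z hz => ?_) hnh1
      exact (differentiableAt_riemannZeta hz).differentiableWithinAt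
    have e1 : analyticOrderNatAt X s = analyticOrderNatAt riemannZeta s := by
      refine ord_mul (G := fun s => s * (s - 1) * Gammaℝ s) ?_ ?_ hza ?_
      · exact an_of_diff (fun z hz => by
          refine DifferentiableAt.mul (by fun_prop) (gr_diff hz)) s h0
      · exact mul_ne_zero (mul_ne_zero hs0 (sub_ne_zero.2 hs1)) (Gammaℝ_ne_zero_of_re_pos h0)
      · filter_upwards [hnh, hnh1] with z hz hz1
        exact hXz z hz hz1
    rw [e1]
    obtain ⟨E, hE⟩ : ∃ E : ℂ → ℂ, E = fun s => ∏ p ∈ q.primeFactors, (1 - (p : ℂ) ^ (-s)) := ⟨_, rfl⟩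
    have hEd : Differentiable ℂ E := by
      rw [hE]
      refine Differentiable.fun_finsetProd fun p hp => ?_
      refine Differentiable.const_sub ?_ _
      intro z
      exact DifferentiableAt.const_cpow (by fun_prop) (Or.inl (by
        exact_mod_cast (Nat.prime_of_mem_primeFactors hp).ne_zero))
    have hE0 : E s ≠ 0 := by
      rw [hE]
      refine Finset.prod_ne_zero_iff.2 fun p hp => ?_
      have hpp := Nat.prime_of_mem_primeFactors hp
      intro h2
      have h3 : ‖(p : ℂ) ^ (-s)‖ = 1 := by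
        rw [← sub_eq_zero.1 h2, norm_one]
      have h4 : ‖(p : ℂ) ^ (-s)‖ < 1 := by
        rw [Complex.norm_natCast_cpow_of_pos hpp.pos, Complex.neg_re]
        exact Real.rpow_lt_one_of_one_lt_of_neg (by exact_mod_cast hpp.one_lt) (by linarith)
      linarith
    symm
    refine ord_mul (hEd.analyticAt s) hE0 hza ?_
    filter_upwards [hnh1] with z hz
    have h6 := DirichletCharacter.LFunctionTrivChar_eq_mul_riemannZeta (N := q) hz
    have h7 : DirichletCharacter.LFunction (1 : DirichletCharacter ℂ q) z =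
      DirichletCharacter.LFunctionTrivChar q z := rfl
    rw [h7, h6, hE]

end Pool.Agent.X113.HQ
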