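import Pool.Agent.X113.LI3

set_option autoImplicit false

/-! Mean values of the exponential of an absolutely convergent series of cosines plus a small function. -/

open Filter Topology MeasureTheory
open Pool.Agent.X113.LI

namespace Pool.Agent.X113.HQ

variable {Γ : Set ℝ}

lemma FF_cont' (a : Γ → ℝ) (s : Finset Γ) : Continuous (FF a s) := by
  unfold FF
  fun_prop

lemma FF_smul' (lam : ℝ) (a : Γ → ℝ) (s : Finset Γ) (v : ℝ) : FF (fun γ => lam * a γ) s v = lam * FF a s v := by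
  unfold FF
  rw [Finset.mul_sum]
  exact Finset.sum_congr rfl fun _ _ => by ring

/-- the whole series -/
noncomputable def FT (a : Γ → ℝ) (v : ℝ) : ℝ := ∑' γ, a γ * Real.cos (γ * v)

lemma FT_summ {a : Γ → ℝ} (ha : ∀ γ, 0 ≤ a γ) (hs : Summable a) (v : ℝ) :
    Summable fun γ => a γ * Real.cos (γ * v) := by
  refine Summable.of_norm_bounded hs fun γ => ?_
  rw [Real.norm_eq_abs, abs_mul, abs_of_nonneg (ha γ)]
  exact mul_le_of_le_one_right (ha γ) (Real.abs_cos_le_one _)

lemma FT_le {a : Γ → ℝ} (ha : ∀ γ, 0 ≤ a γ) (hs : Summable a) (v : ℝ) : |FT a v| ≤ ∑' γ, a γ := by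
  unfold FT
  rw [← Real.norm_eq_abs]
  refine tsum_of_norm_bounded hs.hasSum fun γ => ?_
  rw [Real.norm_eq_abs, abs_mul, abs_of_nonneg (ha γ)]
  exact mul_le_of_le_one_right (ha γ) (Real.abs_cos_le_one _)

lemma FT_diff {a : Γ → ℝ} (ha : ∀ γ, 0 ≤ a γ) (hs : Summable a) (s : Finset Γ) (v : ℝ) :
    |FT a v - FF a s v| ≤ (∑' γ, a γ) - ∑ γ ∈ s, a γ := by
  unfold FT FF
  have h1 := (FT_summ ha hs v).sum_add_tsum_subtype_compl s
  have h2 := hs.sum_add_tsum_subtype_compl s
  rw [← h1, ← h2, add_sub_cancel_left, add_sub_cancel_left, ← Real.norm_eq_abs]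
  refine tsum_of_norm_bounded (hs.subtype _).hasSum fun γ => ?_
  rw [Real.norm_eq_abs, abs_mul, abs_of_nonneg (ha γ.1)]
  exact mul_le_of_le_one_right (ha γ.1) (Real.abs_cos_le_one _)

lemma exp_lip {x y B : ℝ} (hx : x ≤ B) (hy : y ≤ B) : |Real.exp x - Real.exp y| ≤ Real.exp B * |x - y| := by
  rcases le_total x y with h | h
  · rw [abs_sub_comm, abs_of_nonneg (by linarith [Real.exp_le_exp.2 h]), abs_sub_comm, abs_of_nonneg (by linarith)]
    have h1 : Real.exp x = Real.exp y * Real.exp (x - y) := by rw [← Real.exp_add]; congr 1; ring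
    have h2 := Real.add_one_le_exp (x - y)
    have h3 := Real.exp_le_exp.2 hy
    have h4 := Real.exp_pos y
    rw [h1]
    nlinarith
  · rw [abs_of_nonneg (by linarith [Real.exp_le_exp.2 h]), abs_of_nonneg (by linarith)]
    have h1 : Real.exp y = Real.exp x * Real.exp (y - x) := by rw [← Real.exp_add]; congr 1; ring
    have h2 := Real.add_one_le_exp (y - x)
    have h3 := Real.exp_le_exp.2 hx
    have h4 := Real.exp_pos x
    rw [h1]
    nlinarith

/-- **the mean value** -/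
theorem mean_exp {a : Γ → ℝ} (ha : ∀ γ, 0 ≤ a γ) (hs : Summable a) {l : ℝ} (hl : Tendsto (Mf a) atTop (𝓝 l))
    {B : ℝ → ℝ} (hB : Continuous B) (hd : Tendsto (fun v => B v - FT a v) atTop (𝓝 0)) :
    Tendsto (fun V : ℝ => (∫ v in (0:ℝ)..V, Real.exp (B v)) / V) atTop (𝓝 l) := by
  obtain ⟨S, hS⟩ : ∃ S : ℝ, S = ∑' γ, a γ := ⟨_, rfl⟩
  have hS0 : 0 ≤ S := by rw [hS]; exact tsum_nonneg ha
  rw [Metric.tendsto_nhds]
  intro ε hε
  obtain ⟨K, hK⟩ : ∃ K : ℝ, K = Real.exp (S + 1) := ⟨_, rfl⟩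
  have hK0 : 0 < K := by rw [hK]; exact Real.exp_pos _
  obtain ⟨η, hη⟩ : ∃ η : ℝ, η = min 1 (ε / (8 * K)) := ⟨_, rfl⟩
  have hη0 : 0 < η := by rw [hη]; exact lt_min one_pos (by positivity)
  have hη1 : η ≤ 1 := by rw [hη]; exact min_le_left _ _
  have hKη : K * η ≤ ε / 8 := by
    have : η ≤ ε / (8 * K) := by rw [hη]; exact min_le_right _ _
    calc K * η ≤ K * (ε / (8 * K)) := mul_le_mul_of_nonneg_left this hK0.le
      _ = ε / 8 := by field_simp
  have htail : ∀ᶠ s : Finset Γ in atTop, S - ∑ γ ∈ s, a γ < η := by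
    have h := hs.hasSum.eventually (lt_mem_nhds (show (∑' γ, a γ) - η < ∑' γ, a γ by linarith))
    filter_upwards [h] with s h1
    rw [hS]
    linarith
  obtain ⟨s, hs1, hs2⟩ := (htail.and (Metric.tendsto_nhds.1 hl (ε / 8) (by positivity))).exists
  obtain ⟨V0, hV0⟩ := (Metric.tendsto_atTop.1 hd) η hη0
  obtain ⟨V1, hV1, hV1'⟩ : ∃ V1 : ℝ, V0 ≤ V1 ∧ 0 < V1 := ⟨max V0 1, le_max_left _ _, by positivity⟩
  have hFc := FF_cont' a s
  have hEB : Continuous fun v => Real.exp (B v) := Real.continuous_exp.comp hB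
  have hEF : Continuous fun v => Real.exp (FF a s v) := Real.continuous_exp.comp hFc
  -- bound on the first part
  obtain ⟨C, hC⟩ : ∃ C : ℝ, C = ∫ v in (0:ℝ)..V1, |Real.exp (B v) - Real.exp (FF a s v)| := ⟨_, rfl⟩
  have h5 := Mf_real ha s 0
  simp only [add_zero] at h5
  filter_upwards [Metric.tendsto_nhds.1 h5 (ε / 8) (by positivity), eventually_gt_atTop V1,
    (tendsto_const_nhds (x := C)).div_atTop tendsto_id |>.eventually (gt_mem_nhds (show (0:ℝ) < ε / 8 by positivity))]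
    with V g1 hV g2
  have hVp : 0 < V := hV1'.trans hV
  have hpt : ∀ v, V1 ≤ v → |Real.exp (B v) - Real.exp (FF a s v)| ≤ K * (2 * η) := by
    intro v hv
    have e1 := hV0 v (hV1.trans hv)
    rw [Real.dist_eq, sub_zero] at e1
    have e2 := FT_diff ha hs s v
    rw [← hS] at e2
    have e3 := FT_le ha hs v
    rw [← hS] at e3
    have e4 := FF_le ha hs s v
    rw [← hS] at e4
    rw [abs_lt] at e1
    rw [abs_le] at e2 e3 e4
    refine (exp_lip (B := S + 1) (by linarith [e1.2, e3.2]) (by linarith [e4.2])).trans ?_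
    rw [← hK]
    refine mul_le_mul_of_nonneg_left ?_ hK0.le
    rw [abs_le]
    constructor <;> linarith [e1.1, e1.2, e2.1, e2.2]
  have hi1 : ∀ p q : ℝ, IntervalIntegrable (fun v => |Real.exp (B v) - Real.exp (FF a s v)|) volume p q :=
    fun p q => ((hEB.sub hEF).abs).intervalIntegrable _ _
  have g3 : |(∫ v in (0:ℝ)..V, Real.exp (B v)) / V - (∫ v in (0:ℝ)..V, Real.exp (FF a s v)) / V| ≤ ε / 8 + ε / 4 := by
    rw [← sub_div, ← intervalIntegral.integral_sub (hEB.intervalIntegrable _ _) (hEF.intervalIntegrable _ _),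
      abs_div, abs_of_pos hVp, div_le_iff₀ hVp]
    refine (intervalIntegral.abs_integral_le_integral_abs hVp.le).trans ?_
    rw [← intervalIntegral.integral_add_adjacent_intervals (hi1 0 V1) (hi1 V1 V), ← hC]
    have e1 : ∫ v in V1..V, |Real.exp (B v) - Real.exp (FF a s v)| ≤ ∫ v in V1..V, K * (2 * η) :=
      intervalIntegral.integral_mono_on hV.le (hi1 _ _) intervalIntegrable_const fun v hv => hpt v hv.1
    rw [intervalIntegral.integral_const, smul_eq_mul] at e1
    have e2 : C ≤ ε / 8 * V := by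
      have : C / V < ε / 8 := g2
      exact ((div_lt_iff₀ hVp).1 this).le
    have e3 : (V - V1) * (K * (2 * η)) ≤ V * (ε / 4) := by
      have h6 : K * (2 * η) ≤ ε / 4 := by linarith
      exact mul_le_mul (by linarith) h6 (by positivity) hVp.le
    linarith
  rw [Real.dist_eq] at g1 hs2 ⊢
  rw [abs_le] at g3
  rw [abs_lt] at g1 hs2 ⊢
  constructor <;> linarith [g3.1, g3.2, g1.1, g1.2, hs2.1, hs2.2]

end Pool.Agent.X113.HQ
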