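import Pool.Agent.X113.HQ2
import Pool.Agent.X113.HQ4
import Pool.Agent.H370R2.DirGood

set_option autoImplicit false
set_option maxHeartbeats 2000000

/-! The sum over the characters modulo `q`. -/

open Complex Filter Topology Set MeasureTheory Metric
open scoped ComplexConjugate
open Pool.Agent.Y23.G

namespace Pool.Agent.X113.HQ

/-! ### conjugation -/

lemma an_conj {f : ℂ → ℂ} {s : ℂ} (h : AnalyticAt ℂ f s) : AnalyticAt ℂ (fun z => conj (f (conj z))) (conj s) := by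
  rw [analyticAt_iff_eventually_differentiableAt] at h ⊢
  have h0 : Tendsto (fun z : ℂ => conj z) (𝓝 (conj s)) (𝓝 s) := by
    have := Complex.continuous_conj.tendsto (conj s)
    rwa [Complex.conj_conj] at this
  filter_upwards [h0.eventually h] with z hz
  have h1 := hz.hasDerivAt.conj_conj
  rw [Complex.conj_conj] at h1
  exact h1.differentiableAt

lemma ord_conj {f : ℂ → ℂ} {s : ℂ} (h : AnalyticAt ℂ f s) :
    analyticOrderAt (fun z => conj (f (conj z))) (conj s) = analyticOrderAt f s := by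
  have h0 : Tendsto (fun z : ℂ => conj z) (𝓝 (conj s)) (𝓝 s) := by
    have := Complex.continuous_conj.tendsto (conj s)
    rwa [Complex.conj_conj] at this
  rcases eq_or_ne (analyticOrderAt f s) ⊤ with h1 | h1
  · rw [h1, analyticOrderAt_eq_top]
    rw [analyticOrderAt_eq_top] at h1
    filter_upwards [h0.eventually h1] with z hz
    rw [hz, map_zero]
  · obtain ⟨n, hn⟩ := ENat.ne_top_iff_exists.mp h1
    rw [← hn]
    obtain ⟨g, hg, hg0, hfg⟩ := (h.analyticOrderAt_eq_natCast).mp hn.symm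
    rw [(an_conj h).analyticOrderAt_eq_natCast]
    refine ⟨fun z => conj (g (conj z)), an_conj hg, ?_, ?_⟩
    · show conj (g (conj (conj s))) ≠ 0
      rw [Complex.conj_conj]
      exact (map_ne_zero_iff _ (starRingEnd ℂ).injective).2 hg0
    · filter_upwards [h0.eventually hfg] with z hz
      rw [hz]
      simp only [smul_eq_mul, map_mul, map_pow, map_sub, Complex.conj_conj]

variable {q : ℕ} [NeZero q]

/-- the multiplicity of the zero `1/2 + i γ` -/
noncomputable def mch (χ : DirichletCharacter ℂ q) (γ : ℝ) : ℕ :=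
  H370.mult (DirichletCharacter.LFunction χ) (⟨1 / 2, γ⟩ : ℂ)

lemma half_ne_one (γ : ℝ) : (⟨1 / 2, γ⟩ : ℂ) ≠ 1 := fun h => by
  have := congrArg Complex.re h
  norm_num at this

lemma an_L (χ : DirichletCharacter ℂ q) (γ : ℝ) :
    AnalyticAt ℂ (DirichletCharacter.LFunction χ) (⟨1 / 2, γ⟩ : ℂ) :=
  H370.DL.analyticAt_L (half_ne_one γ)

lemma mch_inv (χ : DirichletCharacter ℂ q) (γ : ℝ) : mch χ⁻¹ (-γ) = mch χ γ := by
  unfold mch H370.mult analyticOrderNatAt
  have e : (⟨1 / 2, -γ⟩ : ℂ) = conj (⟨1 / 2, γ⟩ : ℂ) := by apply Complex.ext <;> simp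
  have h1 := ord_conj (an_L χ γ)
  have h2 : DirichletCharacter.LFunction χ⁻¹ =ᶠ[𝓝 (conj (⟨1 / 2, γ⟩ : ℂ))]
      fun z => conj (DirichletCharacter.LFunction χ (conj z)) := by
    have h3 : {z : ℂ | z ≠ 1} ∈ 𝓝 (conj (⟨1 / 2, γ⟩ : ℂ)) := by
      rw [← e]
      exact isOpen_ne.mem_nhds (half_ne_one _)
    filter_upwards [h3] with z hz
    have hz' : conj z ≠ 1 := fun h => hz (by
      have := congrArg conj h
      rwa [Complex.conj_conj, map_one] at this)
    have h4 := H370.DL.LFunction_conj χ (conj z) hz'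
    rw [Complex.conj_conj] at h4
    exact h4
  rw [e, analyticOrderAt_congr h2, h1]

/-- the total multiplicity of the ordinate `γ` on the critical line -/
noncomputable def MM (q : ℕ) [NeZero q] (γ : ℝ) : ℕ := ∑ χ : DirichletCharacter ℂ q, mch χ γ

lemma MM_neg (γ : ℝ) : MM q (-γ) = MM q γ := by
  unfold MM
  rw [← Equiv.sum_comp (Equiv.inv (DirichletCharacter ℂ q))]
  exact Finset.sum_congr rfl fun χ _ => mch_inv χ γ

/-- the Riemann hypothesis for the L-functions modulo `q` -/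
def GRH (q : ℕ) [NeZero q] : Prop := ∀ (χ : DirichletCharacter ℂ q) (s : ℂ), 0 < s.re → s.re < 1 →
  DirichletCharacter.LFunction χ s = 0 → s.re = 1 / 2

lemma mult_zero {f : ℂ → ℂ} {s : ℂ} (hf : AnalyticAt ℂ f s) (h : f s ≠ 0) : H370.mult f s = 0 := by
  unfold H370.mult analyticOrderNatAt
  rw [hf.analyticOrderAt_eq_zero.2 h]
  rfl

/-- the sum over the zeros of one L-function -/
lemma one_L (L : LFun) (hRH : ∀ s, L.X s = 0 → s.re = 1 / 2) :
    (Summable fun γ : ℝ => (H370.mult L.X (⟨1 / 2, γ⟩ : ℂ) : ℝ) * Real.exp (-(γ ^ 2) / 2)) ∧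
    ∀ v : ℝ, ∑' ρ : Zt (D := zd (L := L)), (mu ρ : ℂ) * g v ((ρ : ℂ) - 1 / 2) =
      ∑' γ : ℝ, (H370.mult L.X (⟨1 / 2, γ⟩ : ℂ) : ℂ) * g v ⟨0, γ⟩ := by
  obtain ⟨φ, hφ⟩ : ∃ φ : Zt (D := zd (L := L)) → ℝ, ∀ ρ, φ ρ = (ρ : ℂ).im := ⟨fun ρ => (ρ : ℂ).im, fun _ => rfl⟩
  have hz : ∀ ρ : Zt (D := zd (L := L)), L.X (ρ : ℂ) = 0 := fun ρ => ρ.2
  have hmk : ∀ ρ : Zt (D := zd (L := L)), (⟨1 / 2, φ ρ⟩ : ℂ) = (ρ : ℂ) := fun ρ =>
    Complex.ext (hRH _ (hz ρ)).symm (hφ ρ)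
  have hinj : Function.Injective φ := fun a b h => by
    apply Subtype.ext
    rw [← hmk a, ← hmk b, h]
  have hsup : ∀ γ : ℝ, γ ∉ Set.range φ → H370.mult L.X (⟨1 / 2, γ⟩ : ℂ) = 0 := by
    intro γ hγ
    refine mult_zero (Xd.analyticAt _) fun h0 => hγ ?_
    refine ⟨⟨⟨1 / 2, γ⟩, h0⟩, ?_⟩
    rw [hφ]
  have hsub : ∀ ρ : Zt (D := zd (L := L)), (ρ : ℂ) - 1 / 2 = ⟨0, φ ρ⟩ := by
    intro ρ
    rw [← hmk ρ, sub_half]
    norm_num
  constructor
  · have h1 := dec_summable (D := zd (L := L)) (δ := 1 / 2) (by norm_num) (Real.exp_pos _).le (g_dec 0)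
    rw [← hinj.summable_iff fun γ hγ => by rw [hsup γ hγ]; simp]
    refine h1.congr fun ρ => ?_
    simp only [Function.comp]
    rw [hsub ρ, norm_mul, g_norm, hmk ρ]
    have e : ((0:ℝ) * 0 + ((0:ℝ) ^ 2 - (φ ρ) ^ 2) / 2) = -((φ ρ) ^ 2) / 2 := by ring
    show ‖((mu (ρ : ℂ) : ℕ) : ℂ)‖ * Real.exp ((0:ℝ) * 0 + ((0:ℝ) ^ 2 - (φ ρ) ^ 2) / 2) = _
    rw [e, Complex.norm_natCast]
    rfl
  · intro v
    rw [← hinj.tsum_eq (f := fun γ : ℝ => (H370.mult L.X (⟨1 / 2, γ⟩ : ℂ) : ℂ) * g v ⟨0, γ⟩)]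
    · refine tsum_congr fun ρ => ?_
      rw [hsub ρ, hmk ρ]
      rfl
    · intro γ hγ
      by_contra hcon
      exact hγ (by
        show (H370.mult L.X (⟨1 / 2, γ⟩ : ℂ) : ℂ) * g v ⟨0, γ⟩ = 0
        rw [hsup γ hcon, Nat.cast_zero, zero_mul])

/-- the value of the primitive character inducing `χ` -/
noncomputable def pv (χ : DirichletCharacter ℂ q) (n : ℕ) : ℂ := χ.primitiveCharacter (n : ZMod χ.conductor)

lemma pv_norm (χ : DirichletCharacter ℂ q) (n : ℕ) : ‖pv χ n‖ ≤ 1 := DirichletCharacter.norm_le_one _ _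

lemma pv_coprime (χ : DirichletCharacter ℂ q) {n : ℕ} (hn : n.Coprime q) : pv χ n = χ (n : ZMod q) := by
  have h := χ.primitiveCharacter_apply_of_isCoprime (a := (n : ℤ)) (Nat.isCoprime_iff_coprime.2 hn)
  unfold pv
  simpa using h

/-- one term of the sum over the prime powers -/
noncomputable def tn (v : ℝ) (n : ℕ) : ℝ :=
  ArithmeticFunction.vonMangoldt n * (n : ℝ) ^ (-(1 / 2) : ℝ) * Real.exp (-((v - Real.log n) ^ 2) / 2)

lemma tn_nonneg (v : ℝ) (n : ℕ) : 0 ≤ tn v n :=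
  mul_nonneg (mul_nonneg ArithmeticFunction.vonMangoldt_nonneg (Real.rpow_nonneg (Nat.cast_nonneg _) _))
    (Real.exp_pos _).le

lemma tn_zero (v : ℝ) : tn v 0 = 0 := by unfold tn; simp

lemma tn_summ (v : ℝ) : Summable (tn v) := by
  obtain ⟨L, -⟩ := exists_L_one (q := 1)
  have hs : Summable fun n : ℕ => Real.exp (2 + 2 * |v| ) * (ArithmeticFunction.vonMangoldt n * (n : ℝ) ^ (-(2 : ℝ))) :=
    (lam_sum (L := L)).mul_left _
  refine Summable.of_nonneg_of_le (tn_nonneg v) (fun n => ?_) hs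
  rcases Nat.eq_zero_or_pos n with h | h
  · subst h
    rw [tn_zero]; simp
  · unfold tn
    have h0 : 0 ≤ ArithmeticFunction.vonMangoldt n := ArithmeticFunction.vonMangoldt_nonneg
    have hl : 0 ≤ Real.log n := Real.log_natCast_nonneg n
    have h1 : (n : ℝ) ^ (-(1 / 2) : ℝ) ≤ 1 :=
      Real.rpow_le_one_of_one_le_of_nonpos (by exact_mod_cast h) (by norm_num)
    have h2 : Real.exp (-((v - Real.log n) ^ 2) / 2) ≤ Real.exp (2 + 2 * |v|) * (n : ℝ) ^ (-(2 : ℝ)) := by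
      rw [← exp_log_pow (L := L) h, ← Real.exp_add]
      refine Real.exp_le_exp.2 ?_
      have h3 := sq_nonneg (Real.log n - v - 2)
      have h4 := le_abs_self v
      have h5 := neg_abs_le v
      nlinarith
    calc ArithmeticFunction.vonMangoldt n * (n : ℝ) ^ (-(1 / 2) : ℝ) * Real.exp (-((v - Real.log n) ^ 2) / 2)
        ≤ ArithmeticFunction.vonMangoldt n * 1 * (Real.exp (2 + 2 * |v|) * (n : ℝ) ^ (-(2 : ℝ))) :=
          mul_le_mul (mul_le_mul_of_nonneg_left h1 h0) h2 (Real.exp_pos _).le (by positivity)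
      _ = _ := by ring

/-- the data of every character -/
theorem exists_L (χ : DirichletCharacter ℂ q) :
    ∃ L : LFun, L.r = (if χ = 1 then 1 else 0) ∧ (∀ n : ℕ, n ≠ 0 → L.c n = pv χ n) ∧
      (∀ s : ℂ, L.X s = 0 → 0 < s.re ∧ s.re < 1) ∧
      ∀ s : ℂ, 0 < s.re → s.re < 1 → H370.mult L.X s = H370.mult (DirichletCharacter.LFunction χ) s := by
  classical
  by_cases hχ : χ = 1
  · obtain ⟨L, h1, h2, h3, h4⟩ := exists_L_one (q := q)
    subst hχ
    refine ⟨L, by rw [h1, if_pos rfl], fun n hn => ?_, h3, h4⟩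
    rw [h2 n hn]
    unfold pv
    rw [DirichletCharacter.primitiveCharacter_one]
    have hc : (1 : DirichletCharacter ℂ q).conductor = 1 := DirichletCharacter.conductor_one
    have hu : IsUnit ((n : ZMod (1 : DirichletCharacter ℂ q).conductor)) := by
      have : Subsingleton (ZMod (1 : DirichletCharacter ℂ q).conductor) := by
        rw [hc]; infer_instance
      exact isUnit_of_subsingleton _
    rw [MulChar.one_apply hu]
  · obtain ⟨L, h1, h2, h3, h4⟩ := exists_L_ne χ hχ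
    exact ⟨L, by rw [h1, if_neg hχ], h2, h3, h4⟩

/-- the explicit formula for one character -/
theorem one_chi (hG : GRH q) (χ : DirichletCharacter ℂ q) :
    (Summable fun γ : ℝ => (mch χ γ : ℝ) * Real.exp (-(γ ^ 2) / 2)) ∧
    Tendsto (fun v : ℝ => (∑' γ : ℝ, (mch χ γ : ℂ) * g v ⟨0, γ⟩) -
      ((if χ = 1 then 1 else 0) * ((Real.exp (v / 2 + 1 / 8) : ℝ) : ℂ) - (((Real.sqrt (2 * Real.pi))⁻¹ : ℝ) : ℂ) *
        ∑' n : ℕ, pv χ n * ((tn v n : ℝ) : ℂ))) atTop (𝓝 0) := by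
  classical
  obtain ⟨L, h1, h2, h3, h4⟩ := exists_L χ
  have hRH : ∀ s, L.X s = 0 → s.re = 1 / 2 := by
    intro s hs
    obtain ⟨a1, a2⟩ := h3 s hs
    refine hG χ s a1 a2 ?_
    by_contra hne
    have hs1 : s ≠ 1 := by rintro rfl; simp at a2
    have h5 := mult_zero (H370.DL.analyticAt_L (χ := χ) hs1) hne
    rw [← h4 s a1 a2, ] at h5
    have h6 := X_mpos (L := L) hs
    omega
  have hm : ∀ γ : ℝ, H370.mult L.X (⟨1 / 2, γ⟩ : ℂ) = mch χ γ := fun γ =>
    h4 _ (by norm_num) (by norm_num)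
  obtain ⟨k1, k2⟩ := one_L L hRH
  simp only [hm] at k1 k2
  refine ⟨k1, ?_⟩
  have h7 := asym (L := L)
  refine h7.congr fun v => ?_
  rw [k2 v]
  have e1 : PS (L := L) v = ∑' n : ℕ, pv χ n * ((tn v n : ℝ) : ℂ) := by
    unfold PS
    refine tsum_congr fun n => ?_
    rcases Nat.eq_zero_or_pos n with h | h
    · subst h
      rw [aL_zero, tn_zero]; simp
    · unfold aL tn Pool.Agent.TH839.NA.pw
      rw [h2 n h.ne']
      push_cast
      ring
  rw [e1, h1]
  push_cast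
  rfl

end Pool.Agent.X113.HQ
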