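import Pool.Agent.X113.HQ3

set_option autoImplicit false
set_option maxHeartbeats 2000000

/-! The prime powers congruent to one modulo `q`. -/

open Complex Filter Topology Set MeasureTheory Metric
open scoped ComplexConjugate
open Pool.Agent.Y23.G

namespace Pool.Agent.X113.HQ

variable {q : ℕ} [NeZero q]

lemma half_rpow_lt {p : ℕ} (hp : p.Prime) : (p : ℝ) ^ (-(1 / 2) : ℝ) ≤ (2 : ℝ) ^ (-(1 / 2) : ℝ) :=
  Real.rpow_le_rpow_of_nonpos (by norm_num) (by exact_mod_cast hp.two_le) (by norm_num)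

/-- the prime powers which are not coprime to `q` contribute a convergent series -/
lemma nc_summ (q : ℕ) [NeZero q] : Summable fun n : ℕ => if n.Coprime q then (0:ℝ) else
    ArithmeticFunction.vonMangoldt n * (n : ℝ) ^ (-(1 / 2) : ℝ) := by
  classical
  obtain ⟨e, he⟩ : ∃ e : {p : ℕ // p ∈ q.primeFactors} × ℕ → ℕ, ∀ x, e x = x.1.1 ^ (x.2 + 1) := ⟨_, fun _ => rfl⟩
  have hpr : ∀ x : {p : ℕ // p ∈ q.primeFactors}, x.1.Prime := fun x => Nat.prime_of_mem_primeFactors x.2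
  have hinj : Function.Injective e := by
    intro x y h
    rw [he, he] at h
    have h1 : x.1.1 = y.1.1 := by
      have h2 : x.1.1 ∣ y.1.1 ^ (y.2 + 1) := by rw [← h]; exact dvd_pow_self _ (Nat.succ_ne_zero _)
      exact (Nat.prime_dvd_prime_iff_eq (hpr x.1) (hpr y.1)).1 ((hpr x.1).dvd_of_dvd_pow h2)
    rw [h1] at h
    have h3 := Nat.pow_right_injective (hpr y.1).two_le h
    exact Prod.ext (Subtype.ext h1) (by simpa using h3)
  have hout : ∀ n : ℕ, n ∉ Set.range e → (if n.Coprime q then (0:ℝ) else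
      ArithmeticFunction.vonMangoldt n * (n : ℝ) ^ (-(1 / 2) : ℝ)) = 0 := by
    intro n hn
    split_ifs with h1
    · rfl
    · by_cases h2 : IsPrimePow n
      · exfalso
        obtain ⟨p, k, hp, hk, rfl⟩ := (isPrimePow_nat_iff n).1 h2
        apply hn
        have h3 : p ∣ q := by
          by_contra h4
          exact h1 (Nat.Coprime.pow_left k ((Nat.Prime.coprime_iff_not_dvd hp).2 h4))
        refine ⟨(⟨p, Nat.mem_primeFactors.2 ⟨hp, h3, NeZero.ne q⟩⟩, k - 1), ?_⟩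
        rw [he]
        show p ^ (k - 1 + 1) = p ^ k
        rw [Nat.sub_add_cancel hk]
      · rw [ArithmeticFunction.vonMangoldt_eq_zero_iff.2 h2, zero_mul]
  rw [← hinj.summable_iff hout]
  have hr0 : (0:ℝ) ≤ (2 : ℝ) ^ (-(1 / 2) : ℝ) := by positivity
  have hr1 : (2 : ℝ) ^ (-(1 / 2) : ℝ) < 1 := Real.rpow_lt_one_of_one_lt_of_neg (by norm_num) (by norm_num)
  have hs : Summable fun x : {p : ℕ // p ∈ q.primeFactors} × ℕ => Real.log x.1.1 * ((2 : ℝ) ^ (-(1 / 2) : ℝ)) ^ x.2 :=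
    Summable.mul_of_nonneg (f := fun x : {p : ℕ // p ∈ q.primeFactors} => Real.log x.1)
      (g := fun k : ℕ => ((2 : ℝ) ^ (-(1 / 2) : ℝ)) ^ k) Summable.of_finite
      (summable_geometric_of_lt_one hr0 hr1) (fun x => Real.log_natCast_nonneg _) (fun k => by positivity)
  refine Summable.of_nonneg_of_le (fun x => ?_) (fun x => ?_) hs
  · simp only [Function.comp]
    split_ifs
    · exact le_rfl
    · exact mul_nonneg ArithmeticFunction.vonMangoldt_nonneg (Real.rpow_nonneg (Nat.cast_nonneg _) _)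
  · simp only [Function.comp]
    have hp := hpr x.1
    have h0 : 0 ≤ Real.log x.1.1 := Real.log_natCast_nonneg _
    split_ifs with h1
    · positivity
    · rw [he, ArithmeticFunction.vonMangoldt_apply_pow (Nat.succ_ne_zero _), ArithmeticFunction.vonMangoldt_apply_prime hp]
      refine mul_le_mul_of_nonneg_left ?_ h0
      have h2 : (((x.1.1 ^ (x.2 + 1) : ℕ) : ℝ)) ^ (-(1 / 2) : ℝ) = ((x.1.1 : ℝ) ^ (-(1 / 2) : ℝ)) ^ (x.2 + 1) := by
        rw [Nat.cast_pow, ← Real.rpow_natCast, ← Real.rpow_natCast, ← Real.rpow_mul (Nat.cast_nonneg _),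
          ← Real.rpow_mul (Nat.cast_nonneg _)]
        congr 1
        ring
      rw [h2]
      calc ((x.1.1 : ℝ) ^ (-(1 / 2) : ℝ)) ^ (x.2 + 1) ≤ ((2 : ℝ) ^ (-(1 / 2) : ℝ)) ^ (x.2 + 1) :=
            pow_le_pow_left₀ (by positivity) (half_rpow_lt hp) _
        _ ≤ ((2 : ℝ) ^ (-(1 / 2) : ℝ)) ^ x.2 := pow_le_pow_of_le_one hr0 hr1.le (Nat.le_succ _)

lemma tn_le (v : ℝ) (n : ℕ) : tn v n ≤ ArithmeticFunction.vonMangoldt n * (n : ℝ) ^ (-(1 / 2) : ℝ) := by
  unfold tn
  have h1 : 0 ≤ ArithmeticFunction.vonMangoldt n * (n : ℝ) ^ (-(1 / 2) : ℝ) :=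
    mul_nonneg ArithmeticFunction.vonMangoldt_nonneg (Real.rpow_nonneg (Nat.cast_nonneg _) _)
  refine mul_le_of_le_one_right h1 ?_
  rw [Real.exp_le_one_iff]
  have := sq_nonneg (v - Real.log n)
  linarith

lemma tn_tendsto (n : ℕ) : Tendsto (fun v => tn v n) atTop (𝓝 0) := by
  have h1 : Tendsto (fun v : ℝ => (v - Real.log n) ^ 2 / 2) atTop atTop :=
    ((tendsto_pow_atTop two_ne_zero).comp (tendsto_atTop_add_const_right atTop (-Real.log n) tendsto_id)).atTop_div_const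
      (by norm_num)
  have h2 := (Real.tendsto_exp_neg_atTop_nhds_zero.comp h1).const_mul
    (ArithmeticFunction.vonMangoldt n * (n : ℝ) ^ (-(1 / 2) : ℝ))
  rw [mul_zero] at h2
  refine h2.congr fun v => ?_
  unfold tn
  simp only [Function.comp]
  congr 2
  ring

/-- the sum of the values -/
noncomputable def kap (q : ℕ) [NeZero q] (n : ℕ) : ℂ := ∑ χ : DirichletCharacter ℂ q, pv χ n

lemma kap_norm (n : ℕ) : ‖kap q n‖ ≤ Fintype.card (DirichletCharacter ℂ q) := by
  unfold kap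
  refine (norm_sum_le _ _).trans ?_
  refine (Finset.sum_le_sum fun χ _ => pv_norm χ n).trans ?_
  simp

open Classical in
lemma kap_coprime {n : ℕ} (hn : n.Coprime q) : kap q n = if (n : ZMod q) = 1 then (q.totient : ℂ) else 0 := by
  unfold kap
  rw [← DirichletCharacter.sum_characters_eq ℂ (n : ZMod q)]
  exact Finset.sum_congr rfl fun χ _ => pv_coprime χ hn

lemma coprime_of_one {n : ℕ} (h : (n : ZMod q) = 1) : n.Coprime q := by
  rw [← ZMod.isUnit_iff_coprime, h]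
  exact isUnit_one

open Classical in
/-- the prime side -/
noncomputable def Aq (q : ℕ) [NeZero q] (v : ℝ) : ℝ := (Real.sqrt (2 * Real.pi))⁻¹ *
  (q.totient * ∑' n : ℕ, if (n : ZMod q) = 1 then tn v n else 0) - Real.exp (v / 2 + 1 / 8)

open Classical in
lemma one_summ (v : ℝ) : Summable fun n : ℕ => if (n : ZMod q) = 1 then tn v n else 0 := by
  refine Summable.of_nonneg_of_le (fun n => ?_) (fun n => ?_) (tn_summ v)
  · split_ifs
    · exact tn_nonneg v n
    · exact le_rfl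
  · split_ifs
    · exact le_rfl
    · exact tn_nonneg v n

lemma kap_summ (v : ℝ) : Summable fun n : ℕ => kap q n * ((tn v n : ℝ) : ℂ) := by
  refine Summable.of_norm_bounded ((tn_summ v).mul_left (Fintype.card (DirichletCharacter ℂ q) : ℝ)) fun n => ?_
  rw [norm_mul, Complex.norm_real, Real.norm_of_nonneg (tn_nonneg v n)]
  exact mul_le_mul_of_nonneg_right (kap_norm n) (tn_nonneg v n)

lemma pv_summ (χ : DirichletCharacter ℂ q) (v : ℝ) : Summable fun n : ℕ => pv χ n * ((tn v n : ℝ) : ℂ) := by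
  refine Summable.of_norm_bounded (tn_summ v) fun n => ?_
  rw [norm_mul, Complex.norm_real, Real.norm_of_nonneg (tn_nonneg v n)]
  exact mul_le_of_le_one_left (tn_nonneg v n) (pv_norm χ n)

open Classical in
/-- the prime powers with a common factor with `q` are negligible -/
lemma rest_tendsto : Tendsto (fun v : ℝ => (∑' n : ℕ, kap q n * ((tn v n : ℝ) : ℂ)) -
    (((q.totient : ℝ) * ∑' n : ℕ, (if (n : ZMod q) = 1 then tn v n else 0) : ℝ) : ℂ)) atTop (𝓝 0) := by
  have key : ∀ v : ℝ, (∑' n : ℕ, kap q n * ((tn v n : ℝ) : ℂ)) -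
      (((q.totient : ℝ) * ∑' n : ℕ, (if (n : ZMod q) = 1 then tn v n else 0) : ℝ) : ℂ) =
      ∑' n : ℕ, if n.Coprime q then (0:ℂ) else kap q n * ((tn v n : ℝ) : ℂ) := by
    intro v
    rw [← tsum_mul_left, Complex.ofReal_tsum, ← (kap_summ v).tsum_sub]
    · refine tsum_congr fun n => ?_
      by_cases h1 : n.Coprime q
      · rw [if_pos h1, kap_coprime h1]
        split_ifs <;> simp
      · have h2 : (n : ZMod q) ≠ 1 := fun h => h1 (coprime_of_one h)
        rw [if_neg h1, if_neg h2]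
        simp
    · have := ((one_summ (q := q) v).mul_left (q.totient : ℝ))
      exact Complex.summable_ofReal.2 this
  simp only [key]
  suffices h5 : Tendsto (fun v : ℝ => ∑' n : ℕ, if n.Coprime q then (0:ℂ) else kap q n * ((tn v n : ℝ) : ℂ))
      atTop (𝓝 (∑' _ : ℕ, (0:ℂ))) by
    rw [tsum_zero] at h5
    exact h5
  refine tendsto_tsum_of_dominated_convergence (bound := fun n : ℕ => (Fintype.card (DirichletCharacter ℂ q) : ℝ) *
    (if n.Coprime q then (0:ℝ) else ArithmeticFunction.vonMangoldt n * (n : ℝ) ^ (-(1 / 2) : ℝ)))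
    ((nc_summ q).mul_left _) (fun n => ?_) (Eventually.of_forall fun v n => ?_)
  · split_ifs with h1
    · exact tendsto_const_nhds
    · have h2 := (Complex.continuous_ofReal.tendsto 0).comp (tn_tendsto n)
      have h3 := h2.const_mul (kap q n)
      rw [Complex.ofReal_zero, mul_zero] at h3
      exact h3
  · split_ifs with h1
    · simp
    · rw [norm_mul, Complex.norm_real, Real.norm_of_nonneg (tn_nonneg v n)]
      exact mul_le_mul (kap_norm n) (tn_le v n) (tn_nonneg v n) (Nat.cast_nonneg _)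

/-- **the explicit formula modulo `q`** -/
theorem explq (hG : GRH q) :
    (Summable fun γ : ℝ => (MM q γ : ℝ) * Real.exp (-(γ ^ 2) / 2)) ∧
    Tendsto (fun v : ℝ => Aq q v + ∑' γ : ℝ, (MM q γ : ℝ) * Real.exp (-(γ ^ 2) / 2) * Real.cos (γ * v)) atTop (𝓝 0) := by
  classical
  have hs1 : Summable fun γ : ℝ => (MM q γ : ℝ) * Real.exp (-(γ ^ 2) / 2) := by
    have h := summable_sum (s := (Finset.univ : Finset (DirichletCharacter ℂ q)))
      (f := fun χ γ => (mch χ γ : ℝ) * Real.exp (-(γ ^ 2) / 2)) fun χ _ => (one_chi hG χ).1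
    refine h.congr fun γ => ?_
    unfold MM
    rw [Nat.cast_sum, Finset.sum_mul]
  refine ⟨hs1, ?_⟩
  have hgn : ∀ (v γ : ℝ), ‖g v ⟨0, γ⟩‖ = Real.exp (-(γ ^ 2) / 2) := fun v γ => by
    rw [g_norm]
    congr 1
    show (0:ℝ) * v + ((0:ℝ) ^ 2 - γ ^ 2) / 2 = _
    ring
  have hsc : ∀ (χ : DirichletCharacter ℂ q) (v : ℝ), Summable fun γ : ℝ => (mch χ γ : ℂ) * g v ⟨0, γ⟩ := by
    intro χ v
    refine Summable.of_norm_bounded (one_chi hG χ).1 fun γ => ?_
    rw [norm_mul, hgn, Complex.norm_natCast]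
  have hsM : ∀ v : ℝ, Summable fun γ : ℝ => (MM q γ : ℂ) * g v ⟨0, γ⟩ := by
    intro v
    refine Summable.of_norm_bounded hs1 fun γ => ?_
    rw [norm_mul, hgn, Complex.norm_natCast]
  have h1 := tendsto_finsetSum (Finset.univ : Finset (DirichletCharacter ℂ q)) fun χ _ => (one_chi hG χ).2
  rw [Finset.sum_const_zero] at h1
  have h2 := (rest_tendsto (q := q)).const_mul (((Real.sqrt (2 * Real.pi))⁻¹ : ℝ) : ℂ)
  rw [mul_zero] at h2
  have h3 := h1.sub h2
  rw [sub_zero] at h3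
  have h4 := (Complex.continuous_re.tendsto 0).comp h3
  rw [Complex.zero_re] at h4
  refine h4.congr fun v => ?_
  have e1 : ∑ χ : DirichletCharacter ℂ q, ∑' γ : ℝ, (mch χ γ : ℂ) * g v ⟨0, γ⟩ =
      ∑' γ : ℝ, (MM q γ : ℂ) * g v ⟨0, γ⟩ := by
    rw [← Summable.tsum_finsetSum fun χ _ => hsc χ v]
    refine tsum_congr fun γ => ?_
    unfold MM
    rw [Nat.cast_sum, Finset.sum_mul]
  have e2 : ∑ χ : DirichletCharacter ℂ q, ∑' n : ℕ, pv χ n * ((tn v n : ℝ) : ℂ) =
      ∑' n : ℕ, kap q n * ((tn v n : ℝ) : ℂ) := by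
    rw [← Summable.tsum_finsetSum fun χ _ => pv_summ χ v]
    refine tsum_congr fun n => ?_
    unfold kap
    rw [Finset.sum_mul]
  have e3 : ∑ χ : DirichletCharacter ℂ q, (if χ = 1 then (1:ℂ) else 0) = 1 := by simp
  simp only [Function.comp]
  rw [Finset.sum_sub_distrib, Finset.sum_sub_distrib, ← Finset.sum_mul, ← Finset.mul_sum, e1, e2, e3]
  have e4 : (∑' γ : ℝ, (MM q γ : ℂ) * g v ⟨0, γ⟩).re =
      ∑' γ : ℝ, (MM q γ : ℝ) * Real.exp (-(γ ^ 2) / 2) * Real.cos (γ * v) := by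
    rw [Complex.re_tsum (hsM v)]
    refine tsum_congr fun γ => ?_
    rw [g_im]
    have : ((MM q γ : ℂ) * (((Real.exp (-(γ ^ 2) / 2) : ℝ) : ℂ) * cexp (((γ * v : ℝ) : ℂ) * I))) =
        (((MM q γ : ℝ) * Real.exp (-(γ ^ 2) / 2) : ℝ) : ℂ) * cexp (((γ * v : ℝ) : ℂ) * I) := by
      push_cast; ring
    rw [this, Complex.re_ofReal_mul, Complex.exp_ofReal_mul_I_re]
  have e5 : ∀ (Z : ℂ) (E s P : ℝ) (K : ℂ), (Z - (1 * (E : ℂ) - (s : ℂ) * K) - (s : ℂ) * (K - (P : ℂ))).re =
      (s * P - E) + Z.re := by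
    intro Z E s P K
    have : Z - (1 * (E : ℂ) - (s : ℂ) * K) - (s : ℂ) * (K - (P : ℂ)) = Z + ((s * P - E : ℝ) : ℂ) := by
      push_cast; ring
    rw [this, Complex.add_re, Complex.ofReal_re]
    ring
  rw [e5, e4]
  rfl

end Pool.Agent.X113.HQ
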