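import Pool.Agent.X113.HQ5

set_option autoImplicit false
set_option maxHeartbeats 2000000

/-! The mean value under the Riemann hypothesis modulo `q`. -/

open Complex Filter Topology Set MeasureTheory Metric
open scoped ComplexConjugate
open Pool.Agent.Y23.G

namespace Pool.Agent.X113.HQ

variable {q : ℕ} [NeZero q]

/-- the distinct positive ordinates on the critical line -/
def Gam (q : ℕ) [NeZero q] : Set ℝ :=
  {γ | 0 < γ ∧ ∃ χ : DirichletCharacter ℂ q, DirichletCharacter.LFunction χ (⟨1 / 2, γ⟩ : ℂ) = 0}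

lemma mch_pos_iff {χ : DirichletCharacter ℂ q} {γ : ℝ} (hγ : 0 < γ) :
    0 < mch χ γ ↔ DirichletCharacter.LFunction χ (⟨1 / 2, γ⟩ : ℂ) = 0 := by
  have hU : IsPreconnected {s : ℂ | 0 < s.im} := (convex_halfSpace_im_gt 0).isPreconnected
  have hne : ∀ s : ℂ, 0 < s.im → s ≠ 1 := fun s hs h => by rw [h, Complex.one_im] at hs; exact lt_irrefl _ hs
  exact H370.Loc.mult_pos (f := DirichletCharacter.LFunction χ) (K := {s : ℂ | 0 < s.im}) hU
    (fun s hs => H370.DL.analyticAt_L (hne s hs)) (c := ⟨2, 1⟩) (by show (0:ℝ) < 1; norm_num)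
    (DirichletCharacter.LFunction_ne_zero_of_one_le_re χ (Or.inr (hne _ (by show (0:ℝ) < 1; norm_num)))
      (by show (1:ℝ) ≤ 2; norm_num)) (show (0:ℝ) < γ from hγ)

lemma MM_pos_iff {γ : ℝ} (hγ : 0 < γ) : 0 < MM q γ ↔ γ ∈ Gam q := by
  unfold MM Gam
  rw [Finset.sum_pos_iff]
  constructor
  · rintro ⟨χ, -, h⟩
    exact ⟨hγ, χ, (mch_pos_iff hγ).1 h⟩
  · rintro ⟨-, χ, h⟩
    exact ⟨χ, Finset.mem_univ _, (mch_pos_iff hγ).2 h⟩

/-- an even function -/
lemma even_tsum {F : ℝ → ℝ} (hF : Summable F) (he : ∀ x, F (-x) = F x) {Γ : Set ℝ} (hΓ : ∀ x ∈ Γ, 0 < x)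
    (h0 : ∀ x, 0 < x → x ∉ Γ → F x = 0) : ∑' x, F x = F 0 + 2 * ∑' x : Γ, F x := by
  have h1 : ∀ x, F x = ({0} : Set ℝ).indicator F x + ((Ioi (0:ℝ)).indicator F x + (Iio (0:ℝ)).indicator F x) := by
    intro x
    rcases lt_trichotomy x 0 with h | h | h
    · rw [indicator_of_notMem (by simp [h.ne]), indicator_of_notMem (by simp [h.le]),
        indicator_of_mem (by simpa using h)]
      ring
    · subst h
      rw [indicator_of_mem (by simp), indicator_of_notMem (by simp), indicator_of_notMem (by simp)]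
      ring
    · rw [indicator_of_notMem (by simp [h.ne']), indicator_of_mem (by simpa using h),
        indicator_of_notMem (by simp [h.le])]
      ring
  have s0 := hF.indicator {0}
  have s1 := hF.indicator (Ioi (0:ℝ))
  have s2 := hF.indicator (Iio (0:ℝ))
  have e0 : ∑' x, ({0} : Set ℝ).indicator F x = F 0 := by
    rw [← tsum_subtype, tsum_singleton]
  have e2 : ∑' x, (Iio (0:ℝ)).indicator F x = ∑' x, (Ioi (0:ℝ)).indicator F x := by
    rw [← (Equiv.neg ℝ).tsum_eq]
    refine tsum_congr fun x => ?_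
    show (Iio (0:ℝ)).indicator F (-x) = (Ioi (0:ℝ)).indicator F x
    by_cases h : 0 < x
    · rw [indicator_of_mem (by simpa using h), indicator_of_mem (by simpa using h), he]
    · rw [indicator_of_notMem (by simpa using h), indicator_of_notMem (by simpa using h)]
  have e1 : ∑' x, (Ioi (0:ℝ)).indicator F x = ∑' x : Γ, F x := by
    rw [← tsum_subtype_eq_of_support_subset (f := (Ioi (0:ℝ)).indicator F) (s := Γ)]
    · refine tsum_congr fun x => ?_
      rw [indicator_of_mem (show (x:ℝ) ∈ Ioi (0:ℝ) from hΓ x x.2)]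
    · intro x hx
      rw [Function.mem_support] at hx
      by_contra hc
      apply hx
      by_cases h : 0 < x
      · rw [indicator_of_mem (by simpa using h), h0 x h hc]
      · rw [indicator_of_notMem (by simpa using h)]
  calc ∑' x, F x = ∑' x, (({0} : Set ℝ).indicator F x + ((Ioi (0:ℝ)).indicator F x + (Iio (0:ℝ)).indicator F x)) :=
        tsum_congr h1
    _ = F 0 + 2 * ∑' x : Γ, F x := by
        rw [s0.tsum_add (s1.add s2), s1.tsum_add s2, e0, e2, e1]
        ring

/-- the amplitude -/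
noncomputable def am (q : ℕ) [NeZero q] (γ : Gam q) : ℝ := 2 * ((MM q γ : ℝ) * Real.exp (-((γ : ℝ) ^ 2) / 2))

lemma am_pos (γ : Gam q) : 0 < am q γ := by
  have h := (MM_pos_iff (q := q) γ.2.1).2 γ.2
  have h1 : (0:ℝ) < MM q γ := by exact_mod_cast h
  unfold am
  positivity

lemma am_summ (hG : GRH q) : Summable (am q) := by
  have h := (explq hG).1
  exact (h.subtype (Gam q)).mul_left 2

/-- the explicit formula in terms of the positive ordinates -/
theorem expl_pos (hG : GRH q) : Tendsto (fun v : ℝ => Aq q v + (MM q 0 : ℝ) + FT (am q) v) atTop (𝓝 0) := by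
  obtain ⟨h1, h2⟩ := explq hG
  refine h2.congr fun v => ?_
  have hs : Summable fun γ : ℝ => (MM q γ : ℝ) * Real.exp (-(γ ^ 2) / 2) * Real.cos (γ * v) := by
    refine Summable.of_norm_bounded h1 fun γ => ?_
    rw [norm_mul, Real.norm_of_nonneg (by positivity)]
    exact mul_le_of_le_one_right (by positivity) (Real.abs_cos_le_one _)
  rw [even_tsum hs (fun x => by rw [MM_neg, neg_sq, neg_mul, Real.cos_neg]) (Γ := Gam q) (fun x hx => hx.1)
    (fun x hx hn => by
      have : MM q x = 0 := by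
        by_contra h
        exact hn ((MM_pos_iff hx).1 (Nat.pos_of_ne_zero h))
      rw [this]; simp)]
  unfold FT am
  rw [← tsum_mul_left]
  have e : (MM q 0 : ℝ) * Real.exp (-((0:ℝ) ^ 2) / 2) * Real.cos (0 * v) = MM q 0 := by simp
  rw [e, add_assoc]
  congr 2
  exact tsum_congr fun x => by ring

lemma tn_bd (v : ℝ) (n : ℕ) : tn v n ≤ Real.exp (2 + 2 * |v| ) * (ArithmeticFunction.vonMangoldt n * (n : ℝ) ^ (-(2 : ℝ))) := by
  obtain ⟨L, -⟩ := exists_L_one (q := 1)
  rcases Nat.eq_zero_or_pos n with h | h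
  · subst h
    rw [tn_zero]; simp
  · unfold tn
    have h0 : 0 ≤ ArithmeticFunction.vonMangoldt n := ArithmeticFunction.vonMangoldt_nonneg
    have hl : 0 ≤ Real.log n := Real.log_natCast_nonneg n
    have h1 : (n : ℝ) ^ (-(1 / 2) : ℝ) ≤ 1 :=
      Real.rpow_le_one_of_one_le_of_nonpos (by exact_mod_cast h) (by norm_num)
    have h2 : Real.exp (-((v - Real.log n) ^ 2) / 2) ≤ Real.exp (2 + 2 * |v|) * (n : ℝ) ^ (-(2 : ℝ)) := by
      rw [← exp_log_pow (L := L) h, ← Real.exp_add]
      refine Real.exp_le_exp.2 ?_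
      have h3 := sq_nonneg (Real.log n - v - 2)
      have h4 := le_abs_self v
      have h5 := neg_abs_le v
      nlinarith
    calc ArithmeticFunction.vonMangoldt n * (n : ℝ) ^ (-(1 / 2) : ℝ) * Real.exp (-((v - Real.log n) ^ 2) / 2)
        ≤ ArithmeticFunction.vonMangoldt n * 1 * (Real.exp (2 + 2 * |v|) * (n : ℝ) ^ (-(2 : ℝ))) :=
          mul_le_mul (mul_le_mul_of_nonneg_left h1 h0) h2 (Real.exp_pos _).le (by positivity)
      _ = _ := by ring

lemma lam2_summ : Summable fun n : ℕ => ArithmeticFunction.vonMangoldt n * (n : ℝ) ^ (-(2 : ℝ)) := by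
  obtain ⟨L, -⟩ := exists_L_one (q := 1)
  exact lam_sum (L := L)

lemma tn_cont (n : ℕ) : Continuous fun v => tn v n := by
  unfold tn
  fun_prop

lemma Aq_cont : Continuous (Aq q) := by
  classical
  unfold Aq
  have h1 : Continuous fun v : ℝ => ∑' n : ℕ, if (n : ZMod q) = 1 then tn v n else 0 := by
    rw [continuous_iff_continuousAt]
    intro v0
    have hb : ball (0:ℝ) (|v0| + 1) ∈ 𝓝 v0 := isOpen_ball.mem_nhds (by simp)
    refine ContinuousOn.continuousAt (s := ball (0:ℝ) (|v0| + 1)) ?_ hb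
    refine continuousOn_tsum (u := fun n : ℕ => Real.exp (2 + 2 * (|v0| + 1)) *
      (ArithmeticFunction.vonMangoldt n * (n : ℝ) ^ (-(2 : ℝ)))) (fun n => ?_) (lam2_summ.mul_left _) fun n v hv => ?_
    · split_ifs
      · exact (tn_cont n).continuousOn
      · exact continuousOn_const
    · have hv' : |v| < |v0| + 1 := by simpa using hv
      have h0 : 0 ≤ ArithmeticFunction.vonMangoldt n := ArithmeticFunction.vonMangoldt_nonneg
      have h2 : ‖if (n : ZMod q) = 1 then tn v n else 0‖ ≤ tn v n := by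
        split_ifs
        · rw [Real.norm_of_nonneg (tn_nonneg v n)]
        · rw [norm_zero]; exact tn_nonneg v n
      refine h2.trans ((tn_bd v n).trans ?_)
      refine mul_le_mul_of_nonneg_right (Real.exp_le_exp.2 (by linarith)) ?_
      exact mul_nonneg h0 (Real.rpow_nonneg (Nat.cast_nonneg _) _)
  fun_prop

/-- **the exponential mean under the Riemann hypothesis modulo `q`** -/
theorem mean_q (hG : GRH q) {lam : ℝ} (hlam : 0 < lam) :
    ∃ l : ℝ, Tendsto (fun V : ℝ => (∫ v in (0:ℝ)..V, Real.exp (-(lam * Aq q v))) / V) atTop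
        (𝓝 (Real.exp (lam * MM q 0) * l)) ∧
      ∏' γ : Gam q, LI.I0 (lam * am q γ) ≤ l ∧
      (l = ∏' γ : Gam q, LI.I0 (lam * am q γ) ↔ LinearIndependent ℚ (fun γ : Gam q => (γ : ℝ))) := by
  have hs : Summable fun γ : Gam q => lam * am q γ := (am_summ hG).mul_left lam
  have hpos : ∀ γ : Gam q, 0 < lam * am q γ := fun γ => mul_pos hlam (am_pos γ)
  obtain ⟨l, h1, h2, h3⟩ := LI.detect hpos hs
  refine ⟨l, ?_, h2, h3⟩
  have hB : Continuous fun v => -(lam * Aq q v) - lam * MM q 0 := by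
    have := Aq_cont (q := q)
    fun_prop
  have hd : Tendsto (fun v => (-(lam * Aq q v) - lam * MM q 0) - FT (fun γ : Gam q => lam * am q γ) v) atTop (𝓝 0) := by
    have h := (expl_pos hG).const_mul (-lam)
    rw [mul_zero] at h
    refine h.congr fun v => ?_
    have e : FT (fun γ : Gam q => lam * am q γ) v = lam * FT (am q) v := by
      unfold FT
      rw [← tsum_mul_left]
      exact tsum_congr fun γ => by ring
    rw [e]
    ring
  have h4 := (mean_exp (fun γ => (hpos γ).le) hs h1 hB hd).const_mul (Real.exp (lam * MM q 0))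
  refine h4.congr fun V => ?_
  rw [← mul_div_assoc, ← intervalIntegral.integral_const_mul]
  congr 1
  refine intervalIntegral.integral_congr fun v _ => ?_
  show Real.exp (lam * MM q 0) * Real.exp (-(lam * Aq q v) - lam * MM q 0) = Real.exp (-(lam * Aq q v))
  rw [← Real.exp_add]
  congr 1
  ring

end Pool.Agent.X113.HQ
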