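import Pool.Agent.X113.HQ6

set_option autoImplicit false
set_option maxHeartbeats 2000000

/-! Hooley's hypothesis and the product over the distinct ordinates. -/

open Complex Filter Topology Set MeasureTheory Metric
open scoped ComplexConjugate
open Pool.Agent.Y23.G

namespace Pool.Agent.X113.HQ

/-! ### products -/

lemma I0_summ (t : ℝ) : Summable fun j : ℕ => (t / 2) ^ (2 * j) / (j.factorial : ℝ) ^ 2 := by
  have h := Real.summable_pow_div_factorial ((t / 2) ^ 2)
  refine Summable.of_nonneg_of_le (fun j => ?_) (fun j => ?_) h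
  · rw [pow_mul]; positivity
  · rw [pow_mul]
    apply div_le_div_of_nonneg_left (by positivity) (by positivity)
    have : (1 : ℝ) ≤ (j.factorial : ℝ) := by exact_mod_cast Nat.succ_le_of_lt j.factorial_pos
    nlinarith

lemma I0_lt {s t : ℝ} (hs : 0 ≤ s) (h : s < t) : LI.I0 s < LI.I0 t := by
  unfold LI.I0
  refine Summable.tsum_lt_tsum (i := 1) (fun j => ?_) ?_ (I0_summ s) (I0_summ t)
  · refine div_le_div_of_nonneg_right (pow_le_pow_left₀ (by linarith) (by linarith) _) (by positivity)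
  · norm_num
    nlinarith

lemma I0_mono {s t : ℝ} (hs : 0 ≤ s) (h : s ≤ t) : LI.I0 s ≤ LI.I0 t := by
  rcases h.eq_or_lt with h | h
  · rw [h]
  · exact (I0_lt hs h).le

lemma prod_cmp {ι : Type*} {f g : ι → ℝ} (hf : Multipliable f) (hg : Multipliable g) (h1 : ∀ i, 1 ≤ f i)
    (h : ∀ i, f i ≤ g i) : ∏' i, f i ≤ ∏' i, g i ∧ (∏' i, f i = ∏' i, g i → ∀ i, f i = g i) := by
  classical
  have hpf := hf.hasProd
  have hpg := hg.hasProd
  have hf0 : ∀ i, 0 < f i := fun i => zero_lt_one.trans_le (h1 i)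
  have hone : ∀ s : Finset ι, 1 ≤ ∏ i ∈ s, f i := by
    intro s
    induction s using Finset.induction_on with
    | empty => simp
    | insert i s hi ih =>
      rw [Finset.prod_insert hi]
      have := h1 i
      nlinarith
  have hF1 : 1 ≤ ∏' i, f i := ge_of_tendsto' hpf hone
  refine ⟨le_of_tendsto_of_tendsto' hpf hpg fun s => Finset.prod_le_prod (fun i _ => (hf0 i).le) fun i _ => h i, ?_⟩
  intro heq
  by_contra hn
  push Not at hn
  obtain ⟨i, hi⟩ := hn
  have hlt : f i < g i := lt_of_le_of_ne (h i) hi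
  obtain ⟨r, hr⟩ : ∃ r : ℝ, r = g i / f i := ⟨_, rfl⟩
  have hr1 : 1 < r := by rw [hr, one_lt_div (hf0 i)]; exact hlt
  have h2 : r * ∏' i, f i ≤ ∏' i, g i := by
    refine le_of_tendsto_of_tendsto (Tendsto.const_mul r hpf) hpg ?_
    filter_upwards [eventually_ge_atTop ({i} : Finset ι)] with s hs
    have his : i ∈ s := hs (Finset.mem_singleton_self i)
    rw [← Finset.mul_prod_erase s f his, ← Finset.mul_prod_erase s g his, hr]
    have e : g i / f i * (f i * ∏ x ∈ s.erase i, f x) = g i * ∏ x ∈ s.erase i, f x := by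
      have := (hf0 i).ne'
      field_simp
    rw [e]
    exact mul_le_mul_of_nonneg_left (Finset.prod_le_prod (fun i _ => (hf0 i).le) fun i _ => h i)
      ((hf0 i).le.trans (h i))
  rw [← heq] at h2
  nlinarith

variable {q : ℕ} [NeZero q]

/-! ### zeros -/

lemma mL_pos {χ : DirichletCharacter ℂ q} {s : ℂ} (hs : s ≠ 1) :
    0 < H370.mult (DirichletCharacter.LFunction χ) s ↔ DirichletCharacter.LFunction χ s = 0 := by
  have hU : IsPreconnected ({(1:ℂ)}ᶜ : Set ℂ) :=
    (isConnected_compl_singleton_of_one_lt_rank (by simp) (1:ℂ)).isPreconnected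
  have h2 : (2:ℂ) ≠ 1 := by norm_num
  exact H370.Loc.mult_pos (f := DirichletCharacter.LFunction χ) (K := {(1:ℂ)}ᶜ) hU
    (fun s hs => H370.DL.analyticAt_L hs) (c := 2) h2
    (DirichletCharacter.LFunction_ne_zero_of_one_le_re χ (Or.inr h2) (by norm_num)) hs

lemma strip_ne {s : ℂ} (h1 : s.re < 1) : s ≠ 1 := by
  rintro rfl
  simp at h1

/-- the zeros are symmetric with respect to the critical line -/
lemma L_refl {χ : DirichletCharacter ℂ q} {s : ℂ} (h0 : 0 < s.re) (h1 : s.re < 1)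
    (h : DirichletCharacter.LFunction χ s = 0) : DirichletCharacter.LFunction χ (1 - conj s) = 0 := by
  obtain ⟨L, -, -, -, h4⟩ := exists_L χ
  have hr : (1 - conj s).re = 1 - s.re := by simp
  rw [← mL_pos (strip_ne (by rw [hr]; linarith)), ← h4 _ (by rw [hr]; linarith) (by rw [hr]; linarith),
    X_mrefl, h4 s h0 h1, mL_pos (strip_ne h1)]
  exact h

lemma L_conj {χ : DirichletCharacter ℂ q} {s : ℂ} (h1 : s ≠ 1)
    (h : DirichletCharacter.LFunction χ s = 0) : DirichletCharacter.LFunction χ⁻¹ (conj s) = 0 := by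
  rw [H370.DL.LFunction_conj χ s h1, h, map_zero]

/-- Hooley's hypothesis for the modulus `q` -/
def Hooley (q : ℕ) [NeZero q] : Prop :=
  (∀ χ : DirichletCharacter ℂ q, ∀ ρ : ℂ, 0 < ρ.re → ρ.re < 1 → 0 < ρ.im →
    DirichletCharacter.LFunction χ ρ = 0 → deriv (DirichletCharacter.LFunction χ) ρ ≠ 0) ∧
  LinearIndependent ℚ (fun p : {p : DirichletCharacter ℂ q × ℂ //
    0 < p.2.re ∧ p.2.re < 1 ∧ 0 < p.2.im ∧ DirichletCharacter.LFunction p.1 p.2 = 0} => p.1.2.im)

/-- no exceptional real zeros -/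
def NoReal (q : ℕ) [NeZero q] : Prop := ∀ χ : DirichletCharacter ℂ q, ∀ σ : ℝ, 1 / 2 < σ → σ < 1 →
  DirichletCharacter.LFunction χ (σ : ℂ) ≠ 0

lemma GRH_of (h : Hooley q) (hn : NoReal q) : GRH q := by
  have hpos : ∀ (χ : DirichletCharacter ℂ q) (s : ℂ), 0 < s.re → s.re < 1 → 0 < s.im →
      DirichletCharacter.LFunction χ s = 0 → s.re = 1 / 2 := by
    intro χ s h0 h1 hi hz
    have hr : (1 - conj s).re = 1 - s.re := by simp
    have him : (1 - conj s).im = s.im := by simp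
    have h2 := h.2.injective (a₁ := ⟨(χ, s), h0, h1, hi, hz⟩)
      (a₂ := ⟨(χ, 1 - conj s), by rw [hr]; linarith, by rw [hr]; linarith, by rw [him]; exact hi, L_refl h0 h1 hz⟩)
      him.symm
    have h3 : s = 1 - conj s := congrArg (fun p => p.1.2) h2
    have h4 := congrArg Complex.re h3
    rw [hr] at h4
    linarith
  intro χ s h0 h1 hz
  rcases lt_trichotomy s.im 0 with hi | hi | hi
  · have := hpos χ⁻¹ (conj s) (by simpa using h0) (by simpa using h1) (by simpa using hi) (L_conj (strip_ne h1) hz)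
    simpa using this
  · have e : ((s.re : ℝ) : ℂ) = s := Complex.ext (by simp) (by simp [hi])
    have hle : s.re ≤ 1 / 2 := by
      by_contra hc
      push Not at hc
      exact hn χ s.re hc h1 (by rw [e]; exact hz)
    have hge : 1 / 2 ≤ s.re := by
      by_contra hc
      push Not at hc
      have h5 := L_refl h0 h1 hz
      have e2 : (((1 - s.re : ℝ)) : ℂ) = 1 - conj s := Complex.ext (by simp) (by simp [hi])
      rw [← e2] at h5
      exact hn χ (1 - s.re) (by linarith) (by linarith) h5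
    linarith
  · exact hpos χ s h0 h1 hi hz

lemma NoReal_of (h : GRH q) : NoReal q := by
  intro χ σ h1 h2 hz
  have := h χ (σ : ℂ) (by rw [Complex.ofReal_re]; linarith) (by rw [Complex.ofReal_re]; exact h2) hz
  rw [Complex.ofReal_re] at this
  linarith

lemma mch_one_iff {χ : DirichletCharacter ℂ q} {γ : ℝ}
    (hz : DirichletCharacter.LFunction χ (⟨1 / 2, γ⟩ : ℂ) = 0) :
    mch χ γ = 1 ↔ deriv (DirichletCharacter.LFunction χ) (⟨1 / 2, γ⟩ : ℂ) ≠ 0 := by
  have ha := an_L χ γ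
  have h1 := ha.analyticOrderAt_deriv_add_one
  simp only [hz, sub_zero] at h1
  have hp := (mL_pos (χ := χ) (half_ne_one γ)).2 hz
  unfold mch
  unfold H370.mult at *
  have hfin : analyticOrderAt (DirichletCharacter.LFunction χ) (⟨1 / 2, γ⟩ : ℂ) ≠ ⊤ := by
    intro h
    unfold analyticOrderNatAt at hp
    rw [h] at hp
    simp at hp
  have h2 := Nat.cast_analyticOrderNatAt hfin
  rw [← ha.deriv.analyticOrderAt_eq_zero]
  constructor
  · intro h
    rw [h] at h2
    rw [← h2] at h1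
    have h3 : analyticOrderAt (deriv (DirichletCharacter.LFunction χ)) (⟨1 / 2, γ⟩ : ℂ) + 1 = 0 + 1 := by
      rw [h1]; simp
    exact (ENat.add_left_injective_of_ne_top ENat.one_ne_top) h3
  · intro h
    rw [h, zero_add, ← h2] at h1
    exact_mod_cast h1.symm

theorem hooley_iff (hG : GRH q) : Hooley q ↔
    LinearIndependent ℚ (fun γ : Gam q => (γ : ℝ)) ∧ ∀ γ : Gam q, MM q γ = 1 := by
  classical
  have hline : ∀ (χ : DirichletCharacter ℂ q) (s : ℂ), 0 < s.re → s.re < 1 → DirichletCharacter.LFunction χ s = 0 →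
      s = ⟨1 / 2, s.im⟩ := fun χ s h0 h1 hz => Complex.ext (hG χ s h0 h1 hz) rfl
  constructor
  · rintro ⟨h1, h2⟩
    have hinj := h2.injective
    obtain ⟨c, hc⟩ : ∃ c : Gam q → DirichletCharacter ℂ q, ∀ γ : Gam q,
        DirichletCharacter.LFunction (c γ) (⟨1 / 2, (γ : ℝ)⟩ : ℂ) = 0 := ⟨fun γ => γ.2.2.choose, fun γ => γ.2.2.choose_spec⟩
    obtain ⟨P, hP⟩ : ∃ P : Gam q → {p : DirichletCharacter ℂ q × ℂ //
      0 < p.2.re ∧ p.2.re < 1 ∧ 0 < p.2.im ∧ DirichletCharacter.LFunction p.1 p.2 = 0}, ∀ γ : Gam q,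
        (P γ).1 = (c γ, (⟨1 / 2, (γ : ℝ)⟩ : ℂ)) :=
      ⟨fun γ => ⟨(c γ, (⟨1 / 2, (γ : ℝ)⟩ : ℂ)), by norm_num, by norm_num, γ.2.1, hc γ⟩, fun _ => rfl⟩
    have hPim : ∀ γ : Gam q, (P γ).1.2.im = γ := fun γ => by rw [hP]
    have hPinj : Function.Injective P := by
      intro a b hab
      apply Subtype.ext
      rw [← hPim a, ← hPim b, hab]
    refine ⟨?_, fun γ => ?_⟩
    · have h3 := h2.comp P hPinj
      have e : (fun p : {p : DirichletCharacter ℂ q × ℂ //
          0 < p.2.re ∧ p.2.re < 1 ∧ 0 < p.2.im ∧ DirichletCharacter.LFunction p.1 p.2 = 0} => p.1.2.im) ∘ P =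
          fun γ : Gam q => (γ : ℝ) := funext hPim
      rwa [e] at h3
    · have h4 : ∀ χ : DirichletCharacter ℂ q, χ ≠ c γ → mch χ γ = 0 := by
        intro χ hχ
        by_contra hne
        have hz := (mch_pos_iff γ.2.1).1 (Nat.pos_of_ne_zero hne)
        have h5 := hinj (a₁ := ⟨(χ, (⟨1 / 2, (γ : ℝ)⟩ : ℂ)), by norm_num, by norm_num, γ.2.1, hz⟩)
          (a₂ := ⟨(c γ, (⟨1 / 2, (γ : ℝ)⟩ : ℂ)), by norm_num, by norm_num, γ.2.1, hc γ⟩) rfl
        exact hχ (congrArg (fun p => p.1.1) h5)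
      unfold MM
      rw [Finset.sum_eq_single (c γ) (fun χ _ hχ => h4 χ hχ) (fun h => absurd (Finset.mem_univ _) h)]
      exact (mch_one_iff (hc γ)).2 (h1 _ _ (by norm_num) (by norm_num) γ.2.1 (hc γ))
  · rintro ⟨h1, h2⟩
    have hmem : ∀ (χ : DirichletCharacter ℂ q) (s : ℂ), 0 < s.re → s.re < 1 → 0 < s.im →
        DirichletCharacter.LFunction χ s = 0 → s.im ∈ Gam q := by
      intro χ s h0 h1 hi hz
      rw [hline χ s h0 h1 hz] at hz
      exact ⟨hi, χ, hz⟩
    constructor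
    · intro χ ρ r0 r1 ri hz
      have hg := hmem χ ρ r0 r1 ri hz
      have hl := hline χ ρ r0 r1 hz
      have hz' : DirichletCharacter.LFunction χ (⟨1 / 2, ρ.im⟩ : ℂ) = 0 := by rw [← hl]; exact hz
      rw [hl]
      rw [← mch_one_iff hz']
      have hM := h2 ⟨ρ.im, hg⟩
      have h3 : mch χ ρ.im ≤ MM q ρ.im := Finset.single_le_sum (f := fun χ => mch χ ρ.im) (fun _ _ => Nat.zero_le _)
        (Finset.mem_univ χ)
      have h4 := (mch_pos_iff ri).2 hz'
      have hM' : MM q ρ.im = 1 := hM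
      omega
    · obtain ⟨Q, hQ⟩ : ∃ Q : {p : DirichletCharacter ℂ q × ℂ //
        0 < p.2.re ∧ p.2.re < 1 ∧ 0 < p.2.im ∧ DirichletCharacter.LFunction p.1 p.2 = 0} → Gam q,
          ∀ p, (Q p : ℝ) = p.1.2.im :=
        ⟨fun p => ⟨p.1.2.im, hmem _ _ p.2.1 p.2.2.1 p.2.2.2.1 p.2.2.2.2⟩, fun _ => rfl⟩
      have hQinj : Function.Injective Q := by
        intro a b hab
        have him : a.1.2.im = b.1.2.im := by rw [← hQ a, ← hQ b, hab]
        have ha := hline _ _ a.2.1 a.2.2.1 a.2.2.2.2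
        have hb := hline _ _ b.2.1 b.2.2.1 b.2.2.2.2
        have hs : a.1.2 = b.1.2 := by rw [ha, hb, him]
        have hχ : a.1.1 = b.1.1 := by
          by_contra hne
          have hza : DirichletCharacter.LFunction a.1.1 (⟨1 / 2, a.1.2.im⟩ : ℂ) = 0 := by rw [← ha]; exact a.2.2.2.2
          have hzb : DirichletCharacter.LFunction b.1.1 (⟨1 / 2, a.1.2.im⟩ : ℂ) = 0 := by rw [him, ← hb]; exact b.2.2.2.2
          have h4 := (mch_pos_iff a.2.2.2.1).2 hza
          have h5 := (mch_pos_iff a.2.2.2.1).2 hzb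
          have h6 : mch a.1.1 a.1.2.im + mch b.1.1 a.1.2.im ≤ MM q a.1.2.im := by
            unfold MM
            rw [← Finset.sum_pair hne (f := fun χ => mch χ a.1.2.im)]
            exact Finset.sum_le_sum_of_subset (Finset.subset_univ _)
          have h7 := h2 (Q a)
          rw [hQ] at h7
          omega
        exact Subtype.ext (Prod.ext hχ hs)
      have h3 := h1.comp Q hQinj
      have e : (fun γ : Gam q => (γ : ℝ)) ∘ Q = fun p => p.1.2.im := funext hQ
      rwa [e] at h3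

/-- the amplitude without multiplicity -/
noncomputable def bm (q : ℕ) [NeZero q] (γ : Gam q) : ℝ := 2 * Real.exp (-((γ : ℝ) ^ 2) / 2)

lemma bm_pos (γ : Gam q) : 0 < bm q γ := by unfold bm; positivity

lemma bm_le (γ : Gam q) : bm q γ ≤ am q γ := by
  have h := (MM_pos_iff (q := q) γ.2.1).2 γ.2
  have h1 : (1:ℝ) ≤ MM q γ := by exact_mod_cast h
  have h2 := Real.exp_pos (-((γ : ℝ) ^ 2) / 2)
  unfold bm am
  nlinarith

/-- **the exponential mean and Hooley's hypothesis** -/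
theorem main_q (hG : GRH q) : Summable (bm q) ∧ ∀ lam : ℝ, 0 < lam →
    Multipliable (fun γ : Gam q => LI.I0 (lam * bm q γ)) ∧
    ∃ l : ℝ, Tendsto (fun V : ℝ => (∫ v in (0:ℝ)..V, Real.exp (-(lam * Aq q v))) / V) atTop (𝓝 l) ∧
      Real.exp (lam * MM q 0) * ∏' γ : Gam q, LI.I0 (lam * bm q γ) ≤ l ∧
      (l = Real.exp (lam * MM q 0) * ∏' γ : Gam q, LI.I0 (lam * bm q γ) ↔ Hooley q) := by
  have hsb : Summable (bm q) := Summable.of_nonneg_of_le (fun γ => (bm_pos γ).le) bm_le (am_summ hG)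
  refine ⟨hsb, fun lam hlam => ?_⟩
  have hmb : Multipliable (fun γ : Gam q => LI.I0 (lam * bm q γ)) :=
    LI.I0_mult (fun γ => (mul_pos hlam (bm_pos γ)).le) (hsb.mul_left lam)
  have hma : Multipliable (fun γ : Gam q => LI.I0 (lam * am q γ)) :=
    LI.I0_mult (fun γ => (mul_pos hlam (am_pos γ)).le) ((am_summ hG).mul_left lam)
  refine ⟨hmb, ?_⟩
  obtain ⟨l, h1, h2, h3⟩ := mean_q hG hlam
  have hle : ∀ γ : Gam q, LI.I0 (lam * bm q γ) ≤ LI.I0 (lam * am q γ) := fun γ =>
    I0_mono (mul_pos hlam (bm_pos γ)).le (mul_le_mul_of_nonneg_left (bm_le γ) hlam.le)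
  obtain ⟨h4, h5⟩ := prod_cmp hmb hma (fun _ => LI.one_le_I0) hle
  have he := Real.exp_pos (lam * MM q 0)
  refine ⟨_, h1, mul_le_mul_of_nonneg_left (h4.trans h2) he.le, ?_⟩
  rw [mul_right_inj' he.ne', hooley_iff hG]
  constructor
  · intro h
    have h6 : ∏' γ : Gam q, LI.I0 (lam * bm q γ) = ∏' γ : Gam q, LI.I0 (lam * am q γ) :=
      le_antisymm h4 (by rw [← h]; exact h2)
    refine ⟨h3.1 (by rw [h, h6]), fun γ => ?_⟩
    have h7 := h5 h6 γ
    by_contra hne
    have h8 : 1 < MM q γ := by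
      have := (MM_pos_iff (q := q) γ.2.1).2 γ.2
      omega
    have h9 : (1:ℝ) < MM q γ := by exact_mod_cast h8
    have h10 : lam * bm q γ < lam * am q γ := by
      refine mul_lt_mul_of_pos_left ?_ hlam
      have h2 := Real.exp_pos (-((γ : ℝ) ^ 2) / 2)
      unfold bm am
      nlinarith
    exact absurd h7 (I0_lt (mul_pos hlam (bm_pos γ)).le h10).ne
  · rintro ⟨h6, h7⟩
    rw [h3.2 h6]
    refine tprod_congr fun γ => ?_
    unfold am bm
    rw [h7 γ, Nat.cast_one, one_mul]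

end Pool.Agent.X113.HQ
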