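import Pool.Agent.X113.HL4

set_option autoImplicit false
set_option maxHeartbeats 2000000
set_option linter.unusedSectionVars false

/-! Dividing an entire function by its zeros at finitely many points. -/

open MeasureTheory Filter Topology Set

namespace Pool.Agent.X113.HR

lemma factor_one {F : ℂ → ℂ} (hF : Differentiable ℂ F) {a : ℂ} (ht : analyticOrderAt F a ≠ ⊤) :
    ∃ G : ℂ → ℂ, Differentiable ℂ G ∧ G a ≠ 0 ∧ ∀ z, F z = (z - a) ^ (analyticOrderNatAt F a) * G z := by
  classical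
  have hm := Nat.cast_analyticOrderNatAt ht
  obtain ⟨g, hg, hg0, hfg⟩ := ((hF.analyticAt a).analyticOrderAt_eq_natCast).mp hm.symm
  obtain ⟨m, hmm⟩ : ∃ m : ℕ, m = analyticOrderNatAt F a := ⟨_, rfl⟩
  rw [← hmm] at hfg ⊢
  obtain ⟨G, hG⟩ : ∃ G : ℂ → ℂ, G = fun z => if z = a then g a else F z / (z - a) ^ m := ⟨_, rfl⟩
  have hGa : G a = g a := by rw [hG]; simp
  have hGz : ∀ z, z ≠ a → G z = F z / (z - a) ^ m := fun z hz => by rw [hG]; simp [hz]
  have hev : G =ᶠ[𝓝 a] g := by
    filter_upwards [hfg] with z hz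
    by_cases h : z = a
    · rw [h, hGa]
    · rw [hGz z h, hz, smul_eq_mul, mul_div_cancel_left₀ _ (pow_ne_zero m (sub_ne_zero.2 h))]
  refine ⟨G, fun z => ?_, by rw [hGa]; exact hg0, fun z => ?_⟩
  · by_cases h : z = a
    · rw [h]
      exact hg.differentiableAt.congr_of_eventuallyEq hev
    · have h1 : G =ᶠ[𝓝 z] fun w => F w / (w - a) ^ m := by
        filter_upwards [isOpen_ne.mem_nhds h] with w hw
        exact hGz w hw
      refine DifferentiableAt.congr_of_eventuallyEq ?_ h1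
      exact (hF z).div (by fun_prop) (pow_ne_zero m (sub_ne_zero.2 h))
  · by_cases h : z = a
    · have h1 := hfg.self_of_nhds
      rw [h, h1, hGa, smul_eq_mul]
    · rw [hGz z h, mul_div_cancel₀]
      exact pow_ne_zero m (sub_ne_zero.2 h)

lemma factor_all {F : ℂ → ℂ} (hF : Differentiable ℂ F) (ht : ∀ a, analyticOrderAt F a ≠ ⊤) (S : Finset ℂ) :
    ∃ G : ℂ → ℂ, Differentiable ℂ G ∧ (∀ a ∈ S, G a ≠ 0) ∧
      ∀ z, F z = (∏ a ∈ S, (z - a) ^ (analyticOrderNatAt F a)) * G z := by
  classical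
  induction S using Finset.induction_on with
  | empty => exact ⟨F, hF, by simp, fun z => by simp⟩
  | insert b S hb ih =>
    obtain ⟨G, h1, h2, h3⟩ := ih
    have hQ : AnalyticAt ℂ (fun z => ∏ a ∈ S, (z - a) ^ (analyticOrderNatAt F a)) b := by
      have : Differentiable ℂ (fun z => ∏ a ∈ S, (z - a) ^ (analyticOrderNatAt F a)) := by fun_prop
      exact this.analyticAt b
    have hQ0 : (∏ a ∈ S, (b - a) ^ (analyticOrderNatAt F a)) ≠ 0 := by
      rw [Finset.prod_ne_zero_iff]
      intro a ha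
      exact pow_ne_zero _ (sub_ne_zero.2 fun h => hb (h ▸ ha))
    have hord : analyticOrderAt F b = analyticOrderAt G b := by
      have e : F = (fun z => ∏ a ∈ S, (z - a) ^ (analyticOrderNatAt F a)) * G := funext h3
      conv_lhs => rw [e]
      rw [analyticOrderAt_mul hQ (h1.analyticAt b), hQ.analyticOrderAt_eq_zero.2 hQ0, zero_add]
    have hordn : analyticOrderNatAt F b = analyticOrderNatAt G b := by
      unfold analyticOrderNatAt
      rw [hord]
    obtain ⟨G2, k1, k2, k3⟩ := factor_one h1 (a := b) (by rw [← hord]; exact ht b)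
    refine ⟨G2, k1, fun a ha => ?_, fun z => ?_⟩
    · rw [Finset.mem_insert] at ha
      rcases ha with rfl | ha
      · exact k2
      · intro h0
        apply h2 a ha
        rw [k3 a, h0, mul_zero]
    · rw [Finset.prod_insert hb, h3 z, k3 z, hordn]
      ring

/-- the logarithmic derivative -/
lemma factor_log {F G : ℂ → ℂ} (hG : Differentiable ℂ G) {S : Finset ℂ} {m : ℂ → ℕ}
    (h : ∀ z, F z = (∏ a ∈ S, (z - a) ^ (m a)) * G z) {z : ℂ} (hz : F z ≠ 0) (hzS : z ∉ S) :
    deriv F z / F z = (∑ a ∈ S, (m a : ℂ) / (z - a)) + deriv G z / G z := by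
  have hG0 : G z ≠ 0 := fun h0 => hz (by rw [h z, h0, mul_zero])
  have hne : ∀ a ∈ S, z - a ≠ 0 := fun a ha => sub_ne_zero.2 fun h0 => hzS (h0 ▸ ha)
  have hQ0 : (∏ a ∈ S, (z - a) ^ (m a)) ≠ 0 := Finset.prod_ne_zero_iff.2 fun a ha => pow_ne_zero _ (hne a ha)
  have e : F = fun z => (∏ a ∈ S, (z - a) ^ (m a)) * G z := funext h
  rw [← logDeriv_apply, ← logDeriv_apply, e, logDeriv_mul z hQ0 hG0 (by fun_prop) (hG z)]
  congr 1
  rw [logDeriv_prod (s := S) (f := fun a z => (z - a) ^ (m a)) (fun a ha => pow_ne_zero _ (hne a ha)) (fun a _ => by fun_prop)]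
  refine Finset.sum_congr rfl fun a ha => ?_
  rw [logDeriv_fun_pow (by fun_prop), logDeriv_apply]
  have : deriv (fun z => z - a) z = 1 := by
    rw [deriv_sub_const]; exact deriv_id z
  rw [this]
  ring

lemma ord_prod {ι : Type*} (s : Finset ι) {f : ι → ℂ → ℂ} {z : ℂ} (hf : ∀ i ∈ s, AnalyticAt ℂ (f i) z)
    (ht : ∀ i ∈ s, analyticOrderAt (f i) z ≠ ⊤) :
    analyticOrderAt (fun z => ∏ i ∈ s, f i z) z = ((∑ i ∈ s, analyticOrderNatAt (f i) z : ℕ) : ℕ∞) := by
  classical
  induction s using Finset.induction_on with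
  | empty =>
    have : AnalyticAt ℂ (fun _ : ℂ => (1:ℂ)) z := analyticAt_const
    simp only [Finset.prod_empty, Finset.sum_empty]
    rw [this.analyticOrderAt_eq_zero.2 one_ne_zero]
    rfl
  | insert i s hi ih =>
    have h1 := ih (fun j hj => hf j (Finset.mem_insert_of_mem hj)) (fun j hj => ht j (Finset.mem_insert_of_mem hj))
    have e : (fun z => ∏ j ∈ insert i s, f j z) = f i * fun z => ∏ j ∈ s, f j z := by
      funext z
      rw [Finset.prod_insert hi]
      rfl
    have h2 : AnalyticAt ℂ (fun z => ∏ j ∈ s, f j z) z :=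
      Finset.analyticAt_fun_prod s fun j hj => hf j (Finset.mem_insert_of_mem hj)
    rw [e, analyticOrderAt_mul (hf i (Finset.mem_insert_self i s)) h2, h1, Finset.sum_insert hi,
      ← Nat.cast_analyticOrderNatAt (ht i (Finset.mem_insert_self i s))]
    push_cast
    rfl

end Pool.Agent.X113.HR
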