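import Pool.Agent.X113.HR1

set_option autoImplicit false
set_option maxHeartbeats 2000000
set_option linter.unusedSectionVars false

/-! The real zeros and Landau's argument. -/

open MeasureTheory Filter Topology Set
open scoped ComplexConjugate
open Pool.Agent.W263.BSD Pool.Agent.X113.HQ Pool.Agent.X113.HL

namespace Pool.Agent.X113.HR

variable {q : ℕ} [NeZero q]

/-- the total order at `s` -/
noncomputable def Mt (q : ℕ) [NeZero q] (s : ℂ) : ℕ :=
  ∑ χ : DirichletCharacter ℂ q, analyticOrderNatAt (DirichletCharacter.LFunction χ) s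

lemma fin_real (q : ℕ) [NeZero q] :
    {σ : ℝ | 0 < σ ∧ σ < 1 ∧ ∃ χ : DirichletCharacter ℂ q, DirichletCharacter.LFunction χ (σ : ℂ) = 0}.Finite := by
  have h1 : ∀ χ : DirichletCharacter ℂ q,
      {σ : ℝ | 0 < σ ∧ σ < 1 ∧ DirichletCharacter.LFunction χ (σ : ℂ) = 0}.Finite := by
    intro χ
    obtain ⟨L, -, -, -, h4⟩ := exists_L χ
    have h2 := (Pool.Agent.Y23.G.win_finite (L := L) 0).preimage (f := fun σ : ℝ => (σ : ℂ))
      (fun a _ b _ h => Complex.ofReal_injective h)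
    refine h2.subset fun σ hσ => ?_
    obtain ⟨a1, a2, a3⟩ := hσ
    have hre : ((σ : ℝ) : ℂ).re = σ := Complex.ofReal_re σ
    have h5 := (mL_pos (χ := χ) (s := (σ : ℂ)) (strip_ne (by rw [hre]; exact a2))).2 a3
    rw [← h4 _ (by rw [hre]; exact a1) (by rw [hre]; exact a2)] at h5
    show L.X (σ : ℂ) = 0 ∧ |((σ : ℝ) : ℂ).im - 0| ≤ 1
    refine ⟨?_, by simp⟩
    by_contra hne
    rw [mult_zero (Pool.Agent.Y23.G.Xd.analyticAt _) hne] at h5
    exact lt_irrefl _ h5
  refine (Set.finite_iUnion h1).subset fun σ hσ => ?_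
  obtain ⟨a1, a2, χ, a3⟩ := hσ
  exact mem_iUnion.2 ⟨χ, a1, a2, a3⟩

open Classical in
/-- the real zeros different from `1/2` -/
noncomputable def KK (q : ℕ) [NeZero q] : Finset ℝ := (fin_real q).toFinset.filter fun σ => σ ≠ 1 / 2

open Classical in
/-- the real zeros in `(1/2, 1)` -/
noncomputable def KP (q : ℕ) [NeZero q] : Finset ℝ := (KK q).filter fun σ => 1 / 2 < σ

lemma mem_KK {σ : ℝ} : σ ∈ KK q ↔ (0 < σ ∧ σ < 1 ∧ ∃ χ : DirichletCharacter ℂ q, DirichletCharacter.LFunction χ (σ : ℂ) = 0) ∧ σ ≠ 1 / 2 := by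
  unfold KK
  rw [Finset.mem_filter, Set.Finite.mem_toFinset]
  rfl

lemma mem_KP {σ : ℝ} : σ ∈ KP q ↔ 1 / 2 < σ ∧ σ < 1 ∧ ∃ χ : DirichletCharacter ℂ q, DirichletCharacter.LFunction χ (σ : ℂ) = 0 := by
  unfold KP
  rw [Finset.mem_filter, mem_KK]
  constructor
  · rintro ⟨⟨⟨-, a2, a3⟩, -⟩, a5⟩
    exact ⟨a5, a2, a3⟩
  · rintro ⟨a1, a2, a3⟩
    exact ⟨⟨⟨by linarith, a2, a3⟩, a1.ne'⟩, a1⟩

/-- the contribution of the real zeros in `(1/2, 1)` -/
noncomputable def Rq (q : ℕ) [NeZero q] (v : ℝ) : ℝ :=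
  ∑ σ ∈ KP q, (Mt q (σ : ℂ) : ℝ) * Real.exp ((σ - 1 / 2) ^ 2 / 2 + (σ - 1 / 2) * v)

/-- the prime side with the real zeros -/
noncomputable def As (q : ℕ) [NeZero q] (v : ℝ) : ℝ := Aq q v + Rq q v

lemma Rq_cont : Continuous (Rq q) := by
  unfold Rq
  fun_prop

lemma As_cont : Continuous (As q) := by
  have h1 := Aq_cont (q := q)
  have h2 := Rq_cont (q := q)
  unfold As
  fun_prop

/-! ### orders -/

lemma Lt_ord (χ : DirichletCharacter ℂ q) {s : ℂ} (hs : s ≠ 1) :
    analyticOrderNatAt (Lt χ) s = analyticOrderNatAt (DirichletCharacter.LFunction χ) s := by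
  classical
  have hG : AnalyticAt ℂ (fun z : ℂ => if χ = 1 then z - 1 else 1) s := by
    split_ifs
    · fun_prop
    · fun_prop
  refine ord_mul hG ?_ (H370.DL.analyticAt_L hs) ?_
  · show (if χ = 1 then s - 1 else 1) ≠ 0
    split_ifs
    · exact sub_ne_zero.2 hs
    · exact one_ne_zero
  · filter_upwards [isOpen_ne.mem_nhds hs] with z hz
    exact Lt_eq χ hz

lemma Ls_ord (χ : DirichletCharacter ℂ q) (z : ℂ) :
    analyticOrderAt (fun z => Lt χ (1 / 2 + z)) z = analyticOrderAt (Lt χ) (1 / 2 + z) := by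
  have hd : deriv (fun z : ℂ => 1 / 2 + z) z = 1 := by
    rw [deriv_const_add]; exact deriv_id z
  have h := analyticOrderAt_comp_of_deriv_ne_zero (f := Lt χ) (g := fun z : ℂ => 1 / 2 + z) (z₀ := z) (by fun_prop)
    (by rw [hd]; exact one_ne_zero)
  exact h

lemma Lt_fin (χ : DirichletCharacter ℂ q) (s : ℂ) : analyticOrderAt (Lt χ) s ≠ ⊤ := by
  have h1 : AnalyticOnNhd ℂ (Lt χ) univ := fun z _ => (Lt_diff χ).analyticAt z
  refine h1.analyticOrderAt_ne_top_of_isPreconnected isPreconnected_univ (mem_univ (2 : ℂ)) (mem_univ s) ?_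
  have h2 : (2:ℂ) ≠ 1 := by norm_num
  rw [((Lt_diff χ).analyticAt _).analyticOrderAt_eq_zero.mpr
    ((Lt_ne h2).2 (DirichletCharacter.LFunction_ne_zero_of_one_le_re χ (Or.inr h2) (by norm_num)))]
  exact ENat.zero_ne_top

lemma Lf_ordAt (z : ℂ) : analyticOrderAt (Lf q) z =
    ((∑ χ : DirichletCharacter ℂ q, analyticOrderNatAt (fun z => Lt χ (1 / 2 + z)) z : ℕ) : ℕ∞) := by
  refine ord_prod (f := fun χ z => Lt χ (1 / 2 + z)) Finset.univ (fun χ _ => ?_) (fun χ _ => ?_)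
  · have : Differentiable ℂ (fun z => Lt χ (1 / 2 + z)) := fun z =>
      DifferentiableAt.comp (g := Lt χ) z (Lt_diff χ _) (by fun_prop)
    exact this.analyticAt z
  · rw [Ls_ord]
    exact Lt_fin χ _

lemma Lf_fin (z : ℂ) : analyticOrderAt (Lf q) z ≠ ⊤ := by
  rw [Lf_ordAt]
  exact ENat.coe_ne_top _

lemma Lf_ord {z : ℂ} (hz : 1 / 2 + z ≠ 1) : analyticOrderNatAt (Lf q) z = Mt q (1 / 2 + z) := by
  unfold analyticOrderNatAt
  rw [Lf_ordAt, ENat.toNat_coe]
  unfold Mt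
  refine Finset.sum_congr rfl fun χ _ => ?_
  rw [← Lt_ord χ hz]
  unfold analyticOrderNatAt
  rw [Ls_ord]

/-! ### Laplace transforms -/

lemma ex_LInt {c x w : ℝ} (h : x < w) : LInt (fun v => Real.exp (c + x * v)) w := by
  unfold LInt
  have h1 := (integrableOn_exp_mul_Ioi (a := x - w) (by linarith) 0).const_mul (Real.exp c)
  have h2 : IntegrableOn (fun u : ℝ => Real.exp c * Real.exp ((x - w) * u)) (Ioi 0) := h1
  refine h2.congr_fun (fun u _ => ?_) measurableSet_Ioi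
  simp only []
  rw [← Real.exp_add, ← Real.exp_add]; congr 1; ring

lemma ex_lapC {c x : ℝ} {w : ℂ} (h : x < w.re) : lapC (fun v => Real.exp (c + x * v)) w = Complex.exp c / (w - x) := by
  unfold lapC
  have e : ∀ u : ℝ, ((Real.exp (c + x * u) : ℝ) : ℂ) * Complex.exp (-(w * u)) =
      Complex.exp c * Complex.exp (((x : ℂ) - w) * u) := by
    intro u
    rw [Complex.ofReal_exp, ← Complex.exp_add, ← Complex.exp_add]
    congr 1
    push_cast
    ring
  simp only [e]
  have hre : ((x : ℂ) - w).re < 0 := by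
    rw [Complex.sub_re, Complex.ofReal_re]; linarith
  rw [integral_const_mul, integral_exp_mul_complex_Ioi hre]
  have h1 : w - x ≠ 0 := by
    intro h0
    have h2 := congrArg Complex.re h0
    rw [Complex.sub_re, Complex.zero_re, Complex.ofReal_re] at h2
    linarith
  rw [Complex.ofReal_zero, mul_zero, Complex.exp_zero]
  have e3 : (x : ℂ) - w = -(w - x) := by ring
  rw [e3]
  field_simp

lemma Rq_LInt {w : ℝ} (hw : 1 / 2 < w) : LInt (Rq q) w := by
  have h : ∀ σ ∈ KP q, Integrable (fun u => (Mt q (σ : ℂ) : ℝ) * Real.exp ((σ - 1 / 2) ^ 2 / 2 + (σ - 1 / 2) * u) * Real.exp (-(w * u)))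
      (volume.restrict (Ioi 0)) := by
    intro σ hσ
    have h1 := (mem_KP.1 hσ).2.1
    exact (ex_LInt (c := (σ - 1 / 2) ^ 2 / 2) (x := σ - 1 / 2) (w := w) (by linarith)).const_mul (Mt q (σ : ℂ) : ℝ)
  unfold LInt Rq
  have h2 := integrable_finset_sum (KP q) h
  refine h2.congr (Eventually.of_forall fun u => ?_)
  simp only []
  rw [Finset.sum_mul]

lemma Rq_lapC {w : ℂ} (hw : 1 / 2 < w.re) : lapC (Rq q) w =
    ∑ σ ∈ KP q, (Mt q (σ : ℂ) : ℂ) * (Complex.exp (((σ - 1 / 2 : ℝ) : ℂ) ^ 2 / 2) / (w - ((σ - 1 / 2 : ℝ) : ℂ))) := by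
  have h : ∀ σ ∈ KP q, Integrable (fun u : ℝ => (Mt q (σ : ℂ) : ℂ) * (((Real.exp ((σ - 1 / 2) ^ 2 / 2 + (σ - 1 / 2) * u) : ℝ) : ℂ) * Complex.exp (-(w * u))))
      (volume.restrict (Ioi 0)) := by
    intro σ hσ
    have h1 := (mem_KP.1 hσ).2.1
    exact (LInt.complex (by fun_prop) (ex_LInt (c := (σ - 1 / 2) ^ 2 / 2) (x := σ - 1 / 2) (w := w.re) (by linarith))).const_mul _
  have e : ∀ u : ℝ, (Rq q u : ℂ) * Complex.exp (-(w * u)) =
      ∑ σ ∈ KP q, (Mt q (σ : ℂ) : ℂ) * (((Real.exp ((σ - 1 / 2) ^ 2 / 2 + (σ - 1 / 2) * u) : ℝ) : ℂ) * Complex.exp (-(w * u))) := by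
    intro u
    unfold Rq
    rw [Complex.ofReal_sum, Finset.sum_mul]
    refine Finset.sum_congr rfl fun σ _ => ?_
    push_cast
    ring
  unfold lapC
  simp only [e]
  rw [integral_finset_sum _ h]
  refine Finset.sum_congr rfl fun σ hσ => ?_
  have h1 := (mem_KP.1 hσ).2.1
  rw [integral_const_mul]
  congr 1
  have h2 := ex_lapC (c := (σ - 1 / 2) ^ 2 / 2) (x := σ - 1 / 2) (w := w) (by linarith)
  unfold lapC at h2
  rw [h2]
  congr 2
  push_cast
  rfl

/-- the correction -/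
noncomputable def Es (q : ℕ) [NeZero q] (z : ℂ) : ℂ :=
  Ec q z - ∑ σ ∈ KP q, (Mt q (σ : ℂ) : ℂ) * dslope (fun z : ℂ => Complex.exp (z ^ 2 / 2)) ((σ - 1 / 2 : ℝ) : ℂ) z

lemma Es_diff (z : ℂ) : DifferentiableAt ℂ (Es q) z := by
  unfold Es
  refine (Ec_diff z).sub (DifferentiableAt.fun_sum fun σ _ => DifferentiableAt.const_mul ?_ _)
  have h1 : DifferentiableOn ℂ (dslope (fun z : ℂ => Complex.exp (z ^ 2 / 2)) ((σ - 1 / 2 : ℝ) : ℂ)) univ := by
    rw [Complex.differentiableOn_dslope univ_mem]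
    exact fun z _ => (by fun_prop : DifferentiableAt ℂ (fun z : ℂ => Complex.exp (z ^ 2 / 2)) z).differentiableWithinAt
  exact (h1 z (mem_univ z)).differentiableAt univ_mem

lemma nAs_meas : Measurable fun v => -(As q v) := (As_cont (q := q)).measurable.neg

lemma nAs_LInt {w : ℝ} (hw : 1 / 2 < w) : LInt (fun v => -(As q v)) w := by
  have h := (nA_LInt (q := q) hw).sub (Rq_LInt (q := q) hw)
  have e : (fun u => -(Aq q u) - Rq q u) = fun v => -(As q v) := by
    funext v; unfold As; ring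
  rwa [e] at h

/-- the points -/
noncomputable def Sx (q : ℕ) [NeZero q] : Finset ℂ := by
  classical
  exact (KP q).image fun σ => ((σ - 1 / 2 : ℝ) : ℂ)

lemma mem_Sx {z : ℂ} (h : z ∈ Sx q) : z.im = 0 ∧ z.re < 1 / 2 := by
  unfold Sx at h
  rw [Finset.mem_image] at h
  obtain ⟨σ, hσ, rfl⟩ := h
  have := (mem_KP.1 hσ).2.1
  refine ⟨Complex.ofReal_im _, ?_⟩
  rw [Complex.ofReal_re]; linarith

lemma sum_Sx {g : ℂ → ℂ} : ∑ a ∈ Sx q, g a = ∑ σ ∈ KP q, g ((σ - 1 / 2 : ℝ) : ℂ) := by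
  unfold Sx
  rw [Finset.sum_image]
  intro a _ b _ h
  have := Complex.ofReal_injective h
  linarith

/-- **the identity for the function with the real zeros** -/
theorem nAs_id : ∃ G : ℂ → ℂ, Differentiable ℂ G ∧ (∀ z, G z ≠ 0 → z ∉ Sx q → Lf q z ≠ 0) ∧
    (∀ z : ℂ, 1 / 2 < z.re → G z ≠ 0) ∧
    ∀ z : ℂ, 1 / 2 < z.re → G z * (lapC (fun v => -(As q v)) z + Es q z) = Complex.exp (z ^ 2 / 2) * deriv G z := by
  obtain ⟨G, h1, h2, h3⟩ := factor_all (F := Lf q) Lf_diff Lf_fin (Sx q)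
  refine ⟨G, h1, ?_, ?_, ?_⟩
  · intro z hz hS
    rw [h3 z]
    refine mul_ne_zero (Finset.prod_ne_zero_iff.2 fun a ha => pow_ne_zero _ (sub_ne_zero.2 fun h0 => hS (h0 ▸ ha))) hz
  · intro z hz h0
    exact Lf_ne_right hz (by rw [h3 z, h0, mul_zero])
  · intro z hz
    have hzS : z ∉ Sx q := fun h => by
      have := (mem_Sx h).2
      linarith
    have hL := Lf_ne_right (q := q) hz
    have hG : G z ≠ 0 := fun h0 => hL (by rw [h3 z, h0, mul_zero])
    have h4 := factor_log h1 h3 hL hzS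
    rw [sum_Sx] at h4
    have h5 := nA_id (q := q) hz
    have h6 : lapC (fun v => -(Aq q v)) z + Ec q z = Complex.exp (z ^ 2 / 2) * (deriv (Lf q) z / Lf q z) := by
      rw [mul_div_assoc', ← h5, mul_div_cancel_left₀ _ hL]
    have h7 : lapC (fun v => -(As q v)) z = lapC (fun v => -(Aq q v)) z - lapC (Rq q) z := by
      unfold lapC
      rw [← integral_sub (LInt.complex nA_meas (nA_LInt hz)) (LInt.complex Rq_cont.measurable (Rq_LInt hz))]
      refine setIntegral_congr_fun measurableSet_Ioi fun u _ => ?_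
      simp only []
      unfold As
      push_cast
      ring
    have hord : ∀ σ ∈ KP q, (analyticOrderNatAt (Lf q) ((σ - 1 / 2 : ℝ) : ℂ)) = Mt q (σ : ℂ) := by
      intro σ hσ
      have hs1 := (mem_KP.1 hσ).2.1
      have e : 1 / 2 + ((σ - 1 / 2 : ℝ) : ℂ) = (σ : ℂ) := by push_cast; ring
      rw [Lf_ord (by
        rw [e]
        intro h
        have h8 : σ = 1 := by exact_mod_cast h
        linarith), e]
    have h8 : lapC (fun v => -(As q v)) z + Es q z = Complex.exp (z ^ 2 / 2) * (deriv G z / G z) := by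
      have h9 : ∑ σ ∈ KP q, ((Mt q (σ : ℂ) : ℂ) * (Complex.exp (((σ - 1 / 2 : ℝ) : ℂ) ^ 2 / 2) / (z - ((σ - 1 / 2 : ℝ) : ℂ))) +
          (Mt q (σ : ℂ) : ℂ) * dslope (fun z : ℂ => Complex.exp (z ^ 2 / 2)) ((σ - 1 / 2 : ℝ) : ℂ) z) =
          Complex.exp (z ^ 2 / 2) * ∑ σ ∈ KP q, (analyticOrderNatAt (Lf q) ((σ - 1 / 2 : ℝ) : ℂ) : ℂ) / (z - ((σ - 1 / 2 : ℝ) : ℂ)) := by
        rw [Finset.mul_sum]
        refine Finset.sum_congr rfl fun σ hσ => ?_
        have hne : z ≠ ((σ - 1 / 2 : ℝ) : ℂ) := by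
          intro h
          have hs1 := (mem_KP.1 hσ).2.1
          have := congrArg Complex.re h
          rw [Complex.ofReal_re] at this
          linarith
        have hne' := sub_ne_zero.2 hne
        rw [hord σ hσ, dslope_of_ne _ hne, slope_def_field]
        field_simp
        ring
      rw [Finset.sum_add_distrib] at h9
      rw [h7, Rq_lapC hz]
      unfold Es
      rw [h4] at h6
      linear_combination h6 - h9
    rw [h8]
    field_simp

/-- the Riemann hypothesis for the zeros which are not real -/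
def GRHs (q : ℕ) [NeZero q] : Prop := ∀ (χ : DirichletCharacter ℂ q) (s : ℂ), 0 < s.re → s.re < 1 → s.im ≠ 0 →
  DirichletCharacter.LFunction χ s = 0 → s.re = 1 / 2

theorem GRHs_of_mean {lam C : ℝ} (hlam : 0 < lam)
    (h : ∀ᶠ V : ℝ in atTop, (∫ v in (0:ℝ)..V, Real.exp (-(lam * As q v))) / V ≤ C) : GRHs q := by
  have hc : Continuous fun v => lam⁻¹ * Real.exp (-(lam * As q v)) := by
    have := As_cont (q := q)
    fun_prop
  have hm : ∀ᶠ V : ℝ in atTop, (∫ v in (0:ℝ)..V, lam⁻¹ * Real.exp (-(lam * As q v))) ≤ (lam⁻¹ * C) * V := by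
    filter_upwards [h, eventually_gt_atTop (0:ℝ)] with V h1 hV
    rw [intervalIntegral.integral_const_mul, mul_assoc]
    refine mul_le_mul_of_nonneg_left ?_ (inv_pos.2 hlam).le
    exact (div_le_iff₀ hV).1 h1
  have hup : ∀ w : ℝ, 0 < w → LInt (fun u => max (-(As q u)) 0) w := by
    intro w hw
    have h1 := LInt_of_mean hc (fun v => by positivity) hm hw
    unfold LInt at *
    refine Integrable.mono h1 ?_ (Eventually.of_forall fun u => ?_)
    · exact ((nAs_meas.max measurable_const).mul (by fun_prop)).aestronglyMeasurable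
    · rw [norm_mul, norm_mul]
      refine mul_le_mul_of_nonneg_right ?_ (norm_nonneg _)
      rw [Real.norm_of_nonneg (le_max_right _ _), Real.norm_of_nonneg (by positivity)]
      refine max_le ?_ (by positivity)
      show -(As q u) ≤ lam⁻¹ * Real.exp (-(lam * As q u))
      rw [inv_mul_eq_div, le_div_iff₀ hlam]
      have := Real.add_one_le_exp (-(lam * As q u))
      linarith
  obtain ⟨G, g1, g2, g3, g4⟩ := nAs_id (q := q)
  have hmain := core (f := fun v => -(As q v)) (Lf := G) (E := Es q) (c0 := 1 / 2) nAs_meas g1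
    (fun z _ => Es_diff z) (by norm_num) (fun w hw => nAs_LInt hw) g4 g3 hup
  have hright : ∀ (χ : DirichletCharacter ℂ q) (s : ℂ), 0 < s.re → s.re < 1 → s.im ≠ 0 →
      DirichletCharacter.LFunction χ s = 0 → s.re ≤ 1 / 2 := by
    intro χ s _ h1 hi hz
    by_contra hcon
    push Not at hcon
    have hre : (s - 1 / 2).re = s.re - 1 / 2 := by
      rw [Complex.sub_re]
      norm_num
    have him : (s - 1 / 2).im = s.im := by
      rw [Complex.sub_im]
      norm_num
    have h2 := g2 (s - 1 / 2) (hmain (s - 1 / 2) (by rw [hre]; linarith)) (fun hS => hi (by rw [← him]; exact (mem_Sx hS).1))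
    have e : 1 / 2 + (s - 1 / 2) = s := by ring
    rw [Lf_ne (by rw [e]; exact strip_ne h1), e] at h2
    exact h2 χ hz
  intro χ s h0 h1 hi hz
  have h2 := hright χ s h0 h1 hi hz
  have hr : (1 - conj s).re = 1 - s.re := by simp
  have him : (1 - conj s).im = s.im := by simp
  have h3 := hright χ (1 - conj s) (by rw [hr]; linarith) (by rw [hr]; linarith) (by rw [him]; exact hi) (L_refl h0 h1 hz)
  rw [hr] at h3
  linarith

end Pool.Agent.X113.HR
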