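import Pool.Agent.X113.HR2

set_option autoImplicit false
set_option maxHeartbeats 2000000
set_option linter.unusedSectionVars false

/-! The explicit formula when the zeros which are not real lie on the critical line. -/

open Complex Filter Topology Set MeasureTheory Metric
open scoped ComplexConjugate
open Pool.Agent.Y23.G Pool.Agent.X113.HQ Pool.Agent.X113.HL

namespace Pool.Agent.X113.HR

variable {q : ℕ} [NeZero q]

/-- the sum over the zeros of one L-function -/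
lemma one_Ls (L : LFun) (hRH : ∀ s, L.X s = 0 → s.im ≠ 0 → s.re = 1 / 2) (K : Finset ℝ)
    (hK : ∀ σ : ℝ, L.X (σ : ℂ) = 0 → σ ≠ 1 / 2 → σ ∈ K) (hK2 : (1 / 2 : ℝ) ∉ K) (v : ℝ) :
    ∑' ρ : Zt (D := zd (L := L)), (mu ρ : ℂ) * g v ((ρ : ℂ) - 1 / 2) =
      (∑' γ : ℝ, (H370.mult L.X (⟨1 / 2, γ⟩ : ℂ) : ℂ) * g v ⟨0, γ⟩) +
      ∑ σ ∈ K, (H370.mult L.X (σ : ℂ) : ℂ) * g v ((σ : ℂ) - 1 / 2) := by
  classical
  obtain ⟨F, hF⟩ : ∃ F : ℂ → ℂ, F = fun s => (H370.mult L.X s : ℂ) * g v (s - 1 / 2) := ⟨_, rfl⟩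
  have hF0 : ∀ s, L.X s ≠ 0 → F s = 0 := by
    intro s hs
    rw [hF]
    simp only []
    rw [mult_zero (Xd.analyticAt _) hs, Nat.cast_zero, zero_mul]
  have hout : ∀ s : ℂ, s ∉ Set.range (Subtype.val : Zt (D := zd (L := L)) → ℂ) → F s = 0 := by
    intro s hs
    refine hF0 s fun h0 => hs ?_
    exact ⟨⟨s, h0⟩, rfl⟩
  have hs1 : Summable fun ρ : Zt (D := zd (L := L)) => F ρ := by
    have h1 := (dec_summable (D := zd (L := L)) (δ := 1 / 2) (by norm_num) (Real.exp_pos _).le (g_dec v)).of_norm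
    refine h1.congr fun ρ => ?_
    rw [hF]
    rfl
  have hs2 : Summable F := (Subtype.val_injective.summable_iff hout).1 hs1
  have e1 : ∑' ρ : Zt (D := zd (L := L)), (mu ρ : ℂ) * g v ((ρ : ℂ) - 1 / 2) = ∑' s, F s := by
    rw [← Subtype.val_injective.tsum_eq (f := F) (g := (Subtype.val : Zt (D := zd (L := L)) → ℂ))]
    · refine tsum_congr fun ρ => ?_
      rw [hF]
      rfl
    · intro s hs
      by_contra hc
      exact hs (hout s hc)
  obtain ⟨Kc, hKc⟩ : ∃ Kc : Finset ℂ, Kc = K.image fun σ : ℝ => (σ : ℂ) := ⟨_, rfl⟩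
  have hmem : ∀ s, s ∈ Kc ↔ ∃ σ ∈ K, (σ : ℂ) = s := fun s => by rw [hKc, Finset.mem_image]
  obtain ⟨F1, hF1⟩ : ∃ F1 : ℂ → ℂ, F1 = fun s => if s ∈ Kc then F s else 0 := ⟨_, rfl⟩
  obtain ⟨F2, hF2⟩ : ∃ F2 : ℂ → ℂ, F2 = fun s => if s ∈ Kc then 0 else F s := ⟨_, rfl⟩
  have hsF1 : Summable F1 := by
    refine summable_of_ne_finset_zero (s := Kc) fun s hs => ?_
    rw [hF1]
    simp only []
    rw [if_neg hs]
  have hF12 : F = fun s => F1 s + F2 s := by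
    funext s
    rw [hF1, hF2]
    simp only []
    split_ifs <;> ring
  have hsF2 : Summable F2 := by
    have h := hs2.sub hsF1
    refine h.congr fun s => ?_
    rw [hF12]
    simp only []
    ring
  have e2 : ∑' s, F1 s = ∑ σ ∈ K, F (σ : ℂ) := by
    rw [tsum_eq_sum (s := Kc) (fun s hs => by rw [hF1]; simp only []; rw [if_neg hs]), hKc,
      Finset.sum_image (fun a _ b _ h => Complex.ofReal_injective h)]
    refine Finset.sum_congr rfl fun σ hσ => ?_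
    rw [hF1]
    simp only []
    rw [if_pos ((hmem _).2 ⟨σ, hσ, rfl⟩)]
  obtain ⟨ι, hι⟩ : ∃ ι : ℝ → ℂ, ι = fun γ => ⟨1 / 2, γ⟩ := ⟨_, rfl⟩
  have hinj : Function.Injective ι := fun a b h => by
    rw [hι] at h
    exact congrArg Complex.im h
  have e3 : ∑' s, F2 s = ∑' γ : ℝ, F (⟨1 / 2, γ⟩ : ℂ) := by
    rw [← hinj.tsum_eq (f := F2)]
    · refine tsum_congr fun γ => ?_
      rw [hF2, hι]
      simp only []
      rw [if_neg]
      intro h
      obtain ⟨σ, hσ, h1⟩ := (hmem _).1 h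
      have h2 : σ = 1 / 2 := by
        have := congrArg Complex.re h1
        rwa [Complex.ofReal_re] at this
      rw [h2] at hσ
      exact hK2 hσ
    · intro s hs
      rw [Function.mem_support, hF2] at hs
      simp only [] at hs
      have hsK : s ∉ Kc := fun h => hs (by rw [if_pos h])
      rw [if_neg hsK] at hs
      have hX : L.X s = 0 := by
        by_contra h
        exact hs (hF0 s h)
      rw [hι]
      by_cases him : s.im = 0
      · have hsr : ((s.re : ℝ) : ℂ) = s := Complex.ext (by simp) (by simp [him])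
        have hhalf : s.re = 1 / 2 := by
          by_contra hne
          exact hsK ((hmem s).2 ⟨s.re, hK s.re (by rw [hsr]; exact hX) hne, hsr⟩)
        exact ⟨0, Complex.ext hhalf.symm him.symm⟩
      · exact ⟨s.im, Complex.ext (hRH s hX him).symm rfl⟩
  rw [e1, hF12, hsF1.tsum_add hsF2, e2, e3, add_comm, hF]
  congr 1
  refine tsum_congr fun γ => ?_
  simp only []
  congr 2
  rw [sub_half]
  norm_num

lemma g_re (v σ : ℝ) : g v ((σ : ℂ) - 1 / 2) = ((Real.exp ((σ - 1 / 2) ^ 2 / 2 + (σ - 1 / 2) * v) : ℝ) : ℂ) := by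
  unfold g
  rw [Complex.ofReal_exp]
  congr 1
  push_cast
  ring

/-- the explicit formula for one character -/
theorem one_chis (hG : GRHs q) (χ : DirichletCharacter ℂ q) :
    Tendsto (fun v : ℝ => ((∑' γ : ℝ, (mch χ γ : ℂ) * g v ⟨0, γ⟩) +
      ∑ σ ∈ KK q, (analyticOrderNatAt (DirichletCharacter.LFunction χ) (σ : ℂ) : ℂ) *
        ((Real.exp ((σ - 1 / 2) ^ 2 / 2 + (σ - 1 / 2) * v) : ℝ) : ℂ)) -
      ((if χ = 1 then 1 else 0) * ((Real.exp (v / 2 + 1 / 8) : ℝ) : ℂ) - (((Real.sqrt (2 * Real.pi))⁻¹ : ℝ) : ℂ) *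
        ∑' n : ℕ, pv χ n * ((tn v n : ℝ) : ℂ))) atTop (𝓝 0) := by
  classical
  obtain ⟨L, h1, h2, h3, h4⟩ := exists_L χ
  have hz : ∀ s, L.X s = 0 → DirichletCharacter.LFunction χ s = 0 := by
    intro s hs
    obtain ⟨a1, a2⟩ := h3 s hs
    rw [← mL_pos (strip_ne a2), ← h4 s a1 a2]
    exact X_mpos (L := L) hs
  have hRH : ∀ s, L.X s = 0 → s.im ≠ 0 → s.re = 1 / 2 := by
    intro s hs hi
    obtain ⟨a1, a2⟩ := h3 s hs
    exact hG χ s a1 a2 hi (hz s hs)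
  have hK : ∀ σ : ℝ, L.X (σ : ℂ) = 0 → σ ≠ 1 / 2 → σ ∈ KK q := by
    intro σ hs hne
    obtain ⟨a1, a2⟩ := h3 _ hs
    rw [Complex.ofReal_re] at a1 a2
    exact mem_KK.2 ⟨⟨a1, a2, χ, hz _ hs⟩, hne⟩
  have hK2 : (1 / 2 : ℝ) ∉ KK q := fun h => (mem_KK.1 h).2 rfl
  have hm : ∀ γ : ℝ, H370.mult L.X (⟨1 / 2, γ⟩ : ℂ) = mch χ γ := fun γ =>
    h4 _ (by norm_num) (by norm_num)
  have hmr : ∀ σ ∈ KK q, H370.mult L.X (σ : ℂ) = analyticOrderNatAt (DirichletCharacter.LFunction χ) (σ : ℂ) := by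
    intro σ hσ
    obtain ⟨⟨a1, a2, -⟩, -⟩ := mem_KK.1 hσ
    exact h4 _ (by rw [Complex.ofReal_re]; exact a1) (by rw [Complex.ofReal_re]; exact a2)
  have h7 := asym (L := L)
  refine h7.congr fun v => ?_
  rw [one_Ls L hRH (KK q) hK hK2 v]
  simp only [hm]
  have e0 : ∑ σ ∈ KK q, (H370.mult L.X (σ : ℂ) : ℂ) * g v ((σ : ℂ) - 1 / 2) =
      ∑ σ ∈ KK q, (analyticOrderNatAt (DirichletCharacter.LFunction χ) (σ : ℂ) : ℂ) *
        ((Real.exp ((σ - 1 / 2) ^ 2 / 2 + (σ - 1 / 2) * v) : ℝ) : ℂ) := by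
    refine Finset.sum_congr rfl fun σ hσ => ?_
    rw [hmr σ hσ, g_re]
  have e1 : PS (L := L) v = ∑' n : ℕ, pv χ n * ((tn v n : ℝ) : ℂ) := by
    unfold PS
    refine tsum_congr fun n => ?_
    rcases Nat.eq_zero_or_pos n with h | h
    · subst h
      rw [aL_zero, tn_zero]; simp
    · unfold aL tn Pool.Agent.TH839.NA.pw
      rw [h2 n h.ne']
      push_cast
      ring
  rw [e0, e1, h1]
  push_cast
  rfl

lemma small_real : Tendsto (fun v : ℝ => (∑ σ ∈ KK q, (Mt q (σ : ℂ) : ℝ) * Real.exp ((σ - 1 / 2) ^ 2 / 2 + (σ - 1 / 2) * v)) - Rq q v)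
    atTop (𝓝 0) := by
  classical
  have h1 : ∀ v : ℝ, (∑ σ ∈ KK q, (Mt q (σ : ℂ) : ℝ) * Real.exp ((σ - 1 / 2) ^ 2 / 2 + (σ - 1 / 2) * v)) - Rq q v =
      ∑ σ ∈ (KK q).filter (fun σ => ¬ 1 / 2 < σ), (Mt q (σ : ℂ) : ℝ) * Real.exp ((σ - 1 / 2) ^ 2 / 2 + (σ - 1 / 2) * v) := by
    intro v
    unfold Rq KP
    rw [sub_eq_iff_eq_add, add_comm]
    exact (Finset.sum_filter_add_sum_filter_not (KK q) (fun σ => 1 / 2 < σ) _).symm
  simp only [h1]
  rw [← Finset.sum_const_zero (s := (KK q).filter (fun σ => ¬ 1 / 2 < σ)) (M := ℝ)]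
  refine tendsto_finsetSum _ fun σ hσ => ?_
  rw [Finset.mem_filter] at hσ
  have hlt : σ < 1 / 2 := lt_of_le_of_ne (not_lt.1 hσ.2) (mem_KK.1 hσ.1).2
  have h2 : Tendsto (fun v : ℝ => (σ - 1 / 2) ^ 2 / 2 + (σ - 1 / 2) * v) atTop atBot :=
    tendsto_atBot_add_const_left _ _ (tendsto_id.const_mul_atTop_of_neg (by linarith))
  have h3 := (Real.tendsto_exp_atBot.comp h2).const_mul (Mt q (σ : ℂ) : ℝ)
  rw [mul_zero] at h3
  exact h3

/-- **the explicit formula modulo `q`** -/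
theorem explqs (hG : GRHs q) :
    Tendsto (fun v : ℝ => As q v + ∑' γ : ℝ, (MM q γ : ℝ) * Real.exp (-(γ ^ 2) / 2) * Real.cos (γ * v)) atTop (𝓝 0) := by
  classical
  have hs1 := MM_summ (q := q)
  have hgn : ∀ (v γ : ℝ), ‖g v ⟨0, γ⟩‖ = Real.exp (-(γ ^ 2) / 2) := fun v γ => by
    rw [g_norm]
    congr 1
    show (0:ℝ) * v + ((0:ℝ) ^ 2 - γ ^ 2) / 2 = _
    ring
  have hsc : ∀ (χ : DirichletCharacter ℂ q) (v : ℝ), Summable fun γ : ℝ => (mch χ γ : ℂ) * g v ⟨0, γ⟩ := by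
    intro χ v
    refine Summable.of_norm_bounded hs1 fun γ => ?_
    rw [norm_mul, hgn, Complex.norm_natCast]
    refine mul_le_mul_of_nonneg_right ?_ (Real.exp_pos _).le
    have : mch χ γ ≤ MM q γ := Finset.single_le_sum (f := fun χ => mch χ γ) (fun _ _ => Nat.zero_le _) (Finset.mem_univ χ)
    exact_mod_cast this
  have hsM : ∀ v : ℝ, Summable fun γ : ℝ => (MM q γ : ℂ) * g v ⟨0, γ⟩ := by
    intro v
    refine Summable.of_norm_bounded hs1 fun γ => ?_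
    rw [norm_mul, hgn, Complex.norm_natCast]
  have h1 := tendsto_finsetSum (Finset.univ : Finset (DirichletCharacter ℂ q)) fun χ _ => one_chis hG χ
  rw [Finset.sum_const_zero] at h1
  have h2 := (rest_tendsto (q := q)).const_mul (((Real.sqrt (2 * Real.pi))⁻¹ : ℝ) : ℂ)
  rw [mul_zero] at h2
  have h3 := h1.sub h2
  rw [sub_zero] at h3
  have h4 := (Complex.continuous_re.tendsto 0).comp h3
  rw [Complex.zero_re] at h4
  have h5 := h4.sub (small_real (q := q))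
  rw [sub_zero] at h5
  refine h5.congr fun v => ?_
  have e1 : ∑ χ : DirichletCharacter ℂ q, ∑' γ : ℝ, (mch χ γ : ℂ) * g v ⟨0, γ⟩ =
      ∑' γ : ℝ, (MM q γ : ℂ) * g v ⟨0, γ⟩ := by
    rw [← Summable.tsum_finsetSum fun χ _ => hsc χ v]
    refine tsum_congr fun γ => ?_
    unfold MM
    rw [Nat.cast_sum, Finset.sum_mul]
  have e1' : ∑ χ : DirichletCharacter ℂ q, ∑ σ ∈ KK q, (analyticOrderNatAt (DirichletCharacter.LFunction χ) (σ : ℂ) : ℂ) *
        ((Real.exp ((σ - 1 / 2) ^ 2 / 2 + (σ - 1 / 2) * v) : ℝ) : ℂ) =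
      ((∑ σ ∈ KK q, (Mt q (σ : ℂ) : ℝ) * Real.exp ((σ - 1 / 2) ^ 2 / 2 + (σ - 1 / 2) * v) : ℝ) : ℂ) := by
    rw [Finset.sum_comm, Complex.ofReal_sum]
    refine Finset.sum_congr rfl fun σ _ => ?_
    unfold Mt
    rw [← Finset.sum_mul, Complex.ofReal_mul]
    congr 1
    push_cast
    rfl
  have e2 : ∑ χ : DirichletCharacter ℂ q, ∑' n : ℕ, pv χ n * ((tn v n : ℝ) : ℂ) =
      ∑' n : ℕ, kap q n * ((tn v n : ℝ) : ℂ) := by
    rw [← Summable.tsum_finsetSum fun χ _ => pv_summ χ v]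
    refine tsum_congr fun n => ?_
    unfold kap
    rw [Finset.sum_mul]
  have e3 : ∑ χ : DirichletCharacter ℂ q, (if χ = 1 then (1:ℂ) else 0) = 1 := by simp
  simp only [Function.comp]
  rw [Finset.sum_sub_distrib, Finset.sum_sub_distrib, Finset.sum_add_distrib, ← Finset.sum_mul, ← Finset.mul_sum, e1, e1', e2, e3]
  have e4 : (∑' γ : ℝ, (MM q γ : ℂ) * g v ⟨0, γ⟩).re =
      ∑' γ : ℝ, (MM q γ : ℝ) * Real.exp (-(γ ^ 2) / 2) * Real.cos (γ * v) := by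
    rw [Complex.re_tsum (hsM v)]
    refine tsum_congr fun γ => ?_
    rw [g_im]
    have : ((MM q γ : ℂ) * (((Real.exp (-(γ ^ 2) / 2) : ℝ) : ℂ) * cexp (((γ * v : ℝ) : ℂ) * I))) =
        (((MM q γ : ℝ) * Real.exp (-(γ ^ 2) / 2) : ℝ) : ℂ) * cexp (((γ * v : ℝ) : ℂ) * I) := by
      push_cast; ring
    rw [this, Complex.re_ofReal_mul, Complex.exp_ofReal_mul_I_re]
  have e5 : ∀ (Z : ℂ) (T R E s P : ℝ) (K : ℂ), ((Z + (T : ℂ)) - (1 * (E : ℂ) - (s : ℂ) * K) - (s : ℂ) * (K - (P : ℂ))).re - (T - R) =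
      ((s * P - E) + R) + Z.re := by
    intro Z T R E s P K
    have : (Z + (T : ℂ)) - (1 * (E : ℂ) - (s : ℂ) * K) - (s : ℂ) * (K - (P : ℂ)) = Z + ((s * P - E + T : ℝ) : ℂ) := by
      push_cast; ring
    rw [this, Complex.add_re, Complex.ofReal_re]
    ring
  rw [e5, e4]
  rfl

end Pool.Agent.X113.HR
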