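import Pool.Agent.X113.HR3

set_option autoImplicit false
set_option maxHeartbeats 2000000
set_option linter.unusedSectionVars false

/-! Hooley's hypothesis and the exponential mean with the real zeros. -/

open Complex Filter Topology Set MeasureTheory Metric
open scoped ComplexConjugate
open Pool.Agent.X113.HQ Pool.Agent.X113.HL

namespace Pool.Agent.X113.HR

variable {q : ℕ} [NeZero q]

lemma ams_summ : Summable (am q) := (MM_summ.subtype (Gam q)).mul_left 2

/-- the explicit formula in terms of the positive ordinates -/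
theorem expls_pos (hG : GRHs q) : Tendsto (fun v : ℝ => As q v + (MM q 0 : ℝ) + FT (am q) v) atTop (𝓝 0) := by
  have h1 := MM_summ (q := q)
  refine (explqs hG).congr fun v => ?_
  have hs : Summable fun γ : ℝ => (MM q γ : ℝ) * Real.exp (-(γ ^ 2) / 2) * Real.cos (γ * v) := by
    refine Summable.of_norm_bounded h1 fun γ => ?_
    rw [norm_mul, Real.norm_of_nonneg (by positivity)]
    exact mul_le_of_le_one_right (by positivity) (Real.abs_cos_le_one _)
  rw [even_tsum hs (fun x => by rw [MM_neg, neg_sq, neg_mul, Real.cos_neg]) (Γ := Gam q) (fun x hx => hx.1)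
    (fun x hx hn => by
      have : MM q x = 0 := by
        by_contra h
        exact hn ((MM_pos_iff hx).1 (Nat.pos_of_ne_zero h))
      rw [this]; simp)]
  unfold FT am
  rw [← tsum_mul_left]
  have e : (MM q 0 : ℝ) * Real.exp (-((0:ℝ) ^ 2) / 2) * Real.cos (0 * v) = MM q 0 := by simp
  rw [e, add_assoc]
  congr 2
  exact tsum_congr fun x => by ring

theorem means_q (hG : GRHs q) {lam : ℝ} (hlam : 0 < lam) :
    ∃ l : ℝ, Tendsto (fun V : ℝ => (∫ v in (0:ℝ)..V, Real.exp (-(lam * As q v))) / V) atTop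
        (𝓝 (Real.exp (lam * MM q 0) * l)) ∧
      ∏' γ : Gam q, LI.I0 (lam * am q γ) ≤ l ∧
      (l = ∏' γ : Gam q, LI.I0 (lam * am q γ) ↔ LinearIndependent ℚ (fun γ : Gam q => (γ : ℝ))) := by
  have hs : Summable fun γ : Gam q => lam * am q γ := ams_summ.mul_left lam
  have hpos : ∀ γ : Gam q, 0 < lam * am q γ := fun γ => mul_pos hlam (am_pos γ)
  obtain ⟨l, h1, h2, h3⟩ := LI.detect hpos hs
  refine ⟨l, ?_, h2, h3⟩
  have hB : Continuous fun v => -(lam * As q v) - lam * MM q 0 := by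
    have := As_cont (q := q)
    fun_prop
  have hd : Tendsto (fun v => (-(lam * As q v) - lam * MM q 0) - FT (fun γ : Gam q => lam * am q γ) v) atTop (𝓝 0) := by
    have h := (expls_pos hG).const_mul (-lam)
    rw [mul_zero] at h
    refine h.congr fun v => ?_
    have e : FT (fun γ : Gam q => lam * am q γ) v = lam * FT (am q) v := by
      unfold FT
      rw [← tsum_mul_left]
      exact tsum_congr fun γ => by ring
    rw [e]
    ring
  have h4 := (mean_exp (fun γ => (hpos γ).le) hs h1 hB hd).const_mul (Real.exp (lam * MM q 0))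
  refine h4.congr fun V => ?_
  rw [← mul_div_assoc, ← intervalIntegral.integral_const_mul]
  congr 1
  refine intervalIntegral.integral_congr fun v _ => ?_
  show Real.exp (lam * MM q 0) * Real.exp (-(lam * As q v) - lam * MM q 0) = Real.exp (-(lam * As q v))
  rw [← Real.exp_add]
  congr 1
  ring

lemma GRHs_of (h : Hooley q) : GRHs q := by
  have hpos : ∀ (χ : DirichletCharacter ℂ q) (s : ℂ), 0 < s.re → s.re < 1 → 0 < s.im →
      DirichletCharacter.LFunction χ s = 0 → s.re = 1 / 2 := by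
    intro χ s h0 h1 hi hz
    have hr : (1 - conj s).re = 1 - s.re := by simp
    have him : (1 - conj s).im = s.im := by simp
    have h2 := h.2.injective (a₁ := ⟨(χ, s), h0, h1, hi, hz⟩)
      (a₂ := ⟨(χ, 1 - conj s), by rw [hr]; linarith, by rw [hr]; linarith, by rw [him]; exact hi, L_refl h0 h1 hz⟩)
      him.symm
    have h3 : s = 1 - conj s := congrArg (fun p => p.1.2) h2
    have h4 := congrArg Complex.re h3
    rw [hr] at h4
    linarith
  intro χ s h0 h1 hi hz
  rcases lt_or_gt_of_ne hi with hi | hi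
  · have := hpos χ⁻¹ (conj s) (by simpa using h0) (by simpa using h1) (by simpa using hi) (L_conj (strip_ne h1) hz)
    simpa using this
  · exact hpos χ s h0 h1 hi hz

theorem hooleys_iff (hG : GRHs q) : Hooley q ↔
    LinearIndependent ℚ (fun γ : Gam q => (γ : ℝ)) ∧ ∀ γ : Gam q, MM q γ = 1 := by
  classical
  have hline : ∀ (χ : DirichletCharacter ℂ q) (s : ℂ), 0 < s.re → s.re < 1 → 0 < s.im → DirichletCharacter.LFunction χ s = 0 →
      s = ⟨1 / 2, s.im⟩ := fun χ s h0 h1 hi hz => Complex.ext (hG χ s h0 h1 hi.ne' hz) rfl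
  constructor
  · rintro ⟨h1, h2⟩
    have hinj := h2.injective
    obtain ⟨c, hc⟩ : ∃ c : Gam q → DirichletCharacter ℂ q, ∀ γ : Gam q,
        DirichletCharacter.LFunction (c γ) (⟨1 / 2, (γ : ℝ)⟩ : ℂ) = 0 := ⟨fun γ => γ.2.2.choose, fun γ => γ.2.2.choose_spec⟩
    obtain ⟨P, hP⟩ : ∃ P : Gam q → {p : DirichletCharacter ℂ q × ℂ //
      0 < p.2.re ∧ p.2.re < 1 ∧ 0 < p.2.im ∧ DirichletCharacter.LFunction p.1 p.2 = 0}, ∀ γ : Gam q,
        (P γ).1 = (c γ, (⟨1 / 2, (γ : ℝ)⟩ : ℂ)) :=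
      ⟨fun γ => ⟨(c γ, (⟨1 / 2, (γ : ℝ)⟩ : ℂ)), by norm_num, by norm_num, γ.2.1, hc γ⟩, fun _ => rfl⟩
    have hPim : ∀ γ : Gam q, (P γ).1.2.im = γ := fun γ => by rw [hP]
    have hPinj : Function.Injective P := by
      intro a b hab
      apply Subtype.ext
      rw [← hPim a, ← hPim b, hab]
    refine ⟨?_, fun γ => ?_⟩
    · have h3 := h2.comp P hPinj
      have e : (fun p : {p : DirichletCharacter ℂ q × ℂ //
          0 < p.2.re ∧ p.2.re < 1 ∧ 0 < p.2.im ∧ DirichletCharacter.LFunction p.1 p.2 = 0} => p.1.2.im) ∘ P =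
          fun γ : Gam q => (γ : ℝ) := funext hPim
      rwa [e] at h3
    · have h4 : ∀ χ : DirichletCharacter ℂ q, χ ≠ c γ → mch χ γ = 0 := by
        intro χ hχ
        by_contra hne
        have hz := (mch_pos_iff γ.2.1).1 (Nat.pos_of_ne_zero hne)
        have h5 := hinj (a₁ := ⟨(χ, (⟨1 / 2, (γ : ℝ)⟩ : ℂ)), by norm_num, by norm_num, γ.2.1, hz⟩)
          (a₂ := ⟨(c γ, (⟨1 / 2, (γ : ℝ)⟩ : ℂ)), by norm_num, by norm_num, γ.2.1, hc γ⟩) rfl
        exact hχ (congrArg (fun p => p.1.1) h5)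
      unfold MM
      rw [Finset.sum_eq_single (c γ) (fun χ _ hχ => h4 χ hχ) (fun h => absurd (Finset.mem_univ _) h)]
      exact (mch_one_iff (hc γ)).2 (h1 _ _ (by norm_num) (by norm_num) γ.2.1 (hc γ))
  · rintro ⟨h1, h2⟩
    have hmem : ∀ (χ : DirichletCharacter ℂ q) (s : ℂ), 0 < s.re → s.re < 1 → 0 < s.im →
        DirichletCharacter.LFunction χ s = 0 → s.im ∈ Gam q := by
      intro χ s h0 h1 hi hz
      rw [hline χ s h0 h1 hi hz] at hz
      exact ⟨hi, χ, hz⟩
    constructor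
    · intro χ ρ r0 r1 ri hz
      have hg := hmem χ ρ r0 r1 ri hz
      have hl := hline χ ρ r0 r1 ri hz
      have hz' : DirichletCharacter.LFunction χ (⟨1 / 2, ρ.im⟩ : ℂ) = 0 := by rw [← hl]; exact hz
      rw [hl]
      rw [← mch_one_iff hz']
      have hM := h2 ⟨ρ.im, hg⟩
      have h3 : mch χ ρ.im ≤ MM q ρ.im := Finset.single_le_sum (f := fun χ => mch χ ρ.im) (fun _ _ => Nat.zero_le _)
        (Finset.mem_univ χ)
      have h4 := (mch_pos_iff ri).2 hz'
      have hM' : MM q ρ.im = 1 := hM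
      omega
    · obtain ⟨Q, hQ⟩ : ∃ Q : {p : DirichletCharacter ℂ q × ℂ //
        0 < p.2.re ∧ p.2.re < 1 ∧ 0 < p.2.im ∧ DirichletCharacter.LFunction p.1 p.2 = 0} → Gam q,
          ∀ p, (Q p : ℝ) = p.1.2.im :=
        ⟨fun p => ⟨p.1.2.im, hmem _ _ p.2.1 p.2.2.1 p.2.2.2.1 p.2.2.2.2⟩, fun _ => rfl⟩
      have hQinj : Function.Injective Q := by
        intro a b hab
        have him : a.1.2.im = b.1.2.im := by rw [← hQ a, ← hQ b, hab]
        have ha := hline _ _ a.2.1 a.2.2.1 a.2.2.2.1 a.2.2.2.2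
        have hb := hline _ _ b.2.1 b.2.2.1 b.2.2.2.1 b.2.2.2.2
        have hs : a.1.2 = b.1.2 := by rw [ha, hb, him]
        have hχ : a.1.1 = b.1.1 := by
          by_contra hne
          have hza : DirichletCharacter.LFunction a.1.1 (⟨1 / 2, a.1.2.im⟩ : ℂ) = 0 := by rw [← ha]; exact a.2.2.2.2
          have hzb : DirichletCharacter.LFunction b.1.1 (⟨1 / 2, a.1.2.im⟩ : ℂ) = 0 := by rw [him, ← hb]; exact b.2.2.2.2
          have h4 := (mch_pos_iff a.2.2.2.1).2 hza
          have h5 := (mch_pos_iff a.2.2.2.1).2 hzb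
          have h6 : mch a.1.1 a.1.2.im + mch b.1.1 a.1.2.im ≤ MM q a.1.2.im := by
            unfold MM
            rw [← Finset.sum_pair hne (f := fun χ => mch χ a.1.2.im)]
            exact Finset.sum_le_sum_of_subset (Finset.subset_univ _)
          have h7 := h2 (Q a)
          rw [hQ] at h7
          omega
        exact Subtype.ext (Prod.ext hχ hs)
      have h3 := h1.comp Q hQinj
      have e : (fun γ : Gam q => (γ : ℝ)) ∘ Q = fun p => p.1.2.im := funext hQ
      rwa [e] at h3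

theorem mains_q (hG : GRHs q) {lam : ℝ} (hlam : 0 < lam) :
    ∃ l : ℝ, Tendsto (fun V : ℝ => (∫ v in (0:ℝ)..V, Real.exp (-(lam * As q v))) / V) atTop (𝓝 l) ∧
      Real.exp (lam * MM q 0) * ∏' γ : Gam q, LI.I0 (lam * bm q γ) ≤ l ∧
      (l = Real.exp (lam * MM q 0) * ∏' γ : Gam q, LI.I0 (lam * bm q γ) ↔ Hooley q) := by
  have hmb : Multipliable (fun γ : Gam q => LI.I0 (lam * bm q γ)) :=
    LI.I0_mult (fun γ => (mul_pos hlam (bm_pos γ)).le) (bm_summ.mul_left lam)
  have hma : Multipliable (fun γ : Gam q => LI.I0 (lam * am q γ)) :=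
    LI.I0_mult (fun γ => (mul_pos hlam (am_pos γ)).le) (ams_summ.mul_left lam)
  obtain ⟨l, h1, h2, h3⟩ := means_q hG hlam
  have hle : ∀ γ : Gam q, LI.I0 (lam * bm q γ) ≤ LI.I0 (lam * am q γ) := fun γ =>
    I0_mono (mul_pos hlam (bm_pos γ)).le (mul_le_mul_of_nonneg_left (bm_le γ) hlam.le)
  obtain ⟨h4, h5⟩ := prod_cmp hmb hma (fun _ => LI.one_le_I0) hle
  have he := Real.exp_pos (lam * MM q 0)
  refine ⟨_, h1, mul_le_mul_of_nonneg_left (h4.trans h2) he.le, ?_⟩
  rw [mul_right_inj' he.ne', hooleys_iff hG]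
  constructor
  · intro h
    have h6 : ∏' γ : Gam q, LI.I0 (lam * bm q γ) = ∏' γ : Gam q, LI.I0 (lam * am q γ) :=
      le_antisymm h4 (by rw [← h]; exact h2)
    refine ⟨h3.1 (by rw [h, h6]), fun γ => ?_⟩
    have h7 := h5 h6 γ
    by_contra hne
    have h8 : 1 < MM q γ := by
      have := (MM_pos_iff (q := q) γ.2.1).2 γ.2
      omega
    have h9 : (1:ℝ) < MM q γ := by exact_mod_cast h8
    have h10 : lam * bm q γ < lam * am q γ := by
      refine mul_lt_mul_of_pos_left ?_ hlam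
      have h2 := Real.exp_pos (-((γ : ℝ) ^ 2) / 2)
      unfold bm am
      nlinarith
    exact absurd h7 (I0_lt (mul_pos hlam (bm_pos γ)).le h10).ne
  · rintro ⟨h6, h7⟩
    rw [h3.2 h6]
    refine tprod_congr fun γ => ?_
    unfold am bm
    rw [h7 γ, Nat.cast_one, one_mul]

/-- the real zeros as an unordered sum -/
lemma Rq_finsum (v : ℝ) : Rq q v = ∑ᶠ σ ∈ Ioo (1 / 2 : ℝ) 1,
    ((∑ χ : DirichletCharacter ℂ q, analyticOrderNatAt (DirichletCharacter.LFunction χ) (σ : ℂ) : ℕ) : ℝ) *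
      Real.exp ((σ - 1 / 2) ^ 2 / 2 + (σ - 1 / 2) * v) := by
  unfold Rq
  symm
  refine finsum_mem_eq_sum_of_inter_support_eq _ ?_
  ext σ
  simp only [mem_inter_iff, Function.mem_support, Finset.mem_coe]
  constructor
  · rintro ⟨⟨a1, a2⟩, a3⟩
    refine ⟨mem_KP.2 ⟨a1, a2, ?_⟩, a3⟩
    by_contra hn
    push Not at hn
    apply a3
    have h0 : ∀ χ : DirichletCharacter ℂ q, analyticOrderNatAt (DirichletCharacter.LFunction χ) (σ : ℂ) = 0 := by
      intro χ
      exact mult_zero (H370.DL.analyticAt_L (strip_ne (by rw [Complex.ofReal_re]; exact a2))) (hn χ)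
    simp only [h0, Finset.sum_const_zero, Nat.cast_zero, zero_mul]
  · rintro ⟨h, a3⟩
    obtain ⟨a1, a2, -⟩ := mem_KP.1 h
    exact ⟨⟨a1, a2⟩, a3⟩

/-- **all together** -/
theorem alls_q {lam : ℝ} (hlam : 0 < lam) :
    Multipliable (fun γ : Gam q => LI.I0 (lam * bm q γ)) ∧
    ((∃ C : ℝ, ∀ᶠ V : ℝ in atTop, (∫ v in (0:ℝ)..V, Real.exp (-(lam * As q v))) / V ≤ C) ↔ GRHs q) ∧
    (GRHs q → ∃ l : ℝ, Tendsto (fun V : ℝ => (∫ v in (0:ℝ)..V, Real.exp (-(lam * As q v))) / V) atTop (𝓝 l) ∧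
      Real.exp (lam * MM q 0) * ∏' γ : Gam q, LI.I0 (lam * bm q γ) ≤ l ∧
      (l = Real.exp (lam * MM q 0) * ∏' γ : Gam q, LI.I0 (lam * bm q γ) ↔ Hooley q)) ∧
    (Hooley q ↔ ∀ ε : ℝ, 0 < ε → ∀ᶠ V : ℝ in atTop,
      (∫ v in (0:ℝ)..V, Real.exp (-(lam * As q v))) / V ≤
        Real.exp (lam * MM q 0) * ∏' γ : Gam q, LI.I0 (lam * bm q γ) + ε) := by
  refine ⟨LI.I0_mult (fun γ => (mul_pos hlam (bm_pos γ)).le) (bm_summ.mul_left lam), ?_, fun hG => mains_q hG hlam, ?_⟩
  · constructor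
    · rintro ⟨C, hC⟩
      exact GRHs_of_mean hlam hC
    · intro hG
      obtain ⟨l, h1, -, -⟩ := mains_q hG hlam
      exact ⟨l + 1, h1.eventually (ge_mem_nhds (by linarith))⟩
  · constructor
    · intro h1 ε hε
      obtain ⟨l, h3, -, h4⟩ := mains_q (GRHs_of h1) hlam
      rw [h4.2 h1] at h3
      exact h3.eventually (ge_mem_nhds (by linarith))
    · intro h
      have hG : GRHs q := GRHs_of_mean hlam (h 1 one_pos)
      obtain ⟨l, h3, h4, h5⟩ := mains_q hG hlam
      refine h5.1 (le_antisymm ?_ h4)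
      refine le_of_forall_pos_le_add fun ε hε => ?_
      exact le_of_tendsto h3 (h ε hε)

end Pool.Agent.X113.HR
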