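import Pool.Agent.X113.HL4
import Pool.Agent.Y21.FW.Zeros
import Pool.Agent.W190.A17

set_option autoImplicit false
set_option maxHeartbeats 2000000
set_option linter.unusedSectionVars false

/-! The zeta function. -/

open MeasureTheory Filter Topology Set
open Pool.Agent.X113.HQ Pool.Agent.X113.HL

namespace Pool.Agent.X113.HZ

lemma L_one (χ : DirichletCharacter ℂ 1) : DirichletCharacter.LFunction χ = riemannZeta :=
  DirichletCharacter.LFunction_modOne_eq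

lemma MM_one (γ : ℝ) : MM 1 γ = analyticOrderNatAt riemannZeta (⟨1 / 2, γ⟩ : ℂ) := by
  unfold MM
  rw [Fintype.sum_eq_single 1 (fun χ h => absurd (DirichletCharacter.level_one χ) h)]
  unfold mch
  rw [L_one]
  rfl

lemma MM_one_zero : MM 1 0 = 0 := by
  rw [MM_one]
  have h : riemannZeta (⟨1 / 2, 0⟩ : ℂ) ≠ 0 := by
    have h1 := Pool.Agent.Y21.FW.real_ne (x := 1 / 2) (by norm_num) (by norm_num)
    have e : (((1 / 2 : ℝ)) : ℂ) = ⟨1 / 2, 0⟩ := rfl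
    rwa [e] at h1
  have ha := an_L (1 : DirichletCharacter ℂ 1) 0
  rw [L_one] at ha
  unfold analyticOrderNatAt
  rw [ha.analyticOrderAt_eq_zero.2 h]
  rfl

lemma GRH_one : GRH 1 ↔ RiemannHypothesis := by
  constructor
  · intro h
    rw [Pool.Agent.W190.rh_free]
    intro s hs h0
    have h1 : s.re < 1 := by
      by_contra hc
      exact riemannZeta_ne_zero_of_one_le_re (not_lt.1 hc) h0
    have h2 := h 1 s (by linarith) h1 (by rw [L_one]; exact h0)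
    linarith
  · intro RH χ s h0 h1 hz
    rw [L_one] at hz
    refine RH s hz ?_ ?_
    · rintro ⟨n, hn⟩
      rw [hn] at h0
      have h2 : (-2 * ((n:ℂ) + 1)).re = -2 * ((n:ℝ) + 1) := by simp
      rw [h2] at h0
      have : (0:ℝ) ≤ n := Nat.cast_nonneg n
      linarith
    · rintro rfl
      simp at h1

lemma Gam_one : Gam 1 = {γ : ℝ | 0 < γ ∧ riemannZeta (⟨1 / 2, γ⟩ : ℂ) = 0} := by
  ext γ
  constructor
  · rintro ⟨h1, χ, h2⟩
    rw [L_one] at h2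
    exact ⟨h1, h2⟩
  · rintro ⟨h1, h2⟩
    exact ⟨h1, 1, by rw [L_one]; exact h2⟩

lemma A_one (v : ℝ) : Aq 1 v = (Real.sqrt (2 * Real.pi))⁻¹ * (∑' n : ℕ, ArithmeticFunction.vonMangoldt n *
    (n : ℝ) ^ (-(1 / 2) : ℝ) * Real.exp (-((v - Real.log n) ^ 2) / 2)) - Real.exp (v / 2 + 1 / 8) := by
  unfold Aq
  rw [Nat.totient_one, Nat.cast_one, one_mul]
  congr 2
  refine tsum_congr fun n => ?_
  rw [if_pos (Subsingleton.elim _ _)]
  rfl

/-- **the zeta function** -/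
theorem all_zeta (S : Set ℝ) (hS : S = Gam 1) {lam : ℝ} (hlam : 0 < lam) {P : ℝ}
    (hP : P = ∏' γ : S, LI.I0 (2 * lam * (analyticOrderNatAt riemannZeta (⟨1 / 2, (γ : ℝ)⟩ : ℂ) : ℝ) * Real.exp (-((γ : ℝ) ^ 2) / 2))) :
    Multipliable (fun γ : S => LI.I0 (2 * lam * (analyticOrderNatAt riemannZeta (⟨1 / 2, (γ : ℝ)⟩ : ℂ) : ℝ) * Real.exp (-((γ : ℝ) ^ 2) / 2))) ∧
    ((∃ C : ℝ, ∀ᶠ V : ℝ in atTop, (∫ v in (0:ℝ)..V, Real.exp (-(lam * Aq 1 v))) / V ≤ C) ↔ RiemannHypothesis) ∧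
    (RiemannHypothesis → ∃ l : ℝ, Tendsto (fun V : ℝ => (∫ v in (0:ℝ)..V, Real.exp (-(lam * Aq 1 v))) / V) atTop (𝓝 l) ∧
      P ≤ l ∧ (l = P ↔ LinearIndependent ℚ (fun γ : S => (γ : ℝ)))) := by
  subst hS
  have e : ∀ γ : Gam 1, 2 * lam * (analyticOrderNatAt riemannZeta (⟨1 / 2, (γ : ℝ)⟩ : ℂ) : ℝ) * Real.exp (-((γ : ℝ) ^ 2) / 2) = lam * am 1 γ := by
    intro γ
    unfold am
    rw [MM_one]
    ring
  simp only [e] at hP ⊢
  have hsum : Summable (am 1) := (MM_summ.subtype (Gam 1)).mul_left 2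
  have hmain : RiemannHypothesis → ∃ l : ℝ, Tendsto (fun V : ℝ => (∫ v in (0:ℝ)..V, Real.exp (-(lam * Aq 1 v))) / V) atTop (𝓝 l) ∧
      P ≤ l ∧ (l = P ↔ LinearIndependent ℚ (fun γ : Gam 1 => (γ : ℝ))) := by
    intro RH
    obtain ⟨l, h1, h2, h3⟩ := mean_q (GRH_one.2 RH) hlam
    rw [MM_one_zero, Nat.cast_zero, mul_zero, Real.exp_zero, one_mul] at h1
    rw [hP]
    exact ⟨l, h1, h2, h3⟩
  refine ⟨LI.I0_mult (fun γ => (mul_pos hlam (am_pos γ)).le) (hsum.mul_left lam), ?_, hmain⟩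
  constructor
  · rintro ⟨C, hC⟩
    exact GRH_one.1 (GRH_of_mean hlam hC)
  · intro RH
    obtain ⟨l, h1, -, -⟩ := hmain RH
    exact ⟨l + 1, h1.eventually (ge_mem_nhds (by linarith))⟩

end Pool.Agent.X113.HZ
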