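import Pool.Agent.TH850.UV.Loc

set_option autoImplicit false

/-! # Exponential moments of the local counts of zeros, one block -/

open MeasureTheory Complex Set
open H370 (Zf mult zset mem_Zf good_zeta)

namespace Pool.Agent.X113.LA

open Pool.Agent.H24R2.JP (XX)
open Pool.Agent.H24R2.DZ (ra)
open Pool.Agent.W571.SD (wt wt_nonneg ra_eq BB GJ exists_J geo)
open Pool.Agent.TH850.UR
open Pool.Agent.TH850.UV.Loc (sqexp hull Far mem_img sum_img)

/-- `x² exp (c x)` -/
noncomputable def Ph (c x : ℝ) : ℝ := x ^ 2 * Real.exp (c * x)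

lemma Ph_mono {c x y : ℝ} (hc : 0 ≤ c) (hx : 0 ≤ x) (hxy : x ≤ y) : Ph c x ≤ Ph c y := by
  unfold Ph
  apply mul_le_mul (pow_le_pow_left₀ hx hxy 2) _ (Real.exp_pos _).le (by positivity)
  apply Real.exp_le_exp.2
  exact mul_le_mul_of_nonneg_left hxy hc

lemma Ph_nonneg (c x : ℝ) : 0 ≤ Ph c x := by unfold Ph; positivity

lemma Ph_zero (c : ℝ) : Ph c 0 = 0 := by unfold Ph; simp

theorem blk : ∃ c C T0 : ℝ, 0 < c ∧ 0 < C ∧ 10 ≤ T0 ∧ ∀ T : ℝ, T0 ≤ T →
    ∫⁻ t : ℝ, ENNReal.ofReal (Ph c (∑ s ∈ (Zf riemannZeta T (2 * T)).filter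
      (fun s => |s.im - t| ≤ 1 / Real.log T), (mult riemannZeta s : ℝ))) ≤
      ENNReal.ofReal (C * T) := by
  classical
  obtain ⟨η, C4, hη, hC4, hcount⟩ := scount
  obtain ⟨η1, ε1, hη1, hε1, hsc2⟩ := sc2 η hη
  obtain ⟨θ, c1, C1, a1, T1, hθ, hθ', hc1, hC1, ha1, hT1, hsc1⟩ :=
    Pool.Agent.W186.SD.sc1 η1 ε1 hη1 hε1
  obtain ⟨a2, T2, hsc2'⟩ := hsc2 θ hθ hθ'
  obtain ⟨c3, C3, T3, hc3, hC3, hT3, hfar⟩ := W327.SD.sfar
  obtain ⟨C5, T5, hC5, hT5, hunit⟩ := sunit
  have hc1' : 0 < c1 / 4 := by positivity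
  have hq1 : Real.exp (-(c1 / 4)) < 1 := Real.exp_lt_one_iff.2 (by linarith)
  obtain ⟨Q, hQ⟩ : ∃ Q : ℝ, Q = 1 / (1 - Real.exp (-(c1 / 4))) := ⟨_, rfl⟩
  have hQ0 : 0 < Q := by rw [hQ]; apply one_div_pos.2; linarith
  obtain ⟨n, hn⟩ : ∃ n : ℕ, n = max ⌈a1⌉₊ (max ⌈a2⌉₊ 50) := ⟨_, rfl⟩
  have hn50 : 50 ≤ n := by rw [hn]; exact (le_max_right _ _).trans (le_max_right _ _)
  have hn1 : 1 ≤ n := by omega
  have hn50' : (50 : ℝ) ≤ n := by exact_mod_cast hn50
  have hn1' : (1 : ℝ) ≤ n := by linarith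
  have hna1 : a1 ≤ n := by
    have : ⌈a1⌉₊ ≤ n := by rw [hn]; exact le_max_left _ _
    exact (Nat.le_ceil a1).trans (by exact_mod_cast this)
  have hna2 : a2 ≤ n := by
    have : ⌈a2⌉₊ ≤ n := by rw [hn]; exact (le_max_left _ _).trans (le_max_right _ _)
    exact (Nat.le_ceil a2).trans (by exact_mod_cast this)
  obtain ⟨c, hc⟩ : ∃ c : ℝ, c = min (min (c1 / (4 * C4)) (c1 / (1600 * C5))) (c3 / (4 * C5)) :=
    ⟨_, rfl⟩
  have hc0 : 0 < c := by
    rw [hc]; exact lt_min (lt_min (by positivity) (by positivity)) (by positivity)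
  have hcc1 : c * (2 * C4) ≤ c1 / 2 := by
    have h1 : c ≤ c1 / (4 * C4) := by
      rw [hc]; exact (min_le_left _ _).trans (min_le_left _ _)
    calc c * (2 * C4) ≤ c1 / (4 * C4) * (2 * C4) := mul_le_mul_of_nonneg_right h1 (by positivity)
      _ = c1 / 2 := by field_simp; norm_num
  have hcc2 : c * (2 * C5) ≤ c1 / 800 := by
    have h1 : c ≤ c1 / (1600 * C5) := by
      rw [hc]; exact (min_le_left _ _).trans (min_le_right _ _)
    calc c * (2 * C5) ≤ c1 / (1600 * C5) * (2 * C5) :=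
          mul_le_mul_of_nonneg_right h1 (by positivity)
      _ = c1 / 800 := by field_simp; norm_num
  have hcc3 : c * (2 * C5) ≤ c3 / 2 := by
    have h1 : c ≤ c3 / (4 * C5) := by rw [hc]; exact min_le_right _ _
    calc c * (2 * C5) ≤ c3 / (4 * C5) * (2 * C5) := mul_le_mul_of_nonneg_right h1 (by positivity)
      _ = c3 / 2 := by field_simp; norm_num
  -- the levels
  obtain ⟨K, hK⟩ : ∃ K : ℕ → ℝ, ∀ i, K i = C4 * (2 ^ i * n) := ⟨fun i => C4 * (2 ^ i * n), fun i => rfl⟩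
  have hK0 : ∀ i, 0 ≤ K i := by intro i; rw [hK]; positivity
  refine ⟨c, 2 * Ph c (K 0) + C1 * (4 * C4 ^ 2 * (2 / (c1 / 4) ^ 2)) * Q +
    4 * C5 ^ 2 * C1 * (2 / (c1 / 800) ^ 2) + 4 * C5 ^ 2 * C3 * (2 / (c3 / 2) ^ 2),
    max (max (max T1 T2) T3) (max (2 * T5 + 2) (max 1000 (Real.exp (400 * n)))), hc0,
    by have := Ph_nonneg c (K 0); positivity, ?_, ?_⟩
  · exact le_trans (by norm_num) (((le_max_left _ _).trans (le_max_right _ _)).trans (le_max_right _ _))
  intro T hT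
  have hTT1 : T1 ≤ T := ((le_max_left _ _).trans ((le_max_left _ _).trans (le_max_left _ _))).trans hT
  have hTT2 : T2 ≤ T := ((le_max_right _ _).trans ((le_max_left _ _).trans (le_max_left _ _))).trans hT
  have hTT3 : T3 ≤ T := ((le_max_right _ _).trans (le_max_left _ _)).trans hT
  have hTT5 : 2 * T5 + 2 ≤ T := ((le_max_left _ _).trans (le_max_right _ _)).trans hT
  have hT1000 : 1000 ≤ T :=
    (((le_max_left _ _).trans (le_max_right _ _)).trans (le_max_right _ _)).trans hT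
  have hTe : Real.exp (400 * n) ≤ T :=
    (((le_max_right _ _).trans (le_max_right _ _)).trans (le_max_right _ _)).trans hT
  have hT0 : 0 < T := by linarith
  obtain ⟨L, hL⟩ : ∃ L : ℝ, L = Real.log T := ⟨_, rfl⟩
  have hnL : (n : ℝ) ≤ L / 400 := by
    have h1 := (Real.le_log_iff_exp_le hT0).2 hTe
    rw [hL]; linarith
  have hL400 : 400 ≤ L := by linarith
  have hL0 : 0 < L := by linarith
  have hL1 : 1 / L ≤ 1 := by rw [div_le_one hL0]; linarith
  have hlog3 : Real.log (3 * T) ≤ 2 * L := by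
    rw [Real.log_mul (by norm_num) hT0.ne', ← hL]
    have : Real.log 3 ≤ 2 := by
      have := Real.log_le_sub_one_of_pos (show (0 : ℝ) < 3 by norm_num)
      linarith
    linarith
  obtain ⟨J, hJ1, hJ2, hJ3⟩ := exists_J hn1 hnL
  -- the radii
  have hr : ∀ j : ℕ, ra T (2 ^ j * n) = 2 * (2 ^ j * n) / L := fun j => by rw [hL]; exact ra_eq _ _
  have hrpos : ∀ j : ℕ, 0 < ra T (2 ^ j * n) := by
    intro j; rw [hr]; positivity
  have hrJ2 : 1 / 200 < ra T (2 ^ J * n) := by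
    rw [hr, lt_div_iff₀ hL0]; linarith
  have hpow : ∀ j : ℕ, j ≤ J → (2 : ℝ) ^ j * n ≤ L / 200 := by
    intro j hj
    refine le_trans ?_ hJ2
    apply mul_le_mul_of_nonneg_right _ (by positivity)
    exact pow_le_pow_right₀ (by norm_num) hj
  have hpow1 : ∀ j : ℕ, (n : ℝ) ≤ 2 ^ j * n := by
    intro j
    exact le_mul_of_one_le_left (by positivity) (one_le_pow₀ (by norm_num))
  have hrL : ∀ j : ℕ, 1 / L ≤ ra T (2 ^ j * n) / 100 := by
    intro j
    rw [hr, div_div, div_le_div_iff₀ hL0 (by positivity)]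
    have := hpow1 j
    nlinarith
  -- bad heights
  have hBvol : ∀ j : ℕ, j ≤ J → volume (BB η T (2 ^ j * n)) ≤
      ENNReal.ofReal (C1 * T * Real.exp (-(c1 * (2 ^ j * n)))) := by
    intro j hj
    refine le_trans (measure_mono ?_) (hsc1 T (2 ^ j * n) hTT1 (hna1.trans (hpow1 j))
      (by rw [← hL]; exact hpow j hj))
    intro t0 ht0
    refine ⟨ht0.1, ht0.2.1, fun hG => ht0.2.2 ?_⟩
    exact hsc2' T (2 ^ j * n) t0 hTT2 (hna2.trans (hpow1 j)) (by rw [← hL]; exact hpow j hj)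
      ht0.1 ht0.2.1 hG
  have hFvol : volume (Far T) ≤ ENNReal.ofReal (C3 * T ^ (1 - c3)) := hfar T hTT3
  -- the function
  obtain ⟨f, hf⟩ : ∃ f : ℝ → ℝ, ∀ t, f t = ∑ s ∈ (Zf riemannZeta T (2 * T)).filter
      (fun s => |s.im - t| ≤ 1 / L), (mult riemannZeta s : ℝ) :=
    ⟨fun t => ∑ s ∈ (Zf riemannZeta T (2 * T)).filter
      (fun s => |s.im - t| ≤ 1 / L), (mult riemannZeta s : ℝ), fun t => rfl⟩
  have hf0 : ∀ t, 0 ≤ f t := by
    intro t
    rw [hf]
    exact Finset.sum_nonneg fun s _ => Nat.cast_nonneg _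
  obtain ⟨Kc, hKc⟩ : ∃ Kc : ℝ, Kc = 2 * C5 * L := ⟨_, rfl⟩
  have hKc0 : 0 ≤ Kc := by rw [hKc]; positivity
  -- outside
  have hout : ∀ t, t ∉ Icc (T - 1) (2 * T + 1) → f t = 0 := by
    intro t ht
    rw [hf]
    apply Finset.sum_eq_zero
    intro s hs
    exfalso
    rw [Finset.mem_filter, mem_Zf good_zeta (by linarith)] at hs
    obtain ⟨⟨g1, g2, g3, g4, g5⟩, h⟩ := hs
    apply ht
    have := abs_le.1 (h.trans hL1)
    exact ⟨by linarith, by linarith⟩
  -- the crude bound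
  have hcrude : ∀ t, t ∈ Icc (T - 1) (2 * T + 1) → f t ≤ Kc := by
    intro t ht
    rw [hf, hKc]
    have hsub : (Zf riemannZeta T (2 * T)).filter (fun s => |s.im - t| ≤ 1 / L) ⊆
        Zf riemannZeta T (2 * T) := Finset.filter_subset _ _
    rw [sum_img (by linarith) hsub]
    have h1 := hunit t 0 (by linarith [ht.1]) (by
      have := Real.log_nonneg (show (1 : ℝ) ≤ t by linarith [ht.1])
      push_cast
      linarith) (((Zf riemannZeta T (2 * T)).filter (fun s => |s.im - t| ≤ 1 / L)).image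
        (fun s => s - 1 / 2)) (by
      intro s' hs'
      obtain ⟨s, hs, -, e1, e2, h0, h3, h4, -⟩ := mem_img (by linarith) hsub hs'
      rw [Finset.mem_filter] at hs
      refine ⟨?_, by rw [iteratedDeriv_zero]; exact h0⟩
      rw [e2]
      exact hs.2.trans hL1)
    refine h1.trans ?_
    have h2 : Real.log t ≤ 2 * L := (Real.log_le_log (by linarith [ht.1])
      (by linarith [ht.2])).trans hlog3
    calc C5 * Real.log t ≤ C5 * (2 * L) := mul_le_mul_of_nonneg_left h2 hC5.le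
      _ = 2 * C5 * L := by ring
  -- the level bound
  have hlevel : ∀ t, t ∈ Icc (T - 1) (2 * T + 1) → t ∉ Far T → ∀ i ≤ J,
      (∀ j, i ≤ j → j ≤ J → t ∉ BB η T (2 ^ j * n)) → f t ≤ K i := by
    intro t ht htF i hiJ hB
    have ht1 : T / 2 ≤ t := by linarith [ht.1]
    have ht2 : t ≤ 3 * T := by linarith [ht.2]
    have hNN : ∀ j, i ≤ j → j ≤ J → Pool.Agent.H24R2.DZ.NN (2 ^ j * n) η
        (fun z => XX (I * t + ra T (2 ^ j * n) * z)) := by
      intro j hij hjJ
      by_contra hcon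
      exact hB j hij hjJ ⟨ht1, ht2, hcon⟩
    have hsub : (Zf riemannZeta T (2 * T)).filter (fun s => |s.im - t| ≤ 1 / L) ⊆
        Zf riemannZeta T (2 * T) := Finset.filter_subset _ _
    have hre : ∀ s' ∈ ((Zf riemannZeta T (2 * T)).filter (fun s => |s.im - t| ≤ 1 / L)).image
        (fun s => s - 1 / 2), |s'.re| < ra T (2 ^ i * n) / 1000 ∧ |s'.im - t| ≤ 1 / L ∧
          XX s' = 0 := by
      intro s' hs'
      obtain ⟨s, hs, -, e1, e2, h0, h3, h4, -⟩ := mem_img (by linarith) hsub hs'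
      rw [Finset.mem_filter] at hs
      have him : |s'.im - t| ≤ 1 / L := by rw [e2]; exact hs.2
      refine ⟨?_, him, h0⟩
      refine descend (η := η) (by rw [← hL]; exact hL0) hn1 h0 i J hiJ ?_ ?_
      · intro j hij hjJ
        exact ⟨t, him.trans (hrL j), hNN j hij hjJ⟩
      · by_contra hcon
        push Not at hcon
        apply htF
        refine ⟨ht1, ht2, s', h0, by linarith, him.trans hL1⟩
    rw [hf, hK]
    rw [sum_img (by linarith) hsub]
    have h1 := hcount (2 ^ i * n) (ra T (2 ^ i * n)) t 0 XX (hn1'.trans (hpow1 _))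
      (by push_cast; positivity) (hrpos i) XX_diff (hNN i le_rfl hiJ)
      (((Zf riemannZeta T (2 * T)).filter (fun s => |s.im - t| ≤ 1 / L)).image
        (fun s => s - 1 / 2)) (by
      intro s' hs'
      obtain ⟨h2, h3, h4⟩ := hre s' hs'
      refine ⟨?_, by rw [iteratedDeriv_zero]; exact h4⟩
      have h12 : (s' - I * t).re = s'.re := by simp
      have h13 : (s' - I * t).im = s'.im - t := by simp
      have h14 := Complex.norm_le_abs_re_add_abs_im (s' - I * t)
      rw [h12, h13] at h14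
      linarith [hrL i, hrpos i])
    exact h1
  -- the pointwise bound
  have hpt : ∀ t, ENNReal.ofReal (Ph c (f t)) ≤
      (Icc (T - 1) (2 * T + 1)).indicator (fun _ => ENNReal.ofReal (Ph c (K 0))) t +
      (∑ i ∈ Finset.range J, (toMeasurable volume (BB η T (2 ^ i * n))).indicator
        (fun _ => ENNReal.ofReal (Ph c (K (i + 1)))) t) +
      ((toMeasurable volume (BB η T (2 ^ J * n))).indicator (fun _ => ENNReal.ofReal (Ph c Kc)) t +
      (toMeasurable volume (Far T)).indicator (fun _ => ENNReal.ofReal (Ph c Kc)) t) := by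
    intro t
    by_cases ht : t ∈ Icc (T - 1) (2 * T + 1)
    swap
    · rw [hout t ht, Ph_zero]
      simp
    by_cases h1 : t ∈ Far T
    · have h2 : t ∈ toMeasurable volume (Far T) := subset_toMeasurable _ _ h1
      refine le_trans ?_ le_add_self
      refine le_trans ?_ le_add_self
      rw [Set.indicator_of_mem h2]
      exact ENNReal.ofReal_le_ofReal (Ph_mono hc0.le (hf0 t) (hcrude t ht))
    by_cases h2 : t ∈ BB η T (2 ^ J * n)
    · have h3 : t ∈ toMeasurable volume (BB η T (2 ^ J * n)) := subset_toMeasurable _ _ h2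
      refine le_trans ?_ le_add_self
      refine le_trans ?_ le_self_add
      rw [Set.indicator_of_mem h3]
      exact ENNReal.ofReal_le_ofReal (Ph_mono hc0.le (hf0 t) (hcrude t ht))
    by_cases h3 : ∀ j, j ≤ J → t ∉ BB η T (2 ^ j * n)
    · refine le_trans ?_ le_self_add
      refine le_trans ?_ le_self_add
      rw [Set.indicator_of_mem ht]
      exact ENNReal.ofReal_le_ofReal (Ph_mono hc0.le (hf0 t)
        (hlevel t ht h1 0 (Nat.zero_le _) (fun j _ hj => h3 j hj)))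
    · push Not at h3
      obtain ⟨j1, hj1, hj1'⟩ := h3
      obtain ⟨i, hi⟩ : ∃ i, i = Nat.findGreatest (fun j => t ∈ BB η T (2 ^ j * n)) J := ⟨_, rfl⟩
      have hi1 : t ∈ BB η T (2 ^ i * n) := by
        rw [hi]
        exact Nat.findGreatest_spec (P := fun j => t ∈ BB η T (2 ^ j * n)) hj1 hj1'
      have hi2 : i ≤ J := by rw [hi]; exact Nat.findGreatest_le J
      have hi3 : i < J := by
        rcases hi2.lt_or_eq with h | h
        · exact h
        · rw [h] at hi1; exact absurd hi1 h2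
      have hi4 : ∀ j, i + 1 ≤ j → j ≤ J → t ∉ BB η T (2 ^ j * n) := by
        intro j hj1 hj2 hcon
        have := Nat.le_findGreatest (P := fun j => t ∈ BB η T (2 ^ j * n)) hj2 hcon
        rw [← hi] at this
        omega
      have h4 := hlevel t ht h1 (i + 1) hi3 hi4
      have h5 : t ∈ toMeasurable volume (BB η T (2 ^ i * n)) := subset_toMeasurable _ _ hi1
      refine le_trans ?_ le_self_add
      refine le_trans ?_ le_add_self
      refine le_trans ?_ (Finset.single_le_sum (f := fun i =>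
        (toMeasurable volume (BB η T (2 ^ i * n))).indicator
        (fun _ => ENNReal.ofReal (Ph c (K (i + 1)))) t) (fun _ _ => zero_le)
        (Finset.mem_range.2 hi3))
      rw [Set.indicator_of_mem h5]
      exact ENNReal.ofReal_le_ofReal (Ph_mono hc0.le (hf0 t) h4)
  -- integration
  have hmi : ∀ i, Measurable ((toMeasurable volume (BB η T (2 ^ i * n))).indicator
      (fun _ => ENNReal.ofReal (Ph c (K (i + 1))))) := fun i =>
    measurable_const.indicator (measurableSet_toMeasurable _ _)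
  have hint : ∫⁻ t, ENNReal.ofReal (Ph c (f t)) ≤
      ENNReal.ofReal (Ph c (K 0) * (T + 2)) +
      (∑ i ∈ Finset.range J,
        ENNReal.ofReal (Ph c (K (i + 1)) * (C1 * T * Real.exp (-(c1 * (2 ^ i * n)))))) +
      (ENNReal.ofReal (Ph c Kc * (C1 * T * Real.exp (-(c1 * (2 ^ J * n))))) +
      ENNReal.ofReal (Ph c Kc * (C3 * T ^ (1 - c3)))) := by
    refine (lintegral_mono hpt).trans ?_
    have m1 : Measurable (fun t => (Icc (T - 1) (2 * T + 1)).indicator
        (fun _ => ENNReal.ofReal (Ph c (K 0))) t) := measurable_const.indicator measurableSet_Icc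
    have m2 : Measurable (fun t => ∑ i ∈ Finset.range J,
        (toMeasurable volume (BB η T (2 ^ i * n))).indicator
        (fun _ => ENNReal.ofReal (Ph c (K (i + 1)))) t) :=
      Finset.measurable_fun_sum _ fun i _ => hmi i
    have m3 : Measurable (fun t => (toMeasurable volume (BB η T (2 ^ J * n))).indicator
        (fun _ => ENNReal.ofReal (Ph c Kc)) t) :=
      measurable_const.indicator (measurableSet_toMeasurable _ _)
    have m12 : Measurable (fun t => (Icc (T - 1) (2 * T + 1)).indicator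
        (fun _ => ENNReal.ofReal (Ph c (K 0))) t + ∑ i ∈ Finset.range J,
        (toMeasurable volume (BB η T (2 ^ i * n))).indicator
        (fun _ => ENNReal.ofReal (Ph c (K (i + 1)))) t) := m1.add m2
    rw [lintegral_add_left m12, lintegral_add_left m1, lintegral_add_left m3,
      lintegral_finsetSum _ fun i _ => hmi i]
    refine add_le_add (add_le_add ?_ ?_) (add_le_add ?_ ?_)
    · rw [lintegral_indicator_const measurableSet_Icc, Real.volume_Icc,
        ENNReal.ofReal_mul (Ph_nonneg _ _)]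
      apply le_of_eq
      congr 2
      ring
    · refine Finset.sum_le_sum fun i hi => ?_
      rw [Finset.mem_range] at hi
      exact hull _ _ _ (Ph_nonneg _ _) (hBvol i hi.le)
    · exact hull _ _ _ (Ph_nonneg _ _) (hBvol J le_rfl)
    · exact hull _ _ _ (Ph_nonneg _ _) hFvol
  -- the estimates
  have e1 : Ph c (K 0) * (T + 2) ≤ 2 * Ph c (K 0) * T := by
    have : 0 ≤ Ph c (K 0) := Ph_nonneg _ _
    nlinarith
  have e2 : ∀ i, Ph c (K (i + 1)) * (C1 * T * Real.exp (-(c1 * (2 ^ i * n)))) ≤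
      C1 * (4 * C4 ^ 2 * (2 / (c1 / 4) ^ 2)) * T * Real.exp (-(c1 / 4 * (2 ^ i * n))) := by
    intro i
    obtain ⟨x, hx⟩ : ∃ x : ℝ, x = 2 ^ i * n := ⟨_, rfl⟩
    have hx0 : 0 ≤ x := by rw [hx]; positivity
    have hKx : K (i + 1) = C4 * (2 * x) := by
      rw [hK, hx, pow_succ]
      ring
    rw [hKx, ← hx]
    unfold Ph
    have h1 : Real.exp (c * (C4 * (2 * x))) * Real.exp (-(c1 * x)) ≤
        Real.exp (-(c1 / 4 * x)) * Real.exp (-(c1 / 4 * x)) := by
      rw [← Real.exp_add, ← Real.exp_add]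
      apply Real.exp_le_exp.2
      have h2 : c * (2 * C4) * x ≤ c1 / 2 * x := mul_le_mul_of_nonneg_right hcc1 hx0
      nlinarith
    have h2 := sqexp (c1 / 4) x hc1' hx0
    calc (C4 * (2 * x)) ^ 2 * Real.exp (c * (C4 * (2 * x))) *
          (C1 * T * Real.exp (-(c1 * x))) =
          4 * C4 ^ 2 * C1 * T * x ^ 2 *
            (Real.exp (c * (C4 * (2 * x))) * Real.exp (-(c1 * x))) := by ring
      _ ≤ 4 * C4 ^ 2 * C1 * T * x ^ 2 *
            (Real.exp (-(c1 / 4 * x)) * Real.exp (-(c1 / 4 * x))) := by gcongr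
      _ = 4 * C4 ^ 2 * C1 * T * Real.exp (-(c1 / 4 * x)) *
            (x ^ 2 * Real.exp (-(c1 / 4 * x))) := by ring
      _ ≤ 4 * C4 ^ 2 * C1 * T * Real.exp (-(c1 / 4 * x)) * (2 / (c1 / 4) ^ 2) := by gcongr
      _ = _ := by ring
  have e3 : ∑ i ∈ Finset.range J, Ph c (K (i + 1)) * (C1 * T * Real.exp (-(c1 * (2 ^ i * n)))) ≤
      C1 * (4 * C4 ^ 2 * (2 / (c1 / 4) ^ 2)) * Q * T := by
    calc ∑ i ∈ Finset.range J, Ph c (K (i + 1)) * (C1 * T * Real.exp (-(c1 * (2 ^ i * n)))) ≤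
          ∑ i ∈ Finset.range J, C1 * (4 * C4 ^ 2 * (2 / (c1 / 4) ^ 2)) * T *
            Real.exp (-(c1 / 4 * (2 ^ i * n))) := Finset.sum_le_sum fun i _ => e2 i
      _ = C1 * (4 * C4 ^ 2 * (2 / (c1 / 4) ^ 2)) * T *
            ∑ i ∈ Finset.range J, Real.exp (-(c1 / 4 * (2 ^ i * n))) := by
          rw [Finset.mul_sum]
      _ ≤ C1 * (4 * C4 ^ 2 * (2 / (c1 / 4) ^ 2)) * T * Q := by
          apply mul_le_mul_of_nonneg_left _ (by positivity)
          refine (geo (c1 / 4) hc1' n J hn1).trans ?_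
          rw [← hQ]
          apply mul_le_of_le_one_left hQ0.le
          rw [Real.exp_le_one_iff]
          have : 0 ≤ c1 / 4 * (n : ℝ) := by positivity
          linarith
      _ = _ := by ring
  have e4 : Ph c Kc * (C1 * T * Real.exp (-(c1 * (2 ^ J * n)))) ≤
      4 * C5 ^ 2 * C1 * (2 / (c1 / 800) ^ 2) * T := by
    unfold Ph
    have h1 : Real.exp (c * (2 * C5 * L)) * Real.exp (-(c1 * (2 ^ J * n))) ≤
        Real.exp (-(c1 / 800 * L)) := by
      rw [← Real.exp_add]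
      apply Real.exp_le_exp.2
      have h2 : c * (2 * C5) * L ≤ c1 / 800 * L := mul_le_mul_of_nonneg_right hcc2 hL0.le
      have h3 : c1 * (L / 400) ≤ c1 * (2 ^ J * n) := mul_le_mul_of_nonneg_left hJ3.le hc1.le
      linarith
    have h2 := sqexp (c1 / 800) L (by positivity) hL0.le
    rw [hKc]
    calc (2 * C5 * L) ^ 2 * Real.exp (c * (2 * C5 * L)) *
          (C1 * T * Real.exp (-(c1 * (2 ^ J * n)))) =
          4 * C5 ^ 2 * C1 * T * L ^ 2 *
            (Real.exp (c * (2 * C5 * L)) * Real.exp (-(c1 * (2 ^ J * n)))) := by ring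
      _ ≤ 4 * C5 ^ 2 * C1 * T * L ^ 2 * Real.exp (-(c1 / 800 * L)) := by gcongr
      _ = 4 * C5 ^ 2 * C1 * T * (L ^ 2 * Real.exp (-(c1 / 800 * L))) := by ring
      _ ≤ 4 * C5 ^ 2 * C1 * T * (2 / (c1 / 800) ^ 2) := by gcongr
      _ = _ := by ring
  have e5 : Ph c Kc * (C3 * T ^ (1 - c3)) ≤ 4 * C5 ^ 2 * C3 * (2 / (c3 / 2) ^ 2) * T := by
    have hTc : T ^ (1 - c3) = T * Real.exp (-(c3 * L)) := by
      rw [Real.rpow_sub hT0, Real.rpow_one, Real.rpow_def_of_pos hT0, div_eq_mul_inv,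
        ← Real.exp_neg, ← hL]
      congr 3
      ring
    unfold Ph
    have h1 : Real.exp (c * (2 * C5 * L)) * Real.exp (-(c3 * L)) ≤
        Real.exp (-(c3 / 2 * L)) := by
      rw [← Real.exp_add]
      apply Real.exp_le_exp.2
      have h2 : c * (2 * C5) * L ≤ c3 / 2 * L := mul_le_mul_of_nonneg_right hcc3 hL0.le
      linarith
    have h2 := sqexp (c3 / 2) L (by positivity) hL0.le
    rw [hKc, hTc]
    calc (2 * C5 * L) ^ 2 * Real.exp (c * (2 * C5 * L)) * (C3 * (T * Real.exp (-(c3 * L)))) =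
          4 * C5 ^ 2 * C3 * T * L ^ 2 *
            (Real.exp (c * (2 * C5 * L)) * Real.exp (-(c3 * L))) := by ring
      _ ≤ 4 * C5 ^ 2 * C3 * T * L ^ 2 * Real.exp (-(c3 / 2 * L)) := by gcongr
      _ = 4 * C5 ^ 2 * C3 * T * (L ^ 2 * Real.exp (-(c3 / 2 * L))) := by ring
      _ ≤ 4 * C5 ^ 2 * C3 * T * (2 / (c3 / 2) ^ 2) := by gcongr
      _ = _ := by ring
  have hgoal : ∫⁻ t : ℝ, ENNReal.ofReal (Ph c (∑ s ∈ (Zf riemannZeta T (2 * T)).filter
      (fun s => |s.im - t| ≤ 1 / Real.log T),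
      (mult riemannZeta s : ℝ))) = ∫⁻ t, ENNReal.ofReal (Ph c (f t)) := by
    refine lintegral_congr fun t => ?_
    rw [hf, hL]
  rw [hgoal]
  refine hint.trans ?_
  have p1 : 0 ≤ Ph c (K 0) * (T + 2) := mul_nonneg (Ph_nonneg _ _) (by linarith)
  have p2 : ∀ i, 0 ≤ Ph c (K (i + 1)) * (C1 * T * Real.exp (-(c1 * (2 ^ i * n)))) := fun i =>
    mul_nonneg (Ph_nonneg _ _) (by positivity)
  have p3 : 0 ≤ Ph c Kc * (C1 * T * Real.exp (-(c1 * (2 ^ J * n)))) :=
    mul_nonneg (Ph_nonneg _ _) (by positivity)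
  have p4 : 0 ≤ Ph c Kc * (C3 * T ^ (1 - c3)) := mul_nonneg (Ph_nonneg _ _) (by positivity)
  rw [← ENNReal.ofReal_sum_of_nonneg (fun i _ => p2 i),
    ← ENNReal.ofReal_add p1 (Finset.sum_nonneg fun i _ => p2 i),
    ← ENNReal.ofReal_add p3 p4,
    ← ENNReal.ofReal_add (add_nonneg p1 (Finset.sum_nonneg fun i _ => p2 i))
      (add_nonneg p3 p4)]
  apply ENNReal.ofReal_le_ofReal
  linarith

end Pool.Agent.X113.LA
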