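import Pool.Agent.X113.LA1
import Pool.Agent.Y749.Rig.Sec

set_option autoImplicit false

/-! # Exponential moments of the local counts of zeros, all zeros up to `T` -/

open MeasureTheory Set Filter Topology
open scoped NNReal ENNReal

namespace Pool.Agent.X113.LA

open H370 (Zf mult good_zeta mem_Zf NN zset)
open Pool.Agent.Y749.Rig

lemma Ph_mono_c {c c' x : ℝ} (hc : c ≤ c') (hx : 0 ≤ x) : Ph c x ≤ Ph c' x := by
  unfold Ph
  apply mul_le_mul_of_nonneg_left _ (by positivity)
  apply Real.exp_le_exp.2
  exact mul_le_mul_of_nonneg_right hc hx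

lemma Ph_log {c C T : ℝ} (hC : 0 ≤ C) (hcC : c * C ≤ 1 / 4) (hT : 1 ≤ T) :
    Ph c (C * Real.log T) ≤ 16 * C ^ 2 * T := by
  have hT0 : 0 < T := by linarith
  have hl : 0 ≤ Real.log T := Real.log_nonneg hT
  have h1 : Real.log T ≤ 4 * T ^ (1 / 4 : ℝ) := by
    have := Real.log_le_rpow_div hT0.le (show (0 : ℝ) < 1 / 4 by norm_num)
    linarith
  have h2 : Real.exp (c * (C * Real.log T)) ≤ T ^ (1 / 4 : ℝ) := by
    rw [Real.rpow_def_of_pos hT0]
    apply Real.exp_le_exp.2
    calc c * (C * Real.log T) = c * C * Real.log T := by ring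
      _ ≤ 1 / 4 * Real.log T := mul_le_mul_of_nonneg_right hcC hl
      _ = _ := by ring
  have h3 : (Real.log T) ^ 2 ≤ 16 * T ^ (1 / 2 : ℝ) := by
    calc (Real.log T) ^ 2 ≤ (4 * T ^ (1 / 4 : ℝ)) ^ 2 := pow_le_pow_left₀ hl h1 2
      _ = 16 * T ^ (1 / 2 : ℝ) := by
          rw [mul_pow, ← Real.rpow_natCast (T ^ (1 / 4 : ℝ)), ← Real.rpow_mul hT0.le]
          norm_num
  unfold Ph
  calc (C * Real.log T) ^ 2 * Real.exp (c * (C * Real.log T)) ≤
        (C ^ 2 * (16 * T ^ (1 / 2 : ℝ))) * T ^ (1 / 4 : ℝ) := by
        rw [mul_pow]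
        gcongr
    _ = 16 * C ^ 2 * (T ^ (1 / 2 : ℝ) * T ^ (1 / 4 : ℝ)) := by ring
    _ = 16 * C ^ 2 * T ^ (3 / 4 : ℝ) := by
        rw [← Real.rpow_add hT0]; norm_num
    _ ≤ 16 * C ^ 2 * T ^ (1 : ℝ) := by
        apply mul_le_mul_of_nonneg_left _ (by positivity)
        exact Real.rpow_le_rpow_of_exponent_le hT (by norm_num)
    _ = 16 * C ^ 2 * T := by rw [Real.rpow_one]

theorem all_exp : ∃ c C T0 : ℝ, 0 < c ∧ 0 < C ∧ 10 ≤ T0 ∧ ∀ T : ℝ, T0 ≤ T →
    ∫⁻ t, ENNReal.ofReal (Ph c (fw (ZZ T) mm (Real.log T) t)) ≤ ENNReal.ofReal (C * T) := by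
  classical
  obtain ⟨c0, C1, T1, hc0, hC1, hT1, h1⟩ := blk
  obtain ⟨C2, hC2, h2⟩ := sup_fw
  obtain ⟨c, hc⟩ : ∃ c : ℝ, c = min c0 (1 / (4 * C2)) := ⟨_, rfl⟩
  have hcp : 0 < c := by rw [hc]; exact lt_min hc0 (by positivity)
  have hcc0 : c ≤ c0 := by rw [hc]; exact min_le_left _ _
  have hcC2 : c * C2 ≤ 1 / 4 := by
    have h3 : c ≤ 1 / (4 * C2) := by rw [hc]; exact min_le_right _ _
    calc c * C2 ≤ 1 / (4 * C2) * C2 := mul_le_mul_of_nonneg_right h3 hC2.le
      _ = 1 / 4 := by field_simp
  obtain ⟨K, hK⟩ : ∃ K : ℝ, K = Ph c (C2 * Real.log (2 * T1)) * (2 * T1 + 2) := ⟨_, rfl⟩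
  have hlT1 : 0 < Real.log (2 * T1) := Real.log_pos (by linarith)
  have hK0 : 0 ≤ K := by rw [hK]; exact mul_nonneg (Ph_nonneg _ _) (by linarith)
  refine ⟨c, K + C1 + 64 * C2 ^ 2, T1, hcp, by positivity, hT1, ?_⟩
  have key : ∀ n : ℕ, ∀ T : ℝ, T1 ≤ T → T ≤ 2 ^ (n + 1) * T1 →
      ∫⁻ t, ENNReal.ofReal (Ph c (fw (ZZ T) mm (Real.log T) t)) ≤
        ENNReal.ofReal ((K + C1 + 64 * C2 ^ 2) * T) := by
    intro n
    induction n with
    | zero =>
      intro T hT hT2
      rw [zero_add, pow_one] at hT2
      have hT10 : 10 ≤ T := hT1.trans hT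
      have hL := one_lt_log (show 3 ≤ T by linarith)
      have hb : ∀ t, Ph c (fw (ZZ T) mm (Real.log T) t) ≤
          (Icc (-1) (2 * T1 + 1)).indicator (fun _ => Ph c (C2 * Real.log (2 * T1))) t := by
        intro t
        by_cases ht : t ∈ Icc (-1) (2 * T1 + 1)
        · rw [indicator_of_mem ht]
          refine Ph_mono hcp.le (fw_nonneg mm_nonneg t) ((h2 T hT10 _ hL t).trans ?_)
          gcongr
        · rw [indicator_of_notMem ht]
          have : fw (ZZ T) mm (Real.log T) t = 0 := by
            unfold fw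
            apply Finset.sum_eq_zero
            intro s hs
            exfalso
            rw [Finset.mem_filter, mem_ZZ] at hs
            obtain ⟨⟨h1, h2, h3, h4, h5⟩, h6⟩ := hs
            have h7 := abs_le.1 h6
            have h8 : 1 / Real.log T ≤ 1 := by rw [div_le_one (by linarith)]; exact hL.le
            exact ht ⟨by linarith, by linarith⟩
          rw [this, Ph_zero]
      calc ∫⁻ t, ENNReal.ofReal (Ph c (fw (ZZ T) mm (Real.log T) t)) ≤
            ∫⁻ t, (Icc (-1) (2 * T1 + 1)).indicator
              (fun _ => ENNReal.ofReal (Ph c (C2 * Real.log (2 * T1)))) t := by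
            refine lintegral_mono fun t => (ENNReal.ofReal_le_ofReal (hb t)).trans (le_of_eq ?_)
            by_cases ht : t ∈ Icc (-1) (2 * T1 + 1)
            · rw [indicator_of_mem ht, indicator_of_mem ht]
            · rw [indicator_of_notMem ht, indicator_of_notMem ht, ENNReal.ofReal_zero]
        _ = ENNReal.ofReal K := by
            rw [lintegral_indicator_const measurableSet_Icc, Real.volume_Icc, hK,
              ← ENNReal.ofReal_mul (Ph_nonneg _ _)]
            congr 1; ring
        _ ≤ _ := by
            apply ENNReal.ofReal_le_ofReal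
            nlinarith [sq_nonneg C2, mul_nonneg hC1.le (show 0 ≤ T by linarith),
              mul_nonneg (sq_nonneg C2) (show 0 ≤ T by linarith)]
    | succ n ih =>
      intro T hT hT2
      rcases le_or_gt T (2 ^ (n + 1) * T1) with hTn | hTn
      · exact ih T hT hTn
      have h2n : (2 : ℝ) ≤ 2 ^ (n + 1) := by
        have : (1 : ℝ) ≤ 2 ^ n := one_le_pow₀ (by norm_num)
        rw [pow_succ]; linarith
      obtain ⟨q, hq⟩ : ∃ q : ℝ, q = T / 2 := ⟨_, rfl⟩
      have hT' : T = 2 * q := by rw [hq]; ring
      have hq1 : T1 ≤ q := by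
        rw [hq]; nlinarith
      have hq2 : q ≤ 2 ^ (n + 1) * T1 := by
        rw [hq]
        have : (2 : ℝ) ^ (n + 1 + 1) * T1 = 2 * (2 ^ (n + 1) * T1) := by rw [pow_succ]; ring
        linarith
      have hq10 : 10 ≤ q := hT1.trans hq1
      have hq0 : 0 < q := by linarith
      have hT0 : 0 < T := by linarith
      have hlq := one_lt_log (show 3 ≤ q by linarith)
      have hlT := one_lt_log (show 3 ≤ T by linarith)
      have hlqT : Real.log q ≤ Real.log T := Real.log_le_log (by linarith) (by linarith)
      have hlq1 : 1 / Real.log q ≤ 1 := by rw [div_le_one (by linarith)]; exact hlq.le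
      have e1 := ih q hq1 hq2
      have e2 := h1 q hq1
      have hf : ∀ t, fw (Zf riemannZeta q (2 * q)) mm (Real.log q) t =
          ∑ s ∈ (Zf riemannZeta q (2 * q)).filter (fun s => |s.im - t| ≤ 1 / Real.log q),
            (mult riemannZeta s : ℝ) := fun t => rfl
      have hb : ∀ t, Ph c (fw (ZZ T) mm (Real.log T) t) ≤
          Ph c (fw (ZZ q) mm (Real.log q) t) +
          Ph c0 (fw (Zf riemannZeta q (2 * q)) mm (Real.log q) t) +
          (Icc (q - 1) (q + 1)).indicator (fun _ => Ph c (C2 * Real.log T)) t := by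
        intro t
        have n1 := fw_nonneg (A := ZZ T) (L := Real.log T) mm_nonneg t
        have n2 := fw_nonneg (A := ZZ q) (L := Real.log q) mm_nonneg t
        have n3 := fw_nonneg (A := Zf riemannZeta q (2 * q)) (L := Real.log q) mm_nonneg t
        have p1 := Ph_nonneg c (fw (ZZ q) mm (Real.log q) t)
        have p2 := Ph_nonneg c0 (fw (Zf riemannZeta q (2 * q)) mm (Real.log q) t)
        have p3 : 0 ≤ (Icc (q - 1) (q + 1)).indicator (fun _ => Ph c (C2 * Real.log T)) t :=
          indicator_nonneg (fun _ _ => Ph_nonneg _ _) _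
        by_cases ht : t ∈ Icc (q - 1) (q + 1)
        · rw [indicator_of_mem ht]
          have := Ph_mono hcp.le n1 (h2 T (by linarith) _ hlT t)
          linarith
        have e3 := fw_L (A := ZZ T) mm_nonneg (by linarith) hlqT t
        have e4 : fw (ZZ T) mm (Real.log q) t = fw (ZZ q) mm (Real.log q) t +
            fw (Zf riemannZeta q (2 * q)) mm (Real.log q) t := by
          unfold fw
          rw [← Finset.sum_union]
          · rw [← Finset.filter_union, ZZ_split (q := q) (T := T) (by linarith) (by linarith), hT']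
          · exact Finset.disjoint_filter_filter (ZZ_disj (by linarith))
        rw [e4] at e3
        rcases lt_or_ge t (q - 1) with h | h
        · have z : fw (Zf riemannZeta q (2 * q)) mm (Real.log q) t = 0 := by
            unfold fw
            apply Finset.sum_eq_zero
            intro s hs
            exfalso
            rw [Finset.mem_filter, mem_Zf good_zeta (by linarith)] at hs
            obtain ⟨⟨g1, g2, g3, g4, g5⟩, g6⟩ := hs
            have g7 := abs_le.1 g6
            linarith
          rw [z, add_zero] at e3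
          have := Ph_mono hcp.le n1 e3
          linarith
        · have h' : q + 1 < t := by
            by_contra hcon
            exact ht ⟨h, not_lt.1 hcon⟩
          have z : fw (ZZ q) mm (Real.log q) t = 0 := by
            unfold fw
            apply Finset.sum_eq_zero
            intro s hs
            exfalso
            rw [Finset.mem_filter, mem_ZZ] at hs
            obtain ⟨⟨g1, g2, g3, g4, g5⟩, g6⟩ := hs
            have g7 := abs_le.1 g6
            linarith
          rw [z, zero_add] at e3
          have h5 := Ph_mono hcp.le n1 e3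
          have h6 := Ph_mono_c hcc0 n3
          linarith
      have hPl := Ph_log (c := c) (T := T) hC2.le hcC2 (by linarith)
      calc ∫⁻ t, ENNReal.ofReal (Ph c (fw (ZZ T) mm (Real.log T) t)) ≤
            ∫⁻ t, ((ENNReal.ofReal (Ph c (fw (ZZ q) mm (Real.log q) t)) +
            ENNReal.ofReal (Ph c0 (fw (Zf riemannZeta q (2 * q)) mm (Real.log q) t))) +
            (Icc (q - 1) (q + 1)).indicator
              (fun _ => ENNReal.ofReal (Ph c (C2 * Real.log T))) t) := by
            refine lintegral_mono fun t => (ENNReal.ofReal_le_ofReal (hb t)).trans (le_of_eq ?_)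
            have p3 : 0 ≤ (Icc (q - 1) (q + 1)).indicator (fun _ => Ph c (C2 * Real.log T)) t :=
              indicator_nonneg (fun _ _ => Ph_nonneg _ _) _
            rw [ENNReal.ofReal_add (add_nonneg (Ph_nonneg _ _) (Ph_nonneg _ _)) p3,
              ENNReal.ofReal_add (Ph_nonneg _ _) (Ph_nonneg _ _)]
            congr 1
            by_cases ht : t ∈ Icc (q - 1) (q + 1)
            · rw [indicator_of_mem ht, indicator_of_mem ht]
            · rw [indicator_of_notMem ht, indicator_of_notMem ht, ENNReal.ofReal_zero]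
        _ = (∫⁻ t, ENNReal.ofReal (Ph c (fw (ZZ q) mm (Real.log q) t))) +
            (∫⁻ t, ENNReal.ofReal (Ph c0 (fw (Zf riemannZeta q (2 * q)) mm (Real.log q) t))) +
            ENNReal.ofReal (Ph c (C2 * Real.log T) * 2) := by
            have hPm : ∀ k : ℝ, Measurable (Ph k) := by
              intro k
              unfold Ph
              fun_prop
            have m1 : Measurable fun t => ENNReal.ofReal (Ph c (fw (ZZ q) mm (Real.log q) t)) :=
              ((hPm c).comp fw_meas).ennreal_ofReal
            have m2 : Measurable fun t =>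
                ENNReal.ofReal (Ph c0 (fw (Zf riemannZeta q (2 * q)) mm (Real.log q) t)) :=
              ((hPm c0).comp fw_meas).ennreal_ofReal
            have m12 : Measurable fun t => ENNReal.ofReal (Ph c (fw (ZZ q) mm (Real.log q) t)) +
                ENNReal.ofReal (Ph c0 (fw (Zf riemannZeta q (2 * q)) mm (Real.log q) t)) :=
              m1.add m2
            rw [lintegral_add_left m12, lintegral_add_left m1,
              lintegral_indicator_const measurableSet_Icc, Real.volume_Icc,
              ENNReal.ofReal_mul (Ph_nonneg _ _)]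
            congr 3
            ring
        _ ≤ ENNReal.ofReal ((K + C1 + 64 * C2 ^ 2) * q) + ENNReal.ofReal (C1 * q) +
            ENNReal.ofReal (16 * C2 ^ 2 * T * 2) := by
            refine add_le_add (add_le_add e1 ?_) ?_
            · simp_rw [hf]
              exact e2
            · exact ENNReal.ofReal_le_ofReal (mul_le_mul_of_nonneg_right hPl (by norm_num))
        _ = ENNReal.ofReal ((K + C1 + 64 * C2 ^ 2) * q + C1 * q + 16 * C2 ^ 2 * T * 2) := by
            rw [← ENNReal.ofReal_add (by positivity) (by positivity),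
              ← ENNReal.ofReal_add (by positivity) (by positivity)]
        _ ≤ _ := by
            apply ENNReal.ofReal_le_ofReal
            rw [hT']
            have : 0 ≤ K * q := by positivity
            nlinarith
  intro T hT
  obtain ⟨n, hn⟩ := pow_unbounded_of_one_lt (T / T1) (show (1 : ℝ) < 2 by norm_num)
  refine key n T hT ?_
  have hT10 : 0 < T1 := by linarith
  rw [div_lt_iff₀ hT10] at hn
  have : (2 : ℝ) ^ (n + 1) * T1 = 2 * (2 ^ n * T1) := by rw [pow_succ]; ring
  have : 0 < (2 : ℝ) ^ n * T1 := by positivity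
  linarith

end Pool.Agent.X113.LA
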