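import Pool.Agent.X113.UF3
import Pool.Agent.W54.TCF.NT

set_option autoImplicit false

/-! # Upper bounds for the means of the form factor, without RH: the statement -/

open MeasureTheory Set Filter Topology
open Complex (I)

namespace Pool.Agent.X113.UF

open Pool.Agent.Y744.G (zeros mult X Montgomery)
open Pool.Agent.Y749.Rig
open Pool.Agent.Y749.Rig.P (F MeanUpper up_iff mean_eq min_eq)

/-- all zeros with multiplicity -/
noncomputable def NA (T : ℝ) : ℝ := ∑ s ∈ ZZ T, mm s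

theorem simple_prop {l : Filter ℝ} (hl : l ≤ atTop) {R : ℝ} (hR : 1 ≤ R) (hup : MeanUp l R)
    {ε : ℝ} (hε : 0 < ε) : ∀ᶠ T in l, (1 - 1 / (3 * R ^ 2) - ε) * NA T ≤ (SC T).ncard := by
  obtain ⟨T0, hT0, h⟩ := Pool.Agent.W54.TCF.NT_asymp' (min (ε / 8) (1 / 4))
    (lt_min (by positivity) (by norm_num))
  filter_upwards [diag_up smallTest hl hR hup (show 0 < ε / 8 by positivity),
    hl (eventually_ge_atTop T0), hl (eventually_ge_atTop 10)] with T h1 h2 hT
  have h3 := diag_count hT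
  obtain ⟨h4, h5⟩ := h T h2
  have hn := nT_pos hT
  have e0 : T / (2 * Real.pi) * Real.log T = nT T := by unfold nT; ring
  have e1 : (H370.NN riemannZeta 0 T : ℝ) = NA T := by
    unfold NA
    rw [ZZ_eq, ← Pool.Agent.Y744.sum_Zt]
    rfl
  rw [e0, e1] at h4 h5
  obtain ⟨η, hη⟩ : ∃ η : ℝ, η = min (ε / 8) (1 / 4) := ⟨_, rfl⟩
  rw [← hη] at h4 h5
  have hη1 : η ≤ ε / 8 := by rw [hη]; exact min_le_left _ _
  have hη2 : η ≤ 1 / 4 := by rw [hη]; exact min_le_right _ _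
  have hη0 : 0 < η := by rw [hη]; exact lt_min (by positivity) (by norm_num)
  have hNA : 0 ≤ NA T := Finset.sum_nonneg fun s _ => mm_nonneg s
  -- nT ≤ (1 + 2η) NA
  have h6 : nT T ≤ (1 + 2 * η) * NA T := by
    have : nT T ≤ (1 + 2 * η) * ((1 - η) * nT T) := by
      have : 1 ≤ (1 + 2 * η) * (1 - η) := by nlinarith
      nlinarith
    exact this.trans (mul_le_mul_of_nonneg_left h4 (by linarith))
  have hR2 : 1 / (3 * R ^ 2) ≤ 1 / 3 := by
    apply div_le_div_of_nonneg_left (by norm_num) (by norm_num)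
    nlinarith
  have hR3 : 0 ≤ 1 / (3 * R ^ 2) := by positivity
  obtain ⟨r, hr⟩ : ∃ r : ℝ, r = 1 / (3 * R ^ 2) := ⟨_, rfl⟩
  rw [← hr] at h1 hR2 hR3 ⊢
  have h7 : (Mp T).real {0} * nT T ≤ (1 + r + ε / 8) * ((1 + 2 * η) * NA T) :=
    mul_le_mul h1 h6 hn.le (by linarith)
  have h3' : 2 * NA T - (SC T).ncard ≤ (Mp T).real {0} * nT T := h3
  rcases le_total ε 1 with hε1 | hε1
  · have h8 : (1 + r + ε / 8) * (1 + 2 * η) ≤ 1 + r + ε := by nlinarith
    have h9 : (1 + r + ε / 8) * ((1 + 2 * η) * NA T) ≤ (1 + r + ε) * NA T := by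
      rw [← mul_assoc]
      exact mul_le_mul_of_nonneg_right h8 hNA
    linarith
  · have h8 : (1 - r - ε) * NA T ≤ 0 := by
      apply mul_nonpos_of_nonpos_of_nonneg _ hNA
      linarith
    exact h8.trans (Nat.cast_nonneg _)

theorem main (l : Filter ℝ) (hl : l ≤ atTop) :
    (Montgomery l ↔ ∀ R : ℝ, MeanUpper l R) ∧
    (∀ R : ℝ, 1 ≤ R → MeanUpper l R →
      (∀ a b : ℝ, 0 < a → a < b → b < R → ∀ ε : ℝ, 0 < ε →
        ∀ᶠ T in l, (∫ α in a..b, min α 1) - 1 / (6 * (R - b)) - ε ≤ ∫ α in a..b, (F T α).re) ∧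
      ∀ ε : ℝ, 0 < ε → ∀ᶠ T in l, (1 - 1 / (3 * R ^ 2) - ε) * NA T ≤ (SC T).ncard) := by
  constructor
  · rw [Pool.Agent.Y744.G.Mont_iff hl]
    constructor
    · intro h R
      rw [up_iff hl]
      exact up_weak hl (weak_win hl h) R
    · intro h α β hαβ
      have h1 : ∀ R : ℝ, MeanUp l R := fun R => (up_iff hl R).1 (h R)
      exact Pool.Agent.Y744.Nr_all hl (Aa_lim hl (weak_mean' smallTest hl
        (mean_lim' smallTest hl h1))) hαβ
  · intro R hR h
    refine ⟨fun a b ha hab hb ε hε => ?_, fun ε hε => simple_prop hl hR ((up_iff hl R).1 h) hε⟩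
    filter_upwards [quant' smallTest hl hR ((up_iff hl R).1 h) ha hab hb hε,
      hl (eventually_ge_atTop 10)] with T h1 h2
    rw [mean_eq h2, min_eq ha hab]
    exact h1

end Pool.Agent.X113.UF
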