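import Pool.Agent.X113.LA3
import Pool.Agent.X113.UF4

set_option autoImplicit false

/-! # Long averages of the form factor and isolated zeros: the two inequalities -/

open MeasureTheory Set Filter Topology

namespace Pool.Agent.X113.LA

open Pool.Agent.Y749.Rig
open Pool.Agent.X113.UF (mm_one NA)

/-- the average of the form factor around `b` -/
noncomputable def Ab (T b R : ℝ) : ℝ := ∫ α, tr R (α - b) * Fr T α

open scoped Classical in
/-- the zeros which are multiple, or off the line, or not isolated at the scale `ε / log T` -/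
noncomputable def Bd (T ε : ℝ) : Finset ℂ :=
  (ZZ T).filter fun s => s.re ≠ 1 / 2 ∨ 2 ≤ analyticOrderNatAt riemannZeta s ∨
    ∃ s' ∈ ZZ T, s' ≠ s ∧ |s'.im - s.im| ≤ ε / Real.log T

/-- their number, with multiplicity -/
noncomputable def nb (T ε : ℝ) : ℝ := ∑ s ∈ Bd T ε, mm s

lemma nb_nonneg (T ε : ℝ) : 0 ≤ nb T ε := Finset.sum_nonneg fun s _ => mm_nonneg s

lemma Bd_sub (T ε : ℝ) : Bd T ε ⊆ ZZ T := Finset.filter_subset _ _

lemma nb_le (T ε : ℝ) : nb T ε ≤ NA T :=
  Finset.sum_le_sum_of_subset_of_nonneg (Bd_sub T ε) fun s _ _ => mm_nonneg s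

lemma nb_mono {T ε ε' : ℝ} (hT : 10 ≤ T) (h : ε ≤ ε') : nb T ε ≤ nb T ε' := by
  classical
  have hL := one_lt_log (show 3 ≤ T by linarith)
  refine Finset.sum_le_sum_of_subset_of_nonneg ?_ fun s _ _ => mm_nonneg s
  intro s hs
  unfold Bd at hs ⊢
  rw [Finset.mem_filter] at hs ⊢
  refine ⟨hs.1, ?_⟩
  rcases hs.2 with h1 | h1 | ⟨s', h1, h2, h3⟩
  · exact Or.inl h1
  · exact Or.inr (Or.inl h1)
  · exact Or.inr (Or.inr ⟨s', h1, h2, h3.trans (by gcongr)⟩)

/-- the transform of a translated tent -/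
lemma fl_shift {R : ℝ} (hR : 0 < R) (b x : ℝ) :
    fl (fun α => tr R (α - b)) x = Real.cos (2 * Real.pi * b * x) * fl (tr R) x := by
  unfold fl
  have e1 : ∫ α : ℝ, tr R (α - b) * Real.cos (2 * Real.pi * α * x) =
      ∫ α : ℝ, tr R α * Real.cos (2 * Real.pi * (α + b) * x) := by
    have := integral_sub_right_eq_self
      (fun α : ℝ => tr R α * Real.cos (2 * Real.pi * (α + b) * x)) b (μ := volume)
    rw [← this]
    refine integral_congr_ae (ae_of_all _ fun α => ?_)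
    simp only [sub_add_cancel]
  have i1 : Integrable fun α : ℝ => tr R α * Real.cos (2 * Real.pi * α * x) := by
    refine (tr_int hR).mul_bdd (c := 1) (by fun_prop) (ae_of_all _ fun α => ?_)
    rw [Real.norm_eq_abs]; exact Real.abs_cos_le_one _
  have i2 : Integrable fun α : ℝ => tr R α * Real.sin (2 * Real.pi * α * x) := by
    refine (tr_int hR).mul_bdd (c := 1) (by fun_prop) (ae_of_all _ fun α => ?_)
    rw [Real.norm_eq_abs]; exact Real.abs_sin_le_one _
  have e2 : ∀ α : ℝ, tr R α * Real.cos (2 * Real.pi * (α + b) * x) =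
      Real.cos (2 * Real.pi * b * x) * (tr R α * Real.cos (2 * Real.pi * α * x)) -
      Real.sin (2 * Real.pi * b * x) * (tr R α * Real.sin (2 * Real.pi * α * x)) := by
    intro α
    rw [show 2 * Real.pi * (α + b) * x = 2 * Real.pi * α * x + 2 * Real.pi * b * x by ring,
      Real.cos_add]
    ring
  have e3 : ∫ α : ℝ, tr R α * Real.sin (2 * Real.pi * α * x) = 0 := by
    apply int_zero_of_odd
    intro α
    rw [tr_even, show 2 * Real.pi * -α * x = -(2 * Real.pi * α * x) by ring, Real.sin_neg]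
    ring
  rw [e1]
  simp_rw [e2]
  rw [integral_sub (i1.const_mul _) (i2.const_mul _), integral_const_mul, integral_const_mul, e3]
  ring

/-- the kernel -/
noncomputable def ph (T b R : ℝ) (s s' : ℂ) : ℝ :=
  Real.cos (2 * Real.pi * b * ((s.im - s'.im) * Real.log T / (2 * Real.pi))) *
    fl (tr R) ((s.im - s'.im) * Real.log T / (2 * Real.pi)) *
    ww (2 * Real.pi * ((s.im - s'.im) * Real.log T / (2 * Real.pi)) / Real.log T)

lemma Ab_eq {T R : ℝ} (hT : 10 ≤ T) (hR : 0 < R) (b : ℝ) :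
    Ab T b R * nT T = ∑ s ∈ ZZ T, ∑ s' ∈ ZZ T, mm s * mm s' * ph T b R s s' := by
  have hn := nT_pos hT
  unfold Ab
  have hi : Integrable fun α : ℝ => tr R (α - b) := (tr_int hR).comp_sub_right b
  rw [Fr_pair hi, Mp_integral hT (fun x => fl (fun α => tr R (α - b)) x *
    ww (2 * Real.pi * x / Real.log T)), div_mul_cancel₀ _ hn.ne']
  unfold RR
  refine Finset.sum_congr rfl fun s _ => Finset.sum_congr rfl fun s' _ => ?_
  show mm s * mm s' * (fl (fun α => tr R (α - b)) ((s.im - s'.im) * Real.log T / (2 * Real.pi)) *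
    ww (2 * Real.pi * ((s.im - s'.im) * Real.log T / (2 * Real.pi)) / Real.log T)) = _
  rw [fl_shift hR]
  rfl

lemma sinc_le (y : ℝ) : (Real.sin y / y) ^ 2 ≤ 1 / y ^ 2 := by
  rw [div_pow]
  apply div_le_div_of_nonneg_right _ (sq_nonneg y)
  exact Real.sin_sq_le_one y

lemma sinc_le_one {y : ℝ} (hy : y ≠ 0) : (Real.sin y / y) ^ 2 ≤ 1 := by
  rw [div_pow, div_le_one (by positivity)]
  have h1 : |Real.sin y| ≤ |y| := Real.abs_sin_le_abs
  have h2 := pow_le_pow_left₀ (abs_nonneg _) h1 2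
  rwa [sq_abs, sq_abs] at h2

lemma sinc_ge {y : ℝ} (hy : y ≠ 0) (h1 : |y| ≤ 1 / 2) : 529 / 576 ≤ (Real.sin y / y) ^ 2 := by
  have key : ∀ z : ℝ, 0 < z → z ≤ 1 / 2 → 529 / 576 ≤ (Real.sin z / z) ^ 2 := by
    intro z hz hz2
    have h2 := Real.sin_gt_sub_cube hz
    have h3 : 23 / 24 ≤ Real.sin z / z := by
      rw [le_div_iff₀ hz]
      have h4 : z ^ 3 = z * z ^ 2 := by ring
      have h5 : z ^ 2 ≤ 1 / 4 := by nlinarith
      nlinarith [mul_le_mul_of_nonneg_left h5 hz.le]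
    nlinarith
  rcases lt_or_gt_of_ne hy with h | h
  · have h2 := key (-y) (by linarith) (by rw [abs_of_neg h] at h1; exact h1)
    rwa [Real.sin_neg, neg_div_neg_eq] at h2
  · exact key y h (by rw [abs_of_pos h] at h1; exact h1)

lemma fl_le {R : ℝ} (hR : 1 ≤ R) (x : ℝ) : fl (tr R) x ≤ 2 * (1 / (1 + x ^ 2)) := by
  have hR0 : 0 < R := by linarith
  have hpi := Real.pi_gt_three
  rcases eq_or_ne x 0 with h | h
  · rw [h, fl_tr_zero hR0]; norm_num
  · rw [fl_tr hR0 h]
    have hy : Real.pi * R * x ≠ 0 := by positivity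
    rcases le_or_gt (x ^ 2) 1 with h1 | h1
    · refine (sinc_le_one hy).trans ?_
      rw [mul_one_div, le_div_iff₀ (by positivity)]
      linarith
    · refine (sinc_le _).trans ?_
      rw [mul_one_div, div_le_div_iff₀ (by positivity) (by positivity)]
      have h2 : 1 ≤ (Real.pi * R) ^ 2 := by
        have : 1 ≤ Real.pi * R := by nlinarith
        nlinarith
      have h3 : (Real.pi * R * x) ^ 2 = (Real.pi * R) ^ 2 * x ^ 2 := by ring
      rw [h3]
      nlinarith [sq_nonneg x]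

lemma fl_far {R ε x : ℝ} (hR : 1 ≤ R) (hε : 0 < ε) (hε1 : ε ≤ 1)
    (hx : ε / (2 * Real.pi) ≤ |x|) :
    fl (tr R) x ≤ 5 / (R * ε) ^ 2 * (1 / (1 + x ^ 2)) := by
  have hR0 : 0 < R := by linarith
  have hpi := Real.pi_gt_three
  have hx0 : x ≠ 0 := by
    intro h
    rw [h, abs_zero] at hx
    have : 0 < ε / (2 * Real.pi) := by positivity
    linarith
  have hx2 : (ε / (2 * Real.pi)) ^ 2 ≤ x ^ 2 := by
    have := pow_le_pow_left₀ (by positivity) hx 2
    rwa [sq_abs] at this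
  rw [fl_tr hR0 hx0]
  have hy : Real.pi * R * x ≠ 0 := by positivity
  refine (sinc_le _).trans ?_
  have hx2p : 0 < x ^ 2 := by positivity
  rw [div_mul_div_comm, mul_one, div_le_div_iff₀ (by positivity) (by positivity), one_mul]
  rw [div_pow, div_le_iff₀ (by positivity)] at hx2
  -- R² ε² (1 + x²) ≤ 5 π² R² x²
  have h4 : ε ^ 2 ≤ 1 := by nlinarith
  have h5 : 1 ≤ Real.pi ^ 2 := by nlinarith
  have h6 : ε ^ 2 * (1 + x ^ 2) ≤ 5 * (Real.pi ^ 2 * x ^ 2) := by
    have e1 : x ^ 2 * (2 * Real.pi) ^ 2 = 4 * (Real.pi ^ 2 * x ^ 2) := by ring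
    rw [e1] at hx2
    have e2 : ε ^ 2 * x ^ 2 ≤ Real.pi ^ 2 * x ^ 2 :=
      mul_le_mul_of_nonneg_right (h4.trans h5) hx2p.le
    nlinarith
  calc (R * ε) ^ 2 * (1 + x ^ 2) = R ^ 2 * (ε ^ 2 * (1 + x ^ 2)) := by ring
    _ ≤ R ^ 2 * (5 * (Real.pi ^ 2 * x ^ 2)) := mul_le_mul_of_nonneg_left h6 (by positivity)
    _ = 5 * (Real.pi * R * x) ^ 2 := by ring

lemma ph_abs {T R : ℝ} (hR : 0 < R) (b : ℝ) (s s' : ℂ) :
    |ph T b R s s'| ≤ fl (tr R) ((s.im - s'.im) * Real.log T / (2 * Real.pi)) := by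
  unfold ph
  have h0 := fl_tr_nonneg hR ((s.im - s'.im) * Real.log T / (2 * Real.pi))
  rw [abs_mul, abs_mul, abs_of_nonneg h0, abs_of_pos (ww_pos _)]
  have h1 := Real.abs_cos_le_one (2 * Real.pi * b * ((s.im - s'.im) * Real.log T / (2 * Real.pi)))
  have h2 := ww_le (2 * Real.pi * ((s.im - s'.im) * Real.log T / (2 * Real.pi)) / Real.log T)
  have h3 := ww_pos (2 * Real.pi * ((s.im - s'.im) * Real.log T / (2 * Real.pi)) / Real.log T)
  calc _ ≤ 1 * fl (tr R) ((s.im - s'.im) * Real.log T / (2 * Real.pi)) * 1 := by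
        apply mul_le_mul _ h2 h3.le (by linarith)
        exact mul_le_mul_of_nonneg_right h1 h0
    _ = _ := by ring

lemma ph_self {T R : ℝ} (hR : 0 < R) (b : ℝ) (s : ℂ) : ph T b R s s = 1 := by
  unfold ph
  simp [fl_tr_zero hR, ww_zero]

end Pool.Agent.X113.LA
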