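import Pool.Agent.X113.LA4

set_option autoImplicit false

/-! # Long averages of the form factor and isolated zeros: the two inequalities -/

open MeasureTheory Set Filter Topology

namespace Pool.Agent.X113.LA

open Pool.Agent.Y749.Rig
open Pool.Agent.X113.UF (mm_one NA)

lemma ph_nonneg {T R : ℝ} (hR : 0 < R) (s s' : ℂ) : 0 ≤ ph T 0 R s s' := by
  unfold ph
  have e : 2 * Real.pi * 0 * ((s.im - s'.im) * Real.log T / (2 * Real.pi)) = 0 := by ring
  rw [e, Real.cos_zero, one_mul]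
  exact mul_nonneg (fl_tr_nonneg hR _) (ww_pos _).le

lemma ph_near {T R : ℝ} (hT : 100 ≤ T) (hR : 1 ≤ R) {s s' : ℂ}
    (h : |s'.im - s.im| ≤ 1 / R / Real.log T) : 9 / 10 ≤ ph T 0 R s s' := by
  have hR0 : 0 < R := by linarith
  have hpi := Real.pi_pos
  have hL4 : 4 ≤ Real.log T := by
    rw [Real.le_log_iff_exp_le (by linarith)]
    refine le_trans ?_ hT
    have h1 := Real.exp_one_lt_d9
    have h2 : Real.exp 4 = Real.exp 1 ^ 4 := by rw [← Real.exp_nat_mul]; norm_num
    rw [h2]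
    calc Real.exp 1 ^ 4 ≤ (2.7182818286 : ℝ) ^ 4 :=
          pow_le_pow_left₀ (Real.exp_pos _).le h1.le 4
      _ ≤ 100 := by norm_num
  have hL0 : 0 < Real.log T := by linarith
  obtain ⟨d, hd⟩ : ∃ d : ℝ, d = s.im - s'.im := ⟨_, rfl⟩
  have hd1 : |d| ≤ 1 / R / Real.log T := by rw [hd, abs_sub_comm]; exact h
  have hd2 : |d| * Real.log T * R ≤ 1 := by
    rw [div_div, le_div_iff₀ (by positivity)] at hd1
    linarith
  unfold ph
  rw [← hd]
  have e : 2 * Real.pi * 0 * (d * Real.log T / (2 * Real.pi)) = 0 := by ring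
  rw [e, Real.cos_zero, one_mul]
  have e2 : 2 * Real.pi * (d * Real.log T / (2 * Real.pi)) / Real.log T = d := by field_simp
  rw [e2]
  have hdL : |d| * Real.log T ≤ 1 := by
    have h3 : 0 ≤ |d| * Real.log T := by positivity
    nlinarith
  have hd3 : |d| ≤ 1 / 4 := by
    have h3 := abs_nonneg d
    nlinarith
  have hw : 63 / 64 ≤ ww d := by
    unfold ww
    rw [div_le_div_iff₀ (by norm_num) (by positivity)]
    have h4 : d ^ 2 ≤ 1 / 16 := by
      rw [← sq_abs]
      nlinarith [abs_nonneg d]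
    nlinarith
  have hf : 529 / 576 ≤ fl (tr R) (d * Real.log T / (2 * Real.pi)) := by
    rcases eq_or_ne d 0 with h0 | h0
    · rw [h0, zero_mul, zero_div, fl_tr_zero hR0]; norm_num
    · have hx0 : d * Real.log T / (2 * Real.pi) ≠ 0 := by positivity
      rw [fl_tr hR0 hx0]
      apply sinc_ge (by positivity)
      have e3 : Real.pi * R * (d * Real.log T / (2 * Real.pi)) = d * Real.log T * R / 2 := by
        field_simp
      rw [e3, abs_div, abs_mul, abs_mul, abs_of_pos hL0, abs_of_pos hR0,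
        abs_of_pos (show (0 : ℝ) < 2 by norm_num)]
      linarith
  have h5 : 0 ≤ fl (tr R) (d * Real.log T / (2 * Real.pi)) := by linarith
  calc (9 / 10 : ℝ) ≤ 529 / 576 * (63 / 64) := by norm_num
    _ ≤ _ := mul_le_mul hf hw (by norm_num) h5

/-- the reflected zero -/
lemma partner {T : ℝ} {s : ℂ} (hs : s ∈ ZZ T) (hre : s.re ≠ 1 / 2) :
    ∃ s' ∈ ZZ T, s' ≠ s ∧ s'.im = s.im ∧ s'.re ≠ 1 / 2 := by
  have hszs := mem_ZZ.1 hs
  have him := zs_im_pos hszs
  have hz : s ∈ Pool.Agent.Y21.FW.zeros 0 T :=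
    ⟨hszs.1, hszs.2.1, hszs.2.2.1, him, by rw [zero_add]; exact hszs.2.2.2.2⟩
  have hz' := Pool.Agent.Y21.FW.zeros_symm le_rfl hz
  obtain ⟨s', hs'⟩ : ∃ s' : ℂ, s' = 1 - (starRingEnd ℂ) s := ⟨_, rfl⟩
  rw [← hs'] at hz'
  have him' : s'.im = s.im := by rw [hs']; simp
  have hre' : s'.re = 1 - s.re := by rw [hs']; simp
  refine ⟨s', mem_ZZ.2 ⟨hz'.1, hz'.2.1, hz'.2.2.1, hz'.2.2.2.1.le, by
      have := hz'.2.2.2.2
      rwa [zero_add] at this⟩, fun h => ?_, him', fun h => ?_⟩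
  · apply hre
    have h1 := congrArg Complex.re h
    rw [hre'] at h1
    linarith
  · apply hre
    rw [hre'] at h
    linarith

theorem low {T R : ℝ} (hT : 100 ≤ T) (hR : 1 ≤ R) :
    NA T + 9 / 10 * nb T (1 / R) ≤ Ab T 0 R * nT T := by
  classical
  have hR0 : 0 < R := by linarith
  have hL := one_lt_log (show 3 ≤ T by linarith)
  have hL0 : 0 < Real.log T := by linarith
  rw [Ab_eq (by linarith) hR0]
  have e : nb T (1 / R) = ∑ s ∈ ZZ T, if s ∈ Bd T (1 / R) then mm s else 0 := by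
    unfold nb
    rw [← Finset.sum_filter]
    congr 1
    ext s
    rw [Finset.mem_filter]
    exact ⟨fun h => ⟨Bd_sub _ _ h, h⟩, fun h => h.2⟩
  rw [e]
  unfold NA
  rw [Finset.mul_sum, ← Finset.sum_add_distrib]
  refine Finset.sum_le_sum fun s hs => ?_
  have hs1 := mm_one hs
  have hnn : ∀ s' ∈ ZZ T, 0 ≤ mm s * mm s' * ph T 0 R s s' := fun s' _ =>
    mul_nonneg (mul_nonneg (mm_nonneg _) (mm_nonneg _)) (ph_nonneg hR0 _ _)
  have hss : mm s * mm s * ph T 0 R s s = mm s * mm s := by rw [ph_self hR0, mul_one]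
  by_cases hb : s ∈ Bd T (1 / R)
  · rw [if_pos hb]
    -- two zeros
    have two : ∀ s' ∈ ZZ T, s' ≠ s → |s'.im - s.im| ≤ 1 / R / Real.log T →
        mm s + 9 / 10 * mm s ≤ ∑ s' ∈ ZZ T, mm s * mm s' * ph T 0 R s s' := by
      intro s' hs' hne hd
      have hs1' := mm_one hs'
      have hp := ph_near hT hR hd
      have hsub : ({s, s'} : Finset ℂ) ⊆ ZZ T := by
        intro x hx
        rw [Finset.mem_insert, Finset.mem_singleton] at hx
        rcases hx with rfl | rfl
        · exact hs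
        · exact hs'
      refine le_trans ?_ (Finset.sum_le_sum_of_subset_of_nonneg hsub fun x hx _ => hnn x hx)
      rw [Finset.sum_pair (Ne.symm hne), hss]
      have h1 : mm s ≤ mm s * mm s := by nlinarith
      have h2 : mm s * (9 / 10) ≤ mm s * mm s' * ph T 0 R s s' := by
        rw [mul_assoc]
        apply mul_le_mul_of_nonneg_left _ (by linarith)
        nlinarith
      linarith
    unfold Bd at hb
    rw [Finset.mem_filter] at hb
    rcases hb.2 with h1 | h1 | ⟨s', h1, h2, h3⟩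
    · obtain ⟨s', h2, h3, h4, -⟩ := partner hs h1
      refine two s' h2 h3 ?_
      rw [h4, sub_self, abs_zero]
      positivity
    · have h2 : (2 : ℝ) ≤ mm s := by
        show (2 : ℝ) ≤ ((analyticOrderNatAt riemannZeta s : ℕ) : ℝ)
        exact_mod_cast h1
      refine le_trans ?_ (Finset.single_le_sum hnn hs)
      rw [hss]
      nlinarith
    · exact two s' h1 h2 h3
  · rw [if_neg hb, mul_zero, add_zero]
    refine le_trans ?_ (Finset.single_le_sum hnn hs)
    rw [hss]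
    nlinarith

theorem up : ∃ C T0 : ℝ, 0 < C ∧ 10 ≤ T0 ∧ ∀ T : ℝ, T0 ≤ T → ∀ R : ℝ, 1 ≤ R → ∀ ε : ℝ, 0 < ε →
    ε ≤ 1 → ∀ b : ℝ, ∀ η : ℝ, 0 < η → η ≤ 1 → nb T ε ≤ 2 * η * nT T →
    |Ab T b R * nT T - NA T| ≤ C * (η * (1 - Real.log η) + 1 / (R * ε) ^ 2) * nT T := by
  classical
  obtain ⟨C1, T1, hC1, hT1, h1⟩ := pairB
  obtain ⟨C2, T2, hC2, hT2, h2⟩ := sm_all
  have hW := W0_nonneg
  have hpi := Real.pi_pos
  refine ⟨2 * C1 + 2 + 5 * (W0 * (2 * Real.pi * C2)), max T1 T2, by positivity,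
    hT1.trans (le_max_left _ _), ?_⟩
  intro T hT R hR ε hε hε1 b η hη hη1 hnb
  have hTa : T1 ≤ T := (le_max_left _ _).trans hT
  have hTb : T2 ≤ T := (le_max_right _ _).trans hT
  have hT10 : 10 ≤ T := hT1.trans hTa
  have hL := one_lt_log (show 3 ≤ T by linarith)
  have hLp : 0 < Real.log T := by linarith
  have hTp : 0 < T := by linarith
  have hR0 : 0 < R := by linarith
  have hn := nT_pos hT10
  have hlη : Real.log η ≤ 0 := Real.log_nonpos hη.le hη1
  rw [Ab_eq hT10 hR0]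
  -- the kernel
  obtain ⟨k, hk⟩ : ∃ k : ℂ → ℂ → ℝ, ∀ s s', k s s' =
      1 / (1 + ((s.im - s'.im) * Real.log T / (2 * Real.pi)) ^ 2) := ⟨_, fun s s' => rfl⟩
  have hk0 : ∀ s s', 0 ≤ k s s' := fun s s' => by rw [hk]; positivity
  -- the difference
  obtain ⟨q, hq⟩ : ∃ q : ℝ, q = 5 / (R * ε) ^ 2 := ⟨_, rfl⟩
  have hq0 : 0 < q := by rw [hq]; positivity
  have key : ∀ s ∈ ZZ T, |(∑ s' ∈ ZZ T, mm s * mm s' * ph T b R s s') - mm s| ≤
      q * (∑ s' ∈ ZZ T, mm s * mm s' * k s s') +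
      (if s ∈ Bd T ε then 2 * (∑ s' ∈ ZZ T, mm s * mm s' * k s s') + mm s else 0) := by
    intro s hs
    have hs1 := mm_one hs
    have hnn : 0 ≤ ∑ s' ∈ ZZ T, mm s * mm s' * k s s' := Finset.sum_nonneg fun s' _ =>
      mul_nonneg (mul_nonneg (mm_nonneg _) (mm_nonneg _)) (hk0 _ _)
    by_cases hb : s ∈ Bd T ε
    · rw [if_pos hb]
      have e1 : |∑ s' ∈ ZZ T, mm s * mm s' * ph T b R s s'| ≤
          2 * (∑ s' ∈ ZZ T, mm s * mm s' * k s s') := by
        refine (Finset.abs_sum_le_sum_abs _ _).trans ?_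
        rw [Finset.mul_sum]
        refine Finset.sum_le_sum fun s' _ => ?_
        rw [abs_mul, abs_of_nonneg (mul_nonneg (mm_nonneg _) (mm_nonneg _))]
        calc mm s * mm s' * |ph T b R s s'| ≤ mm s * mm s' * (2 * k s s') := by
              apply mul_le_mul_of_nonneg_left _ (mul_nonneg (mm_nonneg _) (mm_nonneg _))
              rw [hk]
              exact (ph_abs hR0 b s s').trans (fl_le hR _)
          _ = _ := by ring
      have e2 := abs_sub (∑ s' ∈ ZZ T, mm s * mm s' * ph T b R s s') (mm s)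
      rw [abs_of_nonneg (mm_nonneg s)] at e2
      have e3 : 0 ≤ q * (∑ s' ∈ ZZ T, mm s * mm s' * k s s') := mul_nonneg hq0.le hnn
      linarith
    · rw [if_neg hb, add_zero]
      have hb' : ¬ (s.re ≠ 1 / 2 ∨ 2 ≤ analyticOrderNatAt riemannZeta s ∨
          ∃ s' ∈ ZZ T, s' ≠ s ∧ |s'.im - s.im| ≤ ε / Real.log T) := by
        intro h
        apply hb
        unfold Bd
        rw [Finset.mem_filter]
        exact ⟨hs, h⟩
      push Not at hb'
      obtain ⟨hb1, hb2, hb3⟩ := hb'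
      have hm : mm s = 1 := by
        have h3 : (1 : ℝ) ≤ ((analyticOrderNatAt riemannZeta s : ℕ) : ℝ) := hs1
        have h4 : 1 ≤ analyticOrderNatAt riemannZeta s := by exact_mod_cast h3
        have h5 : analyticOrderNatAt riemannZeta s = 1 := by omega
        show ((analyticOrderNatAt riemannZeta s : ℕ) : ℝ) = 1
        rw [h5]; norm_num
      have e1 : (∑ s' ∈ ZZ T, mm s * mm s' * ph T b R s s') - mm s =
          ∑ s' ∈ (ZZ T).erase s, mm s * mm s' * ph T b R s s' := by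
        rw [← Finset.add_sum_erase _ _ hs, ph_self hR0, hm]
        ring
      rw [e1]
      refine (Finset.abs_sum_le_sum_abs _ _).trans ?_
      calc ∑ s' ∈ (ZZ T).erase s, |mm s * mm s' * ph T b R s s'| ≤
            ∑ s' ∈ (ZZ T).erase s, q * (mm s * mm s' * k s s') := by
            refine Finset.sum_le_sum fun s' hs' => ?_
            rw [Finset.mem_erase] at hs'
            rw [abs_mul, abs_of_nonneg (mul_nonneg (mm_nonneg _) (mm_nonneg _))]
            calc mm s * mm s' * |ph T b R s s'| ≤ mm s * mm s' * (q * k s s') := by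
                  apply mul_le_mul_of_nonneg_left _ (mul_nonneg (mm_nonneg _) (mm_nonneg _))
                  rw [hk, hq]
                  refine (ph_abs hR0 b s s').trans (fl_far hR hε hε1 ?_)
                  have h6 := hb3 s' hs'.2 hs'.1
                  rw [abs_div, abs_mul, abs_of_pos hLp, abs_of_pos (show 0 < 2 * Real.pi by
                    positivity)]
                  apply div_le_div_of_nonneg_right _ (by positivity)
                  rw [div_lt_iff₀ hLp, abs_sub_comm] at h6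
                  exact h6.le
              _ = _ := by ring
        _ = q * ∑ s' ∈ (ZZ T).erase s, mm s * mm s' * k s s' := by rw [Finset.mul_sum]
        _ ≤ _ := by
            apply mul_le_mul_of_nonneg_left _ hq0.le
            exact Finset.sum_le_sum_of_subset_of_nonneg (Finset.erase_subset _ _) fun s' _ _ =>
              mul_nonneg (mul_nonneg (mm_nonneg _) (mm_nonneg _)) (hk0 _ _)
  -- the sum over all pairs
  have hall : ∑ s ∈ ZZ T, ∑ s' ∈ ZZ T, mm s * mm s' * k s s' ≤ W0 * (2 * Real.pi * C2) * nT T := by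
    have h3 := est_all (A := ZZ T) (B := ZZ T) (a := mm) (b := mm) hLp (Y₁ := C2 * T)
      (Y₂ := C2 * T) (by positivity) (by positivity) mm_nonneg mm_nonneg (h2 T hTb) (h2 T hTb)
    rw [mul_assoc (Real.log T), Real.mul_self_sqrt (by positivity)] at h3
    simp_rw [hk]
    refine h3.trans (le_of_eq ?_)
    unfold nT
    field_simp
  have hbad : ∑ s ∈ Bd T ε, ∑ s' ∈ ZZ T, mm s * mm s' * k s s' ≤
      C1 * (η * (1 - Real.log η)) * nT T := by
    simp_rw [hk]
    exact h1 T hTa (Bd T ε) (Bd_sub T ε) η hη hη1 hnb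
  have hsum : (∑ s ∈ ZZ T, ∑ s' ∈ ZZ T, mm s * mm s' * ph T b R s s') - NA T =
      ∑ s ∈ ZZ T, ((∑ s' ∈ ZZ T, mm s * mm s' * ph T b R s s') - mm s) := by
    unfold NA
    rw [Finset.sum_sub_distrib]
  rw [hsum]
  refine (Finset.abs_sum_le_sum_abs _ _).trans ((Finset.sum_le_sum key).trans ?_)
  rw [Finset.sum_add_distrib, ← Finset.mul_sum]
  have e5 : ∑ s ∈ ZZ T, (if s ∈ Bd T ε then
      2 * (∑ s' ∈ ZZ T, mm s * mm s' * k s s') + mm s else 0) =
      2 * (∑ s ∈ Bd T ε, ∑ s' ∈ ZZ T, mm s * mm s' * k s s') + nb T ε := by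
    rw [← Finset.sum_filter]
    have e6 : (ZZ T).filter (fun s => s ∈ Bd T ε) = Bd T ε := by
      ext s
      rw [Finset.mem_filter]
      exact ⟨fun h => h.2, fun h => ⟨Bd_sub _ _ h, h⟩⟩
    rw [e6, Finset.sum_add_distrib, ← Finset.mul_sum]
    rfl
  rw [e5]
  have hh : η ≤ η * (1 - Real.log η) := by nlinarith
  have hfin : nb T ε ≤ 2 * (η * (1 - Real.log η)) * nT T := by
    refine hnb.trans ?_
    apply mul_le_mul_of_nonneg_right _ hn.le
    linarith
  have hq2 : q * (∑ s ∈ ZZ T, ∑ s' ∈ ZZ T, mm s * mm s' * k s s') ≤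
      q * (W0 * (2 * Real.pi * C2) * nT T) := mul_le_mul_of_nonneg_left hall hq0.le
  have hfin2 : q * (W0 * (2 * Real.pi * C2) * nT T) =
      5 * (W0 * (2 * Real.pi * C2)) * (1 / (R * ε) ^ 2) * nT T := by rw [hq]; ring
  have a1 : 0 ≤ η * (1 - Real.log η) * nT T := by
    apply mul_nonneg (mul_nonneg hη.le (by linarith)) hn.le
  have a2 : 0 ≤ 1 / (R * ε) ^ 2 * nT T := by positivity
  have a3 : 0 ≤ W0 * (2 * Real.pi * C2) := by positivity
  have b1 : 0 ≤ 5 * (W0 * (2 * Real.pi * C2)) * (η * (1 - Real.log η) * nT T) := by positivity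
  have b2 : 0 ≤ (2 * C1 + 2) * (1 / (R * ε) ^ 2 * nT T) := by positivity
  nlinarith

end Pool.Agent.X113.LA
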