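import Pool.Agent.X113.LA5

set_option autoImplicit false

/-! # Long averages of the form factor and isolated zeros: equivalences -/

open MeasureTheory Set Filter Topology

namespace Pool.Agent.X113.LA

open Pool.Agent.Y749.Rig
open Pool.Agent.X113.UF (mm_one NA)

/-- the number of zeros -/
theorem NA_near : ∃ C T0 : ℝ, 0 < C ∧ 10 ≤ T0 ∧ ∀ T : ℝ, T0 ≤ T →
    |NA T - nT T| ≤ C / Real.log T * nT T ∧ nT T ≤ 2 * NA T ∧ NA T ≤ 2 * nT T := by
  obtain ⟨C, T0, hC, hT0, h⟩ := Pool.Agent.W54.TCF.NT_asymp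
  obtain ⟨T1, hT1, h1⟩ := Pool.Agent.W54.TCF.NT_asymp' (1 / 2) (by norm_num)
  have hpi := Real.pi_pos
  refine ⟨2 * Real.pi * C, max T0 T1, by positivity, hT0.trans (le_max_left _ _),
    fun T hT => ?_⟩
  have hTa : T0 ≤ T := (le_max_left _ _).trans hT
  have hTb : T1 ≤ T := (le_max_right _ _).trans hT
  have hT10 : 10 ≤ T := hT0.trans hTa
  have hL := one_lt_log (show 3 ≤ T by linarith)
  have hn := nT_pos hT10
  have e1 : (H370.NN riemannZeta 0 T : ℝ) = NA T := by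
    unfold NA
    rw [ZZ_eq, ← Pool.Agent.Y744.sum_Zt]
    rfl
  have e0 : T / (2 * Real.pi) * Real.log T = nT T := by unfold nT; ring
  have h2 := h T hTa
  obtain ⟨h3, h4⟩ := h1 T hTb
  rw [e1] at h2 h3 h4
  rw [e0] at h3 h4
  refine ⟨?_, by linarith, by linarith⟩
  have e2 : 2 * Real.pi * C / Real.log T * nT T = C * T := by unfold nT; field_simp
  rw [e2]
  exact h2

/-- the upper bound with a free parameter -/
theorem up2 : ∃ C T0 : ℝ, 0 < C ∧ 10 ≤ T0 ∧ ∀ T : ℝ, T0 ≤ T → ∀ R : ℝ, 1 ≤ R → ∀ ε : ℝ, 0 < ε →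
    ε ≤ 1 → ∀ b : ℝ, ∀ η : ℝ, 0 < η → η ≤ 1 → nb T ε ≤ η * NA T →
    |Ab T b R - 1| ≤ C * (η * (1 - Real.log η) + 1 / (R * ε) ^ 2 + 1 / Real.log T) := by
  obtain ⟨C, T0, hC, hT0, h⟩ := up
  obtain ⟨C', T1, hC', hT1, h'⟩ := NA_near
  refine ⟨C + C', max T0 T1, by positivity, hT0.trans (le_max_left _ _), ?_⟩
  intro T hT R hR ε hε hε1 b η hη hη1 hnb
  have hTa : T0 ≤ T := (le_max_left _ _).trans hT
  have hTb : T1 ≤ T := (le_max_right _ _).trans hT
  have hT10 : 10 ≤ T := hT0.trans hTa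
  have hL := one_lt_log (show 3 ≤ T by linarith)
  have hL0 : 0 < Real.log T := by linarith
  have hn := nT_pos hT10
  have hR0 : 0 < R := by linarith
  obtain ⟨g1, g2, g3⟩ := h' T hTb
  have h2 := h T hTa R hR ε hε hε1 b η hη hη1 (by
    refine hnb.trans ?_
    calc η * NA T ≤ η * (2 * nT T) := mul_le_mul_of_nonneg_left g3 hη.le
      _ = _ := by ring)
  have hlη : Real.log η ≤ 0 := Real.log_nonpos hη.le hη1
  have h3 : |(Ab T b R - 1) * nT T| ≤
      (C * (η * (1 - Real.log η) + 1 / (R * ε) ^ 2) + C' / Real.log T) * nT T := by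
    have e : (Ab T b R - 1) * nT T = (Ab T b R * nT T - NA T) + (NA T - nT T) := by ring
    rw [e, add_mul]
    exact (abs_add_le _ _).trans (add_le_add h2 g1)
  rw [abs_mul, abs_of_pos hn] at h3
  have h4 := le_of_mul_le_mul_right h3 hn
  refine h4.trans ?_
  have a1 : 0 ≤ η * (1 - Real.log η) := mul_nonneg hη.le (by linarith)
  have a2 : 0 ≤ 1 / (R * ε) ^ 2 := by positivity
  have a3 : 0 ≤ 1 / Real.log T := by positivity
  have e2 : C' / Real.log T = C' * (1 / Real.log T) := by ring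
  rw [e2]
  nlinarith [mul_nonneg hC'.le a1, mul_nonneg hC'.le a2, mul_nonneg hC.le a3]

/-- the upper bound with the proportion of the bad zeros -/
theorem up3 : ∃ C T0 : ℝ, 0 < C ∧ 10 ≤ T0 ∧ ∀ T : ℝ, T0 ≤ T → ∀ R : ℝ, 1 ≤ R → ∀ ε : ℝ, 0 < ε →
    ε ≤ 1 → ∀ b : ℝ,
    |Ab T b R - 1| ≤ C * (nb T ε / NA T * (1 - Real.log (nb T ε / NA T)) + 1 / (R * ε) ^ 2 +
      1 / Real.log T) := by
  obtain ⟨C, T0, hC, hT0, h⟩ := up2
  obtain ⟨C', T1, hC', hT1, h'⟩ := NA_near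
  refine ⟨C, max T0 T1, hC, hT0.trans (le_max_left _ _), ?_⟩
  intro T hT R hR ε hε hε1 b
  have hTa : T0 ≤ T := (le_max_left _ _).trans hT
  have hTb : T1 ≤ T := (le_max_right _ _).trans hT
  have hT10 : 10 ≤ T := hT0.trans hTa
  have hn := nT_pos hT10
  obtain ⟨g1, g2, g3⟩ := h' T hTb
  have hNA : 0 < NA T := by linarith
  have hle := nb_le T ε
  rcases (nb_nonneg T ε).eq_or_lt with h0 | h0
  · rw [← h0, zero_div, zero_mul, zero_add]
    have h1 : ∀ᶠ η in 𝓝[>] (0 : ℝ), |Ab T b R - 1| ≤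
        C * ((η - η * Real.log η) + 1 / (R * ε) ^ 2 + 1 / Real.log T) := by
      filter_upwards [Ioo_mem_nhdsGT (show (0 : ℝ) < 1 by norm_num)] with η hη
      have h2 := h T hTa R hR ε hε hε1 b η hη.1 hη.2.le (by
        rw [← h0]; exact mul_nonneg hη.1.le hNA.le)
      rwa [show η * (1 - Real.log η) = η - η * Real.log η by ring] at h2
    have h3 : Tendsto (fun η : ℝ => C * ((η - η * Real.log η) + 1 / (R * ε) ^ 2 +
        1 / Real.log T)) (𝓝[>] 0) (𝓝 (C * ((0 - 0 * Real.log 0) + 1 / (R * ε) ^ 2 +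
        1 / Real.log T))) := by
      have h4 : Continuous fun η : ℝ => C * ((η - η * Real.log η) + 1 / (R * ε) ^ 2 +
          1 / Real.log T) := by
        have := Real.continuous_mul_log
        fun_prop
      exact (h4.tendsto 0).mono_left nhdsWithin_le_nhds
    have h5 := ge_of_tendsto h3 h1
    simpa using h5
  · exact h T hTa R hR ε hε hε1 b (nb T ε / NA T) (by positivity) (by rwa [div_le_one hNA])
      (le_of_eq (by field_simp))

/-- the lower bound -/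
theorem low2 : ∃ C T0 : ℝ, 0 < C ∧ 10 ≤ T0 ∧ ∀ T : ℝ, T0 ≤ T → ∀ R : ℝ, 1 ≤ R →
    nb T (1 / R) / NA T ≤ 10 / 9 * (Ab T 0 R - 1) + C / Real.log T := by
  obtain ⟨C, T0, hC, hT0, h⟩ := up2
  obtain ⟨C', T1, hC', hT1, h'⟩ := NA_near
  refine ⟨10 / 9 * (2 * C' * (1 + 3 * C)), max 100 (max T0 T1), by positivity,
    le_trans (by norm_num) (le_max_left _ _), ?_⟩
  intro T hT R hR
  have hT100 : 100 ≤ T := (le_max_left _ _).trans hT
  have hTa : T0 ≤ T := ((le_max_left _ _).trans (le_max_right _ _)).trans hT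
  have hTb : T1 ≤ T := ((le_max_right _ _).trans (le_max_right _ _)).trans hT
  have hT10 : 10 ≤ T := hT0.trans hTa
  have hL := one_lt_log (show 3 ≤ T by linarith)
  have hL0 : 0 < Real.log T := by linarith
  have hn := nT_pos hT10
  have hR0 : 0 < R := by linarith
  obtain ⟨g1, g2, g3⟩ := h' T hTb
  have hNA : 0 < NA T := by linarith
  have hlow := low hT100 hR
  -- the average is bounded
  have hb := h T hTa R hR 1 one_pos le_rfl 0 1 one_pos le_rfl (by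
    rw [one_mul]; exact nb_le T 1)
  rw [Real.log_one, sub_zero, mul_one, mul_one] at hb
  have hR2 : 1 / R ^ 2 ≤ 1 := by
    rw [div_le_one (by positivity)]; nlinarith
  have hL2 : 1 / Real.log T ≤ 1 := by rw [div_le_one hL0]; exact hL.le
  have hAb : Ab T 0 R ≤ 1 + 3 * C := by
    have h1 := (abs_le.1 hb).2
    have h2 : C * (1 + 1 / R ^ 2 + 1 / Real.log T) ≤ C * 3 :=
      mul_le_mul_of_nonneg_left (by linarith) hC.le
    linarith
  have hAb0 : 0 ≤ Ab T 0 R := by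
    have h1 : 0 ≤ Ab T 0 R * nT T := le_trans (add_nonneg hNA.le
      (mul_nonneg (by norm_num) (nb_nonneg _ _))) hlow
    exact nonneg_of_mul_nonneg_left h1 hn
  have h5 : nT T ≤ NA T + 2 * C' / Real.log T * NA T := by
    have h6 := (abs_le.1 g1).1
    have h7 : C' / Real.log T * nT T ≤ C' / Real.log T * (2 * NA T) :=
      mul_le_mul_of_nonneg_left g2 (by positivity)
    have h8 : C' / Real.log T * (2 * NA T) = 2 * C' / Real.log T * NA T := by ring
    linarith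
  have h9 : Ab T 0 R * nT T ≤ (Ab T 0 R + 2 * C' * (1 + 3 * C) / Real.log T) * NA T := by
    calc Ab T 0 R * nT T ≤ Ab T 0 R * (NA T + 2 * C' / Real.log T * NA T) :=
          mul_le_mul_of_nonneg_left h5 hAb0
      _ = Ab T 0 R * NA T + Ab T 0 R * (2 * C' / Real.log T * NA T) := by ring
      _ ≤ Ab T 0 R * NA T + (1 + 3 * C) * (2 * C' / Real.log T * NA T) := by
          gcongr
      _ = _ := by ring
  have h10 : NA T + 9 / 10 * nb T (1 / R) ≤ (Ab T 0 R + 2 * C' * (1 + 3 * C) / Real.log T) * NA T :=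
    hlow.trans h9
  rw [div_le_iff₀ hNA]
  have e : (10 / 9 * (Ab T 0 R - 1) + 10 / 9 * (2 * C' * (1 + 3 * C)) / Real.log T) * NA T =
      10 / 9 * ((Ab T 0 R + 2 * C' * (1 + 3 * C) / Real.log T) * NA T - NA T) := by ring
  rw [e]
  linarith

/-! ### Equivalences along a filter -/

variable {l : Filter ℝ}

/-- almost all zeros are simple, on the line and isolated -/
def Iso (l : Filter ℝ) : Prop := ∀ δ : ℝ, 0 < δ → ∃ ε : ℝ, 0 < ε ∧ ∀ᶠ T in l, nb T ε ≤ δ * NA T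

lemma small_h {C δ : ℝ} (hC : 0 < C) (hδ : 0 < δ) : ∃ η : ℝ, 0 < η ∧ η ≤ 1 ∧ η ≤ δ ∧
    C * (η * (1 - Real.log η)) ≤ δ := by
  have h4 : Continuous fun η : ℝ => C * (η - η * Real.log η) := by
    have := Real.continuous_mul_log
    fun_prop
  have h5 : Tendsto (fun η : ℝ => C * (η - η * Real.log η)) (𝓝[>] 0) (𝓝 0) := by
    have := (h4.tendsto 0).mono_left (nhdsWithin_le_nhds (s := Ioi (0 : ℝ)))
    simpa using this
  have h6 : ∀ᶠ η in 𝓝[>] (0 : ℝ), C * (η - η * Real.log η) < δ := h5.eventually_lt_const hδ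
  have h7 : ∀ᶠ η in 𝓝[>] (0 : ℝ), η ∈ Ioo 0 (min 1 δ) := Ioo_mem_nhdsGT (lt_min one_pos hδ)
  obtain ⟨η, h8, h9⟩ := (h6.and h7).exists
  refine ⟨η, h9.1, h9.2.le.trans (min_le_left _ _), h9.2.le.trans (min_le_right _ _), ?_⟩
  rw [show η * (1 - Real.log η) = η - η * Real.log η by ring]
  exact h8.le

lemma ev_log {C δ : ℝ} (hl : l ≤ atTop) (hδ : 0 < δ) : ∀ᶠ T in l, C * (1 / Real.log T) ≤ δ := by
  have h1 : Tendsto (fun T : ℝ => C * (1 / Real.log T)) atTop (𝓝 (C * 0)) := by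
    apply Tendsto.const_mul
    simp_rw [one_div]
    exact tendsto_inv_atTop_zero.comp Real.tendsto_log_atTop
  rw [mul_zero] at h1
  exact hl ((h1.eventually_lt_const hδ).mono fun T hT => hT.le)

theorem iso_uni (hl : l ≤ atTop) (h : Iso l) {δ : ℝ} (hδ : 0 < δ) :
    ∃ R0 : ℝ, 1 ≤ R0 ∧ ∀ᶠ T in l, ∀ R : ℝ, R0 ≤ R → ∀ b : ℝ, |Ab T b R - 1| ≤ δ := by
  obtain ⟨C, T0, hC, hT0, hu⟩ := up2
  obtain ⟨η, h1, h2, -, h3⟩ := small_h hC (show 0 < δ / 3 by positivity)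
  obtain ⟨ε0, h4, h5⟩ := h η h1
  obtain ⟨ε, hε⟩ : ∃ ε : ℝ, ε = min ε0 1 := ⟨_, rfl⟩
  have hε0 : 0 < ε := by rw [hε]; exact lt_min h4 one_pos
  have hε1 : ε ≤ 1 := by rw [hε]; exact min_le_right _ _
  have hε2 : ε ≤ ε0 := by rw [hε]; exact min_le_left _ _
  -- the radius
  obtain ⟨R0, hR0, hR1, hR2⟩ : ∃ R0 : ℝ, 1 ≤ R0 ∧ 0 < R0 ∧ C * (1 / (R0 * ε) ^ 2) ≤ δ / 3 := by
    refine ⟨max 1 ((3 * C / δ + 1) / ε), le_max_left _ _, lt_of_lt_of_le one_pos (le_max_left _ _), ?_⟩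
    have h6 : 3 * C / δ + 1 ≤ max 1 ((3 * C / δ + 1) / ε) * ε := by
      rw [← div_le_iff₀ hε0]
      exact le_max_right _ _
    obtain ⟨y, hy⟩ : ∃ y : ℝ, y = max 1 ((3 * C / δ + 1) / ε) * ε := ⟨_, rfl⟩
    rw [← hy] at h6 ⊢
    have h7 : 0 < 3 * C / δ := by positivity
    have h8 : 3 * C / δ ≤ y ^ 2 := by nlinarith
    have h9 : 0 < y ^ 2 := by nlinarith
    rw [mul_one_div, div_le_iff₀ h9]
    rw [div_le_iff₀ hδ] at h8
    linarith
  refine ⟨R0, hR0, ?_⟩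
  filter_upwards [h5, hl (eventually_ge_atTop T0), hl (eventually_ge_atTop 10),
    ev_log (C := C) hl (show 0 < δ / 3 by positivity)] with T g1 g2 g3 g4
  intro R hR b
  have h6 := hu T g2 R (hR0.trans hR) ε hε0 hε1 b η h1 h2 ((nb_mono g3 hε2).trans g1)
  refine h6.trans ?_
  have h7 : C * (1 / (R * ε) ^ 2) ≤ C * (1 / (R0 * ε) ^ 2) := by gcongr
  rw [mul_add, mul_add]
  linarith

theorem one_iso (hl : l ≤ atTop) (h : ∀ δ : ℝ, 0 < δ → ∃ R : ℝ, 1 ≤ R ∧
    ∀ᶠ T in l, Ab T 0 R ≤ 1 + δ) : Iso l := by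
  obtain ⟨C, T0, hC, hT0, hu⟩ := low2
  obtain ⟨C', T1, hC', hT1, h'⟩ := NA_near
  intro δ hδ
  obtain ⟨R, hR, h1⟩ := h (δ / 3) (by positivity)
  refine ⟨1 / R, by positivity, ?_⟩
  filter_upwards [h1, hl (eventually_ge_atTop T0), hl (eventually_ge_atTop T1),
    ev_log (C := C) hl (show 0 < δ / 3 by positivity)] with T g1 g2 g3 g4
  have hn := nT_pos (hT0.trans g2)
  have hNA : 0 < NA T := by linarith [(h' T g3).2.1]
  have h2 := hu T g2 R hR
  rw [← div_le_iff₀ hNA]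
  rw [mul_one_div] at g4
  linarith

/-! ### The other order of the limits -/

open scoped Classical in
/-- the zeros which are multiple or off the line -/
noncomputable def Md (T : ℝ) : Finset ℂ :=
  (ZZ T).filter fun s => s.re ≠ 1 / 2 ∨ 2 ≤ analyticOrderNatAt riemannZeta s

/-- their number, with multiplicity -/
noncomputable def nm (T : ℝ) : ℝ := ∑ s ∈ Md T, mm s

lemma nm_nonneg (T : ℝ) : 0 ≤ nm T := Finset.sum_nonneg fun s _ => mm_nonneg s

lemma nm_le (T ε : ℝ) : nm T ≤ nb T ε := by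
  classical
  refine Finset.sum_le_sum_of_subset_of_nonneg ?_ fun s _ _ => mm_nonneg s
  intro s hs
  unfold Md at hs
  unfold Bd
  rw [Finset.mem_filter] at hs ⊢
  refine ⟨hs.1, ?_⟩
  rcases hs.2 with h | h
  · exact Or.inl h
  · exact Or.inr (Or.inl h)

/-- for small `ε` only multiple zeros and zeros off the line matter -/
theorem nb_small {T : ℝ} (hT : 10 ≤ T) : ∃ ε : ℝ, 0 < ε ∧ ε ≤ 1 ∧ nb T ε ≤ 2 * nm T := by
  classical
  have hL := one_lt_log (show 3 ≤ T by linarith)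
  have hL0 : 0 < Real.log T := by linarith
  -- the smallest distance
  obtain ⟨D, hD⟩ : ∃ D : Finset ℝ, D = ((ZZ T ×ˢ ZZ T).image fun p => |p.2.im - p.1.im|).filter
      (fun d => 0 < d) := ⟨_, rfl⟩
  obtain ⟨ε, hε0, hε1, hεD⟩ : ∃ ε : ℝ, 0 < ε ∧ ε ≤ 1 ∧ ∀ d ∈ D, ε / Real.log T < d := by
    rcases D.eq_empty_or_nonempty with h | h
    · exact ⟨1, one_pos, le_rfl, by intro d hd; rw [h] at hd; simp at hd⟩
    · obtain ⟨d, hd, hmin⟩ := D.exists_min_image id h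
      have hd0 : 0 < d := by
        rw [hD, Finset.mem_filter] at hd; exact hd.2
      refine ⟨min 1 (d * Real.log T / 2), lt_min one_pos (by positivity), min_le_left _ _, ?_⟩
      intro e he
      have h1 := hmin e he
      simp only [id] at h1
      refine lt_of_lt_of_le ?_ h1
      rw [div_lt_iff₀ hL0]
      have h2 : min 1 (d * Real.log T / 2) ≤ d * Real.log T / 2 := min_le_right _ _
      have h3 : 0 < d * Real.log T := by positivity
      linarith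
  refine ⟨ε, hε0, hε1, ?_⟩
  -- the zeros which share their ordinate
  obtain ⟨Sh, hSh⟩ : ∃ Sh : Finset ℂ, Sh = Bd T ε \ Md T := ⟨_, rfl⟩
  have hMB : Md T ⊆ Bd T ε := by
    intro s hs
    unfold Md at hs
    unfold Bd
    rw [Finset.mem_filter] at hs ⊢
    refine ⟨hs.1, ?_⟩
    rcases hs.2 with h | h
    · exact Or.inl h
    · exact Or.inr (Or.inl h)
  have hsplit : nb T ε = (∑ s ∈ Sh, mm s) + nm T := by
    unfold nb nm
    rw [hSh, Finset.sum_sdiff hMB]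
  have hprop : ∀ s ∈ Sh, s.re = 1 / 2 ∧ mm s = 1 ∧ ∃ s' ∈ ZZ T, s'.re ≠ 1 / 2 ∧ s'.im = s.im := by
    intro s hs
    rw [hSh, Finset.mem_sdiff] at hs
    obtain ⟨hs1, hs2⟩ := hs
    unfold Bd at hs1
    unfold Md at hs2
    rw [Finset.mem_filter] at hs1 hs2
    obtain ⟨hsZ, hs3⟩ := hs1
    have hs4 : ¬ (s.re ≠ 1 / 2 ∨ 2 ≤ analyticOrderNatAt riemannZeta s) := fun h => hs2 ⟨hsZ, h⟩
    push Not at hs4
    obtain ⟨g1, g2⟩ := hs4
    have h3 : (1 : ℝ) ≤ ((analyticOrderNatAt riemannZeta s : ℕ) : ℝ) := mm_one hsZ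
    have h4 : 1 ≤ analyticOrderNatAt riemannZeta s := by exact_mod_cast h3
    have h5 : analyticOrderNatAt riemannZeta s = 1 := by omega
    have hm : mm s = 1 := by
      show ((analyticOrderNatAt riemannZeta s : ℕ) : ℝ) = 1
      rw [h5]; norm_num
    refine ⟨g1, hm, ?_⟩
    rcases hs3 with h | h | ⟨s', h6, h7, h8⟩
    · exact absurd g1 h
    · omega
    · have h9 : s'.im = s.im := by
        by_contra hne
        have h10 : 0 < |s'.im - s.im| := abs_pos.2 (sub_ne_zero.2 hne)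
        have h11 : |s'.im - s.im| ∈ D := by
          rw [hD, Finset.mem_filter]
          refine ⟨Finset.mem_image.2 ⟨(s, s'), Finset.mem_product.2 ⟨hsZ, h6⟩, rfl⟩, h10⟩
        exact absurd h8 (not_le.2 (hεD _ h11))
      refine ⟨s', h6, fun h => h7 ?_, h9⟩
      exact Complex.ext (by rw [h, g1]) h9
  have hcount : ∑ s ∈ Sh, mm s ≤ nm T := by
    have h1 : ∀ s : ℂ, ∃ s' : ℂ, s ∈ Sh → s' ∈ Md T ∧ s'.im = s.im := by
      intro s
      by_cases hs : s ∈ Sh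
      · obtain ⟨-, -, s', h2, h3, h4⟩ := hprop s hs
        refine ⟨s', fun _ => ⟨?_, h4⟩⟩
        unfold Md
        rw [Finset.mem_filter]
        exact ⟨h2, Or.inl h3⟩
      · exact ⟨0, fun h => absurd h hs⟩
    choose f hf using h1
    have hinj : Set.InjOn f Sh := by
      intro s hs t ht hst
      have h2 := (hf s hs).2
      have h3 := (hf t ht).2
      rw [hst] at h2
      refine Complex.ext ?_ (h2.symm.trans h3)
      rw [(hprop s hs).1, (hprop t ht).1]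
    calc ∑ s ∈ Sh, mm s = ∑ s ∈ Sh, (1 : ℝ) := Finset.sum_congr rfl fun s hs => (hprop s hs).2.1
      _ ≤ ∑ s ∈ Sh, mm (f s) := by
          refine Finset.sum_le_sum fun s hs => ?_
          have := (hf s hs).1
          unfold Md at this
          exact mm_one (Finset.mem_filter.1 this).1
      _ = ∑ s ∈ Sh.image f, mm s := (Finset.sum_image hinj).symm
      _ ≤ nm T := by
          refine Finset.sum_le_sum_of_subset_of_nonneg ?_ fun s _ _ => mm_nonneg s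
          intro s hs
          obtain ⟨t, ht, rfl⟩ := Finset.mem_image.1 hs
          exact (hf t ht).1
  rw [hsplit]
  linarith

theorem sc_uni (hl : l ≤ atTop) (h : ∀ δ : ℝ, 0 < δ → ∀ᶠ T in l, nm T ≤ δ * NA T) {δ : ℝ}
    (hδ : 0 < δ) : ∀ᶠ T in l, ∃ R0 : ℝ, 1 ≤ R0 ∧ ∀ R : ℝ, R0 ≤ R → ∀ b : ℝ,
      |Ab T b R - 1| ≤ δ := by
  obtain ⟨C, T0, hC, hT0, hu⟩ := up2
  obtain ⟨η, h1, h2, -, h3⟩ := small_h hC (show 0 < δ / 3 by positivity)
  filter_upwards [h (η / 2) (by positivity), hl (eventually_ge_atTop T0),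
    hl (eventually_ge_atTop 10), ev_log (C := C) hl (show 0 < δ / 3 by positivity)]
    with T g1 g2 g3 g4
  obtain ⟨ε, hε0, hε1, hε2⟩ := nb_small g3
  obtain ⟨R0, hR0, hR1, hR2⟩ : ∃ R0 : ℝ, 1 ≤ R0 ∧ 0 < R0 ∧ C * (1 / (R0 * ε) ^ 2) ≤ δ / 3 := by
    refine ⟨max 1 ((3 * C / δ + 1) / ε), le_max_left _ _, lt_of_lt_of_le one_pos (le_max_left _ _), ?_⟩
    have h6 : 3 * C / δ + 1 ≤ max 1 ((3 * C / δ + 1) / ε) * ε := by
      rw [← div_le_iff₀ hε0]
      exact le_max_right _ _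
    obtain ⟨y, hy⟩ : ∃ y : ℝ, y = max 1 ((3 * C / δ + 1) / ε) * ε := ⟨_, rfl⟩
    rw [← hy] at h6 ⊢
    have h7 : 0 < 3 * C / δ := by positivity
    have h8 : 3 * C / δ ≤ y ^ 2 := by nlinarith
    have h9 : 0 < y ^ 2 := by nlinarith
    rw [mul_one_div, div_le_iff₀ h9]
    rw [div_le_iff₀ hδ] at h8
    linarith
  refine ⟨R0, hR0, fun R hR b => ?_⟩
  have h6 := hu T g2 R (hR0.trans hR) ε hε0 hε1 b η h1 h2 (by linarith)
  refine h6.trans ?_
  have h7 : C * (1 / (R * ε) ^ 2) ≤ C * (1 / (R0 * ε) ^ 2) := by gcongr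
  rw [mul_add, mul_add]
  linarith

theorem one_sc (hl : l ≤ atTop) (h : ∀ δ : ℝ, 0 < δ → ∀ᶠ T in l, ∃ R : ℝ, 1 ≤ R ∧
    Ab T 0 R ≤ 1 + δ) {δ : ℝ} (hδ : 0 < δ) : ∀ᶠ T in l, nm T ≤ δ * NA T := by
  obtain ⟨C, T0, hC, hT0, hu⟩ := low2
  obtain ⟨C', T1, hC', hT1, h'⟩ := NA_near
  filter_upwards [h (δ / 3) (by positivity), hl (eventually_ge_atTop T0),
    hl (eventually_ge_atTop T1), ev_log (C := C) hl (show 0 < δ / 3 by positivity)]
    with T g1 g2 g3 g4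
  obtain ⟨R, hR, g5⟩ := g1
  have hn := nT_pos (hT0.trans g2)
  have hNA : 0 < NA T := by linarith [(h' T g3).2.1]
  have h2 := hu T g2 R hR
  have h3 : nb T (1 / R) ≤ δ * NA T := by
    rw [← div_le_iff₀ hNA]
    rw [mul_one_div] at g4
    linarith
  exact (nm_le T _).trans h3

end Pool.Agent.X113.LA
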