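import Mathlib

set_option autoImplicit false

/-! # Mean values of absolutely convergent exponential series -/

open Filter Topology MeasureTheory Set

namespace Pool.Agent.X113.LI

/-- the mean of a complex function over `[0, V]` -/
noncomputable def mc (f : ℝ → ℂ) (V : ℝ) : ℂ := (∫ v in (0:ℝ)..V, f v) / V

/-- the character `e^{iωv}` -/
noncomputable def ch (ω v : ℝ) : ℂ := Complex.exp (((ω * v : ℝ) : ℂ) * Complex.I)

theorem ch_norm (ω v : ℝ) : ‖ch ω v‖ = 1 := by
  unfold ch
  rw [Complex.norm_exp_ofReal_mul_I]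

theorem ch_cont (ω : ℝ) : Continuous (ch ω) := by unfold ch; fun_prop

theorem ch_zero (v : ℝ) : ch 0 v = 1 := by unfold ch; simp

theorem ch_add (ω ω' v : ℝ) : ch (ω + ω') v = ch ω v * ch ω' v := by
  unfold ch
  rw [← Complex.exp_add]
  congr 1
  push_cast
  ring

theorem ch_add_right (ω v s : ℝ) : ch ω (v + s) = ch ω v * ch ω s := by
  unfold ch
  rw [← Complex.exp_add]
  congr 1
  push_cast
  ring

theorem mc_ch (ω : ℝ) : Tendsto (mc (ch ω)) atTop (𝓝 (if ω = 0 then 1 else 0)) := by
  split_ifs with h
  · subst h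
    refine tendsto_const_nhds.congr' ?_
    filter_upwards [eventually_gt_atTop (0:ℝ)] with V hV
    unfold mc
    simp only [ch_zero]
    rw [intervalIntegral.integral_const, sub_zero]
    simp [hV.ne']
  · have h1 : Tendsto (fun V : ℝ => 2 / |ω| / V) atTop (𝓝 0) := tendsto_const_nhds.div_atTop tendsto_id
    refine squeeze_zero_norm' ?_ h1
    filter_upwards [eventually_gt_atTop (0:ℝ)] with V hV
    unfold mc
    have h2 : ∫ v in (0:ℝ)..V, ch ω v = (ch ω V - 1) / (ω * Complex.I) := by
      have hne : (ω : ℂ) * Complex.I ≠ 0 := mul_ne_zero (by exact_mod_cast h) Complex.I_ne_zero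
      have h3 := integral_exp_mul_complex (a := 0) (b := V) hne
      have e : ∀ v : ℝ, Complex.exp (ω * Complex.I * v) = ch ω v := by
        intro v
        unfold ch
        congr 1
        push_cast
        ring
      rw [e, e] at h3
      simp only [e] at h3
      rw [h3]
      have : ch ω 0 = 1 := by unfold ch; simp
      rw [this]
    rw [h2, norm_div, norm_div, norm_mul, Complex.norm_I, mul_one, Complex.norm_real, Complex.norm_real,
      Real.norm_eq_abs, Real.norm_eq_abs, abs_of_pos hV]
    have h3 : ‖ch ω V - 1‖ ≤ 2 := by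
      refine (norm_sub_le _ _).trans ?_
      rw [ch_norm, norm_one]
      norm_num
    gcongr

theorem mc_ch_norm (ω : ℝ) {V : ℝ} (hV : 0 < V) : ‖mc (ch ω) V‖ ≤ 1 := by
  unfold mc
  rw [norm_div, Complex.norm_real, Real.norm_eq_abs, abs_of_pos hV, div_le_one hV]
  have h := intervalIntegral.norm_integral_le_of_norm_le_const (a := 0) (b := V) (f := ch ω) (C := 1)
    (fun v _ => (ch_norm ω v).le)
  rw [sub_zero, abs_of_pos hV, one_mul] at h
  exact h

variable {ι : Type*} [Countable ι]

theorem mc_series {c : ι → ℂ} (hc : Summable fun i => ‖c i‖) (ω : ι → ℝ) :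
    Tendsto (mc fun v => ∑' i, c i * ch (ω i) v) atTop (𝓝 (∑' i, if ω i = 0 then c i else 0)) := by
  classical
  have h1 : ∀ V : ℝ, 0 < V → mc (fun v => ∑' i, c i * ch (ω i) v) V = ∑' i, c i * mc (ch (ω i)) V := by
    intro V hV
    have h2 := intervalIntegral.hasSum_integral_of_dominated_convergence (μ := volume) (a := 0) (b := V)
      (F := fun i v => c i * ch (ω i) v) (f := fun v => ∑' i, c i * ch (ω i) v)
      (fun i _ => ‖c i‖) (fun i => (continuous_const.mul (ch_cont _)).aestronglyMeasurable)
      (fun i => ae_of_all _ fun v _ => by rw [norm_mul, ch_norm, mul_one])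
      (ae_of_all _ fun v _ => hc) (by simp)
      (ae_of_all _ fun v _ => by
        refine Summable.hasSum (Summable.of_norm_bounded hc fun i => ?_)
        rw [norm_mul, ch_norm, mul_one])
    unfold mc
    rw [← h2.tsum_eq, ← tsum_div_const]
    refine tsum_congr fun i => ?_
    rw [intervalIntegral.integral_const_mul, mul_div_assoc]
  have h3 : Tendsto (fun V : ℝ => ∑' i, c i * mc (ch (ω i)) V) atTop
      (𝓝 (∑' i, if ω i = 0 then c i else 0)) := by
    refine tendsto_tsum_of_dominated_convergence hc (fun i => ?_) ?_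
    · have h4 := (mc_ch (ω i)).const_mul (c i)
      split_ifs at h4 ⊢ with h
      · rwa [mul_one] at h4
      · rwa [mul_zero] at h4
    · filter_upwards [eventually_gt_atTop (0:ℝ)] with V hV i
      rw [norm_mul]
      exact mul_le_of_le_one_right (norm_nonneg _) (mc_ch_norm _ hV)
  refine h3.congr' ?_
  filter_upwards [eventually_gt_atTop (0:ℝ)] with V hV
  exact (h1 V hV).symm

end Pool.Agent.X113.LI
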