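import Pool.Agent.X113.LI1

set_option autoImplicit false

/-! # The mean value of `exp (∑ a_i cos (g_i v))` -/

open Filter Topology MeasureTheory Set

namespace Pool.Agent.X113.LI

/-- the coefficients of `exp (a cos θ)` -/
noncomputable def w1 (a : ℝ) (q : ℕ × ℕ) : ℝ :=
  (a / 2) ^ q.1 / (q.1.factorial : ℝ) * ((a / 2) ^ q.2 / (q.2.factorial : ℝ))

theorem w1_nonneg {a : ℝ} (ha : 0 ≤ a) (q : ℕ × ℕ) : 0 ≤ w1 a q := by unfold w1; positivity

theorem w1_pos {a : ℝ} (ha : 0 < a) (q : ℕ × ℕ) : 0 < w1 a q := by unfold w1; positivity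

theorem w1_summ {a : ℝ} (ha : 0 ≤ a) : Summable (w1 a) := by
  have h := Real.summable_pow_div_factorial (a / 2)
  exact h.mul_of_nonneg h (fun n => by positivity) (fun n => by positivity)

theorem one_freq {a : ℝ} (ha : 0 ≤ a) (g v : ℝ) :
    HasSum (fun q : ℕ × ℕ => (w1 a q : ℂ) * ch (((q.1 : ℝ) - q.2) * g) v)
      (Complex.exp ((a * Real.cos (g * v) : ℝ) : ℂ)) := by
  have hz : ∀ z : ℂ, HasSum (fun n : ℕ => z ^ n / (n.factorial : ℂ)) (Complex.exp z) := by
    intro z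
    have h := NormedSpace.expSeries_div_hasSum_exp z
    rwa [← Complex.exp_eq_exp_ℂ] at h
  have h1 := hz ((a / 2 : ℝ) * ch g v)
  have h2 := hz ((a / 2 : ℝ) * ch (-g) v)
  have hch : ∀ (x : ℝ) (n : ℕ), ch x v ^ n = ch (n * x) v := by
    intro x n
    unfold ch
    rw [← Complex.exp_nat_mul]
    congr 1
    push_cast
    ring
  have he : ∀ q : ℕ × ℕ, ((a / 2 : ℝ) * ch g v) ^ q.1 / (q.1.factorial : ℂ) *
      (((a / 2 : ℝ) * ch (-g) v) ^ q.2 / (q.2.factorial : ℂ)) =
      (w1 a q : ℂ) * ch (((q.1 : ℝ) - q.2) * g) v := by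
    intro q
    have e : ((q.1 : ℝ) - q.2) * g = q.1 * g + q.2 * (-g) := by ring
    rw [e, ch_add, ← hch, ← hch]
    unfold w1
    push_cast
    rw [mul_pow, mul_pow]
    ring
  have hs : Summable fun q : ℕ × ℕ => ((a / 2 : ℝ) * ch g v) ^ q.1 / (q.1.factorial : ℂ) *
      (((a / 2 : ℝ) * ch (-g) v) ^ q.2 / (q.2.factorial : ℂ)) := by
    refine Summable.of_norm ?_
    refine (w1_summ ha).congr fun q => ?_
    rw [he, norm_mul, ch_norm, mul_one, Complex.norm_real, Real.norm_of_nonneg (w1_nonneg ha q)]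
  have h3 := h1.mul h2 hs
  simp only [he] at h3
  rw [← Complex.exp_add] at h3
  have e : ((a / 2 : ℝ) : ℂ) * ch g v + ((a / 2 : ℝ) : ℂ) * ch (-g) v = ((a * Real.cos (g * v) : ℝ) : ℂ) := by
    have h4 : ch g v + ch (-g) v = 2 * Complex.cos ((g * v : ℝ) : ℂ) := by
      rw [Complex.cos]
      unfold ch
      have e1 : (((-g * v : ℝ) : ℂ)) * Complex.I = -((g * v : ℝ) : ℂ) * Complex.I := by push_cast; ring
      rw [e1]
      ring
    rw [← mul_add, h4]
    push_cast
    ring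
  rwa [e] at h3

/-- the coefficients for several frequencies -/
noncomputable def W {n : ℕ} (a : Fin n → ℝ) (p : Fin n → ℕ × ℕ) : ℝ := ∏ i, w1 (a i) (p i)

/-- the frequency -/
noncomputable def fr {n : ℕ} (g : Fin n → ℝ) (p : Fin n → ℕ × ℕ) : ℝ :=
  ∑ i, (((p i).1 : ℝ) - (p i).2) * g i

theorem W_nonneg {n : ℕ} {a : Fin n → ℝ} (ha : ∀ i, 0 ≤ a i) (p : Fin n → ℕ × ℕ) : 0 ≤ W a p :=
  Finset.prod_nonneg fun i _ => w1_nonneg (ha i) _

theorem W_pos {n : ℕ} {a : Fin n → ℝ} (ha : ∀ i, 0 < a i) (p : Fin n → ℕ × ℕ) : 0 < W a p :=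
  Finset.prod_pos fun i _ => w1_pos (ha i) _

/-- splitting off the first frequency -/
def ce (n : ℕ) : (ℕ × ℕ) × (Fin n → ℕ × ℕ) ≃ (Fin (n + 1) → ℕ × ℕ) := Fin.consEquiv fun _ => ℕ × ℕ

theorem W_ce {n : ℕ} (a : Fin (n + 1) → ℝ) (x : (ℕ × ℕ) × (Fin n → ℕ × ℕ)) :
    W a (ce n x) = w1 (a 0) x.1 * W (fun i => a i.succ) x.2 := by
  unfold W ce
  rw [Fin.prod_univ_succ]
  simp [Fin.consEquiv]

theorem fr_ce {n : ℕ} (g : Fin (n + 1) → ℝ) (x : (ℕ × ℕ) × (Fin n → ℕ × ℕ)) :
    fr g (ce n x) = ((x.1.1 : ℝ) - x.1.2) * g 0 + fr (fun i => g i.succ) x.2 := by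
  unfold fr ce
  rw [Fin.sum_univ_succ]
  simp [Fin.consEquiv]

theorem W_summ : ∀ {n : ℕ} {a : Fin n → ℝ}, (∀ i, 0 ≤ a i) → Summable (W a) := by
  intro n
  induction n with
  | zero =>
    intro a _
    exact (hasSum_fintype _).summable
  | succ n ih =>
    intro a ha
    rw [← (ce n).summable_iff]
    have h1 := (w1_summ (ha 0)).mul_of_nonneg (ih fun i => ha i.succ) (fun q => w1_nonneg (ha 0) q)
      (fun p => W_nonneg (fun i => ha i.succ) p)
    exact h1.congr fun x => (W_ce a x).symm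

theorem hasSum_n : ∀ {n : ℕ} {a : Fin n → ℝ} (g : Fin n → ℝ) (v : ℝ), (∀ i, 0 ≤ a i) →
    HasSum (fun p : Fin n → ℕ × ℕ => (W a p : ℂ) * ch (fr g p) v)
      (Complex.exp ((∑ i, a i * Real.cos (g i * v) : ℝ) : ℂ)) := by
  intro n
  induction n with
  | zero =>
    intro a g v _
    have h := hasSum_fintype (fun p : Fin 0 → ℕ × ℕ => (W a p : ℂ) * ch (fr g p) v)
    have e : ∑ p : Fin 0 → ℕ × ℕ, (W a p : ℂ) * ch (fr g p) v = 1 := by
      rw [Fintype.sum_unique]
      simp [W, fr, ch_zero]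
    rw [e] at h
    simpa using h
  | succ n ih =>
    intro a g v ha
    rw [← (ce n).hasSum_iff]
    have h1 := one_freq (ha 0) (g 0) v
    have h2 := ih (a := fun i => a i.succ) (fun i => g i.succ) v fun i => ha i.succ
    have he : ∀ x : (ℕ × ℕ) × (Fin n → ℕ × ℕ),
        (w1 (a 0) x.1 : ℂ) * ch (((x.1.1 : ℝ) - x.1.2) * g 0) v *
          ((W (fun i => a i.succ) x.2 : ℂ) * ch (fr (fun i => g i.succ) x.2) v) =
        (W a (ce n x) : ℂ) * ch (fr g (ce n x)) v := by
      intro x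
      rw [W_ce, fr_ce, ch_add]
      push_cast
      ring
    have hs : Summable fun x : (ℕ × ℕ) × (Fin n → ℕ × ℕ) =>
        (w1 (a 0) x.1 : ℂ) * ch (((x.1.1 : ℝ) - x.1.2) * g 0) v *
          ((W (fun i => a i.succ) x.2 : ℂ) * ch (fr (fun i => g i.succ) x.2) v) := by
      refine Summable.of_norm ?_
      have h3 := (ce n).summable_iff.2 (W_summ ha)
      refine h3.congr fun x => ?_
      rw [he, norm_mul, ch_norm, mul_one, Complex.norm_real, Real.norm_of_nonneg (W_nonneg ha _)]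
      rfl
    have h3 := h1.mul h2 hs
    simp only [he] at h3
    rw [← Complex.exp_add] at h3
    have e : (((a 0 * Real.cos (g 0 * v) : ℝ) : ℂ)) +
        ((∑ i : Fin n, a i.succ * Real.cos (g i.succ * v) : ℝ) : ℂ) =
        ((∑ i, a i * Real.cos (g i * v) : ℝ) : ℂ) := by
      rw [Fin.sum_univ_succ]
      push_cast
      rfl
    rw [e] at h3
    exact h3

/-- the modified Bessel function `I₀` -/
noncomputable def I0 (t : ℝ) : ℝ := ∑' j : ℕ, (t / 2) ^ (2 * j) / (j.factorial : ℝ) ^ 2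

open Classical in
theorem diag_one (a : ℝ) : ∑' q : ℕ × ℕ, (if q.1 = q.2 then w1 a q else 0) = I0 a := by
  have hinj : Function.Injective fun j : ℕ => (j, j) := fun i j h => (Prod.mk.inj h).1
  rw [← hinj.tsum_eq]
  · unfold I0
    refine tsum_congr fun j => ?_
    rw [if_pos rfl]
    unfold w1
    simp only
    rw [two_mul, pow_add]
    ring
  · intro q hq
    rw [Function.mem_support] at hq
    by_cases h : q.1 = q.2
    · exact ⟨q.1, Prod.ext rfl h⟩
    · exact absurd (if_neg h) hq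

theorem if_summ {ι : Type*} {f : ι → ℝ} (hf : Summable f) (h0 : ∀ i, 0 ≤ f i) (P : ι → Prop)
    [DecidablePred P] : Summable fun i => if P i then f i else 0 :=
  Summable.of_nonneg_of_le (fun i => by split_ifs <;> first | exact h0 i | exact le_rfl)
    (fun i => by split_ifs <;> first | exact h0 i | exact le_rfl) hf

open Classical in
/-- the contribution of the trivial relations -/
theorem diag_n : ∀ {n : ℕ} {a : Fin n → ℝ}, (∀ i, 0 ≤ a i) →
    ∑' p : Fin n → ℕ × ℕ, (if ∀ i, (p i).1 = (p i).2 then W a p else 0) = ∏ i, I0 (a i) := by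
  intro n
  induction n with
  | zero =>
    intro a _
    rw [tsum_fintype, Fintype.sum_unique]
    simp [W]
  | succ n ih =>
    intro a ha
    rw [Fin.prod_univ_succ, ← ih fun i => ha i.succ, ← diag_one, ← (ce n).tsum_eq]
    have s1 := if_summ (w1_summ (ha 0)) (fun q => w1_nonneg (ha 0) q) fun q : ℕ × ℕ => q.1 = q.2
    have s2 := if_summ (W_summ fun i : Fin n => ha i.succ) (fun q => W_nonneg (fun i => ha i.succ) q)
      fun p : Fin n → ℕ × ℕ => ∀ i, (p i).1 = (p i).2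
    rw [s1.tsum_mul_tsum s2 (s1.mul_of_nonneg s2
      (fun i => by
        show 0 ≤ if i.1 = i.2 then w1 (a 0) i else 0
        split_ifs
        · exact w1_nonneg (ha 0) i
        · exact le_rfl)
      (fun p => by
        show 0 ≤ if ∀ i, (p i).1 = (p i).2 then W (fun i : Fin n => a i.succ) p else 0
        split_ifs
        · exact W_nonneg (fun i => ha i.succ) p
        · exact le_rfl))]
    refine tsum_congr fun x => ?_
    rw [W_ce]
    have hiff : (∀ i, (ce n x i).1 = (ce n x i).2) ↔ x.1.1 = x.1.2 ∧ ∀ i, (x.2 i).1 = (x.2 i).2 := by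
      rw [Fin.forall_fin_succ]
      simp [ce, Fin.consEquiv]
    by_cases h1 : x.1.1 = x.1.2
    · by_cases h2 : ∀ i, (x.2 i).1 = (x.2 i).2
      · rw [if_pos (hiff.2 ⟨h1, h2⟩), if_pos h1, if_pos h2]
      · rw [if_neg fun h => h2 (hiff.1 h).2, if_neg h2, mul_zero]
    · rw [if_neg fun h => h1 (hiff.1 h).1, if_neg h1, zero_mul]

open Classical in
/-- the mean value -/
noncomputable def Mn {n : ℕ} (g a : Fin n → ℝ) : ℝ :=
  ∑' p : Fin n → ℕ × ℕ, if fr g p = 0 then W a p else 0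

open Classical in
/-- adding a frequency -/
theorem Mn_cons {n : ℕ} {g a : Fin (n + 1) → ℝ} (ha : ∀ i, 0 ≤ a i) :
    I0 (a 0) * Mn (fun i => g i.succ) (fun i => a i.succ) ≤ Mn g a := by
  unfold Mn
  rw [← diag_one, ← (ce n).tsum_eq]
  have s1 := if_summ (w1_summ (ha 0)) (fun q => w1_nonneg (ha 0) q) fun q : ℕ × ℕ => q.1 = q.2
  have s2 := if_summ (W_summ fun i : Fin n => ha i.succ) (fun q => W_nonneg (fun i => ha i.succ) q)
    fun p : Fin n → ℕ × ℕ => fr (fun i => g i.succ) p = 0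
  have s3 := s1.mul_of_nonneg s2
      (fun i => by
        show 0 ≤ if i.1 = i.2 then w1 (a 0) i else 0
        split_ifs
        · exact w1_nonneg (ha 0) i
        · exact le_rfl)
      (fun p => by
        show 0 ≤ if fr (fun i => g i.succ) p = 0 then W (fun i : Fin n => a i.succ) p else 0
        split_ifs
        · exact W_nonneg (fun i => ha i.succ) p
        · exact le_rfl)
  rw [s1.tsum_mul_tsum s2 s3]
  refine s3.tsum_le_tsum (fun x => ?_) ((ce n).summable_iff.2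
    (if_summ (W_summ ha) (fun q => W_nonneg ha q) fun p => fr g p = 0))
  have h0 := W_nonneg ha (ce n x)
  rw [fr_ce]
  by_cases h1 : x.1.1 = x.1.2
  · by_cases h2 : fr (fun i => g i.succ) x.2 = 0
    · rw [if_pos h1, if_pos h2, h1, h2, sub_self, zero_mul, zero_add, if_pos rfl, W_ce]
    · rw [if_neg h2, mul_zero]
      split_ifs
      · exact h0
      · exact le_rfl
  · rw [if_neg h1, zero_mul]
    split_ifs
    · exact h0
    · exact le_rfl

open Classical in
theorem Mn_eq {n : ℕ} {g a : Fin n → ℝ} (ha : ∀ i, 0 ≤ a i)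
    (h : ∀ p : Fin n → ℕ × ℕ, fr g p = 0 → ∀ i, (p i).1 = (p i).2) : Mn g a = ∏ i, I0 (a i) := by
  rw [← diag_n ha]
  unfold Mn
  refine tsum_congr fun p => ?_
  by_cases h1 : fr g p = 0
  · rw [if_pos h1, if_pos (h p h1)]
  · rw [if_neg h1, if_neg]
    intro h2
    apply h1
    unfold fr
    refine Finset.sum_eq_zero fun i _ => ?_
    rw [h2 i, sub_self, zero_mul]

open Classical in
theorem Mn_gt {n : ℕ} {g a : Fin n → ℝ} (ha : ∀ i, 0 < a i) (p : Fin n → ℕ × ℕ) (hp : fr g p = 0)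
    (hn : ¬ ∀ i, (p i).1 = (p i).2) : ∏ i, I0 (a i) < Mn g a := by
  have ha' : ∀ i, 0 ≤ a i := fun i => (ha i).le
  rw [← diag_n ha']
  unfold Mn
  refine Summable.tsum_lt_tsum (i := p) (fun q => ?_) ?_
    (if_summ (W_summ ha') (fun q => W_nonneg ha' q) fun p => ∀ i, (p i).1 = (p i).2)
    (if_summ (W_summ ha') (fun q => W_nonneg ha' q) fun p => fr g p = 0)
  · by_cases h2 : ∀ i, (q i).1 = (q i).2
    · have h1 : fr g q = 0 := by
        unfold fr
        refine Finset.sum_eq_zero fun i _ => ?_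
        rw [h2 i, sub_self, zero_mul]
      rw [if_pos h1, if_pos h2]
    · rw [if_neg h2]
      split_ifs
      · exact W_nonneg ha' q
      · exact le_rfl
  · rw [if_neg hn, if_pos hp]
    exact W_pos ha p

/-- the mean value of the exponential -/
theorem mc_exp {n : ℕ} {g a : Fin n → ℝ} (ha : ∀ i, 0 ≤ a i) (s : ℝ) :
    Tendsto (mc fun v => Complex.exp ((∑ i, a i * Real.cos (g i * (v + s)) : ℝ) : ℂ)) atTop
      (𝓝 ((Mn g a : ℝ) : ℂ)) := by
  classical
  have h1 : (fun v : ℝ => Complex.exp ((∑ i, a i * Real.cos (g i * (v + s)) : ℝ) : ℂ)) =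
      fun v => ∑' p : Fin n → ℕ × ℕ, ((W a p : ℂ) * ch (fr g p) s) * ch (fr g p) v := by
    funext v
    rw [← (hasSum_n g (v + s) ha).tsum_eq]
    refine tsum_congr fun p => ?_
    rw [ch_add_right]
    ring
  rw [h1]
  have hc : Summable fun p : Fin n → ℕ × ℕ => ‖(W a p : ℂ) * ch (fr g p) s‖ := by
    refine (W_summ ha).congr fun p => ?_
    rw [norm_mul, ch_norm, mul_one, Complex.norm_real, Real.norm_of_nonneg (W_nonneg ha p)]
  have h2 := mc_series hc (fr g)
  have e : ∑' p : Fin n → ℕ × ℕ, (if fr g p = 0 then (W a p : ℂ) * ch (fr g p) s else 0) =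
      ((Mn g a : ℝ) : ℂ) := by
    unfold Mn
    rw [Complex.ofReal_tsum]
    refine tsum_congr fun p => ?_
    split_ifs with h
    · rw [h, ch_zero, mul_one]
    · simp
  rwa [e] at h2

end Pool.Agent.X113.LI
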