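import Pool.Agent.X113.LI2

set_option autoImplicit false

/-! # Infinitely many frequencies: the mean value detects linear relations -/

open Filter Topology MeasureTheory Set

namespace Pool.Agent.X113.LI

variable {Γ : Set ℝ}

/-- a partial sum -/
noncomputable def FF (a : Γ → ℝ) (s : Finset Γ) (v : ℝ) : ℝ := ∑ γ ∈ s, a γ * Real.cos (γ * v)

/-- the mean value of `exp (FF a s)` -/
noncomputable def Mf (a : Γ → ℝ) (s : Finset Γ) : ℝ :=
  Mn (fun i => ((s.equivFin.symm i).1 : ℝ)) (fun i => a (s.equivFin.symm i).1)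

theorem FF_enum (a : Γ → ℝ) (s : Finset Γ) (v : ℝ) :
    ∑ i, a (s.equivFin.symm i).1 * Real.cos (((s.equivFin.symm i).1 : ℝ) * v) = FF a s v := by
  unfold FF
  rw [← Finset.sum_coe_sort s, ← Equiv.sum_comp s.equivFin.symm]

theorem Mf_lim {a : Γ → ℝ} (ha : ∀ γ, 0 ≤ a γ) (s : Finset Γ) (t : ℝ) :
    Tendsto (mc fun v => Complex.exp ((FF a s (v + t) : ℝ) : ℂ)) atTop (𝓝 ((Mf a s : ℝ) : ℂ)) := by
  have h := mc_exp (g := fun i => ((s.equivFin.symm i).1 : ℝ)) (a := fun i => a (s.equivFin.symm i).1)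
    (fun i => ha _) t
  simp only [FF_enum] at h
  exact h

theorem Mf_real {a : Γ → ℝ} (ha : ∀ γ, 0 ≤ a γ) (s : Finset Γ) (t : ℝ) :
    Tendsto (fun V : ℝ => (∫ v in (0:ℝ)..V, Real.exp (FF a s (v + t))) / V) atTop (𝓝 (Mf a s)) := by
  have h := (Complex.continuous_re.tendsto _).comp (Mf_lim ha s t)
  rw [Complex.ofReal_re] at h
  refine h.congr fun V => ?_
  simp only [Function.comp]
  unfold mc
  have e : ∀ v : ℝ, Complex.exp ((FF a s (v + t) : ℝ) : ℂ) = ((Real.exp (FF a s (v + t)) : ℝ) : ℂ) :=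
    fun v => (Complex.ofReal_exp _).symm
  simp only [e]
  rw [intervalIntegral.integral_ofReal, ← Complex.ofReal_div, Complex.ofReal_re]

/-- the mean value depends only on the function -/
theorem Mn_uniq {a : Γ → ℝ} (ha : ∀ γ, 0 ≤ a γ) (s : Finset Γ) {n : ℕ} {g b : Fin n → ℝ}
    (hb : ∀ i, 0 ≤ b i) (h : ∀ v, ∑ i, b i * Real.cos (g i * v) = FF a s v) : Mn g b = Mf a s := by
  have h1 := mc_exp (g := g) hb 0
  simp only [h] at h1
  exact_mod_cast tendsto_nhds_unique h1 (Mf_lim ha s 0)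

theorem one_le_I0 {t : ℝ} : 1 ≤ I0 t := by
  unfold I0
  have hs : Summable fun j : ℕ => (t / 2) ^ (2 * j) / (j.factorial : ℝ) ^ 2 := by
    have h := Real.summable_pow_div_factorial ((t / 2) ^ 2)
    refine Summable.of_nonneg_of_le (fun j => ?_) (fun j => ?_) h
    · rw [pow_mul]; positivity
    · rw [pow_mul]
      apply div_le_div_of_nonneg_left (by positivity) (by positivity)
      have : (1 : ℝ) ≤ (j.factorial : ℝ) := by exact_mod_cast Nat.succ_le_of_lt j.factorial_pos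
      nlinarith
  have h := hs.le_tsum 0 fun j _ => by rw [pow_mul]; positivity
  simpa using h

theorem I0_le {t : ℝ} (ht : 0 ≤ t) : I0 t ≤ Real.exp t := by
  classical
  have h1 := (one_freq ht 1 0)
  simp only [ch, mul_zero, Real.cos_zero, mul_one, Complex.ofReal_zero, zero_mul, Complex.exp_zero] at h1
  have h2 : HasSum (w1 t) (Real.exp t) := by
    rw [← Complex.ofReal_exp] at h1
    exact_mod_cast h1
  rw [← diag_one, ← h2.tsum_eq]
  refine (if_summ h2.summable (fun q => w1_nonneg ht q) _).tsum_le_tsum (fun q => ?_) h2.summable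
  split_ifs
  · exact le_rfl
  · exact w1_nonneg ht q

theorem Mf_insert {a : Γ → ℝ} (ha : ∀ γ, 0 ≤ a γ) [DecidableEq Γ] {s : Finset Γ} {γ : Γ} (hγ : γ ∉ s) :
    I0 (a γ) * Mf a s ≤ Mf a (insert γ s) := by
  obtain ⟨g, hg⟩ : ∃ g : Fin (s.card + 1) → ℝ, g = Fin.cons (γ : ℝ) (fun i => ((s.equivFin.symm i).1 : ℝ)) :=
    ⟨_, rfl⟩
  obtain ⟨b, hb⟩ : ∃ b : Fin (s.card + 1) → ℝ, b = Fin.cons (a γ) (fun i => a (s.equivFin.symm i).1) :=
    ⟨_, rfl⟩
  have hb0 : ∀ i, 0 ≤ b i := by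
    intro i
    rw [hb]
    refine Fin.cases ?_ (fun j => ?_) i
    · simpa using ha γ
    · simpa using ha _
  have h1 : Mn g b = Mf a (insert γ s) := by
    refine Mn_uniq ha _ hb0 fun v => ?_
    rw [Fin.sum_univ_succ, hb, hg]
    simp only [Fin.cons_zero, Fin.cons_succ]
    rw [FF_enum]
    unfold FF
    rw [Finset.sum_insert hγ]
  have h2 := Mn_cons (g := g) hb0
  rw [h1] at h2
  have e1 : (fun i : Fin s.card => g i.succ) = fun i => ((s.equivFin.symm i).1 : ℝ) := by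
    funext i; rw [hg, Fin.cons_succ]
  have e2 : (fun i : Fin s.card => b i.succ) = fun i => a (s.equivFin.symm i).1 := by
    funext i; rw [hb, Fin.cons_succ]
  rw [e1, e2] at h2
  have e3 : b 0 = a γ := by rw [hb, Fin.cons_zero]
  rw [e3] at h2
  exact h2

theorem Mf_empty (a : Γ → ℝ) : Mf a ∅ = 1 := by
  unfold Mf
  have h : Mn (n := (∅ : Finset Γ).card) (fun i => (((∅ : Finset Γ).equivFin.symm i).1 : ℝ))
      (fun i => a ((∅ : Finset Γ).equivFin.symm i).1) = ∏ i, I0 (a ((∅ : Finset Γ).equivFin.symm i).1) :=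
    Mn_eq (fun i => absurd i.2 (by simp)) (fun p _ i => absurd i.2 (by simp))
  rw [h]
  refine Finset.prod_eq_one fun i _ => absurd i.2 (by simp)

theorem Mf_prod_le {a : Γ → ℝ} (ha : ∀ γ, 0 ≤ a γ) [DecidableEq Γ] (s t : Finset Γ) (h : Disjoint s t) :
    (∏ γ ∈ t, I0 (a γ)) * Mf a s ≤ Mf a (t ∪ s) := by
  induction t using Finset.induction_on with
  | empty => simp
  | insert γ t hγ ih =>
    rw [Finset.disjoint_insert_right] at h
    have h1 := ih h.2
    have h2 : γ ∉ t ∪ s := by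
      rw [Finset.mem_union]
      exact fun h3 => h3.elim hγ h.1
    rw [Finset.prod_insert hγ, Finset.insert_union, mul_assoc]
    refine le_trans ?_ (Mf_insert ha h2)
    exact mul_le_mul_of_nonneg_left h1 (zero_le_one.trans one_le_I0)

theorem Mf_nonneg {a : Γ → ℝ} (ha : ∀ γ, 0 ≤ a γ) (s : Finset Γ) : 0 ≤ Mf a s := by
  unfold Mf Mn
  refine tsum_nonneg fun p => ?_
  split_ifs
  · exact W_nonneg (fun i => ha _) p
  · exact le_rfl

theorem one_le_prodI (a : Γ → ℝ) (s : Finset Γ) : 1 ≤ ∏ γ ∈ s, I0 (a γ) := by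
  classical
  induction s using Finset.induction_on with
  | empty => simp
  | insert γ s hγ ih =>
    rw [Finset.prod_insert hγ]
    have h := one_le_I0 (t := a γ)
    nlinarith

theorem Mf_mono {a : Γ → ℝ} (ha : ∀ γ, 0 ≤ a γ) : Monotone (Mf a) := by
  classical
  intro s t hst
  have h := Mf_prod_le ha s (t \ s) Finset.disjoint_sdiff
  rw [Finset.sdiff_union_of_subset hst] at h
  refine le_trans ?_ h
  have h1 : 1 ≤ ∏ γ ∈ t \ s, I0 (a γ) := one_le_prodI a _
  nlinarith [Mf_nonneg ha s]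

theorem FF_le {a : Γ → ℝ} (ha : ∀ γ, 0 ≤ a γ) (hs : Summable a) (s : Finset Γ) (v : ℝ) :
    |FF a s v| ≤ ∑' γ, a γ := by
  refine (Finset.abs_sum_le_sum_abs _ _).trans (le_trans ?_ (hs.sum_le_tsum s fun γ _ => ha γ))
  refine Finset.sum_le_sum fun γ _ => ?_
  rw [abs_mul, abs_of_nonneg (ha γ)]
  exact mul_le_of_le_one_right (ha γ) (Real.abs_cos_le_one _)

theorem Mf_le {a : Γ → ℝ} (ha : ∀ γ, 0 ≤ a γ) (hs : Summable a) (s : Finset Γ) :
    Mf a s ≤ Real.exp (∑' γ, a γ) := by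
  refine le_of_tendsto (Mf_real ha s 0) ?_
  filter_upwards [eventually_gt_atTop (0:ℝ)] with V hV
  rw [div_le_iff₀ hV]
  have h1 : ∫ v in (0:ℝ)..V, Real.exp (FF a s (v + 0)) ≤ ∫ v in (0:ℝ)..V, Real.exp (∑' γ, a γ) := by
    refine intervalIntegral.integral_mono_on hV.le ?_ (by simp) fun v _ => ?_
    · have hc : Continuous fun v : ℝ => Real.exp (FF a s (v + 0)) := by
        unfold FF
        fun_prop
      exact hc.intervalIntegrable _ _
    · exact Real.exp_le_exp.2 ((le_abs_self _).trans (FF_le ha hs s _))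
  rw [intervalIntegral.integral_const, sub_zero, smul_eq_mul] at h1
  linarith

theorem Mf_indep {a : Γ → ℝ} (ha : ∀ γ, 0 ≤ a γ) (h : LinearIndependent ℚ (fun γ : Γ => (γ : ℝ)))
    (s : Finset Γ) : Mf a s = ∏ γ ∈ s, I0 (a γ) := by
  have h1 : Mf a s = ∏ i, I0 (a (s.equivFin.symm i).1) := by
    unfold Mf
    refine Mn_eq (fun i => ha _) fun p hp i => ?_
    have h2 := h.comp (fun i : Fin s.card => (s.equivFin.symm i).1)
      (Subtype.val_injective.comp s.equivFin.symm.injective)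
    rw [Fintype.linearIndependent_iff] at h2
    have h3 := h2 (fun i => ((p i).1 : ℚ) - (p i).2) (by
      unfold fr at hp
      rw [← hp]
      refine Finset.sum_congr rfl fun j _ => ?_
      rw [Rat.smul_def]
      push_cast
      rfl) i
    have h4 : ((p i).1 : ℚ) = (p i).2 := sub_eq_zero.1 h3
    exact_mod_cast h4
  rw [h1, ← Finset.prod_coe_sort s, ← Equiv.prod_comp s.equivFin.symm]

theorem Mf_rel {a : Γ → ℝ} (ha : ∀ γ, 0 < a γ) (h : ¬ LinearIndependent ℚ (fun γ : Γ => (γ : ℝ))) :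
    ∃ s : Finset Γ, ∏ γ ∈ s, I0 (a γ) < Mf a s := by
  classical
  rw [linearIndependent_iff'] at h
  push Not at h
  obtain ⟨s, c, hc, i, his, hi⟩ := h
  refine ⟨s, ?_⟩
  obtain ⟨N, hN⟩ : ∃ N : ℕ, N = ∏ j ∈ s, (c j).den := ⟨_, rfl⟩
  have hN0 : (N : ℚ) ≠ 0 := by
    rw [hN]
    push_cast
    exact Finset.prod_ne_zero_iff.2 fun j _ => by exact_mod_cast (c j).den_nz
  have hz : ∀ j ∈ s, ∃ z : ℤ, (z : ℚ) = N * c j := by
    intro j hj
    obtain ⟨k, hk⟩ : (c j).den ∣ N := by rw [hN]; exact Finset.dvd_prod_of_mem _ hj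
    refine ⟨k * (c j).num, ?_⟩
    have h1 := Rat.mul_den_eq_num (c j)
    rw [hk]
    push_cast
    rw [← h1]
    ring
  choose! z hz using hz
  have hz0 : z i ≠ 0 := by
    intro h0
    have h1 := hz i his
    rw [h0, Int.cast_zero] at h1
    exact (mul_ne_zero hN0 hi) h1.symm
  have hzs : ∑ j ∈ s, (z j : ℝ) * (j : ℝ) = 0 := by
    have h1 : ∑ j ∈ s, (z j : ℝ) * (j : ℝ) = (N : ℝ) * ∑ j ∈ s, c j • (j : ℝ) := by
      rw [Finset.mul_sum]
      refine Finset.sum_congr rfl fun j hj => ?_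
      have h2 : ((z j : ℚ) : ℝ) = ((N * c j : ℚ) : ℝ) := by rw [hz j hj]
      push_cast at h2
      rw [Rat.smul_def, h2]
      ring
    rw [h1, hc, mul_zero]
  have h1 : ∏ γ ∈ s, I0 (a γ) = ∏ i, I0 (a (s.equivFin.symm i).1) := by
    rw [← Finset.prod_coe_sort s, ← Equiv.prod_comp s.equivFin.symm]
  rw [h1]
  unfold Mf
  have hcast : ∀ m : ℤ, ((m.toNat : ℝ)) - ((-m).toNat : ℝ) = m := by
    intro m
    have h2 := Int.toNat_sub_toNat_neg m
    exact_mod_cast h2
  refine Mn_gt (fun i => ha _) (fun j => ((z (s.equivFin.symm j).1).toNat, (-z (s.equivFin.symm j).1).toNat))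
    ?_ ?_
  · unfold fr
    simp only [hcast]
    rw [← hzs, ← Finset.sum_coe_sort s, ← Equiv.sum_comp s.equivFin.symm]
  · intro hall
    have h2 := hall (s.equivFin ⟨i, his⟩)
    simp only [Equiv.symm_apply_apply] at h2
    have h3 := hcast (z i)
    rw [h2, sub_self] at h3
    exact hz0 (by exact_mod_cast h3.symm)

theorem I0_mult {a : Γ → ℝ} (ha : ∀ γ, 0 ≤ a γ) (hs : Summable a) : Multipliable fun γ => I0 (a γ) := by
  have h1 : Summable fun γ => ‖I0 (a γ) - 1‖ := by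
    refine Summable.of_nonneg_of_le (fun _ => norm_nonneg _) (fun γ => ?_)
      (hs.mul_right (Real.exp (∑' γ, a γ)))
    rw [Real.norm_of_nonneg (by linarith [one_le_I0 (t := a γ)])]
    have h2 := I0_le (ha γ)
    have h3 : Real.exp (a γ) - 1 ≤ a γ * Real.exp (a γ) := by
      have h4 := Real.add_one_le_exp (-(a γ))
      have h5 := Real.exp_pos (a γ)
      have h6 : Real.exp (-(a γ)) * Real.exp (a γ) = 1 := by rw [← Real.exp_add]; simp
      nlinarith
    have h4 : Real.exp (a γ) ≤ Real.exp (∑' γ, a γ) :=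
      Real.exp_le_exp.2 (hs.le_tsum γ fun j _ => ha j)
    nlinarith [ha γ, mul_le_mul_of_nonneg_left h4 (ha γ)]
  have h2 := multipliable_one_add_of_summable h1
  refine h2.congr fun γ => ?_
  ring

/-- **the mean value detects linear relations** -/
theorem detect {a : Γ → ℝ} (ha : ∀ γ, 0 < a γ) (hs : Summable a) :
    ∃ l : ℝ, Tendsto (Mf a) atTop (𝓝 l) ∧ ∏' γ, I0 (a γ) ≤ l ∧
      (l = ∏' γ, I0 (a γ) ↔ LinearIndependent ℚ (fun γ : Γ => (γ : ℝ))) := by
  classical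
  have ha' : ∀ γ, 0 ≤ a γ := fun γ => (ha γ).le
  have hbdd : BddAbove (range (Mf a)) := ⟨_, by rintro _ ⟨s, rfl⟩; exact Mf_le ha' hs s⟩
  have hlim := tendsto_atTop_ciSup (Mf_mono ha') hbdd
  have hprod : Tendsto (fun s : Finset Γ => ∏ γ ∈ s, I0 (a γ)) atTop (𝓝 (∏' γ, I0 (a γ))) :=
    (I0_mult ha' hs).hasProd
  have hle : ∀ s : Finset Γ, ∏ γ ∈ s, I0 (a γ) ≤ Mf a s := by
    intro s
    have h := Mf_prod_le ha' ∅ s (Finset.disjoint_empty_left _)
    rwa [Mf_empty, mul_one, Finset.union_empty] at h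
  have hP1 : 1 ≤ ∏' γ, I0 (a γ) := ge_of_tendsto' hprod fun s => one_le_prodI a s
  refine ⟨_, hlim, le_of_tendsto_of_tendsto' hprod hlim hle, ?_⟩
  constructor
  · intro heq
    by_contra hn
    obtain ⟨s0, hs0⟩ := Mf_rel ha hn
    have hp0 : 0 < ∏ γ ∈ s0, I0 (a γ) := Finset.prod_pos fun _ _ => zero_lt_one.trans_le one_le_I0
    obtain ⟨r, hr⟩ : ∃ r : ℝ, r = Mf a s0 / ∏ γ ∈ s0, I0 (a γ) := ⟨_, rfl⟩
    have hr1 : 1 < r := by rw [hr, one_lt_div hp0]; exact hs0
    have h1 : r * ∏' γ, I0 (a γ) ≤ ⨆ s, Mf a s := by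
      refine le_of_tendsto_of_tendsto (hprod.const_mul r) hlim ?_
      filter_upwards [eventually_ge_atTop s0] with t ht
      have h2 := Mf_prod_le ha' s0 (t \ s0) Finset.disjoint_sdiff
      rw [Finset.sdiff_union_of_subset ht] at h2
      refine le_trans (le_of_eq ?_) h2
      rw [← Finset.prod_sdiff ht, hr]
      field_simp
    rw [heq] at h1
    nlinarith
  · intro hli
    refine tendsto_nhds_unique hlim (hprod.congr fun s => ?_)
    exact (Mf_indep ha' hli s).symm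

end Pool.Agent.X113.LI
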