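import Pool.Agent.X113.ES9
import Pool.Agent.X113.LI3

set_option autoImplicit false

/-! # The primes in `(x, (1 + δ) x]` are approximated in mean square by trigonometric polynomials, under RH -/

open Filter Topology MeasureTheory Set

namespace Pool.Agent.X113.LI

open Pool.Agent.W263.BSD (LInt lap lapC)
open Pool.Agent.X83.VP (SqI fv CC fv_meas)
open Pool.Agent.X113.ES (mz kk Gm Gm_fin exists_theta win_bd fv_LInt fv_SqI uu kara abel_lim)
open Pool.Agent.W120.WM (NT)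
open Pool.Agent.TH223.AP (mn)
open SP (RHs)

/-- the coefficient at the ordinate `γ` -/
noncomputable def cf (δ γ : ℝ) : ℂ := (mz (⟨1 / 2, γ⟩ : ℂ) : ℂ) * CC δ (⟨1 / 2, γ⟩ : ℂ)

theorem res_lim (hRH : RHs) {δ : ℝ} (hδ : 0 < δ) (hδ2 : δ ≤ Real.log 2)
    (hL : ∀ a > 0, LInt (fv δ) a) {γ : ℝ} (hγ : riemannZeta (⟨1 / 2, γ⟩ : ℂ) = 0) :
    Tendsto (fun a : ℝ => (a : ℂ) * lapC (fv δ) ((a : ℂ) + γ * Complex.I)) (𝓝[>] 0) (𝓝 (-cf δ γ)) := by
  classical
  obtain ⟨θ, hθ0, hθ1, hθ⟩ := exists_theta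
  obtain ⟨n, hn⟩ : ∃ n : ℤ, n = ⌊γ - θ⌋ := ⟨_, rfl⟩
  have hn1 : (n : ℝ) ≤ γ - θ := by rw [hn]; exact Int.floor_le _
  have hn2 : γ - θ < n + 1 := by rw [hn]; exact Int.lt_floor_add_one _
  have hA : θ + n < γ := by
    refine lt_of_le_of_ne (by linarith) fun h => hθ n ?_
    rw [h]; exact hγ
  have hB : γ < θ + n + 1 := by linarith
  obtain ⟨K, hK⟩ := win_bd hδ hδ2 hRH hL (Gm_fin (θ + n) (θ + n + 1)) (hθ n) (by
        have := hθ (n + 1)
        push_cast at this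
        rwa [← add_assoc] at this)
  obtain ⟨G, hG⟩ : ∃ G : Finset ℝ, G = (Gm_fin (θ + n) (θ + n + 1)).toFinset := ⟨_, rfl⟩
  rw [← hG] at hK
  have hγG : γ ∈ G := by
    rw [hG, Set.Finite.mem_toFinset]
    exact ⟨hA, hB, hγ⟩
  have hpole : Tendsto (fun a : ℝ => ∑ g ∈ G, cf δ g * ((a : ℂ) * kk a g γ)) (𝓝[>] 0)
      (𝓝 (∑ g ∈ G, cf δ g * (if g = γ then 1 else 0))) := by
    refine tendsto_finsetSum _ fun g _ => ?_
    refine Tendsto.const_mul _ ?_
    split_ifs with h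
    · refine tendsto_const_nhds.congr' ?_
      filter_upwards [self_mem_nhdsWithin] with a ha
      have ha0 : (a : ℂ) ≠ 0 := by
        have : (0:ℝ) < a := ha
        exact_mod_cast this.ne'
      unfold kk
      rw [h]
      simp [ha0]
    · have hne : ((γ - g : ℝ) : ℂ) * Complex.I ≠ 0 :=
        mul_ne_zero (by exact_mod_cast sub_ne_zero.2 (Ne.symm h)) Complex.I_ne_zero
      have h1 : Tendsto (fun a : ℝ => (a : ℂ) * (1 / ((a : ℂ) + (γ - g : ℝ) * Complex.I))) (𝓝 0)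
          (𝓝 (((0 : ℝ) : ℂ) * (1 / (((0 : ℝ) : ℂ) + (γ - g : ℝ) * Complex.I)))) := by
        have hc : Tendsto (fun a : ℝ => (a : ℂ)) (𝓝 0) (𝓝 ((0 : ℝ) : ℂ)) := Complex.continuous_ofReal.tendsto 0
        refine hc.mul (tendsto_const_nhds.div (hc.add_const _) ?_)
        rwa [Complex.ofReal_zero, zero_add]
      rw [Complex.ofReal_zero, zero_mul] at h1
      exact h1.mono_left nhdsWithin_le_nhds
  have hval : ∑ g ∈ G, cf δ g * (if g = γ then (1:ℂ) else 0) = cf δ γ := by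
    rw [Finset.sum_eq_single γ]
    · rw [if_pos rfl, mul_one]
    · intro g _ hg
      rw [if_neg hg, mul_zero]
    · exact fun h => absurd hγG h
  rw [hval] at hpole
  have herr : Tendsto (fun a : ℝ => (a : ℂ) * (lapC (fv δ) ((a : ℂ) + γ * Complex.I) +
      ∑ g ∈ G, cf δ g * kk a g γ)) (𝓝[>] 0) (𝓝 0) := by
    have h1 : Tendsto (fun a : ℝ => a * K) (𝓝[>] 0) (𝓝 0) := by
      have : Tendsto (fun a : ℝ => a * K) (𝓝 0) (𝓝 (0 * K)) := tendsto_id.mul_const _
      rw [zero_mul] at this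
      exact this.mono_left nhdsWithin_le_nhds
    refine squeeze_zero_norm' ?_ h1
    have h2 : ∀ᶠ a : ℝ in 𝓝[>] 0, a < 1 / 4 := mem_nhdsWithin_of_mem_nhds (gt_mem_nhds (by norm_num))
    filter_upwards [h2, self_mem_nhdsWithin] with a h3 h4
    have ha : 0 < a := h4
    rw [norm_mul, Complex.norm_real, Real.norm_of_nonneg ha.le]
    exact mul_le_mul_of_nonneg_left (hK a ha h3.le γ ⟨hA.le, hB.le⟩) ha.le
  have h := herr.sub hpole
  rw [zero_sub] at h
  refine h.congr fun a => ?_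
  rw [mul_add, Finset.mul_sum, add_sub_assoc]
  have e : ∑ g ∈ G, (a : ℂ) * (cf δ g * kk a g γ) = ∑ g ∈ G, cf δ g * ((a : ℂ) * kk a g γ) :=
    Finset.sum_congr rfl fun g _ => by ring
  rw [e, sub_self, add_zero]

theorem ch_iOn (ω : ℝ) {w : ℝ} (hw : 0 < w) :
    IntegrableOn (fun v : ℝ => ch ω v * Complex.exp (-((w : ℂ) * v))) (Ioi 0) := by
  have h := integrableOn_exp_mul_complex_Ioi (a := -(w : ℂ) + ω * Complex.I) (by simpa using hw) 0
  refine h.congr_fun (fun v _ => ?_) measurableSet_Ioi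
  unfold ch
  rw [← Complex.exp_add]
  simp only
  congr 1
  push_cast
  ring

theorem ch_int (ω : ℝ) {w : ℝ} (hw : 0 < w) :
    ∫ v in Ioi (0:ℝ), ch ω v * Complex.exp (-((w : ℂ) * v)) = 1 / ((w : ℂ) - ω * Complex.I) := by
  have h := integral_exp_mul_complex_Ioi (a := -(w : ℂ) + ω * Complex.I) (by simpa using hw) 0
  have e : ∀ v : ℝ, ch ω v * Complex.exp (-((w : ℂ) * v)) =
      Complex.exp ((-(w : ℂ) + ω * Complex.I) * v) := by
    intro v
    unfold ch
    rw [← Complex.exp_add]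
    congr 1
    push_cast
    ring
  simp only [e]
  rw [h, Complex.ofReal_zero, mul_zero, Complex.exp_zero]
  have hne : -(w : ℂ) + ω * Complex.I ≠ 0 := by
    intro h0
    have := congrArg Complex.re h0
    simp at this
    exact hw.ne' this
  have hne' : (w : ℂ) - ω * Complex.I ≠ 0 := by
    intro h0
    apply hne
    linear_combination -h0
  field_simp
  ring

theorem ch_abel (ω : ℝ) : Tendsto (fun w : ℝ => (w : ℂ) * (1 / ((w : ℂ) - ω * Complex.I))) (𝓝[>] 0)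
    (𝓝 (if ω = 0 then 1 else 0)) := by
  split_ifs with h
  · refine tendsto_const_nhds.congr' ?_
    filter_upwards [self_mem_nhdsWithin] with a ha
    have ha0 : (a : ℂ) ≠ 0 := by
      have : (0:ℝ) < a := ha
      exact_mod_cast this.ne'
    rw [h]
    simp [ha0]
  · have hne : (ω : ℂ) * Complex.I ≠ 0 := mul_ne_zero (by exact_mod_cast h) Complex.I_ne_zero
    have h1 : Tendsto (fun a : ℝ => (a : ℂ) * (1 / ((a : ℂ) - ω * Complex.I))) (𝓝 0)
        (𝓝 (((0 : ℝ) : ℂ) * (1 / (((0 : ℝ) : ℂ) - ω * Complex.I)))) := by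
      have hc : Tendsto (fun a : ℝ => (a : ℂ)) (𝓝 0) (𝓝 ((0 : ℝ) : ℂ)) := Complex.continuous_ofReal.tendsto 0
      refine hc.mul (tendsto_const_nhds.div (hc.sub_const _) ?_)
      rw [Complex.ofReal_zero, zero_sub]
      exact neg_ne_zero.2 hne
    rw [Complex.ofReal_zero, zero_mul] at h1
    exact h1.mono_left nhdsWithin_le_nhds

/-- the trigonometric polynomial -/
noncomputable def TP (δ : ℝ) (S : Finset ℝ) (v : ℝ) : ℂ := ∑ γ ∈ S, cf δ γ * ch γ v

theorem TP_cont (δ : ℝ) (S : Finset ℝ) : Continuous (TP δ S) := by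
  unfold TP
  exact continuous_finsetSum _ fun γ _ => continuous_const.mul (ch_cont γ)

theorem ch_conj (ω v : ℝ) : (starRingEnd ℂ) (ch ω v) = ch (-ω) v := by
  unfold ch
  rw [← Complex.exp_conj, map_mul, Complex.conj_I, Complex.conj_ofReal]
  congr 1
  push_cast
  ring

/-- the complex form of the square -/
noncomputable def BB (δ : ℝ) (S : Finset ℝ) (v : ℝ) : ℂ :=
  ((fv δ v ^ 2 : ℝ) : ℂ) + 2 * (∑ γ ∈ S, (starRingEnd ℂ) (cf δ γ) * ((fv δ v : ℂ) * ch (-γ) v)) +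
    ∑ γ ∈ S, ∑ γ' ∈ S, cf δ γ * (starRingEnd ℂ) (cf δ γ') * ch (γ - γ') v

theorem BB_re (δ : ℝ) (S : Finset ℝ) (v : ℝ) : ‖(fv δ v : ℂ) + TP δ S v‖ ^ 2 = (BB δ S v).re := by
  have h1 : (starRingEnd ℂ) (TP δ S v) = ∑ γ ∈ S, (starRingEnd ℂ) (cf δ γ) * ch (-γ) v := by
    unfold TP
    rw [map_sum]
    exact Finset.sum_congr rfl fun γ _ => by rw [map_mul, ch_conj]
  have h2 : TP δ S v * (starRingEnd ℂ) (TP δ S v) =
      ∑ γ ∈ S, ∑ γ' ∈ S, cf δ γ * (starRingEnd ℂ) (cf δ γ') * ch (γ - γ') v := by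
    rw [h1]
    unfold TP
    rw [Finset.sum_mul_sum]
    refine Finset.sum_congr rfl fun γ _ => Finset.sum_congr rfl fun γ' _ => ?_
    rw [sub_eq_add_neg, ch_add]
    ring
  have h3 : BB δ S v = (fv δ v : ℂ) * (fv δ v : ℂ) + 2 * ((fv δ v : ℂ) * (starRingEnd ℂ) (TP δ S v)) +
      TP δ S v * (starRingEnd ℂ) (TP δ S v) := by
    unfold BB
    rw [h2, h1, Finset.mul_sum, Finset.mul_sum]
    push_cast
    rw [← sq]
    congr 3
    rw [Finset.mul_sum]
    exact Finset.sum_congr rfl fun γ _ => by ring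
  rw [h3, ← Complex.normSq_eq_norm_sq, Complex.normSq_add, Complex.mul_conj]
  simp only [Complex.add_re, Complex.normSq_ofReal, Complex.mul_re, Complex.ofReal_re, Complex.ofReal_im,
    mul_zero, sub_zero, zero_mul, Complex.re_ofNat, Complex.im_ofNat]
  ring

theorem fv_ch_iOn {δ : ℝ} {w : ℝ} (hL : LInt (fv δ) w) (γ : ℝ) :
    IntegrableOn (fun v : ℝ => (fv δ v : ℂ) * ch (-γ) v * Complex.exp (-((w : ℂ) * v))) (Ioi 0) := by
  unfold Pool.Agent.W263.BSD.LInt at hL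
  refine Integrable.mono' hL.norm ?_ ?_
  · have h1 : Measurable fun v : ℝ => (fv δ v : ℂ) := Complex.measurable_ofReal.comp (fv_meas δ)
    exact ((h1.mul (ch_cont _).measurable).mul (by fun_prop)).aestronglyMeasurable
  · refine Eventually.of_forall fun v => ?_
    rw [norm_mul, norm_mul, ch_norm, mul_one, Complex.norm_real, norm_mul, Real.norm_of_nonneg (Real.exp_pos _).le,
      Complex.norm_exp]
    simp

theorem fv_ch_int (δ : ℝ) (w γ : ℝ) :
    ∫ v in Ioi (0:ℝ), (fv δ v : ℂ) * ch (-γ) v * Complex.exp (-((w : ℂ) * v)) =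
      lapC (fv δ) ((w : ℂ) + γ * Complex.I) := by
  unfold Pool.Agent.W263.BSD.lapC
  refine integral_congr_ae (ae_of_all _ fun v => ?_)
  simp only
  rw [mul_assoc]
  congr 1
  unfold ch
  rw [← Complex.exp_add]
  congr 1
  push_cast
  ring

theorem fv_sq_iOn {δ w : ℝ} (hS : SqI (fv δ) (w / 2)) :
    IntegrableOn (fun v : ℝ => ((fv δ v ^ 2 : ℝ) : ℂ) * Complex.exp (-((w : ℂ) * v))) (Ioi 0) := by
  unfold Pool.Agent.X83.VP.SqI at hS
  have h : IntegrableOn (fun v => ((fv δ v ^ 2 * Real.exp (-(2 * (w / 2) * v)) : ℝ) : ℂ)) (Ioi 0) :=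
    Integrable.ofReal hS
  refine h.congr_fun (fun v _ => ?_) measurableSet_Ioi
  push_cast
  congr 2
  ring

theorem BB_lap {δ w : ℝ} (hw : 0 < w) (hL : LInt (fv δ) w) (hS : SqI (fv δ) (w / 2)) (S : Finset ℝ) :
    IntegrableOn (fun v : ℝ => BB δ S v * Complex.exp (-((w : ℂ) * v))) (Ioi 0) ∧
    ∫ v in Ioi (0:ℝ), BB δ S v * Complex.exp (-((w : ℂ) * v)) =
      ((lap (fun v => fv δ v ^ 2) w : ℝ) : ℂ) +
      2 * (∑ γ ∈ S, (starRingEnd ℂ) (cf δ γ) * lapC (fv δ) ((w : ℂ) + γ * Complex.I)) +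
      ∑ γ ∈ S, ∑ γ' ∈ S, cf δ γ * (starRingEnd ℂ) (cf δ γ') * (1 / ((w : ℂ) - ((γ - γ' : ℝ) : ℂ) * Complex.I)) := by
  have e : (fun v : ℝ => BB δ S v * Complex.exp (-((w : ℂ) * v))) = fun v : ℝ =>
      (((fv δ v ^ 2 : ℝ) : ℂ) * Complex.exp (-((w : ℂ) * v)) +
      ∑ γ ∈ S, (2 * (starRingEnd ℂ) (cf δ γ)) * ((fv δ v : ℂ) * ch (-γ) v * Complex.exp (-((w : ℂ) * v)))) +
      ∑ γ ∈ S, ∑ γ' ∈ S, cf δ γ * (starRingEnd ℂ) (cf δ γ') * (ch (γ - γ') v * Complex.exp (-((w : ℂ) * v))) := by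
    funext v
    unfold BB
    rw [add_mul, add_mul, Finset.mul_sum, Finset.sum_mul, Finset.sum_mul]
    congr 1
    · congr 1
      exact Finset.sum_congr rfl fun γ _ => by ring
    · refine Finset.sum_congr rfl fun γ _ => ?_
      rw [Finset.sum_mul]
      exact Finset.sum_congr rfl fun γ' _ => by ring
  have i1 := fv_sq_iOn (δ := δ) (w := w) hS
  have i2 : IntegrableOn (fun v : ℝ => ∑ γ ∈ S, (2 * (starRingEnd ℂ) (cf δ γ)) *
      ((fv δ v : ℂ) * ch (-γ) v * Complex.exp (-((w : ℂ) * v)))) (Ioi 0) :=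
    integrable_finsetSum _ fun γ _ => (fv_ch_iOn hL γ).const_mul _
  have i3 : IntegrableOn (fun v : ℝ => ∑ γ ∈ S, ∑ γ' ∈ S, cf δ γ * (starRingEnd ℂ) (cf δ γ') *
      (ch (γ - γ') v * Complex.exp (-((w : ℂ) * v)))) (Ioi 0) :=
    integrable_finsetSum _ fun γ _ => integrable_finsetSum _ fun γ' _ => (ch_iOn _ hw).const_mul _
  refine ⟨by rw [e]; exact (i1.add i2).add i3, ?_⟩
  have a1 := integral_add (i1.add i2) i3
  simp only [Pi.add_apply] at a1
  rw [e, a1, integral_add i1 i2,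
    integral_finsetSum _ fun γ _ => (fv_ch_iOn hL γ).const_mul _,
    integral_finsetSum _ fun γ _ => integrable_finsetSum _ fun γ' _ => (ch_iOn _ hw).const_mul _]
  congr 1
  · congr 1
    · unfold Pool.Agent.W263.BSD.lap
      rw [← integral_complex_ofReal]
      refine integral_congr_ae (ae_of_all _ fun v => ?_)
      simp only
      push_cast
      rfl
    · rw [Finset.mul_sum]
      refine Finset.sum_congr rfl fun γ _ => ?_
      rw [integral_const_mul, fv_ch_int]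
      ring
  · refine Finset.sum_congr rfl fun γ _ => ?_
    rw [integral_finsetSum _ fun γ' _ => (ch_iOn _ hw).const_mul _]
    refine Finset.sum_congr rfl fun γ' _ => ?_
    rw [integral_const_mul, ch_int _ hw]

end Pool.Agent.X113.LI
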