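import Pool.Agent.X113.LI4

set_option autoImplicit false

/-! # The mean square of the difference from a trigonometric polynomial -/

open Filter Topology MeasureTheory Set

namespace Pool.Agent.X113.LI

open Pool.Agent.W263.BSD (LInt lap lapC)
open Pool.Agent.X83.VP (SqI fv CC fv_meas)
open Pool.Agent.X113.ES (mz fv_LInt fv_SqI uu uu_eq uu_nonneg kara abel_lim lap_sq)
open Pool.Agent.W120.WM (NT)
open Pool.Agent.TH223.AP (mn)
open SP (RHs)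

/-- the square of the difference -/
noncomputable def bs (δ : ℝ) (S : Finset ℝ) (v : ℝ) : ℝ := ‖(fv δ v : ℂ) + TP δ S v‖ ^ 2

theorem bs_meas (δ : ℝ) (S : Finset ℝ) : Measurable (bs δ S) := by
  unfold bs
  have h1 : Measurable fun v : ℝ => (fv δ v : ℂ) := Complex.measurable_ofReal.comp (fv_meas δ)
  exact ((h1.add (TP_cont δ S).measurable).norm).pow_const 2

theorem bs_nonneg (δ : ℝ) (S : Finset ℝ) (v : ℝ) : 0 ≤ bs δ S v := by unfold bs; positivity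

theorem bs_pt (δ : ℝ) (S : Finset ℝ) (w v : ℝ) : bs δ S v * Real.exp (-(w * v)) =
    (BB δ S v * Complex.exp (-((w : ℂ) * v))).re := by
  have e : Complex.exp (-((w : ℂ) * v)) = ((Real.exp (-(w * v)) : ℝ) : ℂ) := by push_cast; rfl
  rw [e, Complex.re_mul_ofReal, ← BB_re]
  rfl

theorem lap_fv_sq (RH : RiemannHypothesis) {δ : ℝ} (hδ : 0 < δ) (hδ2 : δ ≤ Real.log 2) :
    Summable (fun ρ : NT => uu δ ρ) ∧
    Tendsto (fun w : ℝ => w * lap (fun v => fv δ v ^ 2) w) (𝓝[>] 0) (𝓝 (∑' ρ : NT, uu δ ρ)) := by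
  have hRH := Pool.Agent.X83.VP.RHs_of RH
  have hL : ∀ a > 0, LInt (fv δ) a := fun a ha => fv_LInt RH hδ.le ha
  have hS : ∀ a > 0, SqI (fv δ) a := fun a ha => fv_SqI RH hδ.le ha
  obtain ⟨hs, hlim⟩ := abel_lim hRH hδ hδ2 hL hS
  refine ⟨hs, ?_⟩
  have h2 : Tendsto (fun w : ℝ => w / 2) (𝓝[>] 0) (𝓝[>] 0) := by
    rw [tendsto_nhdsWithin_iff]
    constructor
    · have : Tendsto (fun w : ℝ => w / 2) (𝓝 0) (𝓝 (0 / 2)) := tendsto_id.div_const _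
      rw [zero_div] at this
      exact this.mono_left nhdsWithin_le_nhds
    · filter_upwards [self_mem_nhdsWithin] with w hw
      have : (0 : ℝ) < w := hw
      exact half_pos this
  refine (hlim.comp h2).congr fun w => ?_
  simp only [Function.comp]
  rw [← lap_sq]
  have e : 2 * (w / 2) = w := by ring
  rw [e]

/-- **the mean square of the difference** -/
theorem b2 (RH : RiemannHypothesis) {δ : ℝ} (hδ : 0 < δ) (hδ2 : δ ≤ Real.log 2) (S : Finset ℝ)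
    (hS : ∀ γ ∈ S, riemannZeta (⟨1 / 2, γ⟩ : ℂ) = 0) :
    Tendsto (mn (bs δ S)) atTop (𝓝 ((∑' ρ : NT, uu δ ρ) - ∑ γ ∈ S, ‖cf δ γ‖ ^ 2)) := by
  classical
  have hRH := Pool.Agent.X83.VP.RHs_of RH
  have hL : ∀ a > 0, LInt (fv δ) a := fun a ha => fv_LInt RH hδ.le ha
  have hSq : ∀ a > 0, SqI (fv δ) a := fun a ha => fv_SqI RH hδ.le ha
  obtain ⟨-, hfv⟩ := lap_fv_sq RH hδ hδ2
  refine kara (bs_meas δ S) (fun v _ => bs_nonneg δ S v) (fun w hw => ?_) ?_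
  · unfold Pool.Agent.W263.BSD.LInt
    have h := (BB_lap hw (hL w hw) (hSq (w / 2) (half_pos hw)) S).1
    have h2 : IntegrableOn (fun v : ℝ => (BB δ S v * Complex.exp (-((w : ℂ) * v))).re) (Ioi 0) :=
      Integrable.re h
    exact h2.congr_fun (fun v _ => (bs_pt δ S w v).symm) measurableSet_Ioi
  · -- the limit of the complex form
    have c1 : Tendsto (fun w : ℝ => ((w * lap (fun v => fv δ v ^ 2) w : ℝ) : ℂ)) (𝓝[>] 0)
        (𝓝 ((∑' ρ : NT, uu δ ρ : ℝ) : ℂ)) := (Complex.continuous_ofReal.tendsto _).comp hfv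
    have c2 : Tendsto (fun w : ℝ => 2 * ∑ γ ∈ S, (starRingEnd ℂ) (cf δ γ) *
        ((w : ℂ) * lapC (fv δ) ((w : ℂ) + γ * Complex.I))) (𝓝[>] 0)
        (𝓝 (2 * ∑ γ ∈ S, (starRingEnd ℂ) (cf δ γ) * (-cf δ γ))) :=
      Tendsto.const_mul _ (tendsto_finsetSum _ fun γ hγ =>
        (res_lim hRH hδ hδ2 hL (hS γ hγ)).const_mul _)
    have c3 : Tendsto (fun w : ℝ => ∑ γ ∈ S, ∑ γ' ∈ S, cf δ γ * (starRingEnd ℂ) (cf δ γ') *
        ((w : ℂ) * (1 / ((w : ℂ) - ((γ - γ' : ℝ) : ℂ) * Complex.I)))) (𝓝[>] 0)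
        (𝓝 (∑ γ ∈ S, ∑ γ' ∈ S, cf δ γ * (starRingEnd ℂ) (cf δ γ') * (if γ - γ' = 0 then 1 else 0))) :=
      tendsto_finsetSum _ fun γ _ => tendsto_finsetSum _ fun γ' _ => (ch_abel (γ - γ')).const_mul _
    have c4 := (Complex.continuous_re.tendsto _).comp ((c1.add c2).add c3)
    have hval : (((∑' ρ : NT, uu δ ρ : ℝ) : ℂ) + 2 * ∑ γ ∈ S, (starRingEnd ℂ) (cf δ γ) * (-cf δ γ) +
        ∑ γ ∈ S, ∑ γ' ∈ S, cf δ γ * (starRingEnd ℂ) (cf δ γ') * (if γ - γ' = 0 then (1:ℂ) else 0)).re =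
        (∑' ρ : NT, uu δ ρ) - ∑ γ ∈ S, ‖cf δ γ‖ ^ 2 := by
      have e1 : ∑ γ ∈ S, ∑ γ' ∈ S, cf δ γ * (starRingEnd ℂ) (cf δ γ') * (if γ - γ' = 0 then (1:ℂ) else 0) =
          ((∑ γ ∈ S, ‖cf δ γ‖ ^ 2 : ℝ) : ℂ) := by
        rw [Complex.ofReal_sum]
        refine Finset.sum_congr rfl fun γ hγ => ?_
        rw [Finset.sum_eq_single γ]
        · rw [sub_self, if_pos rfl, mul_one, Complex.mul_conj, Complex.normSq_eq_norm_sq]
        · intro γ' _ hne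
          rw [if_neg (sub_ne_zero.2 (Ne.symm hne)), mul_zero]
        · exact fun h => absurd hγ h
      have e2 : ∑ γ ∈ S, (starRingEnd ℂ) (cf δ γ) * (-cf δ γ) = -((∑ γ ∈ S, ‖cf δ γ‖ ^ 2 : ℝ) : ℂ) := by
        rw [Complex.ofReal_sum, ← Finset.sum_neg_distrib]
        refine Finset.sum_congr rfl fun γ hγ => ?_
        rw [mul_neg, mul_comm, Complex.mul_conj, Complex.normSq_eq_norm_sq]
      rw [e1, e2]
      have e3 : (((∑' ρ : NT, uu δ ρ : ℝ) : ℂ) + 2 * -((∑ γ ∈ S, ‖cf δ γ‖ ^ 2 : ℝ) : ℂ) +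
          ((∑ γ ∈ S, ‖cf δ γ‖ ^ 2 : ℝ) : ℂ)) =
          (((∑' ρ : NT, uu δ ρ) - ∑ γ ∈ S, ‖cf δ γ‖ ^ 2 : ℝ) : ℂ) := by
        push_cast
        ring
      rw [e3, Complex.ofReal_re]
    rw [hval] at c4
    refine c4.congr' ?_
    filter_upwards [self_mem_nhdsWithin] with w hw
    have hw0 : 0 < w := hw
    obtain ⟨hi, hv⟩ := BB_lap hw0 (hL w hw0) (hSq (w / 2) (half_pos hw0)) S
    have h1 : lap (bs δ S) w = (∫ v in Ioi (0:ℝ), BB δ S v * Complex.exp (-((w : ℂ) * v))).re := by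
      unfold Pool.Agent.W263.BSD.lap
      have h2 := integral_re hi
      simp only [RCLike.re_eq_complex_re] at h2
      rw [← h2]
      refine integral_congr_ae (ae_of_all _ fun v => ?_)
      exact bs_pt δ S w v
    simp only [Function.comp]
    rw [h1, hv, ← Complex.re_ofReal_mul]
    congr 1
    rw [mul_add, mul_add]
    push_cast
    congr 1
    · congr 1
      rw [Finset.mul_sum, Finset.mul_sum, Finset.mul_sum]
      exact Finset.sum_congr rfl fun γ _ => by ring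
    · rw [Finset.mul_sum]
      refine Finset.sum_congr rfl fun γ _ => ?_
      rw [Finset.mul_sum]
      exact Finset.sum_congr rfl fun γ' _ => by ring

/-- the positive ordinates of the zeros on the critical line -/
def Gp : Set ℝ := {γ : ℝ | 0 < γ ∧ riemannZeta (⟨1 / 2, γ⟩ : ℂ) = 0}

theorem zeta_neg {γ : ℝ} (h : riemannZeta (⟨1 / 2, γ⟩ : ℂ) = 0) : riemannZeta (⟨1 / 2, -γ⟩ : ℂ) = 0 := by
  have h1 : (⟨1 / 2, γ⟩ : ℂ) ∈ NT := ⟨h, by norm_num, by norm_num⟩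
  have h2 := (Pool.Agent.X113.GG.conj_mem h1).1
  have e : (starRingEnd ℂ) (⟨1 / 2, γ⟩ : ℂ) = (⟨1 / 2, -γ⟩ : ℂ) := by
    apply Complex.ext <;> simp
  rwa [e] at h2

/-- the set `s ∪ -s` -/
noncomputable def sy (s : Finset Gp) : Finset ℝ := by
  classical
  exact (s.image fun γ : Gp => (γ : ℝ)) ∪ (s.image fun γ : Gp => -(γ : ℝ))

theorem sy_zero {s : Finset Gp} {γ : ℝ} (h : γ ∈ sy s) : riemannZeta (⟨1 / 2, γ⟩ : ℂ) = 0 := by
  classical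
  unfold sy at h
  rw [Finset.mem_union, Finset.mem_image, Finset.mem_image] at h
  rcases h with ⟨g, _, rfl⟩ | ⟨g, _, rfl⟩
  · exact g.2.2
  · exact zeta_neg g.2.2

theorem sy_sum {M : Type*} [AddCommMonoid M] (s : Finset Gp) (f : ℝ → M) :
    ∑ γ ∈ sy s, f γ = ∑ γ ∈ s, (f γ + f (-γ)) := by
  classical
  unfold sy
  rw [Finset.sum_union]
  · rw [Finset.sum_image (fun x _ y _ h => Subtype.ext h),
      Finset.sum_image (fun x _ y _ h => Subtype.ext (neg_injective h)), Finset.sum_add_distrib]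
  · rw [Finset.disjoint_left]
    intro x h1 h2
    rw [Finset.mem_image] at h1 h2
    obtain ⟨g, _, rfl⟩ := h1
    obtain ⟨g', _, h⟩ := h2
    have h3 := g.2.1
    have h4 := g'.2.1
    have h5 : (-(g' : ℝ)) = g := h
    linarith

theorem tail_small (RH : RiemannHypothesis) {δ : ℝ} (hδ : 0 < δ) (hδ2 : δ ≤ Real.log 2) {ε : ℝ}
    (hε : 0 < ε) : ∀ᶠ s : Finset Gp in atTop,
    (∑' ρ : NT, uu δ ρ) - ∑ γ ∈ sy s, ‖cf δ γ‖ ^ 2 < ε := by
  classical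
  have hRH := Pool.Agent.X83.VP.RHs_of RH
  obtain ⟨hs, -⟩ := lap_fv_sq RH hδ hδ2
  obtain ⟨T0, hT0⟩ := (hs.hasSum.eventually (lt_mem_nhds (sub_lt_self _ hε))).exists
  have hmem : ∀ ρ : NT, |(ρ : ℂ).im| ∈ Gp := by
    intro ρ
    have hre : (ρ : ℂ).re = 1 / 2 := hRH ρ ρ.2.2.1 ρ.2.2.2 ρ.2.1
    have hne : (ρ : ℂ).im ≠ 0 := Pool.Agent.X113.GG.im_ne ρ.2 hre
    have hρ : (⟨1 / 2, (ρ : ℂ).im⟩ : ℂ) = ρ := Complex.ext hre.symm rfl
    have hz : riemannZeta (⟨1 / 2, (ρ : ℂ).im⟩ : ℂ) = 0 := by rw [hρ]; exact ρ.2.1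
    refine ⟨abs_pos.2 hne, ?_⟩
    rcases abs_choice (ρ : ℂ).im with h | h
    · rw [h]; exact hz
    · rw [h]; exact zeta_neg hz
  filter_upwards [eventually_ge_atTop (T0.image fun ρ : NT => (⟨|(ρ : ℂ).im|, hmem ρ⟩ : Gp))] with s hss
  have h1 : ∑ ρ ∈ T0, uu δ ρ ≤ ∑ γ ∈ sy s, ‖cf δ γ‖ ^ 2 := by
    have hinj : Set.InjOn (fun ρ : NT => (ρ : ℂ).im) T0 := by
      intro ρ _ ρ' _ h
      apply Subtype.ext
      apply Complex.ext
      · rw [hRH ρ ρ.2.2.1 ρ.2.2.2 ρ.2.1, hRH ρ' ρ'.2.2.1 ρ'.2.2.2 ρ'.2.1]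
      · exact h
    have h2 : ∑ ρ ∈ T0, uu δ ρ = ∑ γ ∈ T0.image (fun ρ : NT => (ρ : ℂ).im), ‖cf δ γ‖ ^ 2 := by
      rw [Finset.sum_image hinj]
      refine Finset.sum_congr rfl fun ρ _ => ?_
      have hre : (ρ : ℂ).re = 1 / 2 := hRH ρ ρ.2.2.1 ρ.2.2.2 ρ.2.1
      have hρ : (⟨1 / 2, (ρ : ℂ).im⟩ : ℂ) = ρ := Complex.ext hre.symm rfl
      unfold cf
      rw [hρ, uu_eq]
    rw [h2]
    refine Finset.sum_le_sum_of_subset_of_nonneg ?_ fun _ _ _ => by positivity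
    intro γ hγ
    rw [Finset.mem_image] at hγ
    obtain ⟨ρ, hρ, rfl⟩ := hγ
    have h3 : (⟨|(ρ : ℂ).im|, hmem ρ⟩ : Gp) ∈ s := hss (Finset.mem_image_of_mem _ hρ)
    unfold sy
    rw [Finset.mem_union, Finset.mem_image, Finset.mem_image]
    rcases abs_choice (ρ : ℂ).im with h | h
    · exact Or.inl ⟨_, h3, h⟩
    · exact Or.inr ⟨_, h3, by rw [show (((⟨|(ρ : ℂ).im|, hmem ρ⟩ : Gp) : ℝ)) = |(ρ : ℂ).im| from rfl, h, neg_neg]⟩
  linarith

end Pool.Agent.X113.LI
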