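import Pool.Agent.X113.LI5

set_option autoImplicit false

/-! # Averaging: the coefficients become positive -/

open Filter Topology MeasureTheory Set

namespace Pool.Agent.X113.LI

open Pool.Agent.W263.BSD (LInt lap lapC)
open Pool.Agent.X83.VP (SqI fv CC fv_meas fv_bd Kd Kd_nonneg)
open Pool.Agent.X113.ES (mz mz_conj CC_norm fv_LInt fv_SqI uu uu_eq uu_nonneg)
open Pool.Agent.W120.WM (NT)
open Pool.Agent.TH223.AP (mn)

/-- the averaged function -/
noncomputable def Ak (δ v : ℝ) : ℝ := ∫ t in (0:ℝ)..δ, Real.exp (-(t / 2)) * fv δ (v + t)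

/-- the coefficient of the averaged function -/
noncomputable def al (δ γ : ℝ) : ℝ := Real.exp (-(δ / 2)) * ((mz (⟨1 / 2, γ⟩ : ℂ) : ℝ) * ‖CC δ (⟨1 / 2, γ⟩ : ℂ)‖ ^ 2)

theorem al_neg {δ γ : ℝ} : al δ (-γ) = al δ γ := by
  unfold al
  have h1 : (⟨1 / 2, -γ⟩ : ℂ) = (starRingEnd ℂ) (⟨1 / 2, γ⟩ : ℂ) := by
    apply Complex.ext <;> simp
  have hn : ‖(⟨1 / 2, -γ⟩ : ℂ)‖ = ‖(⟨1 / 2, γ⟩ : ℂ)‖ := by rw [h1]; exact Complex.norm_conj _
  have hm : mz (⟨1 / 2, -γ⟩ : ℂ) = mz (⟨1 / 2, γ⟩ : ℂ) := by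
    rw [h1]; exact mz_conj (Pool.Agent.X113.ES.line_ne_one γ)
  rw [hm, CC_norm δ (by rfl : (⟨1 / 2, -γ⟩ : ℂ).re = 1 / 2), CC_norm δ (by rfl : (⟨1 / 2, γ⟩ : ℂ).re = 1 / 2), hn]
  have hc : Real.cos ((⟨1 / 2, -γ⟩ : ℂ).im * δ) = Real.cos ((⟨1 / 2, γ⟩ : ℂ).im * δ) := by
    show Real.cos (-γ * δ) = Real.cos (γ * δ)
    rw [neg_mul, Real.cos_neg]
  rw [hc]

theorem kappa (δ γ : ℝ) : ∫ t in (0:ℝ)..δ, ((Real.exp (-(t / 2)) : ℝ) : ℂ) * ch γ t =
    ((Real.exp (-(δ / 2)) : ℝ) : ℂ) * (starRingEnd ℂ) (CC δ (⟨1 / 2, γ⟩ : ℂ)) * ch γ δ := by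
  have hne : (-(1 / 2) : ℂ) + γ * Complex.I ≠ 0 := by
    intro h
    have := congrArg Complex.re h
    norm_num at this
  have hne' : (1 / 2 : ℂ) - γ * Complex.I ≠ 0 := by
    intro h
    apply hne
    linear_combination -h
  have h1 := integral_exp_mul_complex (a := 0) (b := δ) hne
  have e : ∀ t : ℝ, ((Real.exp (-(t / 2)) : ℝ) : ℂ) * ch γ t =
      Complex.exp ((-(1 / 2) + γ * Complex.I) * t) := by
    intro t
    unfold ch
    rw [Complex.ofReal_exp, ← Complex.exp_add]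
    congr 1
    push_cast
    ring
  simp only [e]
  rw [h1]
  have h2 : (starRingEnd ℂ) (CC δ (⟨1 / 2, γ⟩ : ℂ)) =
      (Complex.exp (δ * (1 / 2 - γ * Complex.I)) - 1) / (1 / 2 - γ * Complex.I) := by
    unfold Pool.Agent.X83.VP.CC
    have h3 : (starRingEnd ℂ) (⟨1 / 2, γ⟩ : ℂ) = 1 / 2 - γ * Complex.I := by
      apply Complex.ext <;> simp
    rw [map_div₀, map_sub, map_one, ← Complex.exp_conj, map_mul, h3, Complex.conj_ofReal]
  rw [h2, Complex.ofReal_zero, mul_zero, Complex.exp_zero]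
  have h4 : ((Real.exp (-(δ / 2)) : ℝ) : ℂ) * ((Complex.exp (δ * (1 / 2 - γ * Complex.I)) - 1) /
      (1 / 2 - γ * Complex.I)) * ch γ δ = (((Real.exp (-(δ / 2)) : ℝ) : ℂ) * ch γ δ *
      Complex.exp (δ * (1 / 2 - γ * Complex.I)) - ((Real.exp (-(δ / 2)) : ℝ) : ℂ) * ch γ δ) /
      (1 / 2 - γ * Complex.I) := by ring
  rw [h4, e, ← Complex.exp_add]
  have h5 : (-(1 / 2) + (γ : ℂ) * Complex.I) * δ + δ * (1 / 2 - γ * Complex.I) = 0 := by ring
  rw [h5, Complex.exp_zero]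
  have h6 : (-(1 / 2) : ℂ) + γ * Complex.I = -(1 / 2 - γ * Complex.I) := by ring
  rw [h6, div_neg, ← neg_div]
  congr 1
  ring

/-- the amplitudes -/
noncomputable def am (δ : ℝ) (γ : Gp) : ℝ := 2 * al δ γ

theorem two_cos (γ v : ℝ) : ch γ v + ch (-γ) v = 2 * ((Real.cos (γ * v) : ℝ) : ℂ) := by
  have h4 : ch γ v + ch (-γ) v = 2 * Complex.cos ((γ * v : ℝ) : ℂ) := by
    rw [Complex.cos]
    unfold ch
    have e1 : (((-γ * v : ℝ) : ℂ)) * Complex.I = -((γ * v : ℝ) : ℂ) * Complex.I := by push_cast; ring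
    rw [e1]
    ring
  rw [h4]
  push_cast
  rfl

theorem TP_avg (δ : ℝ) (s : Finset Gp) (v : ℝ) :
    ∫ t in (0:ℝ)..δ, ((Real.exp (-(t / 2)) : ℝ) : ℂ) * TP δ (sy s) (v + t) =
      ((FF (am δ) s (v + δ) : ℝ) : ℂ) := by
  have h1 : ∀ t : ℝ, ((Real.exp (-(t / 2)) : ℝ) : ℂ) * TP δ (sy s) (v + t) =
      ∑ γ ∈ sy s, (cf δ γ * ch γ v) * (((Real.exp (-(t / 2)) : ℝ) : ℂ) * ch γ t) := by
    intro t
    unfold TP
    rw [Finset.mul_sum]
    refine Finset.sum_congr rfl fun γ _ => ?_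
    rw [ch_add_right]
    ring
  simp only [h1]
  rw [intervalIntegral.integral_finsetSum]
  · have h2 : ∀ γ ∈ sy s, ∫ t in (0:ℝ)..δ, (cf δ γ * ch γ v) * (((Real.exp (-(t / 2)) : ℝ) : ℂ) * ch γ t) =
        ((al δ γ : ℝ) : ℂ) * ch γ (v + δ) := by
      intro γ _
      rw [intervalIntegral.integral_const_mul, kappa, ch_add_right]
      unfold cf al
      have h3 : CC δ (⟨1 / 2, γ⟩ : ℂ) * (starRingEnd ℂ) (CC δ (⟨1 / 2, γ⟩ : ℂ)) =
          ((‖CC δ (⟨1 / 2, γ⟩ : ℂ)‖ ^ 2 : ℝ) : ℂ) := by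
        rw [Complex.mul_conj, Complex.normSq_eq_norm_sq]
      push_cast at h3 ⊢
      rw [← h3]
      ring
    rw [Finset.sum_congr rfl h2, sy_sum]
    unfold FF am
    rw [Complex.ofReal_sum]
    refine Finset.sum_congr rfl fun γ _ => ?_
    rw [al_neg, ← mul_add, two_cos]
    push_cast
    ring
  · intro γ _
    refine Continuous.intervalIntegrable ?_ _ _
    have h3 := ch_cont γ
    fun_prop

theorem fv_ii (δ a b : ℝ) : IntervalIntegrable (fv δ) volume a b := by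
  have h1 : ContinuousOn (fun v => Kd δ * Real.exp (v / 2)) (uIcc a b) := by fun_prop
  refine IntervalIntegrable.mono_fun' (h1.intervalIntegrable) (fv_meas δ).aestronglyMeasurable ?_
  exact ae_of_all _ fun v => by show ‖fv δ v‖ ≤ Kd δ * Real.exp (v / 2); rw [Real.norm_eq_abs]; exact fv_bd δ v

theorem gk_ii (δ a b : ℝ) : IntervalIntegrable (fun u => Real.exp (-(u / 2)) * fv δ u) volume a b :=
  (fv_ii δ a b).continuousOn_mul (by fun_prop)

theorem Ak_eq (δ v : ℝ) : Ak δ v = Real.exp (v / 2) *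
    ((∫ u in (0:ℝ)..(v + δ), Real.exp (-(u / 2)) * fv δ u) - ∫ u in (0:ℝ)..v, Real.exp (-(u / 2)) * fv δ u) := by
  rw [intervalIntegral.integral_interval_sub_left (gk_ii _ _ _) (gk_ii _ _ _)]
  unfold Ak
  have h1 := intervalIntegral.integral_comp_add_left (a := 0) (b := δ)
    (fun u => Real.exp (-(u / 2)) * fv δ u) v
  rw [add_zero] at h1
  rw [← h1, ← intervalIntegral.integral_const_mul]
  refine intervalIntegral.integral_congr fun t _ => ?_
  show Real.exp (-(t / 2)) * fv δ (v + t) = Real.exp (v / 2) * (Real.exp (-((v + t) / 2)) * fv δ (v + t))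
  rw [← mul_assoc, ← Real.exp_add]
  congr 2
  ring

theorem Ak_cont (δ : ℝ) : Continuous (Ak δ) := by
  have h1 : Continuous fun v : ℝ => ∫ u in (0:ℝ)..v, Real.exp (-(u / 2)) * fv δ u :=
    intervalIntegral.continuous_primitive (fun a b => gk_ii δ a b) 0
  have h2 : Ak δ = fun v => Real.exp (v / 2) *
    ((∫ u in (0:ℝ)..(v + δ), Real.exp (-(u / 2)) * fv δ u) - ∫ u in (0:ℝ)..v, Real.exp (-(u / 2)) * fv δ u) :=
    funext (Ak_eq δ)
  rw [h2]
  have h3 : Continuous fun v : ℝ => ∫ u in (0:ℝ)..(v + δ), Real.exp (-(u / 2)) * fv δ u :=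
    h1.comp (continuous_id.add continuous_const)
  exact (by fun_prop : Continuous fun v : ℝ => Real.exp (v / 2)).mul (h3.sub h1)

theorem FF_cont {Γ : Set ℝ} (a : Γ → ℝ) (s : Finset Γ) : Continuous (FF a s) := by
  unfold FF
  fun_prop

theorem cs_int {h : ℝ → ℝ} {δ : ℝ} (hδ : 0 < δ) (h1 : IntervalIntegrable h volume 0 δ)
    (h2 : IntervalIntegrable (fun t => h t ^ 2) volume 0 δ) :
    (∫ t in (0:ℝ)..δ, h t) ^ 2 ≤ δ * ∫ t in (0:ℝ)..δ, h t ^ 2 := by
  obtain ⟨c, hc⟩ : ∃ c : ℝ, c = (∫ t in (0:ℝ)..δ, h t) / δ := ⟨_, rfl⟩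
  have h3 : 0 ≤ ∫ t in (0:ℝ)..δ, (h t ^ 2 - 2 * c * h t + c ^ 2) :=
    intervalIntegral.integral_nonneg hδ.le fun t _ => by nlinarith [sq_nonneg (h t - c)]
  rw [intervalIntegral.integral_add (h2.sub (h1.const_mul _)) intervalIntegrable_const,
    intervalIntegral.integral_sub h2 (h1.const_mul _), intervalIntegral.integral_const_mul,
    intervalIntegral.integral_const, smul_eq_mul, sub_zero] at h3
  have h4 : ∫ t in (0:ℝ)..δ, h t = c * δ := by rw [hc]; field_simp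
  rw [h4] at h3 ⊢
  nlinarith

theorem bs_bd (δ : ℝ) (S : Finset ℝ) {R v : ℝ} (h : |v| ≤ R) :
    bs δ S v ≤ (Kd δ * Real.exp (R / 2) + ∑ γ ∈ S, ‖cf δ γ‖) ^ 2 := by
  unfold bs
  refine pow_le_pow_left₀ (norm_nonneg _) ?_ 2
  refine (norm_add_le _ _).trans (add_le_add ?_ ?_)
  · rw [Complex.norm_real, Real.norm_eq_abs]
    refine (fv_bd δ v).trans (mul_le_mul_of_nonneg_left (Real.exp_le_exp.2 ?_) (Kd_nonneg δ))
    linarith [le_abs_self v]
  · unfold TP
    refine (norm_sum_le _ _).trans (Finset.sum_le_sum fun γ _ => ?_)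
    rw [norm_mul, ch_norm, mul_one]

theorem bs_ii (δ : ℝ) (S : Finset ℝ) (a b : ℝ) : IntervalIntegrable (bs δ S) volume a b := by
  rw [intervalIntegrable_iff]
  refine Measure.integrableOn_of_bounded (M := (Kd δ * Real.exp ((|a| + |b|) / 2) + ∑ γ ∈ S, ‖cf δ γ‖) ^ 2)
    (by simp) (bs_meas δ S).aestronglyMeasurable ?_
  refine (ae_restrict_iff' measurableSet_uIoc).2 (ae_of_all _ fun v hv => ?_)
  rw [Real.norm_of_nonneg (bs_nonneg δ S v)]
  refine bs_bd δ S ?_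
  rw [Set.mem_uIoc] at hv
  rcases hv with ⟨h1, h2⟩ | ⟨h1, h2⟩
  · rw [abs_le]
    constructor
    · linarith [neg_abs_le a, abs_nonneg b]
    · linarith [le_abs_self b, abs_nonneg a]
  · rw [abs_le]
    constructor
    · linarith [neg_abs_le b, abs_nonneg a]
    · linarith [le_abs_self a, abs_nonneg b]

/-- the difference of the averages -/
theorem diff_pt {δ : ℝ} (hδ : 0 < δ) (s : Finset Gp) (v : ℝ) :
    (Ak δ v + FF (am δ) s (v + δ)) ^ 2 ≤ δ * ∫ t in (0:ℝ)..δ, bs δ (sy s) (v + t) := by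
  obtain ⟨g, hg⟩ : ∃ g : ℝ → ℝ, ∀ t, g t = ‖(fv δ (v + t) : ℂ) + TP δ (sy s) (v + t)‖ := ⟨_, fun _ => rfl⟩
  have hfs : IntervalIntegrable (fun t => fv δ (v + t)) volume 0 δ := by
    have := (fv_ii δ (v + 0) (v + δ)).comp_add_left v
    simpa using this
  have hgm : Measurable g := by
    have e : g = fun t => ‖(fv δ (v + t) : ℂ) + TP δ (sy s) (v + t)‖ := funext hg
    rw [e]
    have h1 : Measurable fun t : ℝ => (fv δ (v + t) : ℂ) :=
      Complex.measurable_ofReal.comp ((fv_meas δ).comp (by fun_prop))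
    exact (h1.add ((TP_cont δ (sy s)).comp (continuous_const.add continuous_id)).measurable).norm
  have hbsi : IntervalIntegrable (fun t => bs δ (sy s) (v + t)) volume 0 δ := by
    have := (bs_ii δ (sy s) (v + 0) (v + δ)).comp_add_left v
    simpa using this
  have hg2 : ∀ t, g t ^ 2 = bs δ (sy s) (v + t) := fun t => by rw [hg]; rfl
  have hgi2 : IntervalIntegrable (fun t => g t ^ 2) volume 0 δ := by
    simp only [hg2]; exact hbsi
  have hgi : IntervalIntegrable g volume 0 δ := by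
    refine IntervalIntegrable.mono_fun' (hgi2.add (intervalIntegrable_const (c := (1:ℝ)))) hgm.aestronglyMeasurable ?_
    refine ae_of_all _ fun t => ?_
    have h0 : 0 ≤ g t := by rw [hg]; exact norm_nonneg _
    show ‖g t‖ ≤ g t ^ 2 + 1
    rw [Real.norm_of_nonneg h0]
    nlinarith [sq_nonneg (g t - 1)]
  refine le_trans ?_ ((cs_int hδ hgi hgi2).trans (le_of_eq (by simp only [hg2])))
  have h1 : ((Ak δ v + FF (am δ) s (v + δ) : ℝ) : ℂ) = ∫ t in (0:ℝ)..δ, ((Real.exp (-(t / 2)) : ℝ) : ℂ) *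
      ((fv δ (v + t) : ℂ) + TP δ (sy s) (v + t)) := by
    have i1 : IntervalIntegrable (fun t : ℝ => ((Real.exp (-(t / 2)) : ℝ) : ℂ) * (fv δ (v + t) : ℂ)) volume 0 δ := by
      have h2 : IntervalIntegrable (fun t : ℝ => Real.exp (-(t / 2)) * fv δ (v + t)) volume 0 δ :=
        hfs.continuousOn_mul (by fun_prop)
      have h3 : IntervalIntegrable (fun t : ℝ => ((Real.exp (-(t / 2)) * fv δ (v + t) : ℝ) : ℂ)) volume 0 δ :=
        ⟨h2.1.ofReal, h2.2.ofReal⟩
      simpa using h3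
    have i2 : IntervalIntegrable (fun t : ℝ => ((Real.exp (-(t / 2)) : ℝ) : ℂ) * TP δ (sy s) (v + t)) volume 0 δ := by
      refine Continuous.intervalIntegrable ?_ _ _
      have h4 : Continuous fun t : ℝ => TP δ (sy s) (v + t) :=
        (TP_cont δ (sy s)).comp (continuous_const.add continuous_id)
      exact (by fun_prop : Continuous fun t : ℝ => ((Real.exp (-(t / 2)) : ℝ) : ℂ)).mul h4
    simp only [mul_add]
    rw [intervalIntegral.integral_add i1 i2, TP_avg, Complex.ofReal_add]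
    congr 1
    unfold Ak
    rw [← intervalIntegral.integral_ofReal]
    refine intervalIntegral.integral_congr fun t _ => ?_
    show ((Real.exp (-(t / 2)) * fv δ (v + t) : ℝ) : ℂ) = ((Real.exp (-(t / 2)) : ℝ) : ℂ) * (fv δ (v + t) : ℂ)
    push_cast
    rfl
  have h2 : |Ak δ v + FF (am δ) s (v + δ)| ≤ ∫ t in (0:ℝ)..δ, g t := by
    rw [← Real.norm_eq_abs, ← Complex.norm_real, h1]
    refine intervalIntegral.norm_integral_le_of_norm_le hδ.le (ae_of_all _ fun t ht => ?_) hgi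
    rw [norm_mul, Complex.norm_real, Real.norm_of_nonneg (Real.exp_pos _).le, hg]
    refine mul_le_of_le_one_left (norm_nonneg _) (Real.exp_le_one_iff.2 ?_)
    linarith [ht.1]
  rw [← sq_abs]
  exact pow_le_pow_left₀ (abs_nonneg _) h2 2

/-- the mean square of the difference of the averages -/
theorem diff_mean {δ : ℝ} (hδ : 0 < δ) (s : Finset Gp) {V : ℝ} (hV : 0 < V) :
    ∫ v in (0:ℝ)..V, (Ak δ v + FF (am δ) s (v + δ)) ^ 2 ≤ δ ^ 2 * ∫ u in (0:ℝ)..(V + δ), bs δ (sy s) u := by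
  have hprod : Integrable (Function.uncurry fun v t => bs δ (sy s) (v + t))
      ((volume.restrict (Ioc 0 V)).prod (volume.restrict (Ioc 0 δ))) := by
    refine Integrable.of_bound (C := (Kd δ * Real.exp ((V + δ) / 2) + ∑ γ ∈ sy s, ‖cf δ γ‖) ^ 2)
      ((bs_meas δ (sy s)).comp (measurable_fst.add measurable_snd)).aestronglyMeasurable ?_
    rw [Measure.prod_restrict]
    refine (ae_restrict_iff' (measurableSet_Ioc.prod measurableSet_Ioc)).2 (ae_of_all _ fun p hp => ?_)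
    obtain ⟨h1, h2⟩ := hp
    simp only [Function.uncurry]
    rw [Real.norm_of_nonneg (bs_nonneg _ _ _)]
    refine bs_bd δ _ ?_
    rw [abs_le]
    constructor <;> linarith [h1.1, h1.2, h2.1, h2.2]
  have h1 : ∫ v in (0:ℝ)..V, (Ak δ v + FF (am δ) s (v + δ)) ^ 2 ≤
      ∫ v in (0:ℝ)..V, δ * ∫ t in (0:ℝ)..δ, bs δ (sy s) (v + t) := by
    refine intervalIntegral.integral_mono_on hV.le ?_ ?_ fun v _ => diff_pt hδ s v
    · refine Continuous.intervalIntegrable ?_ _ _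
      exact ((Ak_cont δ).add ((FF_cont _ _).comp (continuous_id.add continuous_const))).pow 2
    · rw [intervalIntegrable_iff_integrableOn_Ioc_of_le hV.le]
      have h2 := hprod.integral_prod_left
      refine Integrable.const_mul ?_ δ
      refine h2.congr (ae_of_all _ fun v => ?_)
      simp only [Function.uncurry]
      rw [intervalIntegral.integral_of_le hδ.le]
  refine h1.trans ?_
  rw [intervalIntegral.integral_const_mul, sq, mul_assoc]
  refine mul_le_mul_of_nonneg_left ?_ hδ.le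
  have h3 : ∫ v in (0:ℝ)..V, ∫ t in (0:ℝ)..δ, bs δ (sy s) (v + t) =
      ∫ t in (0:ℝ)..δ, ∫ v in (0:ℝ)..V, bs δ (sy s) (v + t) := by
    rw [intervalIntegral.integral_of_le hV.le, intervalIntegral.integral_of_le hδ.le]
    simp only [intervalIntegral.integral_of_le hδ.le, intervalIntegral.integral_of_le hV.le]
    exact integral_integral_swap hprod
  rw [h3]
  obtain ⟨M, hM⟩ : ∃ M : ℝ, M = ∫ u in (0:ℝ)..(V + δ), bs δ (sy s) u := ⟨_, rfl⟩
  rw [← hM]
  have h4 : ∀ t ∈ Icc 0 δ, ∫ v in (0:ℝ)..V, bs δ (sy s) (v + t) ≤ M := by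
    intro t ht
    rw [intervalIntegral.integral_comp_add_right (fun u => bs δ (sy s) u) t, zero_add, hM]
    refine intervalIntegral.integral_mono_interval ht.1 (by linarith) (by linarith [ht.2])
      (ae_of_all _ fun v => bs_nonneg _ _ _) (bs_ii _ _ _ _)
  have h5 : ∫ t in (0:ℝ)..δ, ∫ v in (0:ℝ)..V, bs δ (sy s) (v + t) ≤ ∫ t in (0:ℝ)..δ, M := by
    refine intervalIntegral.integral_mono_on hδ.le ?_ (by simp) h4
    rw [intervalIntegrable_iff_integrableOn_Ioc_of_le hδ.le]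
    have h6 := hprod.integral_prod_right
    refine h6.congr (ae_of_all _ fun t => ?_)
    simp only [Function.uncurry]
    rw [intervalIntegral.integral_of_le hV.le]
  rw [intervalIntegral.integral_const, sub_zero, smul_eq_mul] at h5
  exact h5

end Pool.Agent.X113.LI
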