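import Pool.Agent.X113.LI6

set_option autoImplicit false

/-! # The exponential mean of the averaged function -/

open Filter Topology MeasureTheory Set

namespace Pool.Agent.X113.LI

open Pool.Agent.X83.VP (SqI fv CC fv_meas CC_ne)
open Pool.Agent.X113.ES (mz mz_one uu uu_eq uu_nonneg)
open Pool.Agent.W120.WM (NT)
open Pool.Agent.TH223.AP (mn)

theorem phi_one {K x y : ℝ} (hK : 0 < K) (hxy : x ≤ y) :
    min (Real.exp y) K - min (Real.exp x) K ≤ K * (y - x) := by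
  rcases le_or_gt K (Real.exp x) with h | h
  · rw [min_eq_right h, min_eq_right (h.trans (Real.exp_le_exp.2 hxy)), sub_self]
    exact mul_nonneg hK.le (by linarith)
  · rw [min_eq_left h.le]
    rcases le_or_gt K (Real.exp y) with h2 | h2
    · rw [min_eq_right h2]
      have h3 : x < Real.log K := (Real.lt_log_iff_exp_lt hK).2 h
      have h4 : Real.log K ≤ y := (Real.log_le_iff_le_exp hK).2 h2
      have h5 := Real.add_one_le_exp (x - Real.log K)
      have h6 : Real.exp x = K * Real.exp (x - Real.log K) := by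
        rw [Real.exp_sub, Real.exp_log hK]; field_simp
      rw [h6]
      nlinarith
    · rw [min_eq_left h2.le]
      have h5 := Real.add_one_le_exp (x - y)
      have h6 : Real.exp x = Real.exp y * Real.exp (x - y) := by rw [← Real.exp_add]; congr 1; ring
      have h7 := Real.exp_pos y
      rw [h6]
      have h8 : Real.exp y * (y - x) ≤ K * (y - x) := mul_le_mul_of_nonneg_right h2.le (by linarith)
      nlinarith

theorem phi_lip {K : ℝ} (hK : 0 < K) (x y : ℝ) :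
    |min (Real.exp x) K - min (Real.exp y) K| ≤ K * |x - y| := by
  rcases le_total x y with h | h
  · rw [abs_sub_comm, abs_sub_comm x y, abs_of_nonneg (sub_nonneg.2 h),
      abs_of_nonneg (sub_nonneg.2 (min_le_min_right K (Real.exp_le_exp.2 h)))]
    exact phi_one hK h
  · rw [abs_of_nonneg (sub_nonneg.2 h),
      abs_of_nonneg (sub_nonneg.2 (min_le_min_right K (Real.exp_le_exp.2 h)))]
    exact phi_one hK h

theorem am_pos {δ : ℝ} (hδ : 0 < δ) (γ : Gp) : 0 < am δ γ := by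
  unfold am al
  have h1 : (⟨1 / 2, (γ : ℝ)⟩ : ℂ) ∈ NT := ⟨γ.2.2, by norm_num, by norm_num⟩
  have h2 : (1 : ℝ) ≤ mz (⟨1 / 2, (γ : ℝ)⟩ : ℂ) := by exact_mod_cast mz_one h1
  have h3 : 0 < ‖CC δ (⟨1 / 2, (γ : ℝ)⟩ : ℂ)‖ := norm_pos_iff.2 (CC_ne hδ (by norm_num))
  have h4 : (0 : ℝ) < mz (⟨1 / 2, (γ : ℝ)⟩ : ℂ) := by linarith
  positivity

theorem am_summ (RH : RiemannHypothesis) {δ : ℝ} (hδ : 0 < δ) (hδ2 : δ ≤ Real.log 2) :
    Summable (am δ) := by
  obtain ⟨hs, -⟩ := lap_fv_sq RH hδ hδ2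
  obtain ⟨j, hj⟩ : ∃ j : Gp → NT, ∀ γ, (j γ : ℂ) = (⟨1 / 2, (γ : ℝ)⟩ : ℂ) :=
    ⟨fun γ => ⟨⟨1 / 2, (γ : ℝ)⟩, γ.2.2, by norm_num, by norm_num⟩, fun _ => rfl⟩
  have hinj : Function.Injective j := by
    intro a b h
    have h1 := congrArg (fun ρ : NT => (ρ : ℂ).im) h
    simp only [hj] at h1
    exact Subtype.ext h1
  refine Summable.of_nonneg_of_le (fun γ => (am_pos hδ γ).le) (fun γ => ?_)
    ((hs.comp_injective hinj).mul_left 2)
  simp only [Function.comp]
  rw [hj, ← uu_eq]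
  unfold am al
  have h1 : (⟨1 / 2, (γ : ℝ)⟩ : ℂ) ∈ NT := ⟨γ.2.2, by norm_num, by norm_num⟩
  have h2 : (1 : ℝ) ≤ mz (⟨1 / 2, (γ : ℝ)⟩ : ℂ) := by exact_mod_cast mz_one h1
  rw [norm_mul, mul_pow, Complex.norm_natCast]
  obtain ⟨q, hq⟩ : ∃ q : ℝ, q = ‖CC δ (⟨1 / 2, (γ : ℝ)⟩ : ℂ)‖ ^ 2 := ⟨_, rfl⟩
  have hq0 : 0 ≤ q := by rw [hq]; positivity
  obtain ⟨n, hn⟩ : ∃ n : ℝ, n = mz (⟨1 / 2, (γ : ℝ)⟩ : ℂ) := ⟨_, rfl⟩
  rw [← hq, ← hn]
  rw [← hn] at h2
  have h3 : Real.exp (-(δ / 2)) ≤ 1 := Real.exp_le_one_iff.2 (by linarith)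
  have h4 := Real.exp_pos (-(δ / 2))
  have h5 : n * q ≤ n ^ 2 * q := mul_le_mul_of_nonneg_right (by nlinarith) hq0
  have h6 : Real.exp (-(δ / 2)) * (n * q) ≤ 1 * (n * q) :=
    mul_le_mul_of_nonneg_right h3 (by positivity)
  linarith

theorem FF_smul {Γ : Set ℝ} (a : Γ → ℝ) (lam : ℝ) (s : Finset Γ) (v : ℝ) :
    FF (fun γ => lam * a γ) s v = lam * FF a s v := by
  unfold FF
  rw [Finset.mul_sum]
  exact Finset.sum_congr rfl fun γ _ => by ring

/-- **the exponential mean** -/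
theorem lim_exp (RH : RiemannHypothesis) {δ : ℝ} (hδ : 0 < δ) (hδ2 : δ ≤ Real.log 2) {lam K : ℝ}
    (hlam : 0 < lam) (hK : Real.exp (lam * ∑' γ, am δ γ) ≤ K) {l : ℝ}
    (hl : Tendsto (Mf fun γ => lam * am δ γ) atTop (𝓝 l)) :
    Tendsto (mn fun v => min (Real.exp (-(lam * Ak δ v))) K) atTop (𝓝 l) := by
  have hK0 : 0 < K := (Real.exp_pos _).trans_le hK
  have ham : ∀ γ, 0 ≤ am δ γ := fun γ => (am_pos hδ γ).le
  have hla : ∀ γ, 0 ≤ lam * am δ γ := fun γ => mul_nonneg hlam.le (ham γ)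
  have hsum := am_summ RH hδ hδ2
  rw [Metric.tendsto_nhds]
  intro ε hε
  obtain ⟨η, hη⟩ : ∃ η : ℝ, η = ε / (4 * (K * lam + 1)) := ⟨_, rfl⟩
  have hη0 : 0 < η := by rw [hη]; positivity
  have hKη : K * lam * η ≤ ε / 4 := by
    rw [hη, mul_div_assoc', div_le_div_iff₀ (by positivity) (by norm_num)]
    nlinarith [mul_pos hK0 hlam]
  obtain ⟨s, hs1, hs2⟩ := ((tail_small RH hδ hδ2 (ε := η ^ 2 / (2 * δ ^ 2)) (by positivity)).and
    (Metric.tendsto_nhds.1 hl (ε / 4) (by positivity))).exists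
  have hb := b2 RH hδ hδ2 (sy s) fun γ hγ => sy_zero hγ
  obtain ⟨τ, hτ⟩ : ∃ τ : ℝ, τ = (∑' ρ : NT, uu δ ρ) - ∑ γ ∈ sy s, ‖cf δ γ‖ ^ 2 := ⟨_, rfl⟩
  rw [← hτ] at hs1 hb
  -- the mean square of the difference
  have hsh : Tendsto (fun V : ℝ => V + δ) atTop atTop := tendsto_atTop_add_const_right _ _ tendsto_id
  have h1 : Tendsto (fun V : ℝ => δ ^ 2 * (mn (bs δ (sy s)) (V + δ) * (1 + δ / V))) atTop
      (𝓝 (δ ^ 2 * (τ * (1 + 0)))) :=
    ((hb.comp hsh).mul ((tendsto_const_nhds (x := δ)).div_atTop tendsto_id |>.const_add 1)).const_mul _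
  rw [add_zero, mul_one] at h1
  have h2 : δ ^ 2 * τ < η ^ 2 := by
    have h3 : δ ^ 2 * τ < δ ^ 2 * (η ^ 2 / (2 * δ ^ 2)) := mul_lt_mul_of_pos_left hs1 (by positivity)
    have h4 : δ ^ 2 * (η ^ 2 / (2 * δ ^ 2)) = η ^ 2 / 2 := by field_simp
    rw [h4] at h3
    have : 0 < η ^ 2 := by positivity
    linarith
  have h5 := Mf_real hla s δ
  filter_upwards [h1.eventually (gt_mem_nhds h2), Metric.tendsto_nhds.1 h5 (ε / 4) (by positivity),
    eventually_gt_atTop (0:ℝ)] with V g1 g2 hV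
  obtain ⟨D, hD⟩ : ∃ D : ℝ → ℝ, ∀ v, D v = Ak δ v + FF (am δ) s (v + δ) := ⟨_, fun _ => rfl⟩
  have hFc : Continuous fun v : ℝ => FF (am δ) s (v + δ) := (FF_cont _ _).comp (continuous_id.add continuous_const)
  have hDc : Continuous D := by
    have : D = fun v => Ak δ v + FF (am δ) s (v + δ) := funext hD
    rw [this]
    exact (Ak_cont δ).add hFc
  have g3 : ∫ v in (0:ℝ)..V, D v ^ 2 ≤ V * η ^ 2 := by
    have h6 := diff_mean hδ s hV
    simp only [← hD] at h6
    refine h6.trans ?_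
    have h7 : δ ^ 2 * ∫ u in (0:ℝ)..(V + δ), bs δ (sy s) u =
        V * (δ ^ 2 * (mn (bs δ (sy s)) (V + δ) * (1 + δ / V))) := by
      unfold Pool.Agent.TH223.AP.mn
      have : V + δ ≠ 0 := by positivity
      field_simp
    rw [h7]
    exact mul_le_mul_of_nonneg_left g1.le hV.le
  have hφ1 : Continuous fun v : ℝ => min (Real.exp (-(lam * Ak δ v))) K :=
    (Real.continuous_exp.comp ((continuous_const.mul (Ak_cont δ)).neg)).min continuous_const
  have hφ2 : Continuous fun v : ℝ => Real.exp (FF (fun γ => lam * am δ γ) s (v + δ)) :=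
    Real.continuous_exp.comp ((FF_cont _ _).comp (continuous_id.add continuous_const))
  have hpt : ∀ v, |min (Real.exp (-(lam * Ak δ v))) K - Real.exp (FF (fun γ => lam * am δ γ) s (v + δ))| ≤
      K * lam * (η / 2 + D v ^ 2 / (2 * η)) := by
    intro v
    have e1 : Real.exp (FF (fun γ => lam * am δ γ) s (v + δ)) =
        min (Real.exp (lam * FF (am δ) s (v + δ))) K := by
      rw [FF_smul, min_eq_left]
      refine le_trans (Real.exp_le_exp.2 (mul_le_mul_of_nonneg_left ?_ hlam.le)) hK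
      exact (le_abs_self _).trans (FF_le ham hsum s _)
    rw [e1]
    refine (phi_lip hK0 _ _).trans ?_
    have e2 : -(lam * Ak δ v) - lam * FF (am δ) s (v + δ) = -(lam * D v) := by rw [hD]; ring
    rw [e2, abs_neg, abs_mul, abs_of_pos hlam, ← mul_assoc]
    refine mul_le_mul_of_nonneg_left ?_ (by positivity)
    have e3 : η / 2 + D v ^ 2 / (2 * η) - |D v| = (η - |D v|) ^ 2 / (2 * η) := by
      rw [sub_sq, sq_abs]
      field_simp
      ring
    have e4 : 0 ≤ (η - |D v|) ^ 2 / (2 * η) := by positivity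
    linarith
  have g4 : |mn (fun v => min (Real.exp (-(lam * Ak δ v))) K) V -
      (∫ v in (0:ℝ)..V, Real.exp (FF (fun γ => lam * am δ γ) s (v + δ))) / V| ≤ ε / 4 := by
    unfold Pool.Agent.TH223.AP.mn
    rw [← sub_div, abs_div, abs_of_pos hV, div_le_iff₀ hV,
      ← intervalIntegral.integral_sub (hφ1.intervalIntegrable _ _) (hφ2.intervalIntegrable _ _)]
    have h6 : |∫ v in (0:ℝ)..V, (min (Real.exp (-(lam * Ak δ v))) K -
        Real.exp (FF (fun γ => lam * am δ γ) s (v + δ)))| ≤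
        ∫ v in (0:ℝ)..V, K * lam * (η / 2 + D v ^ 2 / (2 * η)) := by
      rw [← Real.norm_eq_abs]
      refine intervalIntegral.norm_integral_le_of_norm_le hV.le (ae_of_all _ fun v _ => ?_) ?_
      · rw [Real.norm_eq_abs]; exact hpt v
      · exact (by fun_prop : Continuous fun v => K * lam * (η / 2 + D v ^ 2 / (2 * η))).intervalIntegrable _ _
    refine h6.trans ?_
    rw [intervalIntegral.integral_const_mul, intervalIntegral.integral_add intervalIntegrable_const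
      ((by fun_prop : Continuous fun v => D v ^ 2 / (2 * η)).intervalIntegrable _ _),
      intervalIntegral.integral_const, intervalIntegral.integral_div, smul_eq_mul, sub_zero]
    have h8 : (∫ v in (0:ℝ)..V, D v ^ 2) / (2 * η) ≤ V * (η / 2) := by
      rw [div_le_iff₀ (by positivity)]
      refine g3.trans (le_of_eq ?_)
      ring
    have h9 : K * lam * (V * (η / 2) + (∫ v in (0:ℝ)..V, D v ^ 2) / (2 * η)) ≤ K * lam * (V * η) :=
      mul_le_mul_of_nonneg_left (by linarith) (by positivity)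
    refine h9.trans ?_
    nlinarith
  rw [Real.dist_eq] at g2 hs2 ⊢
  rw [abs_le] at g4
  rw [abs_lt] at g2 hs2 ⊢
  constructor <;> linarith [g4.1, g4.2, g2.1, g2.2, hs2.1, hs2.2]

end Pool.Agent.X113.LI
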