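import Pool.Agent.H448R2.GC.SV

/-! Proportional windows against the logarithmic average of the variance. -/

set_option autoImplicit false

open MeasureTheory Filter Set

namespace Pool.Agent.X113.LV

open Pool.Agent.H448R2.GC.SV (lint_scale exp_bound)

/-- the mean square of `M(x+H/2) - M(x-H/2)` over `X < x ≤ 2X`, divided by `H ^ 2 X` -/
noncomputable def vt (M : ℝ → ℝ) (X H : ℝ) : ENNReal :=
  ENNReal.ofReal (1 / (H ^ 2 * X ^ 2)) *
    ∫⁻ x in Ioc X (2 * X), ENNReal.ofReal ((M (x + H / 2) - M (x - H / 2)) ^ 2)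

/-- the average over `X` in `s` and `H` between `X / (16 T)` and `4 X / T` -/
noncomputable def ww (M : ℝ → ℝ) (T : ℝ) (s : Set ℝ) : ENNReal :=
  ∫⁻ X in s, ∫⁻ H in Icc (X / (16 * T)) (4 * X / T), vt M X H

/-- The integrand, `p = (h, x)`. -/
noncomputable def ff (M : ℝ → ℝ) (c d : ℝ) (p : ℝ × ℝ) : ENNReal :=
  ENNReal.ofReal ((M (c * p.2 + p.1) - M (d * p.2)) ^ 2)

theorem meas_ff {M : ℝ → ℝ} (hM : Measurable M) (c d : ℝ) : Measurable (ff M c d) := by
  apply ENNReal.measurable_ofReal.comp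
  apply Measurable.pow_const
  exact (hM.comp ((measurable_snd.const_mul c).add measurable_fst)).sub
    (hM.comp (measurable_snd.const_mul d))

theorem meas_ff_right {M : ℝ → ℝ} (hM : Measurable M) (c d h : ℝ) :
    Measurable fun x => ff M c d (h, x) := by
  apply ENNReal.measurable_ofReal.comp
  apply Measurable.pow_const
  exact (hM.comp ((measurable_id.const_mul c).add_const h)).sub
    (hM.comp (measurable_id.const_mul d))

/-- averaging over the windows of fixed length -/
theorem avg_step {M : ℝ → ℝ} (hM : Measurable M) {T X : ℝ} (hT : 1 ≤ T) (hX0 : 0 < X) {u v : ℝ}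
    (hu : 1 ≤ u) (huv : u ≤ v) (hv : v ≤ Real.exp (1 / (8 * T))) :
    ∫⁻ x in Ioc X (2 * X), ENNReal.ofReal ((M (v * x) - M (u * x)) ^ 2) ≤
      ENNReal.ofReal (4 * T / X) * ∫⁻ h in Ioc (X / (2 * T)) (2 * X / T),
        ∫⁻ y in Ioc X (4 * X), ENNReal.ofReal ((M (y + h) - M y) ^ 2) := by
  have hT0 : 0 < T := by linarith
  have hv' := hv.trans (exp_bound hT)
  have hv1 : 1 ≤ v := hu.trans huv
  have h9 : 9 / (64 * T) ≤ 9 / 64 := by
    apply div_le_div_of_nonneg_left (by norm_num) (by norm_num) (by linarith)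
  have hv2 : v ≤ 2 := by linarith
  have hu2 : u ≤ 2 := huv.trans hv2
  -- the shift
  have hs : ∀ x ∈ Ioc X (2 * X), 0 ≤ (v - u) * x ∧ (v - u) * x ≤ X / (2 * T) := by
    intro x hx
    have hx0 : 0 < x := hX0.trans hx.1
    refine ⟨mul_nonneg (by linarith) hx0.le, ?_⟩
    calc (v - u) * x ≤ (9 / (64 * T)) * (2 * X) := by
          apply mul_le_mul (by linarith) hx.2 hx0.le (by positivity)
      _ = (9 / 16) * (X / (2 * T)) := by field_simp; norm_num
      _ ≤ X / (2 * T) := by
          have : 0 < X / (2 * T) := by positivity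
          linarith
  set A : ENNReal := ∫⁻ x in Ioc X (2 * X), ENNReal.ofReal ((M (v * x) - M (u * x)) ^ 2)
    with hA
  set Ih : Set ℝ := Ioc (X / T) (2 * X / T) with hIh
  set Jh : Set ℝ := Ioc (X / (2 * T)) (2 * X / T) with hJh
  set K : ENNReal := ∫⁻ h in Jh, ∫⁻ y in Ioc X (4 * X), ENNReal.ofReal ((M (y + h) - M y) ^ 2) with hK
  have volI : volume Ih = ENNReal.ofReal (X / T) := by
    rw [hIh, Real.volume_Ioc]
    congr 1
    ring
  have hIJ : Ih ⊆ Jh := by
    apply Ioc_subset_Ioc _ le_rfl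
    apply div_le_div_of_nonneg_left hX0.le hT0 (by linarith)
  -- first part
  have p1 : ∫⁻ h in Ih, ∫⁻ x in Ioc X (2 * X), ff M u u (h, x) ≤ K := by
    calc ∫⁻ h in Ih, ∫⁻ x in Ioc X (2 * X), ff M u u (h, x)
        ≤ ∫⁻ h in Ih, ∫⁻ y in Ioc X (4 * X), ENNReal.ofReal ((M (y + h) - M y) ^ 2) := by
          refine setLIntegral_mono' measurableSet_Ioc fun h _ => ?_
          exact lint_scale (F := fun y => ENNReal.ofReal ((M (y + h) - M y) ^ 2)) hX0 hu hu2
      _ ≤ K := lintegral_mono_set hIJ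
  -- second part
  have p2 : ∫⁻ h in Ih, ∫⁻ x in Ioc X (2 * X), ff M u v (h, x) ≤ K := by
    have sw1 : ∫⁻ h in Ih, ∫⁻ x in Ioc X (2 * X), ff M u v (h, x) =
        ∫⁻ x in Ioc X (2 * X), ∫⁻ h in Ih, ff M u v (h, x) :=
      lintegral_lintegral_swap (f := fun h x => ff M u v (h, x)) (meas_ff hM u v).aemeasurable
    have sw2 : ∫⁻ h in Jh, ∫⁻ x in Ioc X (2 * X), ff M v v (h, x) =
        ∫⁻ x in Ioc X (2 * X), ∫⁻ h in Jh, ff M v v (h, x) :=
      lintegral_lintegral_swap (f := fun h x => ff M v v (h, x)) (meas_ff hM v v).aemeasurable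
    calc ∫⁻ h in Ih, ∫⁻ x in Ioc X (2 * X), ff M u v (h, x)
        = ∫⁻ x in Ioc X (2 * X), ∫⁻ h in Ih, ff M u v (h, x) := sw1
      _ ≤ ∫⁻ x in Ioc X (2 * X), ∫⁻ h in Jh, ff M v v (h, x) := by
          apply setLIntegral_mono' measurableSet_Ioc
          intro x hx
          obtain ⟨hs0, hs1⟩ := hs x hx
          have hmp : MeasurePreserving (fun h : ℝ => h + (v - u) * x) volume volume :=
            measurePreserving_add_right volume _
          have hemb : MeasurableEmbedding (fun h : ℝ => h + (v - u) * x) :=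
            (MeasurableEquiv.addRight ((v - u) * x)).measurableEmbedding
          have h4 := hmp.setLIntegral_comp_preimage_emb hemb (fun h => ff M u v (h, x)) Ih
          rw [← h4]
          have h5 : ∀ h : ℝ, ff M u v (h + (v - u) * x, x) = ff M v v (h, x) := by
            intro h
            unfold ff
            simp only
            congr 4
            ring
          simp_rw [h5]
          apply lintegral_mono_set
          intro h hh
          simp only [hIh, mem_preimage, mem_Ioc] at hh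
          rw [hJh, mem_Ioc]
          constructor
          · have : X / T = X / (2 * T) + X / (2 * T) := by ring
            linarith [hh.1]
          · linarith [hh.2]
      _ = ∫⁻ h in Jh, ∫⁻ x in Ioc X (2 * X), ff M v v (h, x) := sw2.symm
      _ ≤ K := by
          refine setLIntegral_mono' measurableSet_Ioc fun h _ => ?_
          exact lint_scale (F := fun y => ENNReal.ofReal ((M (y + h) - M y) ^ 2)) hX0 hv1 hv2
  -- averaging
  have q1 : Measurable fun h : ℝ => ∫⁻ x in Ioc X (2 * X), ff M u u (h, x) :=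
    Measurable.lintegral_prod_right' (f := ff M u u) (meas_ff hM u u)
  have q2 : Measurable fun h : ℝ => ∫⁻ x in Ioc X (2 * X), ff M u v (h, x) :=
    Measurable.lintegral_prod_right' (f := ff M u v) (meas_ff hM u v)
  have pt : ∀ h : ℝ, A ≤ 2 * (∫⁻ x in Ioc X (2 * X), ff M u u (h, x)) +
      2 * ∫⁻ x in Ioc X (2 * X), ff M u v (h, x) := by
    intro h
    rw [← lintegral_const_mul _ (meas_ff_right hM u u h), ← lintegral_const_mul _
      (meas_ff_right hM u v h), ← lintegral_add_left ((meas_ff_right hM u u h).const_mul 2), hA]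
    apply lintegral_mono
    intro x
    have e2 : (2 : ENNReal) = ENNReal.ofReal 2 := by simp
    unfold ff
    simp only
    rw [e2, ← ENNReal.ofReal_mul (by norm_num), ← ENNReal.ofReal_mul (by norm_num),
      ← ENNReal.ofReal_add (by positivity) (by positivity)]
    apply ENNReal.ofReal_le_ofReal
    nlinarith [sq_nonneg ((M (u * x + h) - M (u * x)) + (M (u * x + h) - M (v * x)))]
  have p3 : volume Ih * A ≤ 4 * K := by
    calc volume Ih * A = ∫⁻ _h in Ih, A := by rw [setLIntegral_const, mul_comm]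
      _ ≤ ∫⁻ h in Ih, (2 * (∫⁻ x in Ioc X (2 * X), ff M u u (h, x)) +
          2 * ∫⁻ x in Ioc X (2 * X), ff M u v (h, x)) := lintegral_mono pt
      _ = 2 * (∫⁻ h in Ih, ∫⁻ x in Ioc X (2 * X), ff M u u (h, x)) +
          2 * ∫⁻ h in Ih, ∫⁻ x in Ioc X (2 * X), ff M u v (h, x) := by
          rw [lintegral_add_left (q1.const_mul 2), lintegral_const_mul _ q1,
            lintegral_const_mul _ q2]
      _ ≤ 2 * K + 2 * K := add_le_add (mul_le_mul' le_rfl p1) (mul_le_mul' le_rfl p2)
      _ = 4 * K := by rw [← add_mul]; norm_num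
  have hXT : 0 < X / T := by positivity
  have hne : volume Ih ≠ 0 := by
    rw [volI]
    exact (ENNReal.ofReal_pos.2 hXT).ne'
  have hnt : volume Ih ≠ ⊤ := by rw [volI]; exact ENNReal.ofReal_ne_top
  apply (ENNReal.mul_le_mul_iff_right hne hnt).1
  refine p3.trans (le_of_eq ?_)
  rw [volI, ← mul_assoc, ← ENNReal.ofReal_mul hXT.le]
  have : X / T * (4 * T / X) = 4 := by field_simp
  rw [this]
  norm_num

/-- the region of integration as an indicator -/
noncomputable def kf (M : ℝ → ℝ) (p : (ℝ × ℝ) × ℝ) : ENNReal :=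
  {q : (ℝ × ℝ) × ℝ | q.1.1 < q.2 ∧ q.2 ≤ 2 * q.1.1}.indicator
    (fun q => ENNReal.ofReal ((M (q.2 + q.1.2 / 2) - M (q.2 - q.1.2 / 2)) ^ 2)) p

theorem meas_kf {M : ℝ → ℝ} (hM : Measurable M) : Measurable (kf M) := by
  apply Measurable.indicator
  · apply Measurable.ennreal_ofReal
    apply Measurable.pow_const
    exact (hM.comp (measurable_snd.add (measurable_fst.snd.div_const 2))).sub
      (hM.comp (measurable_snd.sub (measurable_fst.snd.div_const 2)))
  · exact (measurableSet_lt measurable_fst.fst measurable_snd).inter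
      (measurableSet_le measurable_snd (measurable_fst.fst.const_mul 2))

theorem kf_eq (M : ℝ → ℝ) (X H : ℝ) : ∫⁻ x, kf M ((X, H), x) =
    ∫⁻ x in Ioc X (2 * X), ENNReal.ofReal ((M (x + H / 2) - M (x - H / 2)) ^ 2) := by
  rw [← lintegral_indicator measurableSet_Ioc]
  rfl

theorem meas_in {M : ℝ → ℝ} (hM : Measurable M) : Measurable (fun p : ℝ × ℝ =>
    ∫⁻ x in Ioc p.1 (2 * p.1), ENNReal.ofReal ((M (x + p.2 / 2) - M (x - p.2 / 2)) ^ 2)) := by
  have h := Measurable.lintegral_prod_right' (ν := volume) (meas_kf hM)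
  have e : (fun p : ℝ × ℝ =>
      ∫⁻ x in Ioc p.1 (2 * p.1), ENNReal.ofReal ((M (x + p.2 / 2) - M (x - p.2 / 2)) ^ 2)) =
      fun p : ℝ × ℝ => ∫⁻ x, kf M (p, x) := funext fun p => (kf_eq M p.1 p.2).symm
  rw [e]
  exact h

theorem meas_vt {M : ℝ → ℝ} (hM : Measurable M) : Measurable (fun p : ℝ × ℝ => vt M p.1 p.2) := by
  unfold vt
  refine Measurable.fun_mul ?_ (meas_in hM)
  apply Measurable.ennreal_ofReal
  fun_prop

/-- a window of fixed length against the average -/
theorem cover_x {M : ℝ → ℝ} (hM : Measurable M) {X h : ℝ} (hX : 0 < X) (h0 : 0 < h) (hh : h ≤ 2 * X) :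
    ∫⁻ y in Ioc X (4 * X), ENNReal.ofReal ((M (y + h) - M y) ^ 2) ≤
      2 * ∫⁻ X' in Ioc (X / 2) (8 * X), ENNReal.ofReal (1 / X') * ∫⁻ x, kf M ((X', h), x) := by
  set G : ℝ → ENNReal := fun x => ENNReal.ofReal ((M (x + h / 2) - M (x - h / 2)) ^ 2) with hG
  have hGm : Measurable G := by
    apply Measurable.ennreal_ofReal
    apply Measurable.pow_const
    exact (hM.comp (measurable_id.add_const _)).sub (hM.comp (measurable_id.sub_const _))
  have e1 : ∫⁻ y in Ioc X (4 * X), ENNReal.ofReal ((M (y + h) - M y) ^ 2) ≤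
      ∫⁻ x in Ioc X (5 * X), G x := by
    have hmp : MeasurePreserving (fun y : ℝ => y + h / 2) volume volume :=
      measurePreserving_add_right volume (h / 2)
    have hemb : MeasurableEmbedding (fun y : ℝ => y + h / 2) :=
      (MeasurableEquiv.addRight (h / 2)).measurableEmbedding
    have h1 := hmp.setLIntegral_comp_preimage_emb hemb G (Ioc (X + h / 2) (4 * X + h / 2))
    have hpre : (fun y : ℝ => y + h / 2) ⁻¹' Ioc (X + h / 2) (4 * X + h / 2) = Ioc X (4 * X) := by
      ext y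
      simp
    rw [hpre] at h1
    calc ∫⁻ y in Ioc X (4 * X), ENNReal.ofReal ((M (y + h) - M y) ^ 2)
        = ∫⁻ y in Ioc X (4 * X), G (y + h / 2) := by
          apply lintegral_congr
          intro y
          rw [hG]
          simp only
          congr 4 <;> ring_nf
      _ = ∫⁻ x in Ioc (X + h / 2) (4 * X + h / 2), G x := h1
      _ ≤ ∫⁻ x in Ioc X (5 * X), G x := by
          apply lintegral_mono_set
          apply Ioc_subset_Ioc <;> linarith
  refine e1.trans ?_
  have hsw : ∫⁻ X' in Ioc (X / 2) (8 * X), ENNReal.ofReal (1 / X') * ∫⁻ x, kf M ((X', h), x) =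
      ∫⁻ x, ∫⁻ X' in Ioc (X / 2) (8 * X), ENNReal.ofReal (1 / X') * kf M ((X', h), x) := by
    have hm : Measurable (fun q : ℝ × ℝ => ENNReal.ofReal (1 / q.1) * kf M ((q.1, h), q.2)) := by
      refine Measurable.fun_mul (by fun_prop) ?_
      exact (meas_kf hM).comp ((measurable_fst.prodMk measurable_const).prodMk measurable_snd)
    rw [← lintegral_lintegral_swap (f := fun X' x => ENNReal.ofReal (1 / X') * kf M ((X', h), x))
      hm.aemeasurable]
    apply lintegral_congr
    intro X'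
    rw [lintegral_const_mul]
    exact (meas_kf hM).comp (measurable_const.prodMk measurable_id)
  rw [hsw, ← lintegral_const_mul' _ _ (by norm_num)]
  calc ∫⁻ x in Ioc X (5 * X), G x
      ≤ ∫⁻ x in Ioc X (5 * X), 2 * ∫⁻ X' in Ioc (X / 2) (8 * X), ENNReal.ofReal (1 / X') *
          kf M ((X', h), x) := by
        refine setLIntegral_mono' measurableSet_Ioc fun x hx => ?_
        have hx0 : 0 < x := hX.trans hx.1
        have hsub : Ico (x / 2) x ⊆ Ioc (X / 2) (8 * X) := by
          intro z hz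
          exact ⟨by linarith [hz.1, hx.1], by linarith [hz.2, hx.2]⟩
        calc G x = 2 * (ENNReal.ofReal (1 / x) * G x * ENNReal.ofReal (x / 2)) := by
              rw [mul_comm (ENNReal.ofReal (1 / x)) (G x), mul_assoc, ← ENNReal.ofReal_mul (by positivity)]
              have : 1 / x * (x / 2) = 1 / 2 := by field_simp
              rw [this, mul_comm (G x), ← mul_assoc]
              have e2 : (2 : ENNReal) = ENNReal.ofReal 2 := by simp
              rw [e2, ← ENNReal.ofReal_mul (by norm_num)]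
              norm_num
          _ = 2 * ∫⁻ _X' in Ico (x / 2) x, ENNReal.ofReal (1 / x) * G x := by
              rw [setLIntegral_const, Real.volume_Ico]
              congr 3
              ring
          _ ≤ 2 * ∫⁻ X' in Ico (x / 2) x, ENNReal.ofReal (1 / X') * kf M ((X', h), x) := by
              refine mul_le_mul_right ?_ _
              refine setLIntegral_mono' measurableSet_Ico fun z hz => ?_
              have hz0 : 0 < z := by linarith [hz.1]
              refine mul_le_mul' ?_ (le_of_eq ?_)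
              · apply ENNReal.ofReal_le_ofReal
                exact one_div_le_one_div_of_le hz0 hz.2.le
              · unfold kf
                rw [Set.indicator_of_mem]
                exact ⟨hz.2, by linarith [hz.1]⟩
          _ ≤ _ := mul_le_mul_right (lintegral_mono_set hsub) _
    _ ≤ _ := setLIntegral_le_lintegral _ _

theorem avg_cover {M : ℝ → ℝ} (hM : Measurable M) {T X : ℝ} (hT : 1 ≤ T) (hX : 0 < X) :
    ∫⁻ h in Ioc (X / (2 * T)) (2 * X / T), ∫⁻ y in Ioc X (4 * X), ENNReal.ofReal ((M (y + h) - M y) ^ 2) ≤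
      ENNReal.ofReal (64 * X ^ 3 / T ^ 2) * ww M T (Ioc (X / 2) (8 * X)) := by
  have hT0 : 0 < T := by linarith
  have hm : Measurable (fun q : ℝ × ℝ => ENNReal.ofReal (1 / q.2) * ∫⁻ x, kf M ((q.2, q.1), x)) := by
    refine Measurable.fun_mul (by fun_prop) ?_
    exact (Measurable.lintegral_prod_right' (ν := volume) (meas_kf hM)).comp
      (measurable_snd.prodMk measurable_fst)
  calc ∫⁻ h in Ioc (X / (2 * T)) (2 * X / T), ∫⁻ y in Ioc X (4 * X), ENNReal.ofReal ((M (y + h) - M y) ^ 2)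
      ≤ ∫⁻ h in Ioc (X / (2 * T)) (2 * X / T), 2 * ∫⁻ X' in Ioc (X / 2) (8 * X),
          ENNReal.ofReal (1 / X') * ∫⁻ x, kf M ((X', h), x) := by
        refine setLIntegral_mono' measurableSet_Ioc fun h hh => ?_
        have h0 : 0 < h := lt_of_le_of_lt (by positivity) hh.1
        refine cover_x hM hX h0 (hh.2.trans ?_)
        rw [div_le_iff₀ hT0]
        nlinarith
    _ = 2 * ∫⁻ X' in Ioc (X / 2) (8 * X), ∫⁻ h in Ioc (X / (2 * T)) (2 * X / T),
          ENNReal.ofReal (1 / X') * ∫⁻ x, kf M ((X', h), x) := by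
        rw [lintegral_const_mul' _ _ (by norm_num)]
        congr 1
        exact lintegral_lintegral_swap (f := fun h X' => ENNReal.ofReal (1 / X') *
          ∫⁻ x, kf M ((X', h), x)) hm.aemeasurable
    _ ≤ 2 * ∫⁻ X' in Ioc (X / 2) (8 * X), ENNReal.ofReal (32 * X ^ 3 / T ^ 2) *
          ∫⁻ h in Icc (X' / (16 * T)) (4 * X' / T), vt M X' h := by
        refine mul_le_mul_right ?_ _
        refine setLIntegral_mono' measurableSet_Ioc fun X' hX' => ?_
        have hX'0 : 0 < X' := lt_of_le_of_lt (by positivity) hX'.1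
        rw [← lintegral_const_mul' _ _ ENNReal.ofReal_ne_top]
        calc ∫⁻ h in Ioc (X / (2 * T)) (2 * X / T), ENNReal.ofReal (1 / X') * ∫⁻ x, kf M ((X', h), x)
            ≤ ∫⁻ h in Ioc (X / (2 * T)) (2 * X / T), ENNReal.ofReal (32 * X ^ 3 / T ^ 2) * vt M X' h := by
              refine setLIntegral_mono' measurableSet_Ioc fun h hh => ?_
              have h0 : 0 < h := lt_of_le_of_lt (by positivity) hh.1
              unfold vt
              rw [kf_eq, ← mul_assoc, ← ENNReal.ofReal_mul (by positivity)]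
              refine mul_le_mul' (ENNReal.ofReal_le_ofReal ?_) le_rfl
              have h1 : h ^ 2 ≤ (2 * X / T) ^ 2 := pow_le_pow_left₀ h0.le hh.2 2
              have h2 : h ^ 2 * X' ≤ (2 * X / T) ^ 2 * (8 * X) :=
                mul_le_mul h1 hX'.2 hX'0.le (by positivity)
              have h3 : (2 * X / T) ^ 2 * (8 * X) = 32 * X ^ 3 / T ^ 2 := by
                rw [div_pow]; ring
              rw [h3] at h2
              rw [mul_one_div, div_le_div_iff₀ hX'0 (by positivity), one_mul]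
              calc h ^ 2 * X' ^ 2 = (h ^ 2 * X') * X' := by ring
                _ ≤ (32 * X ^ 3 / T ^ 2) * X' := mul_le_mul_of_nonneg_right h2 hX'0.le
          _ ≤ _ := by
              apply lintegral_mono_set
              intro h hh
              constructor
              · refine le_trans ?_ hh.1.le
                rw [div_le_div_iff₀ (by positivity) (by positivity)]
                nlinarith [hX'.2]
              · refine hh.2.trans ?_
                apply div_le_div_of_nonneg_right _ hT0.le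
                linarith [hX'.1]
    _ = _ := by
        rw [lintegral_const_mul' _ _ ENNReal.ofReal_ne_top, ← mul_assoc]
        unfold ww
        have e2 : (2 : ENNReal) = ENNReal.ofReal 2 := by simp
        rw [e2, ← ENNReal.ofReal_mul (by norm_num)]
        congr 2
        ring

/-- the mean square of the differences in proportional windows against the average -/
theorem dd_bound {M : ℝ → ℝ} (hM : Measurable M) {T X v : ℝ} (hT : 1 ≤ T) (hX : 0 < X)
    (h1v : 1 ≤ v) (hv : v ≤ Real.exp (1 / (8 * T))) :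
    ∫⁻ x in Ioc X (2 * X), ENNReal.ofReal ((M (v * x) - M x) ^ 2) ≤
      ENNReal.ofReal (256 * X ^ 2 / T) * ww M T (Ioc (X / 2) (8 * X)) := by
  have hT0 : 0 < T := by linarith
  have h1 := avg_step hM hT hX le_rfl h1v hv
  simp only [one_mul] at h1
  refine h1.trans ?_
  refine (mul_le_mul_right (avg_cover hM hT hX) _).trans (le_of_eq ?_)
  rw [← mul_assoc, ← ENNReal.ofReal_mul (by positivity)]
  congr 2
  field_simp
  norm_num

theorem dy_union (g : ℝ → ENNReal) {Y : ℝ} (hY : 0 < Y) (n : ℕ) :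
    ∑ i ∈ Finset.range n, ∫⁻ x in Ioc (2 ^ i * Y / 2) (2 ^ i * Y), g x =
      ∫⁻ x in Ioc (Y / 2) (2 ^ n * Y / 2), g x := by
  induction n with
  | zero => simp
  | succ n ih =>
    have h1 : (1 : ℝ) ≤ 2 ^ n := one_le_pow₀ (by norm_num)
    have h2 : Y / 2 ≤ 2 ^ n * Y / 2 := by nlinarith
    have h3 : 2 ^ n * Y / 2 ≤ 2 ^ n * Y := by
      have : 0 < 2 ^ n * Y := by positivity
      linarith
    have e : 2 ^ (n + 1) * Y / 2 = 2 ^ n * Y := by ring
    rw [Finset.sum_range_succ, ih, e, ← Ioc_union_Ioc_eq_Ioc h2 h3,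
      lintegral_union measurableSet_Ioc (Ioc_disjoint_Ioc_of_le le_rfl)]

/-- the sum over the dyadic ranges -/
theorem ww_sum (M : ℝ → ℝ) (T : ℝ) {Y : ℝ} (hY : 0 < Y) (J : ℕ) :
    ∑ j ∈ Finset.range J, ww M T (Ioc (2 ^ j * Y / 2) (8 * (2 ^ j * Y))) ≤
      4 * ww M T (Ioc (Y / 2) (4 * (2 ^ J * Y))) := by
  set g : ℝ → ENNReal := fun X => ∫⁻ H in Icc (X / (16 * T)) (4 * X / T), vt M X H with hg
  set b : ℕ → ENNReal := fun i => ∫⁻ x in Ioc (2 ^ i * Y / 2) (2 ^ i * Y), g x with hb
  have h1 : ∀ j : ℕ, ww M T (Ioc (2 ^ j * Y / 2) (8 * (2 ^ j * Y))) ≤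
      b (j + 0) + b (j + 1) + b (j + 2) + b (j + 3) := by
    intro j
    have hp : 0 < 2 ^ j * Y := by positivity
    have e0 : 2 ^ (j + 0) * Y = 2 ^ j * Y := by ring
    have e1 : 2 ^ (j + 1) * Y = 2 * (2 ^ j * Y) := by ring
    have e2 : 2 ^ (j + 2) * Y = 4 * (2 ^ j * Y) := by ring
    have e3 : 2 ^ (j + 3) * Y = 8 * (2 ^ j * Y) := by ring
    change ∫⁻ x in _, g x ≤ _
    rw [hb]
    simp only
    rw [e0, e1, e2, e3]
    set z := 2 ^ j * Y with hz
    have hu : Ioc (z / 2) (8 * z) = ((Ioc (z / 2) z ∪ Ioc (2 * z / 2) (2 * z)) ∪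
        Ioc (4 * z / 2) (4 * z)) ∪ Ioc (8 * z / 2) (8 * z) := by
      ext x
      simp only [mem_union, mem_Ioc]
      constructor
      · rintro ⟨h1, h2⟩
        by_cases a1 : x ≤ z
        · left; left; left; exact ⟨h1, a1⟩
        · by_cases a2 : x ≤ 2 * z
          · left; left; right; exact ⟨by linarith, a2⟩
          · by_cases a3 : x ≤ 4 * z
            · left; right; exact ⟨by linarith, a3⟩
            · right; exact ⟨by linarith, h2⟩
      · rintro (((h | h) | h) | h) <;> exact ⟨by linarith [h.1], by linarith [h.2]⟩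
    rw [hu]
    refine (lintegral_union_le _ _ _).trans (add_le_add ?_ le_rfl)
    refine (lintegral_union_le _ _ _).trans (add_le_add ?_ le_rfl)
    exact lintegral_union_le _ _ _
  have h2 : ∀ i : ℕ, i ≤ 3 → ∑ j ∈ Finset.range J, b (j + i) ≤ ∑ j ∈ Finset.range (J + 3), b j := by
    intro i hi
    have e : ∑ j ∈ Finset.range J, b (j + i) = ∑ j ∈ Finset.Ico i (J + i), b j := by
      rw [Finset.range_eq_Ico, Finset.sum_Ico_add', zero_add]
    rw [e]
    apply Finset.sum_le_sum_of_subset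
    intro j hj
    rw [Finset.mem_Ico] at hj
    rw [Finset.mem_range]
    omega
  have h3 : ∑ j ∈ Finset.range (J + 3), b j = ww M T (Ioc (Y / 2) (4 * (2 ^ J * Y))) := by
    rw [hb, dy_union g hY]
    have : 2 ^ (J + 3) * Y / 2 = 4 * (2 ^ J * Y) := by ring
    rw [this]
    rfl
  calc _ ≤ ∑ j ∈ Finset.range J, (b (j + 0) + b (j + 1) + b (j + 2) + b (j + 3)) :=
        Finset.sum_le_sum fun j _ => h1 j
    _ = (∑ j ∈ Finset.range J, b (j + 0)) + (∑ j ∈ Finset.range J, b (j + 1)) +
        (∑ j ∈ Finset.range J, b (j + 2)) + ∑ j ∈ Finset.range J, b (j + 3) := by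
        rw [Finset.sum_add_distrib, Finset.sum_add_distrib, Finset.sum_add_distrib]
    _ ≤ ww M T (Ioc (Y / 2) (4 * (2 ^ J * Y))) + ww M T (Ioc (Y / 2) (4 * (2 ^ J * Y))) +
        ww M T (Ioc (Y / 2) (4 * (2 ^ J * Y))) + ww M T (Ioc (Y / 2) (4 * (2 ^ J * Y))) := by
        rw [← h3]
        exact add_le_add (add_le_add (add_le_add (h2 0 (by norm_num)) (h2 1 (by norm_num)))
          (h2 2 (by norm_num))) (h2 3 le_rfl)
    _ = _ := by ring

/-- dyadic decomposition with a bound for every piece -/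
theorem dyadic' {f : ℝ → ℝ} (hf0 : ∀ x, 0 ≤ f x) (hfi : ∀ y z, IntervalIntegrable f volume y z)
    {Y : ℝ} (hY : 0 < Y) (J : ℕ) {s : ℝ} (hs : 0 ≤ s) (hleft : ∀ x, 0 < x → x ≤ Y → f x = 0)
    (hright : ∀ x, 2 ^ J * Y < x → f x = 0) {M : ℕ → ℝ}
    (hM : ∀ j : ℕ, j < J → (2 ^ j * Y) ^ (-s) * ∫ x in (2 ^ j * Y)..2 * (2 ^ j * Y), f x ≤ M j) :
    ∫ x in Set.Ioi (0 : ℝ), f x * x ^ (-s) ≤ ∑ j ∈ Finset.range J, M j := by
  have hJY : Y ≤ 2 ^ J * Y := by
    apply le_mul_of_one_le_left hY.le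
    exact one_le_pow₀ (by norm_num)
  have h1 : ∫ x in Set.Ioi (0 : ℝ), f x * x ^ (-s) =
      ∫ x in Set.Ioc Y (2 ^ J * Y), f x * x ^ (-s) := by
    apply setIntegral_eq_of_subset_of_forall_sdiff_eq_zero measurableSet_Ioi
    · intro x hx
      exact hY.trans hx.1
    · intro x hx
      have hx1 : 0 < x := hx.1
      have hx2 : ¬ (Y < x ∧ x ≤ 2 ^ J * Y) := hx.2
      rcases le_or_gt x Y with h | h
      · rw [hleft x hx1 h, zero_mul]
      · rw [hright x (by
          by_contra h'
          exact hx2 ⟨h, not_lt.1 h'⟩), zero_mul]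
  rw [h1, ← intervalIntegral.integral_of_le hJY]
  have hcont : ∀ j : ℕ, ContinuousOn (fun x : ℝ => x ^ (-s))
      (Set.uIcc (2 ^ j * Y) (2 ^ (j + 1) * Y)) := by
    intro j
    apply ContinuousOn.rpow_const continuousOn_id
    intro x hx
    left
    have h2 : 2 ^ j * Y ≤ 2 ^ (j + 1) * Y := by
      apply mul_le_mul_of_nonneg_right _ hY.le
      exact pow_le_pow_right₀ (by norm_num) (by omega)
    rw [Set.uIcc_of_le h2] at hx
    have : 0 < 2 ^ j * Y := by positivity
    exact (lt_of_lt_of_le this hx.1).ne'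
  have hii : ∀ j : ℕ, IntervalIntegrable (fun x => f x * x ^ (-s)) volume (2 ^ j * Y)
      (2 ^ (j + 1) * Y) := fun j => (hfi _ _).mul_continuousOn (hcont j)
  have h3 := intervalIntegral.sum_integral_adjacent_intervals (n := J)
    (a := fun j : ℕ => (2 : ℝ) ^ j * Y) (μ := volume) (f := fun x => f x * x ^ (-s))
    (fun j _ => hii j)
  simp only [pow_zero, one_mul] at h3
  rw [← h3]
  apply Finset.sum_le_sum
  intro j hj
  refine le_trans ?_ (hM j (Finset.mem_range.1 hj))
  have hpos : 0 < 2 ^ j * Y := by positivity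
  have h2 : 2 ^ j * Y ≤ 2 ^ (j + 1) * Y := by
    apply mul_le_mul_of_nonneg_right _ hY.le
    exact pow_le_pow_right₀ (by norm_num) (by omega)
  have h4 : 2 * (2 ^ j * Y) = 2 ^ (j + 1) * Y := by ring
  rw [h4, ← intervalIntegral.integral_const_mul]
  apply intervalIntegral.integral_mono_on h2 (hii j) ((hfi _ _).const_mul _)
  intro x hx
  rw [mul_comm]
  apply mul_le_mul_of_nonneg_right _ (hf0 x)
  exact Real.rpow_le_rpow_of_nonpos hpos hx.1 (by linarith)

/-- summation of the dyadic bounds -/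
theorem sum_toReal (M : ℝ → ℝ) {T Y D : ℝ} (hY : 0 < Y) (hD : 0 ≤ D) (J : ℕ) {S : Set ℝ}
    (hS : Ioc (Y / 2) (4 * (2 ^ J * Y)) ⊆ S) (hW : ww M T S ≤ ENNReal.ofReal D) :
    (∀ j : ℕ, j < J → ww M T (Ioc (2 ^ j * Y / 2) (8 * (2 ^ j * Y))) ≠ ⊤) ∧
    ∑ j ∈ Finset.range J, (ww M T (Ioc (2 ^ j * Y / 2) (8 * (2 ^ j * Y)))).toReal ≤ 4 * D := by
  have h1 : ww M T (Ioc (Y / 2) (4 * (2 ^ J * Y))) ≤ ENNReal.ofReal D :=
    (lintegral_mono_set hS).trans hW
  have h2 := (ww_sum M T hY J).trans (mul_le_mul_right h1 4)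
  have h3 : (4 : ENNReal) * ENNReal.ofReal D = ENNReal.ofReal (4 * D) := by
    rw [ENNReal.ofReal_mul (by norm_num)]
    simp
  rw [h3] at h2
  have h4 : ∀ j : ℕ, j < J → ww M T (Ioc (2 ^ j * Y / 2) (8 * (2 ^ j * Y))) ≠ ⊤ := by
    intro j hj
    have h5 : ww M T (Ioc (2 ^ j * Y / 2) (8 * (2 ^ j * Y))) ≤
        ∑ j ∈ Finset.range J, ww M T (Ioc (2 ^ j * Y / 2) (8 * (2 ^ j * Y))) :=
      Finset.single_le_sum (f := fun j => ww M T (Ioc (2 ^ j * Y / 2) (8 * (2 ^ j * Y))))
        (fun _ _ => zero_le) (Finset.mem_range.2 hj)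
    exact ne_top_of_le_ne_top ENNReal.ofReal_ne_top (h5.trans h2)
  refine ⟨h4, ?_⟩
  rw [← ENNReal.toReal_sum fun j hj => h4 j (Finset.mem_range.1 hj)]
  exact ENNReal.toReal_le_of_le_ofReal (by linarith) h2

/-- real form of `dd_bound` -/
theorem dd_real {M : ℝ → ℝ} (hM : Measurable M) {T X v : ℝ} (hT : 1 ≤ T) (hX : 0 < X)
    (h1v : 1 ≤ v) (hv : v ≤ Real.exp (1 / (8 * T)))
    (hfin : ww M T (Ioc (X / 2) (8 * X)) ≠ ⊤) :
    ∫ x in X..2 * X, (M (v * x) - M x) ^ 2 ≤
      256 * X ^ 2 / T * (ww M T (Ioc (X / 2) (8 * X))).toReal := by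
  have hT0 : 0 < T := by linarith
  rw [intervalIntegral.integral_of_le (by linarith)]
  rw [integral_eq_lintegral_of_nonneg_ae (Eventually.of_forall fun x => sq_nonneg _)]
  · have h1 := dd_bound hM hT hX h1v hv
    have h2 : ENNReal.ofReal (256 * X ^ 2 / T) * ww M T (Ioc (X / 2) (8 * X)) =
        ENNReal.ofReal (256 * X ^ 2 / T * (ww M T (Ioc (X / 2) (8 * X))).toReal) := by
      rw [ENNReal.ofReal_mul (by positivity), ENNReal.ofReal_toReal hfin]
    rw [h2] at h1
    exact ENNReal.toReal_le_of_le_ofReal (by positivity) h1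
  · apply Measurable.aestronglyMeasurable
    apply Measurable.pow_const
    exact (hM.comp (measurable_id.const_mul v)).sub hM

end Pool.Agent.X113.LV
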