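import Pool.Agent.X113.LV2
import Pool.Agent.H448R2.GC.F2

/-! Lower bound for the logarithmic average of the variance of the Moebius function. -/

set_option autoImplicit false

open Complex MeasureTheory Filter Topology

namespace Pool.Agent.X113.LV

open Pool.Agent.H448R2.GC
open Pool.Agent.H448R2.GC.F1

set_option maxHeartbeats 1000000 in
theorem err_avg (A a b C₁ : ℝ) (K₀ : ℕ) (hA : 1 ≤ A) (ha : 1 < a) (hab : a + 1 < b) (hC₁ : 0 < C₁) :
    ∃ (η : ℝ) (k₁ : ℕ), 0 < η ∧ ∀ k : ℕ, k₁ ≤ k → ∃ C T₀ : ℝ, 0 < C ∧ ∀ T : ℝ, T₀ ≤ T →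
    ∀ S : Finset ℕ, Good T (1 / 16) (2 * A + 3) C₁ K₀ S → ∀ δ : ℝ, 0 ≤ δ → δ ≤ 1 →
    ww Mer T (Set.Icc (T ^ a / 4) (T ^ b)) ≤ ENNReal.ofReal (δ * Real.log T) →
    ∃ τ : ℝ, T ≤ τ ∧ τ ≤ 2 * T ∧
    ∫ t : ℝ, gw τ (T ^ (15 / 16 : ℝ)) t *
      (‖1 - riemannZeta ((sm A T : ℂ) + (t : ℂ) * I) *
        fs k (η * Real.log T / k) (a * Real.log T) ((sm A T : ℂ) + (t : ℂ) * I)‖ *
        ‖MM S ((sm A T : ℂ) + (t : ℂ) * I)‖ ^ 2) ≤
      C * Real.sqrt δ * Real.log T + 1 := by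
  set η : ℝ := (b - a - 1) / 8 with hη
  have hη0 : 0 < η := by rw [hη]; linarith
  obtain ⟨k₀, hpw⟩ := pw A a η hA ha hη0
  refine ⟨η, max k₀ (max 2 (K₀ + 1)), hη0, fun k hk => ?_⟩
  simp only [max_le_iff] at hk
  obtain ⟨hk0, hk2, hkK⟩ := hk
  have hk1 : 1 ≤ k := by omega
  have hkr : (0 : ℝ) < k := by exact_mod_cast hk1
  obtain ⟨T₁, hpw⟩ := hpw k hk0
  obtain ⟨Ck, hCk, hker⟩ := ker_bd a η k ha hη0 hk1
  obtain ⟨Cm, T₂, hCm, hmom⟩ := Pool.Agent.H448R2.GC.mom A C₁ K₀ hA hC₁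
  obtain ⟨Ca, T₃, hCa, hAb⟩ := Ab_avg a (a + 1 + 4 * η) A η ha (by linarith) (by linarith) hη0 k hk2
  obtain ⟨Cz, hCz, hz⟩ := Pool.Agent.H448R2.GC.zeta_growth_mid
  obtain ⟨T₄, htl⟩ := Pool.Agent.H448R2.GC.gw_tail 1 (a + 3 * η + 2)
  obtain ⟨T₅, hlog⟩ := ev_log (8 * A + 8)
  obtain ⟨T₆, hsmall⟩ := ev_small (Ck * (Cm + Ca))
  obtain ⟨T₇, h16⟩ : ∃ T₇ : ℝ, ∀ T : ℝ, T₇ ≤ T → 16 * T ^ (a + 1 + 5 * η) ≤ T ^ b ∧
      4 * (1 + Cz) * T ^ (a + η + 1 / 8 : ℝ) ≤ T ^ (a + 3 * η + 2) := by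
    have hb : b = a + 1 + 5 * η + 3 * η := by rw [hη]; ring
    have t1 := (tendsto_rpow_atTop (show 0 < 3 * η by positivity)).eventually_ge_atTop 16
    have t2 := (tendsto_rpow_atTop (show (0 : ℝ) < 2 * η + 15 / 8 by positivity)).eventually_ge_atTop
      (4 * (1 + Cz))
    obtain ⟨T₇, hT₇⟩ := eventually_atTop.1 ((t1.and t2).and (eventually_gt_atTop (0 : ℝ)))
    refine ⟨T₇, fun T hT => ?_⟩
    obtain ⟨⟨h1, h2⟩, h3⟩ := hT₇ T hT
    constructor
    · rw [hb, Real.rpow_add h3 _ (3 * η), mul_comm]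
      exact mul_le_mul_of_nonneg_left h1 (by positivity)
    · have e1 : a + 3 * η + 2 = (a + η + 1 / 8) + (2 * η + 15 / 8) := by ring
      have e2 : T ^ (a + 3 * η + 2) = T ^ (a + η + 1 / 8) * T ^ (2 * η + 15 / 8) := by
        rw [← Real.rpow_add h3, ← e1]
      rw [e2, mul_comm]
      exact mul_le_mul_of_nonneg_left h2 (by positivity)
  refine ⟨Ck * (Cm + Ca), max T₁ (max T₂ (max T₃ (max T₄ (max T₅ (max T₆ (max T₇ 1)))))), by positivity,
    fun T hT S hGood δ hδ0 hδ1 hV => ?_⟩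
  simp only [max_le_iff] at hT
  obtain ⟨hT1, hT2, hT3, hT4, hT5, hT6, hT7, hT8⟩ := hT
  have hT0 : 0 < T := by linarith
  have hL := hlog T hT5
  have hL1 : 1 ≤ Real.log T := by linarith
  have hL0 : 0 < Real.log T := by linarith
  set L := Real.log T with hLdef
  obtain ⟨s1, s2, s3, s4⟩ := sm_bounds A T hA hL
  have hS1 : ∀ n ∈ S, 1 ≤ n := fun n hn => Nat.one_le_iff_ne_zero.2 (hGood.sqf n hn).ne_zero
  set Δ : ℝ := T ^ (15 / 16 : ℝ) with hΔdef
  have hΔ : 0 < Δ := Real.rpow_pos_of_pos hT0 _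
  have hsT : Real.sqrt T ≤ T := by
    rw [Real.sqrt_le_left hT0.le]
    nlinarith
  have hsT0 : 0 < Real.sqrt T := Real.sqrt_pos.2 hT0
  set Y : Set ℝ := Set.Icc (-Real.sqrt T) (Real.sqrt T) with hY
  have hYabs : ∀ y ∈ Y, |y| ≤ Real.sqrt T := fun y hy => abs_le.2 (Set.mem_Icc.1 hy)
  -- continuity
  have hZc : Continuous (Zf A T) := (F0.zeta_cont (sm A T + 1 / L) (by linarith)).norm
  have hBc : Continuous (Bf A T a η k) :=
    ((F0.fs_cont k _ _ (sm A T + 1 / L)).sub (F0.fs_cont k _ _ (sm A T + 1 / L))).norm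
  have hWc : Continuous (Wf T a η k) :=
    (Pool.Agent.H448R2.GC.ker_cont k (η * Real.log T / k) ((a + 1 + 3 * η) * Real.log T) (1 / Real.log T)
      (by positivity)).norm
  set Mf : ℝ → ℝ := fun t => ‖MM S ((sm A T : ℂ) + (t : ℂ) * I)‖ with hMf
  have hMc : Continuous Mf := (F0.MM_cont S hS1 (sm A T)).norm
  have hMle : ∀ t, Mf t ≤ T ^ (1 / 16 : ℝ) := fun t =>
    F0.MM_norm_le S _ hS1 hGood.le (by positivity) _ (by simp; linarith)
  have hM0 : ∀ t, 0 ≤ Mf t := fun t => norm_nonneg _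
  have hZ0 : ∀ t, 0 ≤ Zf A T t := fun t => norm_nonneg _
  have hB0 : ∀ t, 0 ≤ Bf A T a η k t := fun t => norm_nonneg _
  have hW0 : ∀ t, 0 ≤ Wf T a η k t := fun t => norm_nonneg _
  have hE0 : ∀ t, 0 ≤ Ef A T a η k t := fun t => norm_nonneg _
  have hEc : Continuous (Ef A T a η k) := by
    unfold Ef
    exact (continuous_const.sub ((F0.zeta_cont (sm A T) (by linarith)).mul
      (F0.fs_cont k _ _ (sm A T)))).norm
  -- the integral of the weight
  have hWint : ∫⁻ y in Y, ENNReal.ofReal (Wf T a η k y) ≤ ENNReal.ofReal (2 * Ck) := by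
    calc ∫⁻ y in Y, ENNReal.ofReal (Wf T a η k y)
        ≤ ∫⁻ y, ENNReal.ofReal (Wf T a η k y) := setLIntegral_le_lintegral _ _
      _ ≤ ∫⁻ y, ENNReal.ofReal (Ck * (L / (1 + L * |y|) ^ (k + 1))) :=
          lintegral_mono fun y => ENNReal.ofReal_le_ofReal (hker T hL1 y)
      _ = ENNReal.ofReal (∫ y : ℝ, Ck * (L / (1 + L * |y|) ^ (k + 1))) := by
          rw [ofReal_integral_eq_lintegral_ofReal]
          · exact (Pool.Agent.H448R2.GC.scale_integrable _ _ hL1 (by omega)).const_mul _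
          · exact Eventually.of_forall fun y => by positivity
      _ ≤ ENNReal.ofReal (2 * Ck) := by
          apply ENNReal.ofReal_le_ofReal
          rw [integral_const_mul]
          have := Pool.Agent.H448R2.GC.scale_integral L (k + 1) hL1 (by omega)
          nlinarith
  -- mean square of the tail polynomial
  have hR : ∫ t in (-(5 * T))..(5 * T), Bf A T a η k t ^ 2 ≤ Ca * δ * T * L := by
    refine hAb T δ hT3 hδ0 (le_trans (lintegral_mono_set (Set.Icc_subset_Icc le_rfl ?_)) hV) (sm A T + 1 / L)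
      (by have : 0 < 1 / L := by positivity
          linarith) (by linarith)
    have e1 : a + 1 + 4 * η + η = a + 1 + 5 * η := by ring
    rw [e1]
    exact (h16 T hT7).1
  obtain ⟨τ, hτ1, hτ2, hG⟩ := choose_tau Pool.Agent.H448R2.GC.gw_integral Pool.Agent.H448R2.GC.gw_integrable T Δ hT8 hΔ
    (Wf T a η k) (Bf A T a η k) hWc hBc Y (fun y hy => (hYabs y hy).trans hsT) measurableSet_Icc
    (2 * Ck) (Ca * δ * T * L) (1 / T) (by positivity) (by positivity) hWint hR
  refine ⟨τ, hτ1, hτ2, ?_⟩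
  set E : Set ℝ := Set.Icc (τ - T / 4) (τ + T / 4) with hE
  have hEm : MeasurableSet E := measurableSet_Icc
  -- the full integrand
  have hgE : ∀ t, |Ef A T a η k t * Mf t ^ 2| ≤
      ((1 + Cz) * T ^ (a + η + 1 / 8 : ℝ)) * (1 + |t|) ^ 1 := by
    intro t
    rw [abs_of_nonneg (mul_nonneg (hE0 t) (by positivity)), pow_one]
    have hkc : (k : ℝ) * (η * Real.log T / k) = η * Real.log T := by field_simp
    have f1 : ‖fs k (η * Real.log T / k) (a * Real.log T) ((sm A T : ℂ) + (t : ℂ) * I)‖ ≤ T ^ (a + η) := by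
      have := F0.fs_norm_le Pool.Agent.H448R2.GC.cu_nonneg Pool.Agent.H448R2.GC.cu_le_one k (η * Real.log T / k) (a * Real.log T)
        (by positivity) ((sm A T : ℂ) + (t : ℂ) * I) (by simp; linarith)
      rw [hkc, ← add_mul] at this
      rwa [Real.rpow_def_of_pos hT0, mul_comm (Real.log T)]
    have f2 : ‖riemannZeta ((sm A T : ℂ) + (t : ℂ) * I)‖ ≤ Cz * (1 + |t|) := by
      have := hz ((sm A T : ℂ) + (t : ℂ) * I) (by simp; linarith) (by simp; linarith)
      simpa using this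
    have f3 : Ef A T a η k t ≤ (1 + Cz) * T ^ (a + η) * (1 + |t|) := by
      unfold Ef
      have g1 : (1 : ℝ) ≤ T ^ (a + η) := Real.one_le_rpow hT8 (by linarith)
      have g2 : 1 ≤ T ^ (a + η) * (1 + |t|) := by
        have := abs_nonneg t
        nlinarith
      calc _ ≤ ‖(1 : ℂ)‖ + ‖riemannZeta ((sm A T : ℂ) + (t : ℂ) * I) *
            fs k (η * Real.log T / k) (a * Real.log T) ((sm A T : ℂ) + (t : ℂ) * I)‖ := norm_sub_le _ _
        _ ≤ 1 + (Cz * (1 + |t|)) * T ^ (a + η) := by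
            rw [norm_one, norm_mul]
            have := mul_le_mul f2 f1 (norm_nonneg _) (by positivity)
            linarith
        _ ≤ (1 + Cz) * T ^ (a + η) * (1 + |t|) := by nlinarith
    have f4 : Mf t ^ 2 ≤ T ^ (1 / 8 : ℝ) := by
      calc Mf t ^ 2 ≤ (T ^ (1 / 16 : ℝ)) ^ 2 := pow_le_pow_left₀ (hM0 t) (hMle t) 2
        _ = T ^ (1 / 8 : ℝ) := by
            rw [← Real.rpow_natCast, ← Real.rpow_mul hT0.le]; norm_num
    calc _ ≤ ((1 + Cz) * T ^ (a + η) * (1 + |t|)) * T ^ (1 / 8 : ℝ) :=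
          mul_le_mul f3 f4 (by positivity) (by positivity)
      _ = (1 + Cz) * (T ^ (a + η) * T ^ (1 / 8 : ℝ)) * (1 + |t|) := by ring
      _ = _ := by rw [← Real.rpow_add hT0]
  have hgc : Continuous (fun t => Ef A T a η k t * Mf t ^ 2) := hEc.mul (hMc.pow 2)
  have hInt : Integrable (fun t => gw τ Δ t * (Ef A T a η k t * Mf t ^ 2)) :=
    F0.gw_mul_integrable τ Δ hΔ _ hgc _ 1 hgE
  -- the tail in t
  have htailt : ∫ t in Eᶜ, gw τ Δ t * (Ef A T a η k t * Mf t ^ 2) ≤ 1 / 4 := by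
    have hsub : Eᶜ ⊆ {t : ℝ | T / 4 ≤ |t - τ|} := by
      intro t ht
      rw [Set.mem_ofPred_eq]
      by_contra hcon
      push Not at hcon
      apply ht
      have := abs_lt.1 hcon
      rw [hE, Set.mem_Icc]
      constructor <;> linarith [this.1, this.2]
    have hset : MeasurableSet {t : ℝ | T / 4 ≤ |t - τ|} :=
      measurableSet_le measurable_const (by fun_prop)
    obtain ⟨i1, i2⟩ := htl T hT4 τ hτ1 hτ2
    calc ∫ t in Eᶜ, gw τ Δ t * (Ef A T a η k t * Mf t ^ 2)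
        ≤ ∫ t in {t : ℝ | T / 4 ≤ |t - τ|}, gw τ Δ t * (Ef A T a η k t * Mf t ^ 2) := by
          apply setIntegral_mono_set hInt.integrableOn
          · exact Eventually.of_forall fun t => mul_nonneg (F0.gw_pos _ _ _ hΔ)
              (mul_nonneg (hE0 t) (by positivity))
          · exact hsub.eventuallyLE
      _ ≤ ((1 + Cz) * T ^ (a + η + 1 / 8 : ℝ)) *
          ∫ t in {t : ℝ | T / 4 ≤ |t - τ|}, gw τ Δ t * (1 + |t|) ^ 1 :=
          F0.gw_mul_tail τ Δ hΔ _ hgc _ 1 hgE _ hset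
      _ ≤ ((1 + Cz) * T ^ (a + η + 1 / 8 : ℝ)) * T ^ (-(a + 3 * η + 2)) :=
          mul_le_mul_of_nonneg_left i2 (by positivity)
      _ ≤ 1 / 4 := by
          have h1 := (h16 T hT7).2
          rw [Real.rpow_neg hT0.le, ← div_eq_mul_inv, div_le_iff₀ (by positivity)]
          linarith
  -- the main part
  set r : ℝ := Real.sqrt (δ + 1 / T) with hr
  have hr2 : r ^ 2 = δ + 1 / T := Real.sq_sqrt (by positivity)
  have hr0 : 0 < r := Real.sqrt_pos.2 (by positivity)
  have hrle : r ≤ Real.sqrt δ + 1 / Real.sqrt T := by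
    have h2 : 0 ≤ Real.sqrt δ := Real.sqrt_nonneg _
    have h3 : Real.sqrt δ ^ 2 = δ := Real.sq_sqrt hδ0
    have h4 : (1 / Real.sqrt T) ^ 2 = 1 / T := by rw [div_pow, one_pow, Real.sq_sqrt hT0.le]
    have h5 : 0 < 1 / Real.sqrt T := by positivity
    rw [hr]
    apply Real.sqrt_le_iff.2
    refine ⟨by positivity, ?_⟩
    rw [add_sq, h3, h4]
    have := mul_nonneg h2 h5.le
    linarith
  have hrT : 1 / Real.sqrt T ≤ r := by
    rw [hr]
    apply Real.le_sqrt_of_sq_le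
    rw [div_pow, Real.sq_sqrt hT0.le, one_pow]
    linarith
  have hcore := core (gw τ Δ) Mf (Wf T a η k) (Zf A T) (Bf A T a η k) (F0.gw_cont τ Δ) hMc hWc hZc hBc
    (fun t => F0.gw_pos _ _ _ hΔ) hW0 E Y r hr0
  have hterm1 : ∫⁻ y in Y, ENNReal.ofReal (Wf T a η k y) *
      ∫⁻ t in E, ENNReal.ofReal (gw τ Δ t * (Zf A T (t + y) ^ 2 * Mf t ^ 4)) ≤
      ENNReal.ofReal (2 * Ck * Cm * L) := by
    have hb : ∀ y ∈ Y, ENNReal.ofReal (Wf T a η k y) *
        ∫⁻ t in E, ENNReal.ofReal (gw τ Δ t * (Zf A T (t + y) ^ 2 * Mf t ^ 4)) ≤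
        ENNReal.ofReal (Ck * Cm * L * (L / (1 + L * |y|) ^ 2)) := by
      intro y hy
      have hi : Integrable (fun t => gw τ Δ t * (Zf A T (t + y) ^ 2 * Mf t ^ 4)) := by
        refine F0.gw_mul_integrable τ Δ hΔ _ (by fun_prop)
          (Cz ^ 2 * (1 + |y|) ^ 2 * (T ^ (1 / 16 : ℝ)) ^ 4) 2 fun t => ?_
        rw [abs_of_nonneg (by positivity)]
        have g1 := Zf_le Cz hCz hz A T hA hL (t + y)
        have g2 : Zf A T (t + y) ≤ Cz * ((1 + |y|) * (1 + |t|)) := by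
          refine g1.trans (mul_le_mul_of_nonneg_left ?_ hCz.le)
          have := abs_add_le t y
          nlinarith [abs_nonneg t, abs_nonneg y, mul_nonneg (abs_nonneg t) (abs_nonneg y)]
        calc Zf A T (t + y) ^ 2 * Mf t ^ 4
            ≤ (Cz * ((1 + |y|) * (1 + |t|))) ^ 2 * (T ^ (1 / 16 : ℝ)) ^ 4 :=
              mul_le_mul (pow_le_pow_left₀ (hZ0 _) g2 2) (pow_le_pow_left₀ (hM0 t) (hMle t) 4)
                (by positivity) (by positivity)
          _ = _ := by ring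
      have hm := hmom T hT2 S hGood τ hτ1 hτ2 y (hYabs y hy)
      calc _ ≤ ENNReal.ofReal (Wf T a η k y) *
            ENNReal.ofReal (Cm * L * (1 + L * |y|) ^ K₀) := by
            refine mul_le_mul_right ?_ _
            calc _ ≤ ∫⁻ t, ENNReal.ofReal (gw τ Δ t * (Zf A T (t + y) ^ 2 * Mf t ^ 4)) :=
                  setLIntegral_le_lintegral _ _
              _ = ENNReal.ofReal (∫ t, gw τ Δ t * (Zf A T (t + y) ^ 2 * Mf t ^ 4)) := by
                  rw [ofReal_integral_eq_lintegral_ofReal hi]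
                  exact Eventually.of_forall fun t => mul_nonneg (F0.gw_pos _ _ _ hΔ) (by positivity)
              _ ≤ _ := ENNReal.ofReal_le_ofReal hm
        _ = ENNReal.ofReal (Wf T a η k y * (Cm * L * (1 + L * |y|) ^ K₀)) :=
            (ENNReal.ofReal_mul (hW0 y)).symm
        _ ≤ _ := by
            apply ENNReal.ofReal_le_ofReal
            have hu : 1 ≤ 1 + L * |y| := by
              have : 0 ≤ L * |y| := by positivity
              linarith
            have h1 : (1 + L * |y|) ^ K₀ * (1 + L * |y|) ^ 2 ≤ (1 + L * |y|) ^ (k + 1) := by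
              rw [← pow_add]
              exact pow_le_pow_right₀ hu (by omega)
            have hu0 : 0 < 1 + L * |y| := by linarith
            have h2 : L / (1 + L * |y|) ^ (k + 1) * (1 + L * |y|) ^ K₀ ≤ L / (1 + L * |y|) ^ 2 := by
              rw [div_mul_eq_mul_div, div_le_div_iff₀ (by positivity) (by positivity)]
              calc L * (1 + L * |y|) ^ K₀ * (1 + L * |y|) ^ 2
                  = L * ((1 + L * |y|) ^ K₀ * (1 + L * |y|) ^ 2) := by ring
                _ ≤ L * (1 + L * |y|) ^ (k + 1) := mul_le_mul_of_nonneg_left h1 hL0.le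
            calc Wf T a η k y * (Cm * L * (1 + L * |y|) ^ K₀)
                ≤ (Ck * (L / (1 + L * |y|) ^ (k + 1))) * (Cm * L * (1 + L * |y|) ^ K₀) :=
                  mul_le_mul_of_nonneg_right (hker T hL1 y) (by positivity)
              _ = Ck * Cm * L * (L / (1 + L * |y|) ^ (k + 1) * (1 + L * |y|) ^ K₀) := by ring
              _ ≤ Ck * Cm * L * (L / (1 + L * |y|) ^ 2) := mul_le_mul_of_nonneg_left h2 (by positivity)
    calc _ ≤ ∫⁻ y in Y, ENNReal.ofReal (Ck * Cm * L * (L / (1 + L * |y|) ^ 2)) :=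
          setLIntegral_mono' measurableSet_Icc hb
      _ ≤ ∫⁻ y, ENNReal.ofReal (Ck * Cm * L * (L / (1 + L * |y|) ^ 2)) := setLIntegral_le_lintegral _ _
      _ = ENNReal.ofReal (∫ y : ℝ, Ck * Cm * L * (L / (1 + L * |y|) ^ 2)) := by
          rw [ofReal_integral_eq_lintegral_ofReal]
          · exact (Pool.Agent.H448R2.GC.scale_integrable _ _ hL1 le_rfl).const_mul _
          · exact Eventually.of_forall fun y => by positivity
      _ ≤ _ := by
          apply ENNReal.ofReal_le_ofReal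
          rw [integral_const_mul]
          have := Pool.Agent.H448R2.GC.scale_integral L 2 hL1 le_rfl
          calc _ ≤ Ck * Cm * L * 2 := mul_le_mul_of_nonneg_left this (by positivity)
            _ = _ := by ring
  have hmainE : ∫⁻ t in E, ENNReal.ofReal (gw τ Δ t * (Ef A T a η k t * Mf t ^ 2)) ≤
      ENNReal.ofReal (r / 2 * (2 * Ck * Cm * L) + 1 / (2 * r) * (2 * Ck * (Ca * δ * T * L) / T + 1 / T) +
        2 / T * (T ^ (1 / 16 : ℝ)) ^ 2) := by
    have hstep : ∀ t ∈ E, ENNReal.ofReal (gw τ Δ t * (Ef A T a η k t * Mf t ^ 2)) ≤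
        ENNReal.ofReal (gw τ Δ t * Mf t ^ 2) *
          (∫⁻ y in Y, ENNReal.ofReal (Zf A T (t + y) * Bf A T a η k (t + y) * Wf T a η k y)) +
        ENNReal.ofReal (2 / T * (T ^ (1 / 16 : ℝ)) ^ 2) * ENNReal.ofReal (gw τ Δ t) := by
      intro t ht
      rw [hE, Set.mem_Icc] at ht
      have hp := hpw T hT1 t (by linarith [ht.1]) (by linarith [ht.2])
      have hgM : 0 ≤ gw τ Δ t * Mf t ^ 2 := mul_nonneg (F0.gw_pos _ _ _ hΔ) (by positivity)
      calc ENNReal.ofReal (gw τ Δ t * (Ef A T a η k t * Mf t ^ 2))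
          = ENNReal.ofReal (gw τ Δ t * Mf t ^ 2) * ENNReal.ofReal (Ef A T a η k t) := by
            rw [← ENNReal.ofReal_mul hgM]
            congr 1; ring
        _ ≤ ENNReal.ofReal (gw τ Δ t * Mf t ^ 2) *
          ((∫⁻ y in Y, ENNReal.ofReal (Zf A T (t + y) * Bf A T a η k (t + y) * Wf T a η k y)) +
            ENNReal.ofReal (2 / T)) := mul_le_mul_right hp _
        _ = ENNReal.ofReal (gw τ Δ t * Mf t ^ 2) *
          (∫⁻ y in Y, ENNReal.ofReal (Zf A T (t + y) * Bf A T a η k (t + y) * Wf T a η k y)) +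
            ENNReal.ofReal (gw τ Δ t * Mf t ^ 2 * (2 / T)) := by
            rw [mul_add, ← ENNReal.ofReal_mul hgM]
        _ ≤ _ := by
            refine add_le_add_right ?_ _
            rw [← ENNReal.ofReal_mul (by positivity)]
            apply ENNReal.ofReal_le_ofReal
            have h1 : Mf t ^ 2 ≤ (T ^ (1 / 16 : ℝ)) ^ 2 := pow_le_pow_left₀ (hM0 t) (hMle t) 2
            have h2 := F0.gw_pos τ Δ t hΔ
            calc gw τ Δ t * Mf t ^ 2 * (2 / T) = (2 / T * gw τ Δ t) * Mf t ^ 2 := by ring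
              _ ≤ (2 / T * gw τ Δ t) * (T ^ (1 / 16 : ℝ)) ^ 2 :=
                mul_le_mul_of_nonneg_left h1 (by positivity)
              _ = _ := by ring
    have hmeas : Measurable (fun t : ℝ => ENNReal.ofReal (gw τ Δ t * Mf t ^ 2) *
        (∫⁻ y in Y, ENNReal.ofReal (Zf A T (t + y) * Bf A T a η k (t + y) * Wf T a η k y))) := by
      refine Measurable.fun_mul ?_ ?_
      · exact ((F0.gw_cont τ Δ).mul (hMc.pow 2)).measurable.ennreal_ofReal
      · apply Measurable.lintegral_prod_right' (ν := volume.restrict Y)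
          (f := fun p : ℝ × ℝ => ENNReal.ofReal (Zf A T (p.1 + p.2) * Bf A T a η k (p.1 + p.2) *
            Wf T a η k p.2))
        apply Measurable.ennreal_ofReal
        apply Continuous.measurable
        fun_prop
    calc _ ≤ ∫⁻ t in E, (ENNReal.ofReal (gw τ Δ t * Mf t ^ 2) *
          (∫⁻ y in Y, ENNReal.ofReal (Zf A T (t + y) * Bf A T a η k (t + y) * Wf T a η k y)) +
        ENNReal.ofReal (2 / T * (T ^ (1 / 16 : ℝ)) ^ 2) * ENNReal.ofReal (gw τ Δ t)) :=
          setLIntegral_mono' hEm hstep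
      _ = (∫⁻ t in E, ENNReal.ofReal (gw τ Δ t * Mf t ^ 2) *
          (∫⁻ y in Y, ENNReal.ofReal (Zf A T (t + y) * Bf A T a η k (t + y) * Wf T a η k y))) +
        ENNReal.ofReal (2 / T * (T ^ (1 / 16 : ℝ)) ^ 2) * ∫⁻ t in E, ENNReal.ofReal (gw τ Δ t) := by
          rw [lintegral_add_left hmeas, lintegral_const_mul _ (F0.gw_cont τ Δ).measurable.ennreal_ofReal]
      _ ≤ (ENNReal.ofReal (r / 2) * ENNReal.ofReal (2 * Ck * Cm * L) +
          ENNReal.ofReal (1 / (2 * r)) * (ENNReal.ofReal (2 * Ck * (Ca * δ * T * L) / T) +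
            ENNReal.ofReal (1 / T))) +
        ENNReal.ofReal (2 / T * (T ^ (1 / 16 : ℝ)) ^ 2) * 1 := by
          refine add_le_add ?_ ?_
          · refine hcore.trans (add_le_add ?_ ?_)
            · exact mul_le_mul_right hterm1 _
            · exact mul_le_mul_right hG _
          · refine mul_le_mul_right ?_ _
            calc ∫⁻ t in E, ENNReal.ofReal (gw τ Δ t) ≤ ∫⁻ t, ENNReal.ofReal (gw τ Δ t) :=
                  setLIntegral_le_lintegral _ _
              _ = ENNReal.ofReal (∫ t, gw τ Δ t) :=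
                  (ofReal_integral_eq_lintegral_ofReal (Pool.Agent.H448R2.GC.gw_integrable τ Δ hΔ)
                    (Eventually.of_forall fun t => F0.gw_pos _ _ _ hΔ)).symm
              _ = 1 := by rw [Pool.Agent.H448R2.GC.gw_integral τ Δ hΔ, ENNReal.ofReal_one]
      _ = _ := by
          rw [mul_one, ← ENNReal.ofReal_add (by positivity) (by positivity),
            ← ENNReal.ofReal_mul (by positivity), ← ENNReal.ofReal_mul (by positivity),
            ← ENNReal.ofReal_add (by positivity) (by positivity),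
            ← ENNReal.ofReal_add (by positivity) (by positivity)]
  have hmainR : ∫ t in E, gw τ Δ t * (Ef A T a η k t * Mf t ^ 2) ≤
      r / 2 * (2 * Ck * Cm * L) + 1 / (2 * r) * (2 * Ck * (Ca * δ * T * L) / T + 1 / T) +
        2 / T * (T ^ (1 / 16 : ℝ)) ^ 2 := by
    rw [← ofReal_integral_eq_lintegral_ofReal hInt.integrableOn
      (Eventually.of_forall fun t => mul_nonneg (F0.gw_pos _ _ _ hΔ)
        (mul_nonneg (hE0 t) (by positivity)))] at hmainE
    rwa [ENNReal.ofReal_le_ofReal_iff (by positivity)] at hmainE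
  have hsplit : ∫ t, gw τ Δ t * (Ef A T a η k t * Mf t ^ 2) =
      (∫ t in E, gw τ Δ t * (Ef A T a η k t * Mf t ^ 2)) +
      ∫ t in Eᶜ, gw τ Δ t * (Ef A T a η k t * Mf t ^ 2) := (integral_add_compl hEm hInt).symm
  have hfin : ∫ t, gw τ Δ t * (Ef A T a η k t * Mf t ^ 2) ≤
      Ck * (Cm + Ca) * Real.sqrt δ * L + 1 := by
    rw [hsplit]
    have e1 : 1 / (2 * r) * (2 * Ck * (Ca * δ * T * L) / T + 1 / T) =
        Ck * Ca * L * (δ / r) + 1 / T / (2 * r) := by
      field_simp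
    have e2 : δ / r ≤ r := by
      rw [div_le_iff₀ hr0, ← sq, hr2]
      have : 0 < 1 / T := by positivity
      linarith
    have e3 : 1 / T / (2 * r) ≤ 1 / (2 * Real.sqrt T) := by
      have h1 : 1 / (2 * r) ≤ Real.sqrt T / 2 := by
        rw [div_le_div_iff₀ (by positivity) (by norm_num)]
        have h2 : 1 ≤ r * Real.sqrt T := by
          rw [div_le_iff₀ hsT0] at hrT
          exact hrT
        nlinarith
      calc 1 / T / (2 * r) = 1 / T * (1 / (2 * r)) := by ring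
        _ ≤ 1 / T * (Real.sqrt T / 2) := mul_le_mul_of_nonneg_left h1 (by positivity)
        _ = 1 / (2 * Real.sqrt T) := by
            have h3 : Real.sqrt T * Real.sqrt T = T := Real.mul_self_sqrt hT0.le
            field_simp
            nlinarith
    have e4 : Ck * Ca * L * (δ / r) ≤ Ck * Ca * L * r := mul_le_mul_of_nonneg_left e2 (by positivity)
    have e5 : r / 2 * (2 * Ck * Cm * L) = Ck * Cm * L * r := by ring
    have e6 : Ck * (Cm + Ca) * L * r ≤ Ck * (Cm + Ca) * L * (Real.sqrt δ + 1 / Real.sqrt T) :=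
      mul_le_mul_of_nonneg_left hrle (by positivity)
    have e7 := hsmall T hT6
    have e8 : Ck * (Cm + Ca) * L * (1 / Real.sqrt T) = Ck * (Cm + Ca) * Real.log T / Real.sqrt T := by
      rw [← hLdef]; ring
    rw [e1] at hmainR
    nlinarith
  exact hfin


theorem main_avg (a b : ℝ) (ha : 1 < a) (hab : a + 1 < b) : ∃ c T₀ : ℝ, 0 < c ∧ 1 ≤ T₀ ∧ ∀ T : ℝ, T₀ ≤ T →
    ENNReal.ofReal (c * Real.log T) < ww Mer T (Set.Icc (T ^ a / 4) (T ^ b)) := by
  obtain ⟨c₀, hc₀, hlow⟩ := Pool.Agent.H448R2.GC.lower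
  set A : ℝ := max 1 (Real.log (2 / c₀)) with hA
  have hA1 : 1 ≤ A := le_max_left _ _
  have hA0 : 0 ≤ A := by linarith
  have hcA : 2 ≤ c₀ * Real.exp A := by
    have h1 : Real.exp (Real.log (2 / c₀)) ≤ Real.exp A := Real.exp_le_exp.2 (le_max_right _ _)
    rw [Real.exp_log (by positivity)] at h1
    rw [div_le_iff₀ hc₀] at h1
    linarith
  obtain ⟨cb, C₁, T₁, K₀, hcb, hC₁, hblocks⟩ := Pool.Agent.H448R2.GC.blocks (1 / 16) (2 * A + 3) (by norm_num) (by linarith)
  obtain ⟨η, k₁, hη, herr⟩ := err_avg A a b C₁ K₀ hA1 ha hab hC₁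
  obtain ⟨k₂, hlow⟩ := hlow A a η hA0 ha hη
  set k : ℕ := max 1 (max k₁ k₂) with hk
  obtain ⟨C, T₂, hC, herr⟩ := herr k (le_trans (le_max_left _ _) (le_max_right _ _))
  obtain ⟨T₃, hlow⟩ := hlow k (le_trans (le_max_right _ _) (le_max_right _ _))
  obtain ⟨T₄, hMM⟩ := Pool.Agent.H448R2.GC.MM_sq A hA0
  obtain ⟨T₅, hL1⟩ := F2.ev_log (8 / cb)
  obtain ⟨T₆, hL2⟩ := F2.ev_log (8 * A + 1)
  set c : ℝ := min 1 ((cb / (2 * C)) ^ 2) with hc
  have hc0 : 0 < c := by
    apply lt_min one_pos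
    positivity
  refine ⟨c, max 1 (max T₁ (max T₂ (max T₃ (max T₄ (max T₅ T₆))))), hc0, le_max_left _ _, fun T hT => ?_⟩
  have hT1 : 1 ≤ T := (le_max_left _ _).trans hT
  have hT' : max T₁ (max T₂ (max T₃ (max T₄ (max T₅ T₆)))) ≤ T := (le_max_right _ _).trans hT
  simp only [max_le_iff] at hT'
  obtain ⟨h1, h2, h3, h4, h5, h6⟩ := hT'
  have hL1 := hL1 T h5
  have hL2 := hL2 T h6
  have hL0 : 0 < Real.log T := by linarith
  by_contra hcon
  push Not at hcon
  obtain ⟨S, hGood, hQ⟩ := hblocks T h1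
  have hS1 : ∀ n ∈ S, 1 ≤ n := fun n hn => Nat.one_le_iff_ne_zero.2 (hGood.sqf n hn).ne_zero
  obtain ⟨τ, hτ1, hτ2, hE⟩ := herr T h2 S hGood c hc0.le (min_le_left _ _) hcon
  have hlo := hlow T h3 S hGood.one_mem hGood.sqf hGood.le hGood.dvd τ hτ1 hτ2
  have hmm := hMM T h4 S hGood.sqf hGood.le τ
  have hsm0 : 1 / 8 ≤ sm A T := by
    unfold sm
    have : A / Real.log T ≤ 1 / 8 := by
      rw [div_le_iff₀ hL0]
      linarith
    linarith
  have hsm1 : sm A T ≤ 1 / 2 := by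
    unfold sm
    have : 0 ≤ A / Real.log T := by positivity
    linarith
  have hsp := F2.split_ineq A T a η k S τ hT1 hη (le_max_left _ _) hL0 hsm0 (by linarith) hS1
  set Q : ℝ := ∑ n ∈ S, (n : ℝ) ^ (-(2 * sm A T)) with hQdef
  have hQ0 : 0 ≤ Q := Finset.sum_nonneg fun n _ => by positivity
  have hQ1 : cb * Real.log T ≤ Q := by
    refine hQ.trans (Finset.sum_le_sum fun n hn => ?_)
    have hn : (1 : ℝ) ≤ n := by exact_mod_cast hS1 n hn
    rw [one_div, ← Real.rpow_neg_one]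
    apply Real.rpow_le_rpow_of_exponent_le hn
    linarith
  have hsq : C * Real.sqrt c ≤ cb / 2 := by
    have h7 : Real.sqrt c ≤ cb / (2 * C) := by
      rw [Real.sqrt_le_left (by positivity)]
      exact min_le_right _ _
    calc C * Real.sqrt c ≤ C * (cb / (2 * C)) := mul_le_mul_of_nonneg_left h7 hC.le
      _ = cb / 2 := by field_simp
  have h8 : 2 * Q ≤ c₀ * Real.exp A * Q := mul_le_mul_of_nonneg_right hcA hQ0
  have h9 : C * Real.sqrt c * Real.log T ≤ cb / 2 * Real.log T := mul_le_mul_of_nonneg_right hsq hL0.le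
  have h10 : 2 * Q - 1 ≤ Q + 1 + (cb / 2 * Real.log T + 1) := by linarith
  have h11 : cb * Real.log T ≤ cb / 2 * Real.log T + 3 := by linarith
  have h12 : 8 ≤ cb * Real.log T := by
    rw [div_le_iff₀ hcb] at hL1
    linarith [mul_comm (Real.log T) cb]
  linarith


end Pool.Agent.X113.LV
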