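import Pool.Agent.X113.LV1

/-! The average variance as an ordinary integral. -/

set_option autoImplicit false

open MeasureTheory Filter Set

namespace Pool.Agent.X113.LV

/-- the mean square over `[X, 2X]` -/
noncomputable def vr (M : ℝ → ℝ) (X H : ℝ) : ℝ :=
  (1 / X) * ∫ x in X..2 * X, (M (x + H / 2) - M (x - H / 2)) ^ 2

/-- the inner integral -/
noncomputable def gi (M : ℝ → ℝ) (T X : ℝ) : ENNReal :=
  ∫⁻ H in Icc (X / (16 * T)) (4 * X / T), vt M X H

theorem meas_gi {M : ℝ → ℝ} (hM : Measurable M) (T : ℝ) : Measurable (gi M T) := by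
  have h1 : Measurable (fun p : ℝ × ℝ =>
      {q : ℝ × ℝ | q.1 / (16 * T) ≤ q.2 ∧ q.2 ≤ 4 * q.1 / T}.indicator
        (fun q : ℝ × ℝ => vt M q.1 q.2) p) := by
    apply (meas_vt hM).indicator
    exact (measurableSet_le (measurable_fst.div_const _) measurable_snd).inter
      (measurableSet_le measurable_snd ((measurable_fst.const_mul 4).div_const _))
  have h2 := Measurable.lintegral_prod_right' (ν := volume) h1
  have e : gi M T = fun X => ∫⁻ H, {q : ℝ × ℝ | q.1 / (16 * T) ≤ q.2 ∧ q.2 ≤ 4 * q.1 / T}.indicator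
        (fun q : ℝ × ℝ => vt M q.1 q.2) (X, H) := by
    funext X
    unfold gi
    rw [← lintegral_indicator measurableSet_Icc]
    rfl
  rw [e]
  exact h2

theorem in_le {M : ℝ → ℝ} {K : ℝ} (hK : 0 ≤ K) (hb : ∀ x, |M x| ≤ K * |x|) {X H x : ℝ} (hX : 0 < X)
    (hH : 0 < H) (hx : x ∈ Ioc X (2 * X)) :
    (M (x + H / 2) - M (x - H / 2)) ^ 2 ≤ (K * (4 * X + H)) ^ 2 := by
  rw [← sq_abs]
  apply pow_le_pow_left₀ (abs_nonneg _)
  have h1 := hb (x + H / 2)
  have h2 := hb (x - H / 2)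
  have h3 : |x + H / 2| ≤ 2 * X + H / 2 := by
    rw [abs_le]
    constructor <;> linarith [hx.1, hx.2]
  have h4 : |x - H / 2| ≤ 2 * X + H / 2 := by
    rw [abs_le]
    constructor <;> linarith [hx.1, hx.2]
  have h5 : K * |x + H / 2| ≤ K * (2 * X + H / 2) := mul_le_mul_of_nonneg_left h3 hK
  have h6 : K * |x - H / 2| ≤ K * (2 * X + H / 2) := mul_le_mul_of_nonneg_left h4 hK
  calc |M (x + H / 2) - M (x - H / 2)| ≤ |M (x + H / 2)| + |M (x - H / 2)| := abs_sub _ _
    _ ≤ K * (2 * X + H / 2) + K * (2 * X + H / 2) := by linarith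
    _ = K * (4 * X + H) := by ring

theorem vt_le {M : ℝ → ℝ} {K : ℝ} (hK : 0 ≤ K) (hb : ∀ x, |M x| ≤ K * |x|) {X H : ℝ} (hX : 0 < X)
    (hH : 0 < H) : vt M X H ≤ ENNReal.ofReal (1 / (H ^ 2 * X ^ 2) * ((K * (4 * X + H)) ^ 2 * X)) := by
  unfold vt
  rw [ENNReal.ofReal_mul (by positivity)]
  refine mul_le_mul_right ?_ _
  calc _ ≤ ∫⁻ _x in Ioc X (2 * X), ENNReal.ofReal ((K * (4 * X + H)) ^ 2) :=
        setLIntegral_mono' measurableSet_Ioc fun x hx => ENNReal.ofReal_le_ofReal (in_le hK hb hX hH hx)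
    _ = _ := by
        rw [setLIntegral_const, Real.volume_Ioc, ← ENNReal.ofReal_mul (by positivity)]
        congr 2
        ring

/-- the integrand as a real number -/
theorem vt_real {M : ℝ → ℝ} (hM : Measurable M) {X H : ℝ} (hX : 0 < X) (hH : 0 < H) :
    (vt M X H).toReal = vr M X H / H ^ 2 / X := by
  have hm : Measurable (fun x => (M (x + H / 2) - M (x - H / 2)) ^ 2) :=
    ((hM.comp (measurable_id.add_const _)).sub (hM.comp (measurable_id.sub_const _))).pow_const 2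
  have e := integral_eq_lintegral_of_nonneg_ae (μ := volume.restrict (Ioc X (2 * X)))
    (f := fun x => (M (x + H / 2) - M (x - H / 2)) ^ 2)
    (Eventually.of_forall fun x => sq_nonneg _) hm.aestronglyMeasurable
  unfold vt vr
  rw [intervalIntegral.integral_of_le (by linarith), e,
    ENNReal.toReal_mul, ENNReal.toReal_ofReal (by positivity)]
  field_simp

theorem vt_region {M : ℝ → ℝ} {K : ℝ} (hK : 0 ≤ K) (hb : ∀ x, |M x| ≤ K * |x|) {T lo hi : ℝ}
    (hT : 1 ≤ T) (hlo : 0 < lo) {X H : ℝ} (hX : X ∈ Icc lo hi)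
    (hH : H ∈ Icc (X / (16 * T)) (4 * X / T)) :
    vt M X H ≤ ENNReal.ofReal (64 * K ^ 2 * hi * (16 * T / lo) ^ 2) := by
  have hT0 : 0 < T := by linarith
  have hX0 : 0 < X := hlo.trans_le hX.1
  have hH0 : 0 < H := lt_of_lt_of_le (by positivity) hH.1
  refine (vt_le hK hb hX0 hH0).trans (ENNReal.ofReal_le_ofReal ?_)
  have h1 : H ≤ 4 * X := by
    refine hH.2.trans ?_
    rw [div_le_iff₀ hT0]
    nlinarith
  have h2 : (K * (4 * X + H)) ^ 2 ≤ (K * (8 * X)) ^ 2 :=
    pow_le_pow_left₀ (by positivity) (mul_le_mul_of_nonneg_left (by linarith) hK) 2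
  have h3 : 1 / H ≤ 16 * T / lo := by
    have h4 : X ≤ H * (16 * T) := (div_le_iff₀ (by positivity)).1 hH.1
    rw [div_le_div_iff₀ hH0 hlo]
    linarith [hX.1]
  calc 1 / (H ^ 2 * X ^ 2) * ((K * (4 * X + H)) ^ 2 * X)
      ≤ 1 / (H ^ 2 * X ^ 2) * ((K * (8 * X)) ^ 2 * X) := by
        apply mul_le_mul_of_nonneg_left _ (by positivity)
        exact mul_le_mul_of_nonneg_right h2 hX0.le
    _ = 64 * K ^ 2 * X * (1 / H) ^ 2 := by
        field_simp
        ring
    _ ≤ 64 * K ^ 2 * hi * (16 * T / lo) ^ 2 := by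
        apply mul_le_mul _ (pow_le_pow_left₀ (by positivity) h3 2) (by positivity)
        · have : 0 < hi := hX0.trans_le hX.2
          positivity
        · exact mul_le_mul_of_nonneg_left hX.2 (by positivity)

theorem gi_le {M : ℝ → ℝ} {K : ℝ} (hK : 0 ≤ K) (hb : ∀ x, |M x| ≤ K * |x|) {T lo hi : ℝ}
    (hT : 1 ≤ T) (hlo : 0 < lo) {X : ℝ} (hX : X ∈ Icc lo hi) :
    gi M T X ≤ ENNReal.ofReal (64 * K ^ 2 * hi * (16 * T / lo) ^ 2) * ENNReal.ofReal (4 * hi / T) := by
  have hT0 : 0 < T := by linarith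
  have hX0 : 0 < X := hlo.trans_le hX.1
  unfold gi
  calc _ ≤ ∫⁻ _H in Icc (X / (16 * T)) (4 * X / T),
        ENNReal.ofReal (64 * K ^ 2 * hi * (16 * T / lo) ^ 2) :=
        setLIntegral_mono' measurableSet_Icc fun H hH => vt_region hK hb hT hlo hX hH
    _ ≤ _ := by
        rw [setLIntegral_const, Real.volume_Icc]
        refine mul_le_mul_right (ENNReal.ofReal_le_ofReal ?_) _
        have h1 : 0 < X / (16 * T) := by positivity
        have h2 : 4 * X / T ≤ 4 * hi / T := by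
          apply div_le_div_of_nonneg_right _ hT0.le
          linarith [hX.2]
        linarith

/-- the average in terms of ordinary integrals -/
theorem ww_real {M : ℝ → ℝ} (hM : Measurable M) {K : ℝ} (hK : 0 ≤ K) (hb : ∀ x, |M x| ≤ K * |x|)
    {T lo hi : ℝ} (hT : 1 ≤ T) (hlo : 0 < lo) (hhi : lo ≤ hi) :
    ww M T (Icc lo hi) = ENNReal.ofReal (∫ X in lo..hi,
      (∫ H in (X / (16 * T))..(4 * X / T), vr M X H / H ^ 2) / X) := by
  have hT0 : 0 < T := by linarith
  set B : ENNReal := ENNReal.ofReal (64 * K ^ 2 * hi * (16 * T / lo) ^ 2) * ENNReal.ofReal (4 * hi / T)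
    with hB
  have hBt : B < ⊤ := ENNReal.mul_lt_top ENNReal.ofReal_lt_top ENNReal.ofReal_lt_top
  have e1 : ww M T (Icc lo hi) = ∫⁻ X in Ioc lo hi, gi M T X := by
    unfold ww
    exact setLIntegral_congr Ioc_ae_eq_Icc.symm
  have hfin : ∫⁻ X in Ioc lo hi, gi M T X < ⊤ := by
    calc ∫⁻ X in Ioc lo hi, gi M T X ≤ ∫⁻ _X in Ioc lo hi, B :=
          setLIntegral_mono' measurableSet_Ioc fun X hX => gi_le hK hb hT hlo ⟨hX.1.le, hX.2⟩
      _ < ⊤ := by
          rw [setLIntegral_const, Real.volume_Ioc]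
          exact ENNReal.mul_lt_top hBt ENNReal.ofReal_lt_top
  have e2 : ∫ X in lo..hi, (∫ H in (X / (16 * T))..(4 * X / T), vr M X H / H ^ 2) / X =
      ∫ X in Ioc lo hi, (gi M T X).toReal := by
    rw [intervalIntegral.integral_of_le hhi]
    refine setIntegral_congr_fun measurableSet_Ioc fun X hX => ?_
    have hX0 : 0 < X := hlo.trans hX.1
    have hle : X / (16 * T) ≤ 4 * X / T := by
      rw [div_le_div_iff₀ (by positivity) hT0]
      nlinarith
    rw [intervalIntegral.integral_of_le hle, ← integral_Icc_eq_integral_Ioc, ← integral_div]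
    unfold gi
    rw [← integral_toReal]
    · refine setIntegral_congr_fun measurableSet_Icc fun H hH => ?_
      have hH0 : 0 < H := lt_of_lt_of_le (by positivity) hH.1
      rw [vt_real hM hX0 hH0]
    · exact ((meas_vt hM).comp (measurable_const.prodMk measurable_id)).aemeasurable
    · refine (ae_restrict_iff' measurableSet_Icc).2 (Eventually.of_forall fun H hH => ?_)
      exact lt_of_le_of_lt (vt_region hK hb hT hlo ⟨hX.1.le, hX.2⟩ hH) ENNReal.ofReal_lt_top
  rw [e1, e2, integral_toReal (meas_gi hM T).aemeasurable, ENNReal.ofReal_toReal hfin.ne]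
  refine (ae_restrict_iff' measurableSet_Ioc).2 (Eventually.of_forall fun X hX => ?_)
  exact lt_of_le_of_lt (gi_le hK hb hT hlo ⟨hX.1.le, hX.2⟩) hBt

end Pool.Agent.X113.LV
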