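import Pool.Agent.X113.LV3
import Pool.Agent.X113.LV4

/-! The logarithmic average of the variance of the Moebius function in short intervals. -/

set_option autoImplicit false

open MeasureTheory Filter Set

namespace Pool.Agent.X113.LV

open Pool.Agent.H448R2.GC

theorem vr_Mer {X H : ℝ} (hX : 0 < X) (hH : 0 < H) : vr Mer X H = VV X H := by
  unfold vr VV
  congr 1
  rw [intervalIntegral.integral_of_le (by linarith), intervalIntegral.integral_of_le (by linarith)]
  apply integral_congr_ae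
  filter_upwards [ae_restrict_of_ae (SV.ae_MH hH)] with x hx
  rw [hx]

theorem ev_pow {a a' : ℝ} (h : a < a') (K : ℝ) : ∃ T₀ : ℝ, 1 ≤ T₀ ∧ ∀ T : ℝ, T₀ ≤ T →
    K * T ^ a ≤ T ^ a' := by
  have t1 := (tendsto_rpow_atTop (show 0 < a' - a by linarith)).eventually_ge_atTop K
  obtain ⟨T₁, hT₁⟩ := eventually_atTop.1 t1
  refine ⟨max T₁ 1, le_max_right _ _, fun T hT => ?_⟩
  have hT0 : 0 < T := lt_of_lt_of_le one_pos ((le_max_right _ _).trans hT)
  have h1 := hT₁ T ((le_max_left _ _).trans hT)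
  have e : T ^ a' = T ^ (a' - a) * T ^ a := by
    rw [← Real.rpow_add hT0]
    congr 1
    ring
  rw [e]
  exact mul_le_mul_of_nonneg_right h1 (by positivity)

theorem mu_final (a b : ℝ) (ha : 1 < a) (hab : a + 1 < b) : ∃ c T₀ : ℝ, 0 < c ∧ 1 ≤ T₀ ∧
    ∀ T : ℝ, T₀ ≤ T → c * Real.log T ≤ ∫ X in (T ^ a)..(T ^ b),
      (∫ H in (X / (16 * T))..(4 * X / T), VV X H / H ^ 2) / X := by
  obtain ⟨c, T₀, hc, hT₀, h⟩ := main_avg ((a + (b - 1)) / 2) b (by linarith) (by linarith)
  obtain ⟨T₁, hT₁, h1⟩ := ev_pow (show a < (a + (b - 1)) / 2 by linarith) 4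
  refine ⟨c, max T₀ T₁, hc, hT₀.trans (le_max_left _ _), fun T hT => ?_⟩
  have hT1 : 1 ≤ T := hT₀.trans ((le_max_left _ _).trans hT)
  have hT0 : 0 < T := by linarith
  have h2 := h T ((le_max_left _ _).trans hT)
  have h3 := h1 T ((le_max_right _ _).trans hT)
  have hlo : 0 < T ^ a := Real.rpow_pos_of_pos hT0 _
  have hle : T ^ a ≤ T ^ b := Real.rpow_le_rpow_of_exponent_le hT1 (by linarith)
  have h4 : ww Mer T (Icc (T ^ ((a + (b - 1)) / 2) / 4) (T ^ b)) ≤ ww Mer T (Icc (T ^ a) (T ^ b)) :=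
    lintegral_mono_set (Icc_subset_Icc (by linarith) le_rfl)
  rw [ww_real SV.meas_Mer zero_le_one (fun x => by rw [one_mul]; exact SV.abs_Mer_le x) hT1 hlo hle] at h4
  have h5 := (h2.trans_le h4).le
  have h6 : c * Real.log T ≤ ∫ X in (T ^ a)..(T ^ b),
      (∫ H in (X / (16 * T))..(4 * X / T), vr Mer X H / H ^ 2) / X := by
    by_contra hcon
    push Not at hcon
    have h7 := lt_of_lt_of_le h2 h4
    rw [ENNReal.ofReal_lt_ofReal_iff'] at h7
    linarith [h7.1]
  refine h6.trans (le_of_eq ?_)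
  apply intervalIntegral.integral_congr
  intro X hX
  rw [uIcc_of_le hle] at hX
  have hX0 : 0 < X := hlo.trans_le hX.1
  have hle2 : X / (16 * T) ≤ 4 * X / T := by
    rw [div_le_div_iff₀ (by positivity) hT0]
    nlinarith
  simp only
  congr 1
  apply intervalIntegral.integral_congr
  intro H hH
  rw [uIcc_of_le hle2] at hH
  have hH0 : 0 < H := lt_of_lt_of_le (by positivity) hH.1
  simp only
  rw [vr_Mer hX0 hH0]

end Pool.Agent.X113.LV
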