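import Pool.Agent.X113.LV4
import Pool.Agent.Y857.VP.Win

/-! The tail polynomial of the von Mangoldt function against the average variance. -/

set_option autoImplicit false

open Complex MeasureTheory Filter Topology

namespace Pool.Agent.X113.LV

open Pool.Agent.Y857.VP
open Pool.Agent.H448R2.GC (cu cs ker sm)

/-- the tail polynomial is small in mean square if the average of the variance is small -/
theorem Ab_avg_psi (a b A η : ℝ) (ha : 1 < a) (hab : a < b) (hA : 0 ≤ A) (hη : 0 < η) (k : ℕ) (hk : 2 ≤ k) :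
    ∃ C T₀ : ℝ, 0 < C ∧ ∀ T δ : ℝ, T₀ ≤ T → 0 ≤ δ →
    ww AA T (Set.Icc (T ^ a / 4) (16 * T ^ (b + η))) ≤ ENNReal.ofReal (δ * Real.log T) →
    ∀ σ : ℝ, sm A T ≤ σ → σ ≤ 1 →
    ∫ t in (-(5 * T))..(5 * T),
      ‖∑ n ∈ Finset.Icc 1 ⌊Real.exp (b * Real.log T + k * (η * Real.log T / k))⌋₊,
        ((VA.aN k (η * Real.log T / k) (a * Real.log T) (b * Real.log T) n : ℝ) : ℂ) *
          (n : ℂ) ^ (-((σ : ℂ) + (t : ℂ) * I))‖ ^ 2 ≤
      C * δ * T * Real.log T := by
  obtain ⟨CP, hCP, planch⟩ := Pool.Agent.H448R2.GC.planch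
  have hlog2 : 0 < Real.log 2 := Real.log_pos (by norm_num)
  have hk0 : (0 : ℝ) < k := by
    have : (2 : ℝ) ≤ k := by exact_mod_cast hk
    linarith
  have hbea : 0 < b + η - a := by linarith
  refine ⟨4096 * CP * Real.exp (2 * A * (b + η)),
    Real.exp (2 + k / η + 2 * A + Real.log 32 / (a - 1)), by positivity, ?_⟩
  intro T δ hT hδ hV σ hσ hσ1
  have hT0 : 0 < T := lt_of_lt_of_le (Real.exp_pos _) hT
  set L := Real.log T with hL
  have hL0 : 2 + k / η + 2 * A + Real.log 32 / (a - 1) ≤ L := by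
    rw [hL, Real.le_log_iff_exp_le hT0]
    exact hT
  have ha1 : 0 < a - 1 := by linarith
  have h32 : 0 < Real.log 32 := Real.log_pos (by norm_num)
  have e1 : 0 ≤ (k : ℝ) / η := by positivity
  have e2 : 0 ≤ Real.log 32 / (a - 1) := by positivity
  have hL2 : 2 ≤ L := by linarith
  have hLk : k / η ≤ L := by linarith
  have hLA : 2 * A < L := by linarith
  have hL32 : Real.log 32 / (a - 1) ≤ L := by linarith
  have hLpos : 0 < L := by linarith
  have hT1 : 1 ≤ T := by
    rw [← Real.exp_log hT0, ← hL]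
    exact Real.one_le_exp (by linarith)
  set c := η * L / k with hc
  have hc1 : 1 ≤ c := by
    rw [hc, le_div_iff₀ hk0, one_mul]
    rw [div_le_iff₀ hη] at hLk
    linarith
  have hc0 : 0 < c := by linarith
  have hpq : a * L ≤ b * L := mul_le_mul_of_nonneg_right hab.le hLpos.le
  have hσ0 : 0 < σ := by
    refine lt_of_lt_of_le ?_ hσ
    unfold sm
    rw [← hL, sub_pos, div_lt_iff₀ hLpos]
    linarith
  set w := Real.exp (1 / (8 * T)) with hw
  have hw1 : 1 ≤ w := Real.one_le_exp (by positivity)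
  have hw2 : w ≤ 2 := by
    rw [hw, ← Real.le_log_iff_exp_le (by norm_num)]
    have : 1 / (8 * T) ≤ 1 / 8 := by
      apply one_div_le_one_div_of_le (by norm_num)
      linarith
    have := Real.log_two_gt_d9
    linarith
  have hkc : (k : ℝ) * c = η * L := by
    rw [hc]
    field_simp
  have hexp : ∀ u : ℝ, T ^ u = Real.exp (u * L) := by
    intro u
    rw [Real.rpow_def_of_pos hT0, mul_comm]
  have hN : Real.exp (b * L + k * c) = T ^ (b + η) := by
    rw [hkc, hexp]
    ring_nf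
  -- Plancherel
  have hpl := planch ⌊Real.exp (b * L + k * c)⌋₊ (VA.aN k c (a * L) (b * L)) σ T hσ0 hσ1 hT1
  refine hpl.trans ?_
  -- the window sums
  set f : ℝ → ℝ := fun x => VA.FF (VA.aN k c (a * L) (b * L)) ⌊Real.exp (b * L + k * c)⌋₊ w x ^ 2
    with hf
  set Y : ℝ := T ^ a / 2 with hY
  have hY0 : 0 < Y := by positivity
  set E : ℝ := (b + η - a) * L / Real.log 2 with hE
  have hE0 : 0 ≤ E := by positivity
  set J : ℕ := ⌈E⌉₊ + 1 with hJ
  have h2E : (2 : ℝ) ^ E = T ^ (b + η - a) := by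
    rw [hexp, Real.rpow_def_of_pos (by norm_num), hE]
    congr 1
    field_simp
  have hTsplit : T ^ (b + η - a) * T ^ a = T ^ (b + η) := by
    rw [← Real.rpow_add hT0]
    congr 1
    ring
  have hJlow : T ^ (b + η) ≤ 2 ^ J * Y := by
    have h1 : (2 : ℝ) ^ E ≤ 2 ^ (⌈E⌉₊ : ℕ) := by
      rw [← Real.rpow_natCast]
      exact Real.rpow_le_rpow_of_exponent_le (by norm_num) (Nat.le_ceil E)
    rw [h2E] at h1
    rw [← hTsplit, hJ, hY, pow_succ]
    have h3 : T ^ (b + η - a) * T ^ a ≤ 2 ^ (⌈E⌉₊ : ℕ) * T ^ a :=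
      mul_le_mul_of_nonneg_right h1 (by positivity)
    linarith
  have hjup : ∀ j : ℕ, j < J → 2 ^ j * Y ≤ T ^ (b + η) := by
    intro j hj
    have h0 : j ≤ ⌈E⌉₊ := by omega
    have h1 : (2 : ℝ) ^ j ≤ 2 * 2 ^ E := by
      calc (2 : ℝ) ^ j ≤ 2 ^ (⌈E⌉₊ : ℕ) := pow_le_pow_right₀ (by norm_num) h0
        _ = 2 ^ ((⌈E⌉₊ : ℕ) : ℝ) := by rw [Real.rpow_natCast]
        _ ≤ 2 ^ (E + 1) :=
          Real.rpow_le_rpow_of_exponent_le (by norm_num) (Nat.ceil_lt_add_one hE0).le
        _ = 2 * 2 ^ E := by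
          rw [Real.rpow_add (by norm_num), Real.rpow_one]
          ring
    rw [h2E] at h1
    rw [← hTsplit, hY]
    have h3 : 2 ^ j * T ^ a ≤ 2 * T ^ (b + η - a) * T ^ a :=
      mul_le_mul_of_nonneg_right h1 (by positivity)
    linarith
  set W : ℕ → ℝ := fun j => (ww AA T (Set.Ioc (2 ^ j * Y / 2) (8 * (2 ^ j * Y)))).toReal with hW
  have hJ1 : 2 ^ J * Y ≤ 2 * T ^ (b + η) := by
    have h1 := hjup (J - 1) (by omega)
    have h2 : (2 : ℝ) ^ J = 2 * 2 ^ (J - 1) := by
      rw [← pow_succ']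
      congr 1
    rw [h2]
    linarith
  obtain ⟨hfin, hsum⟩ := sum_toReal AA hY0 (mul_nonneg hδ hLpos.le) J
    (S := Set.Icc (T ^ a / 4) (16 * T ^ (b + η))) (fun x hx => ⟨by
      have h1 : T ^ a / 2 / 2 < x := hx.1
      linarith, by
      have : 0 < T ^ (b + η) := by positivity
      linarith [hx.2]⟩) hV
  have hdy : ∫ x in Set.Ioi (0 : ℝ), f x * x ^ (-(2 * σ + 1)) ≤
      ∑ j ∈ Finset.range J, 1024 / T * Real.exp (2 * A * (b + η)) * W j := by
    apply dyadic' (fun x => sq_nonneg _) (fun y z => VA.FF_ii _ _ _ _ _) hY0 J (by linarith)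
    · intro x hx hxY
      change VA.FF _ _ _ _ ^ 2 = 0
      rw [VA.FF_left hc0 hpq, zero_pow (by norm_num)]
      calc x * w ≤ Y * 2 := mul_le_mul hxY hw2 (by linarith) hY0.le
        _ = T ^ a := by rw [hY]; ring
        _ = Real.exp (a * L) := hexp a
    · intro x hx
      change VA.FF _ _ _ _ ^ 2 = 0
      rw [VA.FF_right (Real.exp_pos _).le, zero_pow (by norm_num)]
      rw [hN]
      linarith
    · intro j hj
      set X : ℝ := 2 ^ j * Y with hX
      have hX0 : 0 < X := by positivity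
      have hXY : Y ≤ X := by
        rw [hX]
        apply le_mul_of_one_le_left hY0.le
        exact one_le_pow₀ (by norm_num)
      have hXup : X ≤ T ^ (b + η) := hjup j hj
      have hTa : 32 * T ≤ T ^ a := by
        have h1 : 32 ≤ T ^ (a - 1) := by
          rw [hexp, ← Real.log_le_iff_le_exp (by norm_num)]
          rw [div_le_iff₀ ha1] at hL32
          linarith
        have h2 : T ^ a = T ^ (a - 1) * T := by
          rw [← Real.rpow_add_one hT0.ne']
          congr 1
          ring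
        rw [h2]
        exact mul_le_mul_of_nonneg_right h1 hT0.le
      have hX16 : 16 * T ≤ X := by
        refine le_trans ?_ hXY
        rw [hY]
        linarith
      have hint : ∫ x in X..2 * X, f x ≤ 4 * (256 * X ^ 2 / T * W j) := by
        obtain ⟨k', rfl⟩ : ∃ k', k = k' + 2 := ⟨k - 2, by omega⟩
        apply VA.FF_int k' hc1 hpq hX0 hw1 hw2
        intro v hv1 hvw
        exact dd_real meas_AA hT1 hX0 hv1 hvw (hfin j hj)
      have hWj : 0 ≤ W j := ENNReal.toReal_nonneg
      have hX1 : 1 ≤ X := by linarith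
      have hlogX0 : 0 ≤ Real.log X := Real.log_nonneg hX1
      have hlogX : Real.log X ≤ (b + η) * L := by
        rw [Real.log_le_iff_le_exp hX0, ← hexp]
        exact hXup
      have hsig : 1 - 2 * σ ≤ 2 * A / L := by
        unfold sm at hσ
        rw [← hL] at hσ
        have : 2 * A / L = 2 * (A / L) := by ring
        linarith
      have hpow : X ^ (-(2 * σ + 1)) * X ^ 2 ≤ Real.exp (2 * A * (b + η)) := by
        have h1 : X ^ (-(2 * σ + 1)) * X ^ 2 = Real.exp (Real.log X * (1 - 2 * σ)) := by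
          rw [← Real.rpow_two, ← Real.rpow_add hX0, Real.rpow_def_of_pos hX0]
          congr 1
          ring
        rw [h1]
        apply Real.exp_le_exp.2
        calc Real.log X * (1 - 2 * σ) ≤ Real.log X * (2 * A / L) :=
              mul_le_mul_of_nonneg_left hsig hlogX0
          _ ≤ (b + η) * L * (2 * A / L) := mul_le_mul_of_nonneg_right hlogX (by positivity)
          _ = 2 * A * (b + η) := by
            field_simp
      calc X ^ (-(2 * σ + 1)) * ∫ x in X..2 * X, f x
          ≤ X ^ (-(2 * σ + 1)) * (4 * (256 * X ^ 2 / T * W j)) :=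
            mul_le_mul_of_nonneg_left hint (by positivity)
        _ = 1024 / T * (X ^ (-(2 * σ + 1)) * X ^ 2) * W j := by ring
        _ ≤ 1024 / T * Real.exp (2 * A * (b + η)) * W j :=
            mul_le_mul_of_nonneg_right (mul_le_mul_of_nonneg_left hpow (by positivity)) hWj
  have hfin2 : ∫ x in Set.Ioi (0 : ℝ),
      (∑ n ∈ (Finset.Icc 1 ⌊Real.exp (b * L + k * c)⌋₊).filter
        (fun n : ℕ => x < n ∧ (n : ℝ) ≤ x * Real.exp (1 / (8 * T))),
        VA.aN k c (a * L) (b * L) n) ^ 2 * x ^ (-(2 * σ) - 1) =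
      ∫ x in Set.Ioi (0 : ℝ), f x * x ^ (-(2 * σ + 1)) := by
    have e : -(2 * σ) - 1 = -(2 * σ + 1) := by ring
    rw [e]
    rfl
  rw [hfin2]
  rw [← Finset.mul_sum] at hdy
  calc CP * T ^ 2 * ∫ x in Set.Ioi (0 : ℝ), f x * x ^ (-(2 * σ + 1))
      ≤ CP * T ^ 2 * (1024 / T * Real.exp (2 * A * (b + η)) * ∑ j ∈ Finset.range J, W j) :=
        mul_le_mul_of_nonneg_left hdy (by positivity)
    _ ≤ CP * T ^ 2 * (1024 / T * Real.exp (2 * A * (b + η)) * (4 * (δ * L))) := by
        apply mul_le_mul_of_nonneg_left _ (by positivity)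
        exact mul_le_mul_of_nonneg_left hsum (by positivity)
    _ = 4096 * CP * Real.exp (2 * A * (b + η)) * δ * T * L := by
        field_simp
        ring

end Pool.Agent.X113.LV
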