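import Pool.Agent.X113.LVP1
import Pool.Agent.Y857.VP.Fin

/-! Lower bound for the logarithmic average of the variance of primes in short intervals. -/

set_option autoImplicit false

open Complex MeasureTheory Filter Topology Set

namespace Pool.Agent.X113.LV

open Pool.Agent.Y857.VP
open Pool.Agent.H448R2.GC (cu cs ker sm)
open Pool.Agent.H24R2.DZ (mT MM bb mo ph yy)

/-- the mean square of the window polynomial -/
theorem win_avg (a b η : ℝ) (ha : 1 + 2 * η ≤ a) (hab : a < b) (hη : 0 < η) :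
    ∃ k₀ : ℕ, ∀ k : ℕ, k₀ ≤ k → ∃ C T₀ : ℝ, 0 < C ∧ ∀ T δ : ℝ, T₀ ≤ T → 0 ≤ δ →
    ww AA T (Set.Icc (T ^ a / 4) (16 * T ^ (b + η))) ≤ ENNReal.ofReal (δ * Real.log T) →
    ∫ t in (T / 8)..(5 * T),
      ‖PP k (η * Real.log T / k) (b * Real.log T) ((1 / 2 : ℝ) + (t : ℂ) * I) -
        PP k (η * Real.log T / k) (a * Real.log T) ((1 / 2 : ℝ) + (t : ℂ) * I)‖ ^ 2 ≤
      C * δ * T * Real.log T + 1 := by
  obtain ⟨k1, hk1⟩ := Pool.Agent.H448R2.GC.cs_zeta η b 1 hη (by linarith)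
  refine ⟨max k1 2, fun k hk => ?_⟩
  have hkk1 : k1 ≤ k := (le_max_left _ _).trans hk
  have hkk2 : 2 ≤ k := (le_max_right _ _).trans hk
  obtain ⟨C, T₁, hC, hAb⟩ := Ab_avg_psi a b 0 η (by linarith) hab le_rfl hη k hkk2
  obtain ⟨T₂, hT₂⟩ := hk1 k hkk1
  refine ⟨128 * C, max (max T₁ T₂) 40, by positivity, fun T δ hT hδ hV => ?_⟩
  have hTT1 : T₁ ≤ T := (le_max_left _ _).trans ((le_max_left _ _).trans hT)
  have hTT2 : T₂ ≤ T := (le_max_right _ _).trans ((le_max_left _ _).trans hT)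
  have hT40 : 40 ≤ T := (le_max_right _ _).trans hT
  have hT0 : 0 < T := by linarith
  have hL0 : 0 < Real.log T := Real.log_pos (by linarith)
  have hk0 : (0 : ℝ) < k := by
    have : (2 : ℝ) ≤ k := by exact_mod_cast hkk2
    linarith
  have key := hAb T δ hTT1 hδ hV (1 / 2) (by unfold Pool.Agent.H448R2.GC.sm; simp) (by norm_num)
  have hcsz := hT₂ T hTT2
  set L := Real.log T with hL
  set c := η * L / k with hc
  have hc0 : 0 < c := by positivity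
  have hpq : a * L ≤ b * L := mul_le_mul_of_nonneg_right hab.le hL0.le
  set S : ℝ → ℂ := fun t => ∑ n ∈ Finset.Icc 1 ⌊Real.exp (b * L + k * c)⌋₊,
        ((VA.aN k c (a * L) (b * L) n : ℝ) : ℂ) * (n : ℂ) ^ (-(((1 / 2 : ℝ) : ℂ) + (t : ℂ) * I))
    with hS
  have hScont : Continuous S := dir_cont _ _ _
  have hle : T / 8 ≤ 5 * T := by linarith
  have hpt : ∀ t ∈ Set.Icc (T / 8) (5 * T),
      ‖PP k c (b * L) ((1 / 2 : ℝ) + (t : ℂ) * I) - PP k c (a * L) ((1 / 2 : ℝ) + (t : ℂ) * I)‖ ^ 2 ≤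
      128 * ‖S t‖ ^ 2 + 8 / T ^ 2 := by
    intro t ht
    rw [PP_diff hc0 hpq]
    have h1 := hcsz (b * L) (by nlinarith) le_rfl (((1 / 2 : ℝ) : ℂ) + (t : ℂ) * I) (by simp; norm_num)
      (by simp; norm_num) (by simpa using ht.1) (by simp; linarith [ht.2])
    have h2 := hcsz (a * L) (by nlinarith) (by nlinarith) (((1 / 2 : ℝ) : ℂ) + (t : ℂ) * I)
      (by simp; norm_num) (by simp; norm_num) (by simpa using ht.1) (by simp; linarith [ht.2])
    have h3 : T ^ (-(1 : ℝ)) = 1 / T := by rw [Real.rpow_neg_one, one_div]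
    rw [h3] at h1 h2
    have h4 : ‖cs k c (b * L) (((1 / 2 : ℝ) : ℂ) + (t : ℂ) * I) -
        cs k c (a * L) (((1 / 2 : ℝ) : ℂ) + (t : ℂ) * I)‖ ≤ 2 / T := by
      have e : cs k c (b * L) (((1 / 2 : ℝ) : ℂ) + (t : ℂ) * I) -
        cs k c (a * L) (((1 / 2 : ℝ) : ℂ) + (t : ℂ) * I) =
        (cs k c (b * L) (((1 / 2 : ℝ) : ℂ) + (t : ℂ) * I) - riemannZeta (((1 / 2 : ℝ) : ℂ) + (t : ℂ) * I)) -
        (cs k c (a * L) (((1 / 2 : ℝ) : ℂ) + (t : ℂ) * I) -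
          riemannZeta (((1 / 2 : ℝ) : ℂ) + (t : ℂ) * I)) := by ring
      rw [e]
      refine (norm_sub_le _ _).trans ?_
      calc _ ≤ 1 / T + 1 / T := add_le_add h1 h2
        _ = 2 / T := by ring
    have h5 : ‖8 * S t + (cs k c (b * L) (((1 / 2 : ℝ) : ℂ) + (t : ℂ) * I) -
        cs k c (a * L) (((1 / 2 : ℝ) : ℂ) + (t : ℂ) * I))‖ ≤ 8 * ‖S t‖ + 2 / T := by
      refine (norm_add_le _ _).trans (add_le_add ?_ h4)
      rw [norm_mul]
      norm_num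
    calc _ ≤ (8 * ‖S t‖ + 2 / T) ^ 2 := pow_le_pow_left₀ (norm_nonneg _) h5 2
      _ ≤ 128 * ‖S t‖ ^ 2 + 8 / T ^ 2 := by
        have h6 : (2 / T) ^ 2 = 4 / T ^ 2 := by rw [div_pow]; norm_num
        have h7 : 8 / T ^ 2 = 2 * (2 / T) ^ 2 := by rw [h6]; ring
        rw [h7]
        nlinarith [sq_nonneg (8 * ‖S t‖ - 2 / T)]
  have hWc : Continuous (fun t : ℝ => ‖PP k c (b * L) ((1 / 2 : ℝ) + (t : ℂ) * I) -
      PP k c (a * L) ((1 / 2 : ℝ) + (t : ℂ) * I)‖ ^ 2) :=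
    ((PP_cont k c (b * L) (1 / 2)).sub (PP_cont k c (a * L) (1 / 2))).norm.pow 2
  have hS2 : Continuous (fun t : ℝ => ‖S t‖ ^ 2) := hScont.norm.pow 2
  have hSint : ∀ u v : ℝ, IntervalIntegrable (fun t => ‖S t‖ ^ 2) volume u v :=
    fun u v => hS2.intervalIntegrable u v
  calc _ ≤ ∫ t in (T / 8)..(5 * T), (128 * ‖S t‖ ^ 2 + 8 / T ^ 2) := by
        apply intervalIntegral.integral_mono_on hle (hWc.intervalIntegrable _ _)
          (((hSint _ _).const_mul _).add (by simp)) hpt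
    _ = 128 * (∫ t in (T / 8)..(5 * T), ‖S t‖ ^ 2) + (5 * T - T / 8) * (8 / T ^ 2) := by
        rw [intervalIntegral.integral_add ((hSint _ _).const_mul _) (by simp),
          intervalIntegral.integral_const_mul, intervalIntegral.integral_const, smul_eq_mul]
    _ ≤ 128 * (∫ t in (-(5 * T))..(5 * T), ‖S t‖ ^ 2) + 1 := by
        have h1 : ∫ t in (T / 8)..(5 * T), ‖S t‖ ^ 2 ≤ ∫ t in (-(5 * T))..(5 * T), ‖S t‖ ^ 2 := by
          apply intervalIntegral.integral_mono_interval (by linarith) hle le_rfl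
            (Filter.Eventually.of_forall fun t => by positivity) (hSint _ _)
        have h2 : (5 * T - T / 8) * (8 / T ^ 2) ≤ 1 := by
          have : (5 * T - T / 8) * (8 / T ^ 2) = 39 / T := by
            field_simp
            ring
          rw [this, div_le_one hT0]
          linarith
        linarith
    _ ≤ 128 * (C * δ * T * L) + 1 := by
        have : ∫ t in (-(5 * T))..(5 * T), ‖S t‖ ^ 2 ≤ C * δ * T * L := key
        linarith
    _ = 128 * C * δ * T * L + 1 := by ring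


/-- the logarithmic average over the whole strip -/
theorem window_avg (a b : ℝ) (ha : 1 < a) (hab : a + 1 < b) :
    ∃ c T₀ : ℝ, 0 < c ∧ ∀ T : ℝ, T₀ ≤ T →
      ENNReal.ofReal (c * Real.log T ^ 2) < ww AA T (Set.Icc (T ^ a) (T ^ b)) := by
  -- parameters
  obtain ⟨η, hη0, hη1, hηa, hηb⟩ : ∃ η : ℝ, 0 < η ∧ η ≤ 1 ∧ 1 + 2 * η ≤ a ∧ a + 1 + 8 * η ≤ b := by
    refine ⟨min 1 (min ((a - 1) / 2) ((b - a - 1) / 8)), ?_, min_le_left _ _, ?_, ?_⟩
    · apply lt_min one_pos (lt_min _ _) <;> linarith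
    · have : min 1 (min ((a - 1) / 2) ((b - a - 1) / 8)) ≤ (a - 1) / 2 :=
        (min_le_right _ _).trans (min_le_left _ _)
      linarith
    · have : min 1 (min ((a - 1) / 2) ((b - a - 1) / 8)) ≤ (b - a - 1) / 8 :=
        (min_le_right _ _).trans (min_le_right _ _)
      linarith
  obtain ⟨c₀, hc₀, hrefl⟩ := Pool.Agent.H448R2.GC.zeta_refl
  obtain ⟨θ, hθ0, hθ1, hθ2⟩ : ∃ θ : ℝ, 0 < θ ∧ θ ≤ 1 / 200 ∧ θ ≤ η / 2 :=
    ⟨min (1 / 200) (η / 2), lt_min (by norm_num) (by linarith), min_le_left _ _, min_le_right _ _⟩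
  obtain ⟨A, TU, hA1, hU⟩ := upper_U θ hθ0 hθ1 (c₀ / 16) (by positivity)
  obtain ⟨Cm, Tm, hCm, hTm, hms⟩ := ms_left θ hθ0 hθ1
  obtain ⟨k1, hk1⟩ := l1b A (a + η) η hA1 (by linarith) hη0 hη1
  obtain ⟨k2, hk2⟩ := lb A (a + η) η (by linarith) (by linarith) hη0 hη1
  obtain ⟨k3, hk3⟩ := win_avg (a + η) (a + η + 1 + 5 * η) η (by linarith) (by linarith) hη0
  obtain ⟨k, hkk1, hkk2, hkk3⟩ : ∃ k : ℕ, k1 ≤ k ∧ k2 ≤ k ∧ k3 ≤ k :=
    ⟨max k1 (max k2 k3), le_max_left _ _, (le_max_left _ _).trans (le_max_right _ _),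
      (le_max_right _ _).trans (le_max_right _ _)⟩
  obtain ⟨C1, T1, hC1, hL1⟩ := hk1 k hkk1
  obtain ⟨T2, hLB⟩ := hk2 k hkk2
  obtain ⟨Cw, T3, hCw, hW⟩ := hk3 k hkk3
  clear hk1 hk2 hk3
  -- constants
  obtain ⟨CA, hCA⟩ : ∃ CA : ℝ, CA = Cm * ((1 + 2 * A) ^ 20 * Real.exp (4 * A)) := ⟨_, rfl⟩
  have hA0 : 0 < A := by linarith
  have hCA0 : 0 < CA := by rw [hCA]; positivity
  have hb0 : 0 < b := by linarith
  obtain ⟨E, hE⟩ : ∃ E : ℝ, E = Real.exp A := ⟨_, rfl⟩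
  have hE0 : 0 < E := by rw [hE]; exact Real.exp_pos _
  obtain ⟨g, hg0, hgc⟩ : ∃ g : ℝ, 0 < g ∧ C1 * g * (CA + Cw * b / 8) = c₀ * E / 16 := by
    refine ⟨c₀ * E / (16 * C1 * (CA + Cw * b / 8)), by positivity, ?_⟩
    field_simp
  -- `T` large
  obtain ⟨T4, hT4⟩ := ev_log (max (max (8 * A + 8) (80 * 16 / (c₀ * E)))
    (max (1 / (g ^ 2 * b)) (max (Real.log 64 / η) (C1 / g))))
  refine ⟨g ^ 2 * b / 8, max (max TU Tm) (max (max T1 T2) (max T3 (max T4 64))),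
    by positivity, fun T hT => ?_⟩
  simp only [max_le_iff] at hT
  obtain ⟨⟨hTU, hTm'⟩, ⟨hTT1, hTT2⟩, hTT3, hTT4, hT64⟩ := hT
  have hLL := hT4 T hTT4
  simp only [max_le_iff] at hLL
  obtain ⟨⟨hLA, hLc⟩, hLg, hLη, hLC⟩ := hLL
  have hTpos : 0 < T := by linarith
  replace hL1 := hL1 T hTT1
  replace hLB := hLB T hTT2
  replace hW := fun δ => hW T δ hTT3
  replace hU := hU T hTU
  replace hms := fun κ β => hms T κ β hTm'
  clear hT4
  obtain ⟨L, hL⟩ : ∃ L : ℝ, L = Real.log T := ⟨_, rfl⟩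
  rw [← hL] at hLA hLc hLg hLη hLC
  have hL0 : 0 < L := by linarith
  rw [div_le_iff₀ hη0] at hLη
  rw [div_le_iff₀ hg0] at hLC
  rw [div_le_iff₀ (by positivity)] at hLc hLg
  have h64η : 64 ≤ T ^ η := by
    rw [Real.rpow_def_of_pos hTpos, ← Real.log_le_iff_le_exp (by norm_num), ← hL]
    exact hLη
  by_contra hcon
  push Not at hcon
  have hVG : ww AA T (Set.Icc (T ^ (a + η) / 4) (16 * T ^ (a + η + 1 + 5 * η + η))) ≤
      ENNReal.ofReal (g ^ 2 * b * L / 8 * L) := by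
    have e0 : g ^ 2 * b * L / 8 * L = g ^ 2 * b / 8 * Real.log T ^ 2 := by rw [hL]; ring
    rw [e0]
    refine (lintegral_mono_set (Set.Icc_subset_Icc ?_ ?_)).trans hcon
    · have e1 : T ^ (a + η) = T ^ a * T ^ η := by rw [Real.rpow_add hTpos]
      have hTa0 : 0 < T ^ a := Real.rpow_pos_of_pos hTpos _
      rw [e1]
      nlinarith
    · have e2 : T ^ (a + η + 1 + 5 * η + η) * T ^ η ≤ T ^ b := by
        rw [← Real.rpow_add hTpos]
        apply Real.rpow_le_rpow_of_exponent_le (by linarith)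
        linarith
      have e3 : 0 < T ^ (a + η + 1 + 5 * η + η) := Real.rpow_pos_of_pos hTpos _
      nlinarith
  -- notation
  obtain ⟨κ, hκ⟩ : ∃ κ : ℝ, κ = A / L := ⟨_, rfl⟩
  have hκ0 : 0 < κ := by rw [hκ]; positivity
  have hκ8 : κ ≤ 1 / 8 := by
    rw [hκ, div_le_iff₀ hL0]; linarith
  have hκL : κ * L = A := by rw [hκ]; field_simp
  have hbn : ∀ h, ‖bs θ T κ h‖ ≤ 1 := bs_norm θ T κ hκ0.le
  have hb1 : bs θ T κ 1 = 1 := bs_one θ T κ
  have hTθ : 1 ≤ T ^ θ := Real.one_le_rpow (by linarith) hθ0.le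
  have hN1 : 1 ≤ yy θ T := by
    unfold Pool.Agent.H24R2.DZ.yy
    rw [Nat.one_le_ceil_iff]
    linarith
  have hNlog : Real.log (yy θ T) ≤ η * L := nat_log_bound θ η T L hTpos hTθ hL hL0 hθ2 hLη
  -- mean squares
  have hZ2 := Z2_bound θ T A L κ Cm hθ0 hθ1 hCm hms hL hA0 hTpos hκ0.le hκ8 hκL
  rw [← hCA] at hZ2
  have hδ0 : 0 ≤ g ^ 2 * b * L / 8 := by positivity
  have hB2 : ∫ t in (T / 4)..(4 * T), Bf T (a + η) (a + η + 1 + 5 * η) η k t ^ 2 ≤
      Cw * (g ^ 2 * b * L / 8) * T * L + 1 := by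
    have h1 := hW (g ^ 2 * b * L / 8) hδ0 (by rw [← hL]; exact hVG)
    rw [← hL] at h1
    refine le_trans ?_ h1
    have h2 : ∫ t in (T / 4)..(4 * T), Bf T (a + η) (a + η + 1 + 5 * η) η k t ^ 2 ≤
        ∫ t in (T / 8)..(5 * T), Bf T (a + η) (a + η + 1 + 5 * η) η k t ^ 2 := by
      apply intervalIntegral.integral_mono_interval (by linarith) (by linarith) (by linarith)
      · exact Eventually.of_forall fun u => sq_nonneg _
      · exact ((Bf_cont T (a + η) _ η k).pow 2).intervalIntegrable _ _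
    refine h2.trans (le_of_eq ?_)
    rw [hL]
    rfl
  -- the `L^1` bound
  have hl1 := hL1 (yy θ T) (bs θ T κ) hbn (by rw [← hL]; exact hNlog) (g * L) (by positivity)
  rw [← hL, ← hκ] at hl1
  have hl1' : ∫ t in (T / 2)..(3 * T), Ef T (a + η) η k (yy θ T) (bs θ T κ) (1 / 2 - κ) t ≤
      (c₀ * E / 16) * L * T + C1 / (g * L) + 5 * T := by
    refine hl1.trans ?_
    have e1 : C1 * (g * L * (∫ t in (T / 4)..(4 * T), Zf (yy θ T) (bs θ T κ) t ^ 2) +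
        1 / (g * L) * ∫ t in (T / 4)..(4 * T), Bf T (a + η) (a + η + 1 + 5 * η) η k t ^ 2) ≤
        C1 * (g * L * (CA * T) + 1 / (g * L) * (Cw * (g ^ 2 * b * L / 8) * T * L + 1)) := by
      apply mul_le_mul_of_nonneg_left _ hC1.le
      apply add_le_add
      · exact mul_le_mul_of_nonneg_left hZ2 (by positivity)
      · exact mul_le_mul_of_nonneg_left hB2 (by positivity)
    rw [alg1 C1 g L CA Cw b T hg0 hL0, hgc] at e1
    linarith
  -- the lower bound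
  have hlow := hLB (yy θ T) (bs θ T κ) hbn hb1 hN1 (by rw [← hL]; exact hNlog)
  rw [← hL, ← hκ] at hlow
  have hcmpI := cmp_int c₀ θ T κ (a + η) η E L k hc₀ hE0 hL hL0 hrefl hT64 hκ0.le hκ8
    (by rw [hκL, hE])
  rw [← hL, ← hκ] at hU
  have hUb' : ∫ t in (T / 2)..(3 * T), Uf θ T κ L t ≤ c₀ / 16 * E * T := by
    rw [hE]
    exact hU
  exact final_contra c₀ E L T g C1 _ _ _ hc₀ hE0 hL0 hTpos hg0 (by linarith)
    (by linarith) (by linarith) hlow hcmpI hUb' hl1'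



end Pool.Agent.X113.LV
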