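import Pool.Agent.X113.LVP2
import Pool.Agent.X113.LV4

/-! The logarithmic average of the variance of primes in short intervals. -/

set_option autoImplicit false

open MeasureTheory Filter Set

namespace Pool.Agent.X113.LV

open Pool.Agent.Y857.VP

/-- `ψ(x) - x` -/
noncomputable def PM (x : ℝ) : ℝ := Chebyshev.psi x - x

theorem PM_eq (x : ℝ) : PM x = 8 * AA x + ((⌊x⌋₊ : ℝ) - x) := by
  unfold PM
  rw [AA_eq]
  ring

theorem meas_PM : Measurable PM := by
  have h : PM = fun x => 8 * AA x + ((⌊x⌋₊ : ℝ) - x) := funext PM_eq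
  rw [h]
  have h2 : Measurable fun x : ℝ => (⌊x⌋₊ : ℝ) :=
    (measurable_from_nat (f := fun n : ℕ => (n : ℝ))).comp Nat.measurable_floor
  exact (meas_AA.const_mul 8).add (h2.sub measurable_id)

theorem abs_PM (x : ℝ) : |PM x| ≤ 9 * |x| := by
  rw [PM_eq]
  have h1 := abs_AA_le x
  have h2 : |(⌊x⌋₊ : ℝ) - x| ≤ |x| := by
    rcases le_or_gt 0 x with hx | hx
    · have h3 : (⌊x⌋₊ : ℝ) ≤ x := Nat.floor_le hx
      have h4 : (0 : ℝ) ≤ ⌊x⌋₊ := Nat.cast_nonneg _
      rw [abs_of_nonneg hx, abs_le]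
      constructor <;> linarith
    · rw [Nat.floor_of_nonpos hx.le]
      simp
  calc |8 * AA x + ((⌊x⌋₊ : ℝ) - x)| ≤ |8 * AA x| + |(⌊x⌋₊ : ℝ) - x| := abs_add_le _ _
    _ ≤ 8 * |x| + |x| := by
        rw [abs_mul, abs_of_pos (by norm_num : (0 : ℝ) < 8)]
        linarith
    _ = 9 * |x| := by ring

theorem AA_PM {x H : ℝ} (hH : 0 ≤ H) (hx : H / 2 ≤ x) :
    (AA (x + H / 2) - AA (x - H / 2)) ^ 2 ≤ 1 / 32 * (PM (x + H / 2) - PM (x - H / 2)) ^ 2 + 1 / 32 := by
  have e1 := PM_eq (x + H / 2)
  have e2 := PM_eq (x - H / 2)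
  have f1 : (⌊x + H / 2⌋₊ : ℝ) ≤ x + H / 2 := Nat.floor_le (by linarith)
  have f2 : (⌊x - H / 2⌋₊ : ℝ) ≤ x - H / 2 := Nat.floor_le (by linarith)
  have f3 := Nat.lt_floor_add_one (x + H / 2)
  have f4 := Nat.lt_floor_add_one (x - H / 2)
  set p := PM (x + H / 2)
  set q := PM (x - H / 2)
  set e : ℝ := ((⌊x + H / 2⌋₊ : ℝ) - (x + H / 2)) - ((⌊x - H / 2⌋₊ : ℝ) - (x - H / 2)) with he
  have e3 : AA (x + H / 2) - AA (x - H / 2) = ((p - q) - e) / 8 := by
    rw [e1, e2, he]; ring
  have e4 : e ^ 2 ≤ 1 := by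
    rw [sq_le_one_iff_abs_le_one, abs_le]
    constructor <;> linarith
  rw [e3]
  nlinarith [sq_nonneg ((p - q) + e)]

theorem vt_AA_PM {X H : ℝ} (hX : 0 < X) (hH : 0 < H) (hHX : H ≤ 2 * X) :
    vt AA X H ≤ ENNReal.ofReal (1 / 32) * vt PM X H + ENNReal.ofReal (1 / (32 * (H ^ 2 * X))) := by
  have hm : Measurable (fun x => ENNReal.ofReal (1 / 32) *
      ENNReal.ofReal ((PM (x + H / 2) - PM (x - H / 2)) ^ 2)) := by
    apply Measurable.const_mul
    apply Measurable.ennreal_ofReal
    exact ((meas_PM.comp (measurable_id.add_const _)).sub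
      (meas_PM.comp (measurable_id.sub_const _))).pow_const 2
  unfold vt
  calc _ ≤ ENNReal.ofReal (1 / (H ^ 2 * X ^ 2)) * ∫⁻ x in Ioc X (2 * X),
        (ENNReal.ofReal (1 / 32) * ENNReal.ofReal ((PM (x + H / 2) - PM (x - H / 2)) ^ 2) +
          ENNReal.ofReal (1 / 32)) := by
        refine mul_le_mul_right (setLIntegral_mono' measurableSet_Ioc fun x hx => ?_) _
        rw [← ENNReal.ofReal_mul (by norm_num), ← ENNReal.ofReal_add (by positivity) (by norm_num)]
        exact ENNReal.ofReal_le_ofReal (AA_PM hH.le (by linarith [hx.1]))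
    _ = _ := by
        rw [lintegral_add_left hm, setLIntegral_const, Real.volume_Ioc,
          lintegral_const_mul' _ _ ENNReal.ofReal_ne_top, mul_add]
        congr 1
        · rw [← mul_assoc, mul_comm (ENNReal.ofReal (1 / (H ^ 2 * X ^ 2))) (ENNReal.ofReal (1 / 32)),
            mul_assoc]
        · have hp : 0 ≤ 1 / (H ^ 2 * X ^ 2) := by positivity
          rw [← ENNReal.ofReal_mul (by norm_num), ← ENNReal.ofReal_mul hp]
          congr 1
          field_simp
          ring

/-- the averages for the two functions -/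
theorem ww_AA_PM {T lo hi : ℝ} (hT : 4 ≤ T) (hlo : 0 < lo) (hhi : lo ≤ hi) :
    ww AA T (Icc lo hi) ≤ ENNReal.ofReal (1 / 32) * ww PM T (Icc lo hi) +
      ENNReal.ofReal (32 * T / lo * Real.log (hi / lo)) := by
  have hT0 : 0 < T := by linarith
  have h1 : ∀ X ∈ Icc lo hi, gi AA T X ≤ ENNReal.ofReal (1 / 32) * gi PM T X +
      ENNReal.ofReal (32 * T / lo * (1 / X)) := by
    intro X hX
    have hX0 : 0 < X := hlo.trans_le hX.1
    unfold gi
    have hm : Measurable (fun H => ENNReal.ofReal (1 / 32) * vt PM X H) :=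
      ((meas_vt meas_PM).comp (measurable_const.prodMk measurable_id)).const_mul _
    calc _ ≤ ∫⁻ H in Icc (X / (16 * T)) (4 * X / T), (ENNReal.ofReal (1 / 32) * vt PM X H +
          ENNReal.ofReal (8 * T ^ 2 / X ^ 3)) := by
          refine setLIntegral_mono' measurableSet_Icc fun H hH => ?_
          have hH0 : 0 < H := lt_of_lt_of_le (by positivity) hH.1
          have hHX : H ≤ 2 * X := by
            refine hH.2.trans ?_
            rw [div_le_iff₀ hT0]
            nlinarith
          refine (vt_AA_PM hX0 hH0 hHX).trans (add_le_add le_rfl (ENNReal.ofReal_le_ofReal ?_))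
          have h4 : X ≤ H * (16 * T) := (div_le_iff₀ (by positivity)).1 hH.1
          have h5 : X ^ 2 ≤ (H * (16 * T)) ^ 2 := pow_le_pow_left₀ hX0.le h4 2
          rw [div_le_div_iff₀ (by positivity) (by positivity)]
          calc 1 * X ^ 3 = X ^ 2 * X := by ring
            _ ≤ (H * (16 * T)) ^ 2 * X := mul_le_mul_of_nonneg_right h5 hX0.le
            _ = 8 * T ^ 2 * (32 * (H ^ 2 * X)) := by ring
      _ = ENNReal.ofReal (1 / 32) * (∫⁻ H in Icc (X / (16 * T)) (4 * X / T), vt PM X H) +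
          ENNReal.ofReal (8 * T ^ 2 / X ^ 3) * volume (Icc (X / (16 * T)) (4 * X / T)) := by
          rw [lintegral_add_left hm, setLIntegral_const, lintegral_const_mul' _ _ ENNReal.ofReal_ne_top]
      _ ≤ _ := by
          refine add_le_add le_rfl ?_
          rw [Real.volume_Icc, ← ENNReal.ofReal_mul (by positivity)]
          apply ENNReal.ofReal_le_ofReal
          have h2 : 4 * X / T - X / (16 * T) ≤ 4 * X / T := by
            have : 0 < X / (16 * T) := by positivity
            linarith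
          calc 8 * T ^ 2 / X ^ 3 * (4 * X / T - X / (16 * T)) ≤ 8 * T ^ 2 / X ^ 3 * (4 * X / T) :=
                mul_le_mul_of_nonneg_left h2 (by positivity)
            _ = 32 * T / X * (1 / X) := by field_simp; ring
            _ ≤ 32 * T / lo * (1 / X) := by
                apply mul_le_mul_of_nonneg_right _ (by positivity)
                exact div_le_div_of_nonneg_left (by positivity) hlo hX.1
  have hm2 : Measurable (fun X => ENNReal.ofReal (1 / 32) * gi PM T X) := (meas_gi meas_PM T).const_mul _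
  have h3 : ∫⁻ X in Icc lo hi, ENNReal.ofReal (32 * T / lo * (1 / X)) =
      ENNReal.ofReal (32 * T / lo * Real.log (hi / lo)) := by
    have hc : ContinuousOn (fun X : ℝ => 32 * T / lo * (1 / X)) (Icc lo hi) := by
      apply ContinuousOn.mul continuousOn_const
      apply ContinuousOn.div continuousOn_const continuousOn_id
      intro x hx
      exact (hlo.trans_le hx.1).ne'
    rw [← ofReal_integral_eq_lintegral_ofReal hc.integrableOn_Icc]
    · rw [integral_Icc_eq_integral_Ioc, ← intervalIntegral.integral_of_le hhi,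
        intervalIntegral.integral_const_mul, integral_one_div_of_pos hlo (hlo.trans_le hhi)]
    · refine (ae_restrict_iff' measurableSet_Icc).2 (Eventually.of_forall fun x hx => ?_)
      have : 0 < x := hlo.trans_le hx.1
      simp only [Pi.zero_apply]
      positivity
  calc ww AA T (Icc lo hi) ≤ ∫⁻ X in Icc lo hi, (ENNReal.ofReal (1 / 32) * gi PM T X +
        ENNReal.ofReal (32 * T / lo * (1 / X))) := setLIntegral_mono' measurableSet_Icc h1
    _ = _ := by
        rw [lintegral_add_left hm2, h3, lintegral_const_mul' _ _ ENNReal.ofReal_ne_top]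
        rfl

theorem vr_PM {X H : ℝ} (hX : 0 < X) (hH : 0 < H) (hHX : H ≤ 2 * X) :
    vr PM X H = (1 / X) * ∫ x in X..2 * X, |psi x H - H| ^ 2 := by
  unfold vr
  congr 1
  rw [intervalIntegral.integral_of_le (by linarith), intervalIntegral.integral_of_le (by linarith)]
  apply integral_congr_ae
  filter_upwards [ae_restrict_of_ae (null_set H), ae_restrict_mem measurableSet_Ioc] with x hx hx2
  rw [psi_eq x H hH.le (by linarith [hx2.1]) hx, sq_abs]
  unfold PM
  ring

theorem psi_final (a b : ℝ) (ha : 1 < a) (hab : a + 1 < b) : ∃ c T₀ : ℝ, 0 < c ∧ 1 ≤ T₀ ∧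
    ∀ T : ℝ, T₀ ≤ T → c * Real.log T ^ 2 ≤ ∫ X in (T ^ a)..(T ^ b),
      (∫ H in (X / (16 * T))..(4 * X / T),
        ((1 / X) * ∫ x in X..2 * X, |psi x H - H| ^ 2) / H ^ 2) / X := by
  obtain ⟨c, T₀, hc, h⟩ := window_avg a b ha hab
  have hba : 0 < b - a := by linarith
  refine ⟨16 * c, max T₀ (max 4 (Real.exp (64 * (b - a) / c))), by positivity, le_trans (by norm_num)
    ((le_max_left _ _).trans (le_max_right _ _)), fun T hT => ?_⟩
  simp only [max_le_iff] at hT
  obtain ⟨hT1, hT4, hTe⟩ := hT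
  have hT0 : 0 < T := by linarith
  have hlo : 0 < T ^ a := Real.rpow_pos_of_pos hT0 _
  have hle : T ^ a ≤ T ^ b := Real.rpow_le_rpow_of_exponent_le (by linarith) (by linarith)
  have hL : 64 * (b - a) / c ≤ Real.log T := by
    rw [Real.le_log_iff_exp_le hT0]
    exact hTe
  have hL0 : 0 < Real.log T := lt_of_lt_of_le (by positivity) hL
  have hlog : Real.log (T ^ b / T ^ a) = (b - a) * Real.log T := by
    rw [← Real.rpow_sub hT0, Real.log_rpow hT0]
  have hTa : T ≤ T ^ a := by
    calc T = T ^ (1 : ℝ) := (Real.rpow_one T).symm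
      _ ≤ T ^ a := Real.rpow_le_rpow_of_exponent_le (by linarith) ha.le
  have h1 := (h T hT1).trans_le (ww_AA_PM hT4 hlo hle)
  rw [ww_real meas_PM (by norm_num) abs_PM (by linarith) hlo hle, hlog,
    ← ENNReal.ofReal_mul (by norm_num)] at h1
  set I : ℝ := ∫ X in (T ^ a)..(T ^ b),
      (∫ H in (X / (16 * T))..(4 * X / T), vr PM X H / H ^ 2) / X with hI
  have hvr : ∀ X H : ℝ, 0 < X → 0 ≤ vr PM X H := by
    intro X H hX
    unfold vr
    apply mul_nonneg (by positivity)
    exact intervalIntegral.integral_nonneg (by linarith) fun x _ => sq_nonneg _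
  have hle2 : ∀ X : ℝ, 0 < X → X / (16 * T) ≤ 4 * X / T := by
    intro X hX0
    rw [div_le_div_iff₀ (by positivity) hT0]
    nlinarith
  have hI0 : 0 ≤ I := by
    apply intervalIntegral.integral_nonneg hle
    intro X hX
    have hX0 : 0 < X := hlo.trans_le hX.1
    apply div_nonneg _ hX0.le
    apply intervalIntegral.integral_nonneg (hle2 X hX0)
    intro H hH
    exact div_nonneg (hvr X H hX0) (by positivity)
  have h2 : 32 * T / T ^ a * ((b - a) * Real.log T) ≤ c / 2 * Real.log T ^ 2 := by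
    have h3 : 32 * T / T ^ a ≤ 32 := by
      rw [div_le_iff₀ hlo]
      linarith
    have h4 : 64 * (b - a) ≤ c * Real.log T := by
      rw [div_le_iff₀ hc] at hL
      linarith [mul_comm c (Real.log T)]
    calc 32 * T / T ^ a * ((b - a) * Real.log T) ≤ 32 * ((b - a) * Real.log T) :=
          mul_le_mul_of_nonneg_right h3 (by positivity)
      _ ≤ c / 2 * Real.log T ^ 2 := by nlinarith
  rw [← ENNReal.ofReal_add (by positivity) (by positivity), ENNReal.ofReal_lt_ofReal_iff'] at h1
  have h5 : 16 * c * Real.log T ^ 2 ≤ I := by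
    have := h1.1
    linarith
  refine h5.trans (le_of_eq ?_)
  rw [hI]
  apply intervalIntegral.integral_congr
  intro X hX
  rw [uIcc_of_le hle] at hX
  have hX0 : 0 < X := hlo.trans_le hX.1
  simp only
  congr 1
  apply intervalIntegral.integral_congr
  intro H hH
  rw [uIcc_of_le (hle2 X hX0)] at hH
  have hH0 : 0 < H := lt_of_lt_of_le (by positivity) hH.1
  have hHX : H ≤ 2 * X := by
    refine hH.2.trans ?_
    rw [div_le_iff₀ hT0]
    nlinarith
  simp only
  rw [vr_PM hX0 hH0 hHX]

theorem psi_dyadic (X H : ℝ) (hX : 1 ≤ X) (hH : 0 ≤ H) :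
    (1 / X) * ∫ x in X..2 * X, |psi x H - H| ^ 2 ≤
      2 * ((1 / (2 * X)) * ∫ x in (1 : ℝ)..2 * X, |psi x H - H| ^ 2) := by
  have h1 := mean_le (2 * X) H (by linarith) hH
  have e : 2 * X / 2 = X := by ring
  rw [e] at h1
  have hX0 : 0 < X := by linarith
  have e2 : (1 / X) * ∫ x in X..2 * X, |psi x H - H| ^ 2 =
      2 * (1 / (2 * X) * ∫ x in X..2 * X, |psi x H - H| ^ 2) := by
    field_simp
  rw [e2]
  linarith

end Pool.Agent.X113.LV
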