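import Pool.Agent.Y743.LR.NX

/-! # The unfolded ordinates are not close to a lattice, with the unfolded gaps of the problem -/

set_option autoImplicit false

open Filter Topology MeasureTheory Set Polynomial

namespace Pool.Agent.X113.Lat

open Pool.Agent.Y743.LR
open SG (ord NZ)
open SP (RHs)

/-- **the unfolded ordinates are not close to a lattice** -/
theorem lattice_dl (hRH : RiemannHypothesis) (C : ℝ) : ∃ ε : ℝ, 0 < ε ∧ ∀ᶠ N : ℕ in atTop,
    ∀ (x : ℕ → ℝ) (b : ℝ), ∑ n ∈ Finset.Icc 1 N, |x n| ^ 3 ≤ C * N →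
      ε * N ≤ ({n : ℕ | 1 ≤ n ∧ n ≤ N ∧ ε ≤ |dl n - b - (x (n + 1) - x n)|}.ncard : ℝ) := by
  by_contra hcon
  push Not at hcon
  obtain ⟨κ, D, C1, C4, T00, hκ, hκ1, hD, hC1, hC4, hT00, hset⟩ := setup hRH
  have hD0 : 0 < D := by linarith
  obtain ⟨N0, hN0⟩ := (ord_tendsto.eventually_ge_atTop (2 * D * T00)).exists_forall_of_atTop
  have key : ∀ i : ℕ, ∃ N : ℕ, max i N0 ≤ N ∧ ∃ (x : ℕ → ℝ) (b : ℝ),
      ∑ n ∈ Finset.Icc 1 N, |x n| ^ 3 ≤ C * N ∧
      ({n : ℕ | 1 ≤ n ∧ n ≤ N ∧ 1 / ((i : ℝ) + 1) ≤ |dl n - b - (x (n + 1) - x n)|}.ncard : ℝ) <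
        1 / ((i : ℝ) + 1) * N := by
    intro i
    obtain ⟨N, h1, h2⟩ := (hcon (1 / ((i : ℝ) + 1)) (by positivity)).forall_exists_of_atTop
      (max i N0)
    exact ⟨N, h1, h2⟩
  choose N hN x b hx hb using key
  set M : ℝ := |Real.log κ| + |Real.log D| + Real.log (2 * Real.pi) with hM
  set T : ℕ → ℝ := fun i => ord (N i) / (2 * D) with hT
  have hNt : Tendsto N atTop atTop :=
    tendsto_atTop_mono (fun i => (le_max_left _ _).trans (hN i)) tendsto_id
  have hTT : ∀ i, T00 ≤ T i := by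
    intro i
    rw [hT]
    dsimp only
    rw [le_div_iff₀ (by positivity)]
    have := hN0 (N i) ((le_max_right _ _).trans (hN i))
    linarith
  obtain ⟨hTt, hT10, hn1, hgk, hNC, hN3, hnull⟩ := hset N T hNt (fun i => rfl) hTT
  have hTpos : ∀ i, 0 < T i := fun i => by linarith [hT10 i]
  have hε0 : Tendsto (fun i : ℕ => 1 / ((i : ℝ) + 1)) atTop (𝓝 0) :=
    tendsto_one_div_add_atTop_nhds_zero_nat
  have hl0 : Tendsto (fun i => M / Real.log (T i)) atTop (𝓝 0) :=
    (Real.tendsto_log_atTop.comp hTt).const_div_atTop M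
  have he0 : Tendsto (fun i : ℕ => 2 * (1 / ((i : ℝ) + 1)) + M / Real.log (T i)) atTop
      (𝓝 0) := by
    have := (hε0.const_mul 2).add hl0
    simpa using this
  have hlp : 0 ≤ Real.log (2 * Real.pi) := Real.log_nonneg (by linarith [Real.pi_gt_three])
  have hM0 : 0 ≤ M := by positivity
  have hN2 : INull T NZ (fun i => dif (dif (XX.gg (x i) (yv (T i))))) := by
    refine hnull
      (fun i => {n : ℕ | 1 / ((i : ℝ) + 1) ≤ |dl n - b i - (x i (n + 1) - x i n)|})
      (fun i : ℕ => 1 / ((i : ℝ) + 1)) _ hε0 he0 (fun i => (hb i).le) _ 2 ?_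
    refine Eventually.of_forall fun i n hm1 hm2 hm3 hs1 hs2 => ?_
    have hT1 : 1 < T i := by linarith [hT10 i]
    have hL : 0 < Real.log (T i) := Real.log_pos hT1
    have s1 : |dl n - b i - (x i (n + 1) - x i n)| < 1 / ((i : ℝ) + 1) := not_le.mp hs1
    have s2 : |dl (n + 1) - b i - (x i (n + 1 + 1) - x i (n + 1))| < 1 / ((i : ℝ) + 1) :=
      not_le.mp hs2
    have hm3' : ord (n + 1 + 1) ≤ D * T i := hm3
    have hm4 : ord (n + 1) ≤ D * T i := (ord_step (by omega)).trans hm3'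
    have hm5 : κ * T i < ord (n + 1) := hm2.trans_le (ord_step hm1)
    have c1 := dl_close hκ hD0 hT1 hm1 hm2 ((ord_step hm1).trans hm4)
    have c2 := dl_close hκ hD0 hT1 (by omega : 1 ≤ n + 1) hm5 hm4
    have g1 := dif_nonneg hT1.le hm1
    have g2 := dif_nonneg hT1.le (by omega : 1 ≤ n + 1)
    set ε : ℝ := 1 / ((i : ℝ) + 1) with hε
    have hε0' : 0 ≤ ε := by positivity
    set τ : ℝ := M / Real.log (T i) with hτ
    have hτ0 : 0 ≤ τ := by positivity
    have e1 : dif (dif (XX.gg (x i) (yv (T i)))) n =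
        ((dif (yv (T i)) (n + 1) - dl (n + 1)) +
          (dl (n + 1) - b i - (x i (n + 1 + 1) - x i (n + 1)))) -
        ((dif (yv (T i)) n - dl n) + (dl n - b i - (x i (n + 1) - x i n))) := by
      unfold dif XX.gg
      ring
    rw [e1, Finset.sum_range_succ, Finset.sum_range_one, add_zero]
    set y1 := dif (yv (T i)) n
    set y2 := dif (yv (T i)) (n + 1)
    have e2 : (2 * ε + τ) * (1 + (y1 + y2)) =
        2 * ε + τ * y1 + τ * y2 + 2 * ε * (y1 + y2) + τ := by ring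
    have e3 : 0 ≤ 2 * ε * (y1 + y2) := by positivity
    rw [e2]
    obtain ⟨r1, r2⟩ := abs_lt.mp s1
    obtain ⟨r3, r4⟩ := abs_lt.mp s2
    obtain ⟨q1, q2⟩ := abs_le.mp c1
    obtain ⟨q3, q4⟩ := abs_le.mp c2
    rw [abs_le]
    constructor <;> linarith
  have D0 := data hRH hTt hT10 hn1 0
  obtain ⟨C5, hC5, hm2⟩ := mom2 (D := D) (H177.Lat.rhs_of hRH) hκ hC1
  obtain ⟨C6, hC6, hx2⟩ := x_mom (D := D) (H177.Lat.rhs_of hRH) hκ hC1
  have hpi := Real.pi_pos
  set K : ℝ := |C| * C4 with hK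
  have hK0 : 0 ≤ K := by positivity
  refine XX.core (T := T) (ν := NZ) (y := fun i => yv (T i)) (x := x)
    ⟨hT10, hTt, SG.NZ_mono, D0.sand, ?_, D0.var, D0.cube⟩ hN2
  refine ⟨2 * C5 + 2 * (2 * Real.pi * (K + C6)), by positivity, fun a ha => ?_⟩
  have hlog : ∀ᶠ i in atTop, 1 ≤ Real.log (T i) :=
    (Real.tendsto_log_atTop.comp hTt).eventually_ge_atTop 1
  filter_upwards [hgk 0, hTt.eventually_ge_atTop (2 * Real.pi * a), hlog] with i h2 h3 h4
  have hh0 : 0 ≤ hh T i a := hh_nonneg hT10 i ha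
  have hhT : hh T i a ≤ T i := by
    unfold hh
    rw [div_le_iff₀ (by linarith)]
    have := hT10 i
    nlinarith
  set h := hh T i a
  rw [shift_int (fun t => XX.Lam (x i) (yv (T i)) (NZ t) ^ 2)]
  set A := T i + h
  set B := 2 * T i + h
  have hA : T i ≤ A := by simp only [A]; linarith
  have hB : B ≤ 3 * T i := by simp only [B]; linarith
  have i1 : IntegrableOn (fun t => XX.Lam (x i) (yv (T i)) (NZ t) ^ 2) (Icc A B) :=
    step_int SG.NZ_mono (fun n _ => XX.Lam (x i) (yv (T i)) n ^ 2) 0 A B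
  have i2 : IntegrableOn (fun t => 2 * dif (yv (T i)) (NZ t + 0) ^ 2) (Icc A B) :=
    (step_int SG.NZ_mono (fun n _ => dif (yv (T i)) (n + 0) ^ 2) 0 A B).const_mul 2
  have i3 : IntegrableOn (fun t => 2 * x i (NZ t) ^ 2) (Icc A B) :=
    (step_int SG.NZ_mono (fun n _ => x i n ^ 2) 0 A B).const_mul 2
  have e1 : ∫ t in Icc A B, XX.Lam (x i) (yv (T i)) (NZ t) ^ 2 ≤ ∫ t in Icc A B,
      (2 * dif (yv (T i)) (NZ t + 0) ^ 2 + 2 * x i (NZ t) ^ 2) := by
    refine setIntegral_mono_on i1 (i2.add i3) measurableSet_Icc fun t _ => ?_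
    unfold XX.Lam
    rw [add_zero]
    have q1 := sq_nonneg (|dif (yv (T i)) (NZ t)| - |x i (NZ t)|)
    have q2 := sq_abs (dif (yv (T i)) (NZ t))
    have q3 := sq_abs (x i (NZ t))
    nlinarith
  refine e1.trans ?_
  rw [integral_add i2 i3, integral_const_mul, integral_const_mul]
  have e2 := hm2 0 (T i) h2 A B hA hB
  have e3 := hx2 (T i) h2 (x i) K (by
    have q1 : ∑ n ∈ Finset.Icc (NZ (T i)) (NZ (3 * T i)), |x i n| ^ 3 ≤
        ∑ n ∈ Finset.Icc 1 (N i), |x i n| ^ 3 := by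
      apply Finset.sum_le_sum_of_subset_of_nonneg
      · intro n hn
        rw [Finset.mem_Icc] at hn ⊢
        have := hn1 i
        have := hN3 i
        omega
      · intro n _ _
        positivity
    refine q1.trans ((hx i).trans ?_)
    calc C * (N i : ℝ) ≤ |C| * (N i : ℝ) :=
          mul_le_mul_of_nonneg_right (le_abs_self C) (Nat.cast_nonneg _)
      _ ≤ |C| * (C4 * (T i * Real.log (T i))) :=
          mul_le_mul_of_nonneg_left (hNC i) (abs_nonneg C)
      _ = K * (T i * Real.log (T i)) := by rw [hK]; ring) A B hA hB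
  linarith

end Pool.Agent.X113.Lat
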