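import Mathlib

set_option autoImplicit false

/-! # Counting pairs of points by integrals of products of window counts -/

namespace Pool.Agent.X113.PG

open MeasureTheory Set

/-- the indicator function of `[u, u + d)` -/
noncomputable def W (u d t : ℝ) : ℝ := if u ≤ t ∧ t < u + d then 1 else 0

lemma W_meas (u d : ℝ) : Measurable (W u d) :=
  Measurable.ite (measurableSet_Ico (a := u) (b := u + d)) measurable_const measurable_const

lemma W_nonneg (u d t : ℝ) : 0 ≤ W u d t := by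
  unfold W; split_ifs <;> norm_num

lemma W_abs (u d t : ℝ) : |W u d t| ≤ 1 := by
  unfold W; split_ifs <;> norm_num

lemma bdd_ii {f : ℝ → ℝ} (hf : Measurable f) {M : ℝ} (h : ∀ t, |f t| ≤ M) (A B : ℝ) :
    IntervalIntegrable f volume A B := by
  refine (intervalIntegrable_const (c := M)).mono_fun hf.aestronglyMeasurable ?_
  refine Filter.Eventually.of_forall fun t => ?_
  show |f t| ≤ |M|
  exact (h t).trans (le_abs_self _)

lemma W_int (u d A B : ℝ) : IntervalIntegrable (W u d) volume A B :=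
  bdd_ii (W_meas u d) (W_abs u d) A B

lemma W_eq {A B : ℝ} (u d : ℝ) (hAB : A ≤ B) :
    ∫ t in A..B, W u d t = volume.real (Ioc A B ∩ Ico u (u + d)) := by
  rw [intervalIntegral.integral_of_le hAB]
  have h1 : W u d = (Ico u (u + d)).indicator fun _ => (1 : ℝ) := by
    funext t
    unfold W
    rw [Set.indicator_apply]
    rfl
  rw [h1, setIntegral_indicator measurableSet_Ico]
  simp

lemma W_up {A B u d : ℝ} (hAB : A ≤ B) (hd : 0 ≤ d) : ∫ t in A..B, W u d t ≤ d := by
  rw [W_eq u d hAB]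
  calc volume.real (Ioc A B ∩ Ico u (u + d)) ≤ volume.real (Ico u (u + d)) :=
        measureReal_mono inter_subset_right (by rw [Real.volume_Ico]; exact ENNReal.ofReal_ne_top)
    _ = d := by rw [Real.volume_real_Ico_of_le (by linarith)]; ring

lemma W_lo {A B u d : ℝ} (h1 : A ≤ u) (h2 : u + d ≤ B) (hd : 0 ≤ d) :
    d ≤ ∫ t in A..B, W u d t := by
  rw [W_eq u d (by linarith)]
  calc d = volume.real (Ioo u (u + d)) := by
        rw [Real.volume_real_Ioo_of_le (by linarith)]; ring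
    _ ≤ volume.real (Ioc A B ∩ Ico u (u + d)) := by
        refine measureReal_mono ?_ ?_
        · intro t ht
          exact ⟨⟨by linarith [ht.1], by linarith [ht.2]⟩, ⟨ht.1.le, ht.2⟩⟩
        · refine ((measure_mono inter_subset_right).trans_lt ?_).ne
          rw [Real.volume_Ico]; exact ENNReal.ofReal_lt_top

variable {ι : Type*} (S : Finset ι) (m x : ι → ℝ)

/-- the weighted number of points in `(t, t + h]` -/
noncomputable def cn (h t : ℝ) : ℝ := ∑ s ∈ S, m s * (if t < x s ∧ x s ≤ t + h then 1 else 0)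

/-- the weighted number of pairs of points with `A < x ≤ B` and `0 < x - x' ≤ h` -/
noncomputable def pr (A B h : ℝ) : ℝ := ∑ s ∈ S, ∑ s' ∈ S,
  m s * m s' * (if A < x s ∧ x s ≤ B ∧ 0 < x s - x s' ∧ x s - x s' ≤ h then 1 else 0)

variable {S m x}

lemma ii_sum {f : ι → ℝ → ℝ} {A B : ℝ} (h : ∀ s ∈ S, IntervalIntegrable (f s) volume A B) :
    IntervalIntegrable (fun t => ∑ s ∈ S, f s t) volume A B := by
  have h1 := IntervalIntegrable.sum S h
  have e : (∑ s ∈ S, f s) = fun t => ∑ s ∈ S, f s t := by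
    funext t
    exact Finset.sum_apply _ _ _
  rwa [e] at h1

lemma ite01 (p : Prop) [Decidable p] : (0 : ℝ) ≤ (if p then 1 else 0) := by
  split_ifs <;> norm_num

lemma ite_le_one (p : Prop) [Decidable p] : (if p then (1 : ℝ) else 0) ≤ 1 := by
  split_ifs <;> norm_num

lemma ite_le_ite {p q : Prop} [Decidable p] [Decidable q] (h : p → q) :
    (if p then (1 : ℝ) else 0) ≤ (if q then 1 else 0) := by
  by_cases hp : p
  · rw [if_pos hp, if_pos (h hp)]
  · rw [if_neg hp]; exact ite01 q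

lemma cn_nonneg (hm : ∀ s, 0 ≤ m s) (h t : ℝ) : 0 ≤ cn S m x h t :=
  Finset.sum_nonneg fun s _ => mul_nonneg (hm s) (ite01 _)

lemma cn_le (hm : ∀ s, 0 ≤ m s) (h t : ℝ) : cn S m x h t ≤ ∑ s ∈ S, m s := by
  refine Finset.sum_le_sum fun s _ => ?_
  have h1 := mul_le_mul_of_nonneg_left (ite_le_one (t < x s ∧ x s ≤ t + h)) (hm s)
  rwa [mul_one] at h1

lemma cn_meas (h : ℝ) : Measurable (cn S m x h) := by
  unfold cn
  refine Finset.measurable_sum _ fun s _ => measurable_const.mul ?_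
  refine Measurable.ite ?_ measurable_const measurable_const
  exact (measurableSet_lt measurable_id measurable_const).inter
    (measurableSet_le measurable_const (measurable_id.add_const h))

lemma cn_add {h k : ℝ} (hh : 0 ≤ h) (hk : 0 ≤ k) (t : ℝ) :
    cn S m x (h + k) t = cn S m x h t + cn S m x k (t + h) := by
  unfold cn
  rw [← Finset.sum_add_distrib]
  refine Finset.sum_congr rfl fun s _ => ?_
  rw [← mul_add]
  congr 1
  by_cases h1 : t < x s
  · by_cases h2 : x s ≤ t + h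
    · rw [if_pos ⟨h1, by linarith⟩, if_pos ⟨h1, h2⟩, if_neg (fun h3 => by linarith [h3.1])]
      norm_num
    · by_cases h3 : x s ≤ t + h + k
      · rw [if_pos ⟨h1, by linarith⟩, if_neg (fun h4 => h2 h4.2), if_pos ⟨by linarith, h3⟩]
        norm_num
      · rw [if_neg (fun h4 => by linarith [h4.2]), if_neg (fun h4 => h2 h4.2),
          if_neg (fun h4 => h3 h4.2)]
        norm_num
  · rw [if_neg (fun h4 => h1 h4.1), if_neg (fun h4 => h1 h4.1),
      if_neg (fun h4 => h1 (by linarith [h4.1]))]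
    norm_num

lemma cn_mono (hm : ∀ s, 0 ≤ m s) {h t h' t' : ℝ} (h1 : t' ≤ t) (h2 : t + h ≤ t' + h') :
    cn S m x h t ≤ cn S m x h' t' := by
  unfold cn
  refine Finset.sum_le_sum fun s _ => mul_le_mul_of_nonneg_left (ite_le_ite ?_) (hm s)
  rintro ⟨h3, h4⟩
  exact ⟨by linarith, by linarith⟩

lemma pr_nonneg (hm : ∀ s, 0 ≤ m s) (A B h : ℝ) : 0 ≤ pr S m x A B h :=
  Finset.sum_nonneg fun s _ => Finset.sum_nonneg fun s' _ =>
    mul_nonneg (mul_nonneg (hm s) (hm s')) (ite01 _)

lemma pr_add {A B C : ℝ} (h1 : A ≤ B) (h2 : B ≤ C) (h : ℝ) :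
    pr S m x A C h = pr S m x A B h + pr S m x B C h := by
  unfold pr
  rw [← Finset.sum_add_distrib]
  refine Finset.sum_congr rfl fun s _ => ?_
  rw [← Finset.sum_add_distrib]
  refine Finset.sum_congr rfl fun s' _ => ?_
  rw [← mul_add]
  congr 1
  by_cases c : 0 < x s - x s' ∧ x s - x s' ≤ h
  · by_cases a1 : A < x s
    · by_cases a2 : x s ≤ B
      · rw [if_pos ⟨a1, by linarith, c⟩, if_pos ⟨a1, a2, c⟩, if_neg (fun z => by linarith [z.1])]
        norm_num
      · by_cases a3 : x s ≤ C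
        · rw [if_pos ⟨a1, a3, c⟩, if_neg (fun z => a2 z.2.1), if_pos ⟨by linarith, a3, c⟩]
          norm_num
        · rw [if_neg (fun z => a3 z.2.1), if_neg (fun z => a2 z.2.1), if_neg (fun z => a3 z.2.1)]
          norm_num
    · rw [if_neg (fun z => a1 z.1), if_neg (fun z => a1 z.1),
        if_neg (fun z => a1 (by linarith [z.1]))]
      norm_num
  · rw [if_neg (fun z => c z.2.2), if_neg (fun z => c z.2.2), if_neg (fun z => c z.2.2)]
    norm_num

/-- the first moment of the window count from above -/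
lemma cn_int_up (hm : ∀ s, 0 ≤ m s) {A B h : ℝ} (hAB : A ≤ B) (hh : 0 ≤ h) :
    ∫ t in A..B, cn S m x h t ≤ h * cn S m x (B + h - A) A := by
  have h1 : ∫ t in A..B, cn S m x h t ≤ ∫ t in A..B, ∑ s ∈ S,
      (m s * (if A < x s ∧ x s ≤ A + (B + h - A) then 1 else 0)) * W (x s - h) h t := by
    refine intervalIntegral.integral_mono_on hAB
      (bdd_ii (cn_meas h) (M := ∑ s ∈ S, m s) (fun t => ?_) A B) ?_ fun t ht => ?_
    · rw [abs_of_nonneg (cn_nonneg hm h t)]; exact cn_le hm h t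
    · have h2 : ∀ s ∈ S, IntervalIntegrable (fun t => (m s *
          (if A < x s ∧ x s ≤ A + (B + h - A) then 1 else 0)) * W (x s - h) h t) volume A B :=
        fun s _ => (W_int _ _ _ _).const_mul _
      exact ii_sum h2
    · unfold cn
      refine Finset.sum_le_sum fun s _ => ?_
      rw [mul_assoc]
      refine mul_le_mul_of_nonneg_left ?_ (hm s)
      by_cases c : t < x s ∧ x s ≤ t + h
      · unfold W
        rw [if_pos c, if_pos ⟨by linarith [ht.1, c.1], by linarith [ht.2, c.2]⟩,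
          if_pos ⟨by linarith [c.2], by linarith [c.1]⟩]
        norm_num
      · rw [if_neg c]
        exact mul_nonneg (ite01 _) (W_nonneg _ _ _)
  refine h1.trans ?_
  rw [intervalIntegral.integral_finsetSum fun s _ => (W_int _ _ _ _).const_mul _]
  unfold cn
  rw [Finset.mul_sum]
  refine Finset.sum_le_sum fun s _ => ?_
  rw [intervalIntegral.integral_const_mul]
  have h2 := W_up (u := x s - h) hAB hh
  have h3 : 0 ≤ m s * (if A < x s ∧ x s ≤ A + (B + h - A) then (1 : ℝ) else 0) :=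
    mul_nonneg (hm s) (ite01 _)
  calc _ ≤ m s * (if A < x s ∧ x s ≤ A + (B + h - A) then (1 : ℝ) else 0) * h :=
        mul_le_mul_of_nonneg_left h2 h3
    _ = _ := by ring

/-- the first moment of the window count from below -/
lemma cn_int_lo (hm : ∀ s, 0 ≤ m s) {A B h : ℝ} (hAB : A ≤ B) (hh : 0 ≤ h) :
    h * cn S m x (B - A - h) (A + h) ≤ ∫ t in A..B, cn S m x h t := by
  have h1 : ∫ t in A..B, ∑ s ∈ S,
      (m s * (if A + h < x s ∧ x s ≤ A + h + (B - A - h) then 1 else 0)) * W (x s - h) h t ≤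
      ∫ t in A..B, cn S m x h t := by
    refine intervalIntegral.integral_mono_on hAB ?_
      (bdd_ii (cn_meas h) (M := ∑ s ∈ S, m s) (fun t => ?_) A B) fun t ht => ?_
    · have h2 : ∀ s ∈ S, IntervalIntegrable (fun t => (m s *
          (if A + h < x s ∧ x s ≤ A + h + (B - A - h) then 1 else 0)) * W (x s - h) h t)
          volume A B :=
        fun s _ => (W_int _ _ _ _).const_mul _
      exact ii_sum h2
    · rw [abs_of_nonneg (cn_nonneg hm h t)]; exact cn_le hm h t
    · unfold cn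
      refine Finset.sum_le_sum fun s _ => ?_
      rw [mul_assoc]
      refine mul_le_mul_of_nonneg_left ?_ (hm s)
      by_cases c : x s - h ≤ t ∧ t < x s - h + h
      · unfold W
        rw [if_pos c, mul_one, if_pos (show t < x s ∧ x s ≤ t + h from
          ⟨by linarith [c.2], by linarith [c.1]⟩)]
        exact ite_le_one _
      · unfold W
        rw [if_neg c, mul_zero]
        exact ite01 _
  refine le_trans ?_ h1
  rw [intervalIntegral.integral_finsetSum fun s _ => (W_int _ _ _ _).const_mul _]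
  unfold cn
  rw [Finset.mul_sum]
  refine Finset.sum_le_sum fun s _ => ?_
  rw [intervalIntegral.integral_const_mul]
  by_cases c : A + h < x s ∧ x s ≤ A + h + (B - A - h)
  · rw [if_pos c]
    have h2 := W_lo (A := A) (B := B) (u := x s - h) (d := h) (by linarith [c.1])
      (by linarith [c.2]) hh
    have h3 := mul_le_mul_of_nonneg_left h2 (hm s)
    linarith
  · rw [if_neg c]; simp

/-- integrability of products of counts -/
lemma cn_prod_int (hm : ∀ s, 0 ≤ m s) (h k δ A B : ℝ) :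
    IntervalIntegrable (fun t => cn S m x δ (t + k) * cn S m x h t) volume A B := by
  set M := ∑ s ∈ S, m s with hM
  have hM0 : 0 ≤ M := Finset.sum_nonneg fun s _ => hm s
  refine bdd_ii (((cn_meas δ).comp (measurable_id.add_const k)).mul (cn_meas h)) (M := M * M)
    (fun t => ?_) A B
  show |cn S m x δ (t + k) * cn S m x h t| ≤ M * M
  have h1 := cn_nonneg (S := S) (x := x) hm δ (t + k)
  have h2 := cn_nonneg (S := S) (x := x) hm h t
  rw [abs_of_nonneg (mul_nonneg h1 h2)]
  exact mul_le_mul (cn_le hm _ _) (cn_le hm _ _) h2 hM0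

lemma dsum_int (c : ι → ι → ℝ) (u : ι → ℝ) (d A B : ℝ) :
    IntervalIntegrable (fun t => ∑ s ∈ S, ∑ s' ∈ S, c s s' * W (u s) d t) volume A B := by
  have h2 : ∀ s ∈ S, IntervalIntegrable (fun t => ∑ s' ∈ S, c s s' * W (u s) d t)
      volume A B := fun s _ => by
    have h3 : ∀ s' ∈ S, IntervalIntegrable (fun t => c s s' * W (u s) d t) volume A B :=
      fun s' _ => (W_int _ _ _ _).const_mul _
    exact ii_sum h3
  exact ii_sum h2

lemma dsum_eq (c : ι → ι → ℝ) (u : ι → ℝ) (d A B : ℝ) :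
    ∫ t in A..B, ∑ s ∈ S, ∑ s' ∈ S, c s s' * W (u s) d t =
      ∑ s ∈ S, ∑ s' ∈ S, c s s' * ∫ t in A..B, W (u s) d t := by
  have h2 : ∀ s ∈ S, IntervalIntegrable (fun t => ∑ s' ∈ S, c s s' * W (u s) d t)
      volume A B := fun s _ => by
    have h3 : ∀ s' ∈ S, IntervalIntegrable (fun t => c s s' * W (u s) d t) volume A B :=
      fun s' _ => (W_int _ _ _ _).const_mul _
    exact ii_sum h3
  rw [intervalIntegral.integral_finsetSum h2]
  refine Finset.sum_congr rfl fun s _ => ?_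
  rw [intervalIntegral.integral_finsetSum fun s' _ => (W_int _ _ _ _).const_mul _]
  refine Finset.sum_congr rfl fun s' _ => ?_
  rw [intervalIntegral.integral_const_mul]

lemma cn_prod (h k δ t : ℝ) : cn S m x δ (t + k) * cn S m x h t = ∑ s ∈ S, ∑ s' ∈ S,
    m s * m s' * ((if t + k < x s ∧ x s ≤ t + k + δ then 1 else 0) *
      (if t < x s' ∧ x s' ≤ t + h then 1 else 0)) := by
  unfold cn
  rw [Finset.sum_mul_sum]
  refine Finset.sum_congr rfl fun s _ => Finset.sum_congr rfl fun s' _ => ?_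
  ring

/-- the product moment from above by a count of pairs -/
lemma Q_up (hm : ∀ s, 0 ≤ m s) {A B h δ : ℝ} (hAB : A ≤ B) (hh : 0 ≤ h) (hδ : 0 ≤ δ) :
    ∫ t in A..B, cn S m x δ (t + h) * cn S m x h t ≤ δ * pr S m x A (B + h + δ) (h + δ) := by
  set c : ι → ι → ℝ := fun s s' => m s * m s' * (if A < x s ∧ x s ≤ B + h + δ ∧
    0 < x s - x s' ∧ x s - x s' ≤ h + δ then 1 else 0) with hc
  have hc0 : ∀ s s', 0 ≤ c s s' := fun s s' =>
    mul_nonneg (mul_nonneg (hm s) (hm s')) (ite01 _)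
  have h1 : ∫ t in A..B, cn S m x δ (t + h) * cn S m x h t ≤
      ∫ t in A..B, ∑ s ∈ S, ∑ s' ∈ S, c s s' * W (x s - h - δ) δ t := by
    refine intervalIntegral.integral_mono_on hAB (cn_prod_int hm h h δ A B)
      (dsum_int c (fun s => x s - h - δ) δ A B) fun t ht => ?_
    rw [cn_prod]
    refine Finset.sum_le_sum fun s _ => Finset.sum_le_sum fun s' _ => ?_
    by_cases c1 : t + h < x s ∧ x s ≤ t + h + δ
    · by_cases c2 : t < x s' ∧ x s' ≤ t + h
      · simp only [hc]
        unfold W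
        rw [if_pos c1, if_pos c2, if_pos ⟨by linarith [ht.1, c1.1], by linarith [ht.2, c1.2],
          by linarith [c1.1, c2.2], by linarith [c1.2, c2.1]⟩,
          if_pos ⟨by linarith [c1.2], by linarith [c1.1]⟩]
        simp
      · rw [if_neg c2, mul_zero, mul_zero]
        exact mul_nonneg (hc0 s s') (W_nonneg _ _ _)
    · rw [if_neg c1, zero_mul, mul_zero]
      exact mul_nonneg (hc0 s s') (W_nonneg _ _ _)
  refine h1.trans ?_
  rw [dsum_eq]
  unfold pr
  rw [Finset.mul_sum]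
  refine Finset.sum_le_sum fun s _ => ?_
  rw [Finset.mul_sum]
  refine Finset.sum_le_sum fun s' _ => ?_
  have h2 := W_up (u := x s - h - δ) hAB hδ
  calc c s s' * ∫ t in A..B, W (x s - h - δ) δ t ≤ c s s' * δ :=
        mul_le_mul_of_nonneg_left h2 (hc0 s s')
    _ = _ := by simp only [hc]; ring

/-- the product moment from below by a count of pairs -/
lemma Q_lo (hm : ∀ s, 0 ≤ m s) {A B h δ : ℝ} (hAB : A ≤ B) (hh : 0 ≤ h) (hδ : 0 ≤ δ) :
    δ * (pr S m x A B h - pr S m x A B δ - pr S m x A (A + h + δ) h) ≤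
      ∫ t in A..B, cn S m x δ (t + h) * cn S m x h t := by
  set c : ι → ι → ℝ := fun s s' => m s * m s' * (if A + h + δ < x s ∧ x s ≤ B ∧
    δ < x s - x s' ∧ x s - x s' ≤ h then 1 else 0) with hc
  have hc0 : ∀ s s', 0 ≤ c s s' := fun s s' =>
    mul_nonneg (mul_nonneg (hm s) (hm s')) (ite01 _)
  have h1 : ∫ t in A..B, ∑ s ∈ S, ∑ s' ∈ S, c s s' * W (x s - h - δ) δ t ≤
      ∫ t in A..B, cn S m x δ (t + h) * cn S m x h t := by
    refine intervalIntegral.integral_mono_on hAB
      (dsum_int c (fun s => x s - h - δ) δ A B) (cn_prod_int hm h h δ A B) fun t ht => ?_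
    rw [cn_prod]
    refine Finset.sum_le_sum fun s _ => Finset.sum_le_sum fun s' _ => ?_
    simp only [hc]
    rw [mul_assoc (m s * m s')]
    refine mul_le_mul_of_nonneg_left ?_ (mul_nonneg (hm s) (hm s'))
    by_cases c1 : A + h + δ < x s ∧ x s ≤ B ∧ δ < x s - x s' ∧ x s - x s' ≤ h
    · by_cases c2 : x s - h - δ ≤ t ∧ t < x s - h - δ + δ
      · unfold W
        rw [if_pos c1, if_pos c2, if_pos (show t + h < x s ∧ x s ≤ t + h + δ from
          ⟨by linarith [c2.2], by linarith [c2.1]⟩),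
          if_pos (show t < x s' ∧ x s' ≤ t + h from
          ⟨by linarith [c2.2, c1.2.2.2], by linarith [c2.1, c1.2.2.1]⟩)]
      · unfold W
        rw [if_neg c2, mul_zero]
        exact mul_nonneg (ite01 _) (ite01 _)
    · rw [if_neg c1, zero_mul]
      exact mul_nonneg (ite01 _) (ite01 _)
  refine le_trans ?_ h1
  rw [dsum_eq]
  have h3 : pr S m x A B h - pr S m x A B δ - pr S m x A (A + h + δ) h ≤
      ∑ s ∈ S, ∑ s' ∈ S, c s s' := by
    unfold pr
    rw [← Finset.sum_sub_distrib, ← Finset.sum_sub_distrib]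
    refine Finset.sum_le_sum fun s _ => ?_
    rw [← Finset.sum_sub_distrib, ← Finset.sum_sub_distrib]
    refine Finset.sum_le_sum fun s' _ => ?_
    rw [← mul_sub, ← mul_sub]
    simp only [hc]
    refine mul_le_mul_of_nonneg_left ?_ (mul_nonneg (hm s) (hm s'))
    by_cases c1 : A < x s ∧ x s ≤ B ∧ 0 < x s - x s' ∧ x s - x s' ≤ h
    · rw [if_pos c1]
      by_cases c2 : x s - x s' ≤ δ
      · rw [if_pos ⟨c1.1, c1.2.1, c1.2.2.1, c2⟩]
        have h4 := ite01 (A < x s ∧ x s ≤ A + h + δ ∧ 0 < x s - x s' ∧ x s - x s' ≤ h)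
        have h5 := ite01 (A + h + δ < x s ∧ x s ≤ B ∧ δ < x s - x s' ∧ x s - x s' ≤ h)
        linarith
      · by_cases c3 : x s ≤ A + h + δ
        · rw [if_neg (fun z => c2 z.2.2.2), if_pos ⟨c1.1, c3, c1.2.2⟩]
          have h5 := ite01 (A + h + δ < x s ∧ x s ≤ B ∧ δ < x s - x s' ∧ x s - x s' ≤ h)
          linarith
        · push Not at c2 c3
          rw [if_neg (fun z => by linarith [z.2.2.2]), if_neg (fun z => by linarith [z.2.1]),
            if_pos ⟨c3, c1.2.1, c2, c1.2.2.2⟩]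
          norm_num
    · rw [if_neg c1]
      have h4 := ite01 (A < x s ∧ x s ≤ A + h + δ ∧ 0 < x s - x s' ∧ x s - x s' ≤ h)
      have h5 := ite01 (A + h + δ < x s ∧ x s ≤ B ∧ δ < x s - x s' ∧ x s - x s' ≤ h)
      have h6 := ite01 (A < x s ∧ x s ≤ B ∧ 0 < x s - x s' ∧ x s - x s' ≤ δ)
      linarith
  have h4 : δ * ∑ s ∈ S, ∑ s' ∈ S, c s s' ≤
      ∑ s ∈ S, ∑ s' ∈ S, c s s' * ∫ t in A..B, W (x s - h - δ) δ t := by
    rw [Finset.mul_sum]
    refine Finset.sum_le_sum fun s _ => ?_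
    rw [Finset.mul_sum]
    refine Finset.sum_le_sum fun s' _ => ?_
    by_cases c1 : A + h + δ < x s ∧ x s ≤ B ∧ δ < x s - x s' ∧ x s - x s' ≤ h
    · have h2 := W_lo (A := A) (B := B) (u := x s - h - δ) (d := δ) (by linarith [c1.1])
        (by linarith [c1.2.1]) hδ
      have := mul_le_mul_of_nonneg_left h2 (hc0 s s')
      linarith
    · have : c s s' = 0 := by
        simp only [hc]
        rw [if_neg c1, mul_zero]
      rw [this]; simp
  exact (mul_le_mul_of_nonneg_left h3 hδ).trans h4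

/-- close pairs -/
lemma pr_close (hm : ∀ s, 0 ≤ m s) {A B δ : ℝ} (hAB : A ≤ B) (hδ : 0 ≤ δ) :
    δ * pr S m x A B δ ≤ ∫ t in (A - 2 * δ)..B, cn S m x (2 * δ) t ^ 2 := by
  set c : ι → ι → ℝ := fun s s' => m s * m s' * (if A < x s ∧ x s ≤ B ∧
    0 < x s - x s' ∧ x s - x s' ≤ δ then 1 else 0) with hc
  have hc0 : ∀ s s', 0 ≤ c s s' := fun s s' =>
    mul_nonneg (mul_nonneg (hm s) (hm s')) (ite01 _)
  have hsq : ∀ t, cn S m x (2 * δ) t ^ 2 = cn S m x (2 * δ) (t + 0) * cn S m x (2 * δ) t := by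
    intro t
    rw [add_zero]; ring
  simp_rw [hsq]
  have h1 : ∫ t in (A - 2 * δ)..B, ∑ s ∈ S, ∑ s' ∈ S, c s s' * W (x s - 2 * δ) δ t ≤
      ∫ t in (A - 2 * δ)..B, cn S m x (2 * δ) (t + 0) * cn S m x (2 * δ) t := by
    refine intervalIntegral.integral_mono_on (by linarith)
      (dsum_int c (fun s => x s - 2 * δ) δ _ B) (cn_prod_int hm (2 * δ) 0 (2 * δ) _ B)
      fun t ht => ?_
    rw [cn_prod]
    refine Finset.sum_le_sum fun s _ => Finset.sum_le_sum fun s' _ => ?_
    simp only [hc]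
    rw [mul_assoc (m s * m s')]
    refine mul_le_mul_of_nonneg_left ?_ (mul_nonneg (hm s) (hm s'))
    by_cases c1 : A < x s ∧ x s ≤ B ∧ 0 < x s - x s' ∧ x s - x s' ≤ δ
    · by_cases c2 : x s - 2 * δ ≤ t ∧ t < x s - 2 * δ + δ
      · unfold W
        rw [if_pos c1, if_pos c2, if_pos (show t + 0 < x s ∧ x s ≤ t + 0 + 2 * δ from
          ⟨by linarith [c2.2], by linarith [c2.1]⟩),
          if_pos (show t < x s' ∧ x s' ≤ t + 2 * δ from
          ⟨by linarith [c2.2, c1.2.2.2], by linarith [c2.1, c1.2.2.1]⟩)]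
      · unfold W
        rw [if_neg c2, mul_zero]
        exact mul_nonneg (ite01 _) (ite01 _)
    · rw [if_neg c1, zero_mul]
      exact mul_nonneg (ite01 _) (ite01 _)
  refine le_trans ?_ h1
  rw [dsum_eq]
  unfold pr
  rw [Finset.mul_sum]
  refine Finset.sum_le_sum fun s _ => ?_
  rw [Finset.mul_sum]
  refine Finset.sum_le_sum fun s' _ => ?_
  by_cases c1 : A < x s ∧ x s ≤ B ∧ 0 < x s - x s' ∧ x s - x s' ≤ δ
  · have h2 := W_lo (A := A - 2 * δ) (B := B) (u := x s - 2 * δ) (d := δ) (by linarith [c1.1])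
      (by linarith [c1.2.1]) hδ
    have h3 := mul_le_mul_of_nonneg_left h2 (hc0 s s')
    have h4 : c s s' = m s * m s' * (if A < x s ∧ x s ≤ B ∧ 0 < x s - x s' ∧ x s - x s' ≤ δ
      then 1 else 0) := rfl
    rw [← h4]
    linarith
  · rw [if_neg c1, mul_zero, mul_zero]
    have : c s s' = 0 := by
      simp only [hc]
      rw [if_neg c1, mul_zero]
    rw [this]; simp

/-- pairs near an edge -/
lemma pr_edge (hm : ∀ s, 0 ≤ m s) {A η h : ℝ} (hη : 0 ≤ η) (hh : 0 ≤ h) :
    pr S m x A (A + η) h ≤ (cn S m x h (A - h) + cn S m x η A) ^ 2 := by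
  have e1 : cn S m x h (A - h) + cn S m x η A = cn S m x (h + η) (A - h) := by
    rw [cn_add hh hη, sub_add_cancel]
  rw [e1, sq]
  have e2 : cn S m x (h + η) (A - h) * cn S m x (h + η) (A - h) =
      cn S m x (h + η) (A - h + 0) * cn S m x (h + η) (A - h) := by rw [add_zero]
  rw [e2, cn_prod]
  unfold pr
  refine Finset.sum_le_sum fun s _ => Finset.sum_le_sum fun s' _ => ?_
  refine mul_le_mul_of_nonneg_left ?_ (mul_nonneg (hm s) (hm s'))
  by_cases c1 : A < x s ∧ x s ≤ A + η ∧ 0 < x s - x s' ∧ x s - x s' ≤ h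
  · rw [if_pos c1, if_pos (show A - h + 0 < x s ∧ x s ≤ A - h + 0 + (h + η) from
      ⟨by linarith [c1.1], by linarith [c1.2.1]⟩),
      if_pos (show A - h < x s' ∧ x s' ≤ A - h + (h + η) from
      ⟨by linarith [c1.1, c1.2.2.2], by linarith [c1.2.1, c1.2.2.1]⟩)]
    norm_num
  · rw [if_neg c1]
    exact mul_nonneg (ite01 _) (ite01 _)

end Pool.Agent.X113.PG
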