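import Pool.Agent.TH800.MS.Pq
import Pool.Agent.TH800.MS.Lln
import Pool.Agent.Helper7.OT.Sinc
import Pool.Agent.X113.PairGen

set_option autoImplicit false

/-! # The window of `TH800.MS` and the comparison with sharp windows -/

namespace Pool.Agent.X113.MS

open MeasureTheory Set Filter Topology
open Pool.Agent.TH800.MS

/-- the Lorentzian at scale `1/b` -/
noncomputable def gl (b x : ℝ) : ℝ := (1 + (b * x / 2) ^ 2)⁻¹

lemma gl_pos (b x : ℝ) : 0 < gl b x := by unfold gl; positivity

lemma gl_le_one (b x : ℝ) : gl b x ≤ 1 := by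
  unfold gl
  apply inv_le_one_of_one_le₀
  nlinarith [sq_nonneg (b * x / 2)]

lemma gl_cont (b : ℝ) : Continuous (gl b) := by
  unfold gl
  exact Continuous.inv₀ (by fun_prop) fun x => by positivity

lemma gl_integrable {b : ℝ} (hb : 0 < b) : Integrable (gl b) := by
  have h1 := (integrable_inv_one_add_sq).comp_mul_left' (show b / 2 ≠ 0 by positivity)
  refine h1.congr (Eventually.of_forall fun x => ?_)
  show (1 + (b / 2 * x) ^ 2)⁻¹ = (1 + (b * x / 2) ^ 2)⁻¹
  congr 3
  ring

lemma gl_int {b : ℝ} (hb : 0 < b) : ∫ x, gl b x = 2 * Real.pi / b := by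
  have h1 := Measure.integral_comp_mul_left (fun x : ℝ => (1 + x ^ 2)⁻¹) (b / 2)
  rw [integral_univ_inv_one_add_sq] at h1
  have h2 : (fun x : ℝ => (1 + (b / 2 * x) ^ 2)⁻¹) = gl b := by
    funext x
    unfold gl
    congr 3
    ring
  rw [h2, abs_of_pos (by positivity), smul_eq_mul] at h1
  rw [h1]
  field_simp

lemma gl_neg (b x : ℝ) : gl b (-x) = gl b x := by
  unfold gl
  congr 2
  ring

lemma gl_int_shift {b : ℝ} (hb : 0 < b) (g : ℝ) :
    Integrable (fun s => gl b (g - s)) ∧ ∫ s, gl b (g - s) = 2 * Real.pi / b :=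
  ⟨(gl_integrable hb).comp_sub_left g, by
    rw [integral_sub_left_eq_self (gl b) volume g, gl_int hb]⟩

lemma sinc_sq_le (y : ℝ) : Real.sinc y ^ 2 ≤ 2 * (1 + y ^ 2)⁻¹ := by
  rw [← div_eq_mul_inv, le_div_iff₀ (by positivity)]
  have h1 : Real.sinc y ^ 2 ≤ 1 := by
    rw [sq_le_one_iff_abs_le_one]
    exact Real.abs_sinc_le_one _
  have h2 : Real.sinc y ^ 2 * y ^ 2 ≤ 1 := by
    rcases eq_or_ne y 0 with rfl | h
    · simp
    · rw [Real.sinc_of_ne_zero h, div_pow, div_mul_cancel₀ _ (by positivity)]
      exact Real.sin_sq_le_one y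
  nlinarith

lemma Om_le_gl (b x : ℝ) : Om b x ≤ 2 * gl b x := by
  unfold Om gl
  have h1 : Real.exp (-x ^ 2 / 2) ≤ 1 := by
    rw [Real.exp_le_one_iff]
    have := sq_nonneg x
    linarith
  have h2 := sinc_sq_le (b * x / 2)
  have h3 : 0 ≤ Real.sinc (b * x / 2) ^ 2 := sq_nonneg _
  calc _ ≤ 1 * Real.sinc (b * x / 2) ^ 2 := mul_le_mul_of_nonneg_right h1 h3
    _ ≤ _ := by rw [one_mul]; exact h2

lemma Om_integrable {b : ℝ} (hb : 0 < b) : Integrable (Om b) := by
  refine ((gl_integrable hb).const_mul 2).mono' (Om_cont b).aestronglyMeasurable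
    (Eventually.of_forall fun x => ?_)
  rw [Real.norm_of_nonneg (Om_nonneg b x)]
  exact Om_le_gl b x

lemma Om_int_le {b : ℝ} (hb : 0 < b) : ∫ x, Om b x ≤ 4 * Real.pi / b := by
  calc ∫ x, Om b x ≤ ∫ x, 2 * gl b x := integral_mono (Om_integrable hb)
        ((gl_integrable hb).const_mul 2) (Om_le_gl b)
    _ = 4 * Real.pi / b := by rw [integral_const_mul, gl_int hb]; ring

lemma Om_sq_le (b x : ℝ) : Om b x ^ 2 ≤ Om b x := by
  have h1 := Om_nonneg b x
  have h2 := Om_le_one b x
  nlinarith

lemma Om_sq_integrable {b : ℝ} (hb : 0 < b) : Integrable (fun x => Om b x ^ 2) := by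
  refine (Om_integrable hb).mono' ((Om_cont b).pow 2).aestronglyMeasurable
    (Eventually.of_forall fun x => ?_)
  rw [Real.norm_of_nonneg (sq_nonneg _)]
  exact Om_sq_le b x

/-- the mass of the squared window -/
noncomputable def kap (b : ℝ) : ℝ := ∫ x, Om b x ^ 2

lemma kap_nonneg (b : ℝ) : 0 ≤ kap b := integral_nonneg fun x => sq_nonneg _

lemma kap_le {b : ℝ} (hb : 0 < b) : kap b ≤ 4 * Real.pi / b :=
  (integral_mono (Om_sq_integrable hb) (Om_integrable hb) (Om_sq_le b)).trans (Om_int_le hb)

lemma sinc_four {b : ℝ} (hb : 0 < b) :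
    Integrable (fun x => Real.sinc (b * x / 2) ^ 4) ∧
    ∫ x, Real.sinc (b * x / 2) ^ 4 = 4 * Real.pi / (3 * b) := by
  have hpi := Real.pi_pos
  have h1 := (Pool.Agent.Helper7.Simplex.OT.J26889.sinc_moments
    Pool.Agent.Helper7.Simplex.OT.J26884.sinc_fourier).2.2
  have h2 := Measure.integral_comp_mul_left (fun t : ℝ => Real.sinc (Real.pi * t) ^ 4)
    (b / (2 * Real.pi))
  have h3 : (fun x : ℝ => Real.sinc (Real.pi * (b / (2 * Real.pi) * x)) ^ 4) =
      fun x => Real.sinc (b * x / 2) ^ 4 := by
    funext x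
    congr 2
    field_simp
  rw [h3, h1, abs_of_pos (by positivity), smul_eq_mul] at h2
  refine ⟨?_, ?_⟩
  · refine ((gl_integrable hb).const_mul 2).mono'
      ((Real.continuous_sinc.comp (by fun_prop)).pow 4).aestronglyMeasurable
      (Eventually.of_forall fun x => ?_)
    rw [Real.norm_of_nonneg (by positivity)]
    have h4 := sinc_sq_le (b * x / 2)
    have h5 : Real.sinc (b * x / 2) ^ 2 ≤ 1 := by
      rw [sq_le_one_iff_abs_le_one]
      exact Real.abs_sinc_le_one _
    have h6 : 0 ≤ Real.sinc (b * x / 2) ^ 2 := sq_nonneg _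
    unfold gl
    calc Real.sinc (b * x / 2) ^ 4 = Real.sinc (b * x / 2) ^ 2 * Real.sinc (b * x / 2) ^ 2 := by
          ring
      _ ≤ 1 * Real.sinc (b * x / 2) ^ 2 := mul_le_mul_of_nonneg_right h5 h6
      _ ≤ _ := by rw [one_mul]; exact h4
  · rw [h2]
    field_simp
    ring

lemma kap_close {b : ℝ} (hb : 1 ≤ b) : |kap b - 4 * Real.pi / (3 * b)| ≤ 101 / b ^ 2 := by
  have hb0 : 0 < b := by linarith
  have hpi := Real.pi_pos
  obtain ⟨i1, e1⟩ := sinc_four hb0
  have i2 := Om_sq_integrable hb0
  have i3 := gl_integrable hb0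
  unfold kap
  rw [← e1, ← integral_sub i2 i1]
  have hpt : ∀ x, |Om b x ^ 2 - Real.sinc (b * x / 2) ^ 4| ≤ 16 / b ^ 2 * gl b x := by
    intro x
    have h1 : Om b x ^ 2 = Real.exp (-x ^ 2) * Real.sinc (b * x / 2) ^ 4 := by
      unfold Om
      rw [mul_pow, ← Real.exp_nat_mul, ← pow_mul]
      congr 2
      push_cast
      ring
    have h2 : 1 - x ^ 2 ≤ Real.exp (-x ^ 2) := by
      have := Real.add_one_le_exp (-x ^ 2)
      linarith
    have h3 : Real.exp (-x ^ 2) ≤ 1 := by
      rw [Real.exp_le_one_iff]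
      have := sq_nonneg x
      linarith
    have h4 := sinc_sq_le (b * x / 2)
    have h5 : 0 ≤ Real.sinc (b * x / 2) ^ 4 := by positivity
    have h6 : Om b x ^ 2 - Real.sinc (b * x / 2) ^ 4 =
        -((1 - Real.exp (-x ^ 2)) * Real.sinc (b * x / 2) ^ 4) := by rw [h1]; ring
    rw [h6, abs_neg, abs_of_nonneg (mul_nonneg (by linarith) h5)]
    have h7 : Real.sinc (b * x / 2) ^ 4 ≤ (2 * gl b x) ^ 2 := by
      have : Real.sinc (b * x / 2) ^ 4 = (Real.sinc (b * x / 2) ^ 2) ^ 2 := by ring
      rw [this]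
      exact pow_le_pow_left₀ (sq_nonneg _) h4 2
    have h8 : x ^ 2 * gl b x ≤ 4 / b ^ 2 := by
      unfold gl
      rw [← div_eq_mul_inv, div_le_div_iff₀ (by positivity) (by positivity)]
      nlinarith [sq_nonneg (b * x)]
    have h9 := gl_pos b x
    calc (1 - Real.exp (-x ^ 2)) * Real.sinc (b * x / 2) ^ 4 ≤ x ^ 2 * (2 * gl b x) ^ 2 :=
          mul_le_mul (by linarith) h7 h5 (sq_nonneg x)
      _ = 4 * (x ^ 2 * gl b x) * gl b x := by ring
      _ ≤ 4 * (4 / b ^ 2) * gl b x := by
          apply mul_le_mul_of_nonneg_right _ h9.le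
          linarith
      _ = _ := by ring
  calc |∫ x, (Om b x ^ 2 - Real.sinc (b * x / 2) ^ 4)| ≤
      ∫ x, |Om b x ^ 2 - Real.sinc (b * x / 2) ^ 4| := abs_integral_le_integral_abs
    _ ≤ ∫ x, 16 / b ^ 2 * gl b x := integral_mono (i2.sub i1).abs (i3.const_mul _) hpt
    _ = 16 / b ^ 2 * (2 * Real.pi / b) := by rw [integral_const_mul, gl_int hb0]
    _ ≤ 16 / b ^ 2 * 6.3 := by
        apply mul_le_mul_of_nonneg_left _ (by positivity)
        rw [div_le_iff₀ hb0]
        nlinarith [Real.pi_lt_d2]
    _ ≤ 101 / b ^ 2 := by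
        rw [div_mul_eq_mul_div]
        apply div_le_div_of_nonneg_right _ (by positivity)
        norm_num

lemma exp_lip (x y : ℝ) : |Real.exp (-x ^ 2 / 2) - Real.exp (-y ^ 2 / 2)| ≤ |x - y| := by
  have hd : ∀ z ∈ (univ : Set ℝ), HasDerivWithinAt (fun z : ℝ => Real.exp (-z ^ 2 / 2))
      (Real.exp (-z ^ 2 / 2) * (-(2 * z) / 2)) univ z := by
    intro z _
    have h1 : HasDerivAt (fun z : ℝ => -z ^ 2 / 2) (-(2 * z) / 2) z := by
      have := ((hasDerivAt_pow 2 z).neg).div_const 2
      refine this.congr_deriv ?_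
      norm_num
    exact (h1.exp).hasDerivWithinAt
  have h1 := convex_univ.norm_image_sub_le_of_norm_hasDerivWithin_le (C := 1) hd
    (fun z _ => by
      rw [norm_mul, Real.norm_eq_abs, Real.norm_eq_abs, abs_of_pos (Real.exp_pos _)]
      have h2 : Real.exp (-z ^ 2 / 2) = (Real.exp (z ^ 2 / 2))⁻¹ := by
        rw [← Real.exp_neg]; congr 1; ring
      have h3 : 1 + z ^ 2 / 2 ≤ Real.exp (z ^ 2 / 2) := by
        have := Real.add_one_le_exp (z ^ 2 / 2)
        linarith
      have h4 : |-(2 * z) / 2| = |z| := by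
        rw [show -(2 * z) / 2 = -z by ring, abs_neg]
      rw [h2, h4, inv_mul_eq_div, div_le_one (Real.exp_pos _)]
      have h5 : |z| ≤ 1 + z ^ 2 / 2 := by
        rw [← sq_abs z]
        nlinarith [sq_nonneg (|z| - 1)]
      linarith) (mem_univ y) (mem_univ x)
  rw [Real.norm_eq_abs, Real.norm_eq_abs, one_mul] at h1
  exact h1

lemma sinc_lip {b : ℝ} (hb : 0 < b) (x y : ℝ) :
    |Real.sinc (b * x / 2) ^ 2 - Real.sinc (b * y / 2) ^ 2| ≤ b * |x - y| := by
  rw [← kb_cos hb, ← kb_cos hb]
  have hc : ∀ z : ℝ, Continuous fun v : ℝ => kb b v * Real.cos (v * z) := fun z =>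
    kb_cont.mul (by fun_prop)
  rw [← intervalIntegral.integral_sub ((hc x).intervalIntegrable _ _)
    ((hc y).intervalIntegrable _ _)]
  have hbb : -b ≤ b := by linarith
  calc |∫ v in (-b)..b, (kb b v * Real.cos (v * x) - kb b v * Real.cos (v * y))| ≤
      ∫ v in (-b)..b, |kb b v * Real.cos (v * x) - kb b v * Real.cos (v * y)| :=
        intervalIntegral.abs_integral_le_integral_abs hbb
    _ ≤ ∫ v in (-b)..b, kb b v * (b * |x - y|) := by
        refine intervalIntegral.integral_mono_on hbb
          (((hc x).sub (hc y)).abs.intervalIntegrable _ _)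
          ((kb_cont.mul continuous_const).intervalIntegrable _ _) fun v hv => ?_
        rw [← mul_sub, abs_mul, abs_of_nonneg (kb_nonneg hb v)]
        apply mul_le_mul_of_nonneg_left _ (kb_nonneg hb v)
        have h1 : |Real.cos (v * x) - Real.cos (v * y)| ≤ |v * x - v * y| :=
          Real.abs_cos_sub_cos_le _ _
        rw [← mul_sub, abs_mul] at h1
        have h2 : |v| ≤ b := abs_le.2 hv
        exact h1.trans (mul_le_mul_of_nonneg_right h2 (abs_nonneg _))
    _ = b * |x - y| := by
        rw [intervalIntegral.integral_mul_const, kb_int hb, one_mul]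

lemma Om_lip {b : ℝ} (hb : 1 ≤ b) (x y : ℝ) : |Om b x - Om b y| ≤ 2 * b * |x - y| := by
  have hb0 : 0 < b := by linarith
  have h1 := exp_lip x y
  have h2 := sinc_lip hb0 x y
  have h3 : |Real.exp (-y ^ 2 / 2)| ≤ 1 := by
    rw [abs_of_pos (Real.exp_pos _), Real.exp_le_one_iff]
    have := sq_nonneg y
    linarith
  have h4 : |Real.sinc (b * x / 2) ^ 2| ≤ 1 := by
    rw [abs_of_nonneg (sq_nonneg _), sq_le_one_iff_abs_le_one]
    exact Real.abs_sinc_le_one _
  unfold Om
  have e : Real.exp (-x ^ 2 / 2) * Real.sinc (b * x / 2) ^ 2 -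
      Real.exp (-y ^ 2 / 2) * Real.sinc (b * y / 2) ^ 2 =
      (Real.exp (-x ^ 2 / 2) - Real.exp (-y ^ 2 / 2)) * Real.sinc (b * x / 2) ^ 2 +
      Real.exp (-y ^ 2 / 2) * (Real.sinc (b * x / 2) ^ 2 - Real.sinc (b * y / 2) ^ 2) := by ring
  rw [e]
  have h5 := abs_nonneg (x - y)
  calc _ ≤ |(Real.exp (-x ^ 2 / 2) - Real.exp (-y ^ 2 / 2)) * Real.sinc (b * x / 2) ^ 2| +
      |Real.exp (-y ^ 2 / 2) * (Real.sinc (b * x / 2) ^ 2 - Real.sinc (b * y / 2) ^ 2)| :=
        abs_add_le _ _
    _ ≤ |x - y| * 1 + 1 * (b * |x - y|) := by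
        rw [abs_mul, abs_mul]
        exact add_le_add (mul_le_mul h1 h4 (abs_nonneg _) h5)
          (mul_le_mul h3 h2 (abs_nonneg _) zero_le_one)
    _ ≤ _ := by nlinarith

/-- the form used below -/
lemma Om_sqrt {b : ℝ} (hb : 1 ≤ b) (x y : ℝ) :
    |Om b x - Om b y| ≤ 2 * Real.sqrt (b * |x - y|) := by
  have h1 := Om_lip hb x y
  have h2 : |Om b x - Om b y| ≤ 1 := by
    have a1 := Om_nonneg b x
    have a2 := Om_le_one b x
    have a3 := Om_nonneg b y
    have a4 := Om_le_one b y
    rw [abs_le]; constructor <;> linarith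
  have h3 : 0 ≤ b * |x - y| := by positivity
  have h4 : |Om b x - Om b y| ^ 2 ≤ 4 * (b * |x - y|) := by
    have h5 := abs_nonneg (Om b x - Om b y)
    nlinarith
  have h5 : |Om b x - Om b y| ≤ Real.sqrt (4 * (b * |x - y|)) := by
    apply Real.le_sqrt_of_sq_le h4
  have h6 : Real.sqrt (4 * (b * |x - y|)) = 2 * Real.sqrt (b * |x - y|) := by
    rw [Real.sqrt_mul (by norm_num), show (4 : ℝ) = 2 ^ 2 by norm_num,
      Real.sqrt_sq (by norm_num)]
  rwa [h6] at h5

/-- the indicator of `g ∈ (t, t + H]` -/
noncomputable def io (H g t : ℝ) : ℝ := if t < g ∧ g ≤ t + H then 1 else 0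

lemma io_nonneg (H g t : ℝ) : 0 ≤ io H g t := by unfold io; split_ifs <;> norm_num

lemma io_le_one (H g t : ℝ) : io H g t ≤ 1 := by unfold io; split_ifs <;> norm_num

lemma io_W (H g t : ℝ) : io H g t = PG.W (g - H) H t := by
  unfold io PG.W
  congr 1
  apply propext
  constructor <;> rintro ⟨h1, h2⟩ <;> constructor <;> linarith

lemma io_meas (H g : ℝ) : Measurable (io H g) := by
  have : io H g = PG.W (g - H) H := by funext t; exact io_W H g t
  rw [this]
  exact PG.W_meas _ _

/-- first comparison: the sharp diagonal window against the smooth one -/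
lemma t2 {b : ℝ} (hb : 0 < b) {H : ℝ} (hH : 0 ≤ H) (g t : ℝ) :
    |kap b * io H g t - ∫ s in t..(t + H), Om b (g - s) ^ 2| ≤
      8 * Real.pi / b * (gl b (g - t) + gl b (g - (t + H))) := by
  have hpi := Real.pi_pos
  have hi : Integrable (fun s => Om b (g - s) ^ 2) := (Om_sq_integrable hb).comp_sub_left g
  have e1 : kap b = ∫ s, Om b (g - s) ^ 2 := by
    unfold kap
    rw [integral_sub_left_eq_self (fun s => Om b s ^ 2) volume g]
  have e2 : ∫ s in t..(t + H), Om b (g - s) ^ 2 =
      ∫ s, (Ioc t (t + H)).indicator (fun s => Om b (g - s) ^ 2) s := by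
    rw [intervalIntegral.integral_of_le (by linarith), integral_indicator measurableSet_Ioc]
  have e3 : kap b * io H g t = ∫ s, io H g t * Om b (g - s) ^ 2 := by
    rw [integral_const_mul, ← e1]; ring
  rw [e2, e3, ← integral_sub (hi.const_mul _) (hi.indicator measurableSet_Ioc)]
  set J := gl b (g - t) + gl b (g - (t + H)) with hJ
  have hJ0 : 0 < J := add_pos (gl_pos _ _) (gl_pos _ _)
  obtain ⟨i1, e4⟩ := gl_int_shift hb g
  have hmono : ∀ x y : ℝ, |x| ≤ |y| → gl b y ≤ gl b x := by
    intro x y hxy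
    unfold gl
    apply inv_anti₀ (by positivity)
    have h1 : x ^ 2 ≤ y ^ 2 := sq_le_sq.2 hxy
    have h2 : (b * x / 2) ^ 2 ≤ (b * y / 2) ^ 2 := by
      have e5 : ∀ z : ℝ, (b * z / 2) ^ 2 = (b / 2) ^ 2 * z ^ 2 := fun z => by ring
      rw [e5, e5]
      exact mul_le_mul_of_nonneg_left h1 (sq_nonneg _)
    linarith
  have hpt : ∀ s, |io H g t * Om b (g - s) ^ 2 -
      (Ioc t (t + H)).indicator (fun s => Om b (g - s) ^ 2) s| ≤ 4 * J * gl b (g - s) := by
    intro s
    have h0 : 0 ≤ 4 * J * gl b (g - s) := by have := gl_pos b (g - s); positivity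
    have hsq : Om b (g - s) ^ 2 ≤ 4 * gl b (g - s) * gl b (g - s) := by
      have h1 := Om_le_gl b (g - s)
      have h2 := Om_nonneg b (g - s)
      nlinarith
    have hne : gl b (g - s) ≤ J → Om b (g - s) ^ 2 ≤ 4 * J * gl b (g - s) := by
      intro h
      have h2 := gl_pos b (g - s)
      nlinarith
    by_cases hs : s ∈ Ioc t (t + H)
    · rw [indicator_of_mem hs]
      by_cases hg : t < g ∧ g ≤ t + H
      · unfold io
        rw [if_pos hg, one_mul, sub_self, abs_zero]
        exact h0
      · unfold io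
        rw [if_neg hg, zero_mul, zero_sub, abs_neg, abs_of_nonneg (sq_nonneg _)]
        apply hne
        rw [not_and_or, not_lt, not_le] at hg
        rcases hg with hg | hg
        · have : gl b (g - s) ≤ gl b (g - t) := by
            apply hmono
            rw [abs_of_nonpos (by linarith), abs_of_nonpos (by linarith [hs.1])]
            linarith [hs.1]
          have h3 := gl_pos b (g - (t + H))
          linarith
        · have : gl b (g - s) ≤ gl b (g - (t + H)) := by
            apply hmono
            rw [abs_of_nonneg (by linarith), abs_of_nonneg (by linarith [hs.2])]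
            linarith [hs.2]
          have h3 := gl_pos b (g - t)
          linarith
    · rw [indicator_of_notMem hs, sub_zero]
      by_cases hg : t < g ∧ g ≤ t + H
      · unfold io
        rw [if_pos hg, one_mul, abs_of_nonneg (sq_nonneg _)]
        apply hne
        rw [mem_Ioc, not_and_or, not_lt, not_le] at hs
        rcases hs with hs | hs
        · have : gl b (g - s) ≤ gl b (g - t) := by
            apply hmono
            rw [abs_of_nonneg (by linarith), abs_of_nonneg (by linarith)]
            linarith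
          have h3 := gl_pos b (g - (t + H))
          linarith
        · have : gl b (g - s) ≤ gl b (g - (t + H)) := by
            apply hmono
            rw [abs_of_nonpos (by linarith), abs_of_nonpos (by linarith)]
            linarith
          have h3 := gl_pos b (g - t)
          linarith
      · unfold io
        rw [if_neg hg, zero_mul, abs_zero]
        exact h0
  calc |∫ s, (io H g t * Om b (g - s) ^ 2 -
      (Ioc t (t + H)).indicator (fun s => Om b (g - s) ^ 2) s)| ≤
      ∫ s, |io H g t * Om b (g - s) ^ 2 -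
      (Ioc t (t + H)).indicator (fun s => Om b (g - s) ^ 2) s| := abs_integral_le_integral_abs
    _ ≤ ∫ s, 4 * J * gl b (g - s) :=
        integral_mono ((hi.const_mul _).sub (hi.indicator measurableSet_Ioc)).abs
          (i1.const_mul _) hpt
    _ = 8 * Real.pi / b * J := by rw [integral_const_mul, e4]; ring

/-- second comparison: shifting one of the two windows -/
lemma t3 {b : ℝ} (hb : 1 ≤ b) {H : ℝ} (hH : 0 ≤ H) (g g' t : ℝ) :
    |(∫ s in t..(t + H), Om b (g - s) ^ 2) - ∫ s in t..(t + H), Om b (g - s) * Om b (g' - s)| ≤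
      2 * Real.sqrt (b * |g - g'|) * ∫ s in t..(t + H), Om b (g - s) := by
  have hc : ∀ g : ℝ, Continuous fun s => Om b (g - s) := fun g => (Om_cont b).comp (by fun_prop)
  have c1 : Continuous fun s => Om b (g - s) ^ 2 := (hc g).pow 2
  have c2 : Continuous fun s => Om b (g - s) * Om b (g' - s) := (hc g).mul (hc g')
  have c3 : Continuous fun s => |Om b (g - s) ^ 2 - Om b (g - s) * Om b (g' - s)| :=
    (c1.sub c2).abs
  have c4 : Continuous fun s => 2 * Real.sqrt (b * |g - g'|) * Om b (g - s) :=
    continuous_const.mul (hc g)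
  rw [← intervalIntegral.integral_sub (c1.intervalIntegrable _ _)
    (c2.intervalIntegrable _ _), ← intervalIntegral.integral_const_mul]
  refine (intervalIntegral.abs_integral_le_integral_abs (by linarith)).trans ?_
  refine intervalIntegral.integral_mono_on (by linarith)
    (c3.intervalIntegrable _ _) (c4.intervalIntegrable _ _) fun s _ => ?_
  have e : Om b (g - s) ^ 2 - Om b (g - s) * Om b (g' - s) =
      Om b (g - s) * (Om b (g - s) - Om b (g' - s)) := by ring
  rw [e, abs_mul, abs_of_nonneg (Om_nonneg _ _), mul_comm]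
  apply mul_le_mul_of_nonneg_right _ (Om_nonneg _ _)
  have h1 := Om_sqrt hb (g - s) (g' - s)
  rwa [show g - s - (g' - s) = g - g' by ring] at h1

/-- majorant for the error of a pair -/
noncomputable def Bd (b H g g' t : ℝ) : ℝ :=
  4 * Real.pi / b * (io H g t * (1 - io H g' t)) +
    8 * Real.pi / b * (gl b (g - t) + gl b (g - (t + H))) +
    2 * Real.sqrt (b * |g - g'|) * ∫ s in t..(t + H), Om b (g - s)

/-- the comparison for a pair -/
lemma pair_pt {b : ℝ} (hb : 1 ≤ b) {H : ℝ} (hH : 0 ≤ H) (g g' t : ℝ) :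
    |kap b * (io H g t * io H g' t) - ∫ s in t..(t + H), Om b (g - s) * Om b (g' - s)| ≤
      Bd b H g g' t := by
  have hb0 : 0 < b := by linarith
  have h1 := t2 hb0 hH g t
  have h2 := t3 hb hH g g' t
  have a1 := io_nonneg H g t
  have a2 := io_le_one H g' t
  have h3 : |kap b * (io H g t * io H g' t) - kap b * io H g t| ≤
      4 * Real.pi / b * (io H g t * (1 - io H g' t)) := by
    have e : kap b * (io H g t * io H g' t) - kap b * io H g t =
        -(kap b * (io H g t * (1 - io H g' t))) := by ring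
    have h4 : 0 ≤ io H g t * (1 - io H g' t) := mul_nonneg a1 (by linarith)
    rw [e, abs_neg, abs_of_nonneg (mul_nonneg (kap_nonneg b) h4)]
    exact mul_le_mul_of_nonneg_right (kap_le hb0) h4
  unfold Bd
  have e : kap b * (io H g t * io H g' t) - ∫ s in t..(t + H), Om b (g - s) * Om b (g' - s) =
      (kap b * (io H g t * io H g' t) - kap b * io H g t) +
      (kap b * io H g t - ∫ s in t..(t + H), Om b (g - s) ^ 2) +
      ((∫ s in t..(t + H), Om b (g - s) ^ 2) -
        ∫ s in t..(t + H), Om b (g - s) * Om b (g' - s)) := by ring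
  rw [e]
  exact (abs_add_le _ _).trans (add_le_add ((abs_add_le _ _).trans (add_le_add h3 h1)) h2)

lemma gl_shift_cont (b g : ℝ) : Continuous fun t => gl b (g - t) :=
  (gl_cont b).comp (by fun_prop)

lemma gl_shift_int_le {b : ℝ} (hb : 0 < b) (g h : ℝ) {A B : ℝ} (hAB : A ≤ B) :
    ∫ t in A..B, gl b (g - (t + h)) ≤ 2 * Real.pi / b := by
  have h1 : (fun t => gl b (g - (t + h))) = fun t => gl b ((g - h) - t) := by
    funext t
    congr 1
    ring
  rw [h1]
  obtain ⟨i1, e1⟩ := gl_int_shift hb (g - h)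
  rw [← e1, intervalIntegral.integral_of_le hAB]
  exact setIntegral_le_integral i1 (Eventually.of_forall fun s => (gl_pos _ _).le)

lemma io_pair_le {H : ℝ} (hH : 0 ≤ H) (g g' : ℝ) {A B : ℝ} (hAB : A ≤ B) :
    ∫ t in A..B, io H g t * (1 - io H g' t) ≤ Real.sqrt (H * |g - g'|) := by
  have hm : Measurable fun t => io H g t * (1 - io H g' t) :=
    (io_meas H g).mul (measurable_const.sub (io_meas H g'))
  have hi : IntervalIntegrable (fun t => io H g t * (1 - io H g' t)) volume A B := by
    refine PG.bdd_ii hm (M := 1) (fun t => ?_) A B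
    have a1 := io_nonneg H g t
    have a2 := io_le_one H g' t
    have a3 := io_le_one H g t
    have a4 := io_nonneg H g' t
    rw [abs_of_nonneg (mul_nonneg a1 (by linarith))]
    nlinarith
  have h1 : ∫ t in A..B, io H g t * (1 - io H g' t) ≤ H := by
    refine le_trans (intervalIntegral.integral_mono_on hAB hi (PG.W_int (g - H) H A B)
      fun t _ => ?_) (PG.W_up hAB hH)
    rw [← io_W]
    have a1 := io_nonneg H g t
    have a4 := io_nonneg H g' t
    nlinarith
  have h2 : ∫ t in A..B, io H g t * (1 - io H g' t) ≤ |g - g'| := by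
    rcases le_total g' g with h | h
    · rw [abs_of_nonneg (by linarith)]
      refine le_trans (intervalIntegral.integral_mono_on hAB hi (PG.W_int g' (g - g') A B)
        fun t _ => ?_) (PG.W_up hAB (by linarith))
      unfold io PG.W
      by_cases c1 : t < g ∧ g ≤ t + H
      · by_cases c2 : t < g' ∧ g' ≤ t + H
        · rw [if_pos c1, if_pos c2]
          split_ifs <;> norm_num
        · rw [if_pos c1, if_neg c2, if_pos]
          · norm_num
          · rw [not_and_or, not_lt, not_le] at c2
            rcases c2 with c2 | c2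
            · exact ⟨c2, by linarith [c1.1]⟩
            · exact absurd c2 (by linarith [c1.2])
      · rw [if_neg c1]
        split_ifs <;> norm_num
    · rw [abs_of_nonpos (by linarith)]
      refine le_trans (intervalIntegral.integral_mono_on hAB hi
        (PG.W_int (g - H) (-(g - g')) A B) fun t _ => ?_) (PG.W_up hAB (by linarith))
      unfold io PG.W
      by_cases c1 : t < g ∧ g ≤ t + H
      · by_cases c2 : t < g' ∧ g' ≤ t + H
        · rw [if_pos c1, if_pos c2]
          split_ifs <;> norm_num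
        · rw [if_pos c1, if_neg c2, if_pos]
          · norm_num
          · rw [not_and_or, not_lt, not_le] at c2
            rcases c2 with c2 | c2
            · exact absurd c2 (by linarith [c1.1])
            · exact ⟨by linarith [c1.2], by linarith⟩
      · rw [if_neg c1]
        split_ifs <;> norm_num
  have h0 : 0 ≤ ∫ t in A..B, io H g t * (1 - io H g' t) :=
    intervalIntegral.integral_nonneg hAB fun t _ =>
      mul_nonneg (io_nonneg _ _ _) (by linarith [io_le_one H g' t])
  apply Real.le_sqrt_of_sq_le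
  nlinarith [abs_nonneg (g - g')]

lemma win_cont (b H g : ℝ) : Continuous fun t => ∫ s in t..(t + H), Om b (g - s) := by
  have hc : Continuous fun s => Om b (g - s) := (Om_cont b).comp (by fun_prop)
  have h1 : ∀ t, ∫ s in t..(t + H), Om b (g - s) =
      (∫ s in (0 : ℝ)..(t + H), Om b (g - s)) - ∫ s in (0 : ℝ)..t, Om b (g - s) := fun t =>
    (intervalIntegral.integral_interval_sub_left (hc.intervalIntegrable _ _)
      (hc.intervalIntegrable _ _)).symm
  simp_rw [h1]
  have h2 : Continuous fun x => ∫ s in (0 : ℝ)..x, Om b (g - s) :=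
    intervalIntegral.continuous_primitive (fun a b => hc.intervalIntegrable a b) 0
  exact (h2.comp (by fun_prop)).sub h2

lemma win_int {b : ℝ} (hb : 0 < b) {H : ℝ} (hH : 0 ≤ H) (g : ℝ) {A B : ℝ} (hAB : A ≤ B) :
    ∫ t in A..B, ∫ s in t..(t + H), Om b (g - s) ≤ H * (4 * Real.pi / b) := by
  have hc : Continuous fun s => Om b (g - s) := (Om_cont b).comp (by fun_prop)
  have hi : Integrable fun s => Om b (g - s) := (Om_integrable hb).comp_sub_left g
  set G : ℝ → ℝ := fun x => ∫ τ in A..x, Om b (g - τ) with hG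
  have hGc : Continuous G := intervalIntegral.continuous_primitive (fun a b =>
    hc.intervalIntegrable a b) A
  have hGm : ∀ x y, x ≤ y → G x ≤ G y := by
    intro x y hxy
    have h1 : G y - G x = ∫ τ in x..y, Om b (g - τ) :=
      intervalIntegral.integral_interval_sub_left (hc.intervalIntegrable _ _)
        (hc.intervalIntegrable _ _)
    have h2 : 0 ≤ ∫ τ in x..y, Om b (g - τ) :=
      intervalIntegral.integral_nonneg hxy fun u _ => Om_nonneg _ _
    linarith
  have h1 : ∀ t, ∫ τ in t..(t + H), Om b (g - τ) = G (t + H) - G t := fun t =>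
    (intervalIntegral.integral_interval_sub_left (hc.intervalIntegrable _ _)
        (hc.intervalIntegrable _ _)).symm
  simp_rw [h1]
  rw [intervalIntegral.integral_sub (Continuous.intervalIntegrable (by fun_prop) _ _)
    (hGc.intervalIntegrable _ _), intervalIntegral.integral_comp_add_right G H]
  have h2 : (∫ x in (A + H)..(B + H), G x) - ∫ x in A..B, G x =
      (∫ x in B..(B + H), G x) - ∫ x in A..(A + H), G x := by
    have e1 : (∫ x in A..(A + H), G x) + ∫ x in (A + H)..(B + H), G x =
        ∫ x in A..(B + H), G x :=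
      intervalIntegral.integral_add_adjacent_intervals (hGc.intervalIntegrable _ _)
        (hGc.intervalIntegrable _ _)
    have e2 : (∫ x in A..B, G x) + ∫ x in B..(B + H), G x =
        ∫ x in A..(B + H), G x :=
      intervalIntegral.integral_add_adjacent_intervals (hGc.intervalIntegrable _ _)
        (hGc.intervalIntegrable _ _)
    linarith
  rw [h2]
  have h3 : ∫ x in B..(B + H), G x ≤ H * G (B + H) := by
    have : ∫ x in B..(B + H), G x ≤ ∫ x in B..(B + H), G (B + H) :=
      intervalIntegral.integral_mono_on (by linarith) (hGc.intervalIntegrable _ _)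
        (continuous_const.intervalIntegrable _ _) fun x hx => hGm x _ hx.2
    rw [intervalIntegral.integral_const, smul_eq_mul] at this
    linarith
  have h4 : 0 ≤ ∫ x in A..(A + H), G x := by
    refine intervalIntegral.integral_nonneg (by linarith) fun x hx => ?_
    exact intervalIntegral.integral_nonneg hx.1 fun u _ => Om_nonneg _ _
  have h5 : G (B + H) ≤ 4 * Real.pi / b := by
    have h6 : G (B + H) ≤ ∫ s, Om b (g - s) := by
      simp only [hG]
      rw [intervalIntegral.integral_of_le (by linarith)]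
      exact setIntegral_le_integral hi (Eventually.of_forall fun s => Om_nonneg _ _)
    rw [integral_sub_left_eq_self (Om b) volume g] at h6
    exact h6.trans (Om_int_le hb)
  have h6 : H * G (B + H) ≤ H * (4 * Real.pi / b) := mul_le_mul_of_nonneg_left h5 hH
  linarith

lemma Bd_int {b H g g' A B : ℝ} : IntervalIntegrable (Bd b H g g') volume A B := by
  unfold Bd
  have i1 : IntervalIntegrable (fun t => io H g t * (1 - io H g' t)) volume A B := by
    refine PG.bdd_ii (f := fun t => io H g t * (1 - io H g' t))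
      ((io_meas H g).mul (measurable_const.sub (io_meas H g'))) (M := 1) (fun t => ?_) A B
    have a1 := io_nonneg H g t
    have a2 := io_le_one H g' t
    have a3 := io_le_one H g t
    have a4 := io_nonneg H g' t
    show |io H g t * (1 - io H g' t)| ≤ 1
    rw [abs_of_nonneg (mul_nonneg a1 (by linarith))]
    nlinarith
  have i2 : Continuous fun t => gl b (g - t) + gl b (g - (t + H)) :=
    (gl_shift_cont b g).add ((gl_cont b).comp (by fun_prop))
  exact ((i1.const_mul _).add ((continuous_const.mul i2).intervalIntegrable _ _)).add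
    ((continuous_const.mul (win_cont b H g)).intervalIntegrable _ _)

lemma Bd_nonneg {b H : ℝ} (hb : 0 < b) (hH : 0 ≤ H) (g g' t : ℝ) : 0 ≤ Bd b H g g' t := by
  unfold Bd
  have hpi := Real.pi_pos
  have a1 := io_nonneg H g t
  have a2 := io_le_one H g' t
  have a3 := gl_pos b (g - t)
  have a4 := gl_pos b (g - (t + H))
  have a5 : 0 ≤ ∫ s in t..(t + H), Om b (g - s) :=
    intervalIntegral.integral_nonneg (by linarith) fun u _ => Om_nonneg _ _
  have a6 : 0 ≤ io H g t * (1 - io H g' t) := mul_nonneg a1 (by linarith)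
  positivity

lemma Bd_le {b : ℝ} (hb : 1 ≤ b) {H : ℝ} (hH : 0 ≤ H) (g g' : ℝ) {A B : ℝ} (hAB : A ≤ B) :
    ∫ t in A..B, Bd b H g g' t ≤ 400 / b * (Real.sqrt (H * |g - g'|) + 1 / b +
      H * Real.sqrt (b * |g - g'|)) := by
  have hb0 : 0 < b := by linarith
  have hpi := Real.pi_pos
  have hpi4 := Real.pi_lt_d2
  unfold Bd
  have i1 : IntervalIntegrable (fun t => io H g t * (1 - io H g' t)) volume A B := by
    refine PG.bdd_ii (f := fun t => io H g t * (1 - io H g' t))
      ((io_meas H g).mul (measurable_const.sub (io_meas H g'))) (M := 1) (fun t => ?_) A B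
    have a1 := io_nonneg H g t
    have a2 := io_le_one H g' t
    have a3 := io_le_one H g t
    have a4 := io_nonneg H g' t
    show |io H g t * (1 - io H g' t)| ≤ 1
    rw [abs_of_nonneg (mul_nonneg a1 (by linarith))]
    nlinarith
  have c1 : Continuous fun t => gl b (g - t) := gl_shift_cont b g
  have c2 : Continuous fun t => gl b (g - (t + H)) := (gl_cont b).comp (by fun_prop)
  have i2 : Continuous fun t => gl b (g - t) + gl b (g - (t + H)) := c1.add c2
  have j1 : IntervalIntegrable (fun t => 4 * Real.pi / b * (io H g t * (1 - io H g' t)))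
    volume A B := i1.const_mul _
  have j2 : IntervalIntegrable (fun t => 8 * Real.pi / b *
    (gl b (g - t) + gl b (g - (t + H)))) volume A B :=
    (continuous_const.mul i2).intervalIntegrable _ _
  have j3 : IntervalIntegrable (fun t => 2 * Real.sqrt (b * |g - g'|) *
    ∫ s in t..(t + H), Om b (g - s)) volume A B :=
    (continuous_const.mul (win_cont b H g)).intervalIntegrable _ _
  have j4 : IntervalIntegrable (fun t => 4 * Real.pi / b * (io H g t * (1 - io H g' t)) +
    8 * Real.pi / b * (gl b (g - t) + gl b (g - (t + H)))) volume A B := j1.add j2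
  rw [intervalIntegral.integral_add j4 j3,
    intervalIntegral.integral_add j1 j2, intervalIntegral.integral_const_mul,
    intervalIntegral.integral_const_mul, intervalIntegral.integral_const_mul,
    intervalIntegral.integral_add (c1.intervalIntegrable _ _) (c2.intervalIntegrable _ _)]
  have h1 := io_pair_le hH g g' hAB
  have h2 := gl_shift_int_le hb0 g 0 hAB
  simp only [add_zero] at h2
  have h3 := gl_shift_int_le hb0 g H hAB
  have h4 := win_int hb0 hH g hAB
  set X := Real.sqrt (H * |g - g'|) with hX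
  set Y := Real.sqrt (b * |g - g'|) with hY
  have hX0 : 0 ≤ X := Real.sqrt_nonneg _
  have hY0 : 0 ≤ Y := Real.sqrt_nonneg _
  have e1 : 4 * Real.pi / b * (∫ t in A..B, io H g t * (1 - io H g' t)) ≤
      400 / b * X := by
    calc _ ≤ 4 * Real.pi / b * X := mul_le_mul_of_nonneg_left h1 (by positivity)
      _ ≤ 400 / b * X := by
          apply mul_le_mul_of_nonneg_right _ hX0
          apply div_le_div_of_nonneg_right _ hb0.le
          linarith
  have e2 : 8 * Real.pi / b * ((∫ t in A..B, gl b (g - t)) + ∫ t in A..B, gl b (g - (t + H))) ≤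
      400 / b * (1 / b) := by
    calc _ ≤ 8 * Real.pi / b * (2 * Real.pi / b + 2 * Real.pi / b) :=
          mul_le_mul_of_nonneg_left (add_le_add h2 h3) (by positivity)
      _ = 32 * Real.pi ^ 2 / b * (1 / b) := by field_simp; ring
      _ ≤ 400 / b * (1 / b) := by
          apply mul_le_mul_of_nonneg_right _ (by positivity)
          apply div_le_div_of_nonneg_right _ hb0.le
          nlinarith
  have e3 : 2 * Y * (∫ t in A..B, ∫ s in t..(t + H), Om b (g - s)) ≤ 400 / b * (H * Y) := by
    calc _ ≤ 2 * Y * (H * (4 * Real.pi / b)) := mul_le_mul_of_nonneg_left h4 (by positivity)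
      _ = 8 * Real.pi / b * (H * Y) := by field_simp; ring
      _ ≤ 400 / b * (H * Y) := by
          apply mul_le_mul_of_nonneg_right _ (by positivity)
          apply div_le_div_of_nonneg_right _ hb0.le
          linarith
  calc _ ≤ 400 / b * X + 400 / b * (1 / b) + 400 / b * (H * Y) :=
        add_le_add (add_le_add e1 e2) e3
    _ = _ := by ring

end Pool.Agent.X113.MS
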