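import Pool.Agent.X113.MS1

set_option autoImplicit false

/-! # The law of large numbers for Lipschitz weights -/

namespace Pool.Agent.X113.MS

open MeasureTheory Set Filter Topology
open Pool.Agent.TH800.MS SP

/-- Steklov averages -/
noncomputable def stk (ψ : ℝ → ℝ) (n : ℝ) (x : ℝ) : ℝ := n * ∫ s in x..(x + 1 / n), ψ s

lemma stk_deriv {ψ : ℝ → ℝ} (hψ : Continuous ψ) (n x : ℝ) :
    HasDerivAt (stk ψ n) (n * (ψ (x + 1 / n) - ψ x)) x := by
  have h1 : ∀ y, ∫ s in y..(y + 1 / n), ψ s =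
      (∫ s in (0 : ℝ)..(y + 1 / n), ψ s) - ∫ s in (0 : ℝ)..y, ψ s := fun y =>
    (intervalIntegral.integral_interval_sub_left (hψ.intervalIntegrable _ _)
      (hψ.intervalIntegrable _ _)).symm
  have hd : ∀ y, HasDerivAt (fun y => ∫ s in (0 : ℝ)..y, ψ s) (ψ y) y := fun y =>
    intervalIntegral.integral_hasDerivAt_right (hψ.intervalIntegrable _ _)
      (hψ.stronglyMeasurableAtFilter _ _) hψ.continuousAt
  have h2 : HasDerivAt (fun y => ∫ s in (0 : ℝ)..(y + 1 / n), ψ s) (ψ (x + 1 / n)) x :=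
    (hd (x + 1 / n)).comp_add_const x (1 / n)
  have h3 : HasDerivAt (fun y => ∫ s in y..(y + 1 / n), ψ s) (ψ (x + 1 / n) - ψ x) x := by
    simp_rw [h1]
    exact h2.sub (hd x)
  exact h3.const_mul n

lemma stk_bd {ψ : ℝ → ℝ} {B n : ℝ} (hn : 0 < n) (hB : ∀ x, |ψ x| ≤ B) (x : ℝ) :
    |stk ψ n x| ≤ B := by
  unfold stk
  have h1 : ‖∫ s in x..(x + 1 / n), ψ s‖ ≤ B * |x + 1 / n - x| :=
    intervalIntegral.norm_integral_le_of_norm_le_const fun s _ => by
      rw [Real.norm_eq_abs]; exact hB s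
  rw [Real.norm_eq_abs, add_sub_cancel_left,
    abs_of_pos (show (0 : ℝ) < 1 / n by positivity)] at h1
  rw [abs_mul, abs_of_pos hn]
  calc n * |∫ s in x..(x + 1 / n), ψ s| ≤ n * (B * (1 / n)) := mul_le_mul_of_nonneg_left h1 hn.le
    _ = B := by field_simp

lemma stk_close {ψ : ℝ → ℝ} (hψ : Continuous ψ) {B n : ℝ} (hn : 0 < n)
    (hL : ∀ x y, |ψ x - ψ y| ≤ B * |x - y|) (x : ℝ) : |stk ψ n x - ψ x| ≤ B / n := by
  have hB : 0 ≤ B := by
    have := hL 1 0
    have h2 := abs_nonneg (ψ 1 - ψ 0)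
    simp at this
    linarith
  unfold stk
  have e : n * (∫ s in x..(x + 1 / n), ψ s) - ψ x = n * ∫ s in x..(x + 1 / n), (ψ s - ψ x) := by
    rw [intervalIntegral.integral_sub (hψ.intervalIntegrable _ _)
      (continuous_const.intervalIntegrable _ _), intervalIntegral.integral_const, smul_eq_mul]
    field_simp
    ring
  rw [e, abs_mul, abs_of_pos hn]
  have h1 : ‖∫ s in x..(x + 1 / n), (ψ s - ψ x)‖ ≤ (B * (1 / n)) * |x + 1 / n - x| := by
    apply intervalIntegral.norm_integral_le_of_norm_le_const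
    intro s hs
    rw [uIoc_of_le (by have : 0 < 1 / n := by positivity
                       linarith)] at hs
    rw [Real.norm_eq_abs]
    refine (hL s x).trans (mul_le_mul_of_nonneg_left ?_ hB)
    rw [abs_of_nonneg (by linarith [hs.1])]
    linarith [hs.2]
  rw [Real.norm_eq_abs, add_sub_cancel_left,
    abs_of_pos (show (0 : ℝ) < 1 / n by positivity)] at h1
  calc _ ≤ n * (B * (1 / n) * (1 / n)) := mul_le_mul_of_nonneg_left h1 hn.le
    _ = B / n := by field_simp

/-- **law of large numbers** for the local form factor, Lipschitz weights -/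
theorem lln_lip (hRH : RHs) (lam μ1 μ2 : ℝ) (h0 : 0 < lam) (hlm : lam < μ1) (h12 : μ1 < μ2)
    (h2 : μ2 < 1 / 2) :
    ∃ C K T0 : ℝ, 0 < C ∧ 0 < K ∧ 10 ≤ T0 ∧ ∀ T : ℝ, T0 ≤ T → ∀ b : ℝ, 1 ≤ b →
      b ≤ lam * Real.log T → b ≤ (μ1 - lam) * Real.log T →
      ∀ t : ℝ, T + Real.log T ≤ t → t ≤ 2 * T - Real.log T →
      ∀ (ψ : ℝ → ℝ) (B : ℝ), (∀ x y, |ψ x - ψ y| ≤ B * |x - y|) → (∀ x, |ψ x| ≤ B) →
      |(∫ u in (0 : ℝ)..(lam * Real.log T), ψ (u / Real.log T) * ‖SS T b t u‖ ^ 2) -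
        Real.log T ^ 2 / (3 * b) * (ψ 0 + 2 * ∫ α in (0 : ℝ)..lam, α * ψ α)| ≤
        B * (K * (Real.log T + Real.log T ^ 2 / b ^ 2) +
          YY (Real.log T) C ⌊T ^ μ2⌋₊ b (lam * Real.log T) t) := by
  obtain ⟨C, K, T0, hC, hK, hT0, h⟩ := lln hRH lam μ1 μ2 h0 hlm h12 h2
  refine ⟨C, K, T0, hC, hK, hT0, fun T hT b hb1 hbl hbm t ht1 ht2 ψ B hL hB => ?_⟩
  have hT10 : 10 ≤ T := hT0.trans hT
  have hb : 0 < b := by linarith
  have hL0 : 0 < Real.log T := Real.log_pos (by linarith)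
  set L := Real.log T with hLdef
  set X := lam * L with hX
  have hX0 : 0 < X := by positivity
  have hB0 : 0 ≤ B := (abs_nonneg _).trans (hB 0)
  have hψc : Continuous ψ := by
    have : LipschitzWith B.toNNReal ψ := by
      refine LipschitzWith.of_dist_le_mul fun x y => ?_
      rw [Real.dist_eq, Real.dist_eq, Real.coe_toNNReal _ hB0]
      exact hL x y
    exact this.continuous
  set f : ℝ → ℝ := fun u => ‖SS T b t u‖ ^ 2 with hf
  have hfc : Continuous f := (SS_cont T b t).norm.pow 2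
  have hf0 : ∀ u, 0 ≤ f u := fun u => by positivity
  set F := ∫ u in (0 : ℝ)..X, f u with hF
  have hF0 : 0 ≤ F := intervalIntegral.integral_nonneg hX0.le fun u _ => hf0 u
  set R := B * (K * (L + L ^ 2 / b ^ 2) + YY L C ⌊T ^ μ2⌋₊ b X t) with hR
  set c := B * F + L ^ 2 / (3 * b) * (B + 2 * (B * (lam * lam))) with hc
  have key : ∀ n : ℝ, 0 < n → |(∫ u in (0 : ℝ)..X, ψ (u / L) * f u) -
      L ^ 2 / (3 * b) * (ψ 0 + 2 * ∫ α in (0 : ℝ)..lam, α * ψ α)| ≤ R + c / n := by
    intro n hn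
    have hsc : Continuous (stk ψ n) :=
      continuous_iff_continuousAt.2 fun x => (stk_deriv hψc n x).continuousAt
    have hd'c : Continuous fun x => n * (ψ (x + 1 / n) - ψ x) := by fun_prop
    have hbd : ∀ α, 0 ≤ α → α ≤ lam → |stk ψ n α| ≤ B ∧ |n * (ψ (α + 1 / n) - ψ α)| ≤ B := by
      intro α _ _
      refine ⟨stk_bd hn hB α, ?_⟩
      rw [abs_mul, abs_of_pos hn]
      have h3 := hL (α + 1 / n) α
      rw [add_sub_cancel_left, abs_of_pos (show (0 : ℝ) < 1 / n by positivity)] at h3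
      calc n * |ψ (α + 1 / n) - ψ α| ≤ n * (B * (1 / n)) := mul_le_mul_of_nonneg_left h3 hn.le
        _ = B := by field_simp
    have h3 := h T hT b hb1 hbl hbm t ht1 ht2 (stk ψ n) _ B (stk_deriv hψc n) hd'c hbd
    rw [← hLdef, ← hX, ← hR] at h3
    change |(∫ u in (0 : ℝ)..X, stk ψ n (u / L) * f u) - _| ≤ R at h3
    have c1 : Continuous fun u => ψ (u / L) * f u := (hψc.comp (by fun_prop)).mul hfc
    have c2 : Continuous fun u => stk ψ n (u / L) * f u := (hsc.comp (by fun_prop)).mul hfc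
    have d1 : |(∫ u in (0 : ℝ)..X, ψ (u / L) * f u) - ∫ u in (0 : ℝ)..X, stk ψ n (u / L) * f u| ≤
        B / n * F := by
      rw [← intervalIntegral.integral_sub (c1.intervalIntegrable _ _)
        (c2.intervalIntegrable _ _)]
      refine (intervalIntegral.abs_integral_le_integral_abs hX0.le).trans ?_
      have c3 : Continuous fun u => |ψ (u / L) * f u - stk ψ n (u / L) * f u| := (c1.sub c2).abs
      have c4 : Continuous fun u => B / n * f u := continuous_const.mul hfc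
      have h4 : ∫ u in (0 : ℝ)..X, |ψ (u / L) * f u - stk ψ n (u / L) * f u| ≤
          ∫ u in (0 : ℝ)..X, B / n * f u := by
        refine intervalIntegral.integral_mono_on hX0.le (c3.intervalIntegrable _ _)
          (c4.intervalIntegrable _ _) fun u _ => ?_
        rw [← sub_mul, abs_mul, abs_of_nonneg (hf0 u)]
        apply mul_le_mul_of_nonneg_right _ (hf0 u)
        rw [abs_sub_comm]
        exact stk_close hψc hn hL _
      rw [intervalIntegral.integral_const_mul] at h4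
      exact h4
    have d2 : |(ψ 0 + 2 * ∫ α in (0 : ℝ)..lam, α * ψ α) -
        (stk ψ n 0 + 2 * ∫ α in (0 : ℝ)..lam, α * stk ψ n α)| ≤
        (B + 2 * (B * (lam * lam))) / n := by
      have c5 : Continuous fun α => α * ψ α := continuous_id.mul hψc
      have c6 : Continuous fun α => α * stk ψ n α := continuous_id.mul hsc
      have e1 : (ψ 0 + 2 * ∫ α in (0 : ℝ)..lam, α * ψ α) -
          (stk ψ n 0 + 2 * ∫ α in (0 : ℝ)..lam, α * stk ψ n α) =
          (ψ 0 - stk ψ n 0) + 2 * ∫ α in (0 : ℝ)..lam, (α * ψ α - α * stk ψ n α) := by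
        rw [intervalIntegral.integral_sub (c5.intervalIntegrable _ _)
          (c6.intervalIntegrable _ _)]
        ring
      have e2 : |ψ 0 - stk ψ n 0| ≤ B / n := by
        rw [abs_sub_comm]; exact stk_close hψc hn hL 0
      have e3 : ‖∫ α in (0 : ℝ)..lam, (α * ψ α - α * stk ψ n α)‖ ≤ (lam * (B / n)) * |lam - 0| := by
        apply intervalIntegral.norm_integral_le_of_norm_le_const
        intro α hα
        rw [uIoc_of_le h0.le] at hα
        rw [← mul_sub, norm_mul, Real.norm_eq_abs, Real.norm_eq_abs, abs_of_pos hα.1]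
        apply mul_le_mul hα.2 _ (abs_nonneg _) h0.le
        rw [abs_sub_comm]
        exact stk_close hψc hn hL α
      rw [Real.norm_eq_abs, sub_zero, abs_of_pos h0] at e3
      rw [e1]
      calc _ ≤ |ψ 0 - stk ψ n 0| + |2 * ∫ α in (0 : ℝ)..lam, (α * ψ α - α * stk ψ n α)| :=
            abs_add_le _ _
        _ ≤ B / n + 2 * (lam * (B / n) * lam) := by
            rw [abs_mul, abs_of_pos (show (0 : ℝ) < 2 by norm_num)]
            linarith
        _ = _ := by field_simp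
    have hq : 0 ≤ L ^ 2 / (3 * b) := by positivity
    set A1 := ∫ u in (0 : ℝ)..X, ψ (u / L) * f u with hA1
    set A2 := ∫ u in (0 : ℝ)..X, stk ψ n (u / L) * f u with hA2
    set M1 := ψ 0 + 2 * ∫ α in (0 : ℝ)..lam, α * ψ α with hM1
    set M2 := stk ψ n 0 + 2 * ∫ α in (0 : ℝ)..lam, α * stk ψ n α with hM2
    have e : A1 - L ^ 2 / (3 * b) * M1 = (A1 - A2) + (A2 - L ^ 2 / (3 * b) * M2) -
        L ^ 2 / (3 * b) * (M1 - M2) := by ring
    rw [e]
    have h5 : |L ^ 2 / (3 * b) * (M1 - M2)| ≤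
        L ^ 2 / (3 * b) * ((B + 2 * (B * (lam * lam))) / n) := by
      rw [abs_mul, abs_of_nonneg hq]
      exact mul_le_mul_of_nonneg_left d2 hq
    calc _ ≤ |(A1 - A2) + (A2 - L ^ 2 / (3 * b) * M2)| + |L ^ 2 / (3 * b) * (M1 - M2)| :=
          abs_sub _ _
      _ ≤ (|A1 - A2| + |A2 - L ^ 2 / (3 * b) * M2|) + |L ^ 2 / (3 * b) * (M1 - M2)| := by
          gcongr
          exact abs_add_le _ _
      _ ≤ (B / n * F + R) + L ^ 2 / (3 * b) * ((B + 2 * (B * (lam * lam))) / n) := by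
          linarith
      _ = R + c / n := by rw [hc]; ring
  refine le_of_forall_pos_le_add fun ε hε => ?_
  have hc0 : 0 ≤ c := by positivity
  have h3 := key ((c + 1) / ε) (by positivity)
  refine h3.trans ?_
  have : c / ((c + 1) / ε) ≤ ε := by
    rw [div_div_eq_mul_div, div_le_iff₀ (by positivity)]
    nlinarith
  linarith

end Pool.Agent.X113.MS
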