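import Pool.Agent.X113.MS3
import Pool.Agent.Y749.Rig.Est
import Pool.Agent.Y749.Rig.Sec
import Pool.Agent.H345R2.A2.Four

set_option autoImplicit false

/-! # Montgomery's pair sums in microscopic intervals -/

namespace Pool.Agent.X113.MS

open MeasureTheory Set Filter Topology
open Pool.Agent.TH800.MS
open SP (mu RHs)
open H370 (Zf good_zeta mem_Zf)
open Pool.Agent.Y749.Rig (fw mm mm_nonneg est_gen est_all W0 ker_floor sm_blk)

/-- the weights for the kernel `√|x| / (1 + x²)` -/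
noncomputable def wq (k : ℤ) : ℝ := 80 * Real.sqrt (|(k : ℝ)| + 1) / (1 + (k : ℝ) ^ 2)

lemma wq_nonneg (k : ℤ) : 0 ≤ wq k := by unfold wq; positivity

lemma wq_sum : Summable wq := by
  have h1 : Summable fun k : ℤ => |(k : ℝ)| ^ (-(3 / 2) : ℝ) :=
    Real.summable_abs_int_rpow (by norm_num)
  have h2 : Summable fun k : ℤ => if k = 0 then (80 : ℝ) else 0 :=
    summable_of_ne_finset_zero (s := {0}) fun k hk => by
      rw [Finset.mem_singleton] at hk
      rw [if_neg hk]
  have h3 := (h1.mul_left 160).add h2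
  refine Summable.of_nonneg_of_le wq_nonneg (fun k => ?_) h3
  by_cases hk : k = 0
  · subst hk
    have : wq 0 = 80 := by unfold wq; simp
    rw [this, if_pos rfl]
    have : (0 : ℝ) ≤ 160 * |((0 : ℤ) : ℝ)| ^ (-(3 / 2) : ℝ) := by positivity
    linarith
  · rw [if_neg hk, add_zero]
    have h4 : (1 : ℝ) ≤ |(k : ℝ)| := by
      have : (1 : ℤ) ≤ |k| := Int.one_le_abs hk
      exact_mod_cast this
    set x := |(k : ℝ)| with hx
    have hx0 : 0 < x := by linarith
    have h5 : (k : ℝ) ^ 2 = x ^ 2 := (sq_abs _).symm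
    have h6 : Real.sqrt (x + 1) ≤ 2 * Real.sqrt x := by
      have : Real.sqrt (x + 1) ≤ Real.sqrt (4 * x) := Real.sqrt_le_sqrt (by linarith)
      rwa [Real.sqrt_mul (by norm_num), show (4 : ℝ) = 2 ^ 2 by norm_num,
        Real.sqrt_sq (by norm_num)] at this
    have h7 : x ^ (-(3 / 2) : ℝ) = Real.sqrt x / x ^ 2 := by
      rw [Real.sqrt_eq_rpow, ← Real.rpow_natCast x 2, ← Real.rpow_sub hx0]
      norm_num
    unfold wq
    rw [h5, h7, ← hx]
    calc 80 * Real.sqrt (x + 1) / (1 + x ^ 2) ≤ 80 * (2 * Real.sqrt x) / x ^ 2 := by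
          apply div_le_div₀ (by positivity) (by linarith) (by positivity) (by linarith)
      _ = 160 * (Real.sqrt x / x ^ 2) := by ring

lemma ker_floor' (y : ℝ) : Real.sqrt |y / (2 * Real.pi)| / (1 + (y / (2 * Real.pi)) ^ 2) ≤
    wq ⌊y⌋ := by
  have hpi := Real.pi_gt_three
  have h1 := ker_floor y
  have h4 : |y / (2 * Real.pi)| ≤ |y| := by
    rw [abs_div, abs_of_pos (show (0:ℝ) < 2 * Real.pi by linarith)]
    apply div_le_self (abs_nonneg _)
    linarith
  have h5 : |y| ≤ |((⌊y⌋ : ℤ) : ℝ)| + 1 := by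
    have h6 := Int.floor_le y
    have h7 := Int.lt_floor_add_one y
    have h8 : |y - ((⌊y⌋ : ℤ) : ℝ)| ≤ 1 := by rw [abs_le]; constructor <;> linarith
    have h9 := abs_add_le (y - ((⌊y⌋ : ℤ) : ℝ)) ((⌊y⌋ : ℤ) : ℝ)
    rw [sub_add_cancel] at h9
    linarith
  have h6 : Real.sqrt |y / (2 * Real.pi)| ≤ Real.sqrt (|((⌊y⌋ : ℤ) : ℝ)| + 1) :=
    Real.sqrt_le_sqrt (h4.trans h5)
  unfold wq
  calc Real.sqrt |y / (2 * Real.pi)| / (1 + (y / (2 * Real.pi)) ^ 2) =
      Real.sqrt |y / (2 * Real.pi)| * (1 / (1 + (y / (2 * Real.pi)) ^ 2)) := by ring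
    _ ≤ Real.sqrt (|((⌊y⌋ : ℤ) : ℝ)| + 1) * (80 / (1 + ((⌊y⌋ : ℤ) : ℝ) ^ 2)) :=
        mul_le_mul h6 h1 (by positivity) (Real.sqrt_nonneg _)
    _ = _ := by ring

/-- the pair bounds -/
lemma pair_bd : ∃ C T0 : ℝ, 0 < C ∧ 10 ≤ T0 ∧ ∀ T : ℝ, T0 ≤ T → ∀ (φ : ℝ → ℝ) (a : ℝ),
    0 ≤ a → (∀ x, |φ x| ≤ a / (1 + x ^ 2)) →
    ∑ s ∈ Zf riemannZeta T (2 * T), ∑ s' ∈ Zf riemannZeta T (2 * T), (mu s : ℝ) * (mu s' : ℝ) *
      |φ ((s.im - s'.im) * Real.log T / (2 * Real.pi))| ≤ a * (C * (T * Real.log T)) ∧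
    ∑ s ∈ Zf riemannZeta T (2 * T), ∑ s' ∈ Zf riemannZeta T (2 * T), (mu s : ℝ) * (mu s' : ℝ) *
      (|φ ((s.im - s'.im) * Real.log T / (2 * Real.pi))| *
        Real.sqrt |(s.im - s'.im) * Real.log T / (2 * Real.pi)|) ≤
        a * (C * (T * Real.log T)) := by
  obtain ⟨C, T0, hC, hT0, h⟩ := sm_blk
  set W1 := ∑' k, wq k with hW1
  have hW1' : 0 ≤ W1 := tsum_nonneg wq_nonneg
  refine ⟨(W1 + |W0| + 1) * C, T0, by positivity, hT0, fun T hT φ a ha hφ => ?_⟩
  have hT10 : 10 ≤ T := hT0.trans hT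
  have hTpos : 0 < T := by linarith
  have hL : 0 < Real.log T := Real.log_pos (by linarith)
  have h1 := h T hT
  have hY : 0 ≤ C * T := by positivity
  have hYY : Real.log T * Real.sqrt (C * T) * Real.sqrt (C * T) = C * (T * Real.log T) := by
    rw [mul_assoc, Real.mul_self_sqrt hY]; ring
  have e1 := est_all (A := Zf riemannZeta T (2 * T)) (B := Zf riemannZeta T (2 * T)) hL hY hY
    mm_nonneg mm_nonneg h1 h1
  have e2 := est_gen (A := Zf riemannZeta T (2 * T)) (B := Zf riemannZeta T (2 * T)) hL hY hY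
    mm_nonneg mm_nonneg h1 h1 (g := fun x => Real.sqrt |x| / (1 + x ^ 2)) wq_nonneg wq_sum
    ker_floor'
  rw [hYY] at e1 e2
  have hCT : 0 ≤ C * (T * Real.log T) := by positivity
  constructor
  · calc _ ≤ ∑ s ∈ Zf riemannZeta T (2 * T), ∑ s' ∈ Zf riemannZeta T (2 * T),
          a * (mm s * mm s' * (1 / (1 + ((s.im - s'.im) * Real.log T / (2 * Real.pi)) ^ 2))) := by
          refine Finset.sum_le_sum fun s _ => Finset.sum_le_sum fun s' _ => ?_
          calc _ ≤ mm s * mm s' * (a / (1 + ((s.im - s'.im) * Real.log T /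
                (2 * Real.pi)) ^ 2)) :=
                mul_le_mul_of_nonneg_left (hφ _) (mul_nonneg (mm_nonneg s) (mm_nonneg s'))
            _ = _ := by ring
      _ = a * ∑ s ∈ Zf riemannZeta T (2 * T), ∑ s' ∈ Zf riemannZeta T (2 * T),
          mm s * mm s' * (1 / (1 + ((s.im - s'.im) * Real.log T / (2 * Real.pi)) ^ 2)) := by
          rw [Finset.mul_sum]
          refine Finset.sum_congr rfl fun s _ => ?_
          rw [Finset.mul_sum]
      _ ≤ a * (W0 * (C * (T * Real.log T))) := mul_le_mul_of_nonneg_left e1 ha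
      _ ≤ a * ((W1 + |W0| + 1) * C * (T * Real.log T)) := by
          apply mul_le_mul_of_nonneg_left _ ha
          have : W0 * (C * (T * Real.log T)) ≤ (W1 + |W0| + 1) * (C * (T * Real.log T)) := by
            apply mul_le_mul_of_nonneg_right _ hCT
            linarith [le_abs_self W0]
          linarith
  · calc _ ≤ ∑ s ∈ Zf riemannZeta T (2 * T), ∑ s' ∈ Zf riemannZeta T (2 * T),
          a * (mm s * mm s' * (Real.sqrt |(s.im - s'.im) * Real.log T / (2 * Real.pi)| /
            (1 + ((s.im - s'.im) * Real.log T / (2 * Real.pi)) ^ 2))) := by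
          refine Finset.sum_le_sum fun s _ => Finset.sum_le_sum fun s' _ => ?_
          calc _ ≤ mm s * mm s' * ((a / (1 + ((s.im - s'.im) * Real.log T /
                (2 * Real.pi)) ^ 2)) *
                Real.sqrt |(s.im - s'.im) * Real.log T / (2 * Real.pi)|) :=
                mul_le_mul_of_nonneg_left (mul_le_mul_of_nonneg_right (hφ _)
                  (Real.sqrt_nonneg _)) (mul_nonneg (mm_nonneg s) (mm_nonneg s'))
            _ = _ := by ring
      _ = a * ∑ s ∈ Zf riemannZeta T (2 * T), ∑ s' ∈ Zf riemannZeta T (2 * T),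
          mm s * mm s' * (Real.sqrt |(s.im - s'.im) * Real.log T / (2 * Real.pi)| /
            (1 + ((s.im - s'.im) * Real.log T / (2 * Real.pi)) ^ 2)) := by
          rw [Finset.mul_sum]
          refine Finset.sum_congr rfl fun s _ => ?_
          rw [Finset.mul_sum]
      _ ≤ a * (W1 * (C * (T * Real.log T))) := mul_le_mul_of_nonneg_left e2 ha
      _ ≤ a * ((W1 + |W0| + 1) * C * (T * Real.log T)) := by
          apply mul_le_mul_of_nonneg_left _ ha
          have : W1 * (C * (T * Real.log T)) ≤ (W1 + |W0| + 1) * (C * (T * Real.log T)) := by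
            apply mul_le_mul_of_nonneg_right _ hCT
            linarith [abs_nonneg W0]
          linarith

/-- sharp pair sum -/
noncomputable def Pr (T H : ℝ) (ρ : ℝ → ℝ) (t : ℝ) : ℝ :=
  ∑ s ∈ Zf riemannZeta T (2 * T), ∑ s' ∈ Zf riemannZeta T (2 * T),
    (mu s : ℝ) * (mu s' : ℝ) * ρ (s.im - s'.im) * (io H s.im t * io H s'.im t)

lemma PS_win (T b H t : ℝ) (ρ : ℝ → ℝ) :
    ∫ σ in t..(t + H), PS T b σ ρ = ∑ s ∈ Zf riemannZeta T (2 * T),
      ∑ s' ∈ Zf riemannZeta T (2 * T), (mu s : ℝ) * (mu s' : ℝ) * ρ (s.im - s'.im) *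
        ∫ σ in t..(t + H), Om b (s.im - σ) * Om b (s'.im - σ) := by
  have hc : ∀ g : ℝ, Continuous fun s => Om b (g - s) := fun g => (Om_cont b).comp (by fun_prop)
  have e : ∀ σ, PS T b σ ρ = ∑ s ∈ Zf riemannZeta T (2 * T),
      ∑ s' ∈ Zf riemannZeta T (2 * T), (mu s : ℝ) * (mu s' : ℝ) * ρ (s.im - s'.im) *
        (Om b (s.im - σ) * Om b (s'.im - σ)) := by
    intro σ
    unfold PS
    refine Finset.sum_congr rfl fun s _ => Finset.sum_congr rfl fun s' _ => ?_
    ring
  simp_rw [e]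
  have h1 : ∀ s s' : ℂ, Continuous fun σ => (mu s : ℝ) * (mu s' : ℝ) * ρ (s.im - s'.im) *
        (Om b (s.im - σ) * Om b (s'.im - σ)) := fun s s' =>
    continuous_const.mul ((hc _).mul (hc _))
  rw [intervalIntegral.integral_finsetSum fun s _ =>
    (continuous_finsetSum _ fun s' _ => h1 s s').intervalIntegrable _ _]
  refine Finset.sum_congr rfl fun s _ => ?_
  rw [intervalIntegral.integral_finsetSum fun s' _ => (h1 s s').intervalIntegrable _ _]
  refine Finset.sum_congr rfl fun s' _ => ?_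
  rw [intervalIntegral.integral_const_mul]

lemma Pr_PS {b : ℝ} (hb : 1 ≤ b) {H : ℝ} (hH : 0 ≤ H) (T t : ℝ) (ρ : ℝ → ℝ) :
    |kap b * Pr T H ρ t - ∫ σ in t..(t + H), PS T b σ ρ| ≤ ∑ s ∈ Zf riemannZeta T (2 * T),
      ∑ s' ∈ Zf riemannZeta T (2 * T), (mu s : ℝ) * (mu s' : ℝ) * |ρ (s.im - s'.im)| *
        Bd b H s.im s'.im t := by
  rw [PS_win]
  unfold Pr
  rw [Finset.mul_sum, ← Finset.sum_sub_distrib]
  refine (Finset.abs_sum_le_sum_abs _ _).trans (Finset.sum_le_sum fun s _ => ?_)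
  rw [Finset.mul_sum, ← Finset.sum_sub_distrib]
  refine (Finset.abs_sum_le_sum_abs _ _).trans (Finset.sum_le_sum fun s' _ => ?_)
  have h1 := pair_pt hb hH s.im s'.im t
  have e : kap b * ((mu s : ℝ) * (mu s' : ℝ) * ρ (s.im - s'.im) *
      (io H s.im t * io H s'.im t)) - (mu s : ℝ) * (mu s' : ℝ) * ρ (s.im - s'.im) *
        ∫ σ in t..(t + H), Om b (s.im - σ) * Om b (s'.im - σ) =
      (mu s : ℝ) * (mu s' : ℝ) * ρ (s.im - s'.im) * (kap b * (io H s.im t * io H s'.im t) -
        ∫ σ in t..(t + H), Om b (s.im - σ) * Om b (s'.im - σ)) := by ring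
  rw [e, abs_mul, abs_mul, abs_of_nonneg (by positivity : (0 : ℝ) ≤ (mu s : ℝ) * (mu s' : ℝ))]
  exact mul_le_mul_of_nonneg_left h1 (by positivity)

/-- windowed double integral -/
lemma win_gen {e : ℝ → ℝ} (hc : Continuous e) (h0 : ∀ x, 0 ≤ e x) {H A B : ℝ} (hH : 0 ≤ H)
    (hAB : A ≤ B) : ∫ t in A..B, ∫ s in t..(t + H), e s ≤ H * ∫ s in A..(B + H), e s := by
  set G : ℝ → ℝ := fun x => ∫ τ in A..x, e τ with hG
  have hGc : Continuous G := intervalIntegral.continuous_primitive (fun a b =>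
    hc.intervalIntegrable a b) A
  have hGm : ∀ x y, x ≤ y → G x ≤ G y := by
    intro x y hxy
    have h1 : G y - G x = ∫ τ in x..y, e τ :=
      intervalIntegral.integral_interval_sub_left (hc.intervalIntegrable _ _)
        (hc.intervalIntegrable _ _)
    have h2 : 0 ≤ ∫ τ in x..y, e τ :=
      intervalIntegral.integral_nonneg hxy fun u _ => h0 u
    linarith
  have h1 : ∀ t, ∫ τ in t..(t + H), e τ = G (t + H) - G t := fun t =>
    (intervalIntegral.integral_interval_sub_left (hc.intervalIntegrable _ _)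
        (hc.intervalIntegrable _ _)).symm
  simp_rw [h1]
  rw [intervalIntegral.integral_sub (Continuous.intervalIntegrable (by fun_prop) _ _)
    (hGc.intervalIntegrable _ _), intervalIntegral.integral_comp_add_right G H]
  have h2 : (∫ x in (A + H)..(B + H), G x) - ∫ x in A..B, G x =
      (∫ x in B..(B + H), G x) - ∫ x in A..(A + H), G x := by
    have e1 : (∫ x in A..(A + H), G x) + ∫ x in (A + H)..(B + H), G x =
        ∫ x in A..(B + H), G x :=
      intervalIntegral.integral_add_adjacent_intervals (hGc.intervalIntegrable _ _)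
        (hGc.intervalIntegrable _ _)
    have e2 : (∫ x in A..B, G x) + ∫ x in B..(B + H), G x =
        ∫ x in A..(B + H), G x :=
      intervalIntegral.integral_add_adjacent_intervals (hGc.intervalIntegrable _ _)
        (hGc.intervalIntegrable _ _)
    linarith
  rw [h2]
  have h3 : ∫ x in B..(B + H), G x ≤ H * G (B + H) := by
    have : ∫ x in B..(B + H), G x ≤ ∫ x in B..(B + H), G (B + H) :=
      intervalIntegral.integral_mono_on (by linarith) (hGc.intervalIntegrable _ _)
        (continuous_const.intervalIntegrable _ _) fun x hx => hGm x _ hx.2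
    rw [intervalIntegral.integral_const, smul_eq_mul] at this
    linarith
  have h4 : 0 ≤ ∫ x in A..(A + H), G x := by
    refine intervalIntegral.integral_nonneg (by linarith) fun x hx => ?_
    exact intervalIntegral.integral_nonneg hx.1 fun u _ => h0 u
  linarith

lemma win_cont' {e : ℝ → ℝ} (hc : Continuous e) (H : ℝ) :
    Continuous fun t => ∫ s in t..(t + H), e s := by
  have h1 : ∀ t, ∫ s in t..(t + H), e s =
      (∫ s in (0 : ℝ)..(t + H), e s) - ∫ s in (0 : ℝ)..t, e s := fun t =>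
    (intervalIntegral.integral_interval_sub_left (hc.intervalIntegrable _ _)
      (hc.intervalIntegrable _ _)).symm
  simp_rw [h1]
  have h2 : Continuous fun x => ∫ s in (0 : ℝ)..x, e s :=
    intervalIntegral.continuous_primitive (fun a b => hc.intervalIntegrable a b) 0
  exact (h2.comp (by fun_prop)).sub h2

/-- the integral of the comparison error over the positions -/
lemma Bd_sum {T b H A B a C : ℝ} (hT : 10 ≤ T) (hb : 1 ≤ b) (hH : 0 < H) (hAB : A ≤ B)
    {φ : ℝ → ℝ}
    (h1 : ∑ s ∈ Zf riemannZeta T (2 * T), ∑ s' ∈ Zf riemannZeta T (2 * T),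
      (mu s : ℝ) * (mu s' : ℝ) *
      |φ ((s.im - s'.im) * Real.log T / (2 * Real.pi))| ≤ a * (C * (T * Real.log T)))
    (h2 : ∑ s ∈ Zf riemannZeta T (2 * T), ∑ s' ∈ Zf riemannZeta T (2 * T),
      (mu s : ℝ) * (mu s' : ℝ) *
      (|φ ((s.im - s'.im) * Real.log T / (2 * Real.pi))| *
        Real.sqrt |(s.im - s'.im) * Real.log T / (2 * Real.pi)|) ≤
        a * (C * (T * Real.log T))) :
    ∫ t in A..B, ∑ s ∈ Zf riemannZeta T (2 * T), ∑ s' ∈ Zf riemannZeta T (2 * T),
      (mu s : ℝ) * (mu s' : ℝ) *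
      |(fun d => φ (d * Real.log T / (2 * Real.pi))) (s.im - s'.im)| * Bd b H s.im s'.im t ≤
      400 / b * (Real.sqrt (2 * Real.pi * H / Real.log T) + 1 / b +
        H * Real.sqrt (2 * Real.pi * b / Real.log T)) * (a * (C * (T * Real.log T))) := by
  have hpi := Real.pi_pos
  have hL : 0 < Real.log T := Real.log_pos (by linarith)
  have hb0 : 0 < b := by linarith
  set L := Real.log T with hLdef
  have hi : ∀ s s' : ℂ, IntervalIntegrable (fun t => (mu s : ℝ) * (mu s' : ℝ) *
      |(fun d => φ (d * L / (2 * Real.pi))) (s.im - s'.im)| * Bd b H s.im s'.im t)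
      volume A B := fun s s' => Bd_int.const_mul _
  rw [intervalIntegral.integral_finsetSum fun s _ => PG.ii_sum fun s' _ => hi s s']
  have e1 : ∀ s ∈ Zf riemannZeta T (2 * T), ∫ t in A..B, ∑ s' ∈ Zf riemannZeta T (2 * T),
      (mu s : ℝ) * (mu s' : ℝ) * |(fun d => φ (d * L / (2 * Real.pi))) (s.im - s'.im)| *
        Bd b H s.im s'.im t = ∑ s' ∈ Zf riemannZeta T (2 * T), (mu s : ℝ) * (mu s' : ℝ) *
        |φ ((s.im - s'.im) * L / (2 * Real.pi))| * ∫ t in A..B, Bd b H s.im s'.im t := by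
    intro s _
    rw [intervalIntegral.integral_finsetSum fun s' _ => hi s s']
    refine Finset.sum_congr rfl fun s' _ => ?_
    rw [intervalIntegral.integral_const_mul]
  rw [Finset.sum_congr rfl e1]
  set α := Real.sqrt (2 * Real.pi * H / L) with hα
  set β := Real.sqrt (2 * Real.pi * b / L) with hβ
  have hα0 : 0 ≤ α := Real.sqrt_nonneg _
  have hβ0 : 0 ≤ β := Real.sqrt_nonneg _
  have hpt : ∀ s s' : ℂ, ∫ t in A..B, Bd b H s.im s'.im t ≤
      400 / b * ((α + H * β) * Real.sqrt |(s.im - s'.im) * L / (2 * Real.pi)| + 1 / b) := by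
    intro s s'
    have h3 := Bd_le hb hH.le s.im s'.im hAB
    have e2 : ∀ y : ℝ, 0 ≤ y → Real.sqrt (y * |s.im - s'.im|) =
        Real.sqrt (2 * Real.pi * y / L) * Real.sqrt |(s.im - s'.im) * L / (2 * Real.pi)| := by
      intro y hy
      rw [← Real.sqrt_mul (by positivity)]
      congr 1
      rw [abs_div, abs_mul, abs_of_pos hL, abs_of_pos (show 0 < 2 * Real.pi by positivity)]
      field_simp
    rw [e2 H hH.le, e2 b hb0.le, ← hα, ← hβ] at h3
    refine h3.trans (le_of_eq ?_)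
    ring
  have hms : ∀ s s' : ℂ, (0 : ℝ) ≤ (mu s : ℝ) * (mu s' : ℝ) *
      |φ ((s.im - s'.im) * L / (2 * Real.pi))| := fun s s' => by positivity
  calc _ ≤ ∑ s ∈ Zf riemannZeta T (2 * T), ∑ s' ∈ Zf riemannZeta T (2 * T),
        (mu s : ℝ) * (mu s' : ℝ) * |φ ((s.im - s'.im) * L / (2 * Real.pi))| *
        (400 / b * ((α + H * β) * Real.sqrt |(s.im - s'.im) * L / (2 * Real.pi)| + 1 / b)) :=
        Finset.sum_le_sum fun s _ => Finset.sum_le_sum fun s' _ =>
          mul_le_mul_of_nonneg_left (hpt s s') (hms s s')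
    _ = 400 / b * (α + H * β) * (∑ s ∈ Zf riemannZeta T (2 * T),
        ∑ s' ∈ Zf riemannZeta T (2 * T), (mu s : ℝ) * (mu s' : ℝ) *
        (|φ ((s.im - s'.im) * L / (2 * Real.pi))| *
          Real.sqrt |(s.im - s'.im) * L / (2 * Real.pi)|)) +
        400 / b * (1 / b) * ∑ s ∈ Zf riemannZeta T (2 * T),
        ∑ s' ∈ Zf riemannZeta T (2 * T), (mu s : ℝ) * (mu s' : ℝ) *
        |φ ((s.im - s'.im) * L / (2 * Real.pi))| := by
        simp only [Finset.mul_sum]
        rw [← Finset.sum_add_distrib]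
        refine Finset.sum_congr rfl fun s _ => ?_
        rw [← Finset.sum_add_distrib]
        refine Finset.sum_congr rfl fun s' _ => ?_
        ring
    _ ≤ 400 / b * (α + H * β) * (a * (C * (T * L))) +
        400 / b * (1 / b) * (a * (C * (T * L))) :=
        add_le_add (mul_le_mul_of_nonneg_left h2 (by positivity))
          (mul_le_mul_of_nonneg_left h1 (by positivity))
    _ = _ := by ring

/-- the local law of large numbers for the smooth pair sums -/
theorem PS_lln (hRH : RHs) (μ : ℝ) (h0 : 0 < μ) (h2 : μ < 1 / 2) (ψ : ℝ → ℝ) (B : ℝ)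
    (hL : ∀ x y, |ψ x - ψ y| ≤ B * |x - y|) (hB : ∀ x, |ψ x| ≤ B) :
    ∃ c0 K T0 : ℝ, 0 < c0 ∧ c0 ≤ 1 / 2 ∧ 0 < K ∧ 10 ≤ T0 ∧ ∀ T : ℝ, T0 ≤ T → ∀ b : ℝ, 1 ≤ b →
      b ≤ c0 * Real.log T → ∃ e : ℝ → ℝ, Continuous e ∧ (∀ t, 0 ≤ e t) ∧
      (∀ t, T + Real.log T ≤ t → t ≤ 2 * T - Real.log T →
      |PS T b t (fun d => ∫ α in (-μ)..μ, ψ α * Real.cos (2 * Real.pi * α *
        (d * Real.log T / (2 * Real.pi)))) -
        2 * Real.log T / (3 * b) * (ψ 0 + ∫ α in (-μ)..μ, |α| * ψ α)| ≤ e t) ∧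
      ∫ t in T..(2 * T), e t ≤ K * T * (1 + Real.log T / b ^ 2 +
        Real.sqrt (Real.log T / b)) := by
  obtain ⟨C, K1, T1, hC, hK1, hT1, h⟩ := lln_lip hRH μ ((μ + 2 * (1 / 2 - (1 / 2 - μ) / 3)) / 3)
    (1 / 2 - (1 / 2 - μ) / 4) h0 (by linarith) (by linarith) (by linarith)
  obtain ⟨K2, T2, hK2, hT2, hvar⟩ := YY_var (1 / 2 - (1 / 2 - μ) / 4) C (by linarith)
    (by linarith) hC.le
  set μ1 := (μ + 2 * (1 / 2 - (1 / 2 - μ) / 3)) / 3 with hμ1
  set μ2 := 1 / 2 - (1 / 2 - μ) / 4 with hμ2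
  have hB0 : 0 ≤ B := (abs_nonneg _).trans (hB 0)
  have hψc : Continuous ψ := by
    have : LipschitzWith B.toNNReal ψ := by
      refine LipschitzWith.of_dist_le_mul fun x y => ?_
      rw [Real.dist_eq, Real.dist_eq, Real.coe_toNNReal _ hB0]
      exact hL x y
    exact this.continuous
  set ψe : ℝ → ℝ := fun α => ψ α + ψ (-α) with hψe
  have hec : Continuous ψe := hψc.add (hψc.comp continuous_neg)
  have heL : ∀ x y, |ψe x - ψe y| ≤ (2 * B) * |x - y| := by
    intro x y
    have a1 := hL x y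
    have a2 := hL (-x) (-y)
    have a3 : |-x - -y| = |x - y| := by rw [show -x - -y = -(x - y) by ring, abs_neg]
    rw [a3] at a2
    have e : ψe x - ψe y = (ψ x - ψ y) + (ψ (-x) - ψ (-y)) := by simp only [hψe]; ring
    rw [e]
    refine (abs_add_le _ _).trans ?_
    linarith
  have heB : ∀ x, |ψe x| ≤ 2 * B := by
    intro x
    refine (abs_add_le _ _).trans ?_
    have a1 := hB x
    have a2 := hB (-x)
    linarith
  -- integrals over symmetric intervals
  have hsym : ∀ f : ℝ → ℝ, Continuous f → ∫ α in (-μ)..μ, f α =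
      ∫ α in (0 : ℝ)..μ, (f α + f (-α)) := by
    intro f hf
    have hfn : Continuous fun α => f (-α) := hf.comp continuous_neg
    rw [intervalIntegral.integral_add (hf.intervalIntegrable _ _)
      (hfn.intervalIntegrable _ _), intervalIntegral.integral_comp_neg, neg_zero, add_comm,
      intervalIntegral.integral_add_adjacent_intervals (hf.intervalIntegrable _ _)
      (hf.intervalIntegrable _ _)]
  refine ⟨min μ (μ1 - μ), 2 * B * K1 + 2 * B * Real.sqrt K2 + 1, max T1 T2,
    lt_min h0 (by linarith), (min_le_left _ _).trans h2.le, by positivity,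
    hT1.trans (le_max_left _ _), fun T hT b hb hbc => ?_⟩
  have hTT1 : T1 ≤ T := (le_max_left _ _).trans hT
  have hTT2 : T2 ≤ T := (le_max_right _ _).trans hT
  have hT10 : 10 ≤ T := hT1.trans hTT1
  have hTpos : 0 < T := by linarith
  have hL0 : 0 < Real.log T := Real.log_pos (by linarith)
  have hb0 : 0 < b := by linarith
  have hbl : b ≤ μ * Real.log T :=
    hbc.trans (mul_le_mul_of_nonneg_right (min_le_left _ _) hL0.le)
  have hbm : b ≤ (μ1 - μ) * Real.log T :=
    hbc.trans (mul_le_mul_of_nonneg_right (min_le_right _ _) hL0.le)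
  have hvT := hvar T hTT2 b (μ * Real.log T) hb hbl (by nlinarith)
  have hptT := h T hTT1 b hb hbl hbm
  set L := Real.log T with hLdef
  set Y : ℝ → ℝ := YY L C ⌊T ^ μ2⌋₊ b (μ * L) with hY
  have hYc : Continuous Y := YY_cont _ _ _ _ _
  have hY0 : ∀ t, 0 ≤ Y t := fun t => YY_nonneg hL0.le hC.le hb0.le hbl _ t
  refine ⟨fun t => 2 * B / L * (K1 * (L + L ^ 2 / b ^ 2) + Y t), by fun_prop, fun t => ?_,
    fun t ht1 ht2 => ?_, ?_⟩
  · have := hY0 t
    positivity
  · have h3 := hptT t ht1 ht2 ψe (2 * B) heL heB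
    have hωc : Continuous fun u => ψe (u / L) := hec.comp (continuous_id.div_const L)
    rw [PS_int hωc] at h3
    change |PS T b t (fun d => ∫ u in (0 : ℝ)..(μ * L), ψe (u / L) * Real.cos (u * d)) -
      L ^ 2 / (3 * b) * (ψe 0 + 2 * ∫ α in (0 : ℝ)..μ, α * ψe α)| ≤
      2 * B * (K1 * (L + L ^ 2 / b ^ 2) + Y t) at h3
    have e1 : ∀ d : ℝ, ∫ u in (0 : ℝ)..(μ * L), ψe (u / L) * Real.cos (u * d) =
        L * ∫ α in (-μ)..μ, ψ α * Real.cos (2 * Real.pi * α * (d * L / (2 * Real.pi))) := by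
      intro d
      have e2 := intervalIntegral.integral_comp_div (a := 0) (b := μ * L)
        (fun α => ψe α * Real.cos (α * L * d)) hL0.ne'
      have e3 : μ * L / L = μ := by field_simp
      rw [zero_div, e3, smul_eq_mul] at e2
      have e4 : ∫ u in (0 : ℝ)..(μ * L), ψe (u / L) * Real.cos (u * d) =
          ∫ u in (0 : ℝ)..(μ * L), ψe (u / L) * Real.cos (u / L * L * d) := by
        refine intervalIntegral.integral_congr fun u _ => ?_
        show ψe (u / L) * Real.cos (u * d) = ψe (u / L) * Real.cos (u / L * L * d)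
        rw [div_mul_cancel₀ _ hL0.ne']
      have hcc : Continuous fun α => ψ α * Real.cos (2 * Real.pi * α * (d * L / (2 * Real.pi))) :=
        hψc.mul (by fun_prop)
      rw [e4, e2, hsym _ hcc]
      congr 1
      refine intervalIntegral.integral_congr fun α _ => ?_
      have hp : Real.pi ≠ 0 := Real.pi_ne_zero
      have e5 : 2 * Real.pi * α * (d * L / (2 * Real.pi)) = α * L * d := by field_simp
      have e6 : 2 * Real.pi * -α * (d * L / (2 * Real.pi)) = -(α * L * d) := by field_simp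
      show ψe α * Real.cos (α * L * d) = ψ α * Real.cos (2 * Real.pi * α * (d * L / (2 * Real.pi)))
        + ψ (-α) * Real.cos (2 * Real.pi * -α * (d * L / (2 * Real.pi)))
      rw [e5, e6, Real.cos_neg]
      simp only [hψe]
      ring
    simp_rw [e1] at h3
    have e7 : PS T b t (fun d => L * ∫ α in (-μ)..μ, ψ α *
        Real.cos (2 * Real.pi * α * (d * L / (2 * Real.pi)))) =
        L * PS T b t (fun d => ∫ α in (-μ)..μ, ψ α *
        Real.cos (2 * Real.pi * α * (d * L / (2 * Real.pi)))) := by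
      unfold PS
      rw [Finset.mul_sum]
      refine Finset.sum_congr rfl fun s _ => ?_
      rw [Finset.mul_sum]
      refine Finset.sum_congr rfl fun s' _ => ?_
      ring
    have e8 : ψe 0 + 2 * ∫ α in (0 : ℝ)..μ, α * ψe α =
        2 * (ψ 0 + ∫ α in (-μ)..μ, |α| * ψ α) := by
      have hcc : Continuous fun α => |α| * ψ α := continuous_abs.mul hψc
      rw [hsym _ hcc]
      have e9 : ∫ α in (0 : ℝ)..μ, (|α| * ψ α + |-α| * ψ (-α)) =
          ∫ α in (0 : ℝ)..μ, α * ψe α := by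
        refine intervalIntegral.integral_congr fun α hα => ?_
        rw [uIcc_of_le h0.le] at hα
        show |α| * ψ α + |-α| * ψ (-α) = α * ψe α
        rw [abs_neg, abs_of_nonneg hα.1]
        simp only [hψe]
        ring
      rw [e9]
      simp only [hψe, neg_zero]
      ring
    rw [e7, e8] at h3
    set PP := PS T b t (fun d => ∫ α in (-μ)..μ, ψ α *
        Real.cos (2 * Real.pi * α * (d * L / (2 * Real.pi)))) with hPP
    set M := ψ 0 + ∫ α in (-μ)..μ, |α| * ψ α with hM
    have e10 : L * PP - L ^ 2 / (3 * b) * (2 * M) = L * (PP - 2 * L / (3 * b) * M) := by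
      field_simp
    rw [e10, abs_mul, abs_of_pos hL0] at h3
    have e11 : 2 * B / L * (K1 * (L + L ^ 2 / b ^ 2) + Y t) =
        (2 * B * (K1 * (L + L ^ 2 / b ^ 2) + Y t)) / L := by ring
    show |PP - 2 * L / (3 * b) * M| ≤ 2 * B / L * (K1 * (L + L ^ 2 / b ^ 2) + Y t)
    rw [e11, le_div_iff₀ hL0]
    linarith
  · have hT2T : T ≤ 2 * T := by linarith
    have hYi := hYc.intervalIntegrable (μ := volume) T (2 * T)
    rw [intervalIntegral.integral_const_mul, intervalIntegral.integral_add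
      (continuous_const.intervalIntegrable _ _) hYi, intervalIntegral.integral_const,
      smul_eq_mul]
    have h4 := cs_int' hYc hT2T
    have h5 : (∫ t in T..(2 * T), Y t) ^ 2 ≤ T * (K2 * (T * (L ^ 3 / b))) := by
      refine h4.trans ?_
      have : 2 * T - T = T := by ring
      rw [this]
      exact mul_le_mul_of_nonneg_left hvT hTpos.le
    have h6 : 0 ≤ ∫ t in T..(2 * T), Y t := intervalIntegral.integral_nonneg hT2T fun t _ => hY0 t
    have h7 : ∫ t in T..(2 * T), Y t ≤ Real.sqrt K2 * T * (L * Real.sqrt (L / b)) := by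
      have h8 : 0 ≤ Real.sqrt K2 * T * (L * Real.sqrt (L / b)) := by positivity
      have h9 : (Real.sqrt K2 * T * (L * Real.sqrt (L / b))) ^ 2 =
          T * (K2 * (T * (L ^ 3 / b))) := by
        rw [mul_pow, mul_pow, mul_pow, Real.sq_sqrt hK2.le, Real.sq_sqrt (by positivity)]
        field_simp
      exact abs_le_of_sq_le_sq' (by rw [h9]; exact h5) h8 |>.2
    have h10 : 0 ≤ Real.sqrt (L / b) := Real.sqrt_nonneg _
    have h11 : 0 ≤ Real.sqrt K2 := Real.sqrt_nonneg _
    have hLb : 0 ≤ L / b ^ 2 := by positivity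
    calc 2 * B / L * ((2 * T - T) * (K1 * (L + L ^ 2 / b ^ 2)) + ∫ t in T..(2 * T), Y t) ≤
        2 * B / L * ((2 * T - T) * (K1 * (L + L ^ 2 / b ^ 2)) +
          Real.sqrt K2 * T * (L * Real.sqrt (L / b))) := by
          apply mul_le_mul_of_nonneg_left _ (by positivity)
          linarith
      _ = T * (2 * B * K1 * (1 + L / b ^ 2) + 2 * B * Real.sqrt K2 * Real.sqrt (L / b)) := by
          field_simp
          ring
      _ ≤ T * ((2 * B * K1 + 2 * B * Real.sqrt K2 + 1) *
          (1 + L / b ^ 2 + Real.sqrt (L / b))) := by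
          apply mul_le_mul_of_nonneg_left _ hTpos.le
          have a1 : 0 ≤ B * K1 := by positivity
          have a2 : 0 ≤ B * Real.sqrt K2 := by positivity
          have a3 := mul_nonneg a1 h10
          have a4 := mul_nonneg a2 hLb
          have a5 := mul_nonneg a1 hLb
          nlinarith
      _ = _ := by ring

end Pool.Agent.X113.MS
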