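import Pool.Agent.X113.MS4

set_option autoImplicit false

/-! # Montgomery's pair sums in microscopic intervals: conclusion -/

namespace Pool.Agent.X113.MS

open MeasureTheory Set Filter Topology
open Pool.Agent.TH800.MS
open SP (mu RHs)
open H370 (Zf good_zeta mem_Zf)

lemma lint_le {f R : ℝ → ℝ} {A B Y : ℝ} (hAB : A ≤ B) (hR : IntervalIntegrable R volume A B)
    (h0 : ∀ t ∈ Icc A B, 0 ≤ R t) (hf : ∀ t ∈ Icc A B, f t ≤ R t)
    (hY : ∫ t in A..B, R t ≤ Y) :
    ∫⁻ t in Icc A B, ENNReal.ofReal (f t) ≤ ENNReal.ofReal Y := by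
  have h1 : ∫⁻ t in Icc A B, ENNReal.ofReal (f t) ≤ ∫⁻ t in Icc A B, ENNReal.ofReal (R t) :=
    setLIntegral_mono' measurableSet_Icc fun t ht => ENNReal.ofReal_le_ofReal (hf t ht)
  have hi : IntegrableOn R (Icc A B) := by
    rw [integrableOn_Icc_iff_integrableOn_Ioc]
    exact (intervalIntegrable_iff_integrableOn_Ioc_of_le hAB).1 hR
  have h2 : ∫⁻ t in Icc A B, ENNReal.ofReal (R t) = ENNReal.ofReal (∫ t in Icc A B, R t) := by
    rw [ofReal_integral_eq_lintegral_ofReal hi]
    exact (ae_restrict_iff' measurableSet_Icc).2 (Eventually.of_forall h0)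
  rw [h2, integral_Icc_eq_integral_Ioc, ← intervalIntegral.integral_of_le hAB] at h1
  exact h1.trans (ENNReal.ofReal_le_ofReal hY)

lemma PS_cont (T b : ℝ) (ρ : ℝ → ℝ) : Continuous fun σ => PS T b σ ρ := by
  have hc : ∀ g : ℝ, Continuous fun s => Om b (g - s) := fun g => (Om_cont b).comp (by fun_prop)
  unfold PS
  refine continuous_finsetSum _ fun s _ => continuous_finsetSum _ fun s' _ => ?_
  exact ((continuous_const.mul (hc s.im)).mul (hc s'.im)).mul continuous_const

lemma kap_low {b : ℝ} (hb : 34 ≤ b) : 1 / b ≤ kap b := by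
  have hb0 : 0 < b := by linarith
  have h1 := (abs_le.1 (kap_close (show 1 ≤ b by linarith))).1
  have hpi := Real.pi_gt_three
  have h2 : 4 / b ≤ 4 * Real.pi / (3 * b) := by
    rw [div_le_div_iff₀ hb0 (by positivity)]
    nlinarith
  have h3 : 101 / b ^ 2 ≤ 3 / b := by
    rw [div_le_div_iff₀ (by positivity) hb0]
    nlinarith
  have h4 : 4 / b = 3 / b + 1 / b := by ring
  linarith

/-- the pointwise estimate -/
lemma pt_est {T b H M κe : ℝ} {ρ : ℝ → ℝ} {e : ℝ → ℝ} (hb : 34 ≤ b) (hH : 0 < H)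
    (hL : 0 < Real.log T) (he : Continuous e) (hκe : κe = 17)
    {t : ℝ} (hp : ∀ σ ∈ Icc t (t + H), |PS T b σ ρ - 2 * Real.log T / (3 * b) * M| ≤ e σ) :
    |(H * Real.log T / (2 * Real.pi))⁻¹ * Pr T H ρ t - M| ≤
      2 * Real.pi * b / (H * Real.log T) * ((∑ s ∈ Zf riemannZeta T (2 * T),
      ∑ s' ∈ Zf riemannZeta T (2 * T), (mu s : ℝ) * (mu s' : ℝ) * |ρ (s.im - s'.im)| *
        Bd b H s.im s'.im t) + (∫ σ in t..(t + H), e σ) +
        κe * (H * Real.log T) * |M| / b ^ 2) := by
  have hb0 : 0 < b := by linarith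
  have hb1 : 1 ≤ b := by linarith
  have hpi := Real.pi_pos
  have hpi3 := Real.pi_gt_three
  set L := Real.log T with hLdef
  have h1 := Pr_PS hb1 hH.le T t ρ
  have hκ := kap_low hb
  have hκc := kap_close hb1
  set κ := kap b with hκd
  have hκ0 : 0 < κ := lt_of_lt_of_le (by positivity) hκ
  have h2 : |(∫ σ in t..(t + H), PS T b σ ρ) - H * (2 * L / (3 * b) * M)| ≤
      ∫ σ in t..(t + H), e σ := by
    have e1 : H * (2 * L / (3 * b) * M) = ∫ σ in t..(t + H), (2 * L / (3 * b) * M) := by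
      rw [intervalIntegral.integral_const, smul_eq_mul]; ring
    have hc := PS_cont T b ρ
    rw [e1, ← intervalIntegral.integral_sub (hc.intervalIntegrable _ _)
      (continuous_const.intervalIntegrable _ _)]
    refine (intervalIntegral.abs_integral_le_integral_abs (by linarith)).trans ?_
    have hc2 : Continuous fun σ => |PS T b σ ρ - 2 * L / (3 * b) * M| :=
      (hc.sub continuous_const).abs
    exact intervalIntegral.integral_mono_on (by linarith) (hc2.intervalIntegrable _ _)
      (he.intervalIntegrable _ _) hp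
  have h3 : |H * (2 * L / (3 * b) * M) - κ * (H * L / (2 * Real.pi)) * M| ≤
      κe * (H * L) * |M| / b ^ 2 := by
    have e1 : H * (2 * L / (3 * b) * M) - κ * (H * L / (2 * Real.pi)) * M =
        -(H * L * M / (2 * Real.pi) * (κ - 4 * Real.pi / (3 * b))) := by
      field_simp
      ring
    rw [e1, abs_neg, abs_mul]
    have e2 : |H * L * M / (2 * Real.pi)| = H * L * |M| / (2 * Real.pi) := by
      rw [abs_div, abs_mul, abs_of_pos (show 0 < H * L by positivity),
        abs_of_pos (show 0 < 2 * Real.pi by positivity)]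
    rw [e2]
    calc H * L * |M| / (2 * Real.pi) * |κ - 4 * Real.pi / (3 * b)| ≤
        H * L * |M| / (2 * Real.pi) * (101 / b ^ 2) :=
          mul_le_mul_of_nonneg_left hκc (by positivity)
      _ = (101 / (2 * Real.pi)) * (H * L) * |M| / b ^ 2 := by field_simp
      _ ≤ κe * (H * L) * |M| / b ^ 2 := by
          have : 101 / (2 * Real.pi) ≤ κe := by
            rw [hκe, div_le_iff₀ (by positivity)]
            linarith
          gcongr
  have h4 : |κ * Pr T H ρ t - κ * (H * L / (2 * Real.pi)) * M| ≤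
      (∑ s ∈ Zf riemannZeta T (2 * T),
      ∑ s' ∈ Zf riemannZeta T (2 * T), (mu s : ℝ) * (mu s' : ℝ) * |ρ (s.im - s'.im)| *
        Bd b H s.im s'.im t) + (∫ σ in t..(t + H), e σ) +
        κe * (H * L) * |M| / b ^ 2 := by
    have e1 : κ * Pr T H ρ t - κ * (H * L / (2 * Real.pi)) * M =
        (κ * Pr T H ρ t - ∫ σ in t..(t + H), PS T b σ ρ) +
        ((∫ σ in t..(t + H), PS T b σ ρ) - H * (2 * L / (3 * b) * M)) +
        (H * (2 * L / (3 * b) * M) - κ * (H * L / (2 * Real.pi)) * M) := by ring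
    rw [e1]
    exact (abs_add_le _ _).trans (add_le_add ((abs_add_le _ _).trans (add_le_add h1 h2)) h3)
  have e5 : (H * L / (2 * Real.pi))⁻¹ * Pr T H ρ t - M =
      (κ * (H * L / (2 * Real.pi)))⁻¹ * (κ * Pr T H ρ t - κ * (H * L / (2 * Real.pi)) * M) := by
    field_simp
  rw [e5, abs_mul, abs_of_pos (by positivity)]
  set Z := (∑ s ∈ Zf riemannZeta T (2 * T),
      ∑ s' ∈ Zf riemannZeta T (2 * T), (mu s : ℝ) * (mu s' : ℝ) * |ρ (s.im - s'.im)| *
        Bd b H s.im s'.im t) + (∫ σ in t..(t + H), e σ) +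
        κe * (H * L) * |M| / b ^ 2 with hZ
  have hZ0 : 0 ≤ Z := (abs_nonneg _).trans h4
  have e6 : (κ * (H * L / (2 * Real.pi)))⁻¹ ≤ 2 * Real.pi * b / (H * L) := by
    rw [inv_eq_one_div, div_le_div_iff₀ (by positivity) (by positivity), one_mul]
    have : 1 ≤ κ * b := by
      rw [div_le_iff₀ hb0] at hκ
      exact hκ
    have e7 : 2 * Real.pi * b * (κ * (H * L / (2 * Real.pi))) = (κ * b) * (H * L) := by
      field_simp
    rw [e7]
    have : 0 ≤ H * L := by positivity
    nlinarith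
  exact mul_le_mul e6 h4 (abs_nonneg _) (by positivity)

/-- **Montgomery's pair sums in microscopic intervals, in the mean** -/
theorem micro (hRH : RHs) (μ : ℝ) (h0 : 0 < μ) (h2 : μ < 1 / 2) (ψ : ℝ → ℝ) (B Cr : ℝ)
    (hL : ∀ x y, |ψ x - ψ y| ≤ B * |x - y|) (hB : ∀ x, |ψ x| ≤ B)
    (hr : ∀ x : ℝ, |∫ α in (-μ)..μ, ψ α * Real.cos (2 * Real.pi * α * x)| * x ^ 2 ≤ Cr) :
    ∃ C T0 : ℝ, 0 < C ∧ 10 ≤ T0 ∧ ∀ T : ℝ, T0 ≤ T → ∀ H : ℝ, 1 / Real.log T ≤ H →
      ∫⁻ t in Icc (T + Real.log T) (2 * T - H - Real.log T),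
        ENNReal.ofReal |(H * Real.log T / (2 * Real.pi))⁻¹ * Pr T H (fun d =>
          ∫ α in (-μ)..μ, ψ α * Real.cos (2 * Real.pi * α *
            (d * Real.log T / (2 * Real.pi)))) t - (ψ 0 + ∫ α in (-μ)..μ, |α| * ψ α)| ≤
      ENNReal.ofReal (C * T * ((H * Real.log T) ^ (-(1 / 3) : ℝ) +
        Real.log T ^ (-(1 / 3) : ℝ))) := by
  obtain ⟨c0, K, T1, hc0, hc1, hK, hT1, hlln⟩ := PS_lln hRH μ h0 h2 ψ B hL hB
  obtain ⟨C2, T2, hC2, hT2, hpair⟩ := pair_bd
  have hB0 : 0 ≤ B := (abs_nonneg _).trans (hB 0)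
  have hpi := Real.pi_pos
  have hpi4 := Real.pi_lt_d2
  set r : ℝ → ℝ := fun x => ∫ α in (-μ)..μ, ψ α * Real.cos (2 * Real.pi * α * x) with hrdef
  set M := ψ 0 + ∫ α in (-μ)..μ, |α| * ψ α with hM
  set a := 2 * μ * B + |Cr| + 1 with ha
  have ha0 : 0 ≤ a := by positivity
  have hra : ∀ x, |r x| ≤ a / (1 + x ^ 2) := by
    intro x
    rw [le_div_iff₀ (by positivity)]
    have h3 : |r x| ≤ 2 * μ * B := by
      have h4 : ‖∫ α in (-μ)..μ, ψ α * Real.cos (2 * Real.pi * α * x)‖ ≤ B * |μ - -μ| :=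
        intervalIntegral.norm_integral_le_of_norm_le_const fun α _ => by
          rw [norm_mul, Real.norm_eq_abs, Real.norm_eq_abs]
          have a1 := hB α
          have a2 := Real.abs_cos_le_one (2 * Real.pi * α * x)
          calc |ψ α| * |Real.cos (2 * Real.pi * α * x)| ≤ B * 1 :=
                mul_le_mul a1 a2 (abs_nonneg _) hB0
            _ = B := mul_one B
      rw [show μ - -μ = 2 * μ by ring, abs_of_pos (by positivity), Real.norm_eq_abs] at h4
      show |∫ α in (-μ)..μ, ψ α * Real.cos (2 * Real.pi * α * x)| ≤ _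
      linarith
    have h4 : |r x| * x ^ 2 ≤ Cr := hr x
    have h5 := le_abs_self Cr
    rw [mul_add, mul_one]
    linarith
  obtain ⟨T3, hT3⟩ := ((Real.tendsto_log_atTop.eventually_ge_atTop
    ((34 / c0) ^ 3 + 1))).exists_forall_of_atTop
  set CC := 800 * Real.pi * a * C2 * (3 + 1 / c0 + 3) + 2 * Real.pi * K * (2 + 1 / c0) +
    34 * Real.pi * |M| / c0 + 1 with hCC
  refine ⟨CC, max (max T1 T2) T3, by positivity,
    hT1.trans ((le_max_left _ _).trans (le_max_left _ _)), fun T hT H hH => ?_⟩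
  have hTT1 : T1 ≤ T := ((le_max_left _ _).trans (le_max_left _ _)).trans hT
  have hTT2 : T2 ≤ T := ((le_max_right _ _).trans (le_max_left _ _)).trans hT
  have hTT3 : T3 ≤ T := (le_max_right _ _).trans hT
  have hT10 : 10 ≤ T := hT1.trans hTT1
  have hTpos : 0 < T := by linarith
  have hLbig := hT3 T hTT3
  have hc3 : 0 < (34 / c0) ^ 3 := by positivity
  set L := Real.log T with hLdef
  have hL1 : 1 ≤ L := by linarith
  have hL0 : 0 < L := by linarith
  have hH0 : 0 < H := lt_of_lt_of_le (by positivity) hH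
  have hHL : 1 ≤ H * L := by
    rw [div_le_iff₀ hL0] at hH
    exact hH
  rcases le_or_gt (T + L) (2 * T - H - L) with hAB | hAB
  swap
  · rw [Icc_eq_empty (not_le.2 hAB)]
    simp
  -- the parameters
  set X := L * min H 1 with hX
  have hX1 : 1 ≤ X := by
    rcases le_total H 1 with h | h
    · rw [hX, min_eq_left h]; linarith
    · rw [hX, min_eq_right h]; linarith
  have hX0 : 0 < X := by linarith
  have hXL : X ≤ L := by
    rw [hX]
    have := min_le_right H 1
    nlinarith
  have hXH : X ≤ H * L := by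
    rw [hX]
    have := min_le_left H 1
    nlinarith
  set w := (H * L) ^ (-(1 / 3) : ℝ) with hw
  set p := L ^ (-(1 / 3) : ℝ) with hp
  have hHL0 : 0 < H * L := by linarith
  have hw0 : 0 < w := Real.rpow_pos_of_pos hHL0 _
  have hp0 : 0 < p := Real.rpow_pos_of_pos hL0 _
  set E := w + p with hE
  have hE0 : 0 < E := by positivity
  set q := X ^ (-(1 / 3) : ℝ) with hq
  have hq0 : 0 < q := Real.rpow_pos_of_pos hX0 _
  have hq1 : q ≤ 1 := Real.rpow_le_one_of_one_le_of_nonpos hX1 (by norm_num)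
  have hqE : q ≤ E := by
    rcases le_total H 1 with h | h
    · have : X = H * L := by rw [hX, min_eq_left h]; ring
      rw [hq, this]
      linarith
    · have : X = L := by rw [hX, min_eq_right h]; ring
      rw [hq, this]
      linarith
  set b := c0 * L * q ^ 2 with hb
  have hq2 : q ^ 2 = X ^ (-(2 / 3) : ℝ) := by
    rw [hq, ← Real.rpow_natCast, ← Real.rpow_mul hX0.le]
    norm_num
  have hXq : X ^ (2 / 3 : ℝ) * q ^ 2 = 1 := by
    rw [hq2, ← Real.rpow_add hX0]
    norm_num
  have hbc : b ≤ c0 * L := by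
    rw [hb]
    have : q ^ 2 ≤ 1 := by nlinarith
    have : 0 < c0 * L := by positivity
    nlinarith
  -- 1/b
  have hL23 : L ^ (2 / 3 : ℝ) = L * p := by
    rw [hp]
    conv_rhs => rw [← Real.rpow_one L]
    rw [← Real.rpow_mul hL0.le, one_mul, ← Real.rpow_add hL0]
    norm_num
  have hHL23 : (H * L) ^ (2 / 3 : ℝ) = (H * L) * w := by
    rw [hw]
    conv_rhs => rw [← Real.rpow_one (H * L)]
    rw [← Real.rpow_mul hHL0.le, one_mul, ← Real.rpow_add hHL0]
    norm_num
  have hX23 : 0 < X ^ (2 / 3 : ℝ) := Real.rpow_pos_of_pos hX0 _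
  have hq2pos : 0 < q ^ 2 := by positivity
  have hb0 : 0 < b := by positivity
  have hinvb : 1 / b = X ^ (2 / 3 : ℝ) / (c0 * L) := by
    rw [div_eq_div_iff hb0.ne' (by positivity), hb]
    have : X ^ (2 / 3 : ℝ) * (c0 * L * q ^ 2) = (X ^ (2 / 3 : ℝ) * q ^ 2) * (c0 * L) := by ring
    rw [this, hXq]
  have i1 : 1 / b ≤ p / c0 := by
    rw [hinvb, div_le_div_iff₀ (by positivity) hc0]
    have h3 : X ^ (2 / 3 : ℝ) ≤ L ^ (2 / 3 : ℝ) := Real.rpow_le_rpow hX0.le hXL (by norm_num)
    rw [hL23] at h3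
    calc X ^ (2 / 3 : ℝ) * c0 ≤ (L * p) * c0 := mul_le_mul_of_nonneg_right h3 hc0.le
      _ = p * (c0 * L) := by ring
  have i2 : 1 / (H * b) ≤ w / c0 := by
    have : 1 / (H * b) = X ^ (2 / 3 : ℝ) / (c0 * (H * L)) := by
      rw [show 1 / (H * b) = (1 / b) / H by field_simp, hinvb]
      field_simp
    rw [this, div_le_div_iff₀ (by positivity) hc0]
    have h3 : X ^ (2 / 3 : ℝ) ≤ (H * L) ^ (2 / 3 : ℝ) :=
      Real.rpow_le_rpow hX0.le hXH (by norm_num)
    rw [hHL23] at h3
    calc X ^ (2 / 3 : ℝ) * c0 ≤ ((H * L) * w) * c0 := mul_le_mul_of_nonneg_right h3 hc0.le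
      _ = w * (c0 * (H * L)) := by ring
  have hb34 : 34 ≤ b := by
    have h3 : c0 * L ^ (1 / 3 : ℝ) ≤ b := by
      have h4 : b * (p / c0) ≥ 1 := by
        have := mul_le_mul_of_nonneg_left i1 hb0.le
        rw [mul_one_div, div_self hb0.ne'] at this
        exact this
      have h5 : p * L ^ (1 / 3 : ℝ) = 1 := by
        rw [hp, ← Real.rpow_add hL0]
        norm_num
      have h6 : 0 < L ^ (1 / 3 : ℝ) := Real.rpow_pos_of_pos hL0 _
      have h7 : b * (p / c0) * (c0 * L ^ (1 / 3 : ℝ)) = b * (p * L ^ (1 / 3 : ℝ)) := by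
        field_simp
      rw [h5, mul_one] at h7
      have h8 : 0 ≤ c0 * L ^ (1 / 3 : ℝ) := by positivity
      nlinarith
    have h4 : 34 / c0 ≤ L ^ (1 / 3 : ℝ) := by
      have h5 : ((34 / c0) ^ 3) ^ (1 / 3 : ℝ) ≤ L ^ (1 / 3 : ℝ) :=
        Real.rpow_le_rpow hc3.le (by linarith) (by norm_num)
      rw [← Real.rpow_natCast, ← Real.rpow_mul (by positivity)] at h5
      norm_num at h5
      exact h5
    have h5 : 34 ≤ c0 * L ^ (1 / 3 : ℝ) := by
      rw [div_le_iff₀ hc0] at h4
      linarith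
    linarith
  have hb1 : 1 ≤ b := by linarith
  have hz2 : b / L = c0 * q ^ 2 := by
    rw [hb]; field_simp
  have i3 : Real.sqrt (b / L) ≤ q := by
    rw [hz2]
    calc Real.sqrt (c0 * q ^ 2) ≤ Real.sqrt (q ^ 2) := Real.sqrt_le_sqrt (by nlinarith)
      _ = q := Real.sqrt_sq hq0.le
  have hw3 : w ^ 3 = 1 / (H * L) := by
    have e0 : (-(1 / 3) : ℝ) * ((3 : ℕ) : ℝ) = -1 := by norm_num
    rw [hw, ← Real.rpow_natCast, ← Real.rpow_mul hHL0.le, e0, Real.rpow_neg_one, one_div]
  have hw1 : w ≤ 1 := Real.rpow_le_one_of_one_le_of_nonpos hHL (by norm_num)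
  have i4 : Real.sqrt (2 * Real.pi * H / L) ≤ 3 * H * w := by
    rw [Real.sqrt_le_left (by positivity)]
    have e1 : 2 * Real.pi * H / L = 2 * Real.pi * H ^ 2 * (1 / (H * L)) := by field_simp
    rw [e1, ← hw3]
    have e2 : w ^ 3 ≤ w ^ 2 := by
      have : w ^ 3 = w * w ^ 2 := by ring
      rw [this]
      exact mul_le_of_le_one_left (sq_nonneg w) hw1
    calc 2 * Real.pi * H ^ 2 * w ^ 3 ≤ 9 * H ^ 2 * w ^ 2 := by
          apply mul_le_mul _ e2 (by positivity) (by positivity)
          apply mul_le_mul_of_nonneg_right _ (sq_nonneg H)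
          linarith
      _ = (3 * H * w) ^ 2 := by ring
  have i5 : Real.sqrt (2 * Real.pi * b / L) ≤ 3 * E := by
    calc Real.sqrt (2 * Real.pi * b / L) ≤ Real.sqrt (3 ^ 2 * (b / L)) := by
          apply Real.sqrt_le_sqrt
          rw [mul_div_assoc]
          apply mul_le_mul_of_nonneg_right _ (by positivity)
          linarith
      _ = 3 * Real.sqrt (b / L) := by
          rw [Real.sqrt_mul (by norm_num), Real.sqrt_sq (by norm_num)]
      _ ≤ 3 * E := by linarith
  have hpE : p ≤ E := by rw [hE]; linarith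
  have hwE : w ≤ E := by rw [hE]; linarith
  obtain ⟨e, hec, he0, hept, heint⟩ := hlln T hTT1 b hb1 hbc
  obtain ⟨p1, p2⟩ := hpair T hTT2 r a ha0 hra
  set ρ : ℝ → ℝ := fun d => ∫ α in (-μ)..μ, ψ α * Real.cos (2 * Real.pi * α *
    (d * L / (2 * Real.pi))) with hρ
  set Bs : ℝ → ℝ := fun t => ∑ s ∈ Zf riemannZeta T (2 * T),
      ∑ s' ∈ Zf riemannZeta T (2 * T), (mu s : ℝ) * (mu s' : ℝ) * |ρ (s.im - s'.im)| *
        Bd b H s.im s'.im t with hBs
  have hBsint : ∫ t in (T + L)..(2 * T - H - L), Bs t ≤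
      400 / b * (Real.sqrt (2 * Real.pi * H / L) + 1 / b +
        H * Real.sqrt (2 * Real.pi * b / L)) * (a * (C2 * (T * L))) :=
    Bd_sum hT10 hb1 hH0 hAB p1 p2
  have hBsi : IntervalIntegrable Bs volume (T + L) (2 * T - H - L) :=
    PG.ii_sum fun s _ => PG.ii_sum fun s' _ => Bd_int.const_mul _
  have hBs0 : ∀ t, 0 ≤ Bs t := fun t => Finset.sum_nonneg fun s _ =>
    Finset.sum_nonneg fun s' _ => mul_nonneg (by positivity) (Bd_nonneg hb0 hH0.le _ _ _)
  set Wn : ℝ → ℝ := fun t => ∫ σ in t..(t + H), e σ with hWn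
  have hWc : Continuous Wn := win_cont' hec H
  have hW0 : ∀ t, 0 ≤ Wn t := fun t =>
    intervalIntegral.integral_nonneg (by linarith) fun u _ => he0 u
  have hWint : ∫ t in (T + L)..(2 * T - H - L), Wn t ≤
      H * (K * T * (1 + L / b ^ 2 + Real.sqrt (L / b))) := by
    refine (win_gen hec he0 hH0.le hAB).trans ?_
    apply mul_le_mul_of_nonneg_left _ hH0.le
    refine le_trans ?_ heint
    exact intervalIntegral.integral_mono_interval (by linarith) (by linarith) (by linarith)
      (Eventually.of_forall fun u => he0 u) (hec.intervalIntegrable _ _)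
  set D := 17 * (H * L) * |M| / b ^ 2 with hD
  have hD0 : 0 ≤ D := by positivity
  set k := 2 * Real.pi * b / (H * L) with hk
  have hk0 : 0 < k := by positivity
  have hRi : IntervalIntegrable (fun t => k * (Bs t + Wn t + D)) volume (T + L)
      (2 * T - H - L) :=
    ((hBsi.add (hWc.intervalIntegrable _ _)).add
      (continuous_const.intervalIntegrable _ _)).const_mul k
  refine lint_le hAB hRi (fun t _ => ?_) (fun t ht => ?_) ?_
  · have := hBs0 t
    have := hW0 t
    positivity
  · exact pt_est (M := M) hb34 hH0 hL0 hec rfl fun σ hσ =>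
      hept σ (by linarith [ht.1, hσ.1]) (by linarith [ht.2, hσ.2])
  · have e1 : ∫ t in (T + L)..(2 * T - H - L), k * (Bs t + Wn t + D) =
        k * ((∫ t in (T + L)..(2 * T - H - L), Bs t) +
          (∫ t in (T + L)..(2 * T - H - L), Wn t) + (T - H - 2 * L) * D) := by
      have j1 : IntervalIntegrable (fun t => Bs t + Wn t) volume (T + L) (2 * T - H - L) :=
        hBsi.add (hWc.intervalIntegrable _ _)
      rw [intervalIntegral.integral_const_mul, intervalIntegral.integral_add j1
        (continuous_const.intervalIntegrable _ _), intervalIntegral.integral_add hBsi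
        (hWc.intervalIntegrable _ _), intervalIntegral.integral_const, smul_eq_mul]
      ring
    rw [e1]
    set Y := a * C2 * T with hYd
    have hY0 : 0 ≤ Y := by positivity
    -- first part
    have f1 : k * (400 / b * (Real.sqrt (2 * Real.pi * H / L) + 1 / b +
        H * Real.sqrt (2 * Real.pi * b / L)) * (a * (C2 * (T * L)))) ≤
        800 * Real.pi * Y * ((3 + 1 / c0 + 3) * E) := by
      have g1 : k * (400 / b * (Real.sqrt (2 * Real.pi * H / L) + 1 / b +
        H * Real.sqrt (2 * Real.pi * b / L)) * (a * (C2 * (T * L)))) =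
        800 * Real.pi * Y * (Real.sqrt (2 * Real.pi * H / L) / H + 1 / (H * b) +
          Real.sqrt (2 * Real.pi * b / L)) := by
        rw [hk, hYd]; field_simp; ring
      rw [g1]
      apply mul_le_mul_of_nonneg_left _ (by positivity)
      have g2 : Real.sqrt (2 * Real.pi * H / L) / H ≤ 3 * E := by
        rw [div_le_iff₀ hH0]
        calc _ ≤ 3 * H * w := i4
          _ = 3 * w * H := by ring
          _ ≤ 3 * E * H := by
              apply mul_le_mul_of_nonneg_right _ hH0.le
              linarith only [hwE]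
      have g3 : 1 / (H * b) ≤ 1 / c0 * E := by
        refine i2.trans ?_
        rw [one_div_mul_eq_div]
        exact div_le_div_of_nonneg_right hwE hc0.le
      have g5 : (3 + 1 / c0 + 3) * E = 3 * E + 1 / c0 * E + 3 * E := by ring
      rw [g5]
      exact add_le_add (add_le_add g2 g3) i5
    -- second part
    have f2 : k * (H * (K * T * (1 + L / b ^ 2 + Real.sqrt (L / b)))) ≤
        2 * Real.pi * K * T * ((2 + 1 / c0) * E) := by
      set z := Real.sqrt (b / L) with hz
      have hbL : 0 < b / L := by positivity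
      have hz0 : 0 < z := Real.sqrt_pos.2 hbL
      have hzz : z * z = b / L := Real.mul_self_sqrt hbL.le
      have hinv : Real.sqrt (L / b) = 1 / z := by
        rw [show L / b = (b / L)⁻¹ by rw [inv_div], Real.sqrt_inv, one_div]
      have g1 : k * (H * (K * T * (1 + L / b ^ 2 + Real.sqrt (L / b)))) =
          2 * Real.pi * K * T * (b / L + 1 / b + (b / L) * Real.sqrt (L / b)) := by
        rw [hk]; field_simp
      rw [g1]
      apply mul_le_mul_of_nonneg_left _ (by positivity)
      have g2 : (b / L) * Real.sqrt (L / b) = z := by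
        rw [hinv, ← hzz]; field_simp
      rw [g2, ← hzz]
      have g3 : z * z ≤ z := mul_le_of_le_one_left hz0.le (i3.trans hq1)
      have g4 : 1 / b ≤ 1 / c0 * E := by
        refine i1.trans ?_
        rw [one_div_mul_eq_div]
        exact div_le_div_of_nonneg_right hpE hc0.le
      have g6 : z ≤ E := i3.trans hqE
      have g5 : (2 + 1 / c0) * E = E + 1 / c0 * E + E := by ring
      rw [g5]
      exact add_le_add (add_le_add (g3.trans g6) g4) g6
    -- third part
    have f3 : k * ((T - H - 2 * L) * D) ≤ 34 * Real.pi * |M| / c0 * T * E := by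
      have g1 : k * ((T - H - 2 * L) * D) = 34 * Real.pi * |M| * (T - H - 2 * L) * (1 / b) := by
        rw [hk, hD]; field_simp; ring
      rw [g1]
      have g4 : 1 / b ≤ 1 / c0 * E := by
        refine i1.trans ?_
        rw [one_div_mul_eq_div]
        exact div_le_div_of_nonneg_right hpE hc0.le
      have g5 : 0 ≤ T - H - 2 * L := by linarith
      calc 34 * Real.pi * |M| * (T - H - 2 * L) * (1 / b) ≤
          34 * Real.pi * |M| * T * (1 / c0 * E) := by
            apply mul_le_mul _ g4 (by positivity) (by positivity)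
            apply mul_le_mul_of_nonneg_left _ (by positivity)
            linarith
        _ = _ := by ring
    have f4 : 0 ≤ T * E := by positivity
    calc k * ((∫ t in (T + L)..(2 * T - H - L), Bs t) +
          (∫ t in (T + L)..(2 * T - H - L), Wn t) + (T - H - 2 * L) * D) ≤
        k * (400 / b * (Real.sqrt (2 * Real.pi * H / L) + 1 / b +
          H * Real.sqrt (2 * Real.pi * b / L)) * (a * (C2 * (T * L))) +
          H * (K * T * (1 + L / b ^ 2 + Real.sqrt (L / b))) + (T - H - 2 * L) * D) := by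
          apply mul_le_mul_of_nonneg_left _ hk0.le
          linarith
      _ = k * (400 / b * (Real.sqrt (2 * Real.pi * H / L) + 1 / b +
          H * Real.sqrt (2 * Real.pi * b / L)) * (a * (C2 * (T * L)))) +
          k * (H * (K * T * (1 + L / b ^ 2 + Real.sqrt (L / b)))) +
          k * ((T - H - 2 * L) * D) := by ring
      _ ≤ 800 * Real.pi * Y * ((3 + 1 / c0 + 3) * E) +
          2 * Real.pi * K * T * ((2 + 1 / c0) * E) +
          34 * Real.pi * |M| / c0 * T * E := add_le_add (add_le_add f1 f2) f3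
      _ ≤ CC * T * E := by
          have g7 : CC * T * E = 800 * Real.pi * Y * ((3 + 1 / c0 + 3) * E) +
              2 * Real.pi * K * T * ((2 + 1 / c0) * E) +
              34 * Real.pi * |M| / c0 * T * E + T * E := by
            rw [hCC, hYd]
            ring
          rw [g7]
          exact le_add_of_nonneg_right f4

end Pool.Agent.X113.MS
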