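import Pool.Agent.Y743.LR.NT5
import Pool.Agent.Y749.AH.Ix

/-! # Linear forms of consecutive gaps deviate from their mean on both sides -/

set_option autoImplicit false

open Filter Topology

namespace Pool.Agent.X113.Osc

open SG (ord NZ)
open LG (dlt)
open Pool.Agent.Y743.LR (dl cube_sum)
open Pool.Agent.Y749.Rig (nT)

/-- the height of the `N`-th ordinate -/
lemma nT_ord (η : ℝ) (hη : 0 < η) (hη1 : η ≤ 1) : ∀ᶠ N : ℕ in atTop,
    (1 - η) * N ≤ ord (N + 1) * Real.log (ord (N + 1)) / (2 * Real.pi) ∧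
    ord (N + 1) * Real.log (ord (N + 1)) / (2 * Real.pi) ≤ (1 + η) * N := by
  have hpi := Real.pi_pos
  obtain ⟨T0, hT0⟩ := eventually_atTop.1
    (Pool.Agent.Y749.AH.N_asymp (show 0 < η / 2 by positivity))
  have hlim : Tendsto (fun N : ℕ => ord (N + 1)) atTop atTop :=
    SG.ord_tendsto.comp (tendsto_add_atTop_nat 1)
  filter_upwards [hlim.eventually_gt_atTop (max T0 1)] with N hN
  set T := ord (N + 1) with hT
  have hT1 : 1 < T := lt_of_le_of_lt (le_max_right _ _) hN
  have hTT0 : T0 < T := lt_of_le_of_lt (le_max_left _ _) hN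
  have enT : ∀ t : ℝ, nT t = t * Real.log t / (2 * Real.pi) := by
    intro t; unfold nT; ring
  have hX : 0 ≤ T * Real.log T / (2 * Real.pi) := by
    have := Real.log_pos hT1
    positivity
  constructor
  · have h1 := (hT0 T hTT0.le).2
    rw [enT] at h1
    have h2 : N + 1 ≤ NZ T := SG.le_NZ_ord (by omega)
    have h3 : (N : ℝ) ≤ NZ T := by exact_mod_cast (by omega : N ≤ NZ T)
    have h4 := mul_le_mul_of_nonneg_left (h3.trans h1) (show (0 : ℝ) ≤ 1 - η by linarith)
    generalize T * Real.log T / (2 * Real.pi) = X at hX h4 ⊢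
    have h5 : 0 ≤ η * X := by positivity
    have h6 : 0 ≤ η ^ 2 * X := by positivity
    have h7 : (1 - η) * ((1 + η / 2) * X) = X - (η * X) / 2 - (η ^ 2 * X) / 2 := by ring
    rw [h7] at h4
    linarith
  · have hc : ContinuousAt (fun t : ℝ => (1 - η / 2) * (t * Real.log t / (2 * Real.pi))) T := by
      apply ContinuousAt.mul continuousAt_const
      apply ContinuousAt.div_const
      exact continuousAt_id.mul (Real.continuousAt_log (by linarith))
    have h1 : Tendsto (fun t : ℝ => (1 - η / 2) * (t * Real.log t / (2 * Real.pi))) (𝓝[<] T)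
        (𝓝 ((1 - η / 2) * (T * Real.log T / (2 * Real.pi)))) :=
      hc.tendsto.mono_left nhdsWithin_le_nhds
    have h2 : (1 - η / 2) * (T * Real.log T / (2 * Real.pi)) ≤ N := by
      refine le_of_tendsto h1 ?_
      have h3 : ∀ᶠ t in 𝓝[<] T, T0 < t := nhdsWithin_le_nhds (Ioi_mem_nhds hTT0)
      filter_upwards [h3, self_mem_nhdsWithin] with t ht1 ht2
      have h5 := (hT0 t ht1.le).1
      rw [enT] at h5
      refine h5.trans ?_
      have h4 : ¬ N + 1 ≤ NZ t := by
        intro h5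
        have := (SG.ord_le_iff (by omega) t).2 h5
        exact absurd (lt_of_lt_of_le ht2 this) (lt_irrefl _)
      exact_mod_cast (by omega : NZ t ≤ N)
    have hN0 : (0 : ℝ) ≤ N := Nat.cast_nonneg N
    have h4 := mul_le_mul_of_nonneg_left h2 (show (0 : ℝ) ≤ 1 + η by linarith)
    generalize T * Real.log T / (2 * Real.pi) = X at hX h4 ⊢
    have h5 : 0 ≤ η * (1 - η) * X := by
      have : 0 ≤ 1 - η := by linarith
      positivity
    have h7 : (1 + η) * ((1 - η / 2) * X) = X + (η * (1 - η) * X) / 2 := by ring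
    rw [h7] at h4
    linarith

lemma sum_dlt (N : ℕ) : ∑ n ∈ Finset.Icc 1 N, dlt n =
    ord (N + 1) * Real.log (ord (N + 1)) / (2 * Real.pi) -
      ord 1 * Real.log (ord 1) / (2 * Real.pi) := by
  induction N with
  | zero => simp
  | succ N ih =>
    rw [Finset.sum_Icc_succ_top (by omega), ih]
    unfold LG.dlt
    ring

lemma mean_dlt (η : ℝ) (hη : 0 < η) : ∀ᶠ N : ℕ in atTop,
    |∑ n ∈ Finset.Icc 1 N, dlt n - N| ≤ η * N := by
  set K : ℝ := |ord 1 * Real.log (ord 1) / (2 * Real.pi)| with hK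
  have ev : ∀ᶠ N : ℕ in atTop, K / (η / 2) ≤ (N : ℝ) :=
    tendsto_natCast_atTop_atTop.eventually_ge_atTop _
  have hη2 : min (η / 2) 1 ≤ η / 2 := min_le_left _ _
  filter_upwards [nT_ord (min (η / 2) 1) (lt_min (by positivity) one_pos) (min_le_right _ _), ev]
    with N h1 h2
  rw [sum_dlt]
  rw [div_le_iff₀ (by positivity)] at h2
  have h3 := neg_abs_le (ord 1 * Real.log (ord 1) / (2 * Real.pi))
  have h4 := le_abs_self (ord 1 * Real.log (ord 1) / (2 * Real.pi))
  have hN0 : (0 : ℝ) ≤ N := Nat.cast_nonneg N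
  have h5 : min (η / 2) 1 * N ≤ η / 2 * N := mul_le_mul_of_nonneg_right hη2 hN0
  rw [← hK] at h3 h4
  rw [abs_le]
  constructor
  · linarith [h1.1]
  · linarith [h1.2]

/-- consecutive ordinates have a bounded ratio -/
lemma ratio (hRH : RiemannHypothesis) : ∀ᶠ n : ℕ in atTop, ord (n + 1) ≤ 2 * ord n := by
  have hpi := Real.pi_pos
  obtain ⟨C, hC, hc⟩ := cube_sum (H177.Lat.rhs_of hRH)
  have h1 := nT_ord (1 / 2) (by norm_num) (by norm_num)
  obtain ⟨N0, hN0⟩ := eventually_atTop.1 h1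
  have ev : ∀ᶠ n : ℕ in atTop, 64 * C + 2 ≤ (n : ℝ) :=
    tendsto_natCast_atTop_atTop.eventually_ge_atTop _
  filter_upwards [eventually_ge_atTop (N0 + 2), ev,
    SG.ord_tendsto.eventually_ge_atTop 1] with n hn hn2 hn3
  by_contra hcon
  push Not at hcon
  have hn1 : 1 ≤ n := by omega
  set x := ord n with hx
  set y := ord (n + 1) with hy
  have hlx : 0 ≤ Real.log x := Real.log_nonneg hn3
  have hxy : Real.log x ≤ Real.log y := Real.log_le_log (by linarith) (by linarith)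
  obtain ⟨m, rfl⟩ : ∃ m, n = m + 1 := ⟨n - 1, by omega⟩
  have h2 := (hN0 m (by omega)).1
  rw [← hx] at h2
  have h3 : x * Real.log x / (2 * Real.pi) ≤ dlt (m + 1) := by
    unfold LG.dlt
    apply div_le_div_of_nonneg_right _ (by positivity)
    rw [← hx, ← hy]
    nlinarith
  have h4 : (max (dlt (m + 1)) 0) ^ 3 ≤ C * ((m + 1 : ℕ) : ℝ) := by
    refine le_trans ?_ (hc (m + 1))
    exact Finset.single_le_sum (f := fun n => (max (dlt n) 0) ^ 3) (fun i _ => by positivity)
      (Finset.mem_Icc.2 ⟨by omega, le_rfl⟩)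
  push_cast at h4 hn2
  have hm0 : (0 : ℝ) ≤ m := Nat.cast_nonneg m
  have h5 : ((m : ℝ) + 1) / 4 ≤ max (dlt (m + 1)) 0 := by
    refine le_trans ?_ (le_max_left _ _)
    refine le_trans ?_ h3
    refine le_trans ?_ h2
    linarith
  have h6 : (((m : ℝ) + 1) / 4) ^ 3 ≤ C * ((m : ℝ) + 1) :=
    (pow_le_pow_left₀ (by positivity) h5 3).trans h4
  have h7 : ((m : ℝ) + 1) ^ 2 ≤ 64 * C := by
    have h8 : (((m : ℝ) + 1) / 4) ^ 3 = ((m : ℝ) + 1) ^ 2 * ((m : ℝ) + 1) / 64 := by ring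
    rw [h8] at h6
    have h9 : (0 : ℝ) < (m : ℝ) + 1 := by positivity
    have h10 : ((m : ℝ) + 1) ^ 2 * ((m : ℝ) + 1) ≤ 64 * C * ((m : ℝ) + 1) := by linarith
    exact le_of_mul_le_mul_right h10 h9
  nlinarith

lemma dl_dlt {n : ℕ} (hn : 1 ≤ n) (h : ord (n + 1) ≤ 2 * ord n) :
    0 ≤ dlt n - dl n ∧ dlt n - dl n ≤ ord (n + 1) - ord n := by
  have hpi := Real.pi_gt_three
  have hpi4 := Real.pi_lt_d2
  have hx : 0 < ord n := SG.ord_pos hn
  have hxy : ord n ≤ ord (n + 1) := SG.ord_mono hn (Nat.le_succ n)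
  set x := ord n with hx'
  set y := ord (n + 1) with hy'
  have hy : 0 < y := by linarith
  have e : dlt n - dl n = (y * Real.log (y / x) + (y - x) * Real.log (2 * Real.pi)) /
      (2 * Real.pi) := by
    unfold LG.dlt Pool.Agent.Y743.LR.dl
    rw [← hx', ← hy', Real.log_div hy.ne' hx.ne', Real.log_div hx.ne' (by positivity)]
    ring
  have h1 : 0 ≤ Real.log (y / x) := Real.log_nonneg (by rw [le_div_iff₀ hx]; linarith)
  have h2 : Real.log (y / x) ≤ (y - x) / x := by
    have := Real.log_le_sub_one_of_pos (div_pos hy hx)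
    have e2 : y / x - 1 = (y - x) / x := by field_simp
    linarith
  have h3 : y * Real.log (y / x) ≤ 2 * (y - x) := by
    calc y * Real.log (y / x) ≤ y * ((y - x) / x) := mul_le_mul_of_nonneg_left h2 hy.le
      _ = (y / x) * (y - x) := by field_simp
      _ ≤ 2 * (y - x) := by
        apply mul_le_mul_of_nonneg_right _ (by linarith)
        rw [div_le_iff₀ hx]
        exact h
  have h4 : 0 ≤ Real.log (2 * Real.pi) := Real.log_nonneg (by linarith)
  have h5 : Real.log (2 * Real.pi) ≤ 2 * Real.pi - 2 := by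
    have h6 : Real.log (2 * Real.pi) = Real.log (2 * Real.pi / 4) + Real.log 4 := by
      rw [← Real.log_mul (by positivity) (by norm_num)]
      congr 1
      ring
    have h7 := Real.log_le_sub_one_of_pos (show 0 < 2 * Real.pi / 4 by positivity)
    have h8 : Real.log 4 ≤ 1.4 := by
      have : Real.log 4 = 2 * Real.log 2 := by
        rw [show (4 : ℝ) = 2 ^ 2 by norm_num, Real.log_pow]
        norm_num
      rw [this]
      have := Real.log_two_lt_d9
      norm_num at this ⊢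
      linarith
    norm_num at h8
    linarith
  rw [e]
  constructor
  · apply div_nonneg _ (by positivity)
    have : 0 ≤ (y - x) * Real.log (2 * Real.pi) := mul_nonneg (by linarith) h4
    have := mul_nonneg hy.le h1
    linarith
  · rw [div_le_iff₀ (by positivity)]
    have h6 : (y - x) * Real.log (2 * Real.pi) ≤ (y - x) * (2 * Real.pi - 2) :=
      mul_le_mul_of_nonneg_left h5 (by linarith)
    linarith

lemma sum_step (N : ℕ) : ∑ n ∈ Finset.Icc 1 N, (ord (n + 1) - ord n) = ord (N + 1) - ord 1 := by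
  induction N with
  | zero => simp
  | succ N ih =>
    rw [Finset.sum_Icc_succ_top (by omega), ih]
    ring

lemma ord_small (η : ℝ) (hη : 0 < η) : ∀ᶠ N : ℕ in atTop, ord (N + 1) ≤ η * N := by
  have hpi := Real.pi_pos
  have hlim : Tendsto (fun N : ℕ => ord (N + 1)) atTop atTop :=
    SG.ord_tendsto.comp (tendsto_add_atTop_nat 1)
  filter_upwards [nT_ord 1 one_pos le_rfl,
    (Real.tendsto_log_atTop.comp hlim).eventually_ge_atTop (4 * Real.pi / η),
    hlim.eventually_ge_atTop 1] with N h1 h2 h3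
  simp only [Function.comp] at h2
  have h4 := h1.2
  set T := ord (N + 1)
  rw [div_le_iff₀ (by positivity)] at h4
  have h5 : T * (4 * Real.pi / η) ≤ T * Real.log T := mul_le_mul_of_nonneg_left h2 (by linarith)
  have h6 : T * (4 * Real.pi / η) ≤ (1 + 1) * N * (2 * Real.pi) := h5.trans h4
  have h7 : T * (4 * Real.pi / η) = T / η * (4 * Real.pi) := by ring
  rw [h7] at h6
  have h8 : T / η ≤ N := by
    have h9 : T / η * (4 * Real.pi) ≤ N * (4 * Real.pi) := by linarith
    exact le_of_mul_le_mul_right h9 (by positivity)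
  rw [div_le_iff₀ hη] at h8
  linarith

lemma mean_dl (hRH : RiemannHypothesis) (η : ℝ) (hη : 0 < η) : ∀ᶠ N : ℕ in atTop,
    |∑ n ∈ Finset.Icc 1 N, dl n - N| ≤ η * N := by
  obtain ⟨n0, hn0⟩ := eventually_atTop.1 (ratio hRH)
  set K : ℝ := ∑ n ∈ Finset.range n0, (|dlt n - dl n| + |ord (n + 1) - ord n|) with hK
  have ev : ∀ᶠ N : ℕ in atTop, K / (η / 3) ≤ (N : ℝ) :=
    tendsto_natCast_atTop_atTop.eventually_ge_atTop _
  filter_upwards [mean_dlt (η / 3) (by positivity), ord_small (η / 3) (by positivity), ev]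
    with N h1 h2 h3
  rw [div_le_iff₀ (by positivity)] at h3
  have hterm : ∀ n ∈ Finset.Icc 1 N, |dlt n - dl n| ≤ (ord (n + 1) - ord n) +
      (if n ∈ Finset.range n0 then |dlt n - dl n| + |ord (n + 1) - ord n| else 0) := by
    intro n hn
    rw [Finset.mem_Icc] at hn
    split_ifs with h
    · have := neg_abs_le (ord (n + 1) - ord n)
      linarith
    · rw [Finset.mem_range, not_lt] at h
      obtain ⟨a1, a2⟩ := dl_dlt hn.1 (hn0 n h)
      rw [abs_of_nonneg a1]
      linarith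
  have h4 : |∑ n ∈ Finset.Icc 1 N, (dlt n - dl n)| ≤ ord (N + 1) + K := by
    refine (Finset.abs_sum_le_sum_abs _ _).trans ((Finset.sum_le_sum hterm).trans ?_)
    rw [Finset.sum_add_distrib, sum_step]
    have h5 : ∑ n ∈ Finset.Icc 1 N, (if n ∈ Finset.range n0 then
        |dlt n - dl n| + |ord (n + 1) - ord n| else 0) ≤ K := by
      rw [← Finset.sum_filter]
      apply Finset.sum_le_sum_of_subset_of_nonneg
      · intro n hn
        exact (Finset.mem_filter.1 hn).2
      · intro n _ _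
        positivity
    have h6 := SG.ord_pos (le_refl 1)
    linarith
  rw [Finset.sum_sub_distrib] at h4
  rw [abs_le] at h1 h4 ⊢
  constructor <;> linarith [h1.1, h1.2, h4.1, h4.2]

/-- mean squares of the gaps -/
lemma sq_dl (hRH : RiemannHypothesis) : ∃ C : ℝ, 0 < C ∧ ∀ N : ℕ,
    ∑ n ∈ Finset.Icc 1 N, dl n ^ 2 ≤ C * N := by
  have hpi := Real.pi_pos
  obtain ⟨C, hC, hc⟩ := cube_sum (H177.Lat.rhs_of hRH)
  obtain ⟨n0, hn0⟩ := eventually_atTop.1 ((ratio hRH).and
    (SG.ord_tendsto.eventually_ge_atTop (2 * Real.pi)))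
  set K : ℝ := ∑ n ∈ Finset.range n0, dl n ^ 2 with hK
  have hK0 : 0 ≤ K := Finset.sum_nonneg fun _ _ => sq_nonneg _
  refine ⟨K + 1 + C, by positivity, fun N => ?_⟩
  rcases Nat.eq_zero_or_pos N with rfl | hN
  · simp
  have hN1 : (1 : ℝ) ≤ N := by exact_mod_cast hN
  have hterm : ∀ n ∈ Finset.Icc 1 N, dl n ^ 2 ≤ (1 + (max (dlt n) 0) ^ 3) +
      (if n ∈ Finset.range n0 then dl n ^ 2 else 0) := by
    intro n hn
    rw [Finset.mem_Icc] at hn
    have hp : 0 ≤ (max (dlt n) 0) ^ 3 := by positivity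
    split_ifs with h
    · linarith
    · rw [Finset.mem_range, not_lt] at h
      obtain ⟨b1, b2⟩ := hn0 n h
      obtain ⟨a1, a2⟩ := dl_dlt hn.1 b1
      have h0 : 0 ≤ dl n := by
        unfold Pool.Agent.Y743.LR.dl
        apply div_nonneg _ (by positivity)
        apply mul_nonneg
        · exact sub_nonneg.2 (SG.ord_mono hn.1 (Nat.le_succ n))
        · apply Real.log_nonneg
          rw [le_div_iff₀ (by positivity)]
          linarith
      have h1 : dl n ≤ max (dlt n) 0 := le_trans (by linarith) (le_max_left _ _)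
      have h2 : 0 ≤ max (dlt n) 0 := le_max_right _ _
      set z := max (dlt n) 0
      have h3 : dl n ^ 2 ≤ z ^ 2 := pow_le_pow_left₀ h0 h1 2
      have h4 : z ^ 2 ≤ 1 + z ^ 3 := by
        rcases le_total z 1 with h | h
        · nlinarith [pow_nonneg h2 3]
        · nlinarith [mul_nonneg (pow_nonneg h2 2) (sub_nonneg.2 h)]
      linarith
  refine (Finset.sum_le_sum hterm).trans ?_
  rw [Finset.sum_add_distrib, Finset.sum_add_distrib]
  have h5 : ∑ n ∈ Finset.Icc 1 N, (if n ∈ Finset.range n0 then dl n ^ 2 else 0) ≤ K := by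
    rw [← Finset.sum_filter]
    apply Finset.sum_le_sum_of_subset_of_nonneg
    · intro n hn
      exact (Finset.mem_filter.1 hn).2
    · intro n _ _
      positivity
  have h6 := hc N
  have h7 : ∑ n ∈ Finset.Icc 1 N, (1 : ℝ) = N := by simp
  rw [h7]
  nlinarith

/-- the sum of the deviations -/
noncomputable def SD (N : ℕ) : ℝ := ∑ n ∈ Finset.Icc 1 N, (dl n - 1)

lemma SD_eq (N : ℕ) : SD N = ∑ n ∈ Finset.Icc 1 N, dl n - N := by
  unfold SD
  rw [Finset.sum_sub_distrib]
  simp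

lemma shift_sum (f : ℕ → ℝ) (N j : ℕ) : ∑ n ∈ Finset.Icc 1 N, f (n + j) =
    ∑ n ∈ Finset.Icc 1 (N + j), f n - ∑ n ∈ Finset.Icc 1 j, f n := by
  induction N with
  | zero => simp
  | succ N ih =>
    rw [Finset.sum_Icc_succ_top (by omega), ih, show N + 1 + j = (N + j) + 1 by ring,
      Finset.sum_Icc_succ_top (by omega : 1 ≤ N + j + 1)]
    ring

/-- **linear forms of the gaps deviate from their mean on both sides** -/
theorem osc_upper (hRH : RiemannHypothesis) (k : ℕ) : ∃ ε : ℝ, 0 < ε ∧ ∀ᶠ N : ℕ in atTop,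
    ∀ a : Fin k → ℝ, (∃ j, 1 ≤ |a j|) →
      ε * N ≤ ({n : ℕ | 1 ≤ n ∧ n ≤ N ∧ ε ≤ ∑ j, a j * (dl (n + j) - 1)}.ncard : ℝ) := by
  classical
  obtain ⟨ε0, hε0, hgap⟩ := Pool.Agent.Y743.LR.gaps hRH k
  obtain ⟨C, hC, hsq⟩ := sq_dl hRH
  set Ck : ℝ := 2 * k * k * (2 * C + 1) + 1 with hCk
  have hk0 : (0 : ℝ) ≤ k := Nat.cast_nonneg k
  have hCk0 : 0 < Ck := by positivity
  set ε1 : ℝ := ε0 ^ 2 / 16 with hε1
  set K : ℝ := 16 * Ck / ε0 ^ 2 with hK
  have hK0 : 0 < K := by positivity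
  have hε10 : 0 < ε1 := by positivity
  set ε : ℝ := min ε1 (ε1 / K) with hε
  have hεp : 0 < ε := lt_min hε10 (by positivity)
  set η : ℝ := ε0 ^ 2 / (6 * (k + 1)) with hη
  have hη0 : 0 < η := by positivity
  -- constants for the shifts
  set B : ℝ := ∑ j ∈ Finset.range k, |SD j| with hB
  have ev1 : ∀ᶠ N : ℕ in atTop, B / η ≤ (N : ℝ) :=
    tendsto_natCast_atTop_atTop.eventually_ge_atTop _
  obtain ⟨N1, hN1⟩ := eventually_atTop.1 (mean_dl hRH η hη0)
  refine ⟨ε, hεp, ?_⟩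
  filter_upwards [hgap, ev1, eventually_ge_atTop (max N1 (max k 1))] with N hN h2 h3 a ha
  have hNk : k ≤ N := ((le_max_left _ _).trans (le_max_right _ _)).trans h3
  have hNN1 : N1 ≤ N := (le_max_left _ _).trans h3
  have hN1' : 1 ≤ N := ((le_max_right _ _).trans (le_max_right _ _)).trans h3
  have hNr : (0 : ℝ) < N := by exact_mod_cast hN1'
  rw [div_le_iff₀ hη0] at h2
  -- normalisation
  obtain ⟨j0, hj0⟩ := ha
  obtain ⟨M, hM1, hMa, hMj⟩ : ∃ M : ℝ, 1 ≤ M ∧ (∀ j, |a j| ≤ M) ∧ ∃ j, |a j| = M := by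
    obtain ⟨j1, -, h⟩ := Finset.exists_max_image Finset.univ (fun j => |a j|) ⟨j0, Finset.mem_univ _⟩
    exact ⟨|a j1|, hj0.trans (h j0 (Finset.mem_univ _)), fun j => h j (Finset.mem_univ _), j1, rfl⟩
  have hMp : 0 < M := by linarith
  set c : Fin k → ℝ := fun j => a j / M with hc
  have hc1 : ∀ j, |c j| ≤ 1 := fun j => by
    simp only [hc]
    rw [abs_div, abs_of_pos hMp, div_le_one hMp]
    exact hMa j
  have hcj : ∃ j, 1 ≤ |c j| := by
    obtain ⟨j, hj⟩ := hMj
    refine ⟨j, ?_⟩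
    simp only [hc]
    rw [abs_div, abs_of_pos hMp, hj, div_self hMp.ne']
  set X : ℕ → ℝ := fun n => ∑ j, c j * (dl (n + j) - 1) with hX
  have hXa : ∀ n, ∑ j, a j * (dl (n + j) - 1) = M * X n := by
    intro n
    simp only [hX, hc]
    rw [Finset.mul_sum]
    refine Finset.sum_congr rfl fun j _ => ?_
    field_simp
  have hXb : ∀ n, X n = ∑ j, c j * dl (n + j) - ∑ j, c j := by
    intro n
    simp only [hX]
    rw [← Finset.sum_sub_distrib]
    refine Finset.sum_congr rfl fun j _ => ?_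
    ring
  -- the sum of the absolute values
  have g1 : ε0 * N ≤ (((Finset.Icc 1 N).filter (fun n => ε0 ≤ |X n|)).card : ℝ) := by
    have h4 := hN c hcj (∑ j, c j)
    refine h4.trans (le_of_eq ?_)
    rw [← Set.ncard_coe_finset]
    congr 2
    ext n
    simp only [Set.mem_setOf_eq, Finset.coe_filter, Finset.mem_Icc, and_assoc, hXb]
  have g2 : ε0 ^ 2 * N ≤ ∑ n ∈ Finset.Icc 1 N, |X n| := by
    calc ε0 ^ 2 * N = ε0 * (ε0 * N) := by ring
      _ ≤ ε0 * (((Finset.Icc 1 N).filter (fun n => ε0 ≤ |X n|)).card : ℝ) := by gcongr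
      _ = ∑ n ∈ (Finset.Icc 1 N).filter (fun n => ε0 ≤ |X n|), ε0 := by
        rw [Finset.sum_const, nsmul_eq_mul]; ring
      _ ≤ ∑ n ∈ (Finset.Icc 1 N).filter (fun n => ε0 ≤ |X n|), |X n| :=
        Finset.sum_le_sum fun n hn => (Finset.mem_filter.1 hn).2
      _ ≤ _ := Finset.sum_le_sum_of_subset_of_nonneg (Finset.filter_subset _ _)
        fun _ _ _ => abs_nonneg _
  -- the sum
  have g3 : |∑ n ∈ Finset.Icc 1 N, X n| ≤ 3 * k * η * N := by
    have e1 : ∑ n ∈ Finset.Icc 1 N, X n = ∑ j : Fin k, c j * (SD (N + j) - SD j) := by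
      simp only [hX]
      rw [Finset.sum_comm]
      refine Finset.sum_congr rfl fun j _ => ?_
      rw [← Finset.mul_sum]
      congr 1
      exact shift_sum (fun n => dl n - 1) N j
    rw [e1]
    refine (Finset.abs_sum_le_sum_abs _ _).trans ?_
    have e2 : ∀ j : Fin k, |c j * (SD (N + j) - SD j)| ≤ 3 * η * N := by
      intro j
      have hj : (j : ℕ) < k := j.2
      rw [abs_mul]
      have e3 : |SD (N + j)| ≤ 2 * η * N := by
        rw [SD_eq]
        have := hN1 (N + j) (by omega)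
        refine this.trans ?_
        have : (((N + (j : ℕ) : ℕ) : ℝ)) ≤ 2 * N := by
          exact_mod_cast (by omega : N + (j : ℕ) ≤ 2 * N)
        nlinarith
      have e4 : |SD j| ≤ η * N := by
        have : |SD j| ≤ B := Finset.single_le_sum (f := fun j => |SD j|)
          (fun _ _ => abs_nonneg _) (Finset.mem_range.2 hj)
        linarith
      calc |c j| * |SD (N + j) - SD j| ≤ 1 * |SD (N + j) - SD j| := by
            gcongr
            exact hc1 j
        _ ≤ |SD (N + j)| + |SD j| := by rw [one_mul]; exact abs_sub _ _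
        _ ≤ 3 * η * N := by linarith
    refine (Finset.sum_le_sum fun j _ => e2 j).trans (le_of_eq ?_)
    rw [Finset.sum_const, Finset.card_univ, Fintype.card_fin, nsmul_eq_mul]
    ring
  have g4 : 3 * k * η ≤ ε0 ^ 2 / 2 := by
    rw [hη]
    rw [show 3 * (k : ℝ) * (ε0 ^ 2 / (6 * (k + 1))) = ε0 ^ 2 / 2 * (k / (k + 1)) by
      field_simp; ring]
    have : (k : ℝ) / (k + 1) ≤ 1 := by rw [div_le_one (by positivity)]; linarith
    nlinarith [sq_nonneg ε0]
  -- the sum of the squares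
  have g5 : ∑ n ∈ Finset.Icc 1 N, X n ^ 2 ≤ Ck * N := by
    have e1 : ∀ n, X n ^ 2 ≤ 2 * k * ∑ j : Fin k, (dl (n + j) ^ 2 + 1) := by
      intro n
      have h7 : X n ^ 2 ≤ (k : ℝ) * ∑ j : Fin k, (c j * (dl (n + j) - 1)) ^ 2 := by
        have := sq_sum_le_card_mul_sum_sq (s := (Finset.univ : Finset (Fin k)))
          (f := fun j => c j * (dl (n + j) - 1))
        rw [Finset.card_univ, Fintype.card_fin] at this
        exact this
      refine h7.trans ?_
      rw [show 2 * (k : ℝ) * ∑ j : Fin k, (dl (n + j) ^ 2 + 1) =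
        k * ∑ j : Fin k, 2 * (dl (n + j) ^ 2 + 1) by rw [← Finset.mul_sum]; ring]
      apply mul_le_mul_of_nonneg_left _ hk0
      refine Finset.sum_le_sum fun j _ => ?_
      rw [mul_pow]
      have h8 : c j ^ 2 ≤ 1 := by
        rw [← sq_abs]
        exact pow_le_one₀ (abs_nonneg _) (hc1 j)
      calc c j ^ 2 * (dl (n + j) - 1) ^ 2 ≤ 1 * (dl (n + j) - 1) ^ 2 := by gcongr
        _ ≤ 2 * (dl (n + j) ^ 2 + 1) := by nlinarith [sq_nonneg (dl (n + j) + 1)]
    refine (Finset.sum_le_sum fun n _ => e1 n).trans ?_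
    rw [← Finset.mul_sum, Finset.sum_comm]
    have e2 : ∀ j : Fin k, ∑ n ∈ Finset.Icc 1 N, (dl (n + j) ^ 2 + 1) ≤ (2 * C + 1) * N := by
      intro j
      have hj : (j : ℕ) < k := j.2
      rw [Finset.sum_add_distrib, shift_sum (fun n => dl n ^ 2) N j]
      have h6 := hsq (N + j)
      have h7 : 0 ≤ ∑ n ∈ Finset.Icc 1 (j : ℕ), dl n ^ 2 := Finset.sum_nonneg fun _ _ => sq_nonneg _
      have h8 : (((N + (j : ℕ) : ℕ) : ℝ)) ≤ 2 * N := by
        exact_mod_cast (by omega : N + (j : ℕ) ≤ 2 * N)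
      have h9 : ∑ n ∈ Finset.Icc 1 N, (1 : ℝ) = N := by simp
      rw [h9]
      nlinarith
    calc 2 * (k : ℝ) * ∑ j : Fin k, ∑ n ∈ Finset.Icc 1 N, (dl (n + j) ^ 2 + 1) ≤
        2 * k * ∑ _j : Fin k, (2 * C + 1) * N := by
          apply mul_le_mul_of_nonneg_left (Finset.sum_le_sum fun j _ => e2 j) (by positivity)
      _ = 2 * k * k * (2 * C + 1) * N := by
          rw [Finset.sum_const, Finset.card_univ, Fintype.card_fin, nsmul_eq_mul]
          ring
      _ ≤ Ck * N := by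
          apply mul_le_mul_of_nonneg_right _ hNr.le
          rw [hCk]; linarith
  -- pointwise
  set A : Finset ℕ := (Finset.Icc 1 N).filter (fun n => ε1 ≤ X n) with hA
  have g6 : ∀ n ∈ Finset.Icc 1 N, |X n| + X n ≤ 2 * ε1 + 2 * K * (if n ∈ A then 1 else 0) +
      2 * (X n ^ 2 / K) := by
    intro n hn
    have h6 : 0 ≤ X n ^ 2 / K := by positivity
    rcases le_total (X n) 0 with h | h
    · rw [abs_of_nonpos h]
      have : 0 ≤ 2 * K * (if n ∈ A then (1 : ℝ) else 0) := by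
        split_ifs <;> positivity
      linarith
    · rw [abs_of_nonneg h]
      by_cases h7 : ε1 ≤ X n
      · have h8 : n ∈ A := Finset.mem_filter.2 ⟨hn, h7⟩
        rw [if_pos h8]
        have h9 : X n ≤ K + X n ^ 2 / K := by
          rcases le_total (X n) K with h10 | h10
          · linarith
          · have : X n ≤ X n ^ 2 / K := by
              rw [le_div_iff₀ hK0]
              nlinarith
            linarith
        linarith
      · push Not at h7
        have : 0 ≤ 2 * K * (if n ∈ A then (1 : ℝ) else 0) := by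
          split_ifs <;> positivity
        linarith
  have g7 := Finset.sum_le_sum g6
  rw [Finset.sum_add_distrib, Finset.sum_add_distrib, Finset.sum_add_distrib] at g7
  have g8 : ∑ n ∈ Finset.Icc 1 N, 2 * ε1 = 2 * ε1 * N := by simp; ring
  have g9 : ∑ n ∈ Finset.Icc 1 N, 2 * K * (if n ∈ A then (1 : ℝ) else 0) = 2 * K * A.card := by
    rw [← Finset.mul_sum, ← Finset.sum_filter, Finset.sum_const, nsmul_eq_mul, mul_one]
    congr 3
    ext n
    simp only [hA, Finset.mem_filter]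
    tauto
  have g10 : ∑ n ∈ Finset.Icc 1 N, 2 * (X n ^ 2 / K) ≤ 2 * (Ck / K) * N := by
    rw [← Finset.mul_sum, ← Finset.sum_div]
    have : (∑ n ∈ Finset.Icc 1 N, X n ^ 2) / K ≤ Ck * N / K := by gcongr
    calc 2 * ((∑ n ∈ Finset.Icc 1 N, X n ^ 2) / K) ≤ 2 * (Ck * N / K) := by linarith
      _ = _ := by ring
  have g11 : Ck / K = ε1 := by
    rw [hK, hε1]
    field_simp
  rw [g11] at g10
  rw [g8, g9] at g7
  have g12 := (abs_le.1 g3).1
  have g13 : 3 * k * η * N ≤ ε0 ^ 2 / 2 * N := mul_le_mul_of_nonneg_right g4 hNr.le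
  have g14 : ε0 ^ 2 = 16 * ε1 := by rw [hε1]; ring
  have g15 : 2 * ε1 * N ≤ K * A.card := by
    rw [g14] at g13 g2
    linarith
  have g16 : ε1 / K * N ≤ (A.card : ℝ) := by
    rw [div_mul_eq_mul_div, div_le_iff₀ hK0]
    have : 0 ≤ ε1 * N := by positivity
    linarith
  have g17 : (A.card : ℝ) ≤
      ({n : ℕ | 1 ≤ n ∧ n ≤ N ∧ ε ≤ ∑ j, a j * (dl (n + j) - 1)}.ncard : ℝ) := by
    rw [← Set.ncard_coe_finset]
    have hfin : {n : ℕ | 1 ≤ n ∧ n ≤ N ∧ ε ≤ ∑ j, a j * (dl (n + j) - 1)}.Finite :=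
      (Set.finite_Iic N).subset fun n hn => hn.2.1
    have hsub : (A : Set ℕ) ⊆ {n : ℕ | 1 ≤ n ∧ n ≤ N ∧ ε ≤ ∑ j, a j * (dl (n + j) - 1)} := by
      intro n hn
      rw [Finset.mem_coe, hA, Finset.mem_filter, Finset.mem_Icc] at hn
      refine ⟨hn.1.1, hn.1.2, ?_⟩
      rw [hXa]
      have h6 : ε ≤ X n := (min_le_left _ _).trans hn.2
      nlinarith
    exact_mod_cast Set.ncard_le_ncard hsub hfin
  calc ε * N ≤ ε1 / K * N := mul_le_mul_of_nonneg_right (min_le_right _ _) hNr.le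
    _ ≤ _ := g16.trans g17

theorem osc (hRH : RiemannHypothesis) (k : ℕ) : ∃ ε : ℝ, 0 < ε ∧ ∀ᶠ N : ℕ in atTop,
    ∀ a : Fin k → ℝ, (∃ j, 1 ≤ |a j|) →
      ε * N ≤ ({n : ℕ | 1 ≤ n ∧ n ≤ N ∧ ε ≤ ∑ j, a j * (dl (n + j) - 1)}.ncard : ℝ) ∧
      ε * N ≤ ({n : ℕ | 1 ≤ n ∧ n ≤ N ∧ ∑ j, a j * (dl (n + j) - 1) ≤ -ε}.ncard : ℝ) := by
  obtain ⟨ε, hε, h⟩ := osc_upper hRH k
  refine ⟨ε, hε, ?_⟩
  filter_upwards [h] with N hN a ha
  refine ⟨hN a ha, ?_⟩
  have h1 := hN (fun j => -a j) (by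
    obtain ⟨j, hj⟩ := ha
    exact ⟨j, by rwa [abs_neg]⟩)
  refine h1.trans (le_of_eq ?_)
  congr 2
  ext n
  simp only [Set.mem_setOf_eq]
  have e : ∑ j, -a j * (dl (n + j) - 1) = -∑ j, a j * (dl (n + j) - 1) := by
    rw [← Finset.sum_neg_distrib]
    refine Finset.sum_congr rfl fun j _ => ?_
    ring
  rw [e]
  constructor
  · rintro ⟨h1, h2, h3⟩
    exact ⟨h1, h2, by linarith⟩
  · rintro ⟨h1, h2, h3⟩
    exact ⟨h1, h2, by linarith⟩

end Pool.Agent.X113.Osc
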