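import Pool.Agent.TH850.UV.NVh
import Pool.Agent.X113.PairGen

set_option autoImplicit false

/-! # Pairs of zeros in a dyadic block -/

namespace Pool.Agent.X113.PC

open Filter Topology MeasureTheory Set
open H370 (Zf mult mem_Zf good_zeta NN NN_eq zset)
open Pool.Agent.TH850.UV (NS mS mS_nonneg cnt cnt_eq cnt_crude nv2)
open Pool.Agent.X113.PG

/-- the zeros with ordinate in `(U/2, 3U]` -/
noncomputable def SU (U : ℝ) : Finset ℂ := Zf riemannZeta (U / 2) (3 * U)

/-- the number of zeros with ordinate in `(t, t + h]` -/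
noncomputable def cc (U h t : ℝ) : ℝ := cn (SU U) mS Complex.im h t

/-- bounded measurable functions -/
def BM (f : ℝ → ℝ) : Prop := Measurable f ∧ ∃ M : ℝ, ∀ t, |f t| ≤ M

lemma BM.ii {f : ℝ → ℝ} (hf : BM f) (A B : ℝ) : IntervalIntegrable f volume A B := by
  obtain ⟨h1, M, h2⟩ := hf
  exact bdd_ii h1 h2 A B

lemma BM.mul {f g : ℝ → ℝ} (hf : BM f) (hg : BM g) : BM fun t => f t * g t := by
  obtain ⟨h1, M, h2⟩ := hf
  obtain ⟨h3, M', h4⟩ := hg
  refine ⟨h1.mul h3, M * M', fun t => ?_⟩
  rw [abs_mul]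
  exact mul_le_mul (h2 t) (h4 t) (abs_nonneg _) ((abs_nonneg _).trans (h2 t))

lemma BM.add {f g : ℝ → ℝ} (hf : BM f) (hg : BM g) : BM fun t => f t + g t := by
  obtain ⟨h1, M, h2⟩ := hf
  obtain ⟨h3, M', h4⟩ := hg
  exact ⟨h1.add h3, M + M', fun t => (abs_add_le _ _).trans (add_le_add (h2 t) (h4 t))⟩

lemma BM.sub {f g : ℝ → ℝ} (hf : BM f) (hg : BM g) : BM fun t => f t - g t := by
  obtain ⟨h1, M, h2⟩ := hf
  obtain ⟨h3, M', h4⟩ := hg
  exact ⟨h1.sub h3, M + M', fun t => (abs_sub _ _).trans (add_le_add (h2 t) (h4 t))⟩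

lemma BM.const (c : ℝ) : BM fun _ => c := ⟨measurable_const, |c|, fun _ => le_rfl⟩

lemma BM.shift {f : ℝ → ℝ} (hf : BM f) (h : ℝ) : BM fun t => f (t + h) := by
  obtain ⟨h1, M, h2⟩ := hf
  exact ⟨h1.comp (measurable_id.add_const h), M, fun t => h2 _⟩

lemma BM.sq {f : ℝ → ℝ} (hf : BM f) : BM fun t => f t ^ 2 := by
  have := hf.mul hf
  simpa only [pow_two] using this

lemma BM.cc (U h : ℝ) : BM (cc U h) := by
  refine ⟨cn_meas h, ∑ s ∈ SU U, mS s, fun t => ?_⟩
  show |cn (SU U) mS Complex.im h t| ≤ _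
  rw [abs_of_nonneg (cn_nonneg mS_nonneg h t)]
  exact cn_le mS_nonneg h t

lemma cc_nonneg (U h t : ℝ) : 0 ≤ cc U h t := cn_nonneg mS_nonneg h t

lemma cc_NS (U h t : ℝ) : cc U h t = NS (Zf riemannZeta (U / 2) (3 * U)) h t := rfl

lemma cc_cnt {U h t : ℝ} (hU : 2 ≤ U) (h1 : U / 2 ≤ t) (h2 : t + h ≤ 3 * U) :
    (cnt t h : ℝ) = cc U h t := by
  rw [cc_NS]
  exact cnt_eq (by linarith) h1 h2

lemma facts (B' : ℝ) (hB' : 1 ≤ B') : ∃ C U0 : ℝ, 1 ≤ C ∧ 100 ≤ U0 ∧ ∀ U : ℝ, U0 ≤ U →
    10 ≤ Real.log U ∧ Real.log U ≤ U ∧ 100 * (C * Real.log U + 1) ^ 2 ≤ U ∧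
    (∀ t k : ℝ, U - 8 ≤ t → t ≤ 2 * U + 8 → 0 ≤ k → k ≤ 8 → cc U k t ≤ C * Real.log U) ∧
    |cc U U U - U * Real.log U / (2 * Real.pi)| ≤ C * U ∧
    (∀ a : ℝ, 0 < a → a * Real.log a ≤ B' * Real.log U → 2 * Real.pi * a / Real.log U ≤ 8 →
      |(∫ t in U..(2 * U), (cc U (2 * Real.pi * a / Real.log U) t - a) ^ 2) -
        U / Real.pi ^ 2 * Real.log (1 + a)| ≤ C * U) := by
  obtain ⟨C1, T1, hC1, hT1, hnv⟩ := nv2 B' hB'
  obtain ⟨C0, hC0, hcr⟩ := cnt_crude
  obtain ⟨C2, T2, hC2, hT2, hnn⟩ := H370.nn_asymp good_zeta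
  obtain ⟨C, hC⟩ : ∃ C, C = C0 + C1 + C2 + 1 := ⟨_, rfl⟩
  have hCp : 1 ≤ C := by linarith
  have hev2 : ∀ᶠ U : ℝ in atTop, 10 ≤ Real.log U := Real.tendsto_log_atTop.eventually_ge_atTop 10
  have hev1 : ∀ᶠ U : ℝ in atTop, 100 * (C * Real.log U + 1) ^ 2 ≤ U := by
    have h1 := (Real.isLittleO_pow_log_id_atTop (n := 2)).bound
      (c := 1 / (100 * (C + 1) ^ 2)) (by positivity)
    filter_upwards [h1, hev2, eventually_ge_atTop 1] with U g1 g2 g3
    rw [Real.norm_of_nonneg (by positivity), id, Real.norm_of_nonneg (by linarith),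
      div_mul_eq_mul_div, one_mul, le_div_iff₀ (by positivity)] at g1
    have g4 : C * Real.log U + 1 ≤ (C + 1) * Real.log U := by linarith
    have g5 : (C * Real.log U + 1) ^ 2 ≤ ((C + 1) * Real.log U) ^ 2 :=
      pow_le_pow_left₀ (by positivity) g4 2
    rw [mul_pow] at g5
    linarith
  obtain ⟨T3, hT3⟩ := (hev1.and hev2).exists_forall_of_atTop
  refine ⟨C, max (max T1 T2) (max T3 100), hCp, (le_max_right _ _).trans (le_max_right _ _),
    fun U hU => ?_⟩
  have g1 : T1 ≤ U := ((le_max_left _ _).trans (le_max_left _ _)).trans hU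
  have g2 : T2 ≤ U := ((le_max_right _ _).trans (le_max_left _ _)).trans hU
  have g3 : T3 ≤ U := ((le_max_left _ _).trans (le_max_right _ _)).trans hU
  have g4 : 100 ≤ U := ((le_max_right _ _).trans (le_max_right _ _)).trans hU
  obtain ⟨g5, g6⟩ := hT3 U g3
  have hU0 : 0 < U := by linarith
  have hL0 : 0 < Real.log U := by linarith
  refine ⟨g6, ?_, g5, ?_, ?_, ?_⟩
  · have := Real.log_le_sub_one_of_pos hU0
    linarith
  · intro t k h1 h2 h3 h4
    rw [← cc_cnt (by linarith) (by linarith) (by linarith)]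
    refine (hcr U (by linarith) t k (by linarith) (by linarith) h3 h4).trans ?_
    exact mul_le_mul_of_nonneg_right (by linarith) hL0.le
  · have h1 := hnn U g2 U (2 * U) le_rfl (by linarith) (by linarith) le_rfl
    have h2 : cc U U U = (NN riemannZeta U (2 * U) : ℝ) := by
      rw [← cc_cnt (by linarith) (by linarith) (by linarith),
        cnt_eq (A := U) (B := 2 * U) (by linarith) le_rfl (by linarith),
        NN_eq good_zeta (by linarith)]
      push_cast
      unfold Pool.Agent.TH850.UV.NS Pool.Agent.TH850.UV.mS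
      refine Finset.sum_congr rfl fun s hs => ?_
      rw [mem_Zf good_zeta (by linarith)] at hs
      rw [if_pos ⟨hs.2.2.1, by linarith [hs.2.2.2.1]⟩, mul_one]
    rw [h2]
    refine h1.trans (mul_le_mul_of_nonneg_right (by linarith) hU0.le)
  · intro a ha haL ha8
    obtain ⟨-, h2⟩ := hnv U g1 a ha haL
    have h3 : ∫ t in U..(2 * U), (cc U (2 * Real.pi * a / Real.log U) t - a) ^ 2 =
        ∫ t in U..(2 * U), ((cnt t (2 * Real.pi * a / Real.log U) : ℝ) - a) ^ 2 := by
      refine intervalIntegral.integral_congr fun t ht => ?_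
      rw [uIcc_of_le (by linarith)] at ht
      show (cc U (2 * Real.pi * a / Real.log U) t - a) ^ 2 =
        ((cnt t (2 * Real.pi * a / Real.log U) : ℝ) - a) ^ 2
      rw [cc_cnt (U := U) (by linarith) (by linarith [ht.1]) (by linarith [ht.2])]
    rw [h3]
    exact h2.trans (mul_le_mul_of_nonneg_right (by linarith) hU0.le)

section Blk

variable {B' C U : ℝ} (hB' : 1 ≤ B') (hC : 1 ≤ C) (hU : 100 ≤ U) (f1 : 10 ≤ Real.log U)
  (f2 : Real.log U ≤ U) (f3 : 100 * (C * Real.log U + 1) ^ 2 ≤ U)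
  (f4 : ∀ t k : ℝ, U - 8 ≤ t → t ≤ 2 * U + 8 → 0 ≤ k → k ≤ 8 → cc U k t ≤ C * Real.log U)
  (f5 : |cc U U U - U * Real.log U / (2 * Real.pi)| ≤ C * U)
  (f6 : ∀ a : ℝ, 0 < a → a * Real.log a ≤ B' * Real.log U →
    2 * Real.pi * a / Real.log U ≤ 8 →
    |(∫ t in U..(2 * U), (cc U (2 * Real.pi * a / Real.log U) t - a) ^ 2) -
      U / Real.pi ^ 2 * Real.log (1 + a)| ≤ C * U)

include hC hU f1 f2 f4 f5 in
/-- the first moment of the count with a shift -/
lemma first_moment {h k : ℝ} (hh : 0 ≤ h) (hk : 0 ≤ k) (hhk : h + k ≤ 8) :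
    |(∫ t in U..(2 * U), cc U k (t + h)) - k * (U * Real.log U / (2 * Real.pi))| ≤
      k * (2 * C * U) := by
  rw [intervalIntegral.integral_comp_add_right (cc U k) h]
  have h1 := cn_int_up (S := SU U) (m := mS) (x := Complex.im) mS_nonneg (A := U + h)
    (B := 2 * U + h) (h := k) (by linarith) hk
  have h2 := cn_int_lo (S := SU U) (m := mS) (x := Complex.im) mS_nonneg (A := U + h)
    (B := 2 * U + h) (h := k) (by linarith) hk
  have e1 : cn (SU U) mS Complex.im (2 * U + h + k - (U + h)) (U + h) ≤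
      cc U U U + cc U (h + k) (2 * U) := by
    have e2 : cn (SU U) mS Complex.im (U + (h + k)) U = cc U U U + cc U (h + k) (2 * U) := by
      rw [cn_add (by linarith) (by linarith)]
      unfold cc
      congr 2
      ring
    rw [← e2]
    exact cn_mono mS_nonneg (by linarith) (by linarith)
  have e3 : cc U U U ≤ cc U (h + k) U +
      cn (SU U) mS Complex.im (2 * U + h - (U + h) - k) (U + h + k) := by
    have e4 : cn (SU U) mS Complex.im ((h + k) + (U - k)) U =
        cc U (h + k) U + cn (SU U) mS Complex.im (U - k) (U + (h + k)) := by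
      rw [cn_add (by linarith) (by linarith)]
      rfl
    have e5 : cn (SU U) mS Complex.im (2 * U + h - (U + h) - k) (U + h + k) =
        cn (SU U) mS Complex.im (U - k) (U + (h + k)) := by
      congr 1 <;> ring
    rw [e5, ← e4]
    exact cn_mono mS_nonneg (by linarith) (by linarith)
  have e6 := f4 (2 * U) (h + k) (by linarith) (by linarith) (by linarith) hhk
  have e7 := f4 U (h + k) (by linarith) (by linarith) (by linarith) hhk
  have e8 : C * Real.log U ≤ C * U := mul_le_mul_of_nonneg_left f2 (by linarith)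
  have e9 := abs_le.1 f5
  change ∫ t in (U + h)..(2 * U + h), cc U k t ≤ k * _ at h1
  change k * _ ≤ ∫ t in (U + h)..(2 * U + h), cc U k t at h2
  set X := U * Real.log U / (2 * Real.pi) with hX
  have g1 : k * cn (SU U) mS Complex.im (2 * U + h + k - (U + h)) (U + h) ≤
      k * (X + 2 * C * U) := mul_le_mul_of_nonneg_left (by linarith) hk
  have g2 : k * (X - 2 * C * U) ≤
      k * cn (SU U) mS Complex.im (2 * U + h - (U + h) - k) (U + h + k) :=
    mul_le_mul_of_nonneg_left (by linarith) hk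
  rw [abs_le]
  constructor
  · linarith
  · linarith

include hB' hC hU f1 f2 f3 f4 f5 f6 in
/-- the product moment -/
lemma Qest {h : ℝ} (h0 : 0 < h) (h7 : h ≤ 7)
    (c1 : h * Real.log U / (2 * Real.pi) * Real.log (h * Real.log U / (2 * Real.pi)) ≤
      B' * Real.log U)
    (c2 : (h * Real.log U / (2 * Real.pi) + 1) *
      Real.log (h * Real.log U / (2 * Real.pi) + 1) ≤ B' * Real.log U) :
    |(∫ t in U..(2 * U), cc U (2 * Real.pi / Real.log U) (t + h) * cc U h t) -
      h * Real.log U / (2 * Real.pi) * U| ≤ 32 * C * U := by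
  have hpi := Real.pi_pos
  have hpi3 := Real.pi_gt_three
  have hpi4 := Real.pi_lt_d2
  have hU0 : 0 < U := by linarith
  set L := Real.log U with hL
  have hL0 : 0 < L := by linarith
  set a := h * L / (2 * Real.pi) with ha
  set δ := 2 * Real.pi / L with hδ
  have ha0 : 0 < a := by positivity
  have hδ0 : 0 < δ := by positivity
  have hδ1 : δ ≤ 1 := by
    rw [hδ, div_le_one hL0]; linarith
  have haδ : a * δ = h := by rw [ha, hδ]; field_simp
  have eh : 2 * Real.pi * a / L = h := by rw [ha]; field_simp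
  have ehδ : 2 * Real.pi * (a + 1) / L = h + δ := by
    rw [hδ, mul_add, add_div, eh, mul_one]
  have eδ : 2 * Real.pi * 1 / L = δ := by rw [mul_one]
  have q1 := f6 a ha0 c1 (by rw [eh]; linarith)
  have q2 := f6 (a + 1) (by linarith) c2 (by rw [ehδ]; linarith)
  have q3 := f6 1 one_pos (by rw [Real.log_one, mul_zero]; positivity) (by rw [eδ]; linarith)
  rw [eh] at q1
  rw [ehδ] at q2
  rw [eδ] at q3
  have m1 : BM (cc U h) := BM.cc U h
  have m2 : BM (fun t => cc U δ (t + h)) := (BM.cc U δ).shift h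
  have m3 : BM (fun t => cc U h t - a) := m1.sub (BM.const a)
  have m4 : BM (fun t => cc U δ (t + h) - 1) := m2.sub (BM.const 1)
  -- the second factor
  have hB2 : ∫ t in U..(2 * U), (cc U δ (t + h) - 1) ^ 2 ≤ C * U + U + U := by
    have e1 : ∫ t in U..(2 * U), (cc U δ (t + h) - 1) ^ 2 =
        ∫ t in (U + h)..(2 * U + h), (cc U δ t - 1) ^ 2 :=
      intervalIntegral.integral_comp_add_right (fun t => (cc U δ t - 1) ^ 2) h
    have mm : BM (fun t => (cc U δ t - 1) ^ 2) := ((BM.cc U δ).sub (BM.const 1)).sq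
    have e2 : ∫ t in (U + h)..(2 * U + h), (cc U δ t - 1) ^ 2 ≤
        ∫ t in U..(2 * U + h), (cc U δ t - 1) ^ 2 := by
      have e3 := intervalIntegral.integral_add_adjacent_intervals
        (mm.ii U (U + h)) (mm.ii (U + h) (2 * U + h))
      have e4 : 0 ≤ ∫ t in U..(U + h), (cc U δ t - 1) ^ 2 :=
        intervalIntegral.integral_nonneg (by linarith) fun t _ => sq_nonneg _
      linarith
    have e5 := intervalIntegral.integral_add_adjacent_intervals
        (mm.ii U (2 * U)) (mm.ii (2 * U) (2 * U + h))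
    have e6 : ∫ t in (2 * U)..(2 * U + h), (cc U δ t - 1) ^ 2 ≤ h * (C * L + 1) ^ 2 := by
      have e7 := intervalIntegral.integral_mono_on (by linarith : 2 * U ≤ 2 * U + h)
        (mm.ii (2 * U) (2 * U + h)) (continuous_const.intervalIntegrable (μ := volume)
          (2 * U) (2 * U + h)) (g := fun _ => (C * L + 1) ^ 2) fun t ht => by
        have e8 := f4 t δ (by linarith [ht.1]) (by linarith [ht.2]) hδ0.le (by linarith)
        have e9 := cc_nonneg U δ t
        have e10 : |cc U δ t - 1| ≤ C * L + 1 := by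
          rw [abs_le]; constructor <;> linarith
        calc (cc U δ t - 1) ^ 2 = |cc U δ t - 1| ^ 2 := (sq_abs _).symm
          _ ≤ (C * L + 1) ^ 2 := pow_le_pow_left₀ (abs_nonneg _) e10 2
      rw [intervalIntegral.integral_const, smul_eq_mul] at e7
      have e8 : 2 * U + h - 2 * U = h := by ring
      rwa [e8] at e7
    have e7 : h * (C * L + 1) ^ 2 ≤ U := by nlinarith [sq_nonneg (C * L + 1)]
    have e8 := (abs_le.1 q3).2
    have e9 : U / Real.pi ^ 2 * Real.log (1 + 1) ≤ U := by
      have g1 : Real.log (1 + 1) ≤ 1 := by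
        have := Real.log_two_lt_d9
        norm_num
        linarith
      have g2 : U / Real.pi ^ 2 ≤ U := div_le_self hU0.le (by nlinarith)
      have g3 : 0 ≤ Real.log (1 + 1) := Real.log_nonneg (by norm_num)
      calc _ ≤ U * 1 := mul_le_mul g2 g1 g3 hU0.le
        _ = U := mul_one U
    linarith
  have hB20 : 0 ≤ ∫ t in U..(2 * U), (cc U δ (t + h) - 1) ^ 2 :=
    intervalIntegral.integral_nonneg (by linarith) fun t _ => sq_nonneg _
  -- polarisation
  have hpol : 2 * ∫ t in U..(2 * U), (cc U h t - a) * (cc U δ (t + h) - 1) =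
      (∫ t in U..(2 * U), (cc U (h + δ) t - (a + 1)) ^ 2) -
        (∫ t in U..(2 * U), (cc U h t - a) ^ 2) -
        ∫ t in U..(2 * U), (cc U δ (t + h) - 1) ^ 2 := by
    rw [← intervalIntegral.integral_sub (((BM.cc U (h + δ)).sub (BM.const (a + 1))).sq.ii _ _)
      (m3.sq.ii _ _), ← intervalIntegral.integral_sub
      ((((BM.cc U (h + δ)).sub (BM.const (a + 1))).sq.sub m3.sq).ii _ _) (m4.sq.ii _ _),
      ← intervalIntegral.integral_const_mul]
    refine intervalIntegral.integral_congr fun t _ => ?_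
    have e1 : cc U (h + δ) t = cc U h t + cc U δ (t + h) := cn_add h0.le hδ0.le t
    show 2 * ((cc U h t - a) * (cc U δ (t + h) - 1)) = (cc U (h + δ) t - (a + 1)) ^ 2 -
      (cc U h t - a) ^ 2 - (cc U δ (t + h) - 1) ^ 2
    rw [e1]
    ring
  have hlogd : 0 ≤ U / Real.pi ^ 2 * (Real.log (1 + (a + 1)) - Real.log (1 + a)) ∧
      U / Real.pi ^ 2 * (Real.log (1 + (a + 1)) - Real.log (1 + a)) ≤ U := by
    have g0 : 0 ≤ Real.log (1 + (a + 1)) - Real.log (1 + a) := by
      have := Real.log_le_log (show 0 < 1 + a by linarith) (show 1 + a ≤ 1 + (a + 1) by linarith)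
      linarith
    have g1 : Real.log (1 + (a + 1)) - Real.log (1 + a) ≤ 1 := by
      rw [← Real.log_div (by linarith) (by linarith)]
      have h5 := Real.log_le_sub_one_of_pos (show 0 < (1 + (a + 1)) / (1 + a) by positivity)
      have h6 : (1 + (a + 1)) / (1 + a) - 1 = 1 / (1 + a) := by field_simp; ring
      rw [h6] at h5
      have h7 : 1 / (1 + a) ≤ 1 := by rw [div_le_one (by linarith)]; linarith
      linarith
    have g2 : U / Real.pi ^ 2 ≤ U := div_le_self hU0.le (by nlinarith)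
    have g3 : 0 ≤ U / Real.pi ^ 2 := by positivity
    refine ⟨mul_nonneg g3 g0, ?_⟩
    calc _ ≤ U * 1 := mul_le_mul g2 g1 g0 hU0.le
      _ = U := mul_one U
  -- the expansion
  have hexp : ∫ t in U..(2 * U), cc U δ (t + h) * cc U h t =
      (∫ t in U..(2 * U), (cc U h t - a) * (cc U δ (t + h) - 1)) +
        (∫ t in U..(2 * U), cc U h t) + a * (∫ t in U..(2 * U), cc U δ (t + h)) - a * U := by
    have e1 : a * U = ∫ t in U..(2 * U), a := by
      rw [intervalIntegral.integral_const, smul_eq_mul]; ring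
    have p1 := m3.mul m4
    have p2 : BM fun t => a * cc U δ (t + h) := (BM.const a).mul m2
    rw [e1, ← intervalIntegral.integral_const_mul,
      ← intervalIntegral.integral_add (p1.ii _ _) (m1.ii _ _),
      ← intervalIntegral.integral_add ((p1.add m1).ii _ _) (p2.ii _ _),
      ← intervalIntegral.integral_sub (((p1.add m1).add p2).ii _ _) ((BM.const a).ii _ _)]
    refine intervalIntegral.integral_congr fun t _ => ?_
    show cc U δ (t + h) * cc U h t = (cc U h t - a) * (cc U δ (t + h) - 1) + cc U h t +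
      a * cc U δ (t + h) - a
    ring
  have s1 := first_moment hC hU f1 f2 f4 f5 (h := 0) (k := h) le_rfl h0.le (by linarith)
  simp only [add_zero] at s1
  have s2 := first_moment hC hU f1 f2 f4 f5 (h := h) (k := δ) h0.le hδ0.le (by linarith)
  have z1 : h * (U * L / (2 * Real.pi)) = a * U := by rw [ha]; ring
  have z2 : δ * (U * L / (2 * Real.pi)) = U := by rw [hδ]; field_simp
  rw [z1] at s1
  rw [z2] at s2
  have s3 : a * |(∫ t in U..(2 * U), cc U δ (t + h)) - U| ≤ h * (2 * C * U) := by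
    calc _ ≤ a * (δ * (2 * C * U)) := mul_le_mul_of_nonneg_left s2 ha0.le
      _ = (a * δ) * (2 * C * U) := by ring
      _ = _ := by rw [haδ]
  have hCU : 0 ≤ C * U := by positivity
  have s4 : h * (2 * C * U) ≤ 14 * C * U := by nlinarith
  have s5 := abs_le.1 s1
  have s6 : |a * ((∫ t in U..(2 * U), cc U δ (t + h)) - U)| ≤ 14 * C * U := by
    rw [abs_mul, abs_of_pos ha0]
    exact s3.trans s4
  have s7 := abs_le.1 s6
  have q1' := abs_le.1 q1
  have q2' := abs_le.1 q2
  have hU1 : U ≤ C * U := by nlinarith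
  rw [hexp]
  rw [abs_le]
  constructor
  · nlinarith only [s5.1, s7.1, q1'.2, q2'.1, hpol, hB2, hB20, hlogd.1, hlogd.2, hU1, hCU, s4, hU0]
  · nlinarith only [s5.2, s7.2, q1'.1, q2'.2, hpol, hB2, hB20, hlogd.1, hlogd.2, hU1, hCU, s4, hU0]

include hB' hC hU f1 f2 f3 f4 f5 f6 in
/-- pairs in a dyadic block -/
lemma blk {h : ℝ} (h0 : 0 < h) (h7 : h ≤ 7)
    (c1 : h * Real.log U / (2 * Real.pi) * Real.log (h * Real.log U / (2 * Real.pi)) ≤
      B' * Real.log U)
    (c2 : (h * Real.log U / (2 * Real.pi) + 1) *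
      Real.log (h * Real.log U / (2 * Real.pi) + 1) ≤ B' * Real.log U) :
    |pr (SU U) mS Complex.im U (2 * U) h - h * U * Real.log U ^ 2 / (4 * Real.pi ^ 2)| ≤
      8 * C * (U * Real.log U) := by
  have hpi := Real.pi_pos
  have hpi3 := Real.pi_gt_three
  have hpi4 := Real.pi_lt_d2
  have hU0 : 0 < U := by linarith
  have hQ := Qest hB' hC hU f1 f2 f3 f4 f5 f6 h0 h7 c1 c2
  set L := Real.log U with hL
  have hL0 : 0 < L := by linarith
  set a := h * L / (2 * Real.pi) with ha
  set δ := 2 * Real.pi / L with hδ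
  have ha0 : 0 < a := by positivity
  have hδ0 : 0 < δ := by positivity
  have hδ1 : δ ≤ 1 := by
    rw [hδ, div_le_one hL0]; linarith
  have hCU : U ≤ C * U := by nlinarith
  have hCL : 0 ≤ C * L := by positivity
  set p := pr (SU U) mS Complex.im U (2 * U) h with hp
  have hp0 : 0 ≤ p := pr_nonneg mS_nonneg _ _ _
  -- upper bound
  have hlo := Q_lo (S := SU U) (m := mS) (x := Complex.im) mS_nonneg (A := U) (B := 2 * U)
    (h := h) (δ := δ) (by linarith) h0.le hδ0.le
  change δ * (p - _ - _) ≤ ∫ t in U..(2 * U), cc U δ (t + h) * cc U h t at hlo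
  have hclose := pr_close (S := SU U) (m := mS) (x := Complex.im) mS_nonneg (A := U)
    (B := 2 * U) (δ := δ) (by linarith) hδ0.le
  change δ * _ ≤ ∫ t in (U - 2 * δ)..(2 * U), cc U (2 * δ) t ^ 2 at hclose
  have hcl2 : ∫ t in (U - 2 * δ)..(2 * U), cc U (2 * δ) t ^ 2 ≤ 13 * C * U := by
    have mm : BM (fun t => cc U (2 * δ) t ^ 2) := (BM.cc U (2 * δ)).sq
    have mm2 : BM (fun t => (cc U (2 * δ) t - 2) ^ 2) :=
      ((BM.cc U (2 * δ)).sub (BM.const 2)).sq
    have e5 := intervalIntegral.integral_add_adjacent_intervals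
        (mm.ii (U - 2 * δ) U) (mm.ii U (2 * U))
    have e6 : ∫ t in (U - 2 * δ)..U, cc U (2 * δ) t ^ 2 ≤ 2 * δ * (C * L) ^ 2 := by
      have e7 := intervalIntegral.integral_mono_on (by linarith : U - 2 * δ ≤ U)
        (mm.ii (U - 2 * δ) U) (continuous_const.intervalIntegrable (μ := volume)
          (U - 2 * δ) U) (g := fun _ => (C * L) ^ 2) fun t ht => by
        have e8 := f4 t (2 * δ) (by linarith [ht.1]) (by linarith [ht.2]) (by linarith)
          (by linarith)
        exact pow_le_pow_left₀ (cc_nonneg _ _ _) e8 2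
      rw [intervalIntegral.integral_const, smul_eq_mul] at e7
      have e8 : U - (U - 2 * δ) = 2 * δ := by ring
      rwa [e8] at e7
    have e7 : 2 * δ * (C * L) ^ 2 ≤ U := by nlinarith [sq_nonneg (C * L)]
    have ed : 2 * Real.pi * 2 / L = 2 * δ := by rw [hδ]; ring
    have hlog2 : (2 : ℝ) * Real.log 2 ≤ B' * L := by
      have g1 := Real.log_two_lt_d9
      have g2 : L ≤ B' * L := by nlinarith
      linarith
    have e8 := f6 2 two_pos hlog2 (by rw [ed]; linarith)
    rw [ed] at e8
    have e9 := (abs_le.1 e8).2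
    have e10 : U / Real.pi ^ 2 * Real.log (1 + 2) ≤ U := by
      have g1 : Real.log (1 + 2) ≤ 2 := by
        have := Real.log_le_sub_one_of_pos (show (0 : ℝ) < 1 + 2 by norm_num)
        linarith
      have g3 : 0 ≤ Real.log (1 + 2) := Real.log_nonneg (by norm_num)
      rw [div_mul_eq_mul_div, div_le_iff₀ (by positivity)]
      exact mul_le_mul_of_nonneg_left (by nlinarith) hU0.le
    have e11 : ∫ t in U..(2 * U), cc U (2 * δ) t ^ 2 ≤
        ∫ t in U..(2 * U), (2 * (cc U (2 * δ) t - 2) ^ 2 + 8) := by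
      refine intervalIntegral.integral_mono_on (by linarith) (mm.ii _ _)
        ((((BM.const 2).mul mm2).add (BM.const 8)).ii _ _) fun t _ => ?_
      nlinarith [sq_nonneg (cc U (2 * δ) t - 4)]
    rw [intervalIntegral.integral_add (((BM.const 2).mul mm2).ii _ _) ((BM.const 8).ii _ _),
      intervalIntegral.integral_const_mul, intervalIntegral.integral_const, smul_eq_mul] at e11
    nlinarith only [e5, e6, e7, e9, e10, e11, hCU, hU0]
  have hedge : δ * pr (SU U) mS Complex.im U (U + h + δ) h ≤ U := by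
    have e1 := pr_edge (S := SU U) (m := mS) (x := Complex.im) mS_nonneg (A := U)
      (η := h + δ) (h := h) (by linarith) h0.le
    rw [← add_assoc] at e1
    have e2 := f4 (U - h) h (by linarith) (by linarith) h0.le (by linarith)
    have e3 := f4 U (h + δ) (by linarith) (by linarith) (by linarith) (by linarith)
    have e4 : (cn (SU U) mS Complex.im h (U - h) + cn (SU U) mS Complex.im (h + δ) U) ^ 2 ≤
        (C * L + C * L) ^ 2 :=
      pow_le_pow_left₀ (add_nonneg (cc_nonneg _ _ _) (cc_nonneg _ _ _)) (add_le_add e2 e3) 2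
    have e5 := e1.trans e4
    have e6 : δ * pr (SU U) mS Complex.im U (U + h + δ) h ≤ 1 * (C * L + C * L) ^ 2 :=
      mul_le_mul hδ1 e5 (pr_nonneg mS_nonneg _ _ _) zero_le_one
    nlinarith only [e6, f3, hCL, sq_nonneg (C * L)]
  have hQ' := abs_le.1 hQ
  have hup : δ * p ≤ a * U + 46 * C * U := by
    have e1 : δ * (p - pr (SU U) mS Complex.im U (2 * U) δ -
        pr (SU U) mS Complex.im U (U + h + δ) h) = δ * p -
        δ * pr (SU U) mS Complex.im U (2 * U) δ -
        δ * pr (SU U) mS Complex.im U (U + h + δ) h := by ring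
    rw [e1] at hlo
    linarith [hQ'.2]
  -- lower bound
  have hlow : a * U - 46 * C * U ≤ δ * p := by
    rcases le_or_gt h δ with hd | hd
    · have : a ≤ 1 := by
        rw [ha, div_le_one (by positivity)]
        rw [hδ, le_div_iff₀ hL0] at hd
        exact hd
      have h2 : 0 ≤ δ * p := by positivity
      nlinarith
    · have hh' : 0 < h - δ := by linarith
      have ea : (h - δ) * L / (2 * Real.pi) = a - 1 := by
        rw [ha, hδ]; field_simp
      have ha1 : 0 < a - 1 := by rw [← ea]; positivity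
      have c1' : (h - δ) * L / (2 * Real.pi) * Real.log ((h - δ) * L / (2 * Real.pi)) ≤
          B' * L := by
        rw [ea]
        rcases le_or_gt (a - 1) 1 with g | g
        · have g1 : Real.log (a - 1) ≤ 0 := Real.log_nonpos ha1.le g
          have g2 : 0 ≤ B' * L := by positivity
          nlinarith
        · have g1 : Real.log (a - 1) ≤ Real.log a := Real.log_le_log ha1 (by linarith)
          have g2 : 0 ≤ Real.log (a - 1) := Real.log_nonneg g.le
          have g3 : (a - 1) * Real.log (a - 1) ≤ a * Real.log a :=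
            mul_le_mul (by linarith) g1 g2 ha0.le
          linarith
      have c2' : ((h - δ) * L / (2 * Real.pi) + 1) *
          Real.log ((h - δ) * L / (2 * Real.pi) + 1) ≤ B' * L := by
        rw [ea, sub_add_cancel]
        exact c1
      have hQ2 := Qest hB' hC hU f1 f2 f3 f4 f5 f6 hh' (by linarith) c1' c2'
      rw [← hL, ← hδ, ea] at hQ2
      have hQu := Q_up (S := SU U) (m := mS) (x := Complex.im) mS_nonneg (A := U) (B := 2 * U)
        (h := h - δ) (δ := δ) (by linarith) hh'.le hδ0.le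
      change ∫ t in U..(2 * U), cc U δ (t + (h - δ)) * cc U (h - δ) t ≤ _ at hQu
      have e1 : 2 * U + (h - δ) + δ = 2 * U + h := by ring
      rw [e1, sub_add_cancel, pr_add (B := 2 * U) (by linarith) (by linarith)] at hQu
      have e2 : δ * pr (SU U) mS Complex.im (2 * U) (2 * U + h) h ≤ U := by
        have e1 := pr_edge (S := SU U) (m := mS) (x := Complex.im) mS_nonneg (A := 2 * U)
          (η := h) (h := h) h0.le h0.le
        have e2 := f4 (2 * U - h) h (by linarith) (by linarith) h0.le (by linarith)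
        have e3 := f4 (2 * U) h (by linarith) (by linarith) h0.le (by linarith)
        have e4 : (cn (SU U) mS Complex.im h (2 * U - h) + cn (SU U) mS Complex.im h (2 * U)) ^ 2
            ≤ (C * L + C * L) ^ 2 :=
          pow_le_pow_left₀ (add_nonneg (cc_nonneg _ _ _) (cc_nonneg _ _ _)) (add_le_add e2 e3) 2
        have e5 := e1.trans e4
        have e6 : δ * pr (SU U) mS Complex.im (2 * U) (2 * U + h) h ≤ 1 * (C * L + C * L) ^ 2 :=
          mul_le_mul hδ1 e5 (pr_nonneg mS_nonneg _ _ _) zero_le_one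
        nlinarith only [e6, f3, hCL, sq_nonneg (C * L)]
      have e3 := (abs_le.1 hQ2).1
      rw [mul_add] at hQu
      nlinarith only [e2, e3, hQu, hCU, hU0]
  -- conclusion
  have e1 : h * U * L ^ 2 / (4 * Real.pi ^ 2) = a * U / δ := by
    rw [ha, hδ]; field_simp; ring
  have e2 : |δ * p - a * U| ≤ 46 * C * U := by
    rw [abs_le]; constructor <;> linarith
  have e3 : p - a * U / δ = (δ * p - a * U) / δ := by field_simp
  rw [e1, e3, abs_div, abs_of_pos hδ0, div_le_iff₀ hδ0]
  refine e2.trans ?_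
  have e4 : 8 * C * (U * L) * δ = 8 * C * U * (2 * Real.pi) := by
    rw [hδ]; field_simp
  rw [e4]
  nlinarith only [hpi3, hCU, hU0]

end Blk

/-- pairs in dyadic blocks, uniformly -/
theorem block (K : ℝ) (hK : 0 ≤ K) : ∃ C U0 : ℝ, 0 < C ∧ 100 ≤ U0 ∧ ∀ U : ℝ, U0 ≤ U →
    10 ≤ Real.log U ∧ ∀ h : ℝ, 0 < h → h ≤ 7 → h * Real.log (1 + h * Real.log U) ≤ K →
    |pr (SU U) mS Complex.im U (2 * U) h - h * U * Real.log U ^ 2 / (4 * Real.pi ^ 2)| ≤
      C * (U * Real.log U) := by
  obtain ⟨C, U0, hC, hU0, hf⟩ := facts (K + 3) (by linarith)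
  refine ⟨8 * C, U0, by positivity, hU0, fun U hU => ?_⟩
  obtain ⟨f1, f2, f3, f4, f5, f6⟩ := hf U hU
  refine ⟨f1, fun h h0 h7 hcond => ?_⟩
  have hpi := Real.pi_pos
  have hpi3 := Real.pi_gt_three
  have hL0 : 0 < Real.log U := by linarith
  set L := Real.log U with hL
  have ha : h * L / (2 * Real.pi) ≤ h * L := div_le_self (by positivity) (by linarith)
  have ha0 : 0 < h * L / (2 * Real.pi) := by positivity
  set a := h * L / (2 * Real.pi) with hadef
  have hlog1 : Real.log (a + 1) ≤ Real.log (1 + h * L) :=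
    Real.log_le_log (by linarith) (by linarith)
  have hlog0 : 0 ≤ Real.log (a + 1) := Real.log_nonneg (by linarith)
  have hlog2 : 0 ≤ Real.log (1 + h * L) := hlog0.trans hlog1
  have k1 : a * Real.log (a + 1) ≤ K * L := by
    calc a * Real.log (a + 1) ≤ (h * L) * Real.log (1 + h * L) :=
          mul_le_mul ha hlog1 hlog0 (by positivity)
      _ = (h * Real.log (1 + h * L)) * L := by ring
      _ ≤ K * L := mul_le_mul_of_nonneg_right hcond hL0.le
  have k2 : Real.log (a + 1) ≤ 3 * L := by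
    have g1 := Real.log_le_sub_one_of_pos (show 0 < a + 1 by linarith)
    have g2 : a ≤ 3 * L := by
      rw [hadef, div_le_iff₀ (by positivity)]
      nlinarith
    linarith
  refine blk (B' := K + 3) (by linarith) hC (hU0.trans hU) f1 f2 f3 f4 f5 f6 h0 h7 ?_ ?_
  · rw [← hL, ← hadef]
    have g1 : Real.log a ≤ Real.log (a + 1) := Real.log_le_log ha0 (by linarith)
    have g2 : a * Real.log a ≤ a * Real.log (a + 1) := mul_le_mul_of_nonneg_left g1 ha0.le
    linarith
  · rw [← hL, ← hadef]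
    linarith

end Pool.Agent.X113.PC
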