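import Pool.Agent.X113.PC

set_option autoImplicit false

/-! # Pairs of zeros up to height `T` -/

namespace Pool.Agent.X113.PC

open Filter Topology MeasureTheory Set
open H370 (Zf mult mem_Zf good_zeta NN NN_eq zset)
open Pool.Agent.TH850.UV (NS mS mS_nonneg cnt cnt_eq cnt_crude nv2 range_le)
open Pool.Agent.X113.PG

/-- the nontrivial zeros of `ζ` -/
def ZZ : Set ℂ := {s : ℂ | riemannZeta s = 0 ∧ 0 < s.re ∧ s.re < 1}

/-- the pairs of zeros with `A < γ ≤ T` and `0 < γ - γ' ≤ h` -/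
def PSt (A T h : ℝ) : Set (ℂ × ℂ) := {p : ℂ × ℂ | p.1 ∈ ZZ ∧ p.2 ∈ ZZ ∧ A < p.1.im ∧
  p.1.im ≤ T ∧ 0 < p.1.im - p.2.im ∧ p.1.im - p.2.im ≤ h}

/-- the number of pairs of zeros with `A < γ ≤ T` and `0 < γ - γ' ≤ h` -/
noncomputable def FF (A T h : ℝ) : ℕ := ∑ᶠ p ∈ PSt A T h,
  analyticOrderNatAt riemannZeta p.1 * analyticOrderNatAt riemannZeta p.2

lemma ZZ_fin (A B : ℝ) : {s : ℂ | s ∈ ZZ ∧ A ≤ s.im ∧ s.im ≤ B}.Finite := by
  have hcomp : IsCompact (Icc (0 : ℝ) 1 ×ℂ Icc A B) := isCompact_Icc.reProdIm isCompact_Icc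
  refine hcomp.inter_riemannZetaZeros_finite.subset ?_
  rintro s ⟨⟨h1, h2, h3⟩, h4, h5⟩
  exact ⟨⟨⟨h2.le, h3.le⟩, ⟨h4, h5⟩⟩, h1⟩

lemma PSt_fin (A T h : ℝ) : (PSt A T h).Finite := by
  refine ((ZZ_fin A T).prod (ZZ_fin (A - h) T)).subset ?_
  rintro p ⟨h1, h2, h3, h4, h5, h6⟩
  exact ⟨⟨h1, h3.le, h4⟩, ⟨h2, by linarith, by linarith⟩⟩

lemma FF_mono {A T T' h h' : ℝ} (h1 : T ≤ T') (h2 : h ≤ h') : FF A T h ≤ FF A T' h' := by
  unfold FF
  rw [finsum_mem_eq_finite_toFinset_sum _ (PSt_fin A T h),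
    finsum_mem_eq_finite_toFinset_sum _ (PSt_fin A T' h')]
  refine Finset.sum_le_sum_of_subset_of_nonneg ?_ fun _ _ _ => Nat.zero_le _
  intro p hp
  rw [Set.Finite.mem_toFinset] at hp ⊢
  obtain ⟨a1, a2, a3, a4, a5, a6⟩ := hp
  exact ⟨a1, a2, a3, by linarith, a5, by linarith⟩

lemma FF_add {A B C h : ℝ} (h1 : A ≤ B) (h2 : B ≤ C) : FF A C h = FF A B h + FF B C h := by
  unfold FF
  rw [← finsum_mem_union ?_ (PSt_fin A B h) (PSt_fin B C h)]
  · have : PSt A C h = PSt A B h ∪ PSt B C h := by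
      ext p
      constructor
      · rintro ⟨a1, a2, a3, a4, a5⟩
        rcases le_or_gt p.1.im B with g | g
        · exact Or.inl ⟨a1, a2, a3, g, a5⟩
        · exact Or.inr ⟨a1, a2, g, a4, a5⟩
      · rintro (⟨a1, a2, a3, a4, a5⟩ | ⟨a1, a2, a3, a4, a5⟩)
        · exact ⟨a1, a2, a3, a4.trans h2, a5⟩
        · exact ⟨a1, a2, by linarith, a4, a5⟩
    rw [this]
  · rw [Set.disjoint_left]
    rintro p ⟨a1, a2, a3, a4, a5⟩ ⟨b1, b2, b3, b4, b5⟩
    linarith

lemma FF_pr {U h : ℝ} (hU : 100 ≤ U) (h7 : h ≤ 7) :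
    (FF U (2 * U) h : ℝ) = pr (SU U) mS Complex.im U (2 * U) h := by
  classical
  have hset : PSt U (2 * U) h = (((SU U) ×ˢ (SU U)).filter (fun p : ℂ × ℂ => U < p.1.im ∧
      p.1.im ≤ 2 * U ∧ 0 < p.1.im - p.2.im ∧ p.1.im - p.2.im ≤ h) : Finset (ℂ × ℂ)) := by
    ext p
    rw [Finset.mem_coe, Finset.mem_filter, Finset.mem_product]
    unfold SU
    rw [mem_Zf good_zeta (by linarith), mem_Zf good_zeta (by linarith)]
    constructor
    · rintro ⟨⟨b1, b2, b3⟩, ⟨b4, b5, b6⟩, a3, a4, a5, a6⟩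
      exact ⟨⟨⟨b2, b3, by linarith, by linarith, b1⟩, ⟨b5, b6, by linarith, by linarith, b4⟩⟩,
        a3, a4, a5, a6⟩
    · rintro ⟨⟨⟨b2, b3, -, -, b1⟩, ⟨b5, b6, -, -, b4⟩⟩, a3, a4, a5, a6⟩
      exact ⟨⟨b1, b2, b3⟩, ⟨b4, b5, b6⟩, a3, a4, a5, a6⟩
  unfold FF
  rw [hset, finsum_mem_coe_finset, Finset.sum_filter, Finset.sum_product]
  unfold pr
  push_cast
  refine Finset.sum_congr rfl fun s _ => Finset.sum_congr rfl fun s' _ => ?_
  show (if U < s.im ∧ s.im ≤ 2 * U ∧ 0 < s.im - s'.im ∧ s.im - s'.im ≤ h then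
      (analyticOrderNatAt riemannZeta s : ℝ) * (analyticOrderNatAt riemannZeta s' : ℝ) else 0) =
    mS s * mS s' * (if U < s.im ∧ s.im ≤ 2 * U ∧ 0 < s.im - s'.im ∧ s.im - s'.im ≤ h then
      1 else 0)
  rw [mul_ite, mul_one, mul_zero]
  rfl

/-- pairs up to height `T`, uniformly -/
theorem main_h (K : ℝ) (hK : 0 ≤ K) : ∃ C T0 : ℝ, 0 < C ∧ 100 ≤ T0 ∧ ∀ T : ℝ, T0 ≤ T →
    ∀ h : ℝ, 0 < h → h ≤ 7 → h * Real.log (1 + h * Real.log T) ≤ K →
    |(FF 0 T h : ℝ) - h * T * Real.log T ^ 2 / (4 * Real.pi ^ 2)| ≤ C * (T * Real.log T) := by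
  obtain ⟨C, T0, hC, hT0, hb⟩ := block K hK
  have hpi := Real.pi_pos
  have hpi3 := Real.pi_gt_three
  obtain ⟨K1, hK1⟩ : ∃ K1 : ℝ, K1 = (FF 0 (2 * T0) 7 : ℝ) +
      7 * (2 * T0) * Real.log (2 * T0) ^ 2 := ⟨_, rfl⟩
  have hK10 : 0 ≤ K1 := by
    rw [hK1]
    have := Nat.cast_nonneg (α := ℝ) (FF 0 (2 * T0) 7)
    positivity
  have key : ∀ k : ℕ, ∀ T : ℝ, T0 ≤ T → T ≤ 2 ^ (k + 1) * T0 → ∀ h : ℝ, 0 < h → h ≤ 7 →
      h * Real.log (1 + h * Real.log T) ≤ K →
      |(FF 0 T h : ℝ) - h * T * Real.log T ^ 2 / (4 * Real.pi ^ 2)| ≤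
        (C + 1 + K1) * (T * Real.log T) := by
    intro k
    induction k with
    | zero =>
      intro T h1 h2 h h0 h7 hc
      have hL := (hb T h1).1
      have hT : 0 < T := by linarith
      have h2' : T ≤ 2 * T0 := by simpa using h2
      have g1 : (FF 0 T h : ℝ) ≤ FF 0 (2 * T0) 7 := by exact_mod_cast FF_mono h2' h7
      have g2 : h * T * Real.log T ^ 2 / (4 * Real.pi ^ 2) ≤
          7 * (2 * T0) * Real.log (2 * T0) ^ 2 := by
        have g3 : Real.log T ≤ Real.log (2 * T0) := Real.log_le_log hT h2'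
        have g4 : Real.log T ^ 2 ≤ Real.log (2 * T0) ^ 2 :=
          pow_le_pow_left₀ (by linarith) g3 2
        have g5 : h * T ≤ 7 * (2 * T0) := mul_le_mul h7 h2' hT.le (by norm_num)
        have g6 : h * T * Real.log T ^ 2 ≤ 7 * (2 * T0) * Real.log (2 * T0) ^ 2 :=
          mul_le_mul g5 g4 (by positivity) (by linarith)
        refine (div_le_self (by positivity) ?_).trans g6
        nlinarith
      have g3 : 0 ≤ h * T * Real.log T ^ 2 / (4 * Real.pi ^ 2) := by positivity
      have g4 : (0 : ℝ) ≤ FF 0 T h := Nat.cast_nonneg _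
      have g5 : |(FF 0 T h : ℝ) - h * T * Real.log T ^ 2 / (4 * Real.pi ^ 2)| ≤ K1 := by
        have g6 : (0 : ℝ) ≤ FF 0 (2 * T0) 7 := Nat.cast_nonneg _
        have g7 : 0 ≤ 7 * (2 * T0) * Real.log (2 * T0) ^ 2 := by positivity
        rw [abs_le]
        constructor <;> linarith
      refine g5.trans ?_
      have g6 : 1 ≤ T * Real.log T := by nlinarith
      nlinarith
    | succ k ih =>
      intro T h1 h2 h h0 h7 hc
      rcases le_or_gt T (2 ^ (k + 1) * T0) with h3 | h3
      · exact ih T h1 h3 h h0 h7 hc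
      · obtain ⟨V, hV⟩ : ∃ V, V = T / 2 := ⟨_, rfl⟩
        have hTV : T = 2 * V := by rw [hV]; ring
        have hV1 : T0 ≤ V := by
          have : (2 : ℝ) ≤ 2 ^ (k + 1) := by
            calc (2 : ℝ) = 2 ^ 1 := by norm_num
              _ ≤ _ := pow_le_pow_right₀ (by norm_num) (by omega)
          nlinarith
        have hV2 : V ≤ 2 ^ (k + 1) * T0 := by
          rw [hV, div_le_iff₀ two_pos]
          calc T ≤ 2 ^ (k + 1 + 1) * T0 := h2
            _ = _ := by ring
        have hV0 : 0 < V := by linarith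
        obtain ⟨hL, hblk⟩ := hb V hV1
        have hlog : Real.log T = Real.log 2 + Real.log V := by
          rw [hTV]; exact Real.log_mul (by norm_num) hV0.ne'
        have hl0 : 0 < Real.log 2 := Real.log_pos (by norm_num)
        have hl1 := Real.log_two_lt_d9
        have hc' : h * Real.log (1 + h * Real.log V) ≤ K := by
          refine le_trans ?_ hc
          have g1 : h * Real.log V ≤ h * Real.log T :=
            mul_le_mul_of_nonneg_left (by linarith) h0.le
          have g2 : 0 ≤ h * Real.log V := by positivity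
          exact mul_le_mul_of_nonneg_left (Real.log_le_log (by linarith) (by linarith)) h0.le
        have i1 := ih V hV1 hV2 h h0 h7 hc'
        have i2 := hblk h h0 h7 hc'
        rw [← FF_pr (by linarith) h7] at i2
        have i3 : (FF 0 T h : ℝ) = FF 0 V h + FF V (2 * V) h := by
          rw [hTV, FF_add hV0.le (by linarith)]
          push_cast
          rfl
        have i4 : |h * T * Real.log T ^ 2 / (4 * Real.pi ^ 2) -
            h * V * Real.log V ^ 2 / (4 * Real.pi ^ 2) -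
            h * V * Real.log V ^ 2 / (4 * Real.pi ^ 2)| ≤ V * Real.log V := by
          have e1 : h * T * Real.log T ^ 2 / (4 * Real.pi ^ 2) -
            h * V * Real.log V ^ 2 / (4 * Real.pi ^ 2) -
            h * V * Real.log V ^ 2 / (4 * Real.pi ^ 2) =
            (2 * h * V * Real.log 2 * (2 * Real.log V + Real.log 2)) / (4 * Real.pi ^ 2) := by
            rw [hlog, hTV]
            field_simp
            ring
          rw [e1, abs_of_nonneg (by positivity), div_le_iff₀ (by positivity)]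
          have e2 : 2 * h * V * Real.log 2 * (2 * Real.log V + Real.log 2) ≤
              2 * 7 * V * 1 * (3 * Real.log V) := by
            have g1 : 2 * Real.log V + Real.log 2 ≤ 3 * Real.log V := by linarith
            have g2 : 2 * h * V * Real.log 2 ≤ 2 * 7 * V * (7 / 10) := by
              have : h * Real.log 2 ≤ 7 * (7 / 10) := by nlinarith
              nlinarith
            have g3 : 2 * h * V * Real.log 2 ≤ 2 * 7 * V * 1 := by nlinarith
            exact mul_le_mul g3 g1 (by positivity) (by positivity)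
          have e3 : 2 * h * V * Real.log 2 * (2 * Real.log V + Real.log 2) ≤
              V * Real.log V * (4 * Real.pi ^ 2) := by
            have g0 : 2 * Real.log V + Real.log 2 ≤ (21 / 10) * Real.log V := by linarith
            have g2 : 2 * h * V * Real.log 2 ≤ (98 / 10) * V := by
              have : h * Real.log 2 ≤ 7 * (7 / 10) := by nlinarith
              nlinarith
            have g3 : 2 * h * V * Real.log 2 * (2 * Real.log V + Real.log 2) ≤
                (98 / 10) * V * ((21 / 10) * Real.log V) :=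
              mul_le_mul g2 g0 (by positivity) (by positivity)
            have g4 : (36 : ℝ) ≤ 4 * Real.pi ^ 2 := by nlinarith
            have g5 : V * Real.log V * 36 ≤ V * Real.log V * (4 * Real.pi ^ 2) :=
              mul_le_mul_of_nonneg_left g4 (by positivity)
            have g6 : 0 < V * Real.log V := by positivity
            nlinarith only [g3, g5, g6]
          exact e3
        rw [i3]
        have e5 : (FF 0 V h : ℝ) + FF V (2 * V) h - h * T * Real.log T ^ 2 / (4 * Real.pi ^ 2) =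
            ((FF 0 V h : ℝ) - h * V * Real.log V ^ 2 / (4 * Real.pi ^ 2)) +
            ((FF V (2 * V) h : ℝ) - h * V * Real.log V ^ 2 / (4 * Real.pi ^ 2)) -
            (h * T * Real.log T ^ 2 / (4 * Real.pi ^ 2) -
            h * V * Real.log V ^ 2 / (4 * Real.pi ^ 2) -
            h * V * Real.log V ^ 2 / (4 * Real.pi ^ 2)) := by ring
        rw [e5]
        have e6 : V * Real.log V ≤ T * Real.log T / 2 := by
          rw [hlog, hTV]
          nlinarith
        have e7 : 0 ≤ V * Real.log V := by positivity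
        refine (abs_sub _ _).trans ?_
        refine (add_le_add (abs_add_le _ _) le_rfl).trans ?_
        nlinarith only [i1, i2, i4, e6, e7, hC, hK10]
  refine ⟨C + 1 + K1, T0, by linarith, hT0, fun T hT h h0 h7 hc => ?_⟩
  obtain ⟨k, hk⟩ := pow_unbounded_of_one_lt (T / T0) (by norm_num : (1 : ℝ) < 2)
  refine key k T hT ?_ h h0 h7 hc
  rw [div_lt_iff₀ (by linarith)] at hk
  have : (2 : ℝ) ^ k * T0 ≤ 2 ^ (k + 1) * T0 := by
    rw [pow_succ]
    have : (0 : ℝ) < 2 ^ k * T0 := by positivity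
    linarith
  linarith

/-- `N*(T, a) = (a + O(1)) T log T / 2π` -/
theorem main_a (B : ℝ) (hB : 1 ≤ B) : ∃ C T0 : ℝ, 0 < C ∧ 2 ≤ T0 ∧ ∀ T : ℝ, T0 ≤ T →
    ∀ a : ℝ, 0 < a → a * Real.log a ≤ B * Real.log T →
    |(FF 0 T (2 * Real.pi * a / Real.log T) : ℝ) - a * (T * Real.log T / (2 * Real.pi))| ≤
      C * (T * Real.log T) := by
  obtain ⟨C, T0, hC, hT0, hm⟩ := main_h (7 * (3 + B)) (by linarith)
  have hpi := Real.pi_pos
  have hpi3 := Real.pi_gt_three
  have hpi4 := Real.pi_lt_d2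
  have hev := Real.tendsto_log_atTop.eventually_ge_atTop (Real.exp B + 10)
  obtain ⟨T1, hT1⟩ := hev.exists_forall_of_atTop
  refine ⟨C, max T0 T1, hC, by linarith [le_max_left T0 T1], fun T hT a ha haL => ?_⟩
  have g1 : T0 ≤ T := (le_max_left _ _).trans hT
  have g2 : Real.exp B + 10 ≤ Real.log T := hT1 T ((le_max_right _ _).trans hT)
  have g3 := Real.exp_pos B
  have hL0 : 0 < Real.log T := by linarith
  set L := Real.log T with hL
  have haL' : a ≤ L := by
    rcases le_total 1 a with h1 | h1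
    · exact range_le h1 (by linarith) (by linarith) haL
    · linarith
  have h0 : 0 < 2 * Real.pi * a / L := by positivity
  have h7 : 2 * Real.pi * a / L ≤ 7 := by
    rw [div_le_iff₀ hL0]
    nlinarith
  have ehL : 2 * Real.pi * a / L * L = 2 * Real.pi * a := by field_simp
  have hc : 2 * Real.pi * a / L * Real.log (1 + 2 * Real.pi * a / L * L) ≤ 7 * (3 + B) := by
    rw [ehL, div_mul_eq_mul_div, div_le_iff₀ hL0]
    have k0 : 0 ≤ Real.log (1 + 2 * Real.pi * a) := Real.log_nonneg (by nlinarith)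
    have hlog8 : Real.log 8 ≤ 3 := by
      have : (8 : ℝ) = 2 ^ 3 := by norm_num
      rw [this, Real.log_pow]
      have := Real.log_two_lt_d9
      push_cast
      linarith
    rcases le_total 1 a with h1 | h1
    · have k1 : Real.log (1 + 2 * Real.pi * a) ≤ 3 + Real.log a := by
        have k2 : Real.log (1 + 2 * Real.pi * a) ≤ Real.log (8 * a) :=
          Real.log_le_log (by positivity) (by nlinarith)
        rw [Real.log_mul (by norm_num) ha.ne'] at k2
        linarith
      have k3 : a * Real.log (1 + 2 * Real.pi * a) ≤ (3 + B) * L := by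
        have := mul_le_mul_of_nonneg_left k1 ha.le
        nlinarith
      have k4 : 0 ≤ a * Real.log (1 + 2 * Real.pi * a) := by positivity
      nlinarith
    · have k1 : Real.log (1 + 2 * Real.pi * a) ≤ 3 := by
        refine (Real.log_le_log (by positivity) ?_).trans hlog8
        nlinarith
      have k3 : a * Real.log (1 + 2 * Real.pi * a) ≤ 1 * 3 :=
        mul_le_mul h1 k1 k0 zero_le_one
      have k4 : 0 ≤ a * Real.log (1 + 2 * Real.pi * a) := by positivity
      nlinarith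
  have hmm := hm T g1 _ h0 h7 hc
  have e1 : 2 * Real.pi * a / L * T * L ^ 2 / (4 * Real.pi ^ 2) =
      a * (T * L / (2 * Real.pi)) := by
    field_simp
    ring
  rw [← hL, e1] at hmm
  exact hmm

end Pool.Agent.X113.PC
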