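import Pool.Agent.Y749.Rig.FFf

set_option autoImplicit false

/-! # Smoothed windows with Fourier transform of compact support -/

open MeasureTheory Set Filter Topology
open Complex (I)
open scoped FourierTransform

namespace Pool.Agent.X113.ST

open Pool.Agent.Y749.Rig

variable {κ : ℝ} {ψ : ℝ → ℝ}

/-- shifts of the transform -/
noncomputable def sh (w : ℝ) (ψ : ℝ → ℝ) (α : ℝ) : ℝ := 2 * Real.cos (2 * Real.pi * w * α) * ψ α

lemma FL_sh (h : Adm κ ψ) (w : ℝ) (z : ℂ) : FL (sh w ψ) z = FL ψ (z - w) + FL ψ (z + w) := by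
  unfold FL
  rw [← integral_add (int_exp_mul h _) (int_exp_mul h _)]
  refine integral_congr_ae (ae_of_all _ fun α => ?_)
  simp only
  unfold sh
  have e1 : Complex.exp (2 * Real.pi * I * α * (z - w)) =
      Complex.exp (2 * Real.pi * I * α * z) * Complex.exp (-(2 * Real.pi * w * α) * I) := by
    rw [← Complex.exp_add]; congr 1; ring
  have e2 : Complex.exp (2 * Real.pi * I * α * (z + w)) =
      Complex.exp (2 * Real.pi * I * α * z) * Complex.exp ((2 * Real.pi * w * α) * I) := by
    rw [← Complex.exp_add]; congr 1; ring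
  have e3 := Complex.two_cos (2 * Real.pi * w * α : ℂ)
  rw [e1, e2]
  push_cast
  rw [e3]
  ring

lemma fl_sh (h : Adm κ ψ) (w x : ℝ) : fl (sh w ψ) x = fl ψ (x - w) + fl ψ (x + w) := by
  have hi : ∀ y : ℝ, Integrable fun α => ψ α * Real.cos (2 * Real.pi * α * y) := by
    intro y
    refine h.int.mul_bdd (c := 1) (by fun_prop) (ae_of_all _ fun α => ?_)
    rw [Real.norm_eq_abs]; exact Real.abs_cos_le_one _
  unfold fl
  rw [← integral_add (hi _) (hi _)]
  refine integral_congr_ae (ae_of_all _ fun α => ?_)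
  simp only
  unfold sh
  rw [show 2 * Real.pi * α * (x - w) = 2 * Real.pi * α * x - 2 * Real.pi * w * α by ring,
    show 2 * Real.pi * α * (x + w) = 2 * Real.pi * α * x + 2 * Real.pi * w * α by ring,
    Real.cos_sub, Real.cos_add]
  ring

lemma adm_sh (h : Adm κ ψ) (w : ℝ) : Adm κ (sh w ψ) := by
  refine ⟨?_, ?_, ?_, ?_⟩
  · intro x
    unfold sh
    rw [h.even, show 2 * Real.pi * w * -x = -(2 * Real.pi * w * x) by ring, Real.cos_neg]
  · obtain ⟨K, hK⟩ := h.lip
    obtain ⟨M, hM, hM2⟩ := h.bdd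
    refine ⟨2 * K + M * (2 * (2 * Real.pi * |w|)), fun x y => ?_⟩
    unfold sh
    have e : 2 * Real.cos (2 * Real.pi * w * x) * ψ x - 2 * Real.cos (2 * Real.pi * w * y) * ψ y =
        2 * Real.cos (2 * Real.pi * w * x) * (ψ x - ψ y) +
        ψ y * (2 * (Real.cos (2 * Real.pi * w * x) - Real.cos (2 * Real.pi * w * y))) := by ring
    rw [e]
    refine (abs_add_le _ _).trans ?_
    rw [abs_mul, abs_mul, abs_mul, abs_mul, abs_of_pos (show (0 : ℝ) < 2 by norm_num)]
    have h1 : 2 * |Real.cos (2 * Real.pi * w * x)| * |ψ x - ψ y| ≤ 2 * (K * |x - y|) := by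
      have := Real.abs_cos_le_one (2 * Real.pi * w * x)
      have h2 := hK x y
      have h3 := abs_nonneg (ψ x - ψ y)
      nlinarith [abs_nonneg (Real.cos (2 * Real.pi * w * x))]
    have h2 : |Real.cos (2 * Real.pi * w * x) - Real.cos (2 * Real.pi * w * y)| ≤
        2 * Real.pi * |w| * |x - y| := by
      refine (Real.abs_cos_sub_cos_le _ _).trans (le_of_eq ?_)
      rw [show 2 * Real.pi * w * x - 2 * Real.pi * w * y = 2 * Real.pi * w * (x - y) by ring,
        abs_mul, abs_mul, abs_of_pos (show 0 < 2 * Real.pi by positivity)]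
    have h3 : |ψ y| * (2 * |Real.cos (2 * Real.pi * w * x) - Real.cos (2 * Real.pi * w * y)|) ≤
        M * (2 * (2 * Real.pi * |w| * |x - y|)) := by
      apply mul_le_mul (hM2 y) _ (by positivity) hM
      linarith
    linarith
  · intro x hx
    unfold sh
    rw [h.supp x hx, mul_zero]
  · obtain ⟨C, hC⟩ := h.dec
    have hC0 : 0 ≤ C := by
      have := (norm_nonneg _).trans (hC 0 0)
      simpa using this
    refine ⟨2 * (C * (2 * (1 + |w| ^ 2))), fun x y => ?_⟩
    rw [FL_sh h]
    have key : ∀ s : ℝ, |s| ≤ |w| → ‖FL ψ (((x + s : ℝ) : ℂ) + y * I)‖ ≤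
        C * (2 * (1 + |w| ^ 2)) * Real.exp (2 * Real.pi * κ * |y|) / (1 + x ^ 2) := by
      intro s hs
      refine (hC (x + s) y).trans ?_
      have h1 := shift_bound (x := x) hs
      calc C * Real.exp (2 * Real.pi * κ * |y|) / (1 + (x + s) ^ 2) =
            C * Real.exp (2 * Real.pi * κ * |y|) * (1 / (1 + (x + s) ^ 2)) := by ring
        _ ≤ C * Real.exp (2 * Real.pi * κ * |y|) * ((2 * (1 + |w| ^ 2)) / (1 + x ^ 2)) := by gcongr
        _ = _ := by ring
    have k1 := key (-w) (by rw [abs_neg])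
    have k2 := key w le_rfl
    have e1 : (((x + -w : ℝ) : ℂ) + y * I) = x + y * I - w := by push_cast; ring
    have e2 : (((x + w : ℝ) : ℂ) + y * I) = x + y * I + w := by push_cast; ring
    rw [e1] at k1
    rw [e2] at k2
    refine (norm_add_le _ _).trans ((add_le_add k1 k2).trans (le_of_eq ?_))
    ring

/-- the self convolution of the hat function -/
noncomputable def cv (k α : ℝ) : ℝ := ∫ β, tr k β * tr k (α - β)

lemma cv_int {k : ℝ} (hk : 0 < k) (α : ℝ) : Integrable fun β => tr k β * tr k (α - β) := by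
  refine Continuous.integrable_of_hasCompactSupport ?_ ((adm_tr hk).hcs.mul_right)
  have := tr_cont k
  fun_prop

lemma FL_cv {k : ℝ} (hk : 0 < k) (z : ℂ) : FL (cv k) z = FL (tr k) z * FL (tr k) z := by
  have hi := int_exp_mul (adm_tr hk) z
  have h1 := integral_convolution (μ := (volume : Measure ℝ)) (ν := (volume : Measure ℝ))
    (ContinuousLinearMap.mul ℝ ℂ) hi hi
  simp only [ContinuousLinearMap.mul_apply'] at h1
  have h2 : FL (tr k) z * FL (tr k) z = (∫ α : ℝ, (tr k α : ℂ) *
    Complex.exp (2 * Real.pi * I * α * z)) * ∫ α : ℝ, (tr k α : ℂ) *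
    Complex.exp (2 * Real.pi * I * α * z) := rfl
  rw [h2, ← h1]
  unfold FL
  refine integral_congr_ae (ae_of_all _ fun α => ?_)
  simp only [convolution_def, ContinuousLinearMap.mul_apply']
  have h3 : ∀ t : ℝ, (tr k t : ℂ) * Complex.exp (2 * Real.pi * I * t * z) *
      ((tr k (α - t) : ℂ) * Complex.exp (2 * Real.pi * I * ((α - t : ℝ) : ℂ) * z)) =
      ((tr k t * tr k (α - t) : ℝ) : ℂ) * Complex.exp (2 * Real.pi * I * α * z) := by
    intro t
    have e : Complex.exp (2 * Real.pi * I * α * z) = Complex.exp (2 * Real.pi * I * t * z) *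
        Complex.exp (2 * Real.pi * I * ((α - t : ℝ) : ℂ) * z) := by
      rw [← Complex.exp_add]
      congr 1
      push_cast; ring
    rw [e]
    push_cast; ring
  simp_rw [h3]
  rw [integral_mul_const, integral_complex_ofReal]
  rfl

lemma cv_even (k α : ℝ) : cv k (-α) = cv k α := by
  unfold cv
  rw [← integral_neg_eq_self (fun β => tr k β * tr k (α - β)) volume]
  refine integral_congr_ae (ae_of_all _ fun β => ?_)
  simp only
  rw [tr_even, show α - -β = -(-α - β) by ring, tr_even]

lemma adm_cv {k : ℝ} (hk : 0 < k) : Adm (2 * k) (cv k) := by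
  refine ⟨cv_even k, ⟨1 / k ^ 2, fun x y => ?_⟩, fun x hx => ?_, ?_⟩
  · unfold cv
    rw [← integral_sub (cv_int hk x) (cv_int hk y)]
    have h1 : ∀ β, ‖tr k β * tr k (x - β) - tr k β * tr k (y - β)‖ ≤
        tr k β * (1 / k ^ 2 * |x - y|) := by
      intro β
      rw [← mul_sub, norm_mul, Real.norm_eq_abs, Real.norm_eq_abs, abs_of_nonneg (tr_nonneg hk _)]
      apply mul_le_mul_of_nonneg_left _ (tr_nonneg hk _)
      have := tr_lip hk (x - β) (y - β)
      rwa [show x - β - (y - β) = x - y by ring] at this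
    have h2 := norm_integral_le_of_norm_le ((tr_int hk).mul_const _) (ae_of_all _ h1)
    rw [integral_mul_const, int_tr hk, one_mul, Real.norm_eq_abs] at h2
    exact h2
  · unfold cv
    rw [integral_eq_zero_of_ae]
    refine ae_of_all _ fun β => ?_
    show tr k β * tr k (x - β) = 0
    rcases le_or_gt k |β| with h | h
    · rw [tr_supp hk β h, zero_mul]
    · rw [tr_supp hk (x - β), mul_zero]
      have := abs_sub_abs_le_abs_sub x β
      linarith
  · obtain ⟨C, hC⟩ := (adm_tr hk).dec
    have hC0 : 0 ≤ C := by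
      have := (norm_nonneg _).trans (hC 0 0)
      simpa using this
    refine ⟨C * C, fun x y => ?_⟩
    rw [FL_cv hk, norm_mul]
    have h1 := hC x y
    have h2 : C * Real.exp (2 * Real.pi * k * |y|) / (1 + x ^ 2) ≤
        C * Real.exp (2 * Real.pi * k * |y|) := by
      apply div_le_self (by positivity)
      nlinarith [sq_nonneg x]
    have e : Real.exp (2 * Real.pi * (2 * k) * |y|) = Real.exp (2 * Real.pi * k * |y|) *
        Real.exp (2 * Real.pi * k * |y|) := by
      rw [← Real.exp_add]; congr 1; ring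
    rw [e]
    calc ‖FL (tr k) (x + y * I)‖ * ‖FL (tr k) (x + y * I)‖ ≤
          (C * Real.exp (2 * Real.pi * k * |y|) / (1 + x ^ 2)) *
          (C * Real.exp (2 * Real.pi * k * |y|)) :=
          mul_le_mul h1 (h1.trans h2) (norm_nonneg _) (by positivity)
      _ = _ := by ring

lemma int_tr_sq {k : ℝ} (hk : 0 < k) : ∫ x, tr k x ^ 2 = 2 / (3 * k) := by
  have hc : Continuous fun x => tr k x ^ 2 := (tr_cont k).pow 2
  rw [int_supp hk (fun x hx => by rw [tr_supp hk x hx]; simp)]
  rw [← intervalIntegral.integral_add_adjacent_intervals (b := 0) (hc.intervalIntegrable _ _)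
    (hc.intervalIntegrable _ _)]
  have h5 : ∫ α in (-k)..0, tr k α ^ 2 = ∫ α in (0 : ℝ)..k, tr k α ^ 2 := by
    have := intervalIntegral.integral_comp_neg (a := (0 : ℝ)) (b := k) (fun x => tr k x ^ 2)
    rw [neg_zero] at this
    rw [← this]
    exact intervalIntegral.integral_congr fun α _ => by simp only [tr_even]
  have h6 : ∫ α in (0 : ℝ)..k, tr k α ^ 2 =
      ∫ α in (0 : ℝ)..k, (1 / k ^ 2 - 2 / k ^ 3 * α + 1 / k ^ 4 * α ^ 2) := by
    refine intervalIntegral.integral_congr fun α hα => ?_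
    rw [uIcc_of_le hk.le] at hα
    show tr k α ^ 2 = 1 / k ^ 2 - 2 / k ^ 3 * α + 1 / k ^ 4 * α ^ 2
    rw [tr_eq hk hα.1 hα.2]
    field_simp
    ring
  have i1 : IntervalIntegrable (fun α : ℝ => 1 / k ^ 2 - 2 / k ^ 3 * α) volume 0 k := by
    apply Continuous.intervalIntegrable; fun_prop
  have i2 : IntervalIntegrable (fun α : ℝ => 1 / k ^ 4 * α ^ 2) volume 0 k := by
    apply Continuous.intervalIntegrable; fun_prop
  rw [h5, h6, intervalIntegral.integral_add i1 i2, intervalIntegral.integral_sub (by simp) (by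
    apply Continuous.intervalIntegrable; fun_prop), intervalIntegral.integral_const,
    intervalIntegral.integral_const_mul, intervalIntegral.integral_const_mul, integral_id,
    integral_pow]
  simp only [sub_zero, smul_eq_mul]
  field_simp
  norm_num

lemma cv_zero {k : ℝ} (hk : 0 < k) : cv k 0 = 2 / (3 * k) := by
  rw [← int_tr_sq hk]
  unfold cv
  refine integral_congr_ae (ae_of_all _ fun β => ?_)
  simp only
  rw [zero_sub, tr_even]; ring

lemma cv_nonneg {k : ℝ} (hk : 0 < k) (α : ℝ) : 0 ≤ cv k α :=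
  integral_nonneg fun _ => mul_nonneg (tr_nonneg hk _) (tr_nonneg hk _)

lemma cv_le {k : ℝ} (hk : 0 < k) (α : ℝ) : cv k α ≤ 2 / (3 * k) := by
  have hi : Integrable fun x => tr k x ^ 2 := by
    refine Continuous.integrable_of_hasCompactSupport ((tr_cont k).pow 2) ?_
    have h := (adm_tr hk).hcs
    have : (fun x => tr k x ^ 2) = fun x => tr k x * tr k x := by ext x; ring
    rw [this]
    exact h.mul_right
  have hi2 : Integrable fun β => tr k (α - β) ^ 2 := hi.comp_sub_left α
  have h1 : cv k α ≤ ∫ β, (1 / 2 * tr k β ^ 2 + 1 / 2 * tr k (α - β) ^ 2) := by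
    refine integral_mono (cv_int hk α) ((hi.const_mul _).add (hi2.const_mul _)) fun β => ?_
    simp only
    nlinarith [sq_nonneg (tr k β - tr k (α - β))]
  rw [integral_add (hi.const_mul _) (hi2.const_mul _), integral_const_mul, integral_const_mul,
    integral_sub_left_eq_self (fun x => tr k x ^ 2) volume α, int_tr_sq hk] at h1
  linarith

/-- the normalised kernel -/
noncomputable def Jk (k α : ℝ) : ℝ := 3 * k / 2 * cv k α

lemma adm_smul (h : Adm κ ψ) (c : ℝ) : Adm κ fun α => c * ψ α := by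
  refine ⟨fun x => by simp only [h.even], ?_, fun x hx => by simp only [h.supp x hx, mul_zero], ?_⟩
  · obtain ⟨K, hK⟩ := h.lip
    refine ⟨|c| * K, fun x y => ?_⟩
    rw [← mul_sub, abs_mul, mul_assoc]
    exact mul_le_mul_of_nonneg_left (hK x y) (abs_nonneg _)
  · obtain ⟨C, hC⟩ := h.dec
    refine ⟨|c| * C, fun x y => ?_⟩
    have e : FL (fun α => c * ψ α) (x + y * I) = (c : ℂ) * FL ψ (x + y * I) := by
      unfold FL
      rw [← integral_const_mul]
      refine integral_congr_ae (ae_of_all _ fun α => ?_)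
      simp only
      push_cast; ring
    rw [e, norm_mul, Complex.norm_real, Real.norm_eq_abs]
    calc |c| * ‖FL ψ (x + y * I)‖ ≤ |c| * (C * Real.exp (2 * Real.pi * κ * |y|) / (1 + x ^ 2)) := by
          gcongr
          exact hC x y
      _ = _ := by ring

lemma adm_Jk {k : ℝ} (hk : 0 < k) : Adm (2 * k) (Jk k) := adm_smul (adm_cv hk) _

lemma Jk_zero {k : ℝ} (hk : 0 < k) : Jk k 0 = 1 := by
  unfold Jk
  rw [cv_zero hk]
  field_simp

lemma Jk_abs {k : ℝ} (hk : 0 < k) (α : ℝ) : |Jk k α| ≤ 1 := by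
  unfold Jk
  have h1 := cv_le hk α
  have h2 := cv_nonneg hk α
  rw [abs_of_nonneg (by positivity)]
  calc 3 * k / 2 * cv k α ≤ 3 * k / 2 * (2 / (3 * k)) := by gcongr
    _ = 1 := by field_simp

lemma fl_smul (c : ℝ) (x : ℝ) : fl (fun α => c * ψ α) x = c * fl ψ x := by
  unfold fl
  rw [← integral_const_mul]
  refine integral_congr_ae (ae_of_all _ fun α => ?_)
  simp only
  ring

lemma fl_Jk {k : ℝ} (hk : 0 < k) (x : ℝ) : fl (Jk k) x = 3 * k / 2 * fl (tr k) x ^ 2 := by
  have h1 : fl (cv k) x = fl (tr k) x ^ 2 := by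
    have h2 := FL_cv hk (x : ℂ)
    rw [FL_real (adm_cv hk).int (adm_cv hk).even, FL_real (tr_int hk) (tr_even k)] at h2
    rw [sq]
    exact_mod_cast h2
  rw [← h1, ← fl_smul]
  rfl

end Pool.Agent.X113.ST
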