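import Pool.Agent.Y749.Rig.FFf
import Pool.Agent.X113.PC2

set_option autoImplicit false

/-! # Upper bounds for the means of the form factor, without the Riemann hypothesis -/

open MeasureTheory Set Filter Topology
open scoped NNReal ENNReal

namespace Pool.Agent.X113.UF

open Pool.Agent.Y749.Rig

/-- the pairing with the hat function of small support, without RH -/
def SmallTest : Prop := ∃ C : ℝ, 0 < C ∧ ∀ k : ℝ, 0 < k → k ≤ 1 / 2 → ∀ ε : ℝ, 0 < ε →
  ∀ᶠ T in atTop, |k * (∫ x, fl (tr k) x ∂(Mp T)) - 1| ≤ C * k ^ 2 + ε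

lemma st_Fr (ST : SmallTest) : ∃ C : ℝ, 0 < C ∧ ∀ k : ℝ, 0 < k → k ≤ 1 / 2 → ∀ ε : ℝ, 0 < ε →
    ∀ᶠ T in atTop, |k * (∫ α, tr k α * Fr T α) - 1| ≤ C * k ^ 2 + ε := by
  obtain ⟨C, hC, h⟩ := ST
  refine ⟨C, hC, fun k hk hk2 ε hε => ?_⟩
  have h1 := ww_remove (fl_cont (tr_int hk)) (fl_qd (adm_tr hk))
  filter_upwards [h k hk hk2 (ε / 2) (by positivity), Metric.tendsto_nhds.1 h1 ε hε] with T h2 h3
  rw [Real.dist_eq, sub_zero] at h3
  rw [Fr_pair (tr_int hk)]
  obtain ⟨a, ha⟩ : ∃ a : ℝ, a = ∫ x, fl (tr k) x * ww (2 * Real.pi * x / Real.log T) ∂(Mp T) :=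
    ⟨_, rfl⟩
  obtain ⟨b, hb⟩ : ∃ b : ℝ, b = ∫ x, fl (tr k) x ∂(Mp T) := ⟨_, rfl⟩
  rw [← ha, ← hb] at h3
  rw [← hb] at h2
  rw [← ha]
  have h4 : |k * a - 1| ≤ |k * b - 1| + k * |a - b| := by
    have e : k * a - 1 = (k * b - 1) + k * (a - b) := by ring
    rw [e]
    refine (abs_add_le _ _).trans ?_
    rw [abs_mul, abs_of_pos hk]
  have h5 : k * |a - b| ≤ 1 / 2 * ε := by
    have := abs_nonneg (a - b)
    nlinarith
  linarith

/-- the mass of the form factor at the origin -/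
lemma near0' (ST : SmallTest) {η : ℝ} (hη : 0 < η) : ∃ δ0 : ℝ, 0 < δ0 ∧ ∀ δ : ℝ, 0 < δ →
    δ ≤ δ0 → ∀ᶠ T in atTop, ∫ α in (-δ)..δ, Fr T α ≤ 1 + η := by
  obtain ⟨C, hC, hst⟩ := st_Fr ST
  obtain ⟨k, hk⟩ : ∃ k : ℝ, k = min (1 / 2) (η / (8 * (C + 1))) := ⟨_, rfl⟩
  have hk0 : 0 < k := by rw [hk]; exact lt_min (by norm_num) (by positivity)
  have hk2 : k ≤ 1 / 2 := by rw [hk]; exact min_le_left _ _
  have hk8' : k ≤ η / (8 * (C + 1)) := by rw [hk]; exact min_le_right _ _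
  have hk8 : (C + 1) * k ≤ η / 8 := by
    rw [le_div_iff₀ (by positivity)] at hk8'
    linarith
  have hk9 : k ≤ η / 8 := by nlinarith
  refine ⟨k ^ 2, by positivity, fun δ hδ hδ2 => ?_⟩
  filter_upwards [hst k hk0 hk2 (k ^ 2) (by positivity), eventually_ge_atTop 10] with T h1' hT
  have h1 : k * (∫ α, tr k α * Fr T α) ≤ 1 + (C + 1) * k ^ 2 := by
    have := (abs_le.1 h1').2
    linarith
  have hF0 := Fr_nonneg hT
  have hFc := Fr_cont T
  have h2 : (1 - k) * ∫ α in (-δ)..δ, Fr T α ≤ k * ∫ α, tr k α * Fr T α := by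
    rw [← integral_const_mul, ← intervalIntegral.integral_const_mul,
      intervalIntegral.integral_of_le (by linarith)]
    have hi : Integrable fun α => k * (tr k α * Fr T α) := by
      refine Continuous.integrable_of_hasCompactSupport ?_ ?_
      · have := tr_cont k
        fun_prop
      · exact ((adm_tr hk0).hcs.mul_right).mul_left
    calc ∫ α in Ioc (-δ) δ, (1 - k) * Fr T α ≤ ∫ α in Ioc (-δ) δ, k * (tr k α * Fr T α) := by
          refine setIntegral_mono_on ?_ hi.integrableOn measurableSet_Ioc fun α hα => ?_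
          · have : Continuous fun α => (1 - k) * Fr T α := by fun_prop
            exact this.continuousOn.integrableOn_Icc.mono_set Ioc_subset_Icc_self
          · rw [← mul_assoc]
            apply mul_le_mul_of_nonneg_right _ (hF0 α)
            have ha : |α| ≤ k ^ 2 := (abs_le.2 ⟨hα.1.le, hα.2⟩).trans hδ2
            unfold tr
            have : |α| / k ≤ k := by
              rw [div_le_iff₀ hk0]
              nlinarith
            rw [max_eq_right (by linarith)]
            rw [mul_div_cancel₀ _ hk0.ne']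
            linarith
      _ ≤ ∫ α, k * (tr k α * Fr T α) := by
          refine setIntegral_le_integral hi (ae_of_all _ fun α => ?_)
          exact mul_nonneg hk0.le (mul_nonneg (tr_nonneg hk0 _) (hF0 _))
  have h3 : (1 - k) * ∫ α in (-δ)..δ, Fr T α ≤ 1 + (C + 1) * k ^ 2 := h2.trans h1
  have h4 : 1 + (C + 1) * k ^ 2 ≤ (1 - k) * (1 + η) := by
    have e1 : (C + 1) * k ^ 2 ≤ η / 8 * (1 / 2) := by
      have : (C + 1) * k ^ 2 = (C + 1) * k * k := by ring
      rw [this]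
      exact mul_le_mul hk8 hk2 hk0.le (by positivity)
    have e2 : k * η ≤ 1 / 2 * η := mul_le_mul_of_nonneg_right hk2 hη.le
    nlinarith
  have h5 : 0 < 1 - k := by linarith
  exact le_of_mul_le_mul_left (h3.trans h4) h5

/-- **An upper bound for the mean of the form factor in a finite range bounds it from below.** -/
theorem quant' (ST : SmallTest) {l : Filter ℝ} (hl : l ≤ atTop) {R : ℝ} (hR : 1 ≤ R)
    (hup : ∀ a b : ℝ, 0 < a → a < b → b ≤ R → ∀ ε : ℝ, 0 < ε → ∀ᶠ T in l,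
      ∫ α in a..b, Fr T α ≤ (∫ α in a..b, mn α) + ε)
    {a b : ℝ} (ha : 0 < a) (hab : a < b) (hbR : b < R) {ε : ℝ} (hε : 0 < ε) :
    ∀ᶠ T in l, (∫ α in a..b, mn α) - 1 / (6 * (R - b)) - ε ≤ ∫ α in a..b, Fr T α := by
  have hR0 : 0 < R := by linarith
  have hG0 : ∀ᶠ T in l, ∀ α, 0 ≤ Fr T α :=
    hl ((eventually_ge_atTop 10).mono fun T hT α => Fr_nonneg hT α)
  obtain ⟨w0, hw0⟩ : ∃ w0 : ℝ, w0 = tr R b := ⟨_, rfl⟩
  have hw0' : w0 = (1 - b / R) / R := by rw [hw0, tr_eq hR0 (by linarith) hbR.le]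
  have hw1 : 0 < w0 := by
    rw [hw0']
    have : b / R < 1 := by rwa [div_lt_one hR0]
    have : 0 < 1 - b / R := by linarith
    positivity
  obtain ⟨e, he⟩ : ∃ e : ℝ, e = ε * w0 / 8 := ⟨_, rfl⟩
  have he0 : 0 < e := by rw [he]; positivity
  -- near zero
  obtain ⟨δ0, hδ0, hnear⟩ := near0' ST (η := R * e) (by positivity)
  obtain ⟨δ, hδ⟩ : ∃ δ : ℝ, δ = min δ0 (a / 2) := ⟨_, rfl⟩
  have hδ1 : 0 < δ := by rw [hδ]; exact lt_min hδ0 (by positivity)
  have hδ2 : δ ≤ δ0 := by rw [hδ]; exact min_le_left _ _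
  have hδ3 : δ < a := by
    have : δ ≤ a / 2 := by rw [hδ]; exact min_le_right _ _
    linarith
  have htc := tr_cont R
  have htn : ∀ x, 0 ≤ tr R x := fun x => tr_nonneg hR0 x
  have mk : ∀ a' b' : ℝ, 0 < a' → a' < b' → b' ≤ R → ∀ {f : ℝ → ℝ}, Continuous f →
      (∀ x ∈ Icc a' b', 0 ≤ f x) → ∀ᶠ T in l,
      ∫ α in a'..b', f α * Fr T α ≤ (∫ α in a'..b', f α * mn α) + e := by
    intro a' b' h1 h2 h3 f hf hf0
    exact up_weight (fun T => Fr_cont T) hG0 mn_cont mn_nonneg h2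
      (fun a'' b'' g1 g2 g3 => hup a'' b'' (h1.trans_le g1) g2 (g3.trans h3)) hf hf0 he0
  have m1 := mk δ a hδ1 hδ3 (by linarith) htc fun x _ => htn x
  have m2 := mk b R (by linarith) hbR le_rfl htc fun x _ => htn x
  have m3 := mk a b ha hab hbR.le (f := fun x => tr R x - w0) (htc.sub continuous_const) (by
    intro x hx
    rw [hw0]
    have h0 : 0 ≤ x := by linarith [hx.1]
    rw [tr_eq hR0 h0 (by linarith [hx.2]), tr_eq hR0 (by linarith) hbR.le]
    have : x / R ≤ b / R := by gcongr; exact hx.2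
    have h3 : (1 - b / R) / R ≤ (1 - x / R) / R := by gcongr
    linarith)
  filter_upwards [m1, m2, m3, hl (hnear δ hδ1 hδ2), hl (diag_low hR0 he0), hG0]
    with T h1 h2 h3 h4 h5 hF0
  have hFc := Fr_cont T
  have hci : ∀ {g : ℝ → ℝ}, Continuous g → ∀ p q : ℝ, IntervalIntegrable g volume p q :=
    fun hg p q => hg.intervalIntegrable p q
  have c1 : Continuous fun α => tr R α * Fr T α := htc.mul hFc
  have c2 : Continuous fun α => tr R α * mn α := htc.mul mn_cont
  -- the decomposition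
  have d1 : ∫ α, tr R α * Fr T α = (∫ α in (-δ)..δ, tr R α * Fr T α) +
      2 * ((∫ α in δ..a, tr R α * Fr T α) + (∫ α in a..b, tr R α * Fr T α) +
        ∫ α in b..R, tr R α * Fr T α) := by
    rw [int_supp hR0 (fun x hx => by rw [tr_supp hR0 x hx, zero_mul])]
    rw [intervalIntegral.integral_add_adjacent_intervals (hci c1 _ _) (hci c1 _ _),
      intervalIntegral.integral_add_adjacent_intervals (hci c1 _ _) (hci c1 _ _)]
    rw [← intervalIntegral.integral_add_adjacent_intervals (a := -R) (b := -δ) (c := R)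
      (hci c1 _ _) (hci c1 _ _), ← intervalIntegral.integral_add_adjacent_intervals (a := -δ)
      (b := δ) (c := R) (hci c1 _ _) (hci c1 _ _)]
    have : ∫ α in (-R)..(-δ), tr R α * Fr T α = ∫ α in δ..R, tr R α * Fr T α := by
      have h6 := intervalIntegral.integral_comp_neg (a := δ) (b := R)
        (fun α => tr R α * Fr T α)
      rw [← h6]
      refine intervalIntegral.integral_congr fun α _ => ?_
      rw [tr_even, Fr_even]
    rw [this]
    ring
  have d2 : ∫ α in (-δ)..δ, tr R α * Fr T α ≤ 1 / R * (1 + R * e) := by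
    calc ∫ α in (-δ)..δ, tr R α * Fr T α ≤ ∫ α in (-δ)..δ, 1 / R * Fr T α := by
          refine intervalIntegral.integral_mono_on (by linarith) (hci c1 _ _)
            (hci (continuous_const.mul hFc) _ _) fun α _ => ?_
          apply mul_le_mul_of_nonneg_right _ (hF0 α)
          unfold tr
          apply div_le_div_of_nonneg_right _ hR0.le
          apply max_le (by norm_num)
          have : 0 ≤ |α| / R := by positivity
          linarith
      _ = 1 / R * ∫ α in (-δ)..δ, Fr T α := intervalIntegral.integral_const_mul _ _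
      _ ≤ _ := by gcongr
  have d3 : ∫ α in (0 : ℝ)..R, tr R α * mn α = (∫ α in (0 : ℝ)..δ, tr R α * mn α) +
      (∫ α in δ..a, tr R α * mn α) + (∫ α in a..b, tr R α * mn α) +
        ∫ α in b..R, tr R α * mn α := by
    rw [intervalIntegral.integral_add_adjacent_intervals (hci c2 _ _) (hci c2 _ _),
      intervalIntegral.integral_add_adjacent_intervals (hci c2 _ _) (hci c2 _ _),
      intervalIntegral.integral_add_adjacent_intervals (hci c2 _ _) (hci c2 _ _)]
  have d4 : 0 ≤ ∫ α in (0 : ℝ)..δ, tr R α * mn α :=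
    intervalIntegral.integral_nonneg hδ1.le fun x _ => mul_nonneg (htn x) (mn_nonneg x)
  rw [tr_mn hR] at d3
  have d5 : ∀ g : ℝ → ℝ, Continuous g → ∫ α in a..b, (tr R α - w0) * g α =
      (∫ α in a..b, tr R α * g α) - w0 * ∫ α in a..b, g α := by
    intro g hg
    have k1 : Continuous fun α => tr R α * g α := htc.mul hg
    have k2 : Continuous fun α => w0 * g α := continuous_const.mul hg
    rw [← intervalIntegral.integral_const_mul,
      ← intervalIntegral.integral_sub (hci k1 _ _) (hci k2 _ _)]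
    refine intervalIntegral.integral_congr fun x _ => ?_
    ring
  rw [d5 _ hFc, d5 _ mn_cont] at h3
  have hRe : 1 / R * (1 + R * e) = 1 / R + e := by field_simp
  rw [hRe] at d2
  have hRR : 1 / (2 * R) = 1 / R / 2 := by field_simp
  rw [hRR] at d3
  -- the weighted lower bound
  have k1 : (∫ α in a..b, tr R α * mn α) - 1 / (6 * R ^ 2) - 3 * e ≤
      ∫ α in a..b, tr R α * Fr T α := by
    linarith
  have k2 : w0 * ((∫ α in a..b, mn α) - 1 / (6 * (R - b)) - ε) ≤ w0 * ∫ α in a..b, Fr T α := by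
    have e1 : w0 * (1 / (6 * (R - b))) = 1 / (6 * R ^ 2) := by
      rw [hw0']
      have : R - b ≠ 0 := by linarith
      field_simp
    have e2 : w0 * ((∫ α in a..b, mn α) - 1 / (6 * (R - b)) - ε) =
        w0 * (∫ α in a..b, mn α) - 1 / (6 * R ^ 2) - 8 * e := by
      rw [mul_sub, mul_sub, e1, he]
      ring
    rw [e2]
    linarith
  exact le_of_mul_le_mul_left k2 hw1

theorem mean_lim' {l : Filter ℝ} (ST : SmallTest) (hl : l ≤ atTop) (h : ∀ R : ℝ, MeanUp l R) :
    MeanLim l := by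
  intro a b ha hab
  rw [tendsto_order]
  constructor
  · intro c hc
    obtain ⟨ε, hε⟩ : ∃ ε : ℝ, ε = ((∫ α in a..b, mn α) - c) / 3 := ⟨_, rfl⟩
    have hε0 : 0 < ε := by rw [hε]; linarith
    obtain ⟨R, hR⟩ : ∃ R : ℝ, R = max 1 (b + 1 + 1 / (6 * ε)) := ⟨_, rfl⟩
    have hR1 : 1 ≤ R := by rw [hR]; exact le_max_left _ _
    have hR2 : b + 1 + 1 / (6 * ε) ≤ R := by rw [hR]; exact le_max_right _ _
    have hpos : 0 < 1 / (6 * ε) := by positivity
    filter_upwards [quant' ST hl hR1 (h R) ha hab (b := b) (by linarith) hε0] with T hT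
    have h1 : 1 / (6 * (R - b)) ≤ ε := by
      have h2 : 1 / (6 * ε) ≤ R - b := by linarith
      rw [div_le_iff₀ (by positivity)] at h2
      rw [div_le_iff₀ (by nlinarith)]
      linarith
    linarith
  · intro c hc
    filter_upwards [h b a b ha hab le_rfl (((c - ∫ α in a..b, mn α)) / 2) (by linarith)] with T hT
    linarith


lemma all_core {l : Filter ℝ} (ST : SmallTest) (hl : l ≤ atTop) (h : MeanLim l) {ψ : ℝ → ℝ}
    {κ : ℝ} (hψ : Adm κ ψ) (hκ : 0 < κ) {k : ℝ} (hk0 : 0 < k) (hk2 : k ≤ 1 / 2) (hkκ : k ≤ κ) :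
    Tendsto (fun T => (∫ α, ψ α * Fr T α) - ψ 0 * k * ∫ α, tr k α * Fr T α) l
      (𝓝 ((∫ α, ψ α * mn α) - ψ 0 * k * ∫ α, tr k α * mn α)) := by
  have hG0 : ∀ᶠ T in l, ∀ α, 0 ≤ Fr T α :=
    hl ((eventually_ge_atTop 10).mono fun T hT α => Fr_nonneg hT α)
  obtain ⟨c0, hc0⟩ : ∃ c0 : ℝ, c0 = ψ 0 * k := ⟨_, rfl⟩
  obtain ⟨ψ₁, hψ₁⟩ : ∃ ψ₁ : ℝ → ℝ, ∀ α, ψ₁ α = ψ α - c0 * tr k α := ⟨_, fun α => rfl⟩
  obtain ⟨K1, hK1⟩ := hψ.lip
  obtain ⟨K, hK⟩ : ∃ K : ℝ, K = K1 + |c0| * (1 / k ^ 2) := ⟨_, rfl⟩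
  have hK10 : 0 ≤ K1 := by
    have := (abs_nonneg _).trans (hK1 1 0)
    simpa using this
  have hK0 : 0 ≤ K := by rw [hK]; positivity
  have hψc : Continuous ψ₁ := by
    have h1 := hψ.cont
    have h2 := tr_cont k
    have : ψ₁ = fun α => ψ α - c0 * tr k α := funext hψ₁
    rw [this]
    fun_prop
  have hψ0 : ψ₁ 0 = 0 := by
    rw [hψ₁, hc0]
    have e1 : tr k 0 = 1 / k := by unfold tr; simp
    rw [e1]
    field_simp
    ring
  have hψe : ∀ α, ψ₁ (-α) = ψ₁ α := fun α => by rw [hψ₁, hψ₁, hψ.even, tr_even]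
  have hψs : ∀ α, κ ≤ |α| → ψ₁ α = 0 := fun α hα => by
    rw [hψ₁, hψ.supp α hα, tr_supp hk0 α (hkκ.trans hα)]; simp
  have hψK : ∀ α, |ψ₁ α| ≤ K * |α| := by
    intro α
    have h1 : ψ₁ α = (ψ α - ψ 0) - c0 * (tr k α - tr k 0) := by
      have h2 := hψ0
      rw [hψ₁] at h2
      rw [hψ₁]
      linarith
    rw [h1]
    refine (abs_sub _ _).trans ?_
    rw [abs_mul]
    have h2 := hK1 α 0
    have h3 := tr_lip hk0 α 0
    rw [sub_zero] at h2 h3
    calc |ψ α - ψ 0| + |c0| * |tr k α - tr k 0| ≤ K1 * |α| + |c0| * (1 / k ^ 2 * |α|) := by gcongr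
      _ = _ := by rw [hK]; ring
  -- reduction to ψ₁
  have hi1 : ∀ {g : ℝ → ℝ}, Continuous g → Integrable fun α => ψ₁ α * g α := by
    intro g hg
    refine Continuous.integrable_of_hasCompactSupport (hψc.mul hg) ?_
    refine HasCompactSupport.of_support_subset_isCompact (isCompact_Icc (a := -κ) (b := κ)) ?_
    intro x hx
    by_contra hcon
    apply hx
    have : ψ₁ x = 0 := by
      apply hψs
      by_contra h2
      push Not at h2
      exact hcon ⟨(abs_lt.1 h2).1.le, (abs_lt.1 h2).2.le⟩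
    show ψ₁ x * g x = 0
    rw [this, zero_mul]
  have hi2 : ∀ {g : ℝ → ℝ}, Continuous g → Integrable fun α => tr k α * g α := by
    intro g hg
    exact Continuous.integrable_of_hasCompactSupport ((tr_cont k).mul hg)
      ((adm_tr hk0).hcs.mul_right)
  have hdec : ∀ {g : ℝ → ℝ}, Continuous g → ∫ α, ψ α * g α =
      (∫ α, ψ₁ α * g α) + c0 * ∫ α, tr k α * g α := by
    intro g hg
    rw [← integral_const_mul, ← integral_add (hi1 hg) ((hi2 hg).const_mul _)]
    refine integral_congr_ae (ae_of_all _ fun α => ?_)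
    simp only
    rw [hψ₁]
    ring
  have hmain : Tendsto (fun T => ∫ α, ψ₁ α * Fr T α) l (𝓝 (∫ α, ψ₁ α * mn α)) := by
    rw [Metric.tendsto_nhds]
    intro ε hε
    obtain ⟨δ0, hδ0, hnear⟩ := near0' ST (η := 1) one_pos
    obtain ⟨δ, hδ⟩ : ∃ δ : ℝ, δ = min δ0 (min (κ / 2) (min 1 (ε / (8 * (K + 1))))) := ⟨_, rfl⟩
    have hδ1 : 0 < δ := by
      rw [hδ]
      exact lt_min hδ0 (lt_min (by positivity) (lt_min one_pos (by positivity)))
    have hδ2 : δ ≤ δ0 := by rw [hδ]; exact min_le_left _ _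
    have hδ3 : δ < κ := by
      have : δ ≤ κ / 2 := by rw [hδ]; exact (min_le_right _ _).trans (min_le_left _ _)
      linarith
    have hδ4 : δ ≤ 1 := by
      rw [hδ]; exact (min_le_right _ _).trans ((min_le_right _ _).trans (min_le_left _ _))
    have hδ5 : δ ≤ ε / (8 * (K + 1)) := by
      rw [hδ]; exact (min_le_right _ _).trans ((min_le_right _ _).trans (min_le_right _ _))
    have hKδ : K * δ ≤ ε / 8 := by
      calc K * δ ≤ (K + 1) * (ε / (8 * (K + 1))) := by gcongr; linarith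
        _ = ε / 8 := by field_simp
    have h2 := two_weight (fun T => Fr_cont T) hG0 mn_cont mn_nonneg hδ3
      (fun a' b' g1 g2 g3 => h a' b' (hδ1.trans_le g1) g2) hψc
    filter_upwards [Metric.tendsto_nhds.1 h2 (ε / 8) (by positivity), hl (hnear δ hδ1 hδ2), hG0]
      with T t1 t2 hF0
    rw [Real.dist_eq] at t1 ⊢
    have hFc := Fr_cont T
    have split : ∀ {g : ℝ → ℝ}, Continuous g → (∀ α, g (-α) = g α) → ∫ α, ψ₁ α * g α =
        (∫ α in (-δ)..δ, ψ₁ α * g α) + 2 * ∫ α in δ..κ, ψ₁ α * g α := by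
      intro g hg hge
      have c1 : Continuous fun α => ψ₁ α * g α := hψc.mul hg
      rw [int_supp hκ (fun x hx => by rw [hψs x hx, zero_mul]),
        ← intervalIntegral.integral_add_adjacent_intervals (a := -κ) (b := -δ) (c := κ)
        (c1.intervalIntegrable _ _) (c1.intervalIntegrable _ _),
        ← intervalIntegral.integral_add_adjacent_intervals (a := -δ)
        (b := δ) (c := κ) (c1.intervalIntegrable _ _) (c1.intervalIntegrable _ _)]
      have : ∫ α in (-κ)..(-δ), ψ₁ α * g α = ∫ α in δ..κ, ψ₁ α * g α := by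
        have h6 := intervalIntegral.integral_comp_neg (a := δ) (b := κ)
          (fun α => ψ₁ α * g α)
        rw [← h6]
        refine intervalIntegral.integral_congr fun α _ => ?_
        rw [hψe, hge]
      rw [this]
      ring
    rw [split hFc (Fr_even T), split mn_cont mn_even]
    have small : ∀ {g : ℝ → ℝ}, Continuous g → (∀ α, 0 ≤ g α) →
        |∫ α in (-δ)..δ, ψ₁ α * g α| ≤ K * δ * ∫ α in (-δ)..δ, g α := by
      intro g hg hg0
      have hle : -δ ≤ δ := by linarith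
      rw [← intervalIntegral.integral_const_mul]
      refine (intervalIntegral.abs_integral_le_integral_abs hle).trans ?_
      refine intervalIntegral.integral_mono_on hle ?_ ?_ fun α hα => ?_
      · exact ((hψc.mul hg).abs).intervalIntegrable _ _
      · exact (continuous_const.mul hg).intervalIntegrable _ _
      · rw [abs_mul, abs_of_nonneg (hg0 α)]
        apply mul_le_mul_of_nonneg_right _ (hg0 α)
        have : |α| ≤ δ := abs_le.2 ⟨hα.1, hα.2⟩
        exact (hψK α).trans (by gcongr)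
    have s1 := small hFc hF0
    have s2 := small mn_cont mn_nonneg
    have s3 : ∫ α in (-δ)..δ, mn α ≤ 2 := by
      calc ∫ α in (-δ)..δ, mn α ≤ ∫ α in (-δ)..δ, (1 : ℝ) :=
            intervalIntegral.integral_mono_on (by linarith) (mn_cont.intervalIntegrable _ _)
              (by simp) fun α _ => mn_le α
        _ = 2 * δ := by simp; ring
        _ ≤ 2 := by linarith
    have hKδ0 : 0 ≤ K * δ := by positivity
    have s4 : |∫ α in (-δ)..δ, ψ₁ α * Fr T α| ≤ ε / 4 := by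
      refine s1.trans ?_
      calc K * δ * ∫ α in (-δ)..δ, Fr T α ≤ ε / 8 * (1 + 1) := by
            apply mul_le_mul hKδ t2 _ (by positivity)
            exact intervalIntegral.integral_nonneg (by linarith) fun x _ => hF0 x
        _ = _ := by ring
    have s5 : |∫ α in (-δ)..δ, ψ₁ α * mn α| ≤ ε / 4 := by
      refine s2.trans ?_
      calc K * δ * ∫ α in (-δ)..δ, mn α ≤ ε / 8 * 2 := by
            apply mul_le_mul hKδ s3 _ (by positivity)
            exact intervalIntegral.integral_nonneg (by linarith) fun x _ => mn_nonneg x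
        _ = _ := by ring
    rw [abs_le] at s4 s5
    rw [abs_lt] at t1 ⊢
    constructor <;> linarith [s4.1, s4.2, s5.1, s5.2, t1.1, t1.2]
  have e0 : ∀ {g : ℝ → ℝ}, Continuous g → (∫ α, ψ α * g α) - ψ 0 * k * ∫ α, tr k α * g α =
      ∫ α, ψ₁ α * g α := by
    intro g hg
    rw [hdec hg, hc0]
    ring
  rw [e0 mn_cont]
  refine hmain.congr fun T => ?_
  rw [e0 (Fr_cont T)]

/-- the limits of the pairings with all test functions -/
theorem all_test' {l : Filter ℝ} (ST : SmallTest) (hl : l ≤ atTop) (h : MeanLim l) {ψ : ℝ → ℝ}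
    {κ : ℝ} (hψ : Adm κ ψ) (hκ : 0 < κ) :
    Tendsto (fun T => ∫ α, ψ α * Fr T α) l (𝓝 (ψ 0 + ∫ α, mn α * ψ α)) := by
  obtain ⟨C, hC, hst⟩ := st_Fr ST
  rw [Metric.tendsto_nhds]
  intro ε hε
  obtain ⟨e, he⟩ : ∃ e : ℝ, e = ε / (4 * (|ψ 0| + 1)) := ⟨_, rfl⟩
  have he0 : 0 < e := by rw [he]; positivity
  have he1 : |ψ 0| * e ≤ ε / 4 := by
    have : (|ψ 0| + 1) * e = ε / 4 := by rw [he]; field_simp
    nlinarith
  obtain ⟨k, hk⟩ : ∃ k : ℝ, k = min (1 / 2) (min κ (e / (C + 2))) := ⟨_, rfl⟩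
  have hk0 : 0 < k := by
    rw [hk]; exact lt_min (by norm_num) (lt_min hκ (by positivity))
  have hk2 : k ≤ 1 / 2 := by rw [hk]; exact min_le_left _ _
  have hkκ : k ≤ κ := by rw [hk]; exact (min_le_right _ _).trans (min_le_left _ _)
  have hke : (C + 2) * k ≤ e := by
    have : k ≤ e / (C + 2) := by rw [hk]; exact (min_le_right _ _).trans (min_le_right _ _)
    rw [le_div_iff₀ (by positivity)] at this
    linarith
  have h1 := all_core ST hl h hψ hκ hk0 hk2 hkκ
  filter_upwards [Metric.tendsto_nhds.1 h1 (ε / 4) (by positivity),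
    hl (hst k hk0 hk2 k hk0)] with T h2 h3
  rw [Real.dist_eq] at h2 ⊢
  obtain ⟨A, hA⟩ : ∃ A : ℝ, A = ∫ α, ψ α * Fr T α := ⟨_, rfl⟩
  obtain ⟨B, hB⟩ : ∃ B : ℝ, B = ∫ α, tr k α * Fr T α := ⟨_, rfl⟩
  obtain ⟨D, hD⟩ : ∃ D : ℝ, D = ∫ α, ψ α * mn α := ⟨_, rfl⟩
  obtain ⟨E, hE⟩ : ∃ E : ℝ, E = ∫ α, tr k α * mn α := ⟨_, rfl⟩
  have hD' : ∫ α, mn α * ψ α = D := by rw [hD]; simp_rw [mul_comm]
  have hE0 : 0 ≤ E := by
    rw [hE]
    exact integral_nonneg fun α => mul_nonneg (tr_nonneg hk0 _) (mn_nonneg _)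
  have hE1 : E ≤ 1 := by
    rw [hE, ← int_tr hk0]
    refine integral_mono ?_ (tr_int hk0) fun α => ?_
    · exact Continuous.integrable_of_hasCompactSupport ((tr_cont k).mul mn_cont)
        ((adm_tr hk0).hcs.mul_right)
    · have := mul_le_mul_of_nonneg_left (mn_le α) (tr_nonneg hk0 α)
      simpa using this
  rw [hD', ← hA]
  rw [← hA, ← hB, ← hD, ← hE] at h2
  rw [← hB] at h3
  have e1 : A - (ψ 0 + D) = (A - ψ 0 * k * B - (D - ψ 0 * k * E)) + ψ 0 * (k * B - 1) -
      ψ 0 * (k * E) := by ring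
  have h4 : |ψ 0 * (k * B - 1)| ≤ |ψ 0| * (C * k + k) := by
    rw [abs_mul]
    refine mul_le_mul_of_nonneg_left (h3.trans ?_) (abs_nonneg _)
    have : C * k ^ 2 ≤ C * k := by
      apply mul_le_mul_of_nonneg_left _ hC.le
      nlinarith
    linarith
  have h5 : |ψ 0 * (k * E)| ≤ |ψ 0| * k := by
    rw [abs_mul, abs_of_nonneg (by positivity : 0 ≤ k * E)]
    refine mul_le_mul_of_nonneg_left ?_ (abs_nonneg _)
    nlinarith
  have h6 : |ψ 0| * (C * k + k) + |ψ 0| * k ≤ ε / 4 := by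
    calc |ψ 0| * (C * k + k) + |ψ 0| * k = |ψ 0| * ((C + 2) * k) := by ring
      _ ≤ |ψ 0| * e := by gcongr
      _ ≤ _ := he1
  rw [e1]
  calc _ ≤ |A - ψ 0 * k * B - (D - ψ 0 * k * E) + ψ 0 * (k * B - 1)| + |ψ 0 * (k * E)| :=
        abs_sub _ _
    _ ≤ |A - ψ 0 * k * B - (D - ψ 0 * k * E)| + |ψ 0 * (k * B - 1)| + |ψ 0 * (k * E)| := by
        gcongr
        exact abs_add_le _ _
    _ < _ := by linarith

theorem weak_mean' {l : Filter ℝ} (ST : SmallTest) (hl : l ≤ atTop) (h : MeanLim l) : Weak l := by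
  obtain ⟨C, hC, hB⟩ := Mp_bdd
  refine weak_of hl fun U hU μ hμ => ?_
  have hUt : (U : Filter ℝ) ≤ atTop := hU.trans hl
  have b1 := bdd_limit hUt (by linarith) hB hμ
  have e1 := ev_limit hUt ((eventually_ge_atTop 10).mono fun T hT => Mp_ev hT) hμ
  refine meas_eq (by linarith) b1 e1 fun κ hκ ψ hψ => ?_
  have h1 := (all_test' ST hl h hψ hκ).mono_left hU
  have h2 := Fr_lim' hψ.int (fl_qd hψ) hUt h1
  rw [gue2 hψ]
  exact tendsto_nhds_unique (hμ _ (fl_cont hψ.int) (fl_qd hψ)).2 h2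


end Pool.Agent.X113.UF
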