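import Pool.Agent.X113.ST1
import Pool.Agent.X113.UF2

set_option autoImplicit false

/-! # The pairing with test functions when the means are bounded from above in a finite range -/

open MeasureTheory Set Filter Topology

namespace Pool.Agent.X113.ST

open Pool.Agent.Y749.Rig
open Pool.Agent.X113.UF

/-- the mass of the form factor at the origin, two sides -/
lemma near_two (ST : SmallTest) {l : Filter ℝ} (hl : l ≤ atTop) {R : ℝ} (hR : 1 ≤ R)
    (hup : MeanUp l R) {η : ℝ} (hη : 0 < η) : ∃ δ0 : ℝ, 0 < δ0 ∧ ∀ δ : ℝ, 0 < δ →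
    δ ≤ δ0 → ∀ᶠ T in l, |(∫ α in (-δ)..δ, Fr T α) - 1| ≤ η := by
  obtain ⟨δ1, hδ1, h1⟩ := near0' ST hη
  obtain ⟨C, hC, h2⟩ := st_Fr ST
  obtain ⟨k, hk⟩ : ∃ k : ℝ, k = min (1 / 2) (η / (4 * (C + 2))) := ⟨_, rfl⟩
  have hk0 : 0 < k := by rw [hk]; exact lt_min (by norm_num) (by positivity)
  have hk2 : k ≤ 1 / 2 := by rw [hk]; exact min_le_left _ _
  have hk3 : k ≤ η / (4 * (C + 2)) := by rw [hk]; exact min_le_right _ _
  have hkη : (C + 2) * k ≤ η / 4 := by
    rw [le_div_iff₀ (by positivity)] at hk3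
    linarith
  refine ⟨min δ1 (k / 2), lt_min hδ1 (by positivity), fun δ hδ hδ2 => ?_⟩
  have hδa : δ ≤ δ1 := hδ2.trans (min_le_left _ _)
  have hδb : δ < k := by
    have := hδ2.trans (min_le_right _ _)
    linarith
  filter_upwards [hl (h1 δ hδ hδa), hl (h2 k hk0 hk2 (η / 4) (by positivity)),
    hup δ k hδ hδb (by linarith) (η / 8) (by positivity), hl (eventually_ge_atTop 10)]
    with T t1 t2 t3 hT
  have hF0 := Fr_nonneg hT
  have hFc := Fr_cont T
  have htc := tr_cont k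
  have c1 : Continuous fun α => k * (tr k α * Fr T α) := by fun_prop
  have hle : ∀ α, k * tr k α ≤ 1 := by
    intro α
    unfold tr
    rw [mul_div_cancel₀ _ hk0.ne']
    apply max_le (by norm_num)
    have : 0 ≤ |α| / k := by positivity
    linarith
  have d1 : k * (∫ α, tr k α * Fr T α) = (∫ α in (-δ)..δ, k * (tr k α * Fr T α)) +
      2 * ∫ α in δ..k, k * (tr k α * Fr T α) := by
    rw [← integral_const_mul, int_supp hk0 (fun x hx => by rw [tr_supp hk0 x hx]; simp),
      ← intervalIntegral.integral_add_adjacent_intervals (a := -k) (b := -δ) (c := k)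
      (c1.intervalIntegrable _ _) (c1.intervalIntegrable _ _),
      ← intervalIntegral.integral_add_adjacent_intervals (a := -δ)
      (b := δ) (c := k) (c1.intervalIntegrable _ _) (c1.intervalIntegrable _ _)]
    have : ∫ α in (-k)..(-δ), k * (tr k α * Fr T α) = ∫ α in δ..k, k * (tr k α * Fr T α) := by
      have h6 := intervalIntegral.integral_comp_neg (a := δ) (b := k)
        (fun α => k * (tr k α * Fr T α))
      rw [← h6]
      refine intervalIntegral.integral_congr fun α _ => ?_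
      rw [tr_even, Fr_even]
    rw [this]
    ring
  have d2 : ∀ a b : ℝ, a ≤ b → ∫ α in a..b, k * (tr k α * Fr T α) ≤ ∫ α in a..b, Fr T α := by
    intro a b hab
    refine intervalIntegral.integral_mono_on hab (c1.intervalIntegrable _ _)
      (hFc.intervalIntegrable _ _) fun α _ => ?_
    rw [← mul_assoc]
    exact mul_le_of_le_one_left (hF0 α) (hle α)
  have d3 := d2 (-δ) δ (by linarith)
  have d4 := d2 δ k hδb.le
  have d5 : ∫ α in δ..k, mn α ≤ k ^ 2 := by
    calc ∫ α in δ..k, mn α ≤ ∫ α in δ..k, k := by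
          refine intervalIntegral.integral_mono_on hδb.le (mn_cont.intervalIntegrable _ _)
            (by simp) fun α hα => ?_
          unfold mn
          exact (min_le_left _ _).trans (abs_le.2 ⟨by linarith [hα.1], hα.2⟩)
      _ = (k - δ) * k := by simp
      _ ≤ _ := by nlinarith
  have d6 : C * k ^ 2 + 2 * k ^ 2 ≤ η / 8 := by
    calc C * k ^ 2 + 2 * k ^ 2 = ((C + 2) * k) * k := by ring
      _ ≤ (η / 4) * (1 / 2) := mul_le_mul hkη hk2 hk0.le (by positivity)
      _ = _ := by ring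
  have t2' := (abs_le.1 t2).1
  rw [d1] at t2'
  rw [abs_le]
  constructor <;> linarith

/-- **the pairing estimate** -/
theorem pair_est (ST : SmallTest) {l : Filter ℝ} (hl : l ≤ atTop) {R : ℝ} (hR : 1 ≤ R)
    (hup : MeanUp l R) {ψ : ℝ → ℝ} {κ : ℝ} (hψ : Adm κ ψ) (hκ0 : 0 < κ) (hκR : κ < R) {M : ℝ}
    (hM : ∀ α, |ψ α| ≤ M) {ε : ℝ} (hε : 0 < ε) : ∀ᶠ T in l,
    |(∫ x, fl ψ x ∂(Mp T)) - ∫ x, fl ψ x ∂mG| ≤ M / (3 * (R - κ)) + ε := by
  have hG0 : ∀ᶠ T in l, ∀ α, 0 ≤ Fr T α :=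
    hl ((eventually_ge_atTop 10).mono fun T hT α => Fr_nonneg hT α)
  have hM0 : 0 ≤ M := (abs_nonneg _).trans (hM 0)
  obtain ⟨L, hL⟩ := hψ.lip
  have hL0 : 0 ≤ L := by
    have := (abs_nonneg _).trans (hL 1 0)
    simpa using this
  obtain ⟨e, he⟩ : ∃ e : ℝ, e = ε / (16 * (M + L + 1)) := ⟨_, rfl⟩
  have he0 : 0 < e := by rw [he]; positivity
  have he1 : (M + L + 1) * e = ε / 16 := by rw [he]; field_simp
  obtain ⟨δ0, hδ0, hnear⟩ := near_two ST hl hR hup he0
  obtain ⟨δ, hδ⟩ : ∃ δ : ℝ, δ = min δ0 (min (κ / 2) (min 1 e)) := ⟨_, rfl⟩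
  have hδ1 : 0 < δ := by
    rw [hδ]; exact lt_min hδ0 (lt_min (by positivity) (lt_min one_pos he0))
  have hδ2 : δ ≤ δ0 := by rw [hδ]; exact min_le_left _ _
  have hδ3 : δ < κ := by
    have : δ ≤ κ / 2 := by rw [hδ]; exact (min_le_right _ _).trans (min_le_left _ _)
    linarith
  have hδ4 : δ ≤ 1 := by
    rw [hδ]; exact (min_le_right _ _).trans ((min_le_right _ _).trans (min_le_left _ _))
  have hδ5 : δ ≤ e := by
    rw [hδ]; exact (min_le_right _ _).trans ((min_le_right _ _).trans (min_le_right _ _))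
  have hψc := hψ.cont
  have mk : ∀ {f : ℝ → ℝ}, Continuous f → (∀ x ∈ Icc δ κ, 0 ≤ f x) → ∀ᶠ T in l,
      ∫ α in δ..κ, f α * Fr T α ≤ (∫ α in δ..κ, f α * mn α) + e := by
    intro f hf hf0
    exact up_weight (fun T => Fr_cont T) hG0 mn_cont mn_nonneg hδ3
      (fun a'' b'' g1 g2 g3 => hup a'' b'' (hδ1.trans_le g1) g2 (g3.trans hκR.le)) hf hf0 he0
  have u1 := mk (f := fun α => M + ψ α) (continuous_const.add hψc) (fun x _ => by
    linarith [(abs_le.1 (hM x)).1])
  have u2 := mk (f := fun α => M - ψ α) (continuous_const.sub hψc) (fun x _ => by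
    linarith [(abs_le.1 (hM x)).2])
  have u3 := quant' ST hl hR hup hδ1 hδ3 hκR he0
  have h1 := ww_remove (fl_cont hψ.int) (fl_qd hψ)
  filter_upwards [u1, u2, u3, hnear δ hδ1 hδ2, hG0,
    hl (Metric.tendsto_nhds.1 h1 (ε / 4) (by positivity))] with T t1 t2 t3 t4 hF0 t5
  rw [Real.dist_eq, sub_zero] at t5
  rw [← Fr_pair hψ.int] at t5
  have hFc := Fr_cont T
  have e1 : ∀ g : ℝ → ℝ, Continuous g → ∫ α in δ..κ, (M + ψ α) * g α =
      M * (∫ α in δ..κ, g α) + ∫ α in δ..κ, ψ α * g α := by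
    intro g hg
    have d1 : Continuous fun α => ψ α * g α := hψc.mul hg
    have d2 : Continuous fun α => M * g α := continuous_const.mul hg
    rw [← intervalIntegral.integral_const_mul,
      ← intervalIntegral.integral_add (d2.intervalIntegrable _ _) (d1.intervalIntegrable _ _)]
    refine intervalIntegral.integral_congr fun x _ => ?_
    ring
  have e2 : ∀ g : ℝ → ℝ, Continuous g → ∫ α in δ..κ, (M - ψ α) * g α =
      M * (∫ α in δ..κ, g α) - ∫ α in δ..κ, ψ α * g α := by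
    intro g hg
    have d1 : Continuous fun α => ψ α * g α := hψc.mul hg
    have d2 : Continuous fun α => M * g α := continuous_const.mul hg
    rw [← intervalIntegral.integral_const_mul,
      ← intervalIntegral.integral_sub (d2.intervalIntegrable _ _) (d1.intervalIntegrable _ _)]
    refine intervalIntegral.integral_congr fun x _ => ?_
    ring
  rw [e1 _ hFc, e1 _ mn_cont] at t1
  rw [e2 _ hFc, e2 _ mn_cont] at t2
  have split : ∀ {g : ℝ → ℝ}, Continuous g → (∀ α, g (-α) = g α) → ∫ α, ψ α * g α =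
      (∫ α in (-δ)..δ, ψ α * g α) + 2 * ∫ α in δ..κ, ψ α * g α := by
    intro g hg hge
    have c1 : Continuous fun α => ψ α * g α := hψc.mul hg
    rw [int_supp hκ0 (fun x hx => by rw [hψ.supp x hx, zero_mul]),
      ← intervalIntegral.integral_add_adjacent_intervals (a := -κ) (b := -δ) (c := κ)
      (c1.intervalIntegrable _ _) (c1.intervalIntegrable _ _),
      ← intervalIntegral.integral_add_adjacent_intervals (a := -δ)
      (b := δ) (c := κ) (c1.intervalIntegrable _ _) (c1.intervalIntegrable _ _)]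
    have : ∫ α in (-κ)..(-δ), ψ α * g α = ∫ α in δ..κ, ψ α * g α := by
      have h6 := intervalIntegral.integral_comp_neg (a := δ) (b := κ)
        (fun α => ψ α * g α)
      rw [← h6]
      refine intervalIntegral.integral_congr fun α _ => ?_
      rw [hψ.even, hge]
    rw [this]
    ring
  have s0 : |(∫ α in (-δ)..δ, ψ α * Fr T α) - ψ 0| ≤ (2 * L + M) * e := by
    have c1 : Continuous fun α => ψ α * Fr T α := hψc.mul hFc
    have c2 : Continuous fun α => ψ 0 * Fr T α := continuous_const.mul hFc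
    have d1 : (∫ α in (-δ)..δ, ψ α * Fr T α) - ψ 0 =
        (∫ α in (-δ)..δ, (ψ α - ψ 0) * Fr T α) + ψ 0 * ((∫ α in (-δ)..δ, Fr T α) - 1) := by
      have : ∫ α in (-δ)..δ, (ψ α - ψ 0) * Fr T α =
          (∫ α in (-δ)..δ, ψ α * Fr T α) - ψ 0 * ∫ α in (-δ)..δ, Fr T α := by
        rw [← intervalIntegral.integral_const_mul, ← intervalIntegral.integral_sub
          (c1.intervalIntegrable _ _) (c2.intervalIntegrable _ _)]
        refine intervalIntegral.integral_congr fun x _ => ?_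
        ring
      rw [this]
      ring
    rw [d1]
    refine (abs_add_le _ _).trans ?_
    have hle : -δ ≤ δ := by linarith
    have hF1 : ∫ α in (-δ)..δ, Fr T α ≤ 1 + e := by linarith [(abs_le.1 t4).2]
    have he2 : e ≤ 1 ∨ 1 < e := le_or_gt _ _
    have d2 : |∫ α in (-δ)..δ, (ψ α - ψ 0) * Fr T α| ≤ L * δ * ∫ α in (-δ)..δ, Fr T α := by
      rw [← intervalIntegral.integral_const_mul]
      refine (intervalIntegral.abs_integral_le_integral_abs hle).trans ?_
      refine intervalIntegral.integral_mono_on hle ?_ ?_ fun α hα => ?_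
      · exact (((hψc.sub continuous_const).mul hFc).abs).intervalIntegrable _ _
      · exact (continuous_const.mul hFc).intervalIntegrable _ _
      · rw [abs_mul, abs_of_nonneg (hF0 α)]
        apply mul_le_mul_of_nonneg_right _ (hF0 α)
        have h3 : |α| ≤ δ := abs_le.2 ⟨hα.1, hα.2⟩
        have h4 := hL α 0
        rw [sub_zero] at h4
        exact h4.trans (by gcongr)
    have hFn : 0 ≤ ∫ α in (-δ)..δ, Fr T α :=
      intervalIntegral.integral_nonneg hle fun x _ => hF0 x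
    have d3 : L * δ * ∫ α in (-δ)..δ, Fr T α ≤ 2 * L * e := by
      calc L * δ * ∫ α in (-δ)..δ, Fr T α ≤ L * δ * (1 + e) := by gcongr
        _ = L * (δ + δ * e) := by ring
        _ ≤ L * (e + 1 * e) := by gcongr
        _ = _ := by ring
    have d4 : |ψ 0 * ((∫ α in (-δ)..δ, Fr T α) - 1)| ≤ M * e := by
      rw [abs_mul]
      exact mul_le_mul (hM 0) t4 (abs_nonneg _) hM0
    calc _ ≤ 2 * L * e + M * e := add_le_add (d2.trans d3) d4
      _ = _ := by ring
  have s1 : |∫ α in (-δ)..δ, ψ α * mn α| ≤ 2 * M * e := by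
    have := intervalIntegral.norm_integral_le_of_norm_le_const (a := -δ) (b := δ) (C := M)
      (f := fun α => ψ α * mn α) (fun α _ => by
        rw [Real.norm_eq_abs, abs_mul, abs_of_nonneg (mn_nonneg α)]
        calc |ψ α| * mn α ≤ M * 1 := mul_le_mul (hM α) (mn_le α) (mn_nonneg α) hM0
          _ = M := mul_one _)
    rw [Real.norm_eq_abs, abs_of_nonneg (by linarith : 0 ≤ δ - -δ)] at this
    calc _ ≤ M * (δ - -δ) := this
      _ = 2 * M * δ := by ring
      _ ≤ _ := by gcongr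
  have hG : ∫ x, fl ψ x ∂mG = ψ 0 + ∫ α, ψ α * mn α := by
    rw [gue2 hψ]
    congr 1
    refine integral_congr_ae (ae_of_all _ fun α => ?_)
    simp only
    ring
  rw [hG, split mn_cont mn_even]
  rw [split hFc (Fr_even T)] at t5
  have hRk : 0 < R - κ := by linarith
  -- abstract the integrals
  obtain ⟨A1, hA1⟩ : ∃ A : ℝ, A = ∫ α in δ..κ, Fr T α := ⟨_, rfl⟩
  obtain ⟨A2, hA2⟩ : ∃ A : ℝ, A = ∫ α in δ..κ, mn α := ⟨_, rfl⟩
  obtain ⟨B1, hB1⟩ : ∃ A : ℝ, A = ∫ α in δ..κ, ψ α * Fr T α := ⟨_, rfl⟩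
  obtain ⟨B2, hB2⟩ : ∃ A : ℝ, A = ∫ α in δ..κ, ψ α * mn α := ⟨_, rfl⟩
  obtain ⟨D1, hD1⟩ : ∃ A : ℝ, A = ∫ α in (-δ)..δ, ψ α * Fr T α := ⟨_, rfl⟩
  obtain ⟨D2, hD2⟩ : ∃ A : ℝ, A = ∫ α in (-δ)..δ, ψ α * mn α := ⟨_, rfl⟩
  rw [← hA1, ← hA2] at t3
  rw [← hA1, ← hA2, ← hB1, ← hB2] at t1 t2
  rw [← hB1, ← hD1] at t5
  rw [← hD1] at s0
  rw [← hD2] at s1
  rw [← hB2, ← hD2]
  have g1 : M * (A2 - A1) ≤ M * (1 / (6 * (R - κ)) + e) :=
    mul_le_mul_of_nonneg_left (by linarith) hM0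
  have g2 : |B1 - B2| ≤ M * (1 / (6 * (R - κ))) + (M + 1) * e := by
    rw [abs_le]
    constructor <;> nlinarith
  have g3 : M / (3 * (R - κ)) = 2 * (M * (1 / (6 * (R - κ)))) := by
    field_simp
    ring
  rw [g3]
  have hMe : 0 ≤ M * e := by positivity
  have hLe : 0 ≤ L * e := by positivity
  have g4 : M * e + L * e + e = ε / 16 := by rw [← he1]; ring
  rw [abs_lt] at t5
  rw [abs_le] at s0 s1 g2 ⊢
  obtain ⟨s0a, s0b⟩ := s0
  obtain ⟨s1a, s1b⟩ := s1
  obtain ⟨g2a, g2b⟩ := g2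
  obtain ⟨t5a, t5b⟩ := t5
  constructor <;> linarith

end Pool.Agent.X113.ST
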