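import Pool.Agent.X113.ST1

set_option autoImplicit false

/-! # Smoothed windows: the pointwise inequalities -/

open MeasureTheory Set Filter Topology

namespace Pool.Agent.X113.ST

open Pool.Agent.Y749.Rig

/-- the kernel -/
noncomputable def Kk (k x : ℝ) : ℝ := fl (Jk k) x

lemma Kk_nonneg {k : ℝ} (hk : 0 < k) (x : ℝ) : 0 ≤ Kk k x := by
  unfold Kk
  rw [fl_Jk hk]
  positivity

lemma Kk_cont {k : ℝ} (hk : 0 < k) : Continuous (Kk k) := fl_cont (adm_Jk hk).int

lemma Kk_int {k : ℝ} (hk : 0 < k) : Integrable (Kk k) := fl_int (adm_Jk hk)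

lemma Kk_one {k : ℝ} (hk : 0 < k) : ∫ x, Kk k x = 1 := by
  have := int_fl (adm_Jk hk)
  rw [Jk_zero hk] at this
  exact this

lemma Kk_even (k x : ℝ) : Kk k (-x) = Kk k x := fl_even x

/-- the primitive of the kernel -/
noncomputable def Ph (k y : ℝ) : ℝ := ∫ s in Iic y, Kk k s

/-- the tail of the kernel -/
noncomputable def tl (k d : ℝ) : ℝ := ∫ s in Ioi d, Kk k s

lemma Ph_tl {k : ℝ} (hk : 0 < k) (y : ℝ) : Ph k y + tl k y = 1 := by
  unfold Ph tl
  rw [← Kk_one hk, ← compl_Iic]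
  exact integral_add_compl measurableSet_Iic (Kk_int hk)

lemma Ph_neg {k : ℝ} (_hk : 0 < k) (y : ℝ) : Ph k (-y) = tl k y := by
  unfold Ph tl
  have h := integral_comp_neg_Ioi y (Kk k)
  rw [← h]
  exact setIntegral_congr_fun measurableSet_Ioi fun s _ => Kk_even k s

lemma tl_nonneg {k : ℝ} (hk : 0 < k) (y : ℝ) : 0 ≤ tl k y :=
  setIntegral_nonneg measurableSet_Ioi fun s _ => Kk_nonneg hk s

lemma Ph_nonneg {k : ℝ} (hk : 0 < k) (y : ℝ) : 0 ≤ Ph k y :=
  setIntegral_nonneg measurableSet_Iic fun s _ => Kk_nonneg hk s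

lemma tl_le_one {k : ℝ} (hk : 0 < k) (y : ℝ) : tl k y ≤ 1 := by
  have h1 := Ph_tl hk y
  have h2 := Ph_nonneg hk y
  linarith

lemma Ph_sub {k : ℝ} (hk : 0 < k) (a b : ℝ) : ∫ s in a..b, Kk k s = Ph k b - Ph k a := by
  unfold Ph
  rw [intervalIntegral.integral_Iic_sub_Iic]
  · exact (Kk_int hk).integrableOn
  · exact (Kk_int hk).integrableOn

/-- comparison of the primitive with the jump -/
lemma Ph_jump {k : ℝ} (hk : 0 < k) (y : ℝ) :
    (0 ≤ y → |Ph k y - 1| ≤ tl k |y|) ∧ (y ≤ 0 → |Ph k y| ≤ tl k |y|) := by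
  constructor
  · intro h
    have h1 := Ph_tl hk y
    have h2 := tl_nonneg hk y
    rw [abs_of_nonneg h, show Ph k y - 1 = -tl k y by linarith, abs_neg, abs_of_nonneg h2]
  · intro h
    have h1 := Ph_neg hk (-y)
    rw [neg_neg] at h1
    rw [abs_of_nonpos h, abs_of_nonneg (Ph_nonneg hk y), h1]

/-- the smoothed window -/
lemma win_eq {k : ℝ} (hk : 0 < k) {u : ℝ} (hu : 0 ≤ u) (x : ℝ) :
    fl (win u (Jk k)) x = Ph k (x + u) - Ph k (x - u) := by
  rw [fl_win (adm_Jk hk) hu, ← Ph_sub hk]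
  have h := intervalIntegral.integral_comp_add_left (a := -u) (b := u) (Kk k) x
  rw [show x + -u = x - u by ring] at h
  exact h

lemma win_err {k : ℝ} (hk : 0 < k) {u : ℝ} (hu : 0 ≤ u) (x : ℝ) :
    |(Icc (-u) u).indicator (fun _ => (1 : ℝ)) x - fl (win u (Jk k)) x| ≤
      tl k |x + u| + tl k |x - u| := by
  rw [win_eq hk hu]
  have a1 := Ph_jump hk (x + u)
  have a2 := Ph_jump hk (x - u)
  by_cases hx : x ∈ Icc (-u) u
  · rw [indicator_of_mem hx]
    have b1 := a1.1 (by linarith [hx.1])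
    have b2 := a2.2 (by linarith [hx.2])
    have e : 1 - (Ph k (x + u) - Ph k (x - u)) = -(Ph k (x + u) - 1) + Ph k (x - u) := by ring
    rw [e]
    refine (abs_add_le _ _).trans ?_
    rw [abs_neg]
    exact add_le_add b1 b2
  · rw [indicator_of_notMem hx]
    rcases lt_or_ge u x with h | h
    · have b1 := a1.1 (by linarith)
      have b2 := a2.1 (by linarith)
      have e : 0 - (Ph k (x + u) - Ph k (x - u)) = -(Ph k (x + u) - 1) + (Ph k (x - u) - 1) := by
        ring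
      rw [e]
      refine (abs_add_le _ _).trans ?_
      rw [abs_neg]
      exact add_le_add b1 b2
    · have h2 : x < -u := by
        by_contra h3
        push Not at h3
        exact hx ⟨h3, h⟩
      have b1 := a1.2 (by linarith)
      have b2 := a2.2 (by linarith)
      have e : 0 - (Ph k (x + u) - Ph k (x - u)) = -(Ph k (x + u)) + Ph k (x - u) := by
        ring
      rw [e]
      refine (abs_add_le _ _).trans ?_
      rw [abs_neg]
      exact add_le_add b1 b2

lemma tl_bound {k : ℝ} (hk : 0 < k) {d : ℝ} (hd : 0 < d) :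
    tl k d ≤ 1 / (2 * Real.pi ^ 4 * (k * d) ^ 3) := by
  have hpi := Real.pi_pos
  have h1 : tl k d ≤ ∫ s in Ioi d, 3 * k / 2 * (1 / (Real.pi * k) ^ 4) * s ^ (-4 : ℝ) := by
    unfold tl
    refine setIntegral_mono_on (Kk_int hk).integrableOn
      ((integrableOn_Ioi_rpow_of_lt (by norm_num) hd).const_mul _) measurableSet_Ioi fun s hs => ?_
    have hs0 : 0 < s := hd.trans hs
    unfold Kk
    rw [fl_Jk hk, fl_tr hk hs0.ne']
    have h2 : s ^ (-4 : ℝ) = 1 / s ^ 4 := by
      rw [Real.rpow_neg hs0.le, one_div]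
      norm_cast
    rw [h2]
    have h3 : (Real.sin (Real.pi * k * s) / (Real.pi * k * s)) ^ 2 ≤ 1 / (Real.pi * k * s) ^ 2 := by
      rw [div_pow]
      apply div_le_div_of_nonneg_right _ (by positivity)
      exact Real.sin_sq_le_one _
    calc 3 * k / 2 * ((Real.sin (Real.pi * k * s) / (Real.pi * k * s)) ^ 2) ^ 2 ≤
          3 * k / 2 * (1 / (Real.pi * k * s) ^ 2) ^ 2 := by gcongr
      _ = _ := by field_simp
  rw [integral_const_mul, integral_Ioi_rpow_of_lt (by norm_num) hd] at h1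
  refine h1.trans (le_of_eq ?_)
  have h2 : d ^ (-4 + 1 : ℝ) = 1 / d ^ 3 := by
    rw [show (-4 + 1 : ℝ) = -3 by norm_num, Real.rpow_neg hd.le, one_div]
    norm_cast
  rw [h2]
  field_simp
  norm_num

/-- the majorant of the tail -/
noncomputable def Dk (k y : ℝ) : ℝ :=
  fl (tr k) y + 1 / 2 * fl (tr k) (y - 1 / (2 * k)) + 1 / 2 * fl (tr k) (y + 1 / (2 * k))

lemma Dk_even (k y : ℝ) : Dk k (-y) = Dk k y := by
  unfold Dk
  rw [fl_even, show -y - 1 / (2 * k) = -(y + 1 / (2 * k)) by ring, fl_even,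
    show -y + 1 / (2 * k) = -(y - 1 / (2 * k)) by ring, fl_even]
  ring

lemma Dk_abs (k y : ℝ) : Dk k |y| = Dk k y := by
  rcases abs_cases y with h | h
  · rw [h.1]
  · rw [h.1, Dk_even]

lemma Dk_low {k : ℝ} (hk : 0 < k) (y : ℝ) :
    1 / (Real.pi ^ 2 * ((k * y) ^ 2 + 1 / 4)) ≤ Dk k y := by
  have hpi := Real.pi_pos
  obtain ⟨t, ht⟩ : ∃ t : ℝ, t = k * y := ⟨_, rfl⟩
  have h1 : Real.sin (Real.pi * t) ^ 2 * (1 / (Real.pi ^ 2 * (t ^ 2 + 1 / 4))) ≤ fl (tr k) y := by
    rcases eq_or_ne y 0 with h0 | h0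
    · have : t = 0 := by rw [ht, h0, mul_zero]
      rw [this, mul_zero, Real.sin_zero]
      rw [h0, fl_tr_zero hk]
      norm_num
    · have ht0 : t ≠ 0 := by rw [ht]; positivity
      rw [fl_tr hk h0, show Real.pi * k * y = Real.pi * t by rw [ht]; ring, div_pow,
        mul_one_div]
      apply div_le_div_of_nonneg_left (by positivity) (by positivity)
      have : (Real.pi * t) ^ 2 = Real.pi ^ 2 * t ^ 2 := by ring
      rw [this]
      gcongr
      linarith
  have h2 : Real.cos (Real.pi * t) ^ 2 * (1 / (Real.pi ^ 2 * (t ^ 2 + 1 / 4))) ≤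
      1 / 2 * fl (tr k) (y - 1 / (2 * k)) + 1 / 2 * fl (tr k) (y + 1 / (2 * k)) := by
    have n1 := fl_tr_nonneg hk (y - 1 / (2 * k))
    have n2 := fl_tr_nonneg hk (y + 1 / (2 * k))
    rcases eq_or_ne (y - 1 / (2 * k)) 0 with h0 | h0
    · have : t = 1 / 2 := by
        rw [ht, show y = 1 / (2 * k) by linarith]
        field_simp
      rw [this, show Real.pi * (1 / 2) = Real.pi / 2 by ring, Real.cos_pi_div_two]
      simp only [ne_eq, OfNat.ofNat_ne_zero, not_false_eq_true, zero_pow, zero_mul]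
      positivity
    rcases eq_or_ne (y + 1 / (2 * k)) 0 with h0' | h0'
    · have : t = -(1 / 2) := by
        rw [ht, show y = -(1 / (2 * k)) by linarith]
        field_simp
      rw [this, show Real.pi * -(1 / 2) = -(Real.pi / 2) by ring, Real.cos_neg,
        Real.cos_pi_div_two]
      simp only [ne_eq, OfNat.ofNat_ne_zero, not_false_eq_true, zero_pow, zero_mul]
      positivity
    · rw [fl_tr hk h0, fl_tr hk h0']
      have e1 : Real.pi * k * (y - 1 / (2 * k)) = Real.pi * t - Real.pi / 2 := by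
        rw [ht]; field_simp
      have e2 : Real.pi * k * (y + 1 / (2 * k)) = Real.pi * t + Real.pi / 2 := by
        rw [ht]; field_simp
      have z1 : Real.pi * t - Real.pi / 2 ≠ 0 := by
        rw [← e1]; positivity
      have z2 : Real.pi * t + Real.pi / 2 ≠ 0 := by
        rw [← e2]; positivity
      rw [e1, e2, Real.sin_sub_pi_div_two, Real.sin_add_pi_div_two, div_pow, div_pow, neg_sq]
      obtain ⟨c, hc⟩ : ∃ c : ℝ, c = Real.cos (Real.pi * t) ^ 2 := ⟨_, rfl⟩
      rw [← hc]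
      have hc0 : 0 ≤ c := by rw [hc]; positivity
      have e3 : 1 / 2 * (c / (Real.pi * t - Real.pi / 2) ^ 2) +
          1 / 2 * (c / (Real.pi * t + Real.pi / 2) ^ 2) =
          c * (1 / Real.pi ^ 2 * (1 / 2 * (1 / (t - 1 / 2) ^ 2 + 1 / (t + 1 / 2) ^ 2))) := by
        have w1 : t - 1 / 2 ≠ 0 := by
          intro h
          apply z1
          rw [show Real.pi * t - Real.pi / 2 = Real.pi * (t - 1 / 2) by ring, h, mul_zero]
        have w2 : t + 1 / 2 ≠ 0 := by
          intro h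
          apply z2
          rw [show Real.pi * t + Real.pi / 2 = Real.pi * (t + 1 / 2) by ring, h, mul_zero]
        rw [show Real.pi * t - Real.pi / 2 = Real.pi * (t - 1 / 2) by ring,
          show Real.pi * t + Real.pi / 2 = Real.pi * (t + 1 / 2) by ring, mul_pow, mul_pow]
        field_simp
      rw [e3]
      apply mul_le_mul_of_nonneg_left _ hc0
      have w1 : t - 1 / 2 ≠ 0 := by
        intro h
        apply z1
        rw [show Real.pi * t - Real.pi / 2 = Real.pi * (t - 1 / 2) by ring, h, mul_zero]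
      have w2 : t + 1 / 2 ≠ 0 := by
        intro h
        apply z2
        rw [show Real.pi * t + Real.pi / 2 = Real.pi * (t + 1 / 2) by ring, h, mul_zero]
      have e4 : 1 / (t ^ 2 + 1 / 4) ≤ 1 / 2 * (1 / (t - 1 / 2) ^ 2 + 1 / (t + 1 / 2) ^ 2) := by
        have p1 : 0 < (t - 1 / 2) ^ 2 := by positivity
        have p2 : 0 < (t + 1 / 2) ^ 2 := by positivity
        have e6 : ∀ a b : ℝ, 0 < a → 0 < b → 1 / 2 * (1 / a + 1 / b) = ((a + b) / 2) / (a * b) := by
          intro a b ha hb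
          field_simp
          ring
        have e5 : 1 / 2 * (1 / (t - 1 / 2) ^ 2 + 1 / (t + 1 / 2) ^ 2) =
            (t ^ 2 + 1 / 4) / ((t - 1 / 2) ^ 2 * (t + 1 / 2) ^ 2) := by
          rw [e6 _ _ p1 p2]
          congr 1
          ring
        rw [e5, div_le_div_iff₀ (by positivity) (by positivity)]
        nlinarith [sq_nonneg t]
      calc 1 / (Real.pi ^ 2 * (t ^ 2 + 1 / 4)) = 1 / Real.pi ^ 2 * (1 / (t ^ 2 + 1 / 4)) := by
            field_simp
        _ ≤ _ := by gcongr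
  have h3 := Real.sin_sq_add_cos_sq (Real.pi * t)
  rw [← ht]
  unfold Dk
  calc 1 / (Real.pi ^ 2 * (t ^ 2 + 1 / 4)) =
        (Real.sin (Real.pi * t) ^ 2 + Real.cos (Real.pi * t) ^ 2) *
        (1 / (Real.pi ^ 2 * (t ^ 2 + 1 / 4))) := by rw [h3, one_mul]
    _ ≤ _ := by rw [add_mul, add_assoc]; exact add_le_add h1 h2

lemma tl_le_Dk {k : ℝ} (hk : 0 < k) {d : ℝ} (hd : 0 ≤ d) : tl k d ≤ 5 * Dk k d := by
  have hpi := Real.pi_gt_three
  have hpi2 := Real.pi_lt_d2
  have h1 := Dk_low hk d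
  have hpp : Real.pi ^ 2 ≤ 10 := by nlinarith
  have hpp9 : 9 ≤ Real.pi ^ 2 := by nlinarith
  obtain ⟨t, ht⟩ : ∃ t : ℝ, t = k * d := ⟨_, rfl⟩
  have ht0 : 0 ≤ t := by rw [ht]; positivity
  rw [← ht] at h1
  rcases le_or_gt t (1 / 2) with h | h
  · refine (tl_le_one hk d).trans ?_
    have h2 : 1 / 5 ≤ 1 / (Real.pi ^ 2 * (t ^ 2 + 1 / 4)) := by
      apply one_div_le_one_div_of_le (by positivity)
      have : t ^ 2 ≤ 1 / 4 := by nlinarith
      nlinarith
    linarith
  · have hd0 : 0 < d := by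
      rcases hd.lt_or_eq with h2 | h2
      · exact h2
      · rw [← h2, mul_zero] at ht
        linarith
    have h2 := tl_bound hk hd0
    rw [← ht] at h2
    have h3 : 1 / (2 * Real.pi ^ 4 * t ^ 3) ≤ 1 / (Real.pi ^ 2 * (t ^ 2 + 1 / 4)) := by
      apply one_div_le_one_div_of_le (by positivity)
      have e : 2 * Real.pi ^ 4 * t ^ 3 = Real.pi ^ 2 * (2 * Real.pi ^ 2 * t ^ 3) := by ring
      rw [e]
      apply mul_le_mul_of_nonneg_left _ (by positivity)
      have h4 : t ^ 2 * (1 / 2) ≤ t ^ 2 * t := by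
        apply mul_le_mul_of_nonneg_left h.le (by positivity)
      have h5 : 18 * t ^ 3 ≤ 2 * Real.pi ^ 2 * t ^ 3 := by
        apply mul_le_mul_of_nonneg_right _ (by positivity)
        linarith
      nlinarith
    have h6 : 0 < 1 / (Real.pi ^ 2 * (t ^ 2 + 1 / 4)) := by positivity
    linarith

/-- the error function -/
noncomputable def Ek (k u x : ℝ) : ℝ := 5 * fl (sh u (tr k)) x +
  5 / 2 * fl (sh (u + 1 / (2 * k)) (tr k)) x + 5 / 2 * fl (sh (u - 1 / (2 * k)) (tr k)) x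

lemma Ek_eq {k : ℝ} (hk : 0 < k) (u x : ℝ) : Ek k u x = 5 * (Dk k (x + u) + Dk k (x - u)) := by
  unfold Ek Dk
  rw [fl_sh (adm_tr hk), fl_sh (adm_tr hk), fl_sh (adm_tr hk)]
  rw [show x - (u + 1 / (2 * k)) = x - u - 1 / (2 * k) by ring,
    show x + (u + 1 / (2 * k)) = x + u + 1 / (2 * k) by ring,
    show x - (u - 1 / (2 * k)) = x - u + 1 / (2 * k) by ring,
    show x + (u - 1 / (2 * k)) = x + u - 1 / (2 * k) by ring]
  ring

/-- **the pointwise inequality** -/
theorem main_err {k : ℝ} (hk : 0 < k) {u : ℝ} (hu : 0 ≤ u) (x : ℝ) :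
    |(Icc (-u) u).indicator (fun _ => (1 : ℝ)) x - fl (win u (Jk k)) x| ≤ Ek k u x := by
  refine (win_err hk hu x).trans ?_
  rw [Ek_eq hk]
  have h1 := tl_le_Dk hk (abs_nonneg (x + u))
  have h2 := tl_le_Dk hk (abs_nonneg (x - u))
  rw [Dk_abs] at h1 h2
  linarith

end Pool.Agent.X113.ST
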