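import Pool.Agent.X113.UF2
import Pool.Agent.Y750.OM.Conv1
import Pool.Agent.Y749.Rig.RecD2
import Pool.Agent.H370R2.Count

set_option autoImplicit false

/-! # The pairing with the hat function of small support, without RH -/

open MeasureTheory Set Filter Topology
open scoped NNReal ENNReal

namespace Pool.Agent.X113.UF

open Pool.Agent.Y749.Rig
open H370 (Zf mult good_zeta mem_Zf NN zset)

theorem blk_unc : ∃ C : ℝ, 0 < C ∧ ∀ k : ℝ, 0 < k → k ≤ 1 / 2 → ∀ ε : ℝ, 0 < ε →
    ∀ᶠ q : ℝ in atTop,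
      |RR (fl (tr k)) (Zf riemannZeta q (2 * q)) (Zf riemannZeta q (2 * q)) (Real.log q) -
        q * (Real.log q / (2 * Real.pi)) * cc (tr k)| ≤ (C * k ^ 2 + ε) * (q * Real.log q) := by
  classical
  obtain ⟨C, θ, hC, hθ, h⟩ := Pool.Agent.Y750.OM.main_conv (κ0 := 1 / 2) (by norm_num)
    (by norm_num)
  obtain ⟨C1, T1, hC1, hT1, hN⟩ := H370.nn_asymp good_zeta
  have hpi := Real.pi_gt_three
  refine ⟨C, hC, fun k hk hk2 ε hε => ?_⟩
  have hA := adm_tr hk
  obtain ⟨b, hb⟩ := fl_bound hA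
  have hAbd : ∀ u, |Pool.Agent.Y750.OM.bl (tr k) u| * (1 + u ^ 2) ≤ b := by
    intro u
    have h1 : |fl (tr k) u| ≤ b / (1 + u ^ 2) := hb u
    rw [le_div_iff₀ (by positivity)] at h1
    exact h1
  have htn : ∀ α, 0 ≤ tr k α := fun α => tr_nonneg hk α
  have htb : ∀ α, |tr k α| ≤ 1 / k := by
    intro α
    rw [abs_of_nonneg (htn α)]
    unfold tr
    apply div_le_div_of_nonneg_right _ hk.le
    apply max_le (by norm_num)
    have : 0 ≤ |α| / k := by positivity
    linarith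
  obtain ⟨T0, hT⟩ := h k hk hk2 (tr k) ⟨1 / k ^ 2, tr_lip hk⟩
    (fun α hα => tr_supp hk α hα.le) ⟨b, hAbd⟩ (1 / k) htb (ε / 2) (by positivity)
  have hmain : Pool.Agent.Y750.OM.bl (tr k) 0 + ∫ u : ℝ, Pool.Agent.Y750.OM.bl (tr k) u *
      (1 - Real.sinc (Real.pi * u) ^ 2) = cc (tr k) := by
    rw [Pool.Agent.Y750.OM.main_eq (tr_cont k) hAbd fun x hx => tr_supp hk x (by linarith)]
    rfl
  have hl := Real.tendsto_log_atTop.eventually_ge_atTop
    (2 * C1 * (|cc (tr k)| + 1) / (min ε 1) + 1 + 2 * C1)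
  filter_upwards [eventually_ge_atTop T0, eventually_ge_atTop T1, eventually_ge_atTop 10, hl]
    with q h1 h2 h3 h4
  have hq0 : 0 < q := by linarith
  have hm : 0 < min ε 1 := lt_min hε one_pos
  have hlq : 2 * C1 * (|cc (tr k)| + 1) / (min ε 1) + 1 + 2 * C1 ≤ Real.log q := h4
  have hx0 : 0 ≤ 2 * C1 * (|cc (tr k)| + 1) / (min ε 1) := by positivity
  have hlog1 : 1 + 2 * C1 ≤ Real.log q := by linarith
  have hlog0 : 0 < Real.log q := by linarith
  have hlog2 : 2 * C1 * (|cc (tr k)| + 1) ≤ ε * Real.log q := by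
    have h5 : 2 * C1 * (|cc (tr k)| + 1) / (min ε 1) ≤ Real.log q := by linarith
    rw [div_le_iff₀ hm] at h5
    refine h5.trans ?_
    rw [mul_comm]
    exact mul_le_mul_of_nonneg_right (min_le_left _ _) hlog0.le
  have hNq := hN q h2 q (2 * q) le_rfl (by linarith) (by linarith) le_rfl
  have hTq := hT q h1
  rw [Pool.Agent.Y750.OM.conv_N (by linarith), Pool.Agent.Y750.OM.conv_NO (by linarith), hmain,
    Pool.Agent.Y750.OM.conv_P (by linarith)
      (fun x => Pool.Agent.Y750.OM.bl (tr k) (x * Real.log q / (2 * Real.pi)))] at hTq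
  obtain ⟨N, hNd⟩ : ∃ N : ℝ, N = (NN riemannZeta q (2 * q) : ℝ) := ⟨_, rfl⟩
  rw [← hNd] at hTq hNq
  have hN0 : 0 ≤ N := by rw [hNd]; exact Nat.cast_nonneg _
  have hNO : Pool.Agent.Y750.OM.NO q (2 * q) ≤ N := by
    rw [hNd, ← NN_eq' (by linarith)]
    exact Finset.sum_le_sum_of_subset_of_nonneg (Finset.filter_subset _ _)
      fun s _ _ => mm_nonneg s
  have hNO0 : 0 ≤ Pool.Agent.Y750.OM.NO q (2 * q) := Finset.sum_nonneg fun s _ => mm_nonneg s
  have hρ : (Pool.Agent.Y750.OM.NO q (2 * q) / N) ^ θ ≤ 1 :=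
    Real.rpow_le_one (div_nonneg hNO0 hN0) (div_le_one_of_le₀ hNO hN0) hθ.le
  have hρ0 : 0 ≤ (Pool.Agent.Y750.OM.NO q (2 * q) / N) ^ θ :=
    Real.rpow_nonneg (div_nonneg hNO0 hN0) _
  obtain ⟨S, hS⟩ : ∃ S : ℝ, S = RR (fl (tr k)) (Zf riemannZeta q (2 * q))
    (Zf riemannZeta q (2 * q)) (Real.log q) := ⟨_, rfl⟩
  have hTq' : |S - N * cc (tr k)| ≤ (C * (1 / k) * k ^ 3 *
      (Pool.Agent.Y750.OM.NO q (2 * q) / N) ^ θ + ε / 2) * N := by
    rw [hS]
    exact hTq
  have hNup : N ≤ q * Real.log q := by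
    have h5 := (abs_le.1 hNq).2
    have h6 : q * Real.log q / (2 * Real.pi) ≤ q * Real.log q / 2 := by
      apply div_le_div_of_nonneg_left (by positivity) (by norm_num)
      linarith
    nlinarith
  have h7 : (C * (1 / k) * k ^ 3 * (Pool.Agent.Y750.OM.NO q (2 * q) / N) ^ θ + ε / 2) * N ≤
      (C * k ^ 2 + ε / 2) * (q * Real.log q) := by
    have h8 : C * (1 / k) * k ^ 3 * (Pool.Agent.Y750.OM.NO q (2 * q) / N) ^ θ ≤ C * k ^ 2 := by
      have e : C * (1 / k) * k ^ 3 = C * k ^ 2 := by field_simp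
      rw [e]
      have : 0 ≤ C * k ^ 2 := by positivity
      nlinarith
    gcongr
  rw [← hS]
  have h9 : |N * cc (tr k) - q * (Real.log q / (2 * Real.pi)) * cc (tr k)| ≤
      ε / 2 * (q * Real.log q) := by
    have e : N * cc (tr k) - q * (Real.log q / (2 * Real.pi)) * cc (tr k) =
        (N - q * Real.log q / (2 * Real.pi)) * cc (tr k) := by ring
    rw [e, abs_mul]
    calc |N - q * Real.log q / (2 * Real.pi)| * |cc (tr k)| ≤ C1 * q * (|cc (tr k)| + 1) := by
          gcongr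
          linarith
      _ = (2 * C1 * (|cc (tr k)| + 1)) * (q / 2) := by ring
      _ ≤ (ε * Real.log q) * (q / 2) := by gcongr
      _ = _ := by ring
  calc _ ≤ |S - N * cc (tr k)| + |N * cc (tr k) - q * (Real.log q / (2 * Real.pi)) * cc (tr k)| :=
        abs_sub_le _ _ _
    _ ≤ (C * k ^ 2 + ε / 2) * (q * Real.log q) + ε / 2 * (q * Real.log q) :=
        add_le_add (hTq'.trans h7) h9
    _ = _ := by ring

theorem smallTest : SmallTest := by
  obtain ⟨C, hC, h⟩ := blk_unc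
  have hpi := Real.pi_gt_three
  have hpi4 := Real.pi_lt_d2
  refine ⟨4 * C + 1, by positivity, fun k hk hk2 ε hε => ?_⟩
  have h1 := recur2 (adm_tr hk) (c := cc (tr k)) (E := C * k ^ 2) (by positivity)
    (h k hk hk2)
  have hcc : 1 ≤ k * cc (tr k) ∧ k * cc (tr k) ≤ 1 + k ^ 2 := by
    unfold cc
    have e1 : tr k 0 = 1 / k := by unfold tr; simp
    have e2 : ∫ α, |α| * tr k α ≤ k := by
      have : ∫ α, |α| * tr k α ≤ ∫ α, k * tr k α := by
        refine integral_mono ?_ ((tr_int hk).const_mul _) fun α => ?_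
        · refine Continuous.integrable_of_hasCompactSupport ?_ ?_
          · have := tr_cont k
            fun_prop
          · exact (adm_tr hk).hcs.mul_left
        · simp only
          rcases le_or_gt k |α| with h | h
          · rw [tr_supp hk α h]; simp
          · exact mul_le_mul_of_nonneg_right h.le (tr_nonneg hk _)
      rwa [integral_const_mul, int_tr hk, mul_one] at this
    have e3 : 0 ≤ ∫ α, |α| * tr k α :=
      integral_nonneg fun α => mul_nonneg (abs_nonneg _) (tr_nonneg hk _)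
    rw [e1]
    have : k * (1 / k + ∫ α, |α| * tr k α) = 1 + k * ∫ α, |α| * tr k α := by
      field_simp
    rw [this]
    constructor <;> nlinarith
  filter_upwards [h1 (ε / 8) (by positivity), eventually_ge_atTop 10] with T h2 hT
  have hn := nT_pos hT
  rw [Mp_integral hT]
  obtain ⟨S, hS⟩ : ∃ S : ℝ, S = RR (fl (tr k)) (ZZ T) (ZZ T) (Real.log T) := ⟨_, rfl⟩
  rw [← hS] at h2 ⊢
  have hL : 0 < Real.log T := by linarith [one_lt_log (show 3 ≤ T by linarith)]
  have hT0 : 0 < T := by linarith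
  have e1 : T * Real.log T / (2 * Real.pi) = nT T := rfl
  have e2 : T * Real.log T = 2 * Real.pi * nT T := by rw [← e1]; field_simp
  rw [e1, e2] at h2
  have h3 : |S / nT T - cc (tr k)| ≤ (C * k ^ 2 + ε / 8) * (2 * Real.pi) := by
    have e3 : S / nT T - cc (tr k) = (S - nT T * cc (tr k)) / nT T := by field_simp
    rw [e3, abs_div, abs_of_pos hn, div_le_iff₀ hn]
    refine h2.trans (le_of_eq ?_)
    ring
  have h4 : |k * (S / nT T) - 1| ≤ k * |S / nT T - cc (tr k)| + k ^ 2 := by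
    have e4 : k * (S / nT T) - 1 = k * (S / nT T - cc (tr k)) + (k * cc (tr k) - 1) := by ring
    rw [e4]
    refine (abs_add_le _ _).trans ?_
    rw [abs_mul, abs_of_pos hk]
    have : |k * cc (tr k) - 1| ≤ k ^ 2 := by
      rw [abs_le]; constructor <;> nlinarith [hcc.1, hcc.2]
    linarith
  have h5 : k * |S / nT T - cc (tr k)| ≤ 1 / 2 * ((C * k ^ 2 + ε / 8) * (2 * Real.pi)) :=
    mul_le_mul hk2 h3 (abs_nonneg _) (by norm_num)
  have h6 : 1 / 2 * ((C * k ^ 2 + ε / 8) * (2 * Real.pi)) ≤ 4 * C * k ^ 2 + ε := by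
    have h7 : 0 ≤ C * k ^ 2 := by positivity
    nlinarith
  linarith

end Pool.Agent.X113.UF
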