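import Pool.Agent.X113.ST2
import Pool.Agent.X113.ST3
import Pool.Agent.X113.UF1

set_option autoImplicit false

/-! # Pair counts when the means of the form factor are bounded from above in a finite range -/

open MeasureTheory Set Filter Topology

namespace Pool.Agent.X113.ST

open Pool.Agent.Y749.Rig
open Pool.Agent.X113.UF
open Pool.Agent.Y744 (gp gd AG Aa Nr pr PC Xf)

/-- the mass at the origin is paid for -/
lemma atom_le {μ : Measure ℝ} {h : ℝ → ℝ} (hi : Integrable h μ) (h0 : ∀ x, 0 ≤ h x) :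
    h 0 * μ.real {0} ≤ ∫ x, h x ∂μ := by
  have h1 : ∫ x in ({0} : Set ℝ), h x ∂μ = μ.real {0} • h 0 := integral_singleton _ _
  have h2 : ∫ x in ({0} : Set ℝ), h x ∂μ ≤ ∫ x, h x ∂μ :=
    setIntegral_le_integral hi (ae_of_all _ h0)
  rw [h1, smul_eq_mul] at h2
  linarith

lemma mG_upper {h : ℝ → ℝ} (hi : Integrable h) (h0 : ∀ x, 0 ≤ h x) :
    ∫ x, h x ∂mG ≤ h 0 + ∫ x, h x := by
  have h1 : mG ≤ Measure.dirac 0 + volume := by
    unfold mG
    refine add_le_add_right ?_ _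
    have h2 : (volume : Measure ℝ).withDensity (fun x => ENNReal.ofReal (FF x)) ≤
        volume.withDensity fun _ => 1 := by
      refine withDensity_mono (ae_of_all _ fun x => ?_)
      show ENNReal.ofReal (FF x) ≤ 1
      rw [← ENNReal.ofReal_one]
      exact ENNReal.ofReal_le_ofReal (FF_le_one x)
    have h3 : (volume : Measure ℝ).withDensity (fun _ => (1 : ENNReal)) = volume := withDensity_one
    rwa [h3] at h2
  have i1 : Integrable h (Measure.dirac 0) := integrable_dirac (by simp)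
  have h2 := integral_mono_measure h1 (ae_of_all _ h0) (i1.add_measure hi)
  rw [integral_add_measure i1 hi, integral_dirac] at h2
  exact h2

lemma int3 {μ : Measure ℝ} {a b c : ℝ} {f g h : ℝ → ℝ} (hf : Integrable f μ)
    (hg : Integrable g μ) (hh : Integrable h μ) :
    Integrable (fun x => a * f x + b * g x + c * h x) μ ∧
    ∫ x, (a * f x + b * g x + c * h x) ∂μ =
    a * (∫ x, f x ∂μ) + b * (∫ x, g x ∂μ) + c * ∫ x, h x ∂μ := by
  have i1 : Integrable (fun x => a * f x) μ := hf.const_mul a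
  have i2 : Integrable (fun x => b * g x) μ := hg.const_mul b
  have i3 : Integrable (fun x => c * h x) μ := hh.const_mul c
  have i12 : Integrable (fun x => a * f x + b * g x) μ := i1.add i2
  refine ⟨i12.add i3, ?_⟩
  rw [integral_add i12 i3, integral_add i1 i2, integral_const_mul, integral_const_mul,
    integral_const_mul]

lemma intpq {μ : Measure ℝ} {f g h : ℝ → ℝ} (hf : Integrable f μ)
    (hg : Integrable g μ) (hh : Integrable h μ) :
    Integrable (fun x => f x + g x - h x) μ ∧ Integrable (fun x => h x - (f x - g x)) μ ∧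
    ∫ x, (f x + g x - h x) ∂μ = (∫ x, f x ∂μ) + (∫ x, g x ∂μ) - ∫ x, h x ∂μ ∧
    ∫ x, (h x - (f x - g x)) ∂μ = (∫ x, h x ∂μ) - ((∫ x, f x ∂μ) - ∫ x, g x ∂μ) := by
  have i1 : Integrable (fun x => f x + g x) μ := hf.add hg
  have i2 : Integrable (fun x => f x - g x) μ := hf.sub hg
  refine ⟨i1.sub hh, hh.sub i2, ?_, ?_⟩
  · rw [integral_sub i1 hh, integral_add hf hg]
  · rw [integral_sub hh i2, integral_sub hf hg]

section

variable {k u : ℝ}

lemma adm_A (hk : 0 < k) (hu : 0 ≤ u) : Adm (2 * k) (win u (Jk k)) := adm_win (adm_Jk hk) hu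

lemma int_A (hk : 0 < k) (hu : 0 ≤ u) : ∫ x, fl (win u (Jk k)) x = 2 * u := by
  rw [int_fl (adm_A hk hu)]
  unfold win wb
  rw [Jk_zero hk]
  simp
  ring

lemma abs_A (hk : 0 < k) (hu : 0 ≤ u) (α : ℝ) : |win u (Jk k) α| ≤ 2 * u := by
  unfold win
  rw [abs_mul]
  calc |Jk k α| * |wb u α| ≤ 1 * (2 * u) :=
        mul_le_mul (Jk_abs hk α) (wb_le hu α) (abs_nonneg _) zero_le_one
    _ = _ := one_mul _

lemma tr_le (hk : 0 < k) (α : ℝ) : tr k α ≤ 1 / k := by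
  unfold tr
  apply div_le_div_of_nonneg_right _ hk.le
  apply max_le (by norm_num)
  have : 0 ≤ |α| / k := by positivity
  linarith

lemma abs_B (hk : 0 < k) (w α : ℝ) : |sh w (tr k) α| ≤ 2 / k := by
  unfold sh
  rw [abs_mul, abs_mul, abs_of_pos (show (0 : ℝ) < 2 by norm_num), abs_of_nonneg (tr_nonneg hk _)]
  have h1 := tr_le hk α
  have h2 := tr_nonneg hk α
  have h3 := Real.abs_cos_le_one (2 * Real.pi * w * α)
  calc 2 * |Real.cos (2 * Real.pi * w * α)| * tr k α ≤ 2 * 1 * (1 / k) := by gcongr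
    _ = 2 / k := by ring

lemma int_B (hk : 0 < k) (w : ℝ) : ∫ x, fl (sh w (tr k)) x = 2 / k := by
  rw [int_fl (adm_sh (adm_tr hk) w)]
  unfold sh tr
  simp
  ring

lemma cont_B (hk : 0 < k) (w : ℝ) : Continuous (fl (sh w (tr k))) :=
  fl_cont (adm_sh (adm_tr hk) w).int

lemma Ek_int (hk : 0 < k) (u : ℝ) : Integrable (Ek k u) := by
  have i := fun w => fl_int (adm_sh (adm_tr hk) w)
  exact (int3 (i u) (i (u + 1 / (2 * k))) (i (u - 1 / (2 * k)))).1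

lemma Ek_total (hk : 0 < k) (u : ℝ) : ∫ x, Ek k u x = 20 / k := by
  have i := fun w => fl_int (adm_sh (adm_tr hk) w)
  have h := (int3 (a := 5) (b := 5 / 2) (c := 5 / 2) (i u) (i (u + 1 / (2 * k)))
    (i (u - 1 / (2 * k)))).2
  rw [int_B hk, int_B hk, int_B hk] at h
  refine h.trans ?_
  ring

lemma Ek_meas {C : ℝ} (hC : 0 ≤ C) {μ : Measure ℝ} (h : Bdd C μ) (hk : 0 < k) (u : ℝ) :
    Integrable (Ek k u) μ ∧ ∫ x, Ek k u x ∂μ = 5 * (∫ x, fl (sh u (tr k)) x ∂μ) +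
      5 / 2 * (∫ x, fl (sh (u + 1 / (2 * k)) (tr k)) x ∂μ) +
      5 / 2 * (∫ x, fl (sh (u - 1 / (2 * k)) (tr k)) x ∂μ) := by
  have i : ∀ w, Integrable (fl (sh w (tr k))) μ := fun w =>
    Bdd.integrable hC h (cont_B hk w) (fl_qd (adm_sh (adm_tr hk) w))
  exact int3 (i u) (i (u + 1 / (2 * k))) (i (u - 1 / (2 * k)))

end

/-- **symmetric windows** -/
theorem Aa_est (ST : SmallTest) {l : Filter ℝ} (hl : l ≤ atTop) {R : ℝ} (hR : 1 ≤ R)
    (hup : MeanUp l R) {u : ℝ} (hu : 0 ≤ u) {ε : ℝ} (hε : 0 < ε) : ∀ᶠ T in l,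
    |Aa T u - AG u| ≤ 120 * (1 + u) / R + ε := by
  have hR0 : 0 < R := by linarith
  obtain ⟨k, hkd⟩ : ∃ k : ℝ, k = R / 4 := ⟨_, rfl⟩
  have hk : 0 < k := by rw [hkd]; positivity
  obtain ⟨I, hI⟩ : ∃ I : ℝ → ℝ, I = (Icc (-u) u).indicator (fun _ => (1 : ℝ)) := ⟨_, rfl⟩
  obtain ⟨g, hg⟩ : ∃ g : ℝ → ℝ, g = fl (win u (Jk k)) := ⟨_, rfl⟩
  have hI0 : I 0 = 1 := by
    rw [hI, indicator_of_mem (show (0 : ℝ) ∈ Icc (-u) u from ⟨by linarith, hu⟩)]
  have herr : ∀ x, |I x - g x| ≤ Ek k u x := fun x => by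
    rw [hI, hg]; exact main_err hk hu x
  have hIm : ∀ μ : Measure ℝ, ∫ x, I x ∂μ = μ.real (Icc (-u) u) := by
    intro μ
    rw [hI, integral_indicator measurableSet_Icc, setIntegral_const, smul_eq_mul, mul_one]
  obtain ⟨p, hp⟩ : ∃ p : ℝ → ℝ, ∀ x, p x = g x + Ek k u x - I x := ⟨_, fun x => rfl⟩
  obtain ⟨q, hq⟩ : ∃ q : ℝ → ℝ, ∀ x, q x = I x - (g x - Ek k u x) := ⟨_, fun x => rfl⟩
  have hp' : p = fun x => g x + Ek k u x - I x := funext hp
  have hq' : q = fun x => I x - (g x - Ek k u x) := funext hq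
  have hp0 : ∀ x, 0 ≤ p x := fun x => by
    rw [hp]; have := (abs_le.1 (herr x)).2; linarith
  have hq0 : ∀ x, 0 ≤ q x := fun x => by
    rw [hq]; have := (abs_le.1 (herr x)).1; linarith
  -- integrals against Bdd measures
  have hms : ∀ {C : ℝ} {μ : Measure ℝ}, 0 ≤ C → Bdd C μ →
      (Integrable g μ ∧ Integrable (Ek k u) μ ∧ Integrable I μ ∧ Integrable p μ ∧
        Integrable q μ ∧
        ∫ x, p x ∂μ = (∫ x, g x ∂μ) + (∫ x, Ek k u x ∂μ) - μ.real (Icc (-u) u) ∧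
        ∫ x, q x ∂μ = μ.real (Icc (-u) u) - ((∫ x, g x ∂μ) - (∫ x, Ek k u x ∂μ))) := by
    intro C μ hC hB
    have i1 : Integrable g μ := by
      rw [hg]
      exact Bdd.integrable hC hB (fl_cont (adm_A hk hu).int) (fl_qd (adm_A hk hu))
    have i2 := (Ek_meas hC hB hk u).1
    have i3 : Integrable I μ := by
      rw [hI, integrable_indicator_iff measurableSet_Icc]
      exact integrableOn_const (hB.lt_top _ _).ne
    obtain ⟨j1, j2, j3, j4⟩ := intpq i1 i2 i3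
    rw [← hp', hIm] at j3
    rw [← hq', hIm] at j4
    rw [← hp'] at j1
    rw [← hq'] at j2
    exact ⟨i1, i2, i3, j1, j2, j3, j4⟩
  obtain ⟨-, -, -, -, -, hGp, hGq⟩ := hms (by norm_num) mG_bdd
  rw [mG_AG hu] at hGp hGq
  -- integrals against Lebesgue measure
  have iL1 : Integrable g := by rw [hg]; exact fl_int (adm_A hk hu)
  have iL2 := Ek_int hk u
  have iL3 : Integrable I := by
    rw [hI, integrable_indicator_iff measurableSet_Icc]
    exact integrableOn_const (by rw [Real.volume_Icc]; exact ENNReal.ofReal_ne_top)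
  have hL : (volume : Measure ℝ).real (Icc (-u) u) = 2 * u := by
    rw [Real.volume_real_Icc_of_le (by linarith)]
    ring
  have hgL : ∫ x, g x = 2 * u := by rw [hg]; exact int_A hk hu
  obtain ⟨iLp, iLq, hpL, hqL⟩ := intpq iL1 iL2 iL3
  rw [hIm, hL, hgL, Ek_total hk, ← hp'] at hpL
  rw [hIm, hL, hgL, Ek_total hk, ← hq'] at hqL
  rw [← hp'] at iLp
  rw [← hq'] at iLq
  have hGp2 := mG_upper iLp hp0
  have hGq2 := mG_upper iLq hq0
  rw [hpL, hGp] at hGp2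
  rw [hqL, hGq] at hGq2
  rw [show 2 * u + 20 / k - 2 * u = 20 / k by ring] at hGp2
  rw [show 2 * u - (2 * u - 20 / k) = 20 / k by ring] at hGq2
  -- the pairings
  obtain ⟨S, hS⟩ : ∃ S : ℝ, S = p 0 + q 0 + 1 := ⟨_, rfl⟩
  have hS0 : 0 < S := by rw [hS]; linarith [hp0 0, hq0 0]
  obtain ⟨e, he⟩ : ∃ e : ℝ, e = ε / 22 := ⟨_, rfl⟩
  have he0 : 0 < e := by rw [he]; positivity
  have hk2R : 2 * k < R := by rw [hkd]; linarith
  have hkR : k < R := by rw [hkd]; linarith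
  have a1 := pair_est ST hl hR hup (adm_A hk hu) (by positivity) hk2R (abs_A hk hu) he0
  have a2 := fun w => pair_est ST hl hR hup (adm_sh (adm_tr hk) w) hk hkR (abs_B hk w) he0
  obtain ⟨C, hC, hB⟩ := Mp_bdd
  filter_upwards [a1, a2 u, a2 (u + 1 / (2 * k)), a2 (u - 1 / (2 * k)),
    hl (Mp_zero (ε := ε / (2 * S)) (by positivity)), hl (eventually_ge_atTop 10), hl hB]
    with T t1 t2 t3 t4 t5 hT hBT
  rw [← hg] at t1
  obtain ⟨-, -, -, ip, iq, hMp, hMq⟩ := hms (by linarith : (0 : ℝ) ≤ C) hBT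
  rw [Mp_Aa hT] at hMp hMq
  have hp1 := atom_le ip hp0
  have hq1 := atom_le iq hq0
  rw [hMp] at hp1
  rw [hMq] at hq1
  have hE1 := (Ek_meas (by linarith : (0 : ℝ) ≤ C) hBT hk u).2
  have hE2 := (Ek_meas (by norm_num) mG_bdd hk u).2
  -- abstract
  obtain ⟨x1, hx1⟩ : ∃ x : ℝ, x = ∫ x, g x ∂(Mp T) := ⟨_, rfl⟩
  obtain ⟨y1, hy1⟩ : ∃ x : ℝ, x = ∫ x, g x ∂mG := ⟨_, rfl⟩
  obtain ⟨x2, hx2⟩ : ∃ x : ℝ, x = ∫ x, fl (sh u (tr k)) x ∂(Mp T) := ⟨_, rfl⟩
  obtain ⟨y2, hy2⟩ : ∃ x : ℝ, x = ∫ x, fl (sh u (tr k)) x ∂mG := ⟨_, rfl⟩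
  obtain ⟨x3, hx3⟩ : ∃ x : ℝ, x = ∫ x, fl (sh (u + 1 / (2 * k)) (tr k)) x ∂(Mp T) := ⟨_, rfl⟩
  obtain ⟨y3, hy3⟩ : ∃ x : ℝ, x = ∫ x, fl (sh (u + 1 / (2 * k)) (tr k)) x ∂mG := ⟨_, rfl⟩
  obtain ⟨x4, hx4⟩ : ∃ x : ℝ, x = ∫ x, fl (sh (u - 1 / (2 * k)) (tr k)) x ∂(Mp T) := ⟨_, rfl⟩
  obtain ⟨y4, hy4⟩ : ∃ x : ℝ, x = ∫ x, fl (sh (u - 1 / (2 * k)) (tr k)) x ∂mG := ⟨_, rfl⟩
  obtain ⟨m, hm⟩ : ∃ m : ℝ, m = (Mp T).real {0} := ⟨_, rfl⟩
  rw [← hx1, ← hy1] at t1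
  rw [← hx2, ← hy2] at t2
  rw [← hx3, ← hy3] at t3
  rw [← hx4, ← hy4] at t4
  rw [← hx2, ← hx3, ← hx4] at hE1
  rw [← hy2, ← hy3, ← hy4] at hE2
  rw [hE1, ← hx1, ← hm] at hp1 hq1
  rw [hE2, ← hy1] at hGp2 hGq2
  rw [← hm] at t5
  -- constants
  have c1 : 2 * u / (3 * (R - 2 * k)) = 4 / 3 * (u / R) := by
    have : R - 2 * k = R / 2 := by rw [hkd]; ring
    rw [this]
    field_simp
    ring
  have c2 : 2 / k / (3 * (R - k)) ≤ 36 / 10 * (1 / R) := by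
    have : R - k = 3 * R / 4 := by rw [hkd]; ring
    rw [this, hkd]
    have e1 : 2 / (R / 4) / (3 * (3 * R / 4)) = 32 / 9 * (1 / R) * (1 / R) := by
      field_simp
      norm_num
    rw [e1]
    have h1 : 1 / R ≤ 1 := by rw [div_le_one hR0]; exact hR
    have h2 : 0 < 1 / R := by positivity
    nlinarith
  have c3 : 20 / k = 80 * (1 / R) := by
    rw [hkd]
    field_simp
    norm_num
  rw [c1] at t1
  rw [c3] at hGp2 hGq2
  have t2' := t2.trans (add_le_add_left c2 e)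
  have t3' := t3.trans (add_le_add_left c2 e)
  have t4' := t4.trans (add_le_add_left c2 e)
  have c4 : 120 * (1 + u) / R = 120 * (1 / R) + 120 * (u / R) := by
    field_simp
  rw [c4]
  have hRi : 0 < 1 / R := by positivity
  have huR : 0 ≤ u / R := by positivity
  -- the atom
  have d1 : p 0 * (1 - ε / (2 * S)) ≤ p 0 * m := mul_le_mul_of_nonneg_left t5 (hp0 0)
  have d2 : q 0 * (1 - ε / (2 * S)) ≤ q 0 * m := mul_le_mul_of_nonneg_left t5 (hq0 0)
  have d3 : p 0 * (ε / (2 * S)) ≤ ε / 2 := by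
    have : S * (ε / (2 * S)) = ε / 2 := by field_simp
    rw [← this]
    apply mul_le_mul_of_nonneg_right _ (by positivity)
    rw [hS]; linarith [hq0 0]
  have d4 : q 0 * (ε / (2 * S)) ≤ ε / 2 := by
    have : S * (ε / (2 * S)) = ε / 2 := by field_simp
    rw [← this]
    apply mul_le_mul_of_nonneg_right _ (by positivity)
    rw [hS]; linarith [hp0 0]
  have he22 : 22 * e = ε := by rw [he]; ring
  obtain ⟨t1a, t1b⟩ := abs_le.1 t1
  obtain ⟨t2a, t2b⟩ := abs_le.1 t2'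
  obtain ⟨t3a, t3b⟩ := abs_le.1 t3'
  obtain ⟨t4a, t4b⟩ := abs_le.1 t4'
  rw [abs_le]
  constructor <;> linarith

end Pool.Agent.X113.ST
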