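import Pool.Agent.X113.ST4

set_option autoImplicit false

/-! # All windows when the means of the form factor are bounded from above in a finite range -/

open MeasureTheory Set Filter Topology

namespace Pool.Agent.X113.ST

open Pool.Agent.Y744 (gp gd AG Aa Nr pr PC Xf PC_abs PC_union PC_neg PC_mono Xf_pos gp_odd gp_zero
  gp_cont)

section

variable {l : Filter ℝ} {E : ℝ → ℝ}

/-- the symmetric windows are known up to `E` -/
def Sym (l : Filter ℝ) (E : ℝ → ℝ) : Prop := ∀ u : ℝ, 0 ≤ u → ∀ ε : ℝ, 0 < ε → ∀ᶠ T in l,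
  |Aa T u - AG u| ≤ E u + ε

lemma AG_nn {y : ℝ} (hy : 0 ≤ y) : AG y = 1 + 2 * gp y := by
  unfold AG
  rw [if_neg (by linarith)]

lemma zero_left (T : ℝ) {y : ℝ} (hy : 0 ≤ y) :
    Nr T 0 y - (1 + gp y) = ((Aa T y - AG y) + (Aa T 0 - AG 0)) / 2 := by
  rw [AG_nn hy, AG_nn le_rfl, gp_zero]
  unfold Nr Aa
  rw [PC_abs T hy]
  ring

lemma sym_left (h : Sym l E) {y : ℝ} (hy : 0 ≤ y) {ε : ℝ} (hε : 0 < ε) : ∀ᶠ T in l,
    |Nr T 0 y - (1 + gp y)| ≤ (E y + E 0) / 2 + ε := by
  filter_upwards [h y hy ε hε, h 0 le_rfl ε hε] with T h1 h2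
  rw [zero_left T hy, abs_le]
  rw [abs_le] at h1 h2
  constructor <;> linarith [h1.1, h1.2, h2.1, h2.2]

lemma sym_Ico (hl : l ≤ atTop) (h : Sym l E) (hE : ∀ y z : ℝ, 0 ≤ y → y ≤ z → E y ≤ E z) {y : ℝ}
    (hy : 0 < y) {ε : ℝ} (hε : 0 < ε) : ∀ᶠ T in l,
    |PC T (Ico 0 y) / Xf T - (1 + gp y)| ≤ (E y + E 0) / 2 + ε := by
  have hc : ContinuousAt gp y := gp_cont.continuousAt
  have h1 : ∀ᶠ z in 𝓝 y, gp y - ε / 2 < gp z :=
    hc.eventually_const_lt (show gp y - ε / 2 < gp y by linarith)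
  obtain ⟨δ, hδ, h2⟩ := Metric.eventually_nhds_iff.1 h1
  obtain ⟨z, hz⟩ : ∃ z : ℝ, z = max (y / 2) (y - δ / 2) := ⟨_, rfl⟩
  have hz1 : y / 2 ≤ z := by rw [hz]; exact le_max_left _ _
  have hz2 : y - δ / 2 ≤ z := by rw [hz]; exact le_max_right _ _
  have hz3 : z < y := by
    rw [hz, max_lt_iff]
    constructor <;> linarith
  have h3 := h2 (show dist z y < δ by rw [Real.dist_eq, abs_lt]; constructor <;> linarith)
  have hEz := hE z y (by linarith) hz3.le
  filter_upwards [sym_left h hy.le hε, sym_left h (y := z) (by linarith) (ε := ε / 2)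
    (by positivity), hl (eventually_gt_atTop (1 : ℝ))] with T a1 a2 hT1
  have b1 : Nr T 0 z ≤ PC T (Ico 0 y) / Xf T := by
    unfold Nr
    refine div_le_div_of_nonneg_right ?_ (Xf_pos hT1).le
    exact PC_mono T (Icc_subset_Ico_right hz3)
  have b2 : PC T (Ico 0 y) / Xf T ≤ Nr T 0 y := by
    unfold Nr
    refine div_le_div_of_nonneg_right ?_ (Xf_pos hT1).le
    exact PC_mono T Ico_subset_Icc_self
  rw [abs_le] at a1 a2 ⊢
  constructor <;> linarith [a1.1, a1.2, a2.1, a2.2]

lemma sym_pos (hl : l ≤ atTop) (h : Sym l E) (hE : ∀ y z : ℝ, 0 ≤ y → y ≤ z → E y ≤ E z) {α β : ℝ}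
    (hα : 0 < α) (hαβ : α < β) {ε : ℝ} (hε : 0 < ε) : ∀ᶠ T in l,
    |Nr T α β - (gp β - gp α)| ≤ (E β + E α) / 2 + E 0 + ε := by
  filter_upwards [sym_left h (y := β) (by linarith) (ε := ε / 2) (by positivity),
    sym_Ico hl h hE hα (ε := ε / 2) (by positivity)] with T a1 a2
  have e2 : PC T (Set.Icc 0 β) = PC T (Set.Ico 0 α) + PC T (Set.Icc α β) := by
    rw [← PC_union T, Set.Ico_union_Icc_eq_Icc hα.le hαβ.le]
    rw [Set.disjoint_left]
    rintro x h1 h2
    exact absurd h1.2 (not_lt.2 h2.1)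
  have e3 : Nr T α β = Nr T 0 β - PC T (Ico 0 α) / Xf T := by
    unfold Nr
    rw [e2]
    ring
  rw [e3]
  rw [abs_le] at a1 a2 ⊢
  constructor <;> linarith [a1.1, a1.2, a2.1, a2.2]

/-- all windows -/
theorem sym_all (hl : l ≤ atTop) (h : Sym l E) (hE : ∀ y z : ℝ, 0 ≤ y → y ≤ z → E y ≤ E z)
    (hE0 : 0 ≤ E 0) {α β : ℝ} (hαβ : α < β) {ε : ℝ} (hε : 0 < ε) : ∀ᶠ T in l,
    |Nr T α β - pr α β| ≤ (E |α| + E |β|) / 2 + 2 * E 0 + ε := by
  have hn : ∀ y, 0 ≤ E |y| := fun y => hE0.trans (hE 0 |y| le_rfl (abs_nonneg _))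
  rcases lt_trichotomy α 0 with hα | rfl | hα
  · rcases lt_or_ge β 0 with hβ | hβ
    · have h1 := sym_pos hl h hE (α := -β) (β := -α) (by linarith) (by linarith) hε
      have e : gp (-α) - gp (-β) = pr α β := by
        unfold pr
        rw [gp_odd, gp_odd, Set.indicator_of_notMem (by
          rintro ⟨h2, h3⟩
          linarith)]
        ring
      rw [e] at h1
      filter_upwards [h1] with T h1
      have e2 : Nr T (-β) (-α) = Nr T α β := by
        unfold Nr
        congr 1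
        rw [← PC_neg T (Set.Icc α β)]
        congr 1
        simp
      rw [e2] at h1
      rw [abs_of_neg hα, abs_of_neg hβ]
      linarith
    · filter_upwards [sym_left h (y := -α) (by linarith) (ε := ε / 4) (by positivity),
        sym_left h (y := β) hβ (ε := ε / 4) (by positivity), h 0 le_rfl (ε / 2) (by positivity)]
        with T a1 a2 a3
      have e : 1 + gp (-α) - AG 0 + (1 + gp β) = pr α β := by
        unfold pr AG
        rw [gp_odd, Set.indicator_of_mem (show (0 : ℝ) ∈ Set.Icc α β from ⟨hα.le, hβ⟩),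
          if_neg (lt_irrefl _), gp_zero]
        ring
      have e0 : Nr T α β = Nr T 0 (-α) - Aa T 0 + Nr T 0 β := by
        unfold Nr Aa
        have e2 : PC T (Set.Icc 0 (-α)) = PC T {x | |x| ≤ 0} + PC T (Set.Ioc 0 (-α)) := by
          rw [← PC_union T]
          · congr 1
            ext x
            simp only [Set.mem_Icc, Set.mem_union, Set.mem_ofPred_eq, abs_nonpos_iff, Set.mem_Ioc]
            constructor
            · rintro ⟨h1, h2⟩
              rcases h1.eq_or_lt with h | h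
              · exact Or.inl h.symm
              · exact Or.inr ⟨h, h2⟩
            · rintro (rfl | ⟨h1, h2⟩)
              · exact ⟨le_rfl, by linarith⟩
              · exact ⟨h1.le, h2⟩
          · rw [Set.disjoint_left]
            rintro x (h1 : |x| ≤ 0) h2
            rw [abs_nonpos_iff] at h1
            rw [h1] at h2
            exact lt_irrefl _ h2.1
        have e3 : PC T (Set.Ico α 0) = PC T (Set.Ioc 0 (-α)) := by
          rw [← PC_neg T (Set.Ioc 0 (-α))]
          congr 1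
          simp
        have e4 : PC T (Set.Icc α β) = PC T (Set.Ico α 0) + PC T (Set.Icc 0 β) := by
          rw [← PC_union T, Set.Ico_union_Icc_eq_Icc hα.le hβ]
          rw [Set.disjoint_left]
          rintro x h1 h2
          exact absurd h1.2 (not_lt.2 h2.1)
        rw [e2, e4, e3]
        ring
      rw [e0, ← e, abs_of_neg hα, abs_of_nonneg hβ]
      rw [abs_le] at a1 a2 a3 ⊢
      constructor <;> linarith [a1.1, a1.2, a2.1, a2.2, a3.1, a3.2]
  · filter_upwards [sym_left h (y := β) hαβ.le hε] with T h1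
    have e : 1 + gp β = pr 0 β := by
      unfold pr
      rw [Set.indicator_of_mem (show (0 : ℝ) ∈ Set.Icc 0 β from ⟨le_rfl, hαβ.le⟩), gp_zero]
      ring
    rw [e] at h1
    rw [abs_zero, abs_of_pos hαβ]
    linarith
  · filter_upwards [sym_pos hl h hE hα hαβ hε] with T h1
    have e : gp β - gp α = pr α β := by
      unfold pr
      rw [Set.indicator_of_notMem (by
        rintro ⟨h2, h3⟩
        linarith)]
      ring
    rw [e] at h1
    rw [abs_of_pos hα, abs_of_pos (hα.trans hαβ)]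
    linarith

end

open Pool.Agent.Y744.G (N P X)
open Pool.Agent.Y749.Rig.P (F MeanUpper up_iff)

/-- **Stability of the pair counts** -/
theorem main {l : Filter ℝ} (hl : l ≤ atTop) {R : ℝ} (hR : 1 ≤ R) (h : MeanUpper l R) {α β : ℝ}
    (hαβ : α < β) {ε : ℝ} (hε : 0 < ε) : ∀ᶠ T in l,
    |N T α β / X T - P α β| ≤ 360 * (1 + |α| + |β|) / R + ε := by
  have hR0 : 0 < R := by linarith
  have hup := (up_iff hl R).1 h
  have hS : Sym l fun u => 120 * (1 + u) / R := fun u hu ε hε =>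
    Aa_est Pool.Agent.X113.UF.smallTest hl hR hup hu hε
  have h1 := sym_all hl hS (fun y z _ hyz => by
    gcongr) (by positivity) hαβ hε
  filter_upwards [h1, hl (eventually_gt_atTop (1 : ℝ))] with T h2 hT
  rw [Pool.Agent.Y744.G.N_eq hT, Pool.Agent.Y744.G.X_eq, Pool.Agent.Y744.G.P_eq]
  have e : |PC T (Icc α β) / Xf T - pr α β| = |Nr T α β - pr α β| := rfl
  rw [e]
  refine h2.trans ?_
  have e1 : 360 * (1 + |α| + |β|) / R = 360 * (1 / R) + 360 * (|α| / R) + 360 * (|β| / R) := by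
    field_simp
  have e2 : (120 * (1 + |α|) / R + 120 * (1 + |β|) / R) / 2 + 2 * (120 * (1 + 0) / R) =
      360 * (1 / R) + 60 * (|α| / R) + 60 * (|β| / R) := by
    field_simp
    ring
  rw [e2, e1]
  have p1 : 0 ≤ |α| / R := by positivity
  have p2 : 0 ≤ |β| / R := by positivity
  linarith

end Pool.Agent.X113.ST
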