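import Pool.Agent.X113.UF1
import Pool.Agent.Y21.FW.Zeros

set_option autoImplicit false

/-! # Upper bounds for the means of the form factor: simple zeros on the critical line -/

open MeasureTheory Set Filter Topology
open scoped NNReal ENNReal

namespace Pool.Agent.X113.UF

open Pool.Agent.Y749.Rig

/-- the mass of the diagonal is at most the pairing with the tent -/
lemma diag_le {R : ℝ} (hR : 0 < R) : ∀ᶠ T in atTop, (Mp T).real {0} ≤ ∫ α, tr R α * Fr T α := by
  obtain ⟨C, hC, hB⟩ := Mp_bdd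
  filter_upwards [eventually_ge_atTop 10, hB] with T hT hBT
  have hfin := Mp_fin T
  rw [Fr_pair (tr_int hR)]
  have e : (Mp T).real {0} = ∫ x in ({0} : Set ℝ), fl (tr R) x *
      ww (2 * Real.pi * x / Real.log T) ∂(Mp T) := by
    rw [integral_singleton, mul_zero, zero_div, ww_zero, fl_tr_zero hR]
    simp
  rw [e]
  refine setIntegral_le_integral ?_ (ae_of_all _ fun x => ?_)
  · refine (Bdd.integrable (by linarith) hBT (fl_cont (tr_int hR)) (fl_qd (adm_tr hR))).mul_bdd
      (c := 1) ?_ (ae_of_all _ fun x => ?_)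
    · have := ww_cont
      apply Continuous.aestronglyMeasurable
      fun_prop
    · rw [Real.norm_eq_abs, abs_of_pos (ww_pos _)]
      exact ww_le _
  · exact mul_nonneg (fl_tr_nonneg hR x) (ww_pos _).le

/-- the upper bound for the diagonal -/
theorem diag_up (ST : SmallTest) {l : Filter ℝ} (hl : l ≤ atTop) {R : ℝ} (hR : 1 ≤ R)
    (hup : MeanUp l R) {ε : ℝ} (hε : 0 < ε) :
    ∀ᶠ T in l, (Mp T).real {0} ≤ 1 + 1 / (3 * R ^ 2) + ε := by
  have hR0 : 0 < R := by linarith
  have hG0 : ∀ᶠ T in l, ∀ α, 0 ≤ Fr T α :=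
    hl ((eventually_ge_atTop 10).mono fun T hT α => Fr_nonneg hT α)
  obtain ⟨e, he⟩ : ∃ e : ℝ, e = ε / 4 := ⟨_, rfl⟩
  have he0 : 0 < e := by rw [he]; positivity
  obtain ⟨δ0, hδ0, hnear⟩ := near0' ST (η := R * e) (by positivity)
  obtain ⟨δ, hδ⟩ : ∃ δ : ℝ, δ = min δ0 (1 / 2) := ⟨_, rfl⟩
  have hδ1 : 0 < δ := by rw [hδ]; exact lt_min hδ0 (by positivity)
  have hδ2 : δ ≤ δ0 := by rw [hδ]; exact min_le_left _ _
  have hδ3 : δ < R := by
    have : δ ≤ 1 / 2 := by rw [hδ]; exact min_le_right _ _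
    linarith
  have htc := tr_cont R
  have htn : ∀ x, 0 ≤ tr R x := fun x => tr_nonneg hR0 x
  have m1 : ∀ᶠ T in l, ∫ α in δ..R, tr R α * Fr T α ≤ (∫ α in δ..R, tr R α * mn α) + e :=
    up_weight (fun T => Fr_cont T) hG0 mn_cont mn_nonneg hδ3
      (fun a'' b'' g1 g2 g3 => hup a'' b'' (hδ1.trans_le g1) g2 g3) htc (fun x _ => htn x) he0
  filter_upwards [m1, hl (hnear δ hδ1 hδ2), hl (diag_le hR0), hG0] with T h1 h4 h5 hF0
  have hFc := Fr_cont T
  have hci : ∀ {g : ℝ → ℝ}, Continuous g → ∀ p q : ℝ, IntervalIntegrable g volume p q :=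
    fun hg p q => hg.intervalIntegrable p q
  have c1 : Continuous fun α => tr R α * Fr T α := htc.mul hFc
  have c2 : Continuous fun α => tr R α * mn α := htc.mul mn_cont
  have d1 : ∫ α, tr R α * Fr T α = (∫ α in (-δ)..δ, tr R α * Fr T α) +
      2 * ∫ α in δ..R, tr R α * Fr T α := by
    rw [int_supp hR0 (fun x hx => by rw [tr_supp hR0 x hx, zero_mul])]
    rw [← intervalIntegral.integral_add_adjacent_intervals (a := -R) (b := -δ) (c := R)
      (hci c1 _ _) (hci c1 _ _), ← intervalIntegral.integral_add_adjacent_intervals (a := -δ)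
      (b := δ) (c := R) (hci c1 _ _) (hci c1 _ _)]
    have : ∫ α in (-R)..(-δ), tr R α * Fr T α = ∫ α in δ..R, tr R α * Fr T α := by
      have h6 := intervalIntegral.integral_comp_neg (a := δ) (b := R)
        (fun α => tr R α * Fr T α)
      rw [← h6]
      refine intervalIntegral.integral_congr fun α _ => ?_
      rw [tr_even, Fr_even]
    rw [this]
    ring
  have d2 : ∫ α in (-δ)..δ, tr R α * Fr T α ≤ 1 / R * (1 + R * e) := by
    calc ∫ α in (-δ)..δ, tr R α * Fr T α ≤ ∫ α in (-δ)..δ, 1 / R * Fr T α := by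
          refine intervalIntegral.integral_mono_on (by linarith) (hci c1 _ _)
            (hci (continuous_const.mul hFc) _ _) fun α _ => ?_
          apply mul_le_mul_of_nonneg_right _ (hF0 α)
          unfold tr
          apply div_le_div_of_nonneg_right _ hR0.le
          apply max_le (by norm_num)
          have : 0 ≤ |α| / R := by positivity
          linarith
      _ = 1 / R * ∫ α in (-δ)..δ, Fr T α := intervalIntegral.integral_const_mul _ _
      _ ≤ _ := by gcongr
  have d3 : ∫ α in (0 : ℝ)..R, tr R α * mn α = (∫ α in (0 : ℝ)..δ, tr R α * mn α) +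
      ∫ α in δ..R, tr R α * mn α := by
    rw [intervalIntegral.integral_add_adjacent_intervals (hci c2 _ _) (hci c2 _ _)]
  have d4 : 0 ≤ ∫ α in (0 : ℝ)..δ, tr R α * mn α :=
    intervalIntegral.integral_nonneg hδ1.le fun x _ => mul_nonneg (htn x) (mn_nonneg x)
  rw [tr_mn hR] at d3
  have hRe : 1 / R * (1 + R * e) = 1 / R + e := by field_simp
  rw [hRe] at d2
  have hRR : 1 / (2 * R) = 1 / R / 2 := by field_simp
  have hRR2 : 1 / (3 * R ^ 2) = 2 * (1 / (6 * R ^ 2)) := by field_simp; norm_num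
  rw [hRR] at d3
  rw [hRR2]
  linarith

/-- simple zeros on the critical line -/
def SC (T : ℝ) : Set ℂ := {s : ℂ | s ∈ zs T ∧ s.re = 1 / 2 ∧ analyticOrderNatAt riemannZeta s = 1}

lemma SC_fin (T : ℝ) : (SC T).Finite := (zs_finite T).subset fun _ h => h.1

lemma mm_one {T : ℝ} {s : ℂ} (hs : s ∈ ZZ T) : 1 ≤ mm s := by
  rw [mem_ZZ] at hs
  have him := zs_im_pos hs
  have h1 : 0 < analyticOrderNatAt riemannZeta s :=
    (Pool.Agent.Y21.FW.mult_pos_iff (Pool.Agent.Y21.FW.ne_one him.ne')).2 hs.1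
  show (1 : ℝ) ≤ ((analyticOrderNatAt riemannZeta s : ℕ) : ℝ)
  exact_mod_cast h1

/-- the diagonal counts the zeros that are not simple zeros on the line twice -/
theorem diag_count {T : ℝ} (hT : 10 ≤ T) :
    2 * (∑ s ∈ ZZ T, mm s) - (SC T).ncard ≤ (Mp T).real {0} * nT T := by
  classical
  have hn := nT_pos hT
  rw [Mp_real hT (measurableSet_singleton 0)]
  rw [div_mul_cancel₀ _ hn.ne']
  have hSC : ((SC T).ncard : ℝ) = ∑ s ∈ ZZ T, if s ∈ SC T then (1 : ℝ) else 0 := by
    have e : SC T = (((ZZ T).filter fun s => s ∈ SC T : Finset ℂ) : Set ℂ) := by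
      ext s
      rw [Finset.mem_coe, Finset.mem_filter, mem_ZZ]
      exact ⟨fun h => ⟨h.1, h⟩, fun h => h.2⟩
    conv_lhs => rw [e, Set.ncard_coe_finset]
    rw [Finset.card_filter]
    push_cast
    rfl
  rw [hSC, Finset.mul_sum, ← Finset.sum_sub_distrib]
  unfold RR
  refine Finset.sum_le_sum fun s hs => ?_
  have hL : 0 < Real.log T := by linarith [one_lt_log (show 3 ≤ T by linarith)]
  have hnn : ∀ s' ∈ ZZ T, 0 ≤ mm s * mm s' * (({0} : Set ℝ).indicator (fun _ => (1 : ℝ))
      ((s.im - s'.im) * Real.log T / (2 * Real.pi))) := fun s' _ =>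
    mul_nonneg (mul_nonneg (mm_nonneg _) (mm_nonneg _)) (indicator_nonneg (fun _ _ => by norm_num) _)
  have hs1 := mm_one hs
  have hss : mm s * mm s * (({0} : Set ℝ).indicator (fun _ => (1 : ℝ))
      ((s.im - s.im) * Real.log T / (2 * Real.pi))) = mm s * mm s := by
    rw [sub_self, zero_mul, zero_div, indicator_of_mem (mem_singleton _), mul_one]
  by_cases hsc : s ∈ SC T
  · rw [if_pos hsc]
    have hm : mm s = 1 := by
      show ((analyticOrderNatAt riemannZeta s : ℕ) : ℝ) = 1
      rw [hsc.2.2]; norm_num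
    refine le_trans ?_ (Finset.single_le_sum hnn hs)
    rw [hss, hm]
    norm_num
  · rw [if_neg hsc, sub_zero]
    by_cases hm2 : 2 ≤ mm s
    · refine le_trans ?_ (Finset.single_le_sum hnn hs)
      rw [hss]
      nlinarith
    · -- simple but off the line
      push Not at hm2
      have hm : analyticOrderNatAt riemannZeta s = 1 := by
        have h1 : (1 : ℝ) ≤ ((analyticOrderNatAt riemannZeta s : ℕ) : ℝ) := hs1
        have h2 : ((analyticOrderNatAt riemannZeta s : ℕ) : ℝ) < 2 := hm2
        have h3 : 1 ≤ analyticOrderNatAt riemannZeta s := by exact_mod_cast h1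
        have h4 : analyticOrderNatAt riemannZeta s < 2 := by exact_mod_cast h2
        omega
      have hszs := mem_ZZ.1 hs
      have hre : s.re ≠ 1 / 2 := fun h => hsc ⟨hszs, h, hm⟩
      have him := zs_im_pos hszs
      have hz : s ∈ Pool.Agent.Y21.FW.zeros 0 T :=
        ⟨hszs.1, hszs.2.1, hszs.2.2.1, him, by rw [zero_add]; exact hszs.2.2.2.2⟩
      have hz' := Pool.Agent.Y21.FW.zeros_symm le_rfl hz
      obtain ⟨s', hs'⟩ : ∃ s' : ℂ, s' = 1 - (starRingEnd ℂ) s := ⟨_, rfl⟩
      rw [← hs'] at hz'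
      have him' : s'.im = s.im := by rw [hs']; simp
      have hre' : s'.re = 1 - s.re := by rw [hs']; simp
      have hne : s ≠ s' := by
        intro h
        apply hre
        have h1 := congrArg Complex.re h
        rw [hre'] at h1
        linarith
      have hmem : s' ∈ ZZ T := mem_ZZ.2 ⟨hz'.1, hz'.2.1, hz'.2.2.1, hz'.2.2.2.1.le, by
        have := hz'.2.2.2.2
        rwa [zero_add] at this⟩
      have hs1' := mm_one hmem
      have hpair : ∑ x ∈ ({s, s'} : Finset ℂ), mm s * mm x *
          (({0} : Set ℝ).indicator (fun _ => (1 : ℝ))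
            ((s.im - x.im) * Real.log T / (2 * Real.pi))) = mm s * mm s + mm s * mm s' := by
        rw [Finset.sum_pair hne, hss, him', sub_self, zero_mul, zero_div,
          indicator_of_mem (mem_singleton _), mul_one]
      have hsub : ({s, s'} : Finset ℂ) ⊆ ZZ T := by
        intro x hx
        rw [Finset.mem_insert, Finset.mem_singleton] at hx
        rcases hx with rfl | rfl
        · exact hs
        · exact hmem
      refine le_trans ?_ (Finset.sum_le_sum_of_subset_of_nonneg hsub fun x hx _ => hnn x hx)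
      rw [hpair]
      nlinarith

end Pool.Agent.X113.UF
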