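import Pool.Agent.Y749.Rig.FFf

set_option autoImplicit false

/-! # The upper half of the strong pair correlation conjecture in the mean -/

open MeasureTheory Set Filter Topology
open scoped NNReal ENNReal

namespace Pool.Agent.X113.UH

open Pool.Agent.Y749.Rig

lemma tent_RH (RH : RiemannHypothesis) {l : Filter ℝ} (hl : l ≤ atTop) {h : ℝ} (hh : 0 < h)
    (h1' : h < 1) :
    Tendsto (fun T => ∫ α, max 0 (h - |α|) * Fr T α) l (𝓝 (h + ∫ α, max 0 (h - |α|) * mn α)) := by
  have h1 := (Fr_lim (tr_int hh) (fl_qd (adm_tr hh)) le_rfl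
    (test_limRH RH (adm_tr hh) hh h1')).mono_left hl
  have hcc : cc (tr h) = tr h 0 + ∫ α, mn α * tr h α := by
    unfold cc
    congr 1
    refine integral_congr_ae (ae_of_all _ fun α => ?_)
    simp only
    rcases le_or_gt h |α| with h2 | h2
    · rw [tr_supp hh α h2]; simp
    · unfold mn
      rw [min_eq_left (by linarith)]
  rw [hcc] at h1
  have h2 := h1.const_mul (h ^ 2)
  have e1 : h ^ 2 * (tr h 0 + ∫ α, mn α * tr h α) = h + ∫ α, max 0 (h - |α|) * mn α := by
    rw [mul_add, tent_eq hh 0, ← integral_const_mul]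
    congr 1
    · rw [abs_zero, sub_zero, max_eq_right hh.le]
    · refine integral_congr_ae (ae_of_all _ fun α => ?_)
      simp only
      rw [← tent_eq hh]
      ring
  rw [e1] at h2
  refine h2.congr fun T => ?_
  rw [← integral_const_mul]
  refine integral_congr_ae (ae_of_all _ fun α => ?_)
  simp only
  rw [← tent_eq hh]
  ring

/-- Montgomery's theorem for the means -/
theorem mont_mean (RH : RiemannHypothesis) {l : Filter ℝ} (hl : l ≤ atTop) {a b : ℝ}
    (ha : 0 < a) (hab : a < b) (hb1 : b < 1) {ε : ℝ} (hε : 0 < ε) :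
    ∀ᶠ T in l, ∫ α in a..b, Fr T α ≤ (∫ α in a..b, mn α) + ε := by
  obtain ⟨δ, hδ⟩ : ∃ δ : ℝ, δ = min (a / 2) (min ((1 - b) / 2) (ε / 8)) := ⟨_, rfl⟩
  have hδ0 : 0 < δ := by
    rw [hδ]; exact lt_min (by positivity) (lt_min (by linarith) (by positivity))
  have hδ1 : δ ≤ a / 2 := by rw [hδ]; exact min_le_left _ _
  have hδ2 : δ ≤ ε / 8 := by rw [hδ]; exact (min_le_right _ _).trans (min_le_right _ _)
  have hδ3 : δ ≤ (1 - b) / 2 := by rw [hδ]; exact (min_le_right _ _).trans (min_le_left _ _)
  obtain ⟨ψ, hψ⟩ : ∃ ψ : ℝ → ℝ, ∀ α, ψ α = (max 0 (b + δ - |α|) - max 0 (b - |α|) -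
    max 0 (a - |α|) + max 0 (a - δ - |α|)) / δ := ⟨_, fun α => rfl⟩
  have hψc : Continuous ψ := by
    have : ψ = fun α => (max 0 (b + δ - |α|) - max 0 (b - |α|) -
      max 0 (a - |α|) + max 0 (a - δ - |α|)) / δ := funext hψ
    rw [this]
    fun_prop
  have hψ0 : ∀ α, 0 ≤ ψ α := by
    intro α
    rw [hψ]
    apply div_nonneg _ hδ0.le
    rcases le_total (b + δ) |α| with h1 | h1
    · rw [max_eq_left (by linarith), max_eq_left (by linarith), max_eq_left (by linarith),
        max_eq_left (by linarith)]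
      norm_num
    · rw [max_eq_right (by linarith : 0 ≤ b + δ - |α|)]
      rcases le_total b |α| with h2 | h2
      · rw [max_eq_left (by linarith : b - |α| ≤ 0), max_eq_left (by linarith : a - |α| ≤ 0),
          max_eq_left (by linarith : a - δ - |α| ≤ 0)]
        linarith
      · rw [max_eq_right (by linarith : 0 ≤ b - |α|)]
        rcases le_total a |α| with h3 | h3
        · rw [max_eq_left (by linarith : a - |α| ≤ 0), max_eq_left (by linarith : a - δ - |α| ≤ 0)]
          linarith
        · rw [max_eq_right (by linarith : 0 ≤ a - |α|)]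
          have := le_max_right 0 (a - δ - |α|)
          linarith
  have hψ1 : ∀ α, ψ α ≤ 1 := by
    intro α
    rw [hψ, div_le_one hδ0]
    rcases le_total (b + δ) |α| with h1 | h1
    · rw [max_eq_left (by linarith), max_eq_left (by linarith), max_eq_left (by linarith),
        max_eq_left (by linarith)]
      linarith
    · rw [max_eq_right (by linarith : 0 ≤ b + δ - |α|)]
      rcases le_total b |α| with h2 | h2
      · rw [max_eq_left (by linarith : b - |α| ≤ 0), max_eq_left (by linarith : a - |α| ≤ 0),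
          max_eq_left (by linarith : a - δ - |α| ≤ 0)]
        linarith
      · rw [max_eq_right (by linarith : 0 ≤ b - |α|)]
        rcases le_total a |α| with h3 | h3
        · rw [max_eq_left (by linarith : a - |α| ≤ 0), max_eq_left (by linarith : a - δ - |α| ≤ 0)]
          linarith
        · rw [max_eq_right (by linarith : 0 ≤ a - |α|)]
          have : max 0 (a - δ - |α|) ≤ a - |α| := max_le (by linarith) (by linarith)
          linarith
  have hψm : ∀ α ∈ Icc a b, ψ α = 1 := by
    intro α hα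
    have h0 : |α| = α := abs_of_pos (by linarith [hα.1])
    rw [hψ, h0, max_eq_right (by linarith [hα.2]), max_eq_right (by linarith [hα.2]),
      max_eq_left (by linarith [hα.1]), max_eq_left (by linarith [hα.1])]
    field_simp
    ring
  have hψs : ∀ α, b + δ ≤ |α| → ψ α = 0 := by
    intro α hα
    rw [hψ, max_eq_left (by linarith), max_eq_left (by linarith), max_eq_left (by linarith),
        max_eq_left (by linarith)]
    simp
  have hψz : ∀ α ∈ Icc (0 : ℝ) (a - δ), ψ α = 0 := by
    intro α hα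
    have h0 : |α| = α := abs_of_nonneg hα.1
    rw [hψ, h0, max_eq_right (by linarith [hα.2]), max_eq_right (by linarith [hα.2]),
      max_eq_right (by linarith [hα.2]), max_eq_right (by linarith [hα.2])]
    field_simp
    ring
  have hψe : ∀ α, ψ (-α) = ψ α := fun α => by rw [hψ, hψ, abs_neg]
  -- the limit
  have hsum : ∀ {g : ℝ → ℝ}, Continuous g → ∫ α, ψ α * g α = ((∫ α, max 0 (b + δ - |α|) * g α) -
      (∫ α, max 0 (b - |α|) * g α) - (∫ α, max 0 (a - |α|) * g α) +
      ∫ α, max 0 (a - δ - |α|) * g α) / δ := by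
    intro g hg
    have i1 := tent_integrable (b + δ) hg
    have i2 := tent_integrable b hg
    have i3 := tent_integrable a hg
    have i4 := tent_integrable (a - δ) hg
    have i12 : Integrable fun α : ℝ => max 0 (b + δ - |α|) * g α - max 0 (b - |α|) * g α :=
      i1.sub i2
    have i123 : Integrable fun α : ℝ => max 0 (b + δ - |α|) * g α - max 0 (b - |α|) * g α -
      max 0 (a - |α|) * g α := i12.sub i3
    rw [← integral_sub i1 i2, ← integral_sub i12 i3,
      ← integral_add i123 i4, ← integral_div]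
    refine integral_congr_ae (ae_of_all _ fun α => ?_)
    simp only
    rw [hψ]
    ring
  have hlim : Tendsto (fun T => ∫ α, ψ α * Fr T α) l (𝓝 (∫ α, ψ α * mn α)) := by
    have t1 := tent_RH RH hl (h := b + δ) (by linarith) (by linarith)
    have t2 := tent_RH RH hl (h := b) (by linarith) (by linarith)
    have t3 := tent_RH RH hl (h := a) ha (by linarith)
    have t4 := tent_RH RH hl (h := a - δ) (by linarith) (by linarith)
    have t5 := (((t1.sub t2).sub t3).add t4).div_const δ
    have e1 : (b + δ + (∫ α, max 0 (b + δ - |α|) * mn α) - (b + ∫ α, max 0 (b - |α|) * mn α) -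
        (a + ∫ α, max 0 (a - |α|) * mn α) + (a - δ + ∫ α, max 0 (a - δ - |α|) * mn α)) / δ =
        ∫ α, ψ α * mn α := by
      rw [hsum mn_cont]
      ring
    rw [e1] at t5
    refine t5.congr fun T => ?_
    rw [hsum (Fr_cont T)]
  have hhalf : ∀ {g : ℝ → ℝ}, Continuous g → (∀ α, g (-α) = g α) →
      ∫ α, ψ α * g α = 2 * ((∫ α in (0 : ℝ)..(a - δ), ψ α * g α) +
        (∫ α in (a - δ)..a, ψ α * g α) + (∫ α in a..b, ψ α * g α) +
        ∫ α in b..(b + δ), ψ α * g α) := by
    intro g hg hge
    have c1 : Continuous fun α => ψ α * g α := hψc.mul hg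
    have ci : ∀ p q : ℝ, IntervalIntegrable (fun α => ψ α * g α) volume p q :=
      fun p q => c1.intervalIntegrable p q
    rw [int_supp (show 0 < b + δ by linarith) (fun x hx => by rw [hψs x hx, zero_mul]),
      intervalIntegral.integral_add_adjacent_intervals (ci _ _) (ci _ _),
      intervalIntegral.integral_add_adjacent_intervals (ci _ _) (ci _ _),
      intervalIntegral.integral_add_adjacent_intervals (ci _ _) (ci _ _),
      ← intervalIntegral.integral_add_adjacent_intervals (b := 0) (ci _ _) (ci _ _)]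
    have : ∫ α in (-(b + δ))..0, ψ α * g α = ∫ α in (0 : ℝ)..(b + δ), ψ α * g α := by
      have h6 := intervalIntegral.integral_comp_neg (a := 0) (b := b + δ)
        (fun α => ψ α * g α)
      rw [neg_zero] at h6
      rw [← h6]
      refine intervalIntegral.integral_congr fun α _ => ?_
      show ψ (-α) * g (-α) = ψ α * g α
      rw [hψe, hge]
    rw [this]
    ring
  have hmn : ∫ α, ψ α * mn α ≤ 2 * (∫ α in a..b, mn α) + 4 * δ := by
    rw [hhalf mn_cont mn_even]
    have z0 : ∫ α in (0 : ℝ)..(a - δ), ψ α * mn α = 0 := by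
      rw [intervalIntegral.integral_congr (g := fun _ => (0 : ℝ))]
      · simp
      · intro α hα
        rw [uIcc_of_le (by linarith)] at hα
        show ψ α * mn α = 0
        rw [hψz α hα, zero_mul]
    have z1 : ∀ p q : ℝ, p ≤ q → ∫ α in p..q, ψ α * mn α ≤ q - p := by
      intro p q hpq
      calc ∫ α in p..q, ψ α * mn α ≤ ∫ α in p..q, (1 : ℝ) := by
            refine intervalIntegral.integral_mono_on hpq ((hψc.mul mn_cont).intervalIntegrable _ _)
              (by simp) fun α _ => ?_
            exact mul_le_one₀ (hψ1 α) (mn_nonneg α) (mn_le α)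
        _ = _ := by simp
    have z2 : ∫ α in a..b, ψ α * mn α = ∫ α in a..b, mn α := by
      refine intervalIntegral.integral_congr fun α hα => ?_
      rw [uIcc_of_le hab.le] at hα
      show ψ α * mn α = mn α
      rw [hψm α hα, one_mul]
    have z3 := z1 (a - δ) a (by linarith)
    have z4 := z1 b (b + δ) (by linarith)
    rw [z0, z2]
    linarith
  filter_upwards [hlim.eventually (ge_mem_nhds (show ∫ α, ψ α * mn α <
    (∫ α, ψ α * mn α) + δ by linarith)), hl (eventually_ge_atTop 10)] with T h1 h2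
  have hF0 := Fr_nonneg h2
  have hFc := Fr_cont T
  rw [hhalf hFc (Fr_even T)] at h1
  have z2 : ∫ α in a..b, ψ α * Fr T α = ∫ α in a..b, Fr T α := by
    refine intervalIntegral.integral_congr fun α hα => ?_
    rw [uIcc_of_le hab.le] at hα
    show ψ α * Fr T α = Fr T α
    rw [hψm α hα, one_mul]
  have nn : ∀ p q : ℝ, p ≤ q → 0 ≤ ∫ α in p..q, ψ α * Fr T α := by
    intro p q hpq
    exact intervalIntegral.integral_nonneg hpq fun α _ => mul_nonneg (hψ0 α) (hF0 α)
  have n1 := nn 0 (a - δ) (by linarith)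
  have n2 := nn (a - δ) a (by linarith)
  have n3 := nn b (b + δ) (by linarith)
  rw [z2] at h1
  linarith


/-- the upper bound in the mean -/
def UM (l : Filter ℝ) (a R : ℝ) : Prop := ∀ ε : ℝ, 0 < ε → ∀ᶠ T in l,
  ∫ α in a..R, max (Fr T α - mn α) 0 ≤ ε

lemma pos_cont (T : ℝ) : Continuous fun α => max (Fr T α - mn α) 0 :=
  ((Fr_cont T).sub mn_cont).max continuous_const

lemma um_up (RH : RiemannHypothesis) {l : Filter ℝ} (hl : l ≤ atTop) {c R : ℝ}
    (hc1 : c < 1) (h : UM l c R) : MeanUp l R := by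
  have key : ∀ a b : ℝ, c ≤ a → a ≤ b → b ≤ R → ∀ ε : ℝ, 0 < ε → ∀ᶠ T in l,
      ∫ α in a..b, Fr T α ≤ (∫ α in a..b, mn α) + ε := by
    intro a b hca hab hbR ε hε
    filter_upwards [h ε hε] with T hT
    have hp := pos_cont T
    have hpi : ∀ p q : ℝ, IntervalIntegrable (fun α => max (Fr T α - mn α) 0) volume p q :=
      fun p q => hp.intervalIntegrable p q
    have hFc := Fr_cont T
    have h1 : ∫ α in a..b, (Fr T α - mn α) ≤ ∫ α in a..b, max (Fr T α - mn α) 0 :=
      intervalIntegral.integral_mono_on hab ((hFc.sub mn_cont).intervalIntegrable _ _)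
        (hpi _ _) fun α _ => le_max_left _ _
    have h2 : ∫ α in a..b, max (Fr T α - mn α) 0 ≤ ∫ α in c..R, max (Fr T α - mn α) 0 := by
      refine intervalIntegral.integral_mono_interval hca hab hbR ?_ (hpi _ _)
      exact ae_of_all _ fun α => le_max_right _ _
    rw [intervalIntegral.integral_sub (hFc.intervalIntegrable _ _)
      (mn_cont.intervalIntegrable _ _)] at h1
    linarith
  intro a b ha hab hbR ε hε
  rcases le_or_gt c a with h1 | h1
  · exact key a b h1 hab.le hbR ε hε
  · rcases le_or_gt b c with h2 | h2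
    · exact mont_mean RH hl ha hab (by linarith) hε
    · filter_upwards [mont_mean RH hl ha h1 hc1 (half_pos hε),
        key c b le_rfl h2.le hbR (ε / 2) (half_pos hε)] with T t1 t2
      have hFc := Fr_cont T
      have e1 : ∫ α in a..b, Fr T α = (∫ α in a..c, Fr T α) + ∫ α in c..b, Fr T α :=
        (intervalIntegral.integral_add_adjacent_intervals (hFc.intervalIntegrable _ _)
          (hFc.intervalIntegrable _ _)).symm
      have e2 : ∫ α in a..b, mn α = (∫ α in a..c, mn α) + ∫ α in c..b, mn α :=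
        (intervalIntegral.integral_add_adjacent_intervals (mn_cont.intervalIntegrable _ _)
          (mn_cont.intervalIntegrable _ _)).symm
      rw [e1, e2]
      linarith

/-- **The upper half in the mean gives the lower half in the mean.** -/
theorem main (RH : RiemannHypothesis) {l : Filter ℝ} (hl : l ≤ atTop) {c R A : ℝ} (hc0 : 0 < c)
    (hc1 : c < 1) (hA : c < A) (hAR : A < R) (hR : 1 ≤ R) (h : UM l c R) {ε : ℝ} (hε : 0 < ε) :
    ∀ᶠ T in l, ∫ α in c..A, |Fr T α - mn α| ≤ 1 / (6 * (R - A)) + ε := by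
  have hup := um_up RH hl hc1 h
  filter_upwards [h (ε / 4) (by positivity), quant RH hl hR hup hc0 hA hAR (half_pos hε)]
    with T t1 t2
  have hp := pos_cont T
  have hFc := Fr_cont T
  have hpi : ∀ p q : ℝ, IntervalIntegrable (fun α => max (Fr T α - mn α) 0) volume p q :=
    fun p q => hp.intervalIntegrable p q
  have h1 : ∫ α in c..A, |Fr T α - mn α| =
      2 * (∫ α in c..A, max (Fr T α - mn α) 0) - ∫ α in c..A, (Fr T α - mn α) := by
    have c1 : Continuous fun α => 2 * max (Fr T α - mn α) 0 := continuous_const.mul hp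
    have c2 : Continuous fun α => Fr T α - mn α := hFc.sub mn_cont
    rw [← intervalIntegral.integral_const_mul, ← intervalIntegral.integral_sub
      (c1.intervalIntegrable _ _) (c2.intervalIntegrable _ _)]
    refine intervalIntegral.integral_congr fun α _ => ?_
    show |Fr T α - mn α| = 2 * max (Fr T α - mn α) 0 - (Fr T α - mn α)
    rcases le_total 0 (Fr T α - mn α) with g | g
    · rw [abs_of_nonneg g, max_eq_left g]; ring
    · rw [abs_of_nonpos g, max_eq_right g]; ring
  have h2 : ∫ α in c..A, max (Fr T α - mn α) 0 ≤ ∫ α in c..R, max (Fr T α - mn α) 0 := by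
    refine intervalIntegral.integral_mono_interval le_rfl hA.le hAR.le ?_ (hpi _ _)
    exact ae_of_all _ fun α => le_max_right _ _
  rw [h1, intervalIntegral.integral_sub (hFc.intervalIntegrable _ _)
    (mn_cont.intervalIntegrable _ _)]
  linarith

/-- the equivalence of the two bounds in the mean -/
theorem equiv (RH : RiemannHypothesis) {l : Filter ℝ} (hl : l ≤ atTop) {c : ℝ} (hc0 : 0 < c)
    (hc1 : c < 1) (h : ∀ R : ℝ, c < R → UM l c R) {A : ℝ} (hA : c < A) {ε : ℝ} (hε : 0 < ε) :
    ∀ᶠ T in l, ∫ α in c..A, |Fr T α - mn α| ≤ ε := by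
  obtain ⟨R, hR⟩ : ∃ R : ℝ, R = max 1 (A + 1 / (3 * ε)) := ⟨_, rfl⟩
  have hR1 : 1 ≤ R := by rw [hR]; exact le_max_left _ _
  have hR2 : A + 1 / (3 * ε) ≤ R := by rw [hR]; exact le_max_right _ _
  have hpos : 0 < 1 / (3 * ε) := by positivity
  filter_upwards [main RH hl hc0 hc1 hA (by linarith) hR1 (h R (by linarith)) (half_pos hε)]
    with T hT
  have h1 : 1 / (6 * (R - A)) ≤ ε / 2 := by
    have h2 : 1 / (3 * ε) ≤ R - A := by linarith
    rw [div_le_iff₀ (by positivity)] at h2
    rw [div_le_iff₀ (by nlinarith)]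
    linarith
  linarith

/-- the measure of the exceptional set -/
theorem in_measure {l : Filter ℝ} {c : ℝ} (hc1 : c < 1)
    (h : ∀ A : ℝ, c < A → ∀ ε : ℝ, 0 < ε → ∀ᶠ T in l, ∫ α in c..A, |Fr T α - mn α| ≤ ε)
    {A : ℝ} (hA : 1 ≤ A) {η ε : ℝ} (hη : 0 < η) (hε : 0 < ε) :
    ∀ᶠ T in l, volume {α : ℝ | α ∈ Icc 1 A ∧ η < |Fr T α - 1|} ≤ ENNReal.ofReal ε := by
  filter_upwards [h A (by linarith) (η * ε) (by positivity)] with T hT
  have hc : Continuous fun α => |Fr T α - mn α| := ((Fr_cont T).sub mn_cont).abs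
  have h1 : ∫ α in (1 : ℝ)..A, |Fr T α - mn α| ≤ ∫ α in c..A, |Fr T α - mn α| := by
    refine intervalIntegral.integral_mono_interval hc1.le hA le_rfl ?_ (hc.intervalIntegrable _ _)
    exact ae_of_all _ fun α => abs_nonneg _
  have h2 : ∫ α in (1 : ℝ)..A, |Fr T α - mn α| = ∫ α in Icc 1 A, |Fr T α - mn α| := by
    rw [intervalIntegral.integral_of_le hA, integral_Icc_eq_integral_Ioc]
  have hi : IntegrableOn (fun α => |Fr T α - mn α|) (Icc 1 A) := hc.continuousOn.integrableOn_Icc
  have h3 := mul_meas_ge_le_integral_of_nonneg (μ := volume.restrict (Icc 1 A))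
    (ae_of_all _ fun α => abs_nonneg (Fr T α - mn α)) hi η
  have h4 : (volume.restrict (Icc (1 : ℝ) A)).real {x | η ≤ |Fr T x - mn x|} ≤ ε := by
    have h5 : η * (volume.restrict (Icc (1 : ℝ) A)).real {x | η ≤ |Fr T x - mn x|} ≤ η * ε := by
      refine h3.trans ?_
      rw [← h2]
      linarith
    exact le_of_mul_le_mul_left h5 hη
  have h6 : {α : ℝ | α ∈ Icc 1 A ∧ η < |Fr T α - 1|} ⊆
      {x | η ≤ |Fr T x - mn x|} ∩ Icc 1 A := by
    rintro α ⟨g1, g2⟩
    have e : mn α = 1 := by
      unfold mn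
      rw [abs_of_nonneg (by linarith [g1.1]), min_eq_right g1.1]
    refine ⟨?_, g1⟩
    show η ≤ |Fr T α - mn α|
    rw [e]
    exact g2.le
  have h7 : MeasurableSet {x | η ≤ |Fr T x - mn x|} := measurableSet_le measurable_const hc.measurable
  refine (measure_mono h6).trans ?_
  rw [← Measure.restrict_apply h7]
  have h8 : (volume.restrict (Icc (1 : ℝ) A)) {x | η ≤ |Fr T x - mn x|} ≠ ⊤ := measure_ne_top _ _
  rw [← ENNReal.ofReal_toReal h8]
  exact ENNReal.ofReal_le_ofReal h4

end Pool.Agent.X113.UH
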