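import Pool.Agent.X113.HQ1

set_option autoImplicit false
set_option linter.unusedSectionVars false
set_option maxHeartbeats 2000000

/-! The explicit formula with the Gaussian test function of width `s`. -/

open Complex Filter Topology Set MeasureTheory Metric
open scoped ComplexConjugate
open Pool.Agent.Y23.G

namespace Pool.Agent.X113.VG

open Pool.Agent.X113.HQ

/-- the width of the Gaussian -/
class Par where
  s : ℝ
  pos : 0 < s
  le_one : s ≤ 1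

variable [P : Par]

/-- the Gaussian test function of width `s` -/
noncomputable def gs (v : ℝ) (w : ℂ) : ℂ := g (v / P.s) (P.s * w)

lemma s_ne : P.s ≠ 0 := P.pos.ne'

lemma gs_norm (v : ℝ) (w : ℂ) : ‖gs v w‖ = Real.exp (w.re * v + ((P.s * w.re) ^ 2 - (P.s * w.im) ^ 2) / 2) := by
  unfold gs
  rw [g_norm, Complex.re_ofReal_mul, Complex.im_ofReal_mul]
  congr 2
  have := s_ne (P := P)
  field_simp

lemma s_im (y : ℝ) : ((P.s : ℝ) : ℂ) * ⟨0, y⟩ = ⟨0, P.s * y⟩ := by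
  apply Complex.ext <;> simp

lemma gs_im (v y : ℝ) : gs v ⟨0, y⟩ = ((Real.exp (-((P.s * y) ^ 2) / 2) : ℝ) : ℂ) * cexp (((y * v : ℝ) : ℂ) * I) := by
  unfold gs
  rw [s_im, g_im]
  congr 4
  have := s_ne (P := P)
  field_simp

lemma narrow (x : ℝ) : Real.exp (-((x / P.s) ^ 2) / 2) ≤ Real.exp (-(x ^ 2) / 2) := by
  refine Real.exp_le_exp.2 ?_
  have h1 : x ^ 2 ≤ (x / P.s) ^ 2 := by
    rw [div_pow, le_div_iff₀ (pow_pos P.pos 2)]
    have h2 : P.s ^ 2 ≤ 1 := pow_le_one₀ P.pos.le P.le_one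
    nlinarith [sq_nonneg x]
  linarith

variable [L : LFun]

lemma gs_dec (v : ℝ) : Dec (gs v) (Real.exp (2 * |v| + 2)) (P.s ^ 2 / 2) := by
  refine ⟨by unfold gs g; fun_prop, fun w hw => ?_⟩
  rw [gs_norm, ← Real.exp_add]
  refine Real.exp_le_exp.2 ?_
  have h1 : w.re * v ≤ 2 * |v| := by
    calc w.re * v ≤ |w.re * v| := le_abs_self _
      _ = |w.re| * |v| := abs_mul _ _
      _ ≤ 2 * |v| := mul_le_mul_of_nonneg_right hw (abs_nonneg _)
  have h2 : (P.s * w.re) ^ 2 ≤ 4 := by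
    have h3 := abs_nonneg w.re
    have h4 : |P.s * w.re| ≤ 2 := by
      rw [abs_mul, abs_of_pos P.pos]
      calc P.s * |w.re| ≤ 1 * 2 := mul_le_mul P.le_one hw h3 (by norm_num)
        _ = 2 := by norm_num
    rw [← sq_abs]
    nlinarith [abs_nonneg (P.s * w.re)]
  nlinarith

lemma gs_hst (v : ℝ) : hst (gs v) = gs (-v) := by
  have h := g_hst (v / P.s)
  funext w
  have h1 := congrFun h (P.s * w)
  unfold hst at h1 ⊢
  unfold gs
  rw [neg_div, ← h1]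
  congr 2
  simp

lemma JJ_gs (v l : ℝ) : JJ (gs v) l =
    ((P.s⁻¹ * Real.sqrt (2 * Real.pi) * Real.exp (-(((v - l) / P.s) ^ 2) / 2) : ℝ) : ℂ) := by
  have h := gau_int (v / P.s) (l / P.s)
  have e : ∀ y : ℝ, cexp (-(((y : ℂ) * I) * l)) * gs v ⟨0, y⟩ =
      (fun u : ℝ => cexp (-(((u : ℂ) * I) * ((l / P.s : ℝ) : ℂ))) * g (v / P.s) ⟨0, u⟩) (P.s * y) := by
    intro y
    simp only []
    unfold gs
    rw [s_im]
    congr 3
    have : ((P.s : ℝ) : ℂ) ≠ 0 := by exact_mod_cast s_ne (P := P)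
    push_cast
    field_simp
  show ∫ y : ℝ, cexp (-(((y : ℂ) * I) * l)) * gs v ⟨0, y⟩ = _
  simp only [e]
  rw [MeasureTheory.Measure.integral_comp_mul_left (fun u : ℝ => cexp (-(((u : ℂ) * I) * ((l / P.s : ℝ) : ℂ))) * g (v / P.s) ⟨0, u⟩) P.s, h,
    abs_of_pos (inv_pos.2 P.pos), ← sub_div]
  rw [Complex.real_smul]
  push_cast
  ring

/-- the sum over the prime powers -/
noncomputable def PS (v : ℝ) : ℂ := ∑' n : ℕ, aL n * ((Real.exp (-(((v - Real.log n) / P.s) ^ 2) / 2) : ℝ) : ℂ)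

/-- the integral on the right -/
noncomputable def Jr (v : ℝ) : ℂ := ∫ y : ℝ, XL ⟨5 / 2, y⟩ * gs v ⟨2, y⟩

/-- the small part -/
noncomputable def er (v : ℝ) : ℂ := (∫ y : ℝ, ph1 ⟨0, y⟩ * gs v ⟨0, y⟩) +
  L.r * (∫ y : ℝ, 1 / (⟨0, y⟩ - 1 / 2) * gs v ⟨0, y⟩)

lemma gs_half (v : ℝ) : gs v (1 / 2) = ((Real.exp (v / 2 + P.s ^ 2 / 8) : ℝ) : ℂ) := by
  unfold gs g
  rw [Complex.ofReal_exp]
  congr 1
  have : ((P.s : ℝ) : ℂ) ≠ 0 := by exact_mod_cast s_ne (P := P)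
  push_cast
  field_simp
  ring

lemma Jr_eq (v : ℝ) : Jr v = er v + 2 * Real.pi * L.r * ((Real.exp (v / 2 + P.s ^ 2 / 8) : ℝ) : ℂ) -
    ((P.s⁻¹ * Real.sqrt (2 * Real.pi) : ℝ) : ℂ) * PS v := by
  unfold Jr er
  have hp := P.pos
  rw [J_eq (by positivity) (Real.exp_pos _).le (gs_dec v), gs_half]
  have e1 : ∑' n : ℕ, aL n * JJ (gs v) (Real.log n) = ((P.s⁻¹ * Real.sqrt (2 * Real.pi) : ℝ) : ℂ) * PS v := by
    unfold PS
    rw [← tsum_mul_left]
    refine tsum_congr fun n => ?_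
    rw [JJ_gs]
    push_cast
    ring
  rw [e1]
  ring

lemma er_top : Tendsto (fun v : ℝ => er v) atTop (𝓝 0) := by
  have h1 := RL_top fun y => ph1 ⟨0, y⟩ * ((Real.exp (-((P.s * y) ^ 2) / 2) : ℝ) : ℂ)
  have h2 := RL_top fun y => 1 / (⟨0, y⟩ - 1 / 2) * ((Real.exp (-((P.s * y) ^ 2) / 2) : ℝ) : ℂ)
  have h3 := h1.add (h2.const_mul (L.r : ℂ))
  rw [mul_zero, add_zero] at h3
  refine h3.congr fun v => ?_
  unfold er
  simp only [gs_im, mul_assoc]

lemma er_bot : Tendsto (fun v : ℝ => er (-v)) atTop (𝓝 0) := by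
  have h1 := RL_bot fun y => ph1 ⟨0, y⟩ * ((Real.exp (-((P.s * y) ^ 2) / 2) : ℝ) : ℂ)
  have h2 := RL_bot fun y => 1 / (⟨0, y⟩ - 1 / 2) * ((Real.exp (-((P.s * y) ^ 2) / 2) : ℝ) : ℂ)
  have h3 := h1.add (h2.const_mul (L.r : ℂ))
  rw [mul_zero, add_zero] at h3
  refine h3.congr fun v => ?_
  unfold er
  simp only [gs_im, mul_assoc]

lemma PS_bot : Tendsto (fun v : ℝ => PS (-v)) atTop (𝓝 0) := by
  have h0 : Tendsto (fun v : ℝ => Real.exp (-(v ^ 2) / 2) * (Real.exp 2 * (L.m * DB))) atTop (𝓝 0) := by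
    have h1 : Tendsto (fun v : ℝ => v ^ 2 / 2) atTop atTop :=
      (tendsto_pow_atTop (two_ne_zero)).atTop_div_const (by norm_num)
    have h2 := (Real.tendsto_exp_neg_atTop_nhds_zero.comp h1).mul_const (Real.exp 2 * (L.m * DB))
    rw [zero_mul] at h2
    refine h2.congr fun v => ?_
    simp only [Function.comp]
    congr 2
    ring
  refine squeeze_zero_norm' ?_ h0
  filter_upwards [eventually_ge_atTop (0:ℝ)] with v hv
  unfold PS
  have hs : Summable fun n : ℕ => Real.exp (-(v ^ 2) / 2) * (Real.exp 2 * (L.m * (ArithmeticFunction.vonMangoldt n * (n : ℝ) ^ (-(2 : ℝ))))) :=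
    ((lam_sum.mul_left (L.m : ℝ)).mul_left _).mul_left _
  have hb : ∀ n : ℕ, ‖aL n * ((Real.exp (-(((-v - Real.log n) / P.s) ^ 2) / 2) : ℝ) : ℂ)‖ ≤
      Real.exp (-(v ^ 2) / 2) * (Real.exp 2 * (L.m * (ArithmeticFunction.vonMangoldt n * (n : ℝ) ^ (-(2 : ℝ))))) := by
    intro n
    rcases Nat.eq_zero_or_pos n with h | h
    · subst h
      rw [aL_zero, zero_mul, norm_zero]
      simp
    · rw [norm_mul, Complex.norm_real, Real.norm_of_nonneg (Real.exp_pos _).le]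
      calc ‖aL n‖ * Real.exp (-(((-v - Real.log n) / P.s) ^ 2) / 2)
          ≤ (L.m * ArithmeticFunction.vonMangoldt n) * (Real.exp (-(v ^ 2) / 2) * (Real.exp 2 * (n : ℝ) ^ (-(2 : ℝ)))) :=
            mul_le_mul (aL_norm n) ((narrow _).trans (gauss_left hv h)) (Real.exp_pos _).le
              (mul_nonneg (Nat.cast_nonneg _) ArithmeticFunction.vonMangoldt_nonneg)
        _ = _ := by ring
  refine (tsum_of_norm_bounded hs.hasSum hb).trans (le_of_eq ?_)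
  unfold DB
  rw [tsum_mul_left, tsum_mul_left, tsum_mul_left]

/-- **the explicit formula** -/
theorem asym : Tendsto (fun v : ℝ => (∑' ρ : Zt, (mu ρ : ℂ) * gs v ((ρ : ℂ) - 1 / 2)) -
    (L.r * ((Real.exp (v / 2 + P.s ^ 2 / 8) : ℝ) : ℂ) - (((Real.sqrt (2 * Real.pi) * P.s)⁻¹ : ℝ) : ℂ) * PS v)) atTop (𝓝 0) := by
  have hpi := Real.pi_pos
  have hex : Tendsto (fun v : ℝ => ((Real.exp (-v / 2 + P.s ^ 2 / 8) : ℝ) : ℂ)) atTop (𝓝 0) := by
    have h1 : Tendsto (fun v : ℝ => v / 2 + -(P.s ^ 2 / 8)) atTop atTop :=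
      tendsto_atTop_add_const_right _ _ (tendsto_id.atTop_div_const (by norm_num))
    have h2 := Real.tendsto_exp_neg_atTop_nhds_zero.comp h1
    have h3 : Tendsto (fun v : ℝ => Real.exp (-v / 2 + P.s ^ 2 / 8)) atTop (𝓝 0) := by
      refine h2.congr fun v => ?_
      simp only [Function.comp]
      congr 1
      ring
    have h4 := (Complex.continuous_ofReal.tendsto 0).comp h3
    rw [Complex.ofReal_zero] at h4
    exact h4
  have hJ : Tendsto (fun v : ℝ => Jr (-v)) atTop (𝓝 0) := by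
    have h1 := (er_bot (L := L)).add (hex.const_mul (2 * Real.pi * L.r : ℂ))
    have h2 := h1.sub ((PS_bot (L := L)).const_mul ((P.s⁻¹ * Real.sqrt (2 * Real.pi) : ℝ) : ℂ))
    rw [mul_zero, mul_zero, add_zero, sub_zero] at h2
    refine h2.congr fun v => ?_
    rw [Jr_eq]
  have hJc : Tendsto (fun v : ℝ => conj (Jr (-v))) atTop (𝓝 0) := by
    have := (Complex.continuous_conj.tendsto 0).comp hJ
    rw [map_zero] at this
    exact this
  have h5 := ((er_top (L := L)).add hJc).const_mul ((2 * Real.pi : ℂ)⁻¹)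
  rw [add_zero, mul_zero] at h5
  refine h5.congr fun v => ?_
  have hp := P.pos
  have hz := zeros_line (L := L) (by positivity) (Real.exp_pos _).le (gs_dec v)
  rw [gs_hst] at hz
  have hz2 : 2 * Real.pi * ∑' ρ : Zt, (mu ρ : ℂ) * gs v ((ρ : ℂ) - 1 / 2) = Jr v + conj (Jr (-v)) := hz
  rw [Jr_eq v] at hz2
  have hpi' : (2 * Real.pi : ℂ) ≠ 0 := by exact_mod_cast (by positivity : (2 * Real.pi : ℝ) ≠ 0)
  have e1 : ∑' ρ : Zt, (mu ρ : ℂ) * gs v ((ρ : ℂ) - 1 / 2) = (2 * Real.pi : ℂ)⁻¹ *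
      (er v + 2 * Real.pi * L.r * ((Real.exp (v / 2 + P.s ^ 2 / 8) : ℝ) : ℂ) -
        ((P.s⁻¹ * Real.sqrt (2 * Real.pi) : ℝ) : ℂ) * PS v + conj (Jr (-v))) := by
    rw [← hz2, ← mul_assoc, inv_mul_cancel₀ hpi', one_mul]
  have hs : ((Real.sqrt (2 * Real.pi) : ℝ) : ℂ) * ((Real.sqrt (2 * Real.pi) : ℝ) : ℂ) = 2 * Real.pi := by
    rw [← Complex.ofReal_mul, Real.mul_self_sqrt (by positivity)]
    push_cast; ring
  have hs0 : ((Real.sqrt (2 * Real.pi) : ℝ) : ℂ) ≠ 0 := by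
    exact_mod_cast (Real.sqrt_pos.2 (by positivity : (0:ℝ) < 2 * Real.pi)).ne'
  have hP0 : ((P.s : ℝ) : ℂ) ≠ 0 := by exact_mod_cast s_ne (P := P)
  have e2 : (((Real.sqrt (2 * Real.pi) * P.s)⁻¹ : ℝ) : ℂ) = (2 * Real.pi : ℂ)⁻¹ * ((P.s⁻¹ * Real.sqrt (2 * Real.pi) : ℝ) : ℂ) := by
    rw [← hs]
    push_cast
    field_simp
  rw [e1, e2]
  have e3 : (2 * Real.pi : ℂ)⁻¹ * (2 * Real.pi) = 1 := inv_mul_cancel₀ hpi'
  linear_combination (-(L.r * ((Real.exp (v / 2 + P.s ^ 2 / 8) : ℝ) : ℂ))) * e3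

end Pool.Agent.X113.VG
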