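import Pool.Agent.X113.VG1
import Pool.Agent.X113.HQ5

set_option autoImplicit false
set_option linter.unusedSectionVars false
set_option maxHeartbeats 2000000

/-! The explicit formula modulo `q` with the Gaussian of width `s`. -/

open Complex Filter Topology Set MeasureTheory Metric
open scoped ComplexConjugate
open Pool.Agent.Y23.G

namespace Pool.Agent.X113.VG

open Pool.Agent.X113.HQ hiding asym PS Jr er Jr_eq er_top er_bot PS_bot one_L one_chi rest_tendsto explq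

variable {q : ℕ} [NeZero q] [P : Par]

/-- the sum over the zeros of one L-function -/
lemma one_L (L : LFun) (hRH : ∀ s, L.X s = 0 → s.re = 1 / 2) :
    (Summable fun γ : ℝ => (H370.mult L.X (⟨1 / 2, γ⟩ : ℂ) : ℝ) * Real.exp (-((P.s * γ) ^ 2) / 2)) ∧
    ∀ v : ℝ, ∑' ρ : Zt (D := zd (L := L)), (mu ρ : ℂ) * gs v ((ρ : ℂ) - 1 / 2) =
      ∑' γ : ℝ, (H370.mult L.X (⟨1 / 2, γ⟩ : ℂ) : ℂ) * gs v ⟨0, γ⟩ := by
  obtain ⟨φ, hφ⟩ : ∃ φ : Zt (D := zd (L := L)) → ℝ, ∀ ρ, φ ρ = (ρ : ℂ).im := ⟨fun ρ => (ρ : ℂ).im, fun _ => rfl⟩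
  have hz : ∀ ρ : Zt (D := zd (L := L)), L.X (ρ : ℂ) = 0 := fun ρ => ρ.2
  have hmk : ∀ ρ : Zt (D := zd (L := L)), (⟨1 / 2, φ ρ⟩ : ℂ) = (ρ : ℂ) := fun ρ =>
    Complex.ext (hRH _ (hz ρ)).symm (hφ ρ)
  have hinj : Function.Injective φ := fun a b h => by
    apply Subtype.ext
    rw [← hmk a, ← hmk b, h]
  have hsup : ∀ γ : ℝ, γ ∉ Set.range φ → H370.mult L.X (⟨1 / 2, γ⟩ : ℂ) = 0 := by
    intro γ hγ
    refine mult_zero (Xd.analyticAt _) fun h0 => hγ ?_
    refine ⟨⟨⟨1 / 2, γ⟩, h0⟩, ?_⟩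
    rw [hφ]
  have hsub : ∀ ρ : Zt (D := zd (L := L)), (ρ : ℂ) - 1 / 2 = ⟨0, φ ρ⟩ := by
    intro ρ
    rw [← hmk ρ, sub_half]
    norm_num
  constructor
  · have h1 := dec_summable (D := zd (L := L)) (δ := P.s ^ 2 / 2) (by have := P.pos; positivity) (Real.exp_pos _).le (gs_dec 0)
    rw [← hinj.summable_iff fun γ hγ => by rw [hsup γ hγ]; simp]
    refine h1.congr fun ρ => ?_
    simp only [Function.comp]
    rw [hsub ρ, norm_mul, gs_norm, hmk ρ]
    have e : ((0:ℝ) * 0 + ((P.s * (0:ℝ)) ^ 2 - (P.s * φ ρ) ^ 2) / 2) = -((P.s * φ ρ) ^ 2) / 2 := by ring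
    show ‖((mu (ρ : ℂ) : ℕ) : ℂ)‖ * Real.exp ((0:ℝ) * 0 + ((P.s * (0:ℝ)) ^ 2 - (P.s * φ ρ) ^ 2) / 2) = _
    rw [e, Complex.norm_natCast]
    rfl
  · intro v
    rw [← hinj.tsum_eq (f := fun γ : ℝ => (H370.mult L.X (⟨1 / 2, γ⟩ : ℂ) : ℂ) * gs v ⟨0, γ⟩)]
    · refine tsum_congr fun ρ => ?_
      rw [hsub ρ, hmk ρ]
      rfl
    · intro γ hγ
      by_contra hcon
      exact hγ (by
        show (H370.mult L.X (⟨1 / 2, γ⟩ : ℂ) : ℂ) * gs v ⟨0, γ⟩ = 0
        rw [hsup γ hcon, Nat.cast_zero, zero_mul])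

/-- one term of the sum over the prime powers -/
noncomputable def tns (v : ℝ) (n : ℕ) : ℝ :=
  ArithmeticFunction.vonMangoldt n * (n : ℝ) ^ (-(1 / 2) : ℝ) * Real.exp (-(((v - Real.log n) / P.s) ^ 2) / 2)

lemma tns_nonneg (v : ℝ) (n : ℕ) : 0 ≤ tns v n :=
  mul_nonneg (mul_nonneg ArithmeticFunction.vonMangoldt_nonneg (Real.rpow_nonneg (Nat.cast_nonneg _) _))
    (Real.exp_pos _).le

lemma tns_zero (v : ℝ) : tns v 0 = 0 := by unfold tns; simp

lemma tns_tn (v : ℝ) (n : ℕ) : tns v n ≤ tn v n := by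
  unfold tns tn
  exact mul_le_mul_of_nonneg_left (narrow _)
    (mul_nonneg ArithmeticFunction.vonMangoldt_nonneg (Real.rpow_nonneg (Nat.cast_nonneg _) _))

lemma tns_summ (v : ℝ) : Summable (tns v) := Summable.of_nonneg_of_le (tns_nonneg v) (tns_tn v) (tn_summ v)

lemma tns_le (v : ℝ) (n : ℕ) : tns v n ≤ ArithmeticFunction.vonMangoldt n * (n : ℝ) ^ (-(1 / 2) : ℝ) :=
  (tns_tn v n).trans (tn_le v n)

lemma tns_tendsto (n : ℕ) : Tendsto (fun v => tns v n) atTop (𝓝 0) :=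
  squeeze_zero (fun v => tns_nonneg v n) (fun v => tns_tn v n) (tn_tendsto n)

/-- the explicit formula for one character -/
theorem one_chi (hG : GRH q) (χ : DirichletCharacter ℂ q) :
    (Summable fun γ : ℝ => (mch χ γ : ℝ) * Real.exp (-((P.s * γ) ^ 2) / 2)) ∧
    Tendsto (fun v : ℝ => (∑' γ : ℝ, (mch χ γ : ℂ) * gs v ⟨0, γ⟩) -
      ((if χ = 1 then 1 else 0) * ((Real.exp (v / 2 + P.s ^ 2 / 8) : ℝ) : ℂ) - (((Real.sqrt (2 * Real.pi) * P.s)⁻¹ : ℝ) : ℂ) *
        ∑' n : ℕ, pv χ n * ((tns v n : ℝ) : ℂ))) atTop (𝓝 0) := by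
  classical
  obtain ⟨L, h1, h2, h3, h4⟩ := exists_L χ
  have hRH : ∀ s, L.X s = 0 → s.re = 1 / 2 := by
    intro s hs
    obtain ⟨a1, a2⟩ := h3 s hs
    refine hG χ s a1 a2 ?_
    by_contra hne
    have hs1 : s ≠ 1 := by rintro rfl; simp at a2
    have h5 := mult_zero (H370.DL.analyticAt_L (χ := χ) hs1) hne
    rw [← h4 s a1 a2, ] at h5
    have h6 := X_mpos (L := L) hs
    omega
  have hm : ∀ γ : ℝ, H370.mult L.X (⟨1 / 2, γ⟩ : ℂ) = mch χ γ := fun γ =>
    h4 _ (by norm_num) (by norm_num)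
  obtain ⟨k1, k2⟩ := one_L L hRH
  simp only [hm] at k1 k2
  refine ⟨k1, ?_⟩
  have h7 := asym (L := L)
  refine h7.congr fun v => ?_
  rw [k2 v]
  have e1 : PS (L := L) v = ∑' n : ℕ, pv χ n * ((tns v n : ℝ) : ℂ) := by
    unfold PS
    refine tsum_congr fun n => ?_
    rcases Nat.eq_zero_or_pos n with h | h
    · subst h
      rw [aL_zero, tns_zero]; simp
    · unfold aL tns Pool.Agent.TH839.NA.pw
      rw [h2 n h.ne']
      push_cast
      ring
  rw [e1, h1]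
  push_cast
  rfl

open Classical in
/-- the prime side -/
noncomputable def As (q : ℕ) [NeZero q] (v : ℝ) : ℝ := (Real.sqrt (2 * Real.pi) * P.s)⁻¹ *
  (q.totient * ∑' n : ℕ, if (n : ZMod q) = 1 then tns v n else 0) - Real.exp (v / 2 + P.s ^ 2 / 8)

open Classical in
lemma ones_summ (v : ℝ) : Summable fun n : ℕ => if (n : ZMod q) = 1 then tns v n else 0 := by
  refine Summable.of_nonneg_of_le (fun n => ?_) (fun n => ?_) (tns_summ v)
  · split_ifs
    · exact tns_nonneg v n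
    · exact le_rfl
  · split_ifs
    · exact le_rfl
    · exact tns_nonneg v n

lemma kaps_summ (v : ℝ) : Summable fun n : ℕ => kap q n * ((tns v n : ℝ) : ℂ) := by
  refine Summable.of_norm_bounded ((tns_summ v).mul_left (Fintype.card (DirichletCharacter ℂ q) : ℝ)) fun n => ?_
  rw [norm_mul, Complex.norm_real, Real.norm_of_nonneg (tns_nonneg v n)]
  exact mul_le_mul_of_nonneg_right (kap_norm n) (tns_nonneg v n)

lemma pvs_summ (χ : DirichletCharacter ℂ q) (v : ℝ) : Summable fun n : ℕ => pv χ n * ((tns v n : ℝ) : ℂ) := by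
  refine Summable.of_norm_bounded (tns_summ v) fun n => ?_
  rw [norm_mul, Complex.norm_real, Real.norm_of_nonneg (tns_nonneg v n)]
  exact mul_le_of_le_one_left (tns_nonneg v n) (pv_norm χ n)

open Classical in
/-- the prime powers with a common factor with `q` are negligible -/
lemma rest_tendsto : Tendsto (fun v : ℝ => (∑' n : ℕ, kap q n * ((tns v n : ℝ) : ℂ)) -
    (((q.totient : ℝ) * ∑' n : ℕ, (if (n : ZMod q) = 1 then tns v n else 0) : ℝ) : ℂ)) atTop (𝓝 0) := by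
  have key : ∀ v : ℝ, (∑' n : ℕ, kap q n * ((tns v n : ℝ) : ℂ)) -
      (((q.totient : ℝ) * ∑' n : ℕ, (if (n : ZMod q) = 1 then tns v n else 0) : ℝ) : ℂ) =
      ∑' n : ℕ, if n.Coprime q then (0:ℂ) else kap q n * ((tns v n : ℝ) : ℂ) := by
    intro v
    rw [← tsum_mul_left, Complex.ofReal_tsum, ← (kaps_summ v).tsum_sub]
    · refine tsum_congr fun n => ?_
      by_cases h1 : n.Coprime q
      · rw [if_pos h1, kap_coprime h1]
        split_ifs <;> simp
      · have h2 : (n : ZMod q) ≠ 1 := fun h => h1 (coprime_of_one h)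
        rw [if_neg h1, if_neg h2]
        simp
    · have := ((ones_summ (q := q) v).mul_left (q.totient : ℝ))
      exact Complex.summable_ofReal.2 this
  simp only [key]
  suffices h5 : Tendsto (fun v : ℝ => ∑' n : ℕ, if n.Coprime q then (0:ℂ) else kap q n * ((tns v n : ℝ) : ℂ))
      atTop (𝓝 (∑' _ : ℕ, (0:ℂ))) by
    rw [tsum_zero] at h5
    exact h5
  refine tendsto_tsum_of_dominated_convergence (bound := fun n : ℕ => (Fintype.card (DirichletCharacter ℂ q) : ℝ) *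
    (if n.Coprime q then (0:ℝ) else ArithmeticFunction.vonMangoldt n * (n : ℝ) ^ (-(1 / 2) : ℝ)))
    ((nc_summ q).mul_left _) (fun n => ?_) (Eventually.of_forall fun v n => ?_)
  · split_ifs with h1
    · exact tendsto_const_nhds
    · have h2 := (Complex.continuous_ofReal.tendsto 0).comp (tns_tendsto n)
      have h3 := h2.const_mul (kap q n)
      rw [Complex.ofReal_zero, mul_zero] at h3
      exact h3
  · split_ifs with h1
    · simp
    · rw [norm_mul, Complex.norm_real, Real.norm_of_nonneg (tns_nonneg v n)]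
      exact mul_le_mul (kap_norm n) (tns_le v n) (tns_nonneg v n) (Nat.cast_nonneg _)

/-- **the explicit formula modulo `q`** -/
theorem explq (hG : GRH q) :
    (Summable fun γ : ℝ => (MM q γ : ℝ) * Real.exp (-((P.s * γ) ^ 2) / 2)) ∧
    Tendsto (fun v : ℝ => As q v + ∑' γ : ℝ, (MM q γ : ℝ) * Real.exp (-((P.s * γ) ^ 2) / 2) * Real.cos (γ * v)) atTop (𝓝 0) := by
  classical
  have hs1 : Summable fun γ : ℝ => (MM q γ : ℝ) * Real.exp (-((P.s * γ) ^ 2) / 2) := by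
    have h := summable_sum (s := (Finset.univ : Finset (DirichletCharacter ℂ q)))
      (f := fun χ γ => (mch χ γ : ℝ) * Real.exp (-((P.s * γ) ^ 2) / 2)) fun χ _ => (one_chi hG χ).1
    refine h.congr fun γ => ?_
    unfold MM
    rw [Nat.cast_sum, Finset.sum_mul]
  refine ⟨hs1, ?_⟩
  have hgn : ∀ (v γ : ℝ), ‖gs v ⟨0, γ⟩‖ = Real.exp (-((P.s * γ) ^ 2) / 2) := fun v γ => by
    rw [gs_norm]
    congr 1
    show (0:ℝ) * v + ((P.s * (0:ℝ)) ^ 2 - (P.s * γ) ^ 2) / 2 = _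
    ring
  have hsc : ∀ (χ : DirichletCharacter ℂ q) (v : ℝ), Summable fun γ : ℝ => (mch χ γ : ℂ) * gs v ⟨0, γ⟩ := by
    intro χ v
    refine Summable.of_norm_bounded (one_chi hG χ).1 fun γ => ?_
    rw [norm_mul, hgn, Complex.norm_natCast]
  have hsM : ∀ v : ℝ, Summable fun γ : ℝ => (MM q γ : ℂ) * gs v ⟨0, γ⟩ := by
    intro v
    refine Summable.of_norm_bounded hs1 fun γ => ?_
    rw [norm_mul, hgn, Complex.norm_natCast]
  have h1 := tendsto_finsetSum (Finset.univ : Finset (DirichletCharacter ℂ q)) fun χ _ => (one_chi hG χ).2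
  rw [Finset.sum_const_zero] at h1
  have h2 := (rest_tendsto (q := q)).const_mul (((Real.sqrt (2 * Real.pi) * P.s)⁻¹ : ℝ) : ℂ)
  rw [mul_zero] at h2
  have h3 := h1.sub h2
  rw [sub_zero] at h3
  have h4 := (Complex.continuous_re.tendsto 0).comp h3
  rw [Complex.zero_re] at h4
  refine h4.congr fun v => ?_
  have e1 : ∑ χ : DirichletCharacter ℂ q, ∑' γ : ℝ, (mch χ γ : ℂ) * gs v ⟨0, γ⟩ =
      ∑' γ : ℝ, (MM q γ : ℂ) * gs v ⟨0, γ⟩ := by
    rw [← Summable.tsum_finsetSum fun χ _ => hsc χ v]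
    refine tsum_congr fun γ => ?_
    unfold MM
    rw [Nat.cast_sum, Finset.sum_mul]
  have e2 : ∑ χ : DirichletCharacter ℂ q, ∑' n : ℕ, pv χ n * ((tns v n : ℝ) : ℂ) =
      ∑' n : ℕ, kap q n * ((tns v n : ℝ) : ℂ) := by
    rw [← Summable.tsum_finsetSum fun χ _ => pvs_summ χ v]
    refine tsum_congr fun n => ?_
    unfold kap
    rw [Finset.sum_mul]
  have e3 : ∑ χ : DirichletCharacter ℂ q, (if χ = 1 then (1:ℂ) else 0) = 1 := by simp
  simp only [Function.comp]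
  rw [Finset.sum_sub_distrib, Finset.sum_sub_distrib, ← Finset.sum_mul, ← Finset.mul_sum, e1, e2, e3]
  have e4 : (∑' γ : ℝ, (MM q γ : ℂ) * gs v ⟨0, γ⟩).re =
      ∑' γ : ℝ, (MM q γ : ℝ) * Real.exp (-((P.s * γ) ^ 2) / 2) * Real.cos (γ * v) := by
    rw [Complex.re_tsum (hsM v)]
    refine tsum_congr fun γ => ?_
    rw [gs_im]
    have : ((MM q γ : ℂ) * (((Real.exp (-((P.s * γ) ^ 2) / 2) : ℝ) : ℂ) * cexp (((γ * v : ℝ) : ℂ) * I))) =
        (((MM q γ : ℝ) * Real.exp (-((P.s * γ) ^ 2) / 2) : ℝ) : ℂ) * cexp (((γ * v : ℝ) : ℂ) * I) := by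
      push_cast; ring
    rw [this, Complex.re_ofReal_mul, Complex.exp_ofReal_mul_I_re]
  have e5 : ∀ (Z : ℂ) (E s P : ℝ) (K : ℂ), (Z - (1 * (E : ℂ) - (s : ℂ) * K) - (s : ℂ) * (K - (P : ℂ))).re =
      (s * P - E) + Z.re := by
    intro Z E s P K
    have : Z - (1 * (E : ℂ) - (s : ℂ) * K) - (s : ℂ) * (K - (P : ℂ)) = Z + ((s * P - E : ℝ) : ℂ) := by
      push_cast; ring
    rw [this, Complex.add_re, Complex.ofReal_re]
    ring
  rw [e5, e4]
  rfl

end Pool.Agent.X113.VG
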