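import Pool.Agent.X113.VG2
import Pool.Agent.X113.HL3

set_option autoImplicit false
set_option linter.unusedSectionVars false
set_option maxHeartbeats 2000000

/-! The Laplace transform of the prime side, Gaussian of width `s`. -/

open MeasureTheory ProbabilityTheory Filter Topology Set Metric
open Pool.Agent.W263.BSD

namespace Pool.Agent.X113.VG

open Pool.Agent.X113.HQ hiding asym PS Jr er Jr_eq er_top er_bot PS_bot one_L one_chi rest_tendsto explq
open Pool.Agent.X113.HL (gint integrable_tsum cf cf_nonneg cf_term cf_summ LS Lt Lf Lf_diff Lf_ne Lf_ne_right LS_eq)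

variable {q : ℕ} [NeZero q] [P : Par]

/-- a Gaussian integral -/
lemma gints (w : ℂ) (l : ℝ) :
    Integrable (fun v : ℝ => Complex.exp (-(w * v)) * ((Real.exp (-(((v - l) / P.s) ^ 2) / 2) : ℝ) : ℂ)) ∧
    ∫ v : ℝ, Complex.exp (-(w * v)) * ((Real.exp (-(((v - l) / P.s) ^ 2) / 2) : ℝ) : ℂ) =
      (Real.sqrt (2 * Real.pi) * P.s : ℂ) * Complex.exp ((P.s * w) ^ 2 / 2 - w * l) := by
  obtain ⟨h1, h2⟩ := gint (P.s * w) (l / P.s)
  have hP0 : ((P.s : ℝ) : ℂ) ≠ 0 := by exact_mod_cast s_ne (P := P)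
  obtain ⟨G, hG⟩ : ∃ G : ℝ → ℂ, G = fun u : ℝ => Complex.exp (-(P.s * w * u)) *
    ((Real.exp (-((u - l / P.s) ^ 2) / 2) : ℝ) : ℂ) := ⟨_, rfl⟩
  have e : (fun v : ℝ => Complex.exp (-(w * v)) * ((Real.exp (-(((v - l) / P.s) ^ 2) / 2) : ℝ) : ℂ)) =
      fun v : ℝ => G (v / P.s) := by
    funext v
    rw [hG]
    simp only []
    rw [sub_div]
    congr 2
    push_cast
    field_simp
  rw [← hG] at h1 h2
  rw [e]
  refine ⟨h1.comp_div (s_ne (P := P)), ?_⟩
  rw [MeasureTheory.Measure.integral_comp_div G P.s, h2, abs_of_pos P.pos, Complex.real_smul]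
  have e2 : (P.s * w : ℂ) * ((l / P.s : ℝ) : ℂ) = w * l := by
    push_cast
    field_simp
  rw [e2]
  ring

lemma gints_real (x l : ℝ) : Integrable (fun v : ℝ => Real.exp (-(x * v)) * Real.exp (-(((v - l) / P.s) ^ 2) / 2)) ∧
    ∫ v : ℝ, Real.exp (-(x * v)) * Real.exp (-(((v - l) / P.s) ^ 2) / 2) =
      Real.sqrt (2 * Real.pi) * P.s * Real.exp ((P.s * x) ^ 2 / 2 - x * l) := by
  obtain ⟨h1, h2⟩ := gints (x : ℂ) l
  have e : (fun v : ℝ => Complex.exp (-((x : ℂ) * v)) * ((Real.exp (-(((v - l) / P.s) ^ 2) / 2) : ℝ) : ℂ)) =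
      fun v : ℝ => ((Real.exp (-(x * v)) * Real.exp (-(((v - l) / P.s) ^ 2) / 2) : ℝ) : ℂ) := by
    funext v
    push_cast
    rfl
  constructor
  · rw [e] at h1
    exact h1.re.congr (Eventually.of_forall fun v => Complex.ofReal_re _)
  · rw [e, integral_complex_ofReal] at h2
    have h3 : (((∫ v : ℝ, Real.exp (-(x * v)) * Real.exp (-(((v - l) / P.s) ^ 2) / 2)) : ℝ) : ℂ) =
        ((Real.sqrt (2 * Real.pi) * P.s * Real.exp ((P.s * x) ^ 2 / 2 - x * l) : ℝ) : ℂ) := by
      rw [h2]; push_cast; rfl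
    exact Complex.ofReal_injective h3

lemma tns_cont (n : ℕ) : Continuous fun v => tns v n := by
  unfold tns
  have := s_ne (P := P)
  fun_prop (disch := assumption)

lemma As_cont : Continuous (As q) := by
  classical
  unfold As
  have h1 : Continuous fun v : ℝ => ∑' n : ℕ, if (n : ZMod q) = 1 then tns v n else 0 := by
    rw [continuous_iff_continuousAt]
    intro v0
    have hb : ball (0:ℝ) (|v0| + 1) ∈ 𝓝 v0 := isOpen_ball.mem_nhds (by simp)
    refine ContinuousOn.continuousAt (s := ball (0:ℝ) (|v0| + 1)) ?_ hb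
    refine continuousOn_tsum (u := fun n : ℕ => Real.exp (2 + 2 * (|v0| + 1)) *
      (ArithmeticFunction.vonMangoldt n * (n : ℝ) ^ (-(2 : ℝ)))) (fun n => ?_) (lam2_summ.mul_left _) fun n v hv => ?_
    · split_ifs
      · exact (tns_cont n).continuousOn
      · exact continuousOn_const
    · have hv' : |v| < |v0| + 1 := by simpa using hv
      have h0 : 0 ≤ ArithmeticFunction.vonMangoldt n := ArithmeticFunction.vonMangoldt_nonneg
      have h2 : ‖if (n : ZMod q) = 1 then tns v n else 0‖ ≤ tns v n := by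
        split_ifs
        · rw [Real.norm_of_nonneg (tns_nonneg v n)]
        · rw [norm_zero]; exact tns_nonneg v n
      refine h2.trans (((tns_tn v n).trans (tn_bd v n)).trans ?_)
      refine mul_le_mul_of_nonneg_right (Real.exp_le_exp.2 (by linarith)) ?_
      exact mul_nonneg h0 (Real.rpow_nonneg (Nat.cast_nonneg _) _)
  fun_prop

open Classical in
lemma cf_tns (v : ℝ) (n : ℕ) : (if (n : ZMod q) = 1 then tns v n else 0) =
    cf q n * Real.exp (-(((v - Real.log n) / P.s) ^ 2) / 2) := by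
  unfold cf tns
  split_ifs
  · rfl
  · rw [zero_mul]

/-- the prime side without the main term -/
noncomputable def Qs (q : ℕ) [NeZero q] (v : ℝ) : ℝ :=
  (Real.sqrt (2 * Real.pi) * P.s)⁻¹ * (q.totient * ∑' n : ℕ, cf q n * Real.exp (-(((v - Real.log n) / P.s) ^ 2) / 2))

lemma As_eq (v : ℝ) : As q v = Qs q v - Real.exp (v / 2 + P.s ^ 2 / 8) := by
  unfold As Qs
  simp only [← cf_tns]

lemma cfv_summ (v : ℝ) : Summable fun n : ℕ => cf q n * Real.exp (-(((v - Real.log n) / P.s) ^ 2) / 2) := by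
  refine (ones_summ (q := q) v).congr fun n => cf_tns v n

lemma Qs_nonneg (v : ℝ) : 0 ≤ Qs q v := by
  unfold Qs
  have h : 0 ≤ ∑' n : ℕ, cf q n * Real.exp (-(((v - Real.log n) / P.s) ^ 2) / 2) :=
    tsum_nonneg fun n => mul_nonneg (cf_nonneg n) (Real.exp_pos _).le
  have := P.pos
  positivity

lemma Qs_cont : Continuous (Qs q) := by
  have h : Qs q = fun v => As q v + Real.exp (v / 2 + P.s ^ 2 / 8) := by
    funext v
    rw [As_eq]
    ring
  rw [h]
  have := As_cont (q := q)
  fun_prop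

lemma tn_int (n : ℕ) (x : ℝ) : Integrable (fun v : ℝ => cf q n * Real.exp (-(((v - Real.log n) / P.s) ^ 2) / 2) * Real.exp (-(x * v))) := by
  have h := (gints_real x (Real.log n)).1.const_mul (cf q n)
  refine h.congr (Eventually.of_forall fun v => ?_)
  simp only []
  ring

lemma sum_int {x : ℝ} (hx : 1 / 2 < x) : Summable fun n : ℕ => ∫ v : ℝ, cf q n * Real.exp (-(((v - Real.log n) / P.s) ^ 2) / 2) * Real.exp (-(x * v)) := by
  have h := (cf_summ (q := q) hx).mul_left (Real.sqrt (2 * Real.pi) * P.s * Real.exp ((P.s * x) ^ 2 / 2))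
  refine h.congr fun n => ?_
  have e : ∀ v : ℝ, cf q n * Real.exp (-(((v - Real.log n) / P.s) ^ 2) / 2) * Real.exp (-(x * v)) =
      cf q n * (Real.exp (-(x * v)) * Real.exp (-(((v - Real.log n) / P.s) ^ 2) / 2)) := fun v => by ring
  simp only [e]
  rw [integral_const_mul, (gints_real x (Real.log n)).2, sub_eq_add_neg, Real.exp_add]
  ring

/-- integrability on the line -/
lemma Qs_int {x : ℝ} (hx : 1 / 2 < x) : Integrable (fun v : ℝ => Qs q v * Real.exp (-(x * v))) := by
  have h1 : Integrable (fun v : ℝ => ∑' n : ℕ, cf q n * Real.exp (-(((v - Real.log n) / P.s) ^ 2) / 2) * Real.exp (-(x * v))) := by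
    refine integrable_tsum (fun n v => ?_) (fun n => tn_int n x) (sum_int hx) (fun v => (cfv_summ v).mul_right _) ?_
    · exact mul_nonneg (mul_nonneg (cf_nonneg n) (Real.exp_pos _).le) (Real.exp_pos _).le
    · refine Measurable.aestronglyMeasurable ?_
      exact Measurable.tsum fun n => by fun_prop
  have h2 := h1.const_mul ((Real.sqrt (2 * Real.pi) * P.s)⁻¹ * q.totient)
  refine h2.congr (Eventually.of_forall fun v => ?_)
  simp only []
  unfold Qs
  rw [tsum_mul_right]
  ring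

lemma whole {w : ℂ} (hw : 1 / 2 < w.re) : ∫ v : ℝ, (Qs q v : ℂ) * Complex.exp (-(w * v)) =
    q.totient * Complex.exp ((P.s * w) ^ 2 / 2) * LS q (1 / 2 + w) := by
  obtain ⟨F, hF⟩ : ∃ F : ℕ → ℝ → ℂ, F = fun n v => ((cf q n * Real.exp (-(((v - Real.log n) / P.s) ^ 2) / 2) : ℝ) : ℂ) * Complex.exp (-(w * v)) :=
    ⟨_, rfl⟩
  have hF1 : ∀ n v, F n v = (cf q n : ℂ) * (Complex.exp (-(w * v)) * ((Real.exp (-(((v - Real.log n) / P.s) ^ 2) / 2) : ℝ) : ℂ)) := by
    intro n v
    rw [hF]
    simp only []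
    rw [Complex.ofReal_mul]
    ring
  have hint : ∀ n, Integrable (F n) := by
    intro n
    have h := (gints w (Real.log n)).1.const_mul (cf q n : ℂ)
    exact h.congr (Eventually.of_forall fun v => (hF1 n v).symm)
  have hval : ∀ n, ∫ v, F n v = (Real.sqrt (2 * Real.pi) * P.s : ℂ) * Complex.exp ((P.s * w) ^ 2 / 2) *
      ((cf q n : ℂ) * Complex.exp (-(w * (Real.log n : ℝ)))) := by
    intro n
    simp only [hF1]
    rw [integral_const_mul, (gints w (Real.log n)).2, sub_eq_add_neg, Complex.exp_add]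
    ring
  have hsum : Summable fun n => ∫ v, ‖F n v‖ := by
    refine (sum_int (q := q) hw).congr fun n => ?_
    refine integral_congr_ae (Eventually.of_forall fun v => ?_)
    simp only []
    rw [hF]
    simp only []
    rw [norm_mul, Complex.norm_real, Real.norm_of_nonneg (mul_nonneg (cf_nonneg n) (Real.exp_pos _).le),
      Complex.norm_exp]
    congr 2
    simp
  have h1 := integral_tsum_of_summable_integral_norm hint hsum
  have e1 : ∀ v : ℝ, (Qs q v : ℂ) * Complex.exp (-(w * v)) =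
      ((((Real.sqrt (2 * Real.pi) * P.s)⁻¹ * q.totient : ℝ)) : ℂ) * ∑' n, F n v := by
    intro v
    rw [hF]
    simp only []
    rw [tsum_mul_right, ← Complex.ofReal_tsum, ← mul_assoc, ← Complex.ofReal_mul]
    congr 2
    unfold Qs
    ring
  simp only [e1]
  rw [integral_const_mul, ← h1]
  simp only [hval]
  rw [tsum_mul_left]
  have e2 : ∑' n : ℕ, (cf q n : ℂ) * Complex.exp (-(w * (Real.log n : ℝ))) = LS q (1 / 2 + w) := by
    unfold LS LSeries
    exact tsum_congr fun n => cf_term w n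
  rw [e2]
  have h2 : (Real.sqrt (2 * Real.pi) : ℂ) ≠ 0 := by
    have : Real.sqrt (2 * Real.pi) ≠ 0 := (Real.sqrt_pos.2 (by positivity)).ne'
    exact_mod_cast this
  have hP0 : ((P.s : ℝ) : ℂ) ≠ 0 := by exact_mod_cast s_ne (P := P)
  push_cast
  field_simp

lemma Qs_meas : Measurable (Qs q) := Qs_cont.measurable

lemma Qs_LInt {x : ℝ} (hx : 1 / 2 < x) : LInt (Qs q) x := (Qs_int hx).integrableOn

lemma Qn_LInt (x : ℝ) : LInt (fun u => Qs q (-u)) x := by
  have h := (Qs_int (q := q) (x := max 1 (-x)) (lt_of_lt_of_le (by norm_num) (le_max_left _ _))).comp_neg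
  have h1 : LInt (fun u => Qs q (-u)) (-(max 1 (-x))) := by
    unfold LInt
    refine h.integrableOn.congr_fun (fun u _ => ?_) measurableSet_Ioi
    simp only []
    congr 2
    ring
  refine h1.mono (Qs_meas.comp measurable_neg) ?_
  have := le_max_right 1 (-x)
  linarith

lemma Qs_intC {w : ℂ} (hw : 1 / 2 < w.re) : Integrable (fun v : ℝ => (Qs q v : ℂ) * Complex.exp (-(w * v))) := by
  refine (Qs_int (q := q) hw).mono ?_ (Eventually.of_forall fun v => ?_)
  · refine Continuous.aestronglyMeasurable ?_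
    have := Qs_cont (q := q)
    fun_prop
  · rw [norm_mul, norm_mul, Complex.norm_real, Complex.norm_exp, Real.norm_of_nonneg (Real.exp_pos _).le]
    simp

lemma lapC_Qs {w : ℂ} (hw : 1 / 2 < w.re) : lapC (Qs q) w =
    q.totient * Complex.exp ((P.s * w) ^ 2 / 2) * LS q (1 / 2 + w) - lapC (fun u => Qs q (-u)) (-w) := by
  rw [← whole hw, eq_sub_iff_add_eq]
  have h1 := integral_add_compl (s := Ioi (0:ℝ)) measurableSet_Ioi (Qs_intC (q := q) hw)
  rw [← h1]
  congr 1
  rw [compl_Ioi]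
  have h2 := integral_comp_neg_Ioi (0:ℝ) (fun v : ℝ => (Qs q v : ℂ) * Complex.exp (-(w * v)))
  rw [neg_zero] at h2
  rw [← h2]
  unfold lapC
  refine setIntegral_congr_fun measurableSet_Ioi fun u _ => ?_
  simp only []
  congr 2
  push_cast
  ring

/-! ### the main term -/

lemma main_LInt {x : ℝ} (hx : 1 / 2 < x) : LInt (fun v => Real.exp (v / 2 + P.s ^ 2 / 8)) x := by
  unfold LInt
  have h1 := (integrableOn_exp_mul_Ioi (a := 1 / 2 - x) (by linarith) 0).const_mul (Real.exp (P.s ^ 2 / 8))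
  have h2 : IntegrableOn (fun u : ℝ => Real.exp (P.s ^ 2 / 8) * Real.exp ((1 / 2 - x) * u)) (Ioi 0) := h1
  refine h2.congr_fun (fun u _ => ?_) measurableSet_Ioi
  simp only []
  rw [← Real.exp_add, ← Real.exp_add]; congr 1; ring

lemma main_lapC {w : ℂ} (hw : 1 / 2 < w.re) : lapC (fun v => Real.exp (v / 2 + P.s ^ 2 / 8)) w = Complex.exp (P.s ^ 2 / 8) / (w - 1 / 2) := by
  unfold lapC
  have e : ∀ u : ℝ, ((Real.exp (u / 2 + P.s ^ 2 / 8) : ℝ) : ℂ) * Complex.exp (-(w * u)) =
      Complex.exp (P.s ^ 2 / 8) * Complex.exp ((1 / 2 - w) * u) := by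
    intro u
    rw [Complex.ofReal_exp, ← Complex.exp_add, ← Complex.exp_add]
    congr 1
    push_cast
    ring
  simp only [e]
  have hre : ((1 / 2 : ℂ) - w).re < 0 := by
    rw [Complex.sub_re]
    have : (1 / 2 : ℂ).re = 1 / 2 := by norm_num
    rw [this]; linarith
  rw [integral_const_mul, integral_exp_mul_complex_Ioi hre]
  have h1 : w - 1 / 2 ≠ 0 := by
    intro h
    have h2 := congrArg Complex.re h
    rw [Complex.sub_re, Complex.zero_re] at h2
    rw [Complex.sub_re] at hre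
    linarith
  have h2 : (1 / 2 : ℂ) - w ≠ 0 := by
    intro h
    apply h1
    linear_combination -h
  rw [Complex.ofReal_zero, mul_zero, Complex.exp_zero]
  have e3 : (1 / 2 : ℂ) - w = -(w - 1 / 2) := by ring
  rw [e3]
  field_simp

/-- the correction -/
noncomputable def Es (q : ℕ) [NeZero q] (z : ℂ) : ℂ :=
  dslope (fun z : ℂ => Complex.exp ((P.s * z) ^ 2 / 2)) (1 / 2) z - lapC (fun u => Qs q (-u)) (-z)

lemma Ec_diff (z : ℂ) : DifferentiableAt ℂ (Es q) z := by
  unfold Es
  refine DifferentiableAt.sub ?_ ?_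
  · have h1 : DifferentiableOn ℂ (dslope (fun z : ℂ => Complex.exp ((P.s * z) ^ 2 / 2)) (1 / 2)) univ := by
      rw [Complex.differentiableOn_dslope univ_mem]
      exact fun z _ => (by fun_prop : DifferentiableAt ℂ (fun z : ℂ => Complex.exp ((P.s * z) ^ 2 / 2)) z).differentiableWithinAt
    exact (h1 z (mem_univ z)).differentiableAt univ_mem
  · exact DifferentiableAt.comp (g := lapC (fun u => Qs q (-u))) z
      (lapC_differentiableAt (Qs_meas.comp measurable_neg) (w0 := (-z).re - 1) (fun w _ => Qn_LInt w) (by linarith))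
      differentiable_neg.differentiableAt

lemma nA_meas : Measurable fun v => -(As q v) := (As_cont (q := q)).measurable.neg

lemma nA_eq : (fun v => -(As q v)) = fun v => Real.exp (v / 2 + P.s ^ 2 / 8) - Qs q v := by
  funext v
  rw [As_eq]
  ring

lemma nA_LInt {x : ℝ} (hx : 1 / 2 < x) : LInt (fun v => -(As q v)) x := by
  rw [nA_eq]
  exact (main_LInt hx).sub (Qs_LInt hx)

/-- **the functional identity** -/
theorem nA_id {z : ℂ} (hz : 1 / 2 < z.re) :
    Lf q z * (lapC (fun v => -(As q v)) z + Es q z) = Complex.exp ((P.s * z) ^ 2 / 2) * deriv (Lf q) z := by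
  have hm : Measurable fun v : ℝ => Real.exp (v / 2 + P.s ^ 2 / 8) := by fun_prop
  have h1 : lapC (fun v => -(As q v)) z = lapC (fun v => Real.exp (v / 2 + P.s ^ 2 / 8)) z - lapC (Qs q) z := by
    rw [nA_eq]
    unfold lapC
    rw [← integral_sub (LInt.complex hm (main_LInt hz)) (LInt.complex Qs_meas (Qs_LInt hz))]
    refine setIntegral_congr_fun measurableSet_Ioi fun u _ => ?_
    simp only []
    push_cast
    ring
  have hne : z ≠ 1 / 2 := by
    rintro rfl
    norm_num at hz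
  have h2 : dslope (fun z : ℂ => Complex.exp ((P.s * z) ^ 2 / 2)) (1 / 2) z = (Complex.exp ((P.s * z) ^ 2 / 2) - Complex.exp (P.s ^ 2 / 8)) / (z - 1 / 2) := by
    rw [dslope_of_ne _ hne, slope_def_field]
    congr 3
    ring
  have h3 := LS_eq (q := q) hz
  have h4 := Lf_ne_right (q := q) hz
  have h5 : z - 1 / 2 ≠ 0 := sub_ne_zero.2 hne
  rw [h1, main_lapC hz, lapC_Qs hz]
  unfold Es
  rw [h2]
  have e1 : (q.totient : ℂ) * Complex.exp ((P.s * z) ^ 2 / 2) * LS q (1 / 2 + z) = Complex.exp ((P.s * z) ^ 2 / 2) * (1 / (z - 1 / 2) - deriv (Lf q) z / Lf q z) := by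
    rw [← h3]; ring
  rw [e1]
  generalize lapC (fun u => Qs q (-u)) (-z) = N
  field_simp
  ring

end Pool.Agent.X113.VG
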