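import Pool.Agent.X113.VG3
import Pool.Agent.X113.HL4

set_option autoImplicit false
set_option linter.unusedSectionVars false
set_option maxHeartbeats 2000000

/-! A bounded mean square implies the Riemann hypothesis modulo `q`. -/

open MeasureTheory ProbabilityTheory Filter Topology Set
open scoped ComplexConjugate
open Pool.Agent.W263.BSD

namespace Pool.Agent.X113.VG

section

variable {f : ℝ → ℝ} {Lf E Eg : ℂ → ℂ} {c0 : ℝ}

/-- no zeros in the half-plane of convergence -/
theorem noz (hf : Measurable f) (hL : Differentiable ℂ Lf) (hE : ∀ z : ℂ, 0 < z.re → DifferentiableAt ℂ E z)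
    (hEg : Differentiable ℂ Eg) (hEg0 : ∀ z, Eg z ≠ 0)
    (hc0 : 0 ≤ c0) (hconv : ∀ w > 0, LInt f w)
    (hid : ∀ z : ℂ, c0 < z.re → Lf z * (lapC f z + E z) = Eg z * deriv Lf z)
    (hne : ∀ z : ℂ, c0 < z.re → Lf z ≠ 0) :
    ∀ z : ℂ, 0 < z.re → Lf z ≠ 0 := by
  -- the identity
  have hdiff : ∀ z : ℂ, 0 < z.re → DifferentiableAt ℂ (lapC f) z := fun z hz => lapC_differentiableAt hf hconv hz
  have hd' : Differentiable ℂ (deriv Lf) := fun z => (hL.analyticAt z).deriv.differentiableAt
  have hopen : IsOpen {z : ℂ | 0 < z.re} := isOpen_lt continuous_const Complex.continuous_re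
  have hext : ∀ z : ℂ, 0 < z.re → Lf z * (lapC f z + E z) = Eg z * deriv Lf z := by
    have a1 : AnalyticOnNhd ℂ (fun z => Lf z * (lapC f z + E z)) {z : ℂ | 0 < z.re} := by
      refine DifferentiableOn.analyticOnNhd (fun z hz => ?_) hopen
      have hz' : 0 < z.re := hz
      exact ((hL z).mul ((hdiff z hz').add (hE z (by linarith)))).differentiableWithinAt
    have a2 : AnalyticOnNhd ℂ (fun z => Eg z * deriv Lf z) {z : ℂ | 0 < z.re} := by
      refine DifferentiableOn.analyticOnNhd (fun z hz => ?_) hopen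
      exact (DifferentiableAt.mul (hEg z) (hd' z)).differentiableWithinAt
    have hz0 : 0 < (((c0 + 1 : ℝ) : ℂ)).re := by
      rw [Complex.ofReal_re]
      linarith
    have h3 := a1.eqOn_of_preconnected_of_eventuallyEq a2 (convex_halfSpace_re_gt 0).isPreconnected hz0 ?_
    · exact fun z hz => h3 hz
    · have hz1 : c0 < (((c0 + 1 : ℝ) : ℂ)).re := by
        rw [Complex.ofReal_re]
        linarith
      filter_upwards [(isOpen_lt continuous_const Complex.continuous_re).mem_nhds hz1] with z hz
      exact hid z hz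
  -- the order is finite
  have hfin : ∀ z : ℂ, analyticOrderAt Lf z ≠ ⊤ := by
    intro z
    have h1 : AnalyticOnNhd ℂ Lf univ := fun z _ => hL.analyticAt z
    refine h1.analyticOrderAt_ne_top_of_isPreconnected isPreconnected_univ (mem_univ ((c0 + 1 : ℝ) : ℂ)) (mem_univ z) ?_
    rw [(hL.analyticAt _).analyticOrderAt_eq_zero.mpr (hne _ (by rw [Complex.ofReal_re]; linarith))]
    exact ENat.zero_ne_top
  -- no zeros to the right of s
  have hnz : ∀ z : ℂ, 0 < z.re → Lf z ≠ 0 := by
    intro z hz h0
    have hz' : z ∈ {z : ℂ | 0 < z.re} := hz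
    have b1 : AnalyticAt ℂ (fun z => lapC f z + E z) z :=
      (DifferentiableOn.analyticOnNhd (fun z (hz : 0 < z.re) =>
        ((hdiff z hz).add (hE z (by linarith))).differentiableWithinAt) hopen) z hz'
    have b2 : AnalyticAt ℂ Eg z := hEg.analyticAt z
    have b3 : analyticOrderAt (Lf * fun z => lapC f z + E z) z = analyticOrderAt (Eg * deriv Lf) z := by
      refine analyticOrderAt_congr ?_
      filter_upwards [hopen.mem_nhds hz'] with w hw
      exact hext w hw
    rw [analyticOrderAt_mul (hL.analyticAt z) b1, analyticOrderAt_mul b2 (hL.analyticAt z).deriv,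
      b2.analyticOrderAt_eq_zero.2 (hEg0 _), zero_add] at b3
    have b4 := (hL.analyticAt z).analyticOrderAt_deriv_add_one
    simp only [h0, sub_zero] at b4
    have b5 := hfin z
    rw [← b3] at b4
    obtain ⟨m, hm⟩ := ENat.ne_top_iff_exists.mp b5
    rw [← hm] at b4
    rcases eq_or_ne (analyticOrderAt (fun z => lapC f z + E z) z) ⊤ with h | h
    · rw [h] at b4
      simp at b4
    · obtain ⟨k, hk⟩ := ENat.ne_top_iff_exists.mp h
      rw [← hk] at b4
      have : m + k + 1 = m := by exact_mod_cast b4
      omega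
  exact hnz

end

open Pool.Agent.X113.HQ hiding asym PS Jr er Jr_eq er_top er_bot PS_bot one_L one_chi rest_tendsto explq
open Pool.Agent.X113.HL (gint integrable_tsum cf cf_nonneg cf_term cf_summ LS Lt Lf Lf_diff Lf_ne Lf_ne_right LS_eq LInt_of_mean)

variable {q : ℕ} [NeZero q] [P : Par]

/-- **a bounded mean square implies the Riemann hypothesis modulo `q`** -/
theorem GRH_of_ms {C : ℝ}
    (h : ∀ᶠ V : ℝ in atTop, (∫ v in (0:ℝ)..V, As q v ^ 2) / V ≤ C) : GRH q := by
  have hc : Continuous fun v => 1 + As q v ^ 2 := by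
    have := As_cont (q := q)
    fun_prop
  have hc2 : Continuous fun v => As q v ^ 2 := by
    have := As_cont (q := q)
    fun_prop
  have hm : ∀ᶠ V : ℝ in atTop, (∫ v in (0:ℝ)..V, (1 + As q v ^ 2)) ≤ (1 + C) * V := by
    filter_upwards [h, eventually_gt_atTop (0:ℝ)] with V h1 hV
    rw [intervalIntegral.integral_add (intervalIntegrable_const) (hc2.intervalIntegrable _ _),
      intervalIntegral.integral_const, smul_eq_mul, sub_zero, mul_one]
    have := (div_le_iff₀ hV).1 h1
    linarith
  have hup : ∀ w : ℝ, 0 < w → LInt (fun u => -(As q u)) w := by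
    intro w hw
    have h1 := LInt_of_mean hc (fun v => by positivity) hm hw
    unfold LInt at *
    refine Integrable.mono h1 ?_ (Eventually.of_forall fun u => ?_)
    · exact (nA_meas.mul (by fun_prop)).aestronglyMeasurable
    · rw [norm_mul, norm_mul]
      refine mul_le_mul_of_nonneg_right ?_ (norm_nonneg _)
      rw [norm_neg, Real.norm_eq_abs, Real.norm_of_nonneg (by positivity)]
      have h2 := sq_nonneg (|As q u| - 1)
      have h3 := sq_abs (As q u)
      have h4 := abs_nonneg (As q u)
      nlinarith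
  have hmain := noz (f := fun v => -(As q v)) (Lf := Lf q) (E := Es q) (Eg := fun z => Complex.exp ((P.s * z) ^ 2 / 2))
    (c0 := 1 / 2) nA_meas Lf_diff
    (fun z _ => Ec_diff z) (by fun_prop) (fun z => Complex.exp_ne_zero _) (by norm_num) (fun w hw => hup w hw)
    (fun z hz => nA_id hz) (fun z hz => Lf_ne_right hz)
  have hright : ∀ (χ : DirichletCharacter ℂ q) (s : ℂ), 0 < s.re → s.re < 1 →
      DirichletCharacter.LFunction χ s = 0 → s.re ≤ 1 / 2 := by
    intro χ s _ h1 hz
    by_contra hcon
    push Not at hcon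
    have h2 := hmain (s - 1 / 2) (by
      rw [Complex.sub_re]
      have : (1 / 2 : ℂ).re = 1 / 2 := by norm_num
      rw [this]; linarith)
    have e : 1 / 2 + (s - 1 / 2) = s := by ring
    rw [Lf_ne (by rw [e]; exact strip_ne h1), e] at h2
    exact h2 χ hz
  intro χ s h0 h1 hz
  have h2 := hright χ s h0 h1 hz
  have hr : (1 - conj s).re = 1 - s.re := by simp
  have h3 := hright χ (1 - conj s) (by rw [hr]; linarith) (by rw [hr]; linarith) (L_refl h0 h1 hz)
  rw [hr] at h3
  linarith

end Pool.Agent.X113.VG
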