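import Pool.Agent.X113.VG4
import Pool.Agent.X113.LI1

set_option autoImplicit false
set_option linter.unusedSectionVars false
set_option maxHeartbeats 2000000

/-! The mean square of an absolutely convergent cosine series, up to a function tending to zero. -/

open MeasureTheory Filter Topology Set
open Pool.Agent.X113.LI (mc ch ch_norm ch_cont ch_zero ch_add mc_series)

namespace Pool.Agent.X113.VG

/-- Cesàro -/
lemma cesaro {h : ℝ → ℝ} (hc : Continuous h) (h0 : Tendsto h atTop (𝓝 0)) :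
    Tendsto (fun V : ℝ => (∫ v in (0:ℝ)..V, h v) / V) atTop (𝓝 0) := by
  rw [Metric.tendsto_nhds]
  intro ε hε
  obtain ⟨V0, hV0⟩ := (Metric.tendsto_atTop.1 h0) (ε / 2) (by positivity)
  obtain ⟨V1, hV1, hV1'⟩ : ∃ V1 : ℝ, V0 ≤ V1 ∧ 0 < V1 := ⟨max V0 1, le_max_left _ _, by positivity⟩
  obtain ⟨C, hC⟩ : ∃ C : ℝ, C = |∫ v in (0:ℝ)..V1, h v| := ⟨_, rfl⟩
  filter_upwards [eventually_gt_atTop V1,
    (tendsto_const_nhds (x := C)).div_atTop tendsto_id |>.eventually (gt_mem_nhds (show (0:ℝ) < ε / 2 by positivity))]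
    with V hV g2
  have hVp : 0 < V := hV1'.trans hV
  have hi : ∀ p q : ℝ, IntervalIntegrable h volume p q := fun p q => hc.intervalIntegrable _ _
  rw [Real.dist_eq, sub_zero, abs_div, abs_of_pos hVp, div_lt_iff₀ hVp,
    ← intervalIntegral.integral_add_adjacent_intervals (hi 0 V1) (hi V1 V)]
  have e1 := intervalIntegral.norm_integral_le_of_norm_le_const (a := V1) (b := V) (f := h) (C := ε / 2) (fun v hv => by
    rw [uIoc_of_le hV.le] at hv
    have := hV0 v (hV1.trans hv.1.le)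
    rw [Real.dist_eq, sub_zero] at this
    exact this.le)
  rw [Real.norm_eq_abs, abs_of_pos (show 0 < V - V1 by linarith)] at e1
  have e2 : C < ε / 2 * V := by
    have : C / V < ε / 2 := g2
    exact (div_lt_iff₀ hVp).1 this
  have e3 := abs_add_le (∫ v in (0:ℝ)..V1, h v) (∫ v in V1..V, h v)
  rw [← hC] at e3
  nlinarith

section

variable {c : ℝ → ℝ}

/-- the cosine series -/
noncomputable def SS (c : ℝ → ℝ) (v : ℝ) : ℝ := ∑' γ : ℝ, c γ * Real.cos (γ * v)

lemma SS_summ (h0 : ∀ γ, 0 ≤ c γ) (hs : Summable c) (v : ℝ) : Summable fun γ => c γ * Real.cos (γ * v) := by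
  refine Summable.of_norm_bounded hs fun γ => ?_
  rw [norm_mul, Real.norm_of_nonneg (h0 γ)]
  exact mul_le_of_le_one_right (h0 γ) (Real.abs_cos_le_one _)

lemma SS_le (h0 : ∀ γ, 0 ≤ c γ) (hs : Summable c) (v : ℝ) : |SS c v| ≤ ∑' γ, c γ := by
  have h := tsum_of_norm_bounded hs.hasSum (f := fun γ => c γ * Real.cos (γ * v)) fun γ => by
    rw [norm_mul, Real.norm_of_nonneg (h0 γ)]
    exact mul_le_of_le_one_right (h0 γ) (Real.abs_cos_le_one _)
  exact h

lemma SS_cont (h0 : ∀ γ, 0 ≤ c γ) (hs : Summable c) : Continuous (SS c) := by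
  unfold SS
  refine continuous_tsum (fun γ => by fun_prop) hs fun γ v => ?_
  rw [norm_mul, Real.norm_of_nonneg (h0 γ)]
  exact mul_le_of_le_one_right (h0 γ) (Real.abs_cos_le_one _)

/-- the complex form -/
lemma SS_ch (h0 : ∀ γ, 0 ≤ c γ) (hs : Summable c) (he : ∀ γ, c (-γ) = c γ) (v : ℝ) :
    (SS c v : ℂ) = ∑' γ : ℝ, (c γ : ℂ) * ch γ v := by
  have h1 : Summable fun γ : ℝ => (c γ : ℂ) * ch γ v := by
    refine Summable.of_norm_bounded hs fun γ => ?_
    rw [norm_mul, ch_norm, mul_one, Complex.norm_real, Real.norm_of_nonneg (h0 γ)]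
  have h2 : ∑' γ : ℝ, (c γ : ℂ) * ch (-γ) v = ∑' γ : ℝ, (c γ : ℂ) * ch γ v := by
    rw [← (Equiv.neg ℝ).tsum_eq]
    refine tsum_congr fun γ => ?_
    simp only [Equiv.neg_apply, neg_neg, he]
  have h1' : Summable fun γ : ℝ => (c γ : ℂ) * ch (-γ) v := by
    refine Summable.of_norm_bounded hs fun γ => ?_
    rw [norm_mul, ch_norm, mul_one, Complex.norm_real, Real.norm_of_nonneg (h0 γ)]
  have h3 : 2 * (SS c v : ℂ) = (∑' γ : ℝ, (c γ : ℂ) * ch γ v) + ∑' γ : ℝ, (c γ : ℂ) * ch (-γ) v := by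
    rw [← h1.tsum_add h1']
    unfold SS
    rw [Complex.ofReal_tsum, ← tsum_mul_left]
    refine tsum_congr fun γ => ?_
    have e : ((Real.cos (γ * v) : ℝ) : ℂ) = (ch γ v + ch (-γ) v) / 2 := by
      unfold ch
      rw [Complex.ofReal_cos, Complex.cos]
      congr 2
      push_cast
      ring_nf
    rw [Complex.ofReal_mul, e]
    ring
  rw [h2] at h3
  linear_combination (1 / 2 : ℂ) * h3

/-- the mean square -/
lemma ms_SS (h0 : ∀ γ, 0 ≤ c γ) (hs : Summable c) (he : ∀ γ, c (-γ) = c γ) :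
    Tendsto (fun V : ℝ => (∫ v in (0:ℝ)..V, SS c v ^ 2) / V) atTop (𝓝 (∑' γ, c γ ^ 2)) := by
  classical
  obtain ⟨K, hK⟩ : ∃ K : Set ℝ, K = Function.support c := ⟨_, rfl⟩
  have hKc : Countable K := by
    rw [hK]
    exact hs.countable_support.to_subtype
  have hsub : ∀ (g : ℝ → ℂ), ∑' i : K, (c i : ℂ) * g i = ∑' γ : ℝ, (c γ : ℂ) * g γ := by
    intro g
    refine tsum_subtype_eq_of_support_subset (f := fun γ : ℝ => (c γ : ℂ) * g γ) ?_
    intro γ hγ
    rw [hK, Function.mem_support]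
    rw [Function.mem_support] at hγ
    intro h
    apply hγ
    rw [h]; simp
  have hsK : Summable fun i : K => ‖(c i : ℂ)‖ := by
    refine (hs.subtype K).congr fun i => ?_
    simp only [Function.comp]
    rw [Complex.norm_real, Real.norm_of_nonneg (h0 _)]
  have hpair : Summable fun x : K × K => ‖(c x.1 : ℂ) * (c x.2 : ℂ)‖ := by
    have := hsK.mul_of_nonneg hsK (fun _ => norm_nonneg _) (fun _ => norm_nonneg _)
    refine this.congr fun x => ?_
    rw [norm_mul]
  have h1 := mc_series (ι := K × K) (c := fun x => (c x.1 : ℂ) * (c x.2 : ℂ)) hpair (fun x => (x.1 : ℝ) - x.2)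
  -- the square
  have h2 : ∀ v : ℝ, ∑' x : K × K, (c x.1 : ℂ) * (c x.2 : ℂ) * ch ((x.1 : ℝ) - x.2) v = ((SS c v ^ 2 : ℝ) : ℂ) := by
    intro v
    have e1 : (SS c v : ℂ) = ∑' i : K, (c i : ℂ) * ch i v := by
      rw [SS_ch h0 hs he, hsub fun γ => ch γ v]
    have e2 : (SS c v : ℂ) = ∑' i : K, (c i : ℂ) * ch (-(i : ℝ)) v := by
      rw [hsub fun γ => ch (-γ) v, SS_ch h0 hs he, ← (Equiv.neg ℝ).tsum_eq]
      refine tsum_congr fun γ => ?_
      simp only [Equiv.neg_apply, he]
    have n1 : Summable fun i : K => ‖(c i : ℂ) * ch i v‖ := by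
      refine hsK.congr fun i => ?_
      rw [norm_mul, ch_norm, mul_one]
    have n2 : Summable fun i : K => ‖(c i : ℂ) * ch (-(i : ℝ)) v‖ := by
      refine hsK.congr fun i => ?_
      rw [norm_mul, ch_norm, mul_one]
    have e3 := tsum_mul_tsum_of_summable_norm n1 n2
    rw [← e1, ← e2] at e3
    rw [Complex.ofReal_pow, sq, e3]
    refine tsum_congr fun x => ?_
    rw [sub_eq_add_neg, ch_add]
    ring
  simp only [h2] at h1
  -- the diagonal
  have h3 : ∑' x : K × K, (if (x.1 : ℝ) - x.2 = 0 then (c x.1 : ℂ) * (c x.2 : ℂ) else 0) =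
      ((∑' γ, c γ ^ 2 : ℝ) : ℂ) := by
    have e1 : Summable fun x : K × K => (if (x.1 : ℝ) - x.2 = 0 then (c x.1 : ℂ) * (c x.2 : ℂ) else 0) := by
      refine Summable.of_norm_bounded hpair fun x => ?_
      split_ifs
      · exact le_rfl
      · rw [norm_zero]; exact norm_nonneg _
    rw [e1.tsum_prod, Complex.ofReal_tsum]
    have e2 : ∀ i : K, ∑' j : K, (if (i : ℝ) - j = 0 then (c i : ℂ) * (c j : ℂ) else 0) = (c i : ℂ) * (c i : ℂ) := by
      intro i
      rw [tsum_eq_single i]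
      · rw [sub_self, if_pos rfl]
      · intro j hj
        rw [if_neg]
        intro h
        exact hj (Subtype.ext (by linarith))
    simp only [e2]
    rw [hsub fun γ => (c γ : ℂ)]
    refine tsum_congr fun γ => ?_
    push_cast
    ring
  rw [h3] at h1
  have h4 := (Complex.continuous_re.tendsto _).comp h1
  rw [Complex.ofReal_re] at h4
  refine h4.congr fun V => ?_
  simp only [Function.comp]
  unfold mc
  rw [intervalIntegral.integral_ofReal, ← Complex.ofReal_div, Complex.ofReal_re]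

/-- **the mean square of a function close to the series** -/
theorem ms_lim (h0 : ∀ γ, 0 ≤ c γ) (hs : Summable c) (he : ∀ γ, c (-γ) = c γ) {A : ℝ → ℝ} (hA : Continuous A)
    (hd : Tendsto (fun v => A v + SS c v) atTop (𝓝 0)) :
    Tendsto (fun V : ℝ => (∫ v in (0:ℝ)..V, A v ^ 2) / V) atTop (𝓝 (∑' γ, c γ ^ 2)) := by
  have hSc := SS_cont h0 hs
  have h1 : Tendsto (fun v => (A v + SS c v) * (A v + SS c v) - 2 * (SS c v * (A v + SS c v))) atTop (𝓝 0) := by
    have h2 := hd.mul hd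
    have h3 : Tendsto (fun v => SS c v * (A v + SS c v)) atTop (𝓝 0) := by
      refine squeeze_zero_norm (a := fun v => (∑' γ, c γ) * ‖A v + SS c v‖) (fun v => ?_) ?_
      · rw [norm_mul]
        exact mul_le_mul_of_nonneg_right (SS_le h0 hs v) (norm_nonneg _)
      · have := hd.norm.const_mul (∑' γ, c γ)
        rwa [norm_zero, mul_zero] at this
    have h4 := h2.sub (h3.const_mul 2)
    rwa [mul_zero, mul_zero, sub_zero] at h4
  have h5 := cesaro (by fun_prop) h1
  have h6 := h5.add (ms_SS h0 hs he)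
  rw [zero_add] at h6
  refine h6.congr fun V => ?_
  rw [← add_div, ← intervalIntegral.integral_add]
  · congr 1
    refine intervalIntegral.integral_congr fun v _ => ?_
    ring
  · exact Continuous.intervalIntegrable (by fun_prop) _ _
  · exact Continuous.intervalIntegrable (by fun_prop) _ _

end

end Pool.Agent.X113.VG
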