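import Mathlib

set_option autoImplicit false
set_option linter.unusedSectionVars false
set_option maxHeartbeats 2000000

/-! Gaussian sums and counting functions. -/

open MeasureTheory Filter Topology Set

namespace Pool.Agent.X113.VG

/-- from dyadic intervals to the whole -/
lemma dyadic_all {S : ℝ → ℝ} (hm : Monotone S) (h0 : ∀ x, 0 ≤ S x) {C : ℝ}
    (h : Tendsto (fun T => (S (2 * T) - S T) / (T * Real.log T)) atTop (𝓝 C)) :
    Tendsto (fun T => S T / (T * Real.log T)) atTop (𝓝 C) := by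
  obtain ⟨R, hR⟩ : ∃ R : ℝ → ℝ, R = fun T => S T / (T * Real.log T) := ⟨_, rfl⟩
  have hl : Tendsto (fun T : ℝ => Real.log T / Real.log (2 * T)) atTop (𝓝 1) := by
    have h1 : Tendsto (fun T : ℝ => Real.log 2 / Real.log T) atTop (𝓝 0) :=
      tendsto_const_nhds.div_atTop Real.tendsto_log_atTop
    have h2 := (h1.const_add 1).inv₀ (by norm_num)
    rw [add_zero, inv_one] at h2
    refine h2.congr' ?_
    filter_upwards [eventually_gt_atTop (1:ℝ)] with T hT
    have h3 : 0 < Real.log T := Real.log_pos hT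
    have h4 : 0 < Real.log 2 := Real.log_pos (by norm_num)
    rw [Real.log_mul (by norm_num) (by linarith)]
    field_simp
    ring
  -- the recursion
  have hrec : Tendsto (fun T => R (2 * T) - (Real.log T / Real.log (2 * T)) / 2 * (R T - C)) atTop (𝓝 C) := by
    have h1 := ((hl.div_const 2).mul_const C).add ((hl.div_const 2).mul h)
    have e : 1 / 2 * C + 1 / 2 * C = C := by ring
    rw [e] at h1
    refine h1.congr' ?_
    filter_upwards [eventually_gt_atTop (1:ℝ)] with T hT
    have h3 : 0 < Real.log T := Real.log_pos hT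
    have h4 : 0 < Real.log (2 * T) := Real.log_pos (by linarith)
    rw [hR]
    simp only []
    field_simp
    ring
  have hkey : ∀ η : ℝ, 0 < η → ∃ T1 : ℝ, 2 ≤ T1 ∧ ∀ T, T1 ≤ T → |R (2 * T) - C| ≤ |R T - C| / 2 + η := by
    intro η hη
    obtain ⟨T0, hT0⟩ := (Metric.tendsto_atTop.1 hrec) η hη
    refine ⟨max T0 2, le_max_right _ _, fun T hT => ?_⟩
    have h1 := hT0 T ((le_max_left _ _).trans hT)
    have hT2 : 2 ≤ T := (le_max_right _ _).trans hT
    rw [Real.dist_eq] at h1
    have h3 : 0 < Real.log T := Real.log_pos (by linarith)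
    have h4 : Real.log T ≤ Real.log (2 * T) := Real.log_le_log (by linarith) (by linarith)
    have h5 : Real.log T / Real.log (2 * T) ≤ 1 := (div_le_one (by linarith)).2 h4
    have h6 : 0 ≤ Real.log T / Real.log (2 * T) := div_nonneg h3.le (by linarith)
    have e : R (2 * T) - C = (R (2 * T) - (Real.log T / Real.log (2 * T)) / 2 * (R T - C) - C) +
      (Real.log T / Real.log (2 * T)) / 2 * (R T - C) := by ring
    rw [e]
    refine (abs_add_le _ _).trans ?_
    have h7 : |(Real.log T / Real.log (2 * T)) / 2 * (R T - C)| ≤ |R T - C| / 2 := by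
      rw [abs_mul, abs_of_nonneg (by positivity)]
      have := abs_nonneg (R T - C)
      nlinarith
    linarith
  rw [← hR, Metric.tendsto_nhds]
  intro ε hε
  obtain ⟨T1, hT1, hk⟩ := hkey (ε / 8) (by positivity)
  -- the bound on one block
  obtain ⟨K, hK⟩ : ∃ K : ℝ, K = S (2 * T1) / (T1 * Real.log T1) + |C| := ⟨_, rfl⟩
  have hT1l : 0 < Real.log T1 := Real.log_pos (by linarith)
  have hK0 : 0 ≤ K := by
    rw [hK]
    have := h0 (2 * T1)
    positivity
  have hblock : ∀ T, T1 ≤ T → T ≤ 2 * T1 → |R T - C| ≤ K := by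
    intro T ha hb
    have h1 : |R T| ≤ S (2 * T1) / (T1 * Real.log T1) := by
      rw [hR]
      simp only []
      have h2 : 0 < Real.log T := Real.log_pos (by linarith)
      rw [abs_of_nonneg (div_nonneg (h0 T) (mul_nonneg (by linarith) h2.le))]
      refine div_le_div₀ (h0 _) (hm hb) (by positivity) ?_
      exact mul_le_mul ha (Real.log_le_log (by linarith) ha) hT1l.le (by linarith)
    rw [hK]
    exact (abs_sub _ _).trans (by linarith)
  have hind : ∀ k : ℕ, ∀ T, 2 ^ k * T1 ≤ T → T ≤ 2 ^ (k + 1) * T1 → |R T - C| ≤ K / 2 ^ k + ε / 4 := by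
    intro k
    induction k with
    | zero =>
      intro T ha hb
      have := hblock T (by simpa using ha) (by simpa using hb)
      rw [pow_zero, div_one]
      linarith
    | succ k ih =>
      intro T ha hb
      have e1 : 2 ^ (k + 1) * T1 = 2 * (2 ^ k * T1) := by ring
      have e2 : 2 ^ (k + 1 + 1) * T1 = 2 * (2 ^ (k + 1) * T1) := by ring
      have h1 := ih (T / 2) (by linarith) (by linarith)
      have h2 : 1 ≤ (2:ℝ) ^ k := one_le_pow₀ (by norm_num)
      have h3 := hk (T / 2) (by nlinarith)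
      have e3 : 2 * (T / 2) = T := by ring
      rw [e3] at h3
      have e4 : K / 2 ^ (k + 1) = (K / 2 ^ k) / 2 := by rw [pow_succ]; field_simp
      rw [e4]
      linarith
  obtain ⟨n, hn⟩ : ∃ n : ℕ, ∀ k, n ≤ k → K / 2 ^ k < ε / 4 := by
    have h1 : Tendsto (fun k : ℕ => K / (2:ℝ) ^ k) atTop (𝓝 0) :=
      tendsto_const_nhds.div_atTop (tendsto_pow_atTop_atTop_of_one_lt (by norm_num))
    exact eventually_atTop.1 (h1.eventually (gt_mem_nhds (show (0:ℝ) < ε / 4 by positivity)))
  filter_upwards [eventually_ge_atTop (2 ^ n * T1)] with T hT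
  obtain ⟨k, hk1, hk2⟩ : ∃ k : ℕ, 2 ^ k ≤ T / T1 ∧ T / T1 < 2 ^ (k + 1) :=
    exists_nat_pow_near (by
      rw [le_div_iff₀ (by linarith)]
      have : 1 ≤ (2:ℝ) ^ n := one_le_pow₀ (by norm_num)
      nlinarith) (by norm_num)
  rw [le_div_iff₀ (by linarith)] at hk1
  rw [div_lt_iff₀ (by linarith)] at hk2
  have hnk : n ≤ k := by
    by_contra hcon
    push Not at hcon
    have h1 : (2:ℝ) ^ (k + 1) ≤ 2 ^ n := pow_le_pow_right₀ (by norm_num) hcon
    have h2 : 2 ^ (k + 1) * T1 ≤ 2 ^ n * T1 := mul_le_mul_of_nonneg_right h1 (by linarith)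
    linarith
  have h1 := hind k T hk1 hk2.le
  have h2 := hn k hnk
  rw [Real.dist_eq]
  linarith

/-! ### Gaussian sums -/

lemma tail_int {a : ℝ} (ha : 0 ≤ a) : IntegrableOn (fun y : ℝ => 2 * y * Real.exp (-(y ^ 2))) (Ioi a) ∧
    ∫ y in Ioi a, 2 * y * Real.exp (-(y ^ 2)) = Real.exp (-(a ^ 2)) := by
  have hd : ∀ y ∈ Ici a, HasDerivAt (fun y : ℝ => -Real.exp (-(y ^ 2))) (2 * y * Real.exp (-(y ^ 2))) y := by
    intro y _
    have h1 : HasDerivAt (fun y : ℝ => -(y ^ 2)) (-(((2:ℕ):ℝ) * y ^ (2 - 1))) y := (hasDerivAt_pow 2 y).neg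
    have h2 : HasDerivAt (fun y : ℝ => -Real.exp (-(y ^ 2))) (-(Real.exp (-(y ^ 2)) * -(((2:ℕ):ℝ) * y ^ (2 - 1)))) y :=
      h1.exp.neg
    have e : -(Real.exp (-(y ^ 2)) * -(((2:ℕ):ℝ) * y ^ (2 - 1))) = 2 * y * Real.exp (-(y ^ 2)) := by
      push_cast
      ring
    rw [e] at h2
    exact h2
  have hl : Tendsto (fun y : ℝ => -Real.exp (-(y ^ 2))) atTop (𝓝 0) := by
    have h1 := (Real.tendsto_exp_neg_atTop_nhds_zero.comp (tendsto_pow_atTop (α := ℝ) (two_ne_zero))).neg
    rw [neg_zero] at h1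
    exact h1
  have hp : ∀ y ∈ Ioi a, 0 ≤ 2 * y * Real.exp (-(y ^ 2)) := fun y hy => by
    have : 0 ≤ y := ha.trans (le_of_lt hy)
    positivity
  refine ⟨integrableOn_Ioi_deriv_of_nonneg' hd hp hl, ?_⟩
  rw [integral_Ioi_of_hasDerivAt_of_nonneg' hd hp hl]
  ring

variable {ι : Type*} [Countable ι] {ω w : ι → ℝ}

/-- the counting function -/
noncomputable def Sx (ω w : ι → ℝ) (x : ℝ) : ℝ := ∑' i, if ω i ≤ x then w i else 0

/-- the Gaussian sum -/
noncomputable def Gx (ω w : ι → ℝ) (s : ℝ) : ℝ := ∑' i, w i * Real.exp (-((s * ω i) ^ 2))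

lemma Sx_summ (hω : ∀ i, 0 < ω i) (hw : ∀ i, 0 ≤ w i)
    (hs : ∀ s : ℝ, 0 < s → s ≤ 1 → Summable fun i => w i * Real.exp (-((s * ω i) ^ 2))) (x : ℝ) :
    Summable fun i => if ω i ≤ x then w i else 0 := by
  refine Summable.of_nonneg_of_le (fun i => ?_) (fun i => ?_) ((hs 1 one_pos le_rfl).mul_left (Real.exp (x ^ 2)))
  · split_ifs
    · exact hw i
    · exact le_rfl
  · have h0 : 0 ≤ Real.exp (x ^ 2) * (w i * Real.exp (-((1 * ω i) ^ 2))) := by
      have := hw i
      positivity
    split_ifs with h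
    · have h1 : (1:ℝ) ≤ Real.exp (x ^ 2) * Real.exp (-((1 * ω i) ^ 2)) := by
        rw [← Real.exp_add]
        refine Real.one_le_exp ?_
        have := hω i
        nlinarith
      calc w i = w i * 1 := (mul_one _).symm
        _ ≤ w i * (Real.exp (x ^ 2) * Real.exp (-((1 * ω i) ^ 2))) := mul_le_mul_of_nonneg_left h1 (hw i)
        _ = _ := by ring
    · exact h0

lemma Sx_nonneg (hw : ∀ i, 0 ≤ w i) (x : ℝ) : 0 ≤ Sx ω w x := tsum_nonneg fun i => by
  split_ifs
  · exact hw i
  · exact le_rfl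

lemma Sx_mono (hω : ∀ i, 0 < ω i) (hw : ∀ i, 0 ≤ w i)
    (hs : ∀ s : ℝ, 0 < s → s ≤ 1 → Summable fun i => w i * Real.exp (-((s * ω i) ^ 2))) :
    Monotone (Sx ω w) := by
  intro x y hxy
  refine (Sx_summ hω hw hs x).tsum_le_tsum (fun i => ?_) (Sx_summ hω hw hs y)
  split_ifs with h1 h2
  · exact le_rfl
  · exact absurd (h1.trans hxy) h2
  · exact hw i
  · exact le_rfl

/-- the layer-cake formula -/
lemma layer (hω : ∀ i, 0 < ω i) (hw : ∀ i, 0 ≤ w i)
    (hs : ∀ s : ℝ, 0 < s → s ≤ 1 → Summable fun i => w i * Real.exp (-((s * ω i) ^ 2)))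
    {s : ℝ} (h0 : 0 < s) (h1 : s ≤ 1) :
    Gx ω w s = ∫ y in Ioi (0:ℝ), Sx ω w (y / s) * (2 * y * Real.exp (-(y ^ 2))) := by
  have hcase : ∀ i, ∀ y : ℝ, (if ω i ≤ y / s then w i else 0) * (2 * y * Real.exp (-(y ^ 2))) =
      (Ici (s * ω i)).indicator (fun y => w i * (2 * y * Real.exp (-(y ^ 2)))) y := by
    intro i y
    have : ω i ≤ y / s ↔ s * ω i ≤ y := by rw [le_div_iff₀ h0, mul_comm]
    by_cases h : ω i ≤ y / s
    · rw [if_pos h, indicator_of_mem (show y ∈ Ici (s * ω i) from this.1 h)]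
    · rw [if_neg h, indicator_of_notMem (show y ∉ Ici (s * ω i) from fun h' => h (this.2 h')), zero_mul]
  have hinter : ∀ i, Ioi (0:ℝ) ∩ Ici (s * ω i) = Ici (s * ω i) := fun i =>
    inter_eq_right.2 fun y hy => lt_of_lt_of_le (mul_pos h0 (hω i)) hy
  have hi0 : ∀ i, IntegrableOn (fun y : ℝ => w i * (2 * y * Real.exp (-(y ^ 2)))) (Ici (s * ω i)) := by
    intro i
    rw [integrableOn_Ici_iff_integrableOn_Ioi]
    exact (tail_int (mul_pos h0 (hω i)).le).1.const_mul _
  have hint : ∀ i, Integrable (fun y : ℝ => (if ω i ≤ y / s then w i else 0) * (2 * y * Real.exp (-(y ^ 2))))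
      (volume.restrict (Ioi 0)) := by
    intro i
    simp only [hcase]
    rw [integrable_indicator_iff measurableSet_Ici]
    unfold IntegrableOn
    rw [Measure.restrict_restrict measurableSet_Ici, inter_comm, hinter]
    exact hi0 i
  have hval : ∀ i, ∫ y in Ioi (0:ℝ), (if ω i ≤ y / s then w i else 0) * (2 * y * Real.exp (-(y ^ 2))) =
      w i * Real.exp (-((s * ω i) ^ 2)) := by
    intro i
    simp only [hcase]
    rw [setIntegral_indicator measurableSet_Ici, hinter, integral_Ici_eq_integral_Ioi, integral_const_mul,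
      (tail_int (mul_pos h0 (hω i)).le).2]
  have hnorm : ∀ i, ∫ y in Ioi (0:ℝ), ‖(if ω i ≤ y / s then w i else 0) * (2 * y * Real.exp (-(y ^ 2)))‖ =
      w i * Real.exp (-((s * ω i) ^ 2)) := by
    intro i
    rw [← hval i]
    refine setIntegral_congr_fun measurableSet_Ioi fun y hy => ?_
    have hy0 : (0:ℝ) < y := hy
    refine Real.norm_of_nonneg (mul_nonneg ?_ (by positivity))
    split_ifs
    · exact hw i
    · exact le_rfl
  have h2 := integral_tsum_of_summable_integral_norm (μ := volume.restrict (Ioi (0:ℝ))) hint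
    ((hs s h0 h1).congr fun i => (hnorm i).symm)
  simp only [hval] at h2
  unfold Gx
  rw [h2]
  refine integral_congr_ae (Eventually.of_forall fun y => ?_)
  simp only []
  rw [tsum_mul_right]
  rfl

lemma gauss_moment : ∫ y in Ioi (0:ℝ), y * (2 * y * Real.exp (-(y ^ 2))) = Real.sqrt Real.pi / 2 := by
  have h := integral_rpow_mul_exp_neg_rpow (p := 2) (q := 2) (by norm_num) (by norm_num)
  have e : ∀ y ∈ Ioi (0:ℝ), y * (2 * y * Real.exp (-(y ^ 2))) = 2 * (y ^ (2:ℝ) * Real.exp (-y ^ (2:ℝ))) := by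
    intro y _
    rw [Real.rpow_two]
    ring
  rw [setIntegral_congr_fun measurableSet_Ioi e, integral_const_mul, h]
  have h2 : Real.Gamma ((2 + 1) / 2) = Real.sqrt Real.pi / 2 := by
    have : ((2:ℝ) + 1) / 2 = 1 / 2 + 1 := by norm_num
    rw [this, Real.Gamma_add_one (by norm_num), Real.Gamma_one_half_eq]
    ring
  rw [h2]
  ring

lemma bound_exp {y : ℝ} (hy : 0 < y) : (1 + y) ^ 2 * (2 * y * Real.exp (-(y ^ 2))) ≤
    2 * Real.exp (25 / 4) * Real.exp (-2 * y) := by
  have h1 : 1 + y ≤ Real.exp y := by linarith [Real.add_one_le_exp y]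
  have h2 : y ≤ Real.exp y := by linarith [Real.add_one_le_exp y]
  have h3 : Real.exp (-(y ^ 2)) ≤ Real.exp (25 / 4 - 5 * y) := Real.exp_le_exp.2 (by nlinarith [sq_nonneg (y - 5 / 2)])
  calc (1 + y) ^ 2 * (2 * y * Real.exp (-(y ^ 2)))
      ≤ Real.exp y ^ 2 * (2 * Real.exp y * Real.exp (25 / 4 - 5 * y)) := by gcongr
    _ = 2 * (Real.exp y ^ 3 * Real.exp (25 / 4 - 5 * y)) := by ring
    _ = 2 * Real.exp (25 / 4) * Real.exp (-2 * y) := by
        rw [← Real.exp_nat_mul, ← Real.exp_add, mul_assoc, ← Real.exp_add]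
        congr 2
        push_cast
        ring

/-- **the Abelian theorem** -/
theorem abel_gauss (hω : ∀ i, 0 < ω i) (hw : ∀ i, 0 ≤ w i)
    (hs : ∀ s : ℝ, 0 < s → s ≤ 1 → Summable fun i => w i * Real.exp (-((s * ω i) ^ 2))) {C : ℝ}
    (h : Tendsto (fun T => Sx ω w T / (T * Real.log T)) atTop (𝓝 C)) :
    Tendsto (fun s => Gx ω w s * (s / Real.log (1 / s))) (𝓝[>] 0) (𝓝 (C * (Real.sqrt Real.pi / 2))) := by
  have hmono := Sx_mono hω hw hs
  have hC0 : 0 ≤ C := by
    refine ge_of_tendsto h ?_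
    filter_upwards [eventually_gt_atTop (1:ℝ)] with T hT
    exact div_nonneg (Sx_nonneg hw T) (mul_nonneg (by linarith) (Real.log_nonneg hT.le))
  have hlog3 : 1 ≤ Real.log 3 := by
    rw [Real.le_log_iff_exp_le (by norm_num)]
    linarith [Real.exp_one_lt_d9]
  -- the bound
  obtain ⟨K, hK0, hK⟩ : ∃ K : ℝ, 0 ≤ K ∧ ∀ x : ℝ, 0 ≤ x → Sx ω w x ≤ K * ((1 + x) * Real.log (x + 3)) := by
    obtain ⟨X0, hX0⟩ := eventually_atTop.1 (h.eventually (gt_mem_nhds (show C < C + 1 by linarith)))
    obtain ⟨X1, hX1⟩ : ∃ X1 : ℝ, X1 = max X0 3 := ⟨_, rfl⟩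
    have hX13 : 3 ≤ X1 := by rw [hX1]; exact le_max_right _ _
    have hS1 := Sx_nonneg (ω := ω) hw X1
    refine ⟨C + 1 + Sx ω w X1, by linarith, fun x hx => ?_⟩
    have h1 : 1 ≤ Real.log (x + 3) := hlog3.trans (Real.log_le_log (by norm_num) (by linarith))
    have h2 : 1 ≤ (1 + x) * Real.log (x + 3) := by nlinarith
    rcases le_total x X1 with h3 | h3
    · have h4 := hmono h3
      have h5 : 0 ≤ (C + 1) * ((1 + x) * Real.log (x + 3)) := by positivity
      nlinarith
    · have h4 := hX0 x ((by rw [hX1]; exact le_max_left _ _ : X0 ≤ X1).trans h3)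
      have h5 : 0 < Real.log x := Real.log_pos (by linarith)
      rw [div_lt_iff₀ (mul_pos (by linarith) h5)] at h4
      have h6 : Real.log x ≤ Real.log (x + 3) := Real.log_le_log (by linarith) (by linarith)
      have h7 : x * Real.log x ≤ (1 + x) * Real.log (x + 3) := mul_le_mul (by linarith) h6 h5.le (by linarith)
      have h8 : (C + 1) * (x * Real.log x) ≤ (C + 1) * ((1 + x) * Real.log (x + 3)) :=
        mul_le_mul_of_nonneg_left h7 (by linarith)
      have h9 : 0 ≤ Sx ω w X1 * ((1 + x) * Real.log (x + 3)) := mul_nonneg hS1 (by linarith)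
      nlinarith
  -- small `s`
  have hlogs : Tendsto (fun s : ℝ => Real.log (1 / s)) (𝓝[>] 0) atTop := by
    refine Real.tendsto_log_atTop.comp ?_
    refine tendsto_inv_nhdsGT_zero.congr fun s => ?_
    rw [one_div]
  have hsmall : ∀ᶠ s : ℝ in 𝓝[>] 0, 0 < s ∧ s ≤ 1 / 3 ∧ 1 ≤ Real.log (1 / s) := by
    filter_upwards [self_mem_nhdsWithin, mem_nhdsWithin_of_mem_nhds (Iic_mem_nhds (show (0:ℝ) < 1 / 3 by norm_num)),
      hlogs.eventually_ge_atTop 1] with s h1 h2 h3
    exact ⟨h1, h2, h3⟩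
  have hDCT : Tendsto (fun s : ℝ => ∫ y in Ioi (0:ℝ), (Sx ω w (y / s) * (s / Real.log (1 / s))) * (2 * y * Real.exp (-(y ^ 2))))
      (𝓝[>] 0) (𝓝 (∫ y in Ioi (0:ℝ), (C * y) * (2 * y * Real.exp (-(y ^ 2))))) := by
    refine tendsto_integral_filter_of_dominated_convergence (fun y => K * (2 * Real.exp (25 / 4) * Real.exp (-2 * y))) ?_ ?_ ?_ ?_
    · filter_upwards [hsmall] with s hs1
      refine Measurable.aestronglyMeasurable ?_
      have h1 : Measurable fun y : ℝ => Sx ω w (y / s) :=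
        Monotone.measurable fun a b hab => hmono (div_le_div_of_nonneg_right hab hs1.1.le)
      fun_prop
    · filter_upwards [hsmall] with s hs1
      obtain ⟨g1, g2, g3⟩ := hs1
      filter_upwards [ae_restrict_mem measurableSet_Ioi] with y hy
      have hy0 : (0:ℝ) < y := hy
      have hSn := Sx_nonneg (ω := ω) hw (y / s)
      rw [Real.norm_of_nonneg (by positivity)]
      have h1 : Sx ω w (y / s) * (s / Real.log (1 / s)) ≤ K * (1 + y) ^ 2 := by
        have h2 := hK (y / s) (by positivity)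
        have h3 : (1 + y / s) * s ≤ 1 + y := by
          rw [add_mul, div_mul_cancel₀ _ g1.ne']; linarith
        have h4 : Real.log (y / s + 3) ≤ (1 + y) * Real.log (1 / s) := by
          have h5 : y / s + 3 ≤ (1 + y) * (1 / s) := by
            have : 3 ≤ 1 / s := by rw [le_div_iff₀ g1]; linarith
            have e : (1 + y) * (1 / s) = 1 / s + y / s := by ring
            rw [e]; linarith
          have h6 := Real.log_le_log (by positivity) h5
          rw [Real.log_mul (by positivity) (by positivity)] at h6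
          have h7 : Real.log (1 + y) ≤ y := by
            have := Real.log_le_sub_one_of_pos (show 0 < 1 + y by linarith)
            linarith
          nlinarith
        have hL0 : 0 < Real.log (1 / s) := by linarith
        rw [mul_div_assoc', div_le_iff₀ hL0]
        calc Sx ω w (y / s) * s ≤ K * ((1 + y / s) * Real.log (y / s + 3)) * s := mul_le_mul_of_nonneg_right h2 g1.le
          _ = K * (((1 + y / s) * s) * Real.log (y / s + 3)) := by ring
          _ ≤ K * ((1 + y) * ((1 + y) * Real.log (1 / s))) := by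
              refine mul_le_mul_of_nonneg_left ?_ hK0
              refine mul_le_mul h3 h4 ?_ (by linarith)
              exact Real.log_nonneg (by have : 0 < y / s := by positivity
                                        linarith)
          _ = K * (1 + y) ^ 2 * Real.log (1 / s) := by ring
      calc _ ≤ K * (1 + y) ^ 2 * (2 * y * Real.exp (-(y ^ 2))) := mul_le_mul_of_nonneg_right h1 (by positivity)
        _ = K * ((1 + y) ^ 2 * (2 * y * Real.exp (-(y ^ 2)))) := by ring
        _ ≤ _ := mul_le_mul_of_nonneg_left (bound_exp hy0) hK0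
    · exact ((integrableOn_exp_mul_Ioi (a := -2) (by norm_num) 0).const_mul _).const_mul _
    · filter_upwards [ae_restrict_mem measurableSet_Ioi] with y hy
      have hy0 : (0:ℝ) < y := hy
      refine Tendsto.mul_const _ ?_
      have h1 : Tendsto (fun s : ℝ => y / s) (𝓝[>] 0) atTop := by
        simp only [div_eq_mul_inv]
        exact Tendsto.const_mul_atTop hy0 tendsto_inv_nhdsGT_zero
      have h2 := h.comp h1
      have h3 : Tendsto (fun s : ℝ => Real.log y / Real.log (1 / s) + 1) (𝓝[>] 0) (𝓝 1) := by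
        have := (tendsto_const_nhds (x := Real.log y)).div_atTop hlogs
        simpa using this.add_const 1
      have h4 := (h2.mul_const y).mul h3
      rw [mul_one] at h4
      refine h4.congr' ?_
      filter_upwards [hsmall, h1.eventually_gt_atTop 1] with s hs1 hs2
      obtain ⟨g1, g2, g3⟩ := hs1
      simp only [Function.comp]
      have h5 : 0 < Real.log (y / s) := Real.log_pos hs2
      have h6 : Real.log (y / s) = Real.log y + Real.log (1 / s) := by
        rw [← Real.log_mul hy0.ne' (by positivity)]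
        congr 1
        ring
      have hL0 : 0 < Real.log (1 / s) := by linarith
      have h7 : Real.log y / Real.log (1 / s) + 1 = Real.log (y / s) / Real.log (1 / s) := by
        rw [h6]; field_simp
      rw [h7]
      field_simp
  have hfin : ∫ y in Ioi (0:ℝ), (C * y) * (2 * y * Real.exp (-(y ^ 2))) = C * (Real.sqrt Real.pi / 2) := by
    rw [← gauss_moment, ← integral_const_mul]
    refine setIntegral_congr_fun measurableSet_Ioi fun y _ => ?_
    ring
  rw [hfin] at hDCT
  refine hDCT.congr' ?_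
  filter_upwards [hsmall] with s hs1
  obtain ⟨g1, g2, g3⟩ := hs1
  rw [layer hω hw hs g1 (by linarith), ← integral_mul_const]
  refine setIntegral_congr_fun measurableSet_Ioi fun y _ => ?_
  ring

/-- the converse for nonnegative terms and the limit zero -/
theorem taub_zero (hω : ∀ i, 0 < ω i) (hw : ∀ i, 0 ≤ w i)
    (hs : ∀ s : ℝ, 0 < s → s ≤ 1 → Summable fun i => w i * Real.exp (-((s * ω i) ^ 2)))
    (h : Tendsto (fun s => Gx ω w s * (s / Real.log (1 / s))) (𝓝[>] 0) (𝓝 0)) :
    Tendsto (fun T => Sx ω w T / (T * Real.log T)) atTop (𝓝 0) := by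
  have h1 : Tendsto (fun T : ℝ => T⁻¹) atTop (𝓝[>] 0) := tendsto_inv_atTop_nhdsGT_zero
  have h2 := (h.comp h1).const_mul (Real.exp 1)
  rw [mul_zero] at h2
  refine squeeze_zero' ?_ ?_ h2
  · filter_upwards [eventually_gt_atTop (1:ℝ)] with T hT
    exact div_nonneg (Sx_nonneg hw T) (mul_nonneg (by linarith) (Real.log_nonneg hT.le))
  · filter_upwards [eventually_gt_atTop (1:ℝ)] with T hT
    have hT0 : 0 < T := by linarith
    have hl : 0 < Real.log T := Real.log_pos hT
    have h3 : Sx ω w T ≤ Real.exp 1 * Gx ω w T⁻¹ := by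
      unfold Sx Gx
      rw [← tsum_mul_left]
      refine (Sx_summ hω hw hs T).tsum_le_tsum (fun i => ?_) ((hs T⁻¹ (inv_pos.2 hT0) (inv_le_one_of_one_le₀ hT.le)).mul_left _)
      have h0 : 0 ≤ Real.exp 1 * (w i * Real.exp (-((T⁻¹ * ω i) ^ 2))) := by
        have := hw i
        positivity
      split_ifs with h
      · have h4 : (1:ℝ) ≤ Real.exp 1 * Real.exp (-((T⁻¹ * ω i) ^ 2)) := by
          rw [← Real.exp_add]
          refine Real.one_le_exp ?_
          have h5 : T⁻¹ * ω i ≤ 1 := by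
            rw [inv_mul_eq_div, div_le_one hT0]; exact h
          have h6 : 0 ≤ T⁻¹ * ω i := mul_nonneg (inv_pos.2 hT0).le (hω i).le
          nlinarith
        calc w i = w i * 1 := (mul_one _).symm
          _ ≤ w i * (Real.exp 1 * Real.exp (-((T⁻¹ * ω i) ^ 2))) := mul_le_mul_of_nonneg_left h4 (hw i)
          _ = _ := by ring
      · exact h0
    simp only [Function.comp]
    have e : T⁻¹ / Real.log (1 / T⁻¹) = 1 / (T * Real.log T) := by
      rw [one_div, inv_inv]
      field_simp
    rw [e, ← mul_assoc, mul_one_div]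
    exact div_le_div_of_nonneg_right h3 (mul_pos hT0 hl).le

end Pool.Agent.X113.VG
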