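import Pool.Agent.X113.HR4
import Pool.Agent.H370R2.Dyadic
import Pool.Agent.X113.VG4
import Pool.Agent.X113.VG5
import Pool.Agent.X113.VG6

set_option autoImplicit false
set_option linter.unusedSectionVars false
set_option maxHeartbeats 2000000

/-! The zeros of the L-functions modulo `q` in dyadic intervals. -/

open Complex Filter Topology Set MeasureTheory

namespace Pool.Agent.X113.VG

open Pool.Agent.X113.HQ (mch MM GRH Gam MM_pos_iff mch_pos_iff MM_neg ord_mul)

variable {q : ℕ} [NeZero q]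

/-- the L-function of an imprimitive character -/
lemma prim_prod (χ : DirichletCharacter ℂ q) : ∃ E : ℂ → ℂ, Differentiable ℂ E ∧ (∀ s : ℂ, 0 < s.re → E s ≠ 0) ∧
    ∀ s : ℂ, s ≠ 1 → DirichletCharacter.LFunction χ s = E s *
      (haveI : NeZero χ.conductor := ⟨χ.conductor_ne_zero⟩
       DirichletCharacter.LFunction χ.primitiveCharacter s) := by
  haveI : NeZero χ.conductor := ⟨χ.conductor_ne_zero⟩
  obtain ⟨ψ, hψ⟩ : ∃ ψ : DirichletCharacter ℂ χ.conductor, ψ = χ.primitiveCharacter := ⟨_, rfl⟩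
  refine ⟨fun s => ∏ p ∈ q.primeFactors, (1 - ψ p * (p : ℂ) ^ (-s)), ?_, fun s h0 => ?_, fun s hs => ?_⟩
  · refine Differentiable.fun_finsetProd fun p hp => ?_
    refine Differentiable.const_sub (Differentiable.const_mul ?_ _) _
    intro z
    exact DifferentiableAt.const_cpow (by fun_prop) (Or.inl (by
      exact_mod_cast (Nat.prime_of_mem_primeFactors hp).ne_zero))
  · refine Finset.prod_ne_zero_iff.2 fun p hp => ?_
    have hpp := Nat.prime_of_mem_primeFactors hp
    intro h2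
    have h3 : ‖ψ p * (p : ℂ) ^ (-s)‖ = 1 := by
      rw [← sub_eq_zero.1 h2, norm_one]
    have h4 : ‖(p : ℂ) ^ (-s)‖ < 1 := by
      rw [Complex.norm_natCast_cpow_of_pos hpp.pos, Complex.neg_re]
      exact Real.rpow_lt_one_of_one_lt_of_neg (by exact_mod_cast hpp.one_lt) (by linarith)
    have h5 : ‖ψ p * (p : ℂ) ^ (-s)‖ ≤ 1 * ‖(p : ℂ) ^ (-s)‖ := by
      rw [norm_mul]
      exact mul_le_mul_of_nonneg_right (ψ.norm_le_one _) (norm_nonneg _)
    linarith
  · have h6 := DirichletCharacter.LFunction_changeLevel χ.conductor_dvd_level ψ (s := s) (Or.inr hs)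
    have h7 : DirichletCharacter.changeLevel χ.conductor_dvd_level ψ = χ := by
      rw [hψ]; exact χ.changeLevel_primitiveCharacter
    rw [h7] at h6
    rw [h6, ← hψ, mul_comm]

lemma NN_prim (χ : DirichletCharacter ℂ q) {T1 T2 : ℝ} (hT : 0 < T1) :
    H370.zset (DirichletCharacter.LFunction χ) T1 T2 = (haveI : NeZero χ.conductor := ⟨χ.conductor_ne_zero⟩
      H370.zset (DirichletCharacter.LFunction χ.primitiveCharacter) T1 T2) ∧
    H370.NN (DirichletCharacter.LFunction χ) T1 T2 = (haveI : NeZero χ.conductor := ⟨χ.conductor_ne_zero⟩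
      H370.NN (DirichletCharacter.LFunction χ.primitiveCharacter) T1 T2) := by
  haveI : NeZero χ.conductor := ⟨χ.conductor_ne_zero⟩
  obtain ⟨E, h1, h2, h3⟩ := prim_prod χ
  have hz : H370.zset (DirichletCharacter.LFunction χ) T1 T2 =
      H370.zset (DirichletCharacter.LFunction χ.primitiveCharacter) T1 T2 := by
    ext s
    constructor
    · rintro ⟨a1, a2, a3, a4, a5⟩
      have hs1 : s ≠ 1 := by rintro rfl; simp at a2
      rw [h3 s hs1] at a5
      exact ⟨a1, a2, a3, a4, (mul_eq_zero.1 a5).resolve_left (h2 s a1)⟩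
    · rintro ⟨a1, a2, a3, a4, a5⟩
      have hs1 : s ≠ 1 := by rintro rfl; simp at a2
      refine ⟨a1, a2, a3, a4, ?_⟩
      rw [h3 s hs1, a5, mul_zero]
  refine ⟨hz, ?_⟩
  unfold H370.NN
  rw [hz]
  refine finsum_mem_congr rfl fun s hs => ?_
  obtain ⟨a1, a2, a3, a4, a5⟩ := hs
  have hs1 : s ≠ 1 := by rintro rfl; simp at a2
  unfold H370.mult
  refine ord_mul (h1.analyticAt s) (h2 s a1) (H370.DL.analyticAt_L hs1) ?_
  filter_upwards [isOpen_ne.mem_nhds hs1] with z hz1
  exact h3 z hz1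

/-- the zeros in dyadic intervals -/
theorem NN_dy (χ : DirichletCharacter ℂ q) :
    Tendsto (fun T : ℝ => (H370.NN (DirichletCharacter.LFunction χ) T (2 * T) : ℝ) / (T * Real.log T)) atTop
      (𝓝 (1 / (2 * Real.pi))) := by
  haveI : NeZero χ.conductor := ⟨χ.conductor_ne_zero⟩
  obtain ⟨C, T0, hC, hT0, h⟩ := H370.nn_asymp (H370.good_dirichlet χ.primitiveCharacter χ.primitiveCharacter_isPrimitive)
  have hlim : Tendsto (fun T : ℝ => C / Real.log T) atTop (𝓝 0) := tendsto_const_nhds.div_atTop Real.tendsto_log_atTop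
  rw [tendsto_iff_norm_sub_tendsto_zero]
  refine squeeze_zero' (Eventually.of_forall fun T => norm_nonneg _) ?_ hlim
  filter_upwards [eventually_ge_atTop T0] with T hT
  have hT1 : 10 ≤ T := hT0.trans hT
  have hl : 0 < Real.log T := Real.log_pos (by linarith)
  have h1 := h T hT T (2 * T) le_rfl (by linarith) (by linarith) le_rfl
  rw [(NN_prim χ (T1 := T) (T2 := 2 * T) (by linarith)).2, Real.norm_eq_abs]
  have e : (H370.NN (DirichletCharacter.LFunction χ.primitiveCharacter) T (2 * T) : ℝ) / (T * Real.log T) - 1 / (2 * Real.pi) =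
      ((H370.NN (DirichletCharacter.LFunction χ.primitiveCharacter) T (2 * T) : ℝ) - T * Real.log T / (2 * Real.pi)) /
        (T * Real.log T) := by
    have := Real.pi_pos
    have hT3 : T ≠ 0 := by linarith
    field_simp
  rw [e, abs_div, abs_of_pos (mul_pos (by linarith) hl), div_le_div_iff₀ (mul_pos (by linarith) hl) hl]
  nlinarith

lemma zset_fin (χ : DirichletCharacter ℂ q) {T1 T2 : ℝ} (hT : 1 ≤ T1) :
    (H370.zset (DirichletCharacter.LFunction χ) T1 T2).Finite := by
  haveI : NeZero χ.conductor := ⟨χ.conductor_ne_zero⟩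
  rw [(NN_prim χ (T1 := T1) (T2 := T2) (by linarith)).1]
  exact H370.zset_finite (H370.good_dirichlet χ.primitiveCharacter χ.primitiveCharacter_isPrimitive) T1 T2 hT

/-- a sum over the zeros of one L-function -/
lemma sum_zeros (hG : GRH q) (χ : DirichletCharacter ℂ q) {T1 T2 : ℝ} (hT : 1 ≤ T1) (φ : ℕ → ℝ) (hφ : φ 0 = 0) :
    ∑ s ∈ (zset_fin χ (T2 := T2) hT).toFinset, φ (H370.mult (DirichletCharacter.LFunction χ) s) =
      ∑' γ : ℝ, if T1 < γ ∧ γ ≤ T2 then φ (mch χ γ) else 0 := by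
  classical
  obtain ⟨Z, hZ⟩ : ∃ Z : Finset ℂ, Z = (zset_fin χ (T2 := T2) hT).toFinset := ⟨_, rfl⟩
  have hmem : ∀ s, s ∈ Z ↔ s ∈ H370.zset (DirichletCharacter.LFunction χ) T1 T2 := fun s => by
    rw [hZ, Set.Finite.mem_toFinset]
  have hre : ∀ s ∈ Z, s = ⟨1 / 2, s.im⟩ := by
    intro s hs
    obtain ⟨a1, a2, a3, a4, a5⟩ := (hmem s).1 hs
    exact Complex.ext (hG χ s a1 a2 a5) rfl
  rw [← hZ, tsum_eq_sum (s := Z.image Complex.im)]
  · rw [Finset.sum_image]
    · refine Finset.sum_congr rfl fun s hs => ?_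
      obtain ⟨a1, a2, a3, a4, a5⟩ := (hmem s).1 hs
      rw [if_pos ⟨a3, a4⟩]
      congr 1
      unfold mch
      rw [← hre s hs]
    · intro a ha b hb hab
      rw [hre a ha, hre b hb]
      have : a.im = b.im := hab
      rw [this]
  · intro γ hγ
    split_ifs with h
    · have h0 : mch χ γ = 0 := by
        by_contra hne
        have hz := (mch_pos_iff (χ := χ) (γ := γ) (by linarith [h.1])).1 (Nat.pos_of_ne_zero hne)
        apply hγ
        refine Finset.mem_image.2 ⟨⟨1 / 2, γ⟩, (hmem _).2 ⟨by norm_num, by norm_num, h.1, h.2, hz⟩, rfl⟩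
      rw [h0, hφ]
    · rfl

end Pool.Agent.X113.VG
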