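import Pool.Agent.X113.VG7

set_option autoImplicit false
set_option linter.unusedSectionVars false
set_option linter.style.haveILetI false
set_option maxHeartbeats 2000000

/-! The variance of the primes congruent to `1` modulo `q` with Gaussian weights. -/

open Complex Filter Topology Set MeasureTheory

namespace Pool.Agent.X113.VG

open Pool.Agent.X113.HQ (mch MM GRH Gam MM_pos_iff mch_pos_iff MM_neg ord_mul even_tsum kap kap_coprime pv)

variable {q : ℕ} [NeZero q]

open Classical in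
/-- the prime side with the width `s` -/
noncomputable def At (q : ℕ) [NeZero q] (s v : ℝ) : ℝ := (Real.sqrt (2 * Real.pi) * s)⁻¹ *
  (q.totient * ∑' n : ℕ, if (n : ZMod q) = 1 then
    ArithmeticFunction.vonMangoldt n * (n : ℝ) ^ (-(1 / 2) : ℝ) * Real.exp (-(((v - Real.log n) / s) ^ 2) / 2) else 0) -
  Real.exp (v / 2 + s ^ 2 / 8)

/-- the mean square -/
noncomputable def MS (q : ℕ) [NeZero q] (s V : ℝ) : ℝ := (∫ v in (0:ℝ)..V, At q s v ^ 2) / V

/-- the sum over the ordinates -/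
noncomputable def WW (q : ℕ) [NeZero q] (s : ℝ) : ℝ := ∑' γ : ℝ, (MM q γ : ℝ) ^ 2 * Real.exp (-((s * γ) ^ 2))

lemma sq_summ {f : ℝ → ℝ} (h0 : ∀ x, 0 ≤ f x) (hs : Summable f) : Summable fun x => f x ^ 2 := by
  refine Summable.of_nonneg_of_le (fun x => sq_nonneg _) (fun x => ?_) (hs.mul_left (∑' x, f x))
  rw [sq]
  exact mul_le_mul_of_nonneg_right (hs.le_tsum x fun j _ => h0 j) (h0 x)

lemma sq_form (s γ : ℝ) : ((MM q γ : ℝ) * Real.exp (-((s * γ) ^ 2) / 2)) ^ 2 = (MM q γ : ℝ) ^ 2 * Real.exp (-((s * γ) ^ 2)) := by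
  rw [mul_pow, ← Real.exp_nat_mul]
  congr 2
  push_cast
  ring

theorem W_summ (hG : GRH q) {s : ℝ} (h0 : 0 < s) (h1 : s ≤ 1) :
    Summable fun γ : ℝ => (MM q γ : ℝ) ^ 2 * Real.exp (-((s * γ) ^ 2)) := by
  letI : Par := ⟨s, h0, h1⟩
  have h := (explq hG).1
  refine (sq_summ (fun γ => by positivity) h).congr fun γ => sq_form s γ

/-- the mean square under the Riemann hypothesis -/
theorem ms_grh (hG : GRH q) {s : ℝ} (h0 : 0 < s) (h1 : s ≤ 1) : Tendsto (MS q s) atTop (𝓝 (WW q s)) := by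
  letI : Par := ⟨s, h0, h1⟩
  have h := explq hG
  have h2 := ms_lim (c := fun γ => (MM q γ : ℝ) * Real.exp (-((s * γ) ^ 2) / 2)) (fun γ => by positivity) h.1
    (fun γ => by rw [MM_neg, mul_neg, neg_sq]) (As_cont (q := q)) h.2
  have e : ∑' γ, ((MM q γ : ℝ) * Real.exp (-((s * γ) ^ 2) / 2)) ^ 2 = WW q s := tsum_congr fun γ => sq_form s γ
  rw [e] at h2
  exact h2

/-- a bounded mean square -/
theorem grh_of_ms {s : ℝ} (h0 : 0 < s) (h1 : s ≤ 1) {C : ℝ} (h : ∀ᶠ V : ℝ in atTop, MS q s V ≤ C) : GRH q := by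
  letI : Par := ⟨s, h0, h1⟩
  exact GRH_of_ms (C := C) h

/-! ### the asymptotics -/

instance : Countable (Gam q) := by
  have h := (Pool.Agent.X113.HR.ams_summ (q := q)).countable_support
  have e : Function.support (Pool.Agent.X113.HQ.am q) = univ :=
    eq_univ_of_forall fun γ => (Pool.Agent.X113.HQ.am_pos γ).ne'
  rw [e] at h
  exact countable_univ_iff.1 h

/-- the multiplicity as a function on the ordinates -/
noncomputable def w1 (q : ℕ) [NeZero q] (i : Gam q) : ℝ := MM q i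
noncomputable def wb (q : ℕ) [NeZero q] (i : Gam q) : ℝ := (MM q i : ℝ) ^ 2 - MM q i
/-- the inclusion -/
def om (q : ℕ) [NeZero q] (i : Gam q) : ℝ := i

lemma om_pos (i : Gam q) : 0 < om q i := i.2.1
lemma MM_one_le (i : Gam q) : (1:ℝ) ≤ MM q i := by exact_mod_cast (MM_pos_iff i.2.1).2 i.2
lemma w1_nonneg (i : Gam q) : 0 ≤ w1 q i := Nat.cast_nonneg _
lemma wb_nonneg (i : Gam q) : 0 ≤ wb q i := by
  have := MM_one_le i
  unfold wb
  nlinarith
lemma w1_summ (hG : GRH q) (s : ℝ) (h0 : 0 < s) (h1 : s ≤ 1) : Summable fun i => w1 q i * Real.exp (-((s * om q i) ^ 2)) := by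
  refine Summable.of_nonneg_of_le (fun i => mul_nonneg (w1_nonneg i) (Real.exp_pos _).le) (fun i => ?_)
    ((W_summ hG h0 h1).subtype (Gam q))
  refine mul_le_mul_of_nonneg_right ?_ (Real.exp_pos _).le
  have := MM_one_le i
  unfold w1
  show (MM q i : ℝ) ≤ (MM q i : ℝ) ^ 2
  nlinarith
lemma wb_summ (hG : GRH q) (s : ℝ) (h0 : 0 < s) (h1 : s ≤ 1) : Summable fun i => wb q i * Real.exp (-((s * om q i) ^ 2)) := by
  refine Summable.of_nonneg_of_le (fun i => mul_nonneg (wb_nonneg i) (Real.exp_pos _).le) (fun i => ?_)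
    ((W_summ hG h0 h1).subtype (Gam q))
  refine mul_le_mul_of_nonneg_right ?_ (Real.exp_pos _).le
  have := MM_one_le i
  unfold wb
  show (MM q i : ℝ) ^ 2 - MM q i ≤ (MM q i : ℝ) ^ 2
  linarith

/-- the decomposition -/
lemma WW_eq (hG : GRH q) {s : ℝ} (h0 : 0 < s) (h1 : s ≤ 1) :
    WW q s = (MM q 0 : ℝ) ^ 2 + 2 * (Gx (om q) (w1 q) s + Gx (om q) (wb q) s) := by
  unfold WW
  rw [even_tsum (W_summ hG h0 h1) (fun x => by rw [MM_neg, mul_neg, neg_sq]) (Γ := Gam q) (fun x hx => hx.1)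
    (fun x hx hn => by
      have : MM q x = 0 := by
        by_contra h
        exact hn ((MM_pos_iff hx).1 (Nat.pos_of_ne_zero h))
      rw [this]; simp)]
  have e : (MM q 0 : ℝ) ^ 2 * Real.exp (-((s * 0) ^ 2)) = (MM q 0 : ℝ) ^ 2 := by simp
  rw [e]
  unfold Gx
  rw [← (w1_summ hG s h0 h1).tsum_add (wb_summ hG s h0 h1)]
  congr 2
  refine tsum_congr fun i => ?_
  unfold w1 wb om
  ring

lemma card_char : (Fintype.card (DirichletCharacter ℂ q) : ℝ) = q.totient := by
  classical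
  have h := kap_coprime (q := q) (n := 1) (Nat.coprime_one_left q)
  rw [if_pos (by simp)] at h
  unfold kap pv at h
  have e : ∀ χ : DirichletCharacter ℂ q, χ.primitiveCharacter ((1 : ℕ) : ZMod χ.conductor) = 1 := fun χ => by
    rw [Nat.cast_one, map_one]
  simp only [e] at h
  rw [Finset.sum_const, Finset.card_univ, nsmul_eq_mul, mul_one] at h
  exact_mod_cast h

/-- differences of the counting function -/
lemma Sx_diff {w : Gam q → ℝ} (hw : ∀ i, 0 ≤ w i)
    (hs : ∀ s : ℝ, 0 < s → s ≤ 1 → Summable fun i => w i * Real.exp (-((s * om q i) ^ 2))) {T1 T2 : ℝ} (h : T1 ≤ T2) :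
    Sx (om q) w T2 - Sx (om q) w T1 = ∑' i, if T1 < om q i ∧ om q i ≤ T2 then w i else 0 := by
  unfold Sx
  rw [← (Sx_summ om_pos hw hs T2).tsum_sub (Sx_summ om_pos hw hs T1)]
  refine tsum_congr fun i => ?_
  by_cases h1 : om q i ≤ T1
  · rw [if_pos h1, if_pos (h1.trans h), if_neg (fun h2 => absurd h1 (not_le.2 h2.1)), sub_self]
  · rw [if_neg h1, sub_zero]
    by_cases h2 : om q i ≤ T2
    · rw [if_pos h2, if_pos ⟨not_le.1 h1, h2⟩]
    · rw [if_neg h2, if_neg (fun h3 => h2 h3.2)]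

lemma fin_pos {T1 T2 : ℝ} (hT : 1 ≤ T1) (χ : DirichletCharacter ℂ q) :
    (Function.support fun γ : ℝ => if T1 < γ ∧ γ ≤ T2 then (mch χ γ : ℝ) else 0).Finite := by
  refine ((zset_fin χ (T2 := T2) hT).image Complex.im).subset fun γ hγ => ?_
  rw [Function.mem_support] at hγ
  by_cases h : T1 < γ ∧ γ ≤ T2
  · rw [if_pos h] at hγ
    have h0 : mch χ γ ≠ 0 := fun h' => hγ (by rw [h', Nat.cast_zero])
    have hz := (mch_pos_iff (χ := χ) (γ := γ) (by linarith [h.1])).1 (Nat.pos_of_ne_zero h0)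
    exact ⟨⟨1 / 2, γ⟩, ⟨by norm_num, by norm_num, h.1, h.2, hz⟩, rfl⟩
  · rw [if_neg h] at hγ
    exact absurd rfl hγ

/-- the count -/
lemma count_dy (hG : GRH q) {T : ℝ} (hT : 1 ≤ T) : Sx (om q) (w1 q) (2 * T) - Sx (om q) (w1 q) T =
    ∑ χ : DirichletCharacter ℂ q, (H370.NN (DirichletCharacter.LFunction χ) T (2 * T) : ℝ) := by
  classical
  rw [Sx_diff w1_nonneg (w1_summ hG) (by linarith)]
  have e1 : ∀ χ : DirichletCharacter ℂ q, (H370.NN (DirichletCharacter.LFunction χ) T (2 * T) : ℝ) =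
      ∑' γ : ℝ, if T < γ ∧ γ ≤ 2 * T then (mch χ γ : ℝ) else 0 := by
    intro χ
    rw [← sum_zeros hG χ hT (fun n : ℕ => (n : ℝ)) Nat.cast_zero]
    unfold H370.NN
    rw [finsum_mem_eq_finite_toFinset_sum _ (zset_fin χ hT)]
    push_cast
    rfl
  simp only [e1]
  rw [← Summable.tsum_finsetSum fun χ _ => summable_of_hasFiniteSupport (fin_pos hT χ)]
  have e2 : ∀ γ : ℝ, (∑ χ : DirichletCharacter ℂ q, if T < γ ∧ γ ≤ 2 * T then (mch χ γ : ℝ) else 0) =
      if T < γ ∧ γ ≤ 2 * T then (MM q γ : ℝ) else 0 := by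
    intro γ
    split_ifs
    · unfold MM
      push_cast
      rfl
    · simp
  simp only [e2]
  refine tsum_subtype_eq_of_support_subset (f := fun γ : ℝ => if T < γ ∧ γ ≤ 2 * T then (MM q γ : ℝ) else 0) ?_
  intro γ hγ
  rw [Function.mem_support] at hγ
  by_cases h : T < γ ∧ γ ≤ 2 * T
  · rw [if_pos h] at hγ
    have h0 : MM q γ ≠ 0 := fun h' => hγ (by rw [h', Nat.cast_zero])
    exact (MM_pos_iff (by linarith [h.1])).1 (Nat.pos_of_ne_zero h0)
  · rw [if_neg h] at hγ
    exact absurd rfl hγ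

/-- the counting function of all zeros -/
theorem S1_lim (hG : GRH q) : Tendsto (fun T => Sx (om q) (w1 q) T / (T * Real.log T)) atTop
    (𝓝 (q.totient / (2 * Real.pi))) := by
  refine dyadic_all (Sx_mono om_pos w1_nonneg (w1_summ hG)) (Sx_nonneg w1_nonneg) ?_
  have h := tendsto_finsetSum (Finset.univ : Finset (DirichletCharacter ℂ q)) fun χ _ => NN_dy χ
  rw [Finset.sum_const, Finset.card_univ, nsmul_eq_mul, card_char, mul_one_div] at h
  refine h.congr' ?_
  filter_upwards [eventually_ge_atTop (1:ℝ)] with T hT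
  rw [count_dy hG hT, Finset.sum_div]

theorem G1_lim (hG : GRH q) : Tendsto (fun s => Gx (om q) (w1 q) s * (s / Real.log (1 / s))) (𝓝[>] 0)
    (𝓝 (q.totient / (4 * Real.sqrt Real.pi))) := by
  have h := abel_gauss om_pos w1_nonneg (w1_summ hG) (S1_lim hG)
  have e : (q.totient : ℝ) / (2 * Real.pi) * (Real.sqrt Real.pi / 2) = q.totient / (4 * Real.sqrt Real.pi) := by
    have h1 : 0 < Real.sqrt Real.pi := Real.sqrt_pos.2 Real.pi_pos
    have h2 : Real.sqrt Real.pi * Real.sqrt Real.pi = Real.pi := Real.mul_self_sqrt Real.pi_pos.le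
    have h3 := Real.pi_pos
    field_simp
    nlinarith
  rwa [e] at h

/-- the constant -/
noncomputable def kq (q : ℕ) : ℝ := q.totient / (2 * Real.sqrt Real.pi)

lemma kq_pos : 0 < kq q := by
  unfold kq
  have h1 : 0 < Real.sqrt Real.pi := Real.sqrt_pos.2 Real.pi_pos
  have h2 : (0:ℝ) < q.totient := by exact_mod_cast Nat.totient_pos.2 (NeZero.pos q)
  positivity

lemma slog : Tendsto (fun s : ℝ => s / Real.log (1 / s)) (𝓝[>] 0) (𝓝 0) := by
  have hlogs : Tendsto (fun s : ℝ => Real.log (1 / s)) (𝓝[>] 0) atTop := by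
    refine Real.tendsto_log_atTop.comp ?_
    refine tendsto_inv_nhdsGT_zero.congr fun s => ?_
    rw [one_div]
  have h1 : Tendsto (fun s : ℝ => s) (𝓝[>] 0) (𝓝 0) := tendsto_nhdsWithin_of_tendsto_nhds tendsto_id
  exact h1.div_atTop hlogs

/-- the difference -/
lemma diff_lim (hG : GRH q) : Tendsto (fun s => WW q s * (s / Real.log (1 / s)) -
    2 * (Gx (om q) (wb q) s * (s / Real.log (1 / s)))) (𝓝[>] 0) (𝓝 (kq q)) := by
  have h1 := (slog.const_mul ((MM q 0 : ℝ) ^ 2)).add ((G1_lim hG).const_mul 2)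
  have e : (MM q 0 : ℝ) ^ 2 * 0 + 2 * (q.totient / (4 * Real.sqrt Real.pi)) = kq q := by
    unfold kq
    have h1 : 0 < Real.sqrt Real.pi := Real.sqrt_pos.2 Real.pi_pos
    field_simp
    ring
  rw [e] at h1
  refine h1.congr' ?_
  filter_upwards [self_mem_nhdsWithin, mem_nhdsWithin_of_mem_nhds (Iic_mem_nhds (show (0:ℝ) < 1 by norm_num))] with s h2 h3
  rw [WW_eq hG h2 h3]
  ring

lemma small_s : ∀ᶠ s : ℝ in 𝓝[>] 0, 0 < s ∧ s ≤ 1 ∧ 0 < Real.log (1 / s) := by
  filter_upwards [self_mem_nhdsWithin, mem_nhdsWithin_of_mem_nhds (Iic_mem_nhds (show (0:ℝ) < 1 / 2 by norm_num))] with s h2 h3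
  have h4 : (0:ℝ) < s := h2
  have h5 : s ≤ 1 / 2 := h3
  refine ⟨h4, by linarith, Real.log_pos ?_⟩
  rw [lt_div_iff₀ h4]
  linarith

/-- almost all zeros are simple -/
def AS (q : ℕ) [NeZero q] : Prop := Tendsto (fun T => Sx (om q) (wb q) T / (T * Real.log T)) atTop (𝓝 0)

/-- **the criterion** -/
theorem crit : [
    ∀ ε : ℝ, 0 < ε → ∀ᶠ s : ℝ in 𝓝[>] 0, ∀ᶠ V : ℝ in atTop, |MS q s V / (kq q * (Real.log (1 / s) / s)) - 1| ≤ ε,
    ∀ ε : ℝ, 0 < ε → ∀ᶠ s : ℝ in 𝓝[>] 0, ∀ᶠ V : ℝ in atTop, MS q s V ≤ (1 + ε) * (kq q * (Real.log (1 / s) / s)),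
    GRH q ∧ AS q].TFAE := by
  have hk := kq_pos (q := q)
  tfae_have 1 → 2 := by
    intro h ε hε
    filter_upwards [h ε hε, small_s] with s h1 h2
    obtain ⟨g1, g2, g3⟩ := h2
    filter_upwards [h1] with V h3
    have hX : 0 < kq q * (Real.log (1 / s) / s) := by positivity
    have h4 := (abs_le.1 h3).2
    have h5 : MS q s V / (kq q * (Real.log (1 / s) / s)) ≤ 1 + ε := by linarith
    rwa [div_le_iff₀ hX] at h5
  tfae_have 2 → 3 := by
    intro h
    have hG : GRH q := by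
      obtain ⟨s, h1, h2⟩ := ((h 1 one_pos).and small_s).exists
      exact grh_of_ms h2.1 h2.2.1 h1
    refine ⟨hG, taub_zero om_pos wb_nonneg (wb_summ hG) ?_⟩
    rw [Metric.tendsto_nhds]
    intro ε hε
    obtain ⟨η, hη0, hη⟩ : ∃ η : ℝ, 0 < η ∧ η * kq q ≤ ε := ⟨ε / kq q, by positivity, by rw [div_mul_cancel₀ _ hk.ne']⟩
    have hd := (Metric.tendsto_nhds.1 (diff_lim hG)) (ε / 2) (by positivity)
    filter_upwards [h η hη0, small_s, hd] with s h1 h2 h3
    obtain ⟨g1, g2, g3⟩ := h2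
    have h4 : WW q s ≤ (1 + η) * (kq q * (Real.log (1 / s) / s)) := le_of_tendsto (ms_grh hG g1 g2) h1
    have hX : 0 < s / Real.log (1 / s) := by positivity
    have h5 : WW q s * (s / Real.log (1 / s)) ≤ (1 + η) * kq q := by
      have h6 := mul_le_mul_of_nonneg_right h4 hX.le
      have e : (1 + η) * (kq q * (Real.log (1 / s) / s)) * (s / Real.log (1 / s)) = (1 + η) * kq q := by
        field_simp
      rwa [e] at h6
    rw [Real.dist_eq, abs_lt] at h3
    have hGn : 0 ≤ Gx (om q) (wb q) s := tsum_nonneg fun i => mul_nonneg (wb_nonneg i) (Real.exp_pos _).le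
    rw [Real.dist_eq, sub_zero, abs_of_nonneg (mul_nonneg hGn hX.le)]
    linarith [h3.1]
  tfae_have 3 → 1 := by
    rintro ⟨hG, hA⟩ ε hε
    have h1 := abel_gauss om_pos wb_nonneg (wb_summ hG) hA
    rw [zero_mul] at h1
    have h2 := (diff_lim hG).add (h1.const_mul 2)
    rw [mul_zero, add_zero] at h2
    have h3 : Tendsto (fun s => WW q s / (kq q * (Real.log (1 / s) / s))) (𝓝[>] 0) (𝓝 1) := by
      have h4 := h2.div_const (kq q)
      rw [div_self hk.ne'] at h4
      refine h4.congr' ?_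
      filter_upwards [small_s] with s h2
      obtain ⟨g1, g2, g3⟩ := h2
      field_simp
      ring
    filter_upwards [small_s, (Metric.tendsto_nhds.1 h3) ε hε] with s h4 h5
    obtain ⟨g1, g2, g3⟩ := h4
    have h6 := (ms_grh hG g1 g2).div_const (kq q * (Real.log (1 / s) / s))
    have h7 : Tendsto (fun V => |MS q s V / (kq q * (Real.log (1 / s) / s)) - 1|) atTop
        (𝓝 |WW q s / (kq q * (Real.log (1 / s) / s)) - 1|) := (h6.sub_const 1).abs
    rw [Real.dist_eq] at h5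
    filter_upwards [h7.eventually (gt_mem_nhds h5)] with V h8
    exact h8.le
  tfae_finish

/-- the proportion of distinct zeros of every L-function -/
theorem ratio_of (hG : GRH q) (hA : AS q) (χ : DirichletCharacter ℂ q) :
    Tendsto (fun T : ℝ => (H370.Nd (DirichletCharacter.LFunction χ) T (2 * T) : ℝ) /
      H370.NN (DirichletCharacter.LFunction χ) T (2 * T)) atTop (𝓝 1) := by
  classical
  have hN := NN_dy χ
  have hpi := Real.pi_pos
  have hc : (0:ℝ) < 1 / (2 * Real.pi) := by positivity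
  -- the bound
  have hB : Tendsto (fun T : ℝ => Sx (om q) (wb q) (2 * T) / (T * Real.log T)) atTop (𝓝 0) := by
    have hl : Tendsto (fun T : ℝ => Real.log (2 * T) / Real.log T) atTop (𝓝 1) := by
      have h1 : Tendsto (fun T : ℝ => Real.log 2 / Real.log T) atTop (𝓝 0) :=
        tendsto_const_nhds.div_atTop Real.tendsto_log_atTop
      have h2 := h1.add_const 1
      rw [zero_add] at h2
      refine h2.congr' ?_
      filter_upwards [eventually_gt_atTop (1 : ℝ)] with T hT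
      have h5 : Real.log T ≠ 0 := (Real.log_pos hT).ne'
      rw [Real.log_mul (by norm_num) (by linarith)]
      field_simp
    have h2 := (hA.comp (tendsto_id.const_mul_atTop (two_pos (α := ℝ)))).mul (hl.const_mul 2)
    rw [zero_mul] at h2
    refine h2.congr' ?_
    filter_upwards [eventually_gt_atTop (1 : ℝ)] with T hT
    simp only [Function.comp, id]
    have h4 : Real.log (2 * T) ≠ 0 := (Real.log_pos (by linarith)).ne'
    have h5 : Real.log T ≠ 0 := (Real.log_pos hT).ne'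
    have h6 : T ≠ 0 := by linarith
    field_simp
  have hD : ∀ T : ℝ, 1 ≤ T → 0 ≤ (H370.NN (DirichletCharacter.LFunction χ) T (2 * T) : ℝ) -
      H370.Nd (DirichletCharacter.LFunction χ) T (2 * T) ∧
      (H370.NN (DirichletCharacter.LFunction χ) T (2 * T) : ℝ) - H370.Nd (DirichletCharacter.LFunction χ) T (2 * T) ≤
      Sx (om q) (wb q) (2 * T) := by
    intro T hT
    have e1 : (H370.NN (DirichletCharacter.LFunction χ) T (2 * T) : ℝ) - H370.Nd (DirichletCharacter.LFunction χ) T (2 * T) =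
        ∑ s ∈ (zset_fin χ (T2 := 2 * T) hT).toFinset, ((H370.mult (DirichletCharacter.LFunction χ) s : ℝ) - 1) := by
      unfold H370.NN H370.Nd
      rw [finsum_mem_eq_finite_toFinset_sum _ (zset_fin χ hT), Set.ncard_eq_toFinset_card _ (zset_fin χ hT),
        Finset.sum_sub_distrib]
      push_cast
      simp
    have hpos : ∀ s ∈ (zset_fin χ (T2 := 2 * T) hT).toFinset, (1:ℝ) ≤ H370.mult (DirichletCharacter.LFunction χ) s := by
      intro s hs
      rw [Set.Finite.mem_toFinset] at hs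
      obtain ⟨a1, a2, a3, a4, a5⟩ := hs
      have e : s = ⟨1 / 2, s.im⟩ := Complex.ext (hG χ s a1 a2 a5) rfl
      have h0 : 0 < mch χ s.im := (mch_pos_iff (by linarith)).2 (by rw [← e]; exact a5)
      unfold mch at h0
      rw [← e] at h0
      exact_mod_cast h0
    refine ⟨by rw [e1]; exact Finset.sum_nonneg fun s hs => by linarith [hpos s hs], ?_⟩
    rw [e1]
    have h1 : ∑ s ∈ (zset_fin χ (T2 := 2 * T) hT).toFinset, ((H370.mult (DirichletCharacter.LFunction χ) s : ℝ) - 1) ≤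
        ∑ s ∈ (zset_fin χ (T2 := 2 * T) hT).toFinset, (fun n : ℕ => (n : ℝ) ^ 2 - n) (H370.mult (DirichletCharacter.LFunction χ) s) := by
      refine Finset.sum_le_sum fun s hs => ?_
      have := hpos s hs
      simp only []
      nlinarith
    refine h1.trans ?_
    rw [sum_zeros hG χ hT (fun n : ℕ => (n : ℝ) ^ 2 - n) (by simp)]
    have h2 : ∑' γ : ℝ, (if T < γ ∧ γ ≤ 2 * T then (fun n : ℕ => (n : ℝ) ^ 2 - n) (mch χ γ) else 0) =
        ∑' i : Gam q, (if T < (i : ℝ) ∧ (i : ℝ) ≤ 2 * T then (mch χ i : ℝ) ^ 2 - mch χ i else 0) := by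
      symm
      refine tsum_subtype_eq_of_support_subset
        (f := fun γ : ℝ => if T < γ ∧ γ ≤ 2 * T then (mch χ γ : ℝ) ^ 2 - mch χ γ else 0) ?_
      intro γ hγ
      rw [Function.mem_support] at hγ
      by_cases h : T < γ ∧ γ ≤ 2 * T
      · rw [if_pos h] at hγ
        have h0 : mch χ γ ≠ 0 := fun h' => hγ (by rw [h', Nat.cast_zero]; ring)
        exact ⟨by linarith [h.1], χ, (mch_pos_iff (by linarith [h.1])).1 (Nat.pos_of_ne_zero h0)⟩
      · rw [if_neg h] at hγ
        exact absurd rfl hγ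
    rw [h2]
    have hle : ∀ i : Gam q, (if T < (i : ℝ) ∧ (i : ℝ) ≤ 2 * T then (mch χ i : ℝ) ^ 2 - mch χ i else 0) ≤
        if om q i ≤ 2 * T then wb q i else 0 := by
      intro i
      have hmM : (mch χ i : ℝ) ≤ MM q i := by
        unfold MM
        exact_mod_cast Finset.single_le_sum (f := fun χ' => mch χ' (i : ℝ)) (fun _ _ => Nat.zero_le _) (Finset.mem_univ χ)
      have h0 : (0:ℝ) ≤ mch χ i := Nat.cast_nonneg _
      have h1 := MM_one_le i
      split_ifs with g1 g2 g2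
      · unfold wb
        rcases Nat.eq_zero_or_pos (mch χ (i : ℝ)) with h3 | h3
        · rw [h3, Nat.cast_zero]; nlinarith
        · have h4 : (1:ℝ) ≤ mch χ i := by exact_mod_cast h3
          nlinarith
      · exact absurd g1.2 g2
      · exact wb_nonneg i
      · exact le_rfl
    have hn : ∀ i : Gam q, 0 ≤ (if T < (i : ℝ) ∧ (i : ℝ) ≤ 2 * T then (mch χ i : ℝ) ^ 2 - mch χ i else 0) := by
      intro i
      split_ifs
      · rcases Nat.eq_zero_or_pos (mch χ (i : ℝ)) with h3 | h3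
        · rw [h3, Nat.cast_zero]; norm_num
        · have h4 : (1:ℝ) ≤ mch χ i := by exact_mod_cast h3
          nlinarith
      · exact le_rfl
    have hsum := Sx_summ om_pos wb_nonneg (wb_summ hG) (2 * T)
    exact (Summable.of_nonneg_of_le hn hle hsum).tsum_le_tsum hle hsum
  have hE : Tendsto (fun T : ℝ => ((H370.NN (DirichletCharacter.LFunction χ) T (2 * T) : ℝ) -
      H370.Nd (DirichletCharacter.LFunction χ) T (2 * T)) / (T * Real.log T)) atTop (𝓝 0) := by
    refine squeeze_zero' ?_ ?_ hB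
    · filter_upwards [eventually_gt_atTop (1 : ℝ)] with T hT
      exact div_nonneg (hD T hT.le).1 (mul_nonneg (by linarith) (Real.log_nonneg hT.le))
    · filter_upwards [eventually_gt_atTop (1 : ℝ)] with T hT
      exact div_le_div_of_nonneg_right (hD T hT.le).2 (mul_nonneg (by linarith) (Real.log_nonneg hT.le))
  have h1 := (hE.div hN hc.ne').const_sub 1
  rw [zero_div, sub_zero] at h1
  refine h1.congr' ?_
  filter_upwards [hN.eventually (lt_mem_nhds hc), eventually_gt_atTop (1 : ℝ)] with T h2 h3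
  have h4 : 0 < T * Real.log T := mul_pos (by linarith) (Real.log_pos h3)
  have h5 : 0 < (H370.NN (DirichletCharacter.LFunction χ) T (2 * T) : ℝ) := by
    have := mul_pos h2 h4
    rwa [div_mul_cancel₀ _ h4.ne'] at this
  simp only [Pi.div_apply]
  rw [div_div_div_cancel_right₀ h4.ne']
  field_simp
  ring

end Pool.Agent.X113.VG
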