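import Pool.Agent.X113.VG8

set_option autoImplicit false
set_option linter.unusedSectionVars false
set_option linter.style.haveILetI false
set_option maxHeartbeats 2000000

/-! Complements: the lower bound and the form of the sum over the ordinates. -/

open Complex Filter Topology Set MeasureTheory

namespace Pool.Agent.X113.VG

open Pool.Agent.X113.HQ (mch MM GRH Gam MM_pos_iff mch_pos_iff MM_neg)

variable {q : ℕ} [NeZero q]

/-- the lower bound -/
theorem low {ε : ℝ} (hε : 0 < ε) : ∀ᶠ s : ℝ in 𝓝[>] 0,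
    ¬ ∀ᶠ V : ℝ in atTop, MS q s V ≤ (1 - ε) * (kq q * (Real.log (1 / s) / s)) := by
  have hk := kq_pos (q := q)
  by_cases hG : GRH q
  · have hd := (Metric.tendsto_nhds.1 (diff_lim hG)) (ε * kq q) (by positivity)
    filter_upwards [small_s, hd] with s h2 h3 h1
    obtain ⟨g1, g2, g3⟩ := h2
    have h4 : WW q s ≤ (1 - ε) * (kq q * (Real.log (1 / s) / s)) := le_of_tendsto (ms_grh hG g1 g2) h1
    have hX : 0 < s / Real.log (1 / s) := by positivity
    have h5 : WW q s * (s / Real.log (1 / s)) ≤ (1 - ε) * kq q := by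
      have h6 := mul_le_mul_of_nonneg_right h4 hX.le
      have e : (1 - ε) * (kq q * (Real.log (1 / s) / s)) * (s / Real.log (1 / s)) = (1 - ε) * kq q := by
        field_simp
      rwa [e] at h6
    rw [Real.dist_eq, abs_lt] at h3
    have hGn : 0 ≤ Gx (om q) (wb q) s := tsum_nonneg fun i => mul_nonneg (wb_nonneg i) (Real.exp_pos _).le
    have h7 : 0 ≤ Gx (om q) (wb q) s * (s / Real.log (1 / s)) := mul_nonneg hGn hX.le
    linarith [h3.1]
  · filter_upwards [small_s] with s h2 h1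
    exact hG (grh_of_ms h2.1 h2.2.1 h1)

lemma fin_MM (T : ℝ) : (Function.support fun γ : ℝ => if 0 < γ ∧ γ ≤ T then (MM q γ : ℝ) ^ 2 - MM q γ else 0).Finite := by
  have h := (Pool.Agent.X113.HL.MM_summ (q := q)).tendsto_cofinite_zero
  have h1 := h.eventually (gt_mem_nhds (show (0:ℝ) < Real.exp (-(T ^ 2) / 2) from Real.exp_pos _))
  rw [Filter.eventually_cofinite] at h1
  refine h1.subset fun γ hγ => ?_
  rw [Function.mem_support] at hγ
  show ¬ ((MM q γ : ℝ) * Real.exp (-(γ ^ 2) / 2) < Real.exp (-(T ^ 2) / 2))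
  rw [not_lt]
  by_cases h2 : 0 < γ ∧ γ ≤ T
  · rw [if_pos h2] at hγ
    have h0 : MM q γ ≠ 0 := fun h' => hγ (by rw [h', Nat.cast_zero]; ring)
    have h3 : (1:ℝ) ≤ MM q γ := by exact_mod_cast Nat.one_le_iff_ne_zero.2 h0
    have h4 : Real.exp (-(T ^ 2) / 2) ≤ Real.exp (-(γ ^ 2) / 2) := Real.exp_le_exp.2 (by nlinarith [h2.1, h2.2])
    have h5 := Real.exp_pos (-(γ ^ 2) / 2)
    nlinarith
  · rw [if_neg h2] at hγ
    exact absurd rfl hγ

/-- the finite sum -/
lemma Sx_finsum (T : ℝ) : Sx (om q) (wb q) T = ∑ᶠ γ ∈ Ioc (0:ℝ) T, ((MM q γ : ℝ) ^ 2 - MM q γ) := by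
  classical
  have e1 : Sx (om q) (wb q) T = ∑' γ : ℝ, if 0 < γ ∧ γ ≤ T then (MM q γ : ℝ) ^ 2 - MM q γ else 0 := by
    unfold Sx
    have h : ∀ i : Gam q, (if om q i ≤ T then wb q i else 0) =
        (fun γ : ℝ => if 0 < γ ∧ γ ≤ T then (MM q γ : ℝ) ^ 2 - MM q γ else 0) i := by
      intro i
      simp only []
      by_cases h1 : om q i ≤ T
      · rw [if_pos h1, if_pos ⟨i.2.1, h1⟩]; rfl
      · rw [if_neg h1, if_neg (fun h2 => h1 h2.2)]
    simp only [h]
    refine tsum_subtype_eq_of_support_subset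
      (f := fun γ : ℝ => if 0 < γ ∧ γ ≤ T then (MM q γ : ℝ) ^ 2 - MM q γ else 0) ?_
    intro γ hγ
    rw [Function.mem_support] at hγ
    by_cases h2 : 0 < γ ∧ γ ≤ T
    · rw [if_pos h2] at hγ
      have h0 : MM q γ ≠ 0 := fun h' => hγ (by rw [h', Nat.cast_zero]; ring)
      exact (MM_pos_iff h2.1).1 (Nat.pos_of_ne_zero h0)
    · rw [if_neg h2] at hγ
      exact absurd rfl hγ
  rw [e1, tsum_eq_finsum (fin_MM T)]
  refine finsum_congr fun γ => ?_
  by_cases h2 : 0 < γ ∧ γ ≤ T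
  · rw [if_pos h2, finsum_eq_if, if_pos (show γ ∈ Ioc (0:ℝ) T from h2)]
  · rw [if_neg h2, finsum_eq_if, if_neg (show ¬ γ ∈ Ioc (0:ℝ) T from h2)]

end Pool.Agent.X113.VG
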