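import Pool.Agent.X113.VG4
import Pool.Agent.X113.ESG

set_option autoImplicit false
set_option linter.unusedSectionVars false
set_option maxHeartbeats 2000000

/-! Truncated Laplace transforms and the theorem of three circles. -/

open MeasureTheory Filter Topology Set
open Pool.Agent.W263.BSD

namespace Pool.Agent.X113.VG

variable {f : ℝ → ℝ}

/-- the truncated function -/
noncomputable def trf (f : ℝ → ℝ) (V : ℝ) (v : ℝ) : ℝ := (Iic V).indicator f v

lemma trf_meas (hf : Continuous f) (V : ℝ) : Measurable (trf f V) := hf.measurable.indicator measurableSet_Iic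

lemma trf_LInt (hf : Continuous f) (V a : ℝ) : LInt (trf f V) a := by
  unfold LInt
  have e : (fun u => trf f V u * Real.exp (-(a * u))) =
      (Iic V).indicator (fun u => f u * Real.exp (-(a * u))) := by
    funext u
    unfold trf
    by_cases h : u ∈ Iic V
    · rw [indicator_of_mem h, indicator_of_mem h]
    · rw [indicator_of_notMem h, indicator_of_notMem h, zero_mul]
  rw [e, IntegrableOn, integrable_indicator_iff measurableSet_Iic, IntegrableOn,
    Measure.restrict_restrict measurableSet_Iic, inter_comm, Ioi_inter_Iic]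
  have hc : Continuous fun u => f u * Real.exp (-(a * u)) := by fun_prop
  exact hc.integrableOn_Ioc

lemma trf_diff (hf : Continuous f) (V : ℝ) : Differentiable ℂ (lapC (trf f V)) := fun z =>
  lapC_differentiableAt (w0 := z.re - 1) (trf_meas hf V) (fun w _ => trf_LInt hf V w) (by linarith)

lemma trf_bd (hf : Continuous f) {V : ℝ} (hV : 0 ≤ V) {a : ℝ} (ha : 0 < a) {w : ℂ} (hw : a ≤ w.re) :
    ‖lapC (trf f V) w‖ ≤ ((∫ v in (0:ℝ)..V, f v ^ 2) + 1 / (2 * a)) / 2 := by
  refine Pool.Agent.X113.ES.lapC_norm.trans ?_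
  have e : (fun v => (trf f V v) ^ 2) = (Iic V).indicator (fun v => f v ^ 2) := by
    funext u
    unfold trf
    by_cases h : u ∈ Iic V
    · rw [indicator_of_mem h, indicator_of_mem h]
    · rw [indicator_of_notMem h, indicator_of_notMem h]
      norm_num
  have hc2 : Continuous fun v => f v ^ 2 := by fun_prop
  have h1 : IntegrableOn (fun v => (trf f V v) ^ 2) (Ioi 0) := by
    rw [e, IntegrableOn, integrable_indicator_iff measurableSet_Iic, IntegrableOn,
      Measure.restrict_restrict measurableSet_Iic, inter_comm, Ioi_inter_Iic]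
    exact hc2.integrableOn_Ioc
  have h1v : ∫ v in Ioi (0:ℝ), (trf f V v) ^ 2 = ∫ v in (0:ℝ)..V, f v ^ 2 := by
    rw [e, setIntegral_indicator measurableSet_Iic, Ioi_inter_Iic, intervalIntegral.integral_of_le hV]
  have h2 : IntegrableOn (fun v : ℝ => Real.exp (-(2 * a) * v)) (Ioi 0) :=
    integrableOn_exp_mul_Ioi (by linarith) 0
  have h2v : ∫ v in Ioi (0:ℝ), Real.exp (-(2 * a) * v) = 1 / (2 * a) := by
    rw [integral_exp_mul_Ioi (by linarith) 0, mul_zero, Real.exp_zero]
    field_simp
  rw [← h1v, ← h2v, ← integral_add h1 h2, ← integral_div]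
  refine integral_mono_of_nonneg ?_ ((h1.add h2).div_const 2) ?_
  · filter_upwards with v
    exact mul_nonneg (abs_nonneg _) (Real.exp_pos _).le
  · rw [EventuallyLE, ae_restrict_iff' measurableSet_Ioi]
    filter_upwards with v hv
    have hv0 : (0:ℝ) < v := hv
    obtain ⟨y, hy⟩ : ∃ y : ℝ, y = Real.exp (-(a * v)) := ⟨_, rfl⟩
    have h3 : Real.exp (-(w.re * v)) ≤ y := by
      rw [hy]
      apply Real.exp_le_exp.2
      have := mul_le_mul_of_nonneg_right hw hv0.le
      linarith
    have h4 : Real.exp (-(2 * a) * v) = y ^ 2 := by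
      rw [hy, ← Real.exp_nat_mul]; congr 1; push_cast; ring
    change |trf f V v| * Real.exp (-(w.re * v)) ≤ (trf f V v ^ 2 + Real.exp (-(2 * a) * v)) / 2
    rw [h4]
    have h5 : |trf f V v| * Real.exp (-(w.re * v)) ≤ |trf f V v| * y :=
      mul_le_mul_of_nonneg_left h3 (abs_nonneg _)
    have h6 : (trf f V v) ^ 2 = |trf f V v| ^ 2 := (sq_abs _).symm
    rw [h6]
    nlinarith [sq_nonneg (|trf f V v| - y)]

lemma dif_bd (hf : Continuous f) {c1 : ℝ} (hc : LInt f c1) {V : ℝ} (_hV : 0 ≤ V) {w : ℂ} (hw : c1 + 1 / 2 ≤ w.re) :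
    ‖lapC (trf f V) w - lapC f w‖ ≤ (∫ v in Ioi (0:ℝ), |f v| * Real.exp (-(c1 * v))) * Real.exp (-V / 2) := by
  have hwL : LInt f w.re := hc.mono hf.measurable (by linarith)
  have h2 := trf_LInt hf V w.re
  have h3 : lapC (trf f V) w - lapC f w = lapC (fun v => trf f V v - f v) w := by
    unfold lapC
    rw [← integral_sub]
    · apply integral_congr_ae
      filter_upwards with v
      push_cast
      ring
    · exact LInt.complex (trf_meas hf V) h2
    · exact LInt.complex hf.measurable hwL
  rw [h3]
  refine Pool.Agent.X113.ES.lapC_norm.trans ?_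
  have hI : IntegrableOn (fun v => |f v| * Real.exp (-(c1 * v))) (Ioi 0) := by
    unfold LInt at hc
    refine hc.norm.congr (Eventually.of_forall fun v => ?_)
    simp only []
    rw [norm_mul, Real.norm_eq_abs, Real.norm_of_nonneg (Real.exp_pos _).le]
  rw [← integral_mul_const]
  refine integral_mono_of_nonneg ?_ (hI.mul_const _) ?_
  · filter_upwards with v
    exact mul_nonneg (abs_nonneg _) (Real.exp_pos _).le
  · rw [EventuallyLE, ae_restrict_iff' measurableSet_Ioi]
    filter_upwards with v hv
    have hv0 : (0:ℝ) < v := hv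
    change |trf f V v - f v| * Real.exp (-(w.re * v)) ≤ |f v| * Real.exp (-(c1 * v)) * Real.exp (-V / 2)
    by_cases h : v ≤ V
    · have e : trf f V v = f v := indicator_of_mem (show v ∈ Iic V from h) f
      rw [e, sub_self, abs_zero, zero_mul]
      positivity
    · have e : trf f V v = 0 := indicator_of_notMem (show v ∉ Iic V from h) f
      rw [e, zero_sub, abs_neg, mul_assoc, ← Real.exp_add]
      refine mul_le_mul_of_nonneg_left (Real.exp_le_exp.2 ?_) (abs_nonneg _)
      push Not at h
      have h4 := mul_le_mul_of_nonneg_right hw hv0.le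
      nlinarith

open Complex.HadamardThreeLines in
/-- three circles -/
theorem three_circles {H : ℂ → ℂ} {c : ℂ} {R : ℝ} (hR : 1 < R)
    (hd : ∀ z ∈ Metric.closedBall c R, DifferentiableAt ℂ H z) {α β : ℝ}
    (h1 : ∀ z ∈ Metric.closedBall c 1, ‖H z‖ ≤ α) (h2 : ∀ z ∈ Metric.closedBall c R, ‖H z‖ ≤ β) (hα : α ≤ 1) (hβ : 1 ≤ β)
    {ρ : ℝ} (hρ1 : 1 ≤ ρ) (hρR : ρ < R) {z : ℂ} (hz : ‖z - c‖ ≤ ρ) :
    ‖H z‖ ≤ α ^ (1 - Real.log ρ / Real.log R) * β := by
  have hα0 : 0 ≤ α := (norm_nonneg _).trans (h1 c (Metric.mem_closedBall_self zero_le_one))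
  have hlR : 0 < Real.log R := Real.log_pos hR
  have hlρ : 0 ≤ Real.log ρ := Real.log_nonneg hρ1
  have hlt : Real.log ρ / Real.log R < 1 := (div_lt_one hlR).2 (Real.log_lt_log (by linarith) hρR)
  have ht0 : 0 ≤ Real.log ρ / Real.log R := div_nonneg hlρ hlR.le
  rcases le_total ‖z - c‖ 1 with hz1 | hz1
  · have h3 := h1 z (by rw [Metric.mem_closedBall, dist_eq_norm]; exact hz1)
    refine h3.trans ?_
    have h4 : α ≤ α ^ (1 - Real.log ρ / Real.log R) := by
      rcases hα0.eq_or_lt with h | h
      · rw [← h, Real.zero_rpow (by linarith)]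
      · calc α = α ^ (1:ℝ) := (Real.rpow_one α).symm
          _ ≤ α ^ (1 - Real.log ρ / Real.log R) := Real.rpow_le_rpow_of_exponent_ge h hα (by linarith)
    have h5 : 0 ≤ α ^ (1 - Real.log ρ / Real.log R) := Real.rpow_nonneg hα0 _
    nlinarith
  · have hne : z - c ≠ 0 := by
      intro h
      rw [h, norm_zero] at hz1
      linarith
    obtain ⟨w, hw⟩ : ∃ w : ℂ, w = Complex.log (z - c) := ⟨_, rfl⟩
    have hwe : Complex.exp w = z - c := by rw [hw, Complex.exp_log hne]
    have hwre : w.re = Real.log ‖z - c‖ := by rw [hw, Complex.log_re]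
    have hw0 : 0 ≤ w.re := by rw [hwre]; exact Real.log_nonneg hz1
    have hw1 : w.re ≤ Real.log ρ := by rw [hwre]; exact Real.log_le_log (by linarith) hz
    have hlogρR : Real.log ρ < Real.log R := Real.log_lt_log (by linarith) hρR
    have hball : ∀ u : ℂ, u.re ≤ Real.log R → c + Complex.exp u ∈ Metric.closedBall c R := by
      intro u hu
      rw [Metric.mem_closedBall, dist_eq_norm, add_sub_cancel_left, Complex.norm_exp]
      rw [← Real.le_log_iff_exp_le (by linarith)]
      exact hu
    have h5 := norm_le_interp_of_mem_verticalClosedStrip' (f := fun u => H (c + Complex.exp u)) (z := w) (a := α) (b := β)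
      hlR ⟨hw0, by linarith⟩ (by
        apply DifferentiableOn.diffContOnCl
        intro u hu
        have hu' : u ∈ Complex.HadamardThreeLines.verticalClosedStrip 0 (Real.log R) := by
          have hc : IsClosed (Complex.HadamardThreeLines.verticalClosedStrip 0 (Real.log R)) :=
            isClosed_Icc.preimage Complex.continuous_re
          exact closure_minimal (preimage_mono Ioo_subset_Icc_self) hc hu
        have d1 : DifferentiableAt ℂ (fun u : ℂ => c + Complex.exp u) u := by fun_prop
        exact (DifferentiableAt.comp (g := H) u (hd _ (hball u hu'.2)) d1).differentiableWithinAt)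
      (by
        refine ⟨β, ?_⟩
        rintro _ ⟨u, hu, rfl⟩
        exact h2 _ (hball u hu.2))
      (fun u hu => by
        have hu' : u.re = 0 := hu
        refine h1 _ ?_
        rw [Metric.mem_closedBall, dist_eq_norm, add_sub_cancel_left, Complex.norm_exp, hu', Real.exp_zero])
      (fun u hu => by
        have hu' : u.re = Real.log R := hu
        exact h2 _ (hball u hu'.le))
    have e : c + Complex.exp w = z := by rw [hwe]; ring
    simp only [e, sub_zero] at h5
    refine h5.trans ?_
    have ht : w.re / Real.log R ≤ Real.log ρ / Real.log R := div_le_div_of_nonneg_right hw1 hlR.le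
    have ht' : 0 ≤ w.re / Real.log R := div_nonneg hw0 hlR.le
    refine mul_le_mul ?_ ?_ (Real.rpow_nonneg (by linarith) _) (Real.rpow_nonneg hα0 _)
    · rcases hα0.eq_or_lt with h | h
      · rw [← h, Real.zero_rpow (by linarith), Real.zero_rpow (by linarith)]
      · exact Real.rpow_le_rpow_of_exponent_ge h hα (by linarith)
    · calc β ^ (w.re / Real.log R) ≤ β ^ (1:ℝ) := Real.rpow_le_rpow_of_exponent_le hβ (by linarith)
        _ = β := Real.rpow_one β

end Pool.Agent.X113.VG
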