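import Pool.Agent.X113.VGA

set_option autoImplicit false
set_option linter.unusedSectionVars false
set_option maxHeartbeats 2000000

/-! Mean squares bounded on a sequence. -/

open MeasureTheory Filter Topology Set
open Pool.Agent.W263.BSD

namespace Pool.Agent.X113.VG

variable {f : ℝ → ℝ} {Lf E Eg : ℂ → ℂ} {c0 : ℝ}

/-- no zeros if the mean square is bounded along a sequence -/
theorem noz_freq (hf : Continuous f) (hL : Differentiable ℂ Lf) (hE : ∀ z : ℂ, 0 < z.re → DifferentiableAt ℂ E z)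
    (hEg : Differentiable ℂ Eg) (hEg0 : ∀ z, Eg z ≠ 0)
    (hc0 : 0 ≤ c0) (hint : ∀ w > c0, LInt f w)
    (hid : ∀ z : ℂ, c0 < z.re → Lf z * (lapC f z + E z) = Eg z * deriv Lf z)
    (hne : ∀ z : ℂ, c0 < z.re → Lf z ≠ 0) {C : ℝ}
    (hfreq : ∃ᶠ V : ℝ in atTop, ∫ v in (0:ℝ)..V, f v ^ 2 ≤ C * V) :
    ∀ z : ℂ, 0 < z.re → Lf z ≠ 0 := by
  intro z0 hz0 h0
  obtain ⟨β, hβ⟩ : ∃ β : ℝ, β = z0.re := ⟨_, rfl⟩
  have hβ0 : 0 < β := by rw [hβ]; exact hz0
  have hβc : β ≤ c0 := by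
    by_contra hcon
    push Not at hcon
    exact hne z0 (by rw [← hβ]; exact hcon) h0
  obtain ⟨c, hc⟩ : ∃ c : ℂ, c = ⟨c0 + 2, z0.im⟩ := ⟨_, rfl⟩
  obtain ⟨R, hR⟩ : ∃ R : ℝ, R = c0 + 2 - β / 4 := ⟨_, rfl⟩
  obtain ⟨ρ, hρ⟩ : ∃ ρ : ℝ, ρ = c0 + 2 - 3 * β / 4 := ⟨_, rfl⟩
  have hR1 : 1 < R := by rw [hR]; linarith
  have hρ1 : 1 ≤ ρ := by rw [hρ]; linarith
  have hρR : ρ < R := by rw [hR, hρ]; linarith
  have hre : ∀ z : ℂ, ∀ r : ℝ, z ∈ Metric.closedBall c r → c0 + 2 - r ≤ z.re := by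
    intro z r hz
    rw [Metric.mem_closedBall, dist_eq_norm] at hz
    have h1 := (Complex.abs_re_le_norm (z - c)).trans hz
    rw [Complex.sub_re, hc, abs_le] at h1
    simp only [] at h1
    linarith [h1.1]
  have hreR : ∀ z ∈ Metric.closedBall c R, β / 4 ≤ z.re := fun z hz => by
    have := hre z R hz
    rw [hR] at this
    linarith
  have hre1 : ∀ z ∈ Metric.closedBall c 1, c0 + 1 ≤ z.re := fun z hz => by
    have := hre z 1 hz
    linarith
  have hsub : Metric.closedBall c 1 ⊆ Metric.closedBall c R := Metric.closedBall_subset_closedBall hR1.le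
  have hd' : Differentiable ℂ (deriv Lf) := fun z => (hL.analyticAt z).deriv.differentiableAt
  -- bounds on the compact disc
  have hK : IsCompact (Metric.closedBall c R) := isCompact_closedBall c R
  obtain ⟨K1, hK1⟩ := hK.exists_bound_of_continuousOn (f := Lf) hL.continuous.continuousOn
  obtain ⟨K2, hK2⟩ := hK.exists_bound_of_continuousOn (f := E) fun z hz =>
    (hE z (by have := hreR z hz; linarith)).continuousAt.continuousWithinAt
  obtain ⟨K3, hK3⟩ := hK.exists_bound_of_continuousOn (f := fun z => Eg z * deriv Lf z)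
    (hEg.continuous.mul hd'.continuous).continuousOn
  have hcm : c ∈ Metric.closedBall c R := Metric.mem_closedBall_self (by linarith)
  have hK10 : 0 ≤ K1 := (norm_nonneg _).trans (hK1 c hcm)
  have hK20 : 0 ≤ K2 := (norm_nonneg _).trans (hK2 c hcm)
  have hK30 : 0 ≤ K3 := (norm_nonneg _).trans (hK3 c hcm)
  obtain ⟨I, hI⟩ : ∃ I : ℝ, I = ∫ v in Ioi (0:ℝ), |f v| * Real.exp (-((c0 + 1 / 2) * v)) := ⟨_, rfl⟩
  have hI0 : 0 ≤ I := by
    rw [hI]
    exact integral_nonneg fun v => by positivity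
  obtain ⟨H, hH⟩ : ∃ H : ℝ → ℂ → ℂ, H = fun V z => Lf z * (lapC (trf f V) z + E z) - Eg z * deriv Lf z := ⟨_, rfl⟩
  have hHd : ∀ V : ℝ, ∀ z : ℂ, 0 < z.re → DifferentiableAt ℂ (H V) z := by
    intro V z hz
    rw [hH]
    exact ((hL z).mul ((trf_diff hf V z).add (hE z hz))).sub ((hEg z).mul (hd' z))
  obtain ⟨α1, hα1⟩ : ∃ α1 : ℝ, α1 = K1 * |C| / 2 := ⟨_, rfl⟩
  obtain ⟨β1, hβ1⟩ : ∃ β1 : ℝ, β1 = K1 * (1 / (2 * (β / 4)) / 2 + K2) + K3 + 1 := ⟨_, rfl⟩
  obtain ⟨γ, hγ⟩ : ∃ γ : ℝ, γ = K1 * I := ⟨_, rfl⟩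
  have hγ0 : 0 ≤ γ := by rw [hγ]; positivity
  obtain ⟨θ, hθ⟩ : ∃ θ : ℝ, θ = 1 - Real.log ρ / Real.log R := ⟨_, rfl⟩
  have hθ0 : 0 < θ := by
    rw [hθ, sub_pos]
    exact (div_lt_one (Real.log_pos hR1)).2 (Real.log_lt_log (by linarith) hρR)
  have hbig : ∀ V : ℝ, 0 ≤ V → ∫ v in (0:ℝ)..V, f v ^ 2 ≤ C * V → ∀ z ∈ Metric.closedBall c R,
      ‖H V z‖ ≤ α1 * V + β1 := by
    intro V hV hb z hz
    have g1 := trf_bd hf hV (a := β / 4) (by positivity) (hreR z hz)
    have g2 := hK1 z hz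
    have g3 := hK2 z hz
    have g4 := hK3 z hz
    have g5 : C * V ≤ |C| * V := mul_le_mul_of_nonneg_right (le_abs_self C) hV
    have g6 : ‖lapC (trf f V) z + E z‖ ≤ (|C| * V + 1 / (2 * (β / 4))) / 2 + K2 :=
      (norm_add_le _ _).trans (by linarith)
    rw [hH]
    simp only []
    calc ‖Lf z * (lapC (trf f V) z + E z) - Eg z * deriv Lf z‖
        ≤ ‖Lf z * (lapC (trf f V) z + E z)‖ + ‖Eg z * deriv Lf z‖ := norm_sub_le _ _
      _ ≤ K1 * ((|C| * V + 1 / (2 * (β / 4))) / 2 + K2) + K3 := by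
          rw [norm_mul]
          exact add_le_add (mul_le_mul g2 g6 (norm_nonneg _) hK10) g4
      _ ≤ α1 * V + β1 := by
          rw [hα1, hβ1]
          have e : K1 * ((|C| * V + 1 / (2 * (β / 4))) / 2 + K2) = K1 * |C| / 2 * V + K1 * (1 / (2 * (β / 4)) / 2 + K2) := by ring
          rw [e]
          linarith
  have hsmall : ∀ V : ℝ, 0 ≤ V → ∀ z ∈ Metric.closedBall c 1, ‖H V z‖ ≤ γ * Real.exp (-V / 2) := by
    intro V hV z hz
    have g0 := hre1 z hz
    have g1 := dif_bd hf (c1 := c0 + 1 / 2) (hint _ (by linarith)) hV (w := z) (by linarith)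
    have g2 := hK1 z (hsub hz)
    have e : H V z = Lf z * (lapC (trf f V) z - lapC f z) := by
      rw [hH]
      simp only []
      rw [← hid z (by linarith)]
      ring
    rw [e, norm_mul, hγ, mul_assoc]
    rw [← hI] at g1
    exact mul_le_mul g2 g1 (norm_nonneg _) hK10
  have hdec := Pool.Agent.X113.ES.decay α1 β1 γ θ hγ0 hθ0
  -- near the zero
  have hfin : analyticOrderAt Lf z0 ≠ ⊤ := by
    have h1 : AnalyticOnNhd ℂ Lf univ := fun z _ => hL.analyticAt z
    refine h1.analyticOrderAt_ne_top_of_isPreconnected isPreconnected_univ (mem_univ ((c0 + 1 : ℝ) : ℂ)) (mem_univ z0) ?_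
    rw [(hL.analyticAt _).analyticOrderAt_eq_zero.mpr (hne _ (by rw [Complex.ofReal_re]; linarith))]
    exact ENat.zero_ne_top
  obtain ⟨m, hm1, hm⟩ := Pool.Agent.X113.HL.logDeriv_lim (hL.analyticAt z0) h0 hfin
  obtain ⟨κ, hκ⟩ : ∃ κ : ℂ, κ = Eg z0 * m := ⟨_, rfl⟩
  have hκ0 : κ ≠ 0 := by
    rw [hκ]
    exact mul_ne_zero (hEg0 z0) (by exact_mod_cast (by omega : m ≠ 0))
  have hlim : Tendsto (fun w => Eg w * ((w - z0) * (deriv Lf w / Lf w))) (𝓝[≠] z0) (𝓝 κ) := by
    rw [hκ]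
    exact ((hEg.continuous.tendsto z0).mono_left nhdsWithin_le_nhds).mul hm
  have hiso : ∀ᶠ w in 𝓝[≠] z0, Lf w ≠ 0 := by
    rcases (hL.analyticAt z0).eventually_eq_zero_or_eventually_ne_zero with h | h
    · exact absurd (analyticOrderAt_eq_top.2 h) hfin
    · exact h
  obtain ⟨e0, he0⟩ : ∃ e0 : ℝ, e0 = ‖κ‖ / 4 := ⟨_, rfl⟩
  have he00 : 0 < e0 := by
    rw [he0]
    have := norm_pos_iff.2 hκ0
    positivity
  have hnear := hiso.and (Metric.tendsto_nhds.1 hlim e0 he00)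
  rw [eventually_nhdsWithin_iff, Metric.eventually_nhds_iff] at hnear
  obtain ⟨r1, hr1, hr⟩ := hnear
  obtain ⟨r0, hr0⟩ : ∃ r0 : ℝ, r0 = min (r1 / 2) (β / 4) := ⟨_, rfl⟩
  have hr00 : 0 < r0 := by rw [hr0]; exact lt_min (by positivity) (by positivity)
  have hr0a : r0 < r1 := by
    have : r0 ≤ r1 / 2 := by rw [hr0]; exact min_le_left _ _
    linarith
  have hr0b : r0 ≤ β / 4 := by rw [hr0]; exact min_le_right _ _
  have hzc : ‖z0 - c‖ = c0 + 2 - β := by
    have e : z0 - c = ((β - (c0 + 2) : ℝ) : ℂ) := by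
      rw [hc, hβ]
      apply Complex.ext <;> simp
    rw [e, Complex.norm_real, Real.norm_eq_abs, abs_of_nonpos (by linarith)]
    ring
  have hin : ∀ w ∈ Metric.closedBall z0 r0, ‖w - c‖ ≤ ρ := by
    intro w hw
    rw [Metric.mem_closedBall, dist_eq_norm] at hw
    have e : w - c = (w - z0) + (z0 - c) := by ring
    rw [e]
    refine (norm_add_le _ _).trans ?_
    rw [hzc, hρ]
    linarith
  have hinre : ∀ w ∈ Metric.closedBall z0 r0, 0 < w.re := by
    intro w hw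
    have h1 := hreR w (by rw [Metric.mem_closedBall, dist_eq_norm]; exact (hin w hw).trans hρR.le)
    linarith
  -- the minimum on the circle
  have hsph : IsCompact (Metric.sphere z0 r0) := isCompact_sphere z0 r0
  have hsne : (Metric.sphere z0 r0).Nonempty := NormedSpace.sphere_nonempty.2 hr00.le
  obtain ⟨wm, hwm, hmin⟩ := hsph.exists_isMinOn hsne (f := fun w => ‖Lf w‖) hL.continuous.norm.continuousOn
  have hsphr : ∀ w ∈ Metric.sphere z0 r0, Lf w ≠ 0 ∧ ‖Eg w * ((w - z0) * (deriv Lf w / Lf w)) - κ‖ < e0 := by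
    intro w hw
    rw [Metric.mem_sphere] at hw
    have h1 := hr (show dist w z0 < r1 by rw [hw]; exact hr0a) (by
      show w ∈ ({z0} : Set ℂ)ᶜ
      rw [mem_compl_iff, mem_singleton_iff]
      intro h
      rw [h, dist_self] at hw
      linarith)
    rw [dist_eq_norm] at h1
    exact h1
  obtain ⟨μ, hμ⟩ : ∃ μ : ℝ, μ = ‖Lf wm‖ := ⟨_, rfl⟩
  have hμ0 : 0 < μ := by rw [hμ]; exact norm_pos_iff.2 (hsphr wm hwm).1
  -- a good value of `V`
  have hev1 := hdec.eventually (gt_mem_nhds (show (0:ℝ) < e0 * μ / r0 by positivity))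
  have hev2 : ∀ᶠ V : ℝ in atTop, γ * Real.exp (-V / 2) < 1 := by
    have h1 : Tendsto (fun V : ℝ => γ * Real.exp (-V / 2)) atTop (𝓝 (γ * 0)) := by
      refine Tendsto.const_mul _ ?_
      have h2 := Real.tendsto_exp_neg_atTop_nhds_zero.comp
        ((tendsto_id (α := ℝ) (x := atTop)).atTop_div_const (show (0:ℝ) < 2 by norm_num))
      refine h2.congr fun V => ?_
      simp only [Function.comp, id]
      congr 1
      ring
    rw [mul_zero] at h1
    exact h1.eventually (gt_mem_nhds one_pos)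
  obtain ⟨V, hV1, hV2, hV3, hV4⟩ := (hfreq.and_eventually (hev1.and (hev2.and (eventually_ge_atTop (0:ℝ))))).exists
  have hα10 : 0 ≤ α1 * V := by
    rw [hα1]; positivity
  have hβ11 : 1 ≤ β1 := by
    rw [hβ1]
    have : 0 ≤ K1 * (1 / (2 * (β / 4)) / 2 + K2) := by positivity
    linarith
  have hHz : ∀ w ∈ Metric.closedBall z0 r0, ‖H V w‖ ≤ e0 * μ / r0 := by
    intro w hw
    have h1 := three_circles (H := H V) (c := c) hR1
      (fun z hz => hHd V z (by have := hreR z hz; linarith)) (hsmall V hV4) (hbig V hV4 hV1) hV3.le (by linarith)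
      hρ1 hρR (hin w hw)
    rw [← hθ, mul_comm] at h1
    exact h1.trans hV2.le
  -- the maximum principle
  have hmax := Complex.norm_le_of_forall_mem_frontier_norm_le (U := Metric.ball z0 r0)
    (f := fun w => (w - z0) * (lapC (trf f V) w + E w) - κ) (C := 2 * e0) Metric.isBounded_ball (by
      apply DifferentiableOn.diffContOnCl
      rw [closure_ball z0 hr00.ne']
      intro w hw
      refine DifferentiableAt.differentiableWithinAt ?_
      have d1 : DifferentiableAt ℂ (fun w : ℂ => w - z0) w := by fun_prop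
      exact (d1.mul ((trf_diff hf V w).add (hE w (hinre w hw)))).sub_const κ) (by
      intro w hw
      rw [frontier_ball z0 hr00.ne'] at hw
      obtain ⟨g1, g2⟩ := hsphr w hw
      have hwb : w ∈ Metric.closedBall z0 r0 := Metric.sphere_subset_closedBall hw
      have g3 := hHz w hwb
      have g4 : μ ≤ ‖Lf w‖ := by rw [hμ]; exact hmin hw
      have g5 : ‖w - z0‖ = r0 := by rw [← dist_eq_norm]; exact hw
      have e : (w - z0) * (lapC (trf f V) w + E w) - κ =
          (Eg w * ((w - z0) * (deriv Lf w / Lf w)) - κ) + (w - z0) * (H V w / Lf w) := by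
        rw [hH]
        simp only []
        field_simp
        ring
      show ‖(w - z0) * (lapC (trf f V) w + E w) - κ‖ ≤ 2 * e0
      rw [e]
      refine (norm_add_le _ _).trans ?_
      have g6 : ‖(w - z0) * (H V w / Lf w)‖ ≤ e0 := by
        rw [norm_mul, norm_div, g5]
        calc r0 * (‖H V w‖ / ‖Lf w‖) ≤ r0 * ((e0 * μ / r0) / μ) := by
              refine mul_le_mul_of_nonneg_left ?_ hr00.le
              exact div_le_div₀ (by positivity) g3 hμ0 g4
          _ = e0 := by field_simp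
      linarith) (z := z0) (subset_closure (Metric.mem_ball_self hr00))
  have e : (z0 - z0) * (lapC (trf f V) z0 + E z0) - κ = -κ := by ring
  have hmax2 : ‖(z0 - z0) * (lapC (trf f V) z0 + E z0) - κ‖ ≤ 2 * e0 := hmax
  rw [e, norm_neg] at hmax2
  rw [he0] at hmax2
  have := norm_pos_iff.2 hκ0
  linarith

end Pool.Agent.X113.VG
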