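import Pool.Agent.X113.VG9
import Pool.Agent.X113.VGB

set_option autoImplicit false
set_option linter.unusedSectionVars false
set_option linter.style.haveILetI false
set_option maxHeartbeats 2000000

/-! The criterion with sparse `V`. -/

open Filter Topology Set MeasureTheory
open scoped ComplexConjugate
open Pool.Agent.W263.BSD

namespace Pool.Agent.X113.VG

section

open Pool.Agent.X113.HQ hiding asym PS Jr er Jr_eq er_top er_bot PS_bot one_L one_chi rest_tendsto explq
open Pool.Agent.X113.HL (Lt Lf Lf_diff Lf_ne Lf_ne_right LS_eq)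

variable {q : ℕ} [NeZero q] [P : Par]

/-- **a mean square bounded along a sequence implies the Riemann hypothesis modulo `q`** -/
theorem GRH_of_freq {C : ℝ}
    (h : ∃ᶠ V : ℝ in atTop, (∫ v in (0:ℝ)..V, As q v ^ 2) / V ≤ C) : GRH q := by
  have hfreq : ∃ᶠ V : ℝ in atTop, ∫ v in (0:ℝ)..V, (-(As q v)) ^ 2 ≤ C * V := by
    refine (h.and_eventually (eventually_gt_atTop (0:ℝ))).mono fun V hV => ?_
    have := (div_le_iff₀ hV.2).1 hV.1
    simp only [neg_sq]
    exact this
  have hmain := noz_freq (f := fun v => -(As q v)) (Lf := Lf q) (E := Es q) (Eg := fun z => Complex.exp ((P.s * z) ^ 2 / 2))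
    (c0 := 1 / 2) (As_cont (q := q)).neg Lf_diff
    (fun z _ => Ec_diff z) (by fun_prop) (fun z => Complex.exp_ne_zero _) (by norm_num) (fun w hw => nA_LInt hw)
    (fun z hz => nA_id hz) (fun z hz => Lf_ne_right hz) hfreq
  have hright : ∀ (χ : DirichletCharacter ℂ q) (s : ℂ), 0 < s.re → s.re < 1 →
      DirichletCharacter.LFunction χ s = 0 → s.re ≤ 1 / 2 := by
    intro χ s _ h1 hz
    by_contra hcon
    push Not at hcon
    have h2 := hmain (s - 1 / 2) (by
      rw [Complex.sub_re]
      have : (1 / 2 : ℂ).re = 1 / 2 := by norm_num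
      rw [this]; linarith)
    have e : 1 / 2 + (s - 1 / 2) = s := by ring
    rw [Lf_ne (by rw [e]; exact strip_ne h1), e] at h2
    exact h2 χ hz
  intro χ s h0 h1 hz
  have h2 := hright χ s h0 h1 hz
  have hr : (1 - conj s).re = 1 - s.re := by simp
  have h3 := hright χ (1 - conj s) (by rw [hr]; linarith) (by rw [hr]; linarith) (L_refl h0 h1 hz)
  rw [hr] at h3
  linarith

end

open Pool.Agent.X113.HQ (MM GRH Gam)

variable {q : ℕ} [NeZero q]

theorem grh_of_freq {s : ℝ} (h0 : 0 < s) (h1 : s ≤ 1) {C : ℝ} (h : ∃ᶠ V : ℝ in atTop, MS q s V ≤ C) : GRH q := by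
  letI : Par := ⟨s, h0, h1⟩
  exact GRH_of_freq (C := C) h

/-- if the Riemann hypothesis modulo `q` fails -/
theorem ms_infinite (hn : ¬ GRH q) {s : ℝ} (h0 : 0 < s) (h1 : s ≤ 1) : Tendsto (MS q s) atTop atTop := by
  rw [tendsto_atTop]
  intro C
  by_contra hcon
  rw [not_eventually] at hcon
  exact hn (grh_of_freq h0 h1 (hcon.mono fun V hV => (not_le.1 hV).le))

/-- the lower bound -/
theorem low_all {ε : ℝ} (hε : 0 < ε) : ∀ᶠ s : ℝ in 𝓝[>] 0,
    ∀ᶠ V : ℝ in atTop, (1 - ε) * (kq q * (Real.log (1 / s) / s)) ≤ MS q s V := by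
  have hk := kq_pos (q := q)
  by_cases hG : GRH q
  · have hd := (Metric.tendsto_nhds.1 (diff_lim hG)) (ε * kq q) (by positivity)
    filter_upwards [small_s, hd] with s h2 h3
    obtain ⟨g1, g2, g3⟩ := h2
    have hX : 0 < s / Real.log (1 / s) := by positivity
    rw [Real.dist_eq, abs_lt] at h3
    have hGn : 0 ≤ Gx (om q) (wb q) s := tsum_nonneg fun i => mul_nonneg (wb_nonneg i) (Real.exp_pos _).le
    have h7 : 0 ≤ Gx (om q) (wb q) s * (s / Real.log (1 / s)) := mul_nonneg hGn hX.le
    have h8 : (1 - ε) * kq q < WW q s * (s / Real.log (1 / s)) := by linarith [h3.1]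
    have h9 : (1 - ε) * (kq q * (Real.log (1 / s) / s)) < WW q s := by
      have hY : 0 < Real.log (1 / s) / s := by positivity
      have h10 := mul_lt_mul_of_pos_right h8 hY
      have e : WW q s * (s / Real.log (1 / s)) * (Real.log (1 / s) / s) = WW q s := by
        field_simp
      rw [e] at h10
      linarith
    filter_upwards [(ms_grh hG g1 g2).eventually (lt_mem_nhds h9)] with V h10
    exact h10.le
  · filter_upwards [small_s] with s h2
    exact (ms_infinite hG h2.1 h2.2.1).eventually_ge_atTop _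

/-- **the criterion** -/
theorem crit_freq : [
    ∀ ε : ℝ, 0 < ε → ∀ᶠ s : ℝ in 𝓝[>] 0, ∀ᶠ V : ℝ in atTop, |MS q s V / (kq q * (Real.log (1 / s) / s)) - 1| ≤ ε,
    ∀ ε : ℝ, 0 < ε → ∀ᶠ s : ℝ in 𝓝[>] 0, ∃ᶠ V : ℝ in atTop, MS q s V ≤ (1 + ε) * (kq q * (Real.log (1 / s) / s)),
    GRH q ∧ AS q].TFAE := by
  tfae_have 1 → 2 := by
    intro h ε hε
    filter_upwards [((crit (q := q)).out 0 1 rfl rfl).1 h ε hε] with s h1
    exact h1.frequently
  tfae_have 2 → 3 := by
    intro h
    have hG : GRH q := by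
      obtain ⟨s, h1, h2⟩ := ((h 1 one_pos).and small_s).exists
      exact grh_of_freq h2.1 h2.2.1 h1
    refine ((crit (q := q)).out 1 2 rfl rfl).1 fun ε hε => ?_
    have hk := kq_pos (q := q)
    filter_upwards [h (ε / 2) (by positivity), small_s] with s h1 h2
    obtain ⟨g1, g2, g3⟩ := h2
    have hX : 0 < kq q * (Real.log (1 / s) / s) := by positivity
    have h3 : WW q s ≤ (1 + ε / 2) * (kq q * (Real.log (1 / s) / s)) := by
      by_contra hcon
      rw [not_le] at hcon
      obtain ⟨V, h4, h5⟩ := (h1.and_eventually ((ms_grh hG g1 g2).eventually (lt_mem_nhds hcon))).exists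
      linarith
    have h6 : WW q s < (1 + ε) * (kq q * (Real.log (1 / s) / s)) := by
      refine h3.trans_lt ?_
      exact mul_lt_mul_of_pos_right (by linarith) hX
    filter_upwards [(ms_grh hG g1 g2).eventually (gt_mem_nhds h6)] with V h7
    exact h7.le
  tfae_have 3 → 1 := ((crit (q := q)).out 2 0 rfl rfl).1
  tfae_finish

end Pool.Agent.X113.VG
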