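import Pool.Agent.X113.VG9
import Pool.Agent.X113.VGC

set_option autoImplicit false
set_option linter.unusedSectionVars false
set_option maxHeartbeats 2000000

/-! Fourier coefficients of the square of an almost periodic function. -/

open MeasureTheory Filter Topology Set
open Pool.Agent.W263.BSD
open Pool.Agent.X113.LI (mc ch ch_norm ch_cont ch_zero ch_add mc_series)

namespace Pool.Agent.X113.VG

open Pool.Agent.X113.HQ hiding asym PS Jr er Jr_eq er_top er_bot PS_bot one_L one_chi rest_tendsto explq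

section

variable {c : ℝ → ℝ}

/-- the twisted mean square -/
lemma tw_SS (h0 : ∀ γ, 0 ≤ c γ) (hs : Summable c) (he : ∀ γ, c (-γ) = c γ) (l : ℝ) :
    Tendsto (fun V : ℝ => (∫ v in (0:ℝ)..V, SS c v ^ 2 * Real.cos (l * v)) / V) atTop (𝓝 (∑' γ, c γ * c (γ + l))) := by
  classical
  obtain ⟨K, hK⟩ : ∃ K : Set ℝ, K = Function.support c := ⟨_, rfl⟩
  have hKc : Countable K := by
    rw [hK]
    exact hs.countable_support.to_subtype
  have hmem : ∀ x : ℝ, c x ≠ 0 → x ∈ K := fun x hx => by rw [hK]; exact hx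
  have hsub : ∀ (g : ℝ → ℂ), ∑' i : K, (c i : ℂ) * g i = ∑' γ : ℝ, (c γ : ℂ) * g γ := by
    intro g
    refine tsum_subtype_eq_of_support_subset (f := fun γ : ℝ => (c γ : ℂ) * g γ) ?_
    intro γ hγ
    rw [hK, Function.mem_support]
    rw [Function.mem_support] at hγ
    intro h
    apply hγ
    rw [h]; simp
  have hsK : Summable fun i : K => ‖(c i : ℂ)‖ := by
    refine (hs.subtype K).congr fun i => ?_
    simp only [Function.comp]
    rw [Complex.norm_real, Real.norm_of_nonneg (h0 _)]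
  have hpair : Summable fun x : K × K => ‖(c x.1 : ℂ) * (c x.2 : ℂ)‖ := by
    have := hsK.mul_of_nonneg hsK (fun _ => norm_nonneg _) (fun _ => norm_nonneg _)
    refine this.congr fun x => ?_
    rw [norm_mul]
  have h1 := mc_series (ι := K × K) (c := fun x => (c x.1 : ℂ) * (c x.2 : ℂ)) hpair (fun x => (x.1 : ℝ) - x.2 + l)
  -- the square
  have h2 : ∀ v : ℝ, ∑' x : K × K, (c x.1 : ℂ) * (c x.2 : ℂ) * ch ((x.1 : ℝ) - x.2 + l) v =
      ((SS c v ^ 2 : ℝ) : ℂ) * ch l v := by
    intro v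
    have e1 : (SS c v : ℂ) = ∑' i : K, (c i : ℂ) * ch i v := by
      rw [SS_ch h0 hs he, hsub fun γ => ch γ v]
    have e2 : (SS c v : ℂ) = ∑' i : K, (c i : ℂ) * ch (-(i : ℝ)) v := by
      rw [hsub fun γ => ch (-γ) v, SS_ch h0 hs he, ← (Equiv.neg ℝ).tsum_eq]
      refine tsum_congr fun γ => ?_
      simp only [Equiv.neg_apply, he]
    have n1 : Summable fun i : K => ‖(c i : ℂ) * ch i v‖ := by
      refine hsK.congr fun i => ?_
      rw [norm_mul, ch_norm, mul_one]
    have n2 : Summable fun i : K => ‖(c i : ℂ) * ch (-(i : ℝ)) v‖ := by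
      refine hsK.congr fun i => ?_
      rw [norm_mul, ch_norm, mul_one]
    have e3 := tsum_mul_tsum_of_summable_norm n1 n2
    rw [← e1, ← e2] at e3
    rw [Complex.ofReal_pow, sq, e3, ← tsum_mul_right]
    refine tsum_congr fun x => ?_
    rw [ch_add, sub_eq_add_neg, ch_add]
    ring
  simp only [h2] at h1
  -- the diagonal
  have h3 : ∑' x : K × K, (if (x.1 : ℝ) - x.2 + l = 0 then (c x.1 : ℂ) * (c x.2 : ℂ) else 0) =
      ((∑' γ, c γ * c (γ + l) : ℝ) : ℂ) := by
    have e1 : Summable fun x : K × K => (if (x.1 : ℝ) - x.2 + l = 0 then (c x.1 : ℂ) * (c x.2 : ℂ) else 0) := by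
      refine Summable.of_norm_bounded hpair fun x => ?_
      split_ifs
      · exact le_rfl
      · rw [norm_zero]; exact norm_nonneg _
    rw [e1.tsum_prod, Complex.ofReal_tsum]
    have e2 : ∀ i : K, ∑' j : K, (if (i : ℝ) - j + l = 0 then (c i : ℂ) * (c j : ℂ) else 0) =
        (c i : ℂ) * (c ((i : ℝ) + l) : ℂ) := by
      intro i
      by_cases hi : (i : ℝ) + l ∈ K
      · rw [tsum_eq_single (⟨(i : ℝ) + l, hi⟩ : K)]
        · rw [if_pos]
          simp only
          ring
        · intro j hj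
          rw [if_neg]
          intro h
          exact hj (Subtype.ext (by simp only; linarith))
      · have hz : c ((i : ℝ) + l) = 0 := by
          by_contra hne
          exact hi (hmem _ hne)
        rw [hz, Complex.ofReal_zero, mul_zero]
        rw [tsum_congr (g := fun _ => (0:ℂ)), tsum_zero]
        intro j
        rw [if_neg]
        intro h
        apply hi
        have : (i : ℝ) + l = j := by linarith
        rw [this]
        exact j.2
    simp only [e2]
    rw [hsub fun γ => (c (γ + l) : ℂ)]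
    refine tsum_congr fun γ => ?_
    push_cast
    ring
  rw [h3] at h1
  have h4 := (Complex.continuous_re.tendsto _).comp h1
  rw [Complex.ofReal_re] at h4
  refine h4.congr fun V => ?_
  simp only [Function.comp]
  unfold mc
  have hcont : Continuous fun v : ℝ => ((SS c v ^ 2 : ℝ) : ℂ) * ch l v := by
    have a1 := SS_cont h0 hs
    have a2 : Continuous fun v : ℝ => ch l v := by
      unfold ch
      fun_prop
    fun_prop
  have h5 := Complex.reCLM.intervalIntegral_comp_comm (hcont.intervalIntegrable (μ := volume) 0 V)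
  rw [Complex.div_ofReal_re]
  congr 1
  rw [Complex.reCLM_apply] at h5
  rw [← h5]
  refine intervalIntegral.integral_congr fun v _ => ?_
  simp only [Complex.reCLM_apply]
  rw [Complex.re_ofReal_mul]
  congr 1
  unfold ch
  rw [Complex.exp_ofReal_mul_I_re]

/-- **the twisted mean square of a function close to the series** -/
theorem tw_lim (h0 : ∀ γ, 0 ≤ c γ) (hs : Summable c) (he : ∀ γ, c (-γ) = c γ) {A : ℝ → ℝ} (hA : Continuous A)
    (hd : Tendsto (fun v => A v + SS c v) atTop (𝓝 0)) (l : ℝ) :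
    Tendsto (fun V : ℝ => (∫ v in (0:ℝ)..V, A v ^ 2 * Real.cos (l * v)) / V) atTop (𝓝 (∑' γ, c γ * c (γ + l))) := by
  have hSc := SS_cont h0 hs
  have h1 : Tendsto (fun v => (A v + SS c v) * (A v + SS c v) - 2 * (SS c v * (A v + SS c v))) atTop (𝓝 0) := by
    have h2 := hd.mul hd
    have h3 : Tendsto (fun v => SS c v * (A v + SS c v)) atTop (𝓝 0) := by
      refine squeeze_zero_norm (a := fun v => (∑' γ, c γ) * ‖A v + SS c v‖) (fun v => ?_) ?_
      · rw [norm_mul]
        exact mul_le_mul_of_nonneg_right (SS_le h0 hs v) (norm_nonneg _)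
      · have := hd.norm.const_mul (∑' γ, c γ)
        rwa [norm_zero, mul_zero] at this
    have h4 := h2.sub (h3.const_mul 2)
    rwa [mul_zero, mul_zero, sub_zero] at h4
  have h1' : Tendsto (fun v => ((A v + SS c v) * (A v + SS c v) - 2 * (SS c v * (A v + SS c v))) * Real.cos (l * v))
      atTop (𝓝 0) := by
    refine squeeze_zero_norm (fun v => ?_) (tendsto_zero_iff_norm_tendsto_zero.1 h1)
    rw [norm_mul]
    exact mul_le_of_le_one_right (norm_nonneg _) (Real.abs_cos_le_one _)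
  have h5 := cesaro (by fun_prop) h1'
  have h6 := h5.add (tw_SS h0 hs he l)
  rw [zero_add] at h6
  refine h6.congr fun V => ?_
  rw [← add_div, ← intervalIntegral.integral_add]
  · congr 1
    refine intervalIntegral.integral_congr fun v _ => ?_
    ring
  · exact Continuous.intervalIntegrable (by fun_prop) _ _
  · exact Continuous.intervalIntegrable (by fun_prop) _ _

end

variable {q : ℕ} [NeZero q]

/-- the correlation of the ordinates -/
noncomputable def FF (q : ℕ) [NeZero q] (s l : ℝ) : ℝ :=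
  ∑' γ : ℝ, (MM q γ : ℝ) * MM q (γ + l) * Real.exp (-(s ^ 2 * (γ ^ 2 + (γ + l) ^ 2)) / 2)

lemma pr_form (s l γ : ℝ) : ((MM q γ : ℝ) * Real.exp (-((s * γ) ^ 2) / 2)) *
    ((MM q (γ + l) : ℝ) * Real.exp (-((s * (γ + l)) ^ 2) / 2)) =
    (MM q γ : ℝ) * MM q (γ + l) * Real.exp (-(s ^ 2 * (γ ^ 2 + (γ + l) ^ 2)) / 2) := by
  have e : Real.exp (-(s ^ 2 * (γ ^ 2 + (γ + l) ^ 2)) / 2) =
      Real.exp (-((s * γ) ^ 2) / 2) * Real.exp (-((s * (γ + l)) ^ 2) / 2) := by
    rw [← Real.exp_add]
    congr 1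
    ring
  rw [e]
  ring

theorem F_summ (hG : GRH q) {s : ℝ} (h0 : 0 < s) (h1 : s ≤ 1) (l : ℝ) :
    Summable fun γ : ℝ => (MM q γ : ℝ) * MM q (γ + l) * Real.exp (-(s ^ 2 * (γ ^ 2 + (γ + l) ^ 2)) / 2) := by
  letI : Par := ⟨s, h0, h1⟩
  have h := (explq hG).1
  have hn : ∀ γ : ℝ, 0 ≤ (MM q γ : ℝ) * Real.exp (-((s * γ) ^ 2) / 2) := fun γ => by positivity
  have h2 : Summable fun γ : ℝ => ((MM q γ : ℝ) * Real.exp (-((s * γ) ^ 2) / 2)) *
      ((MM q (γ + l) : ℝ) * Real.exp (-((s * (γ + l)) ^ 2) / 2)) := by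
    refine Summable.of_nonneg_of_le (fun γ => mul_nonneg (hn _) (hn _)) (fun γ => ?_)
      (h.mul_right (∑' x : ℝ, (MM q x : ℝ) * Real.exp (-((s * x) ^ 2) / 2)))
    exact mul_le_mul_of_nonneg_left (h.le_tsum (γ + l) fun j _ => hn j) (hn γ)
  exact h2.congr fun γ => pr_form s l γ

/-- **the Fourier coefficients of the square of the error term** -/
theorem cor_lim (hG : GRH q) {s : ℝ} (h0 : 0 < s) (h1 : s ≤ 1) (l : ℝ) :
    Tendsto (fun V : ℝ => (∫ v in (0:ℝ)..V, At q s v ^ 2 * Real.cos (l * v)) / V) atTop (𝓝 (FF q s l)) := by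
  letI : Par := ⟨s, h0, h1⟩
  have h := explq hG
  have h2 := tw_lim (c := fun γ => (MM q γ : ℝ) * Real.exp (-((s * γ) ^ 2) / 2)) (fun γ => by positivity) h.1
    (fun γ => by rw [MM_neg, mul_neg, neg_sq]) (As_cont (q := q)) h.2 l
  have e : ∑' γ, ((MM q γ : ℝ) * Real.exp (-((s * γ) ^ 2) / 2)) *
      ((MM q (γ + l) : ℝ) * Real.exp (-((s * (γ + l)) ^ 2) / 2)) = FF q s l := tsum_congr fun γ => pr_form s l γ
  rw [e] at h2
  exact h2

end Pool.Agent.X113.VG
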