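import Pool.Agent.X113.WG1

set_option autoImplicit false
set_option linter.unusedSectionVars false
set_option maxHeartbeats 2000000

/-! The spacing of the ordinates and the Fourier coefficients of the square of the error term. -/

open MeasureTheory Filter Topology Set
open Pool.Agent.W263.BSD

namespace Pool.Agent.X113.VG

open Pool.Agent.X113.HQ hiding asym PS Jr er Jr_eq er_top er_bot PS_bot one_L one_chi rest_tendsto explq

variable {q : ℕ} [NeZero q]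

/-- the twisted mean square -/
noncomputable def CC (q : ℕ) [NeZero q] (s l V : ℝ) : ℝ := (∫ v in (0:ℝ)..V, At q s v ^ 2 * Real.cos (l * v)) / V

/-- distinct ordinates up to `T` are at a distance at least `T^(-(κ + ε))` -/
def Sep (q : ℕ) [NeZero q] (κ : ℝ) : Prop := ∀ ε : ℝ, 0 < ε → ∀ᶠ T : ℝ in atTop, ∀ γ γ' : ℝ, MM q γ ≠ 0 → MM q γ' ≠ 0 →
  |γ| ≤ T → |γ'| ≤ T → γ ≠ γ' → T ^ (-(κ + ε)) ≤ |γ - γ'|

lemma CC_zero (s V : ℝ) : CC q s 0 V = MS q s V := by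
  unfold CC MS
  congr 1
  refine intervalIntegral.integral_congr fun v _ => ?_
  simp

/-- from the primes to the zeros -/
theorem sep_of {κ : ℝ} (hG : GRH q) {δ : ℝ} (hδ : δ < Real.exp (-1))
    (h : ∀ ε : ℝ, 0 < ε → ∀ᶠ s : ℝ in 𝓝[>] 0, ∀ l : ℝ, 0 < l → l ≤ s ^ (κ + ε) → ∃ᶠ V : ℝ in atTop, CC q s l V ≤ δ) :
    Sep q κ := by
  intro ε hε
  have h1 : Tendsto (fun T : ℝ => T⁻¹) atTop (𝓝[>] 0) := tendsto_inv_atTop_nhdsGT_zero
  filter_upwards [h1.eventually (h ε hε), eventually_ge_atTop (1:ℝ)] with T hT hT1 γ γ' hm hm' hb hb' hne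
  have hT0 : 0 < T := by linarith
  by_contra hcon
  push Not at hcon
  have key : ∀ x y : ℝ, MM q x ≠ 0 → MM q y ≠ 0 → |x| ≤ T → |y| ≤ T → x < y → y - x < T ^ (-(κ + ε)) → False := by
    intro x y hx hy hbx hby hxy hd
    have h2 := hT (y - x) (by linarith) (by
      rw [Real.inv_rpow hT0.le, ← Real.rpow_neg hT0.le]
      exact hd.le)
    have hs0 : 0 < T⁻¹ := inv_pos.2 hT0
    have hs1 : T⁻¹ ≤ 1 := inv_le_one_of_one_le₀ hT1
    have h3 := le_of_tendsto_of_frequently (cor_lim hG hs0 hs1 (y - x)) h2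
    have h4 := (F_summ hG hs0 hs1 (y - x)).le_tsum x fun j _ => by positivity
    have h5 : Real.exp (-1) ≤ (MM q x : ℝ) * MM q (x + (y - x)) *
        Real.exp (-((T⁻¹) ^ 2 * (x ^ 2 + (x + (y - x)) ^ 2)) / 2) := by
      rw [add_sub_cancel]
      have e1 : (1:ℝ) ≤ MM q x := by exact_mod_cast Nat.one_le_iff_ne_zero.2 hx
      have e2 : (1:ℝ) ≤ MM q y := by exact_mod_cast Nat.one_le_iff_ne_zero.2 hy
      have e3 : (T⁻¹) ^ 2 * x ^ 2 ≤ 1 := by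
        have : x ^ 2 ≤ T ^ 2 := sq_le_sq' (by linarith [(abs_le.1 hbx).1]) (abs_le.1 hbx).2
        calc (T⁻¹) ^ 2 * x ^ 2 ≤ (T⁻¹) ^ 2 * T ^ 2 := by gcongr
          _ = 1 := by field_simp
      have e4 : (T⁻¹) ^ 2 * y ^ 2 ≤ 1 := by
        have : y ^ 2 ≤ T ^ 2 := sq_le_sq' (by linarith [(abs_le.1 hby).1]) (abs_le.1 hby).2
        calc (T⁻¹) ^ 2 * y ^ 2 ≤ (T⁻¹) ^ 2 * T ^ 2 := by gcongr
          _ = 1 := by field_simp
      have e5 : Real.exp (-1) ≤ Real.exp (-((T⁻¹) ^ 2 * (x ^ 2 + y ^ 2)) / 2) := Real.exp_le_exp.2 (by nlinarith)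
      have e6 : (1:ℝ) ≤ (MM q x : ℝ) * MM q y := by nlinarith
      calc Real.exp (-1) = 1 * Real.exp (-1) := (one_mul _).symm
        _ ≤ _ := mul_le_mul e6 e5 (Real.exp_pos _).le (by positivity)
    have h6 : FF q T⁻¹ (y - x) = ∑' γ : ℝ, (MM q γ : ℝ) * MM q (γ + (y - x)) *
      Real.exp (-((T⁻¹) ^ 2 * (γ ^ 2 + (γ + (y - x)) ^ 2)) / 2) := rfl
    rw [h6] at h3
    linarith
  rcases lt_or_gt_of_ne hne with h2 | h2
  · refine key γ γ' hm hm' hb hb' h2 ?_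
    rwa [abs_sub_comm, abs_of_pos (by linarith)] at hcon
  · refine key γ' γ hm' hm hb' hb h2 ?_
    rwa [abs_of_pos (by linarith)] at hcon

/-- the sum over all ordinates -/
lemma M1_eq (hG : GRH q) {s : ℝ} (h0 : 0 < s) (h1 : s ≤ 1) :
    Summable (fun γ : ℝ => (MM q γ : ℝ) * Real.exp (-((s * γ) ^ 2))) ∧
    ∑' γ : ℝ, (MM q γ : ℝ) * Real.exp (-((s * γ) ^ 2)) = (MM q 0 : ℝ) + 2 * Gx (om q) (w1 q) s := by
  have hs : Summable (fun γ : ℝ => (MM q γ : ℝ) * Real.exp (-((s * γ) ^ 2))) := by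
    refine Summable.of_nonneg_of_le (fun γ => by positivity) (fun γ => ?_) (W_summ hG h0 h1)
    refine mul_le_mul_of_nonneg_right ?_ (Real.exp_pos _).le
    have h2 : MM q γ ≤ MM q γ ^ 2 := Nat.le_self_pow (by norm_num) _
    exact_mod_cast h2
  refine ⟨hs, ?_⟩
  rw [even_tsum hs (fun x => by rw [MM_neg, mul_neg, neg_sq]) (Γ := Gam q) (fun x hx => hx.1)
    (fun x hx hn => by
      have : MM q x = 0 := by
        by_contra h
        exact hn ((MM_pos_iff hx).1 (Nat.pos_of_ne_zero h))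
      rw [this]; simp)]
  have e : (MM q 0 : ℝ) * Real.exp (-((s * 0) ^ 2)) = (MM q 0 : ℝ) := by simp
  rw [e]
  rfl

/-- a polynomial bound -/
lemma M1_bd (hG : GRH q) : ∃ K : ℝ, 0 < K ∧ ∀ᶠ s : ℝ in 𝓝[>] 0,
    ∑' γ : ℝ, (MM q γ : ℝ) * Real.exp (-((s * γ) ^ 2)) ≤ K * s⁻¹ ^ 2 := by
  have h := G1_lim (q := q) hG
  refine ⟨(MM q 0 : ℝ) + 2 * ((q.totient / (4 * Real.sqrt Real.pi)) + 1), by positivity, ?_⟩
  have h2 := h.eventually (gt_mem_nhds (lt_add_one _))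
  filter_upwards [h2, small_s] with s hs ⟨h0, h1, h3⟩
  rw [(M1_eq hG h0 h1).2]
  have h4 : Gx (om q) (w1 q) s ≤ ((q.totient / (4 * Real.sqrt Real.pi)) + 1) * (Real.log (1 / s) / s) := by
    have h5 : Gx (om q) (w1 q) s * (s / Real.log (1 / s)) * (Real.log (1 / s) / s) = Gx (om q) (w1 q) s := by
      field_simp
    rw [← h5]
    exact mul_le_mul_of_nonneg_right hs.le (by positivity)
  have h6 : Real.log (1 / s) / s ≤ s⁻¹ ^ 2 := by
    have h7 := Real.log_le_sub_one_of_pos (show 0 < 1 / s by positivity)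
    rw [sq, div_eq_mul_inv]
    refine mul_le_mul_of_nonneg_right ?_ (by positivity)
    rw [one_div] at h7 ⊢
    linarith
  have h8 : (1:ℝ) ≤ s⁻¹ ^ 2 := one_le_pow₀ ((one_le_inv₀ h0).2 h1)
  have h9 : (0:ℝ) ≤ (q.totient / (4 * Real.sqrt Real.pi)) + 1 := by positivity
  have h10 : (0:ℝ) ≤ (MM q 0 : ℝ) := by positivity
  calc (MM q 0 : ℝ) + 2 * Gx (om q) (w1 q) s ≤ (MM q 0 : ℝ) * s⁻¹ ^ 2 +
      2 * (((q.totient / (4 * Real.sqrt Real.pi)) + 1) * s⁻¹ ^ 2) := by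
        refine add_le_add ?_ ?_
        · nlinarith
        · have := mul_le_mul_of_nonneg_left h6 h9
          linarith
    _ = _ := by ring

/-- the tail bound -/
lemma F_tail (hG : GRH q) {s : ℝ} (h0 : 0 < s) (h1 : s ≤ 1) {l R : ℝ} (hR : 0 ≤ R)
    (h : ∀ γ : ℝ, MM q γ ≠ 0 → MM q (γ + l) ≠ 0 → R ≤ |γ|) :
    FF q s l ≤ Real.exp (-((s * R) ^ 2) / 4) * (∑' γ : ℝ, (MM q γ : ℝ) * Real.exp (-((s / 2 * γ) ^ 2))) ^ 2 := by
  have hs := (M1_eq (q := q) hG (s := s / 2) (by positivity) (by linarith)).1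
  obtain ⟨S, hS⟩ : ∃ S : ℝ, S = ∑' γ : ℝ, (MM q γ : ℝ) * Real.exp (-((s / 2 * γ) ^ 2)) := ⟨_, rfl⟩
  have hn : ∀ γ : ℝ, 0 ≤ (MM q γ : ℝ) * Real.exp (-((s / 2 * γ) ^ 2)) := fun γ => by positivity
  rw [← hS]
  have hS2 : Real.exp (-((s * R) ^ 2) / 4) * S ^ 2 =
      ∑' γ : ℝ, Real.exp (-((s * R) ^ 2) / 4) * S * ((MM q γ : ℝ) * Real.exp (-((s / 2 * γ) ^ 2))) := by
    rw [tsum_mul_left, ← hS]
    ring
  have hS0 : 0 ≤ S := by rw [hS]; exact tsum_nonneg hn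
  rw [hS2]
  refine (F_summ hG h0 h1 l).tsum_le_tsum (fun γ => ?_) (hs.mul_left _)
  by_cases hz : MM q γ = 0
  · rw [hz]
    simp
  by_cases hz' : MM q (γ + l) = 0
  · rw [hz']
    have := hn γ
    simp only [Nat.cast_zero, mul_zero, zero_mul]
    positivity
  have hRγ := h γ hz hz'
  have h2 : (MM q (γ + l) : ℝ) * Real.exp (-((s / 2 * (γ + l)) ^ 2)) ≤ S := by
    rw [hS]
    exact hs.le_tsum (γ + l) fun j _ => hn j
  have h3 : R ^ 2 ≤ γ ^ 2 := by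
    rw [← sq_abs γ]
    exact pow_le_pow_left₀ hR hRγ 2
  have e : Real.exp (-(s ^ 2 * (γ ^ 2 + (γ + l) ^ 2)) / 2) ≤ Real.exp (-((s * R) ^ 2) / 4) *
      (Real.exp (-((s / 2 * γ) ^ 2)) * Real.exp (-((s / 2 * (γ + l)) ^ 2))) := by
    rw [← Real.exp_add, ← Real.exp_add]
    refine Real.exp_le_exp.2 ?_
    have h4 : s ^ 2 * R ^ 2 ≤ s ^ 2 * γ ^ 2 := by gcongr
    have h5 : 0 ≤ s ^ 2 * (γ + l) ^ 2 := by positivity
    nlinarith
  calc (MM q γ : ℝ) * MM q (γ + l) * Real.exp (-(s ^ 2 * (γ ^ 2 + (γ + l) ^ 2)) / 2)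
      ≤ (MM q γ : ℝ) * MM q (γ + l) * (Real.exp (-((s * R) ^ 2) / 4) *
      (Real.exp (-((s / 2 * γ) ^ 2)) * Real.exp (-((s / 2 * (γ + l)) ^ 2)))) := by gcongr
    _ = Real.exp (-((s * R) ^ 2) / 4) * ((MM q (γ + l) : ℝ) * Real.exp (-((s / 2 * (γ + l)) ^ 2))) *
        ((MM q γ : ℝ) * Real.exp (-((s / 2 * γ) ^ 2))) := by ring
    _ ≤ _ := by gcongr

end Pool.Agent.X113.VG
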