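import Pool.Agent.X113.WG2

set_option autoImplicit false
set_option linter.unusedSectionVars false
set_option maxHeartbeats 2000000

/-! The spacing of the ordinates and the Fourier coefficients of the square of the error term: the criterion. -/

open MeasureTheory Filter Topology Set
open Pool.Agent.W263.BSD

namespace Pool.Agent.X113.VG

open Pool.Agent.X113.HQ hiding asym PS Jr er Jr_eq er_top er_bot PS_bot one_L one_chi rest_tendsto explq

variable {q : ℕ} [NeZero q]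

/-- the exponential beats the powers -/
lemma beat {θ K : ℝ} (hθ : 0 < θ) (hK : 0 < K) : ∀ᶠ s : ℝ in 𝓝[>] 0,
    Real.exp (-(s ^ (-(2 * θ))) / 16) * (K * (s / 2)⁻¹ ^ 2) ^ 2 < Real.exp (-(s ^ (-θ))) := by
  have hinv : Tendsto (fun s : ℝ => s⁻¹) (𝓝[>] 0) atTop := tendsto_inv_nhdsGT_zero
  -- with x = 1/s
  have h1 : Tendsto (fun x : ℝ => x ^ θ) atTop atTop := tendsto_rpow_atTop hθ
  have h2 : ∀ᶠ x : ℝ in atTop, Real.log (16 * K ^ 2) + 4 * Real.log x < x ^ θ := by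
    have a1 : Tendsto (fun x : ℝ => (Real.log (16 * K ^ 2) + 4 * Real.log x) / x ^ θ) atTop (𝓝 0) := by
      have b1 : Tendsto (fun x : ℝ => Real.log (16 * K ^ 2) / x ^ θ) atTop (𝓝 0) := h1.const_div_atTop _
      have b2 : Tendsto (fun x : ℝ => Real.log x / x ^ θ) atTop (𝓝 0) := (isLittleO_log_rpow_atTop hθ).tendsto_div_nhds_zero
      have b3 := b1.add (b2.const_mul 4)
      rw [mul_zero, add_zero] at b3
      refine b3.congr fun x => ?_
      ring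
    filter_upwards [a1.eventually (gt_mem_nhds (zero_lt_one)), eventually_gt_atTop (0:ℝ)] with x hx hx0
    have hp : 0 < x ^ θ := Real.rpow_pos_of_pos hx0 _
    rwa [div_lt_one hp] at hx
  have h3 : ∀ᶠ x : ℝ in atTop, 32 ≤ x ^ θ := h1.eventually_ge_atTop 32
  filter_upwards [hinv.eventually h2, hinv.eventually h3, self_mem_nhdsWithin] with s hs2 hs3 hs0
  have hs0' : 0 < s := hs0
  have e1 : s⁻¹ ^ θ = s ^ (-θ) := by rw [Real.inv_rpow hs0'.le, Real.rpow_neg hs0'.le]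
  have e2 : s ^ (-(2 * θ)) = (s ^ (-θ)) ^ 2 := by
    rw [← Real.rpow_natCast, ← Real.rpow_mul hs0'.le]
    congr 1
    push_cast
    ring
  rw [e1] at hs2 hs3
  rw [e2]
  set y := s ^ (-θ) with hy
  have e3 : (K * (s / 2)⁻¹ ^ 2) ^ 2 = Real.exp (Real.log (16 * K ^ 2) + 4 * Real.log s⁻¹) := by
    have c1 : Real.exp (4 * Real.log s⁻¹) = s⁻¹ ^ 4 := by
      rw [show (4:ℝ) * Real.log s⁻¹ = ((4:ℕ) : ℝ) * Real.log s⁻¹ by norm_num, Real.exp_nat_mul,
        Real.exp_log (inv_pos.2 hs0')]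
    rw [Real.exp_add, Real.exp_log (by positivity), c1]
    field_simp
    norm_num
  rw [e3, ← Real.exp_add]
  refine Real.exp_lt_exp.2 ?_
  nlinarith

/-- **from the zeros to the primes** -/
theorem bd_of_sep {κ : ℝ} (hκ : 0 ≤ κ) (hG : GRH q) (hS : Sep q κ) {ε : ℝ} (hε : 0 < ε) :
    ∃ η : ℝ, 0 < η ∧ ∀ᶠ s : ℝ in 𝓝[>] 0, ∀ l : ℝ, 0 < l → l ≤ s ^ (κ + ε) →
      FF q s l < Real.exp (-(s ^ (-η))) := by
  obtain ⟨K, hK, hb⟩ := M1_bd (q := q) hG
  obtain ⟨T0, hT0⟩ := eventually_atTop.1 ((hS (ε / 2) (by positivity)).and (eventually_ge_atTop (1:ℝ)))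
  obtain ⟨T1, hT1⟩ : ∃ T1 : ℝ, T1 = max T0 1 := ⟨_, rfl⟩
  have hT1' : 1 ≤ T1 := by rw [hT1]; exact le_max_right _ _
  have hT1pos : 0 < T1 := by linarith
  obtain ⟨p, hp⟩ : ∃ p : ℝ, p = κ + ε / 2 := ⟨_, rfl⟩
  have hp0 : 0 < p := by rw [hp]; positivity
  obtain ⟨θ, hθ⟩ : ∃ θ : ℝ, θ = (ε / 2) / p := ⟨_, rfl⟩
  have hθ0 : 0 < θ := by rw [hθ]; positivity
  have hPp : κ + ε = p * (1 + θ) := by
    rw [hθ]
    field_simp
    rw [hp]
    ring
  refine ⟨θ, hθ0, ?_⟩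
  -- smallness
  have hz : Tendsto (fun s : ℝ => s ^ (κ + ε)) (𝓝[>] 0) (𝓝 0) := by
    have h1 : Tendsto (fun s : ℝ => s ^ (κ + ε)) (𝓝 0) (𝓝 ((0:ℝ) ^ (κ + ε))) :=
      (Real.continuousAt_rpow_const 0 (κ + ε) (Or.inr (by positivity))).tendsto
    rw [Real.zero_rpow (by positivity)] at h1
    exact h1.mono_left nhdsWithin_le_nhds
  have hz2 : Tendsto (fun s : ℝ => s / 2) (𝓝[>] 0) (𝓝[>] 0) := by
    rw [tendsto_nhdsWithin_iff]
    constructor
    · have : Tendsto (fun s : ℝ => s / 2) (𝓝 0) (𝓝 (0 / 2)) := (continuous_id.div_const 2).tendsto 0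
      rw [zero_div] at this
      exact this.mono_left nhdsWithin_le_nhds
    · filter_upwards [self_mem_nhdsWithin] with s hs
      exact mem_Ioi.2 (half_pos (mem_Ioi.1 hs))
  have hz3 : Tendsto (fun s : ℝ => s ^ (1 + θ)) (𝓝[>] 0) (𝓝 0) := by
    have h1 : Tendsto (fun s : ℝ => s ^ (1 + θ)) (𝓝 0) (𝓝 ((0:ℝ) ^ (1 + θ))) :=
      (Real.continuousAt_rpow_const 0 (1 + θ) (Or.inr (by positivity))).tendsto
    rw [Real.zero_rpow (by positivity)] at h1
    exact h1.mono_left nhdsWithin_le_nhds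
  filter_upwards [hz.eventually (gt_mem_nhds (show (0:ℝ) < T1 ^ (-p) by positivity)), hz.eventually (gt_mem_nhds zero_lt_one),
    hz3.eventually (gt_mem_nhds (show (0:ℝ) < 1 / 2 by norm_num)),
    hz2.eventually hb, beat hθ0 hK, small_s] with s hs1 hs2 hs3 hs4 hs5 ⟨h0, h1, _⟩ l hl0 hl
  have hR : ∀ γ : ℝ, MM q γ ≠ 0 → MM q (γ + l) ≠ 0 → s ^ (-(1 + θ)) / 2 ≤ |γ| := by
    intro γ hm hm'
    have hl1 : l < 1 := by linarith
    have hne : γ ≠ γ + l := by linarith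
    have hd : |γ - (γ + l)| = l := by
      rw [show γ - (γ + l) = -l by ring, abs_neg, abs_of_pos hl0]
    have hb1 : |γ + l| ≤ |γ| + 1 := by
      refine (abs_add_le _ _).trans ?_
      rw [abs_of_pos hl0]
      linarith
    rcases le_or_gt T1 (|γ| + 1) with hc | hc
    · have h2 := (hT0 (|γ| + 1) (le_trans (by rw [hT1]; exact le_max_left _ _) hc)).1 γ (γ + l) hm hm' (by linarith) hb1 hne
      rw [hd, ← hp] at h2
      have h3 : (|γ| + 1) ^ (-p) ≤ s ^ (p * (1 + θ)) := by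
        rw [← hPp]
        linarith
      have hpos : 0 < |γ| + 1 := by positivity
      have h4 : s ^ (-(1 + θ)) ≤ |γ| + 1 := by
        by_contra hcon
        push Not at hcon
        have h5 : (s ^ (-(1 + θ))) ^ (-p) < (|γ| + 1) ^ (-p) :=
          Real.rpow_lt_rpow_of_neg hpos hcon (by linarith)
        rw [← Real.rpow_mul h0.le, show -(1 + θ) * -p = p * (1 + θ) by ring] at h5
        linarith
      have h6 : 2 ≤ s ^ (-(1 + θ)) := by
        rw [Real.rpow_neg h0.le]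
        have h7 : 0 < s ^ (1 + θ) := Real.rpow_pos_of_pos h0 _
        rw [le_inv_comm₀ (by norm_num) h7]
        linarith
      linarith
    · exfalso
      have h2 := (hT0 T1 (by rw [hT1]; exact le_max_left _ _)).1 γ (γ + l) hm hm' (by linarith) (by linarith) hne
      rw [hd, ← hp] at h2
      linarith
  have hR0 : 0 ≤ s ^ (-(1 + θ)) / 2 := by positivity
  have h2 := F_tail hG h0 h1 hR0 hR
  have h3 : (s * (s ^ (-(1 + θ)) / 2)) ^ 2 = s ^ (-(2 * θ)) / 4 := by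
    have e1 : s * s ^ (-(1 + θ)) = s ^ (-θ) := by
      nth_rewrite 1 [← Real.rpow_one s]
      rw [← Real.rpow_add h0]
      congr 1
      ring
    have e2 : s ^ (-(2 * θ)) = (s ^ (-θ)) ^ 2 := by
      rw [← Real.rpow_natCast, ← Real.rpow_mul h0.le]
      congr 1
      push_cast
      ring
    rw [e2, ← e1]
    ring
  rw [h3] at h2
  have h4 : -(s ^ (-(2 * θ)) / 4) / 4 = -(s ^ (-(2 * θ))) / 16 := by ring
  rw [h4] at h2
  have hn : 0 ≤ ∑' γ : ℝ, (MM q γ : ℝ) * Real.exp (-((s / 2 * γ) ^ 2)) := tsum_nonneg fun γ => by positivity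
  refine lt_of_le_of_lt (h2.trans ?_) hs5
  gcongr

/-- **the criterion** -/
theorem crit_sep {κ : ℝ} (hκ : 0 ≤ κ) : [
    GRH q ∧ Sep q κ,
    GRH q ∧ ∀ ε : ℝ, 0 < ε → ∃ η : ℝ, 0 < η ∧ ∀ᶠ s : ℝ in 𝓝[>] 0, ∀ l : ℝ, 0 < l → l ≤ s ^ (κ + ε) →
      ∀ᶠ V : ℝ in atTop, CC q s l V ≤ Real.exp (-(s ^ (-η))),
    (∃ B : ℝ, ∃ᶠ V : ℝ in atTop, CC q 1 0 V ≤ B) ∧ ∃ δ : ℝ, δ < Real.exp (-1) ∧ ∀ ε : ℝ, 0 < ε →
      ∀ᶠ s : ℝ in 𝓝[>] 0, ∀ l : ℝ, 0 < l → l ≤ s ^ (κ + ε) → ∃ᶠ V : ℝ in atTop, CC q s l V ≤ δ].TFAE := by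
  tfae_have 1 → 2 := by
    rintro ⟨hG, hS⟩
    refine ⟨hG, fun ε hε => ?_⟩
    obtain ⟨η, hη, h⟩ := bd_of_sep hκ hG hS hε
    refine ⟨η, hη, ?_⟩
    filter_upwards [h, small_s] with s hs ⟨h0, h1, _⟩ l hl0 hl
    filter_upwards [(cor_lim hG h0 h1 l).eventually (gt_mem_nhds (hs l hl0 hl))] with V hV
    exact hV.le
  tfae_have 2 → 3 := by
    rintro ⟨hG, h⟩
    refine ⟨⟨FF q 1 0 + 1, ?_⟩, Real.exp (-2), Real.exp_lt_exp.2 (by norm_num), fun ε hε => ?_⟩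
    · refine Eventually.frequently ?_
      filter_upwards [(cor_lim hG zero_lt_one le_rfl 0).eventually (gt_mem_nhds (lt_add_one _))] with V hV
      exact hV.le
    · obtain ⟨η, hη, h2⟩ := h ε hε
      have h3 : ∀ᶠ s : ℝ in 𝓝[>] 0, 2 ≤ s ^ (-η) := by
        have a1 : Tendsto (fun x : ℝ => x ^ η) atTop atTop := tendsto_rpow_atTop hη
        filter_upwards [tendsto_inv_nhdsGT_zero.eventually (a1.eventually_ge_atTop 2), self_mem_nhdsWithin] with s hs hs0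
        have hs0' : 0 < s := hs0
        rwa [Real.inv_rpow hs0'.le, ← Real.rpow_neg hs0'.le] at hs
      filter_upwards [h2, h3] with s hs hs3 l hl0 hl
      refine Eventually.frequently ?_
      filter_upwards [hs l hl0 hl] with V hV
      exact hV.trans (Real.exp_le_exp.2 (by linarith))
  tfae_have 3 → 1 := by
    rintro ⟨⟨B, hB⟩, δ, hδ, h⟩
    have hG : GRH q := grh_of_freq (s := 1) zero_lt_one le_rfl (C := B) (by
      refine hB.mono fun V hV => ?_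
      rwa [← CC_zero])
    exact ⟨hG, sep_of hG hδ h⟩
  tfae_finish

end Pool.Agent.X113.VG
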