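import Pool.Agent.X113.WG3

set_option autoImplicit false
set_option linter.unusedSectionVars false
set_option maxHeartbeats 2000000

/-! The smallest normalised gaps between the ordinates and the primes. -/

open MeasureTheory Filter Topology Set
open Pool.Agent.W263.BSD

namespace Pool.Agent.X113.VG

open Pool.Agent.X113.HQ hiding asym PS Jr er Jr_eq er_top er_bot PS_bot one_L one_chi rest_tendsto explq

variable {q : ℕ} [NeZero q]

/-- distinct ordinates up to `T` are at a distance at least `2πc / log T` -/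
def Gap (q : ℕ) [NeZero q] (c : ℝ) : Prop := ∀ᶠ T : ℝ in atTop, ∀ γ γ' : ℝ, MM q γ ≠ 0 → MM q γ' ≠ 0 →
  |γ| ≤ T → |γ'| ≤ T → γ ≠ γ' → 2 * Real.pi * c / Real.log T ≤ |γ - γ'|

/-- one pair of ordinates -/
lemma pair_low (hG : GRH q) {T : ℝ} (hT1 : 1 ≤ T) {x y : ℝ} (hx : MM q x ≠ 0) (hy : MM q y ≠ 0)
    (hbx : |x| ≤ T) (hby : |y| ≤ T) : Real.exp (-1) ≤ FF q T⁻¹ (y - x) := by
  have hT0 : 0 < T := by linarith
  have hs0 : 0 < T⁻¹ := inv_pos.2 hT0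
  have hs1 : T⁻¹ ≤ 1 := inv_le_one_of_one_le₀ hT1
  have h4 := (F_summ hG hs0 hs1 (y - x)).le_tsum x fun j _ => by positivity
  have h5 : Real.exp (-1) ≤ (MM q x : ℝ) * MM q (x + (y - x)) *
      Real.exp (-((T⁻¹) ^ 2 * (x ^ 2 + (x + (y - x)) ^ 2)) / 2) := by
    rw [add_sub_cancel]
    have e1 : (1:ℝ) ≤ MM q x := by exact_mod_cast Nat.one_le_iff_ne_zero.2 hx
    have e2 : (1:ℝ) ≤ MM q y := by exact_mod_cast Nat.one_le_iff_ne_zero.2 hy
    have e3 : (T⁻¹) ^ 2 * x ^ 2 ≤ 1 := by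
      have : x ^ 2 ≤ T ^ 2 := sq_le_sq' (by linarith [(abs_le.1 hbx).1]) (abs_le.1 hbx).2
      calc (T⁻¹) ^ 2 * x ^ 2 ≤ (T⁻¹) ^ 2 * T ^ 2 := by gcongr
        _ = 1 := by field_simp
    have e4 : (T⁻¹) ^ 2 * y ^ 2 ≤ 1 := by
      have : y ^ 2 ≤ T ^ 2 := sq_le_sq' (by linarith [(abs_le.1 hby).1]) (abs_le.1 hby).2
      calc (T⁻¹) ^ 2 * y ^ 2 ≤ (T⁻¹) ^ 2 * T ^ 2 := by gcongr
        _ = 1 := by field_simp
    have e5 : Real.exp (-1) ≤ Real.exp (-((T⁻¹) ^ 2 * (x ^ 2 + y ^ 2)) / 2) := Real.exp_le_exp.2 (by nlinarith)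
    have e6 : (1:ℝ) ≤ (MM q x : ℝ) * MM q y := by nlinarith
    calc Real.exp (-1) = 1 * Real.exp (-1) := (one_mul _).symm
      _ ≤ _ := mul_le_mul e6 e5 (Real.exp_pos _).le (by positivity)
  exact h5.trans h4

/-- from the primes to the zeros -/
theorem gap_of {c : ℝ} (hG : GRH q) {δ : ℝ} (hδ : δ < Real.exp (-1))
    (h : ∀ᶠ s : ℝ in 𝓝[>] 0, ∀ l : ℝ, 0 < l → l ≤ 2 * Real.pi * c / Real.log (1 / s) →
      ∃ᶠ V : ℝ in atTop, CC q s l V ≤ δ) : Gap q c := by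
  have h1 : Tendsto (fun T : ℝ => T⁻¹) atTop (𝓝[>] 0) := tendsto_inv_atTop_nhdsGT_zero
  filter_upwards [h1.eventually h, eventually_ge_atTop (1:ℝ)] with T hT hT1 γ γ' hm hm' hb hb' hne
  have hT0 : 0 < T := by linarith
  by_contra hcon
  push Not at hcon
  have key : ∀ x y : ℝ, MM q x ≠ 0 → MM q y ≠ 0 → |x| ≤ T → |y| ≤ T → x < y →
      y - x < 2 * Real.pi * c / Real.log T → False := by
    intro x y hx hy hbx hby hxy hd
    have h2 := hT (y - x) (by linarith) (by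
      rw [one_div, inv_inv]
      exact hd.le)
    have hs0 : 0 < T⁻¹ := inv_pos.2 hT0
    have hs1 : T⁻¹ ≤ 1 := inv_le_one_of_one_le₀ hT1
    have h3 := le_of_tendsto_of_frequently (cor_lim hG hs0 hs1 (y - x)) h2
    have h4 := pair_low hG hT1 hx hy hbx hby
    linarith
  rcases lt_or_gt_of_ne hne with h2 | h2
  · refine key γ γ' hm hm' hb hb' h2 ?_
    rwa [abs_sub_comm, abs_of_pos (by linarith)] at hcon
  · refine key γ' γ hm' hm hb' hb h2 ?_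
    rwa [abs_of_pos (by linarith)] at hcon

/-- the tail -/
lemma tail_concl (hG : GRH q) {θ : ℝ} (hθ0 : 0 < θ) : ∀ᶠ s : ℝ in 𝓝[>] 0, ∀ l : ℝ,
    (∀ γ : ℝ, MM q γ ≠ 0 → MM q (γ + l) ≠ 0 → s ^ (-(1 + θ)) / 2 ≤ |γ|) → FF q s l < Real.exp (-(s ^ (-θ))) := by
  obtain ⟨K, hK, hb⟩ := M1_bd (q := q) hG
  have hz2 : Tendsto (fun s : ℝ => s / 2) (𝓝[>] 0) (𝓝[>] 0) := by
    rw [tendsto_nhdsWithin_iff]
    constructor
    · have : Tendsto (fun s : ℝ => s / 2) (𝓝 0) (𝓝 (0 / 2)) := (continuous_id.div_const 2).tendsto 0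
      rw [zero_div] at this
      exact this.mono_left nhdsWithin_le_nhds
    · filter_upwards [self_mem_nhdsWithin] with s hs
      exact mem_Ioi.2 (half_pos (mem_Ioi.1 hs))
  filter_upwards [hz2.eventually hb, beat hθ0 hK, small_s] with s hs4 hs5 ⟨h0, h1, _⟩ l hR
  have hR0 : 0 ≤ s ^ (-(1 + θ)) / 2 := by positivity
  have h2 := F_tail hG h0 h1 hR0 hR
  have h3 : (s * (s ^ (-(1 + θ)) / 2)) ^ 2 = s ^ (-(2 * θ)) / 4 := by
    have e1 : s * s ^ (-(1 + θ)) = s ^ (-θ) := by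
      nth_rewrite 1 [← Real.rpow_one s]
      rw [← Real.rpow_add h0]
      congr 1
      ring
    have e2 : s ^ (-(2 * θ)) = (s ^ (-θ)) ^ 2 := by
      rw [← Real.rpow_natCast, ← Real.rpow_mul h0.le]
      congr 1
      push_cast
      ring
    rw [e2, ← e1]
    ring
  rw [h3] at h2
  have h4 : -(s ^ (-(2 * θ)) / 4) / 4 = -(s ^ (-(2 * θ))) / 16 := by ring
  rw [h4] at h2
  have hn : 0 ≤ ∑' γ : ℝ, (MM q γ : ℝ) * Real.exp (-((s / 2 * γ) ^ 2)) := tsum_nonneg fun γ => by positivity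
  refine lt_of_le_of_lt (h2.trans ?_) hs5
  gcongr

/-- **from the zeros to the primes** -/
theorem bd_of_gap (hG : GRH q) {c c' : ℝ} (hc' : 0 < c') (hcc : c' < c) (hS : Gap q c) :
    ∃ η : ℝ, 0 < η ∧ ∀ᶠ s : ℝ in 𝓝[>] 0, ∀ l : ℝ, 0 < l → l ≤ 2 * Real.pi * c' / Real.log (1 / s) →
      FF q s l < Real.exp (-(s ^ (-η))) := by
  have hc : 0 < c := by linarith
  obtain ⟨T0, hT0⟩ := eventually_atTop.1 hS
  obtain ⟨T1, hT1⟩ : ∃ T1 : ℝ, T1 = max T0 2 := ⟨_, rfl⟩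
  have hT1' : 2 ≤ T1 := by rw [hT1]; exact le_max_right _ _
  have hlT1 : 0 < Real.log T1 := Real.log_pos (by linarith)
  have hpi := Real.pi_pos
  obtain ⟨θ, hθ⟩ : ∃ θ : ℝ, θ = c / c' - 1 := ⟨_, rfl⟩
  have hθ0 : 0 < θ := by
    rw [hθ, sub_pos, lt_div_iff₀ hc']
    linarith
  refine ⟨θ, hθ0, ?_⟩
  have hlog : Tendsto (fun s : ℝ => Real.log (1 / s)) (𝓝[>] 0) atTop := by
    simp only [one_div]
    exact Real.tendsto_log_atTop.comp tendsto_inv_nhdsGT_zero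
  have hz : Tendsto (fun s : ℝ => 2 * Real.pi * c' / Real.log (1 / s)) (𝓝[>] 0) (𝓝 0) := hlog.const_div_atTop _
  have hz3 : Tendsto (fun s : ℝ => s ^ (1 + θ)) (𝓝[>] 0) (𝓝 0) := by
    have h1 : Tendsto (fun s : ℝ => s ^ (1 + θ)) (𝓝 0) (𝓝 ((0:ℝ) ^ (1 + θ))) :=
      (Real.continuousAt_rpow_const 0 (1 + θ) (Or.inr (by positivity))).tendsto
    rw [Real.zero_rpow (by positivity)] at h1
    exact h1.mono_left nhdsWithin_le_nhds
  filter_upwards [hz.eventually (gt_mem_nhds (show (0:ℝ) < 2 * Real.pi * c / Real.log T1 by positivity)),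
    hz.eventually (gt_mem_nhds zero_lt_one), hz3.eventually (gt_mem_nhds (show (0:ℝ) < 1 / 2 by norm_num)),
    tail_concl hG hθ0, small_s] with s hs1 hs2 hs3 hs4 ⟨h0, h1, hls⟩ l hl0 hl
  refine hs4 l fun γ hm hm' => ?_
  have hne : γ ≠ γ + l := by linarith
  have hd : |γ - (γ + l)| = l := by
    rw [show γ - (γ + l) = -l by ring, abs_neg, abs_of_pos hl0]
  have hb1 : |γ + l| ≤ |γ| + 1 := by
    refine (abs_add_le _ _).trans ?_
    rw [abs_of_pos hl0]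
    linarith
  rcases le_or_gt T1 (|γ| + 1) with hcse | hcse
  · have h2 := hT0 (|γ| + 1) (le_trans (by rw [hT1]; exact le_max_left _ _) hcse) γ (γ + l) hm hm' (by linarith) hb1 hne
    rw [hd] at h2
    have hlT : 0 < Real.log (|γ| + 1) := Real.log_pos (by linarith)
    have hpos : 0 < |γ| + 1 := by positivity
    have h3 : 2 * Real.pi * c / Real.log (|γ| + 1) ≤ 2 * Real.pi * c' / Real.log (1 / s) := h2.trans hl
    have h4 : (1 + θ) * Real.log (1 / s) ≤ Real.log (|γ| + 1) := by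
      rw [div_le_div_iff₀ hlT hls] at h3
      have h5 : 1 + θ = c / c' := by rw [hθ]; ring
      rw [h5, div_mul_eq_mul_div, div_le_iff₀ hc']
      have h6 : 2 * Real.pi * (c * Real.log (1 / s)) ≤ 2 * Real.pi * (Real.log (|γ| + 1) * c') := by linarith
      exact le_of_mul_le_mul_left h6 (by positivity)
    have h7 : s ^ (-(1 + θ)) ≤ |γ| + 1 := by
      rw [Real.rpow_def_of_pos h0, ← Real.exp_log hpos]
      refine Real.exp_le_exp.2 ?_
      rw [one_div, Real.log_inv] at h4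
      linarith
    have h6 : 2 ≤ s ^ (-(1 + θ)) := by
      rw [Real.rpow_neg h0.le]
      have h7 : 0 < s ^ (1 + θ) := Real.rpow_pos_of_pos h0 _
      rw [le_inv_comm₀ (by norm_num) h7]
      linarith
    linarith
  · exfalso
    have h2 := hT0 T1 (by rw [hT1]; exact le_max_left _ _) γ (γ + l) hm hm' (by linarith) (by linarith) hne
    rw [hd] at h2
    linarith

/-- **the criterion** -/
theorem crit_gap {c0 : ℝ} : [
    GRH q ∧ ∀ c : ℝ, 0 < c → c < c0 → Gap q c,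
    GRH q ∧ ∀ c : ℝ, 0 < c → c < c0 → ∃ η : ℝ, 0 < η ∧ ∀ᶠ s : ℝ in 𝓝[>] 0, ∀ l : ℝ, 0 < l →
      l ≤ 2 * Real.pi * c / Real.log (1 / s) → ∀ᶠ V : ℝ in atTop, CC q s l V ≤ Real.exp (-(s ^ (-η))),
    (∃ B : ℝ, ∃ᶠ V : ℝ in atTop, CC q 1 0 V ≤ B) ∧ ∀ c : ℝ, 0 < c → c < c0 → ∃ δ : ℝ, δ < Real.exp (-1) ∧
      ∀ᶠ s : ℝ in 𝓝[>] 0, ∀ l : ℝ, 0 < l → l ≤ 2 * Real.pi * c / Real.log (1 / s) →
        ∃ᶠ V : ℝ in atTop, CC q s l V ≤ δ].TFAE := by
  tfae_have 1 → 2 := by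
    rintro ⟨hG, hS⟩
    refine ⟨hG, fun c hc hc0 => ?_⟩
    obtain ⟨η, hη, h⟩ := bd_of_gap hG hc (c := (c + c0) / 2) (by linarith) (hS _ (by linarith) (by linarith))
    refine ⟨η, hη, ?_⟩
    filter_upwards [h, small_s] with s hs ⟨h0, h1, _⟩ l hl0 hl
    filter_upwards [(cor_lim hG h0 h1 l).eventually (gt_mem_nhds (hs l hl0 hl))] with V hV
    exact hV.le
  tfae_have 2 → 3 := by
    rintro ⟨hG, h⟩
    refine ⟨⟨FF q 1 0 + 1, ?_⟩, fun c hc hc0 => ⟨Real.exp (-2), Real.exp_lt_exp.2 (by norm_num), ?_⟩⟩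
    · refine Eventually.frequently ?_
      filter_upwards [(cor_lim hG zero_lt_one le_rfl 0).eventually (gt_mem_nhds (lt_add_one _))] with V hV
      exact hV.le
    · obtain ⟨η, hη, h2⟩ := h c hc hc0
      have h3 : ∀ᶠ s : ℝ in 𝓝[>] 0, 2 ≤ s ^ (-η) := by
        have a1 : Tendsto (fun x : ℝ => x ^ η) atTop atTop := tendsto_rpow_atTop hη
        filter_upwards [tendsto_inv_nhdsGT_zero.eventually (a1.eventually_ge_atTop 2), self_mem_nhdsWithin] with s hs hs0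
        have hs0' : 0 < s := hs0
        rwa [Real.inv_rpow hs0'.le, ← Real.rpow_neg hs0'.le] at hs
      filter_upwards [h2, h3] with s hs hs3 l hl0 hl
      refine Eventually.frequently ?_
      filter_upwards [hs l hl0 hl] with V hV
      exact hV.trans (Real.exp_le_exp.2 (by linarith))
  tfae_have 3 → 1 := by
    rintro ⟨⟨B, hB⟩, h⟩
    have hG : GRH q := grh_of_freq (s := 1) zero_lt_one le_rfl (C := B) (by
      refine hB.mono fun V hV => ?_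
      rwa [← CC_zero])
    refine ⟨hG, fun c hc hc0 => ?_⟩
    obtain ⟨δ, hδ, h2⟩ := h c hc hc0
    exact gap_of hG hδ h2
  tfae_finish

end Pool.Agent.X113.VG
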